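import Pool.Agent.KIQ.Defs

/-!
# CQB: bounds of the constants
-/

set_option autoImplicit false

open PowerSeries MeasureTheory Set

namespace Pool.Agent.KIQ

private theorem cqb_le_one {x : ℝ} (h1 : 1 ≤ x) (h2 : x ≤ 2) : Real.Gamma x ≤ 1 := by
  have hc := Real.convexOn_Gamma.2 (show (1 : ℝ) ∈ Ioi (0 : ℝ) from Set.mem_Ioi.2 one_pos)
    (show (2 : ℝ) ∈ Ioi (0 : ℝ) from Set.mem_Ioi.2 two_pos) (show (0 : ℝ) ≤ 2 - x by linarith)
    (show (0 : ℝ) ≤ x - 1 by linarith) (by ring)
  have h3 : (2 - x) • (1 : ℝ) + (x - 1) • (2 : ℝ) = x := by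
    simp only [smul_eq_mul]
    ring
  rw [h3, Real.Gamma_one, Real.Gamma_two] at hc
  simp only [smul_eq_mul] at hc
  linarith

private theorem cqb_one_sub {e : ℝ} (h1 : 0 ≤ e) (h2 : e < 1) :
    Real.Gamma (1 - e) ≤ 1 / (1 - e) := by
  have h3 : (0 : ℝ) < 1 - e := by linarith
  have h4 := Real.Gamma_add_one h3.ne'
  have h5 : 1 - e + 1 = 2 - e := by ring
  rw [h5] at h4
  have h6 := cqb_le_one (x := 2 - e) (by linarith) (by linarith)
  rw [le_div_iff₀ h3]
  linarith

private theorem cqb_rec {e : ℝ} (h : -1 < e) :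
    Real.Gamma (2 + e) = (1 + e) * Real.Gamma (1 + e) ∧
    Real.Gamma (3 + e) = (2 + e) * ((1 + e) * Real.Gamma (1 + e)) ∧
    Real.Gamma (4 + e) = (3 + e) * ((2 + e) * ((1 + e) * Real.Gamma (1 + e))) ∧
    Real.Gamma (5 + e) = (4 + e) * ((3 + e) * ((2 + e) * ((1 + e) * Real.Gamma (1 + e)))) := by
  have h1 := Real.Gamma_add_one (s := 1 + e) (by linarith)
  have h2 := Real.Gamma_add_one (s := 2 + e) (by linarith)
  have h3 := Real.Gamma_add_one (s := 3 + e) (by linarith)
  have h4 := Real.Gamma_add_one (s := 4 + e) (by linarith)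
  rw [show 1 + e + 1 = 2 + e by ring] at h1
  rw [show 2 + e + 1 = 3 + e by ring, h1] at h2
  rw [show 3 + e + 1 = 4 + e by ring, h2] at h3
  rw [show 4 + e + 1 = 5 + e by ring, h3] at h4
  exact ⟨h1, h2, h3, h4⟩

private theorem cqb_abs_sin (x : ℝ) (hx : 0 ≤ x) : |Real.sin x| ≤ x := by
  rw [abs_le]
  constructor
  · have := Real.sin_le hx
    have h2 := Real.neg_one_le_sin x
    rcases le_total x 1 with h3 | h3
    · have h4 := Real.sin_nonneg_of_nonneg_of_le_pi hx (by linarith [Real.pi_gt_three])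
      linarith
    · linarith
  · exact Real.sin_le hx

/-- for `e < 0` the product `(1 + e) Γ(1 + e)` is at most one -/
private theorem cqb_neg {e : ℝ} (h1 : -1 < e) (h2 : e ≤ 0) : (1 + e) * Real.Gamma (1 + e) ≤ 1 := by
  rw [← (cqb_rec h1).1]
  exact cqb_le_one (by linarith) (by linarith)

theorem cq3 {q : ℝ} (h1 : 1 < q) (h2 : q ≤ 5 / 4) :
    |Real.sin (Real.pi * q)| / Real.pi * (Real.Gamma (3 * q) * Real.Gamma (4 - 3 * q)) ≤
      20 * (q - 1) := by
  obtain ⟨e, he⟩ : ∃ e : ℝ, e = 3 * q - 3 := ⟨_, rfl⟩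
  have he0 : 0 < e := by linarith
  have he1 : e ≤ 3 / 4 := by linarith
  have h3 : 3 * q = 3 + e := by linarith
  have h4 : 4 - 3 * q = 1 - e := by linarith
  have hs : |Real.sin (Real.pi * q)| / Real.pi ≤ q - 1 := by
    have h5 : Real.sin (Real.pi * q) = -Real.sin (Real.pi * (q - 1)) := by
      rw [← Real.sin_add_pi]
      congr 1
      ring
    rw [h5, abs_neg, div_le_iff₀ Real.pi_pos]
    have := cqb_abs_sin (Real.pi * (q - 1)) (mul_nonneg Real.pi_pos.le (by linarith))
    linarith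
  have hg1 : Real.Gamma (3 * q) ≤ (2 + e) * (1 + e) := by
    rw [h3, (cqb_rec (by linarith : -1 < e)).2.1]
    have := cqb_le_one (x := 1 + e) (by linarith) (by linarith)
    have h6 : (1 + e) * Real.Gamma (1 + e) ≤ (1 + e) * 1 :=
      mul_le_mul_of_nonneg_left this (by linarith)
    have h7 := mul_le_mul_of_nonneg_left h6 (by linarith : 0 ≤ 2 + e)
    linarith
  have hg2 : Real.Gamma (4 - 3 * q) ≤ 4 := by
    rw [h4]
    refine (cqb_one_sub he0.le (by linarith)).trans ?_
    rw [div_le_iff₀ (by linarith)]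
    linarith
  have hp1 : 0 < Real.Gamma (3 * q) := Real.Gamma_pos_of_pos (by linarith)
  have hp2 : 0 < Real.Gamma (4 - 3 * q) := Real.Gamma_pos_of_pos (by linarith)
  have hb : (2 + e) * (1 + e) ≤ (11 / 4) * (7 / 4) :=
    mul_le_mul (by linarith) (by linarith) (by linarith) (by norm_num)
  have hprod : Real.Gamma (3 * q) * Real.Gamma (4 - 3 * q) ≤ (11 / 4) * (7 / 4) * 4 :=
    mul_le_mul (hg1.trans hb) hg2 hp2.le (by norm_num)
  calc |Real.sin (Real.pi * q)| / Real.pi * (Real.Gamma (3 * q) * Real.Gamma (4 - 3 * q))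
      ≤ (q - 1) * ((11 / 4) * (7 / 4) * 4) :=
        mul_le_mul hs hprod (by positivity) (by linarith)
    _ ≤ 20 * (q - 1) := by linarith

theorem cq4 {q : ℝ} (h1 : 5 / 4 ≤ q) (h2 : q ≤ 8 / 5) :
    |Real.sin (Real.pi * q)| / Real.pi * (Real.Gamma (3 * q) * Real.Gamma (5 - 3 * q)) ≤ 31 := by
  obtain ⟨e, he⟩ : ∃ e : ℝ, e = 3 * q - 4 := ⟨_, rfl⟩
  have he0 : -(1 / 4) ≤ e := by linarith
  have he1 : e ≤ 4 / 5 := by linarith
  have h3 : 3 * q = 4 + e := by linarith
  have h4 : 5 - 3 * q = 1 - e := by linarith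
  have hpi : 3.14 < Real.pi := Real.pi_gt_d2
  have hs : |Real.sin (Real.pi * q)| / Real.pi ≤ 1 / 3.14 := by
    rw [div_le_div_iff₀ Real.pi_pos (by norm_num)]
    have := Real.abs_sin_le_one (Real.pi * q)
    linarith
  have hp1 : 0 < Real.Gamma (3 * q) := Real.Gamma_pos_of_pos (by linarith)
  have hp2 : 0 < Real.Gamma (5 - 3 * q) := Real.Gamma_pos_of_pos (by linarith)
  have hprod : Real.Gamma (3 * q) * Real.Gamma (5 - 3 * q) ≤ 95.76 := by
    rw [h4, h3, (cqb_rec (by linarith : -1 < e)).2.2.1]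
    have hG1 : 0 < Real.Gamma (1 + e) := Real.Gamma_pos_of_pos (by linarith)
    have hG2 : 0 < Real.Gamma (1 - e) := Real.Gamma_pos_of_pos (by linarith)
    rcases le_total 0 e with h5 | h5
    · have h6 := cqb_le_one (x := 1 + e) (by linarith) (by linarith)
      have h7 : Real.Gamma (1 - e) ≤ 5 := by
        refine (cqb_one_sub h5 (by linarith)).trans ?_
        rw [div_le_iff₀ (by linarith)]
        linarith
      have h8 : (1 + e) * Real.Gamma (1 + e) ≤ 1.8 * 1 :=
        mul_le_mul (by linarith) h6 hG1.le (by norm_num)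
      have h9 : (2 + e) * ((1 + e) * Real.Gamma (1 + e)) ≤ 2.8 * (1.8 * 1) :=
        mul_le_mul (by linarith) h8 (mul_nonneg (by linarith) hG1.le) (by norm_num)
      have h10 : (3 + e) * ((2 + e) * ((1 + e) * Real.Gamma (1 + e))) ≤ 3.8 * (2.8 * (1.8 * 1)) :=
        mul_le_mul (by linarith) h9 (mul_nonneg (by linarith) (mul_nonneg (by linarith) hG1.le))
          (by norm_num)
      have h11 := mul_le_mul h10 h7 hG2.le (by norm_num)
      refine h11.trans ?_
      norm_num
    · have h6 := cqb_neg (by linarith : -1 < e) h5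
      have h7 := cqb_le_one (x := 1 - e) (by linarith) (by linarith)
      have h9 : (2 + e) * ((1 + e) * Real.Gamma (1 + e)) ≤ 2 * 1 :=
        mul_le_mul (by linarith) h6 (mul_nonneg (by linarith) hG1.le) (by norm_num)
      have h10 : (3 + e) * ((2 + e) * ((1 + e) * Real.Gamma (1 + e))) ≤ 3 * (2 * 1) :=
        mul_le_mul (by linarith) h9 (mul_nonneg (by linarith) (mul_nonneg (by linarith) hG1.le))
          (by norm_num)
      have h11 := mul_le_mul h10 h7 hG2.le (by norm_num)
      refine h11.trans ?_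
      norm_num
  calc |Real.sin (Real.pi * q)| / Real.pi * (Real.Gamma (3 * q) * Real.Gamma (5 - 3 * q))
      ≤ (1 / 3.14) * 95.76 := mul_le_mul hs hprod (by positivity) (by norm_num)
    _ ≤ 31 := by norm_num

theorem cq5 {q : ℝ} (h1 : 8 / 5 ≤ q) (h2 : q < 2) :
    |Real.sin (Real.pi * q)| / Real.pi * (Real.Gamma (3 * q) * Real.Gamma (6 - 3 * q)) ≤ 40 := by
  obtain ⟨e, he⟩ : ∃ e : ℝ, e = 3 * q - 5 := ⟨_, rfl⟩
  have he0 : -(1 / 5) ≤ e := by linarith
  have he1 : e < 1 := by linarith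
  have h3 : 3 * q = 5 + e := by linarith
  have h4 : 6 - 3 * q = 1 - e := by linarith
  have hpi : 3.14 < Real.pi := Real.pi_gt_d2
  have hp1 : 0 < Real.Gamma (3 * q) := Real.Gamma_pos_of_pos (by linarith)
  have hp2 : 0 < Real.Gamma (6 - 3 * q) := Real.Gamma_pos_of_pos (by linarith)
  have hG1 : 0 < Real.Gamma (1 + e) := Real.Gamma_pos_of_pos (by linarith)
  have hG2 : 0 < Real.Gamma (1 - e) := Real.Gamma_pos_of_pos (by linarith)
  rcases le_total 0 e with h5 | h5
  · have hs : |Real.sin (Real.pi * q)| / Real.pi ≤ (1 - e) / 3 := by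
      have h6 : Real.sin (Real.pi * q) = -Real.sin (Real.pi * (2 - q)) := by
        rw [← Real.sin_neg, ← Real.sin_add_two_pi (-(Real.pi * (2 - q)))]
        congr 1
        ring
      rw [h6, abs_neg, div_le_iff₀ Real.pi_pos]
      have := cqb_abs_sin (Real.pi * (2 - q)) (mul_nonneg Real.pi_pos.le (by linarith))
      refine this.trans (le_of_eq ?_)
      rw [he]
      ring
    have h6 := cqb_le_one (x := 1 + e) (by linarith) (by linarith)
    have h7 : Real.Gamma (3 * q) ≤ 120 := by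
      rw [h3, (cqb_rec (by linarith : -1 < e)).2.2.2]
      have h8 : (1 + e) * Real.Gamma (1 + e) ≤ 2 * 1 :=
        mul_le_mul (by linarith) h6 hG1.le (by norm_num)
      have h9 : (2 + e) * ((1 + e) * Real.Gamma (1 + e)) ≤ 3 * (2 * 1) :=
        mul_le_mul (by linarith) h8 (mul_nonneg (by linarith) hG1.le) (by norm_num)
      have h10 : (3 + e) * ((2 + e) * ((1 + e) * Real.Gamma (1 + e))) ≤ 4 * (3 * (2 * 1)) :=
        mul_le_mul (by linarith) h9 (mul_nonneg (by linarith) (mul_nonneg (by linarith) hG1.le))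
          (by norm_num)
      have h11 : (4 + e) * ((3 + e) * ((2 + e) * ((1 + e) * Real.Gamma (1 + e)))) ≤
          5 * (4 * (3 * (2 * 1))) :=
        mul_le_mul (by linarith) h10 (mul_nonneg (by linarith) (mul_nonneg (by linarith)
          (mul_nonneg (by linarith) hG1.le))) (by norm_num)
      refine h11.trans ?_
      norm_num
    have h8 : (1 - e) / 3 * Real.Gamma (6 - 3 * q) ≤ 1 / 3 := by
      rw [h4]
      have h9 := cqb_one_sub h5 he1
      rw [le_div_iff₀ (by linarith)] at h9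
      linarith
    calc |Real.sin (Real.pi * q)| / Real.pi * (Real.Gamma (3 * q) * Real.Gamma (6 - 3 * q))
        ≤ (1 - e) / 3 * (Real.Gamma (3 * q) * Real.Gamma (6 - 3 * q)) :=
          mul_le_mul_of_nonneg_right hs (by positivity)
      _ = Real.Gamma (3 * q) * ((1 - e) / 3 * Real.Gamma (6 - 3 * q)) := by ring
      _ ≤ 120 * (1 / 3) := mul_le_mul h7 h8
          (mul_nonneg (div_nonneg (by linarith) (by norm_num)) hp2.le) (by norm_num)
      _ = 40 := by norm_num
  · have hs : |Real.sin (Real.pi * q)| / Real.pi ≤ 1 / 3.14 := by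
      rw [div_le_div_iff₀ Real.pi_pos (by norm_num)]
      have := Real.abs_sin_le_one (Real.pi * q)
      linarith
    have hprod : Real.Gamma (3 * q) * Real.Gamma (6 - 3 * q) ≤ 24 := by
      rw [h4, h3, (cqb_rec (by linarith : -1 < e)).2.2.2]
      have h6 := cqb_neg (by linarith : -1 < e) h5
      have h7 := cqb_le_one (x := 1 - e) (by linarith) (by linarith)
      have h9 : (2 + e) * ((1 + e) * Real.Gamma (1 + e)) ≤ 2 * 1 :=
        mul_le_mul (by linarith) h6 (mul_nonneg (by linarith) hG1.le) (by norm_num)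
      have h10 : (3 + e) * ((2 + e) * ((1 + e) * Real.Gamma (1 + e))) ≤ 3 * (2 * 1) :=
        mul_le_mul (by linarith) h9 (mul_nonneg (by linarith) (mul_nonneg (by linarith) hG1.le))
          (by norm_num)
      have h11 : (4 + e) * ((3 + e) * ((2 + e) * ((1 + e) * Real.Gamma (1 + e)))) ≤
          4 * (3 * (2 * 1)) :=
        mul_le_mul (by linarith) h10 (mul_nonneg (by linarith) (mul_nonneg (by linarith)
          (mul_nonneg (by linarith) hG1.le))) (by norm_num)
      have h12 := mul_le_mul h11 h7 hG2.le (by norm_num)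
      refine h12.trans ?_
      norm_num
    calc |Real.sin (Real.pi * q)| / Real.pi * (Real.Gamma (3 * q) * Real.Gamma (6 - 3 * q))
        ≤ (1 / 3.14) * 24 := mul_le_mul hs hprod (by positivity) (by norm_num)
      _ ≤ 40 := by norm_num

private theorem cqb_five {s : ℝ} (h3 : 3 < s) (h4 : s ≠ 4) :
    Real.Gamma s * Real.Gamma (5 - s) =
      ((s - 1) * (s - 2) * (s - 3) * (s - 4)) * (Real.pi / Real.sin (Real.pi * s)) := by
  have h0 := Real.Gamma_mul_Gamma_one_sub s
  have k1 := Real.Gamma_add_one (s := 1 - s) (by intro h; linarith)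
  have k2 := Real.Gamma_add_one (s := 2 - s) (by intro h; linarith)
  have k3 := Real.Gamma_add_one (s := 3 - s) (by intro h; linarith)
  have k4 := Real.Gamma_add_one (s := 4 - s) (by intro h; exact h4 (by linarith))
  rw [show 1 - s + 1 = 2 - s by ring] at k1
  rw [show 2 - s + 1 = 3 - s by ring, k1] at k2
  rw [show 3 - s + 1 = 4 - s by ring, k2] at k3
  rw [show 4 - s + 1 = 5 - s by ring, k3] at k4
  rw [k4, ← h0]
  ring

theorem sin_eq4 {q : ℝ} (h1 : 1 < q) (h2 : q < 5 / 3) :
    Real.sin (3 * Real.pi * q) / Real.pi =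
      (3 * q - 1) * (3 * q - 2) * (3 * q - 3) * (3 * q - 4) /
        (Real.Gamma (3 * q) * Real.Gamma (5 - 3 * q)) := by
  by_cases h4 : 3 * q = 4
  · have h5 : Real.sin (3 * Real.pi * q) = 0 := by
      have h6 : 3 * Real.pi * q = (4 : ℕ) * Real.pi := by
        push_cast
        rw [← h4]
        ring
      rw [h6, Real.sin_nat_mul_pi]
    rw [h5, h4]
    simp
  · rw [cqb_five (by linarith) h4]
    have hC : (3 * q - 1) * (3 * q - 2) * (3 * q - 3) * (3 * q - 4) ≠ 0 := by
      refine mul_ne_zero (mul_ne_zero (mul_ne_zero ?_ ?_) ?_) ?_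
      · intro h; linarith
      · intro h; linarith
      · intro h; linarith
      · intro h; exact h4 (by linarith)
    rw [div_mul_cancel_left₀ hC, inv_div]
    congr 2
    ring

theorem sin_eq5 {q : ℝ} (h1 : 1 < q) (h2 : q < 2) :
    Real.sin (3 * Real.pi * q) / Real.pi =
      -((3 * q - 1) * (3 * q - 2) * (3 * q - 3) * (3 * q - 4) * (3 * q - 5) /
        (Real.Gamma (3 * q) * Real.Gamma (6 - 3 * q))) := by
  by_cases h4 : 3 * q = 4
  · have h5 : Real.sin (3 * Real.pi * q) = 0 := by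
      have h6 : 3 * Real.pi * q = (4 : ℕ) * Real.pi := by
        push_cast
        rw [← h4]
        ring
      rw [h6, Real.sin_nat_mul_pi]
    rw [h5, h4]
    simp
  by_cases h5 : 3 * q = 5
  · have h6 : Real.sin (3 * Real.pi * q) = 0 := by
      have h7 : 3 * Real.pi * q = (5 : ℕ) * Real.pi := by
        push_cast
        rw [← h5]
        ring
      rw [h7, Real.sin_nat_mul_pi]
    rw [h6, h5]
    simp
  · have k5 := Real.Gamma_add_one (s := 5 - 3 * q) (by intro h; exact h5 (by linarith))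
    rw [show 5 - 3 * q + 1 = 6 - 3 * q by ring] at k5
    have h7 : Real.Gamma (3 * q) * Real.Gamma (6 - 3 * q) =
        (5 - 3 * q) * (Real.Gamma (3 * q) * Real.Gamma (5 - 3 * q)) := by
      rw [k5]
      ring
    rw [h7, cqb_five (by linarith) h4]
    have hC : (3 * q - 1) * (3 * q - 2) * (3 * q - 3) * (3 * q - 4) * (3 * q - 5) ≠ 0 := by
      refine mul_ne_zero (mul_ne_zero (mul_ne_zero (mul_ne_zero ?_ ?_) ?_) ?_) ?_
      · intro h; linarith
      · intro h; linarith
      · intro h; linarith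
      · intro h; exact h4 (by linarith)
      · intro h; exact h5 (by linarith)
    have h8 : (5 - 3 * q) * (((3 * q - 1) * (3 * q - 2) * (3 * q - 3) * (3 * q - 4)) *
        (Real.pi / Real.sin (Real.pi * (3 * q)))) =
        ((3 * q - 1) * (3 * q - 2) * (3 * q - 3) * (3 * q - 4) * (3 * q - 5)) *
          (-(Real.pi / Real.sin (Real.pi * (3 * q)))) := by ring
    rw [h8, div_mul_cancel_left₀ hC, inv_neg, inv_div, neg_neg]
    congr 2
    ring

end Pool.Agent.KIQ
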