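import Pool.Agent.KIQ.Defs

/-!
# DER: the derivative chain of Phi
-/

set_option autoImplicit false

open PowerSeries Finset

namespace Pool.Agent.KIQ

private theorem der_sinh (T u : ℝ) : Real.sinh (vv T u) = T * Real.sinh u := by
  unfold vv
  exact Real.sinh_arsinh _

private theorem der_cosh (T u : ℝ) : Real.cosh (vv T u) = Real.sqrt (1 + (T * Real.sinh u) ^ 2) := by
  unfold vv
  exact Real.cosh_arsinh _

private theorem der_cosh_sq (T u : ℝ) :
    Real.cosh (vv T u) ^ 2 = 1 + (T * Real.sinh u) ^ 2 := by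
  rw [der_cosh, Real.sq_sqrt (by positivity)]

theorem vv_pos {T u : ℝ} (hT : 1 ≤ T) (hu : 0 < u) : 0 < vv T u := by
  unfold vv
  rw [Real.arsinh_pos_iff]
  exact mul_pos (by linarith) (Real.sinh_pos_iff.2 hu)

theorem th_pos {T u : ℝ} (hT : 1 ≤ T) (hu : 0 < u) : 0 < th T u := by
  unfold th
  rw [Real.tanh_eq_sinh_div_cosh]
  exact div_pos (Real.sinh_pos_iff.2 (vv_pos hT hu)) (Real.cosh_pos _)

theorem th_lt_one (T u : ℝ) : th T u < 1 := by
  unfold th
  exact Real.tanh_lt_one _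

theorem RR_pos {T : ℝ} (hT : 1 ≤ T) (u : ℝ) : 0 < RR T u := by
  unfold RR
  exact div_pos (mul_pos (by linarith) (Real.cosh_pos _)) (Real.cosh_pos _)

theorem one_le_RR {T : ℝ} (hT : 1 ≤ T) (u : ℝ) : 1 ≤ RR T u := by
  unfold RR
  rw [le_div_iff₀ (Real.cosh_pos _), one_mul]
  have h1 := der_cosh_sq T u
  have h2 := Real.cosh_sq u
  have h3 : 0 ≤ T * Real.cosh u := mul_nonneg (by linarith) (Real.cosh_pos _).le
  refine le_of_sq_le_sq ?_ h3
  rw [h1, mul_pow, mul_pow, h2]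
  have h4 : 1 ≤ T ^ 2 := one_le_pow₀ hT
  linarith

theorem XX_nonneg {T : ℝ} (hT : 1 ≤ T) (u : ℝ) : 0 ≤ XX T u := by
  unfold XX
  have := one_le_pow₀ (one_le_RR hT u) (n := 2)
  linarith

/-- `tanh u = theta / R`. -/
theorem tanh_eq {T u : ℝ} (hT : 1 ≤ T) (hu : 0 < u) : Real.tanh u = th T u / RR T u := by
  have hT0 : T ≠ 0 := by
    intro h
    linarith
  have h1 := (Real.cosh_pos u).ne'
  have h2 := (Real.cosh_pos (vv T u)).ne'
  unfold th RR
  rw [Real.tanh_eq_sinh_div_cosh, Real.tanh_eq_sinh_div_cosh, der_sinh]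
  field_simp

private theorem der_vv (T u : ℝ) : HasDerivAt (fun u => vv T u) (RR T u) u := by
  have h1 : HasDerivAt (fun u => T * Real.sinh u) (T * Real.cosh u) u :=
    (Real.hasDerivAt_sinh u).const_mul T
  have h2 := (Real.hasDerivAt_arsinh (T * Real.sinh u)).comp u h1
  refine h2.congr_deriv ?_
  unfold RR
  rw [der_cosh]
  ring

private theorem der_th (T u : ℝ) :
    HasDerivAt (fun u => th T u) ((1 - th T u ^ 2) * RR T u) u := by
  have h0 := (Real.cosh_pos (vv T u)).ne'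
  have h1 := (Real.hasDerivAt_sinh (vv T u)).comp u (der_vv T u)
  have h2 := (Real.hasDerivAt_cosh (vv T u)).comp u (der_vv T u)
  have h3 := h1.div h2 h0
  have h4 : (fun u => th T u) = (fun u => Real.sinh (vv T u) / Real.cosh (vv T u)) := by
    funext w
    unfold th
    rw [Real.tanh_eq_sinh_div_cosh]
  rw [h4]
  refine h3.congr_deriv ?_
  unfold th
  rw [Real.tanh_eq_sinh_div_cosh]
  simp only [Function.comp]
  field_simp

private theorem der_RR (T u : ℝ) :
    HasDerivAt (fun u => RR T u) (-(th T u * XX T u)) u := by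
  have h0 := (Real.cosh_pos (vv T u)).ne'
  have h1 : HasDerivAt (fun u => T * Real.cosh u) (T * Real.sinh u) u :=
    (Real.hasDerivAt_cosh u).const_mul T
  have h2 := (Real.hasDerivAt_cosh (vv T u)).comp u (der_vv T u)
  have h3 := h1.div h2 h0
  have h4 : (fun u => RR T u) = (fun u => T * Real.cosh u / Real.cosh (vv T u)) := rfl
  rw [h4]
  refine h3.congr_deriv ?_
  unfold XX th
  rw [Real.tanh_eq_sinh_div_cosh, ← der_sinh]
  simp only [Function.comp]
  unfold RR
  field_simp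
  ring

private theorem der_XX (T u : ℝ) :
    HasDerivAt (fun u => XX T u) (-(2 * RR T u * th T u * XX T u)) u := by
  have h1 := ((der_RR T u).pow 2).sub_const 1
  have h4 : (fun u => XX T u) = (fun u => RR T u ^ 2 - 1) := rfl
  rw [h4]
  refine h1.congr_deriv ?_
  simp
  ring

private theorem pp_zero (s : ℕ) (a q : ℝ) (p0 : Polynomial ℝ) (k : ℕ) :
    ∀ i, k < i → pp s a q p0 k i = 0 := by
  induction k with
  | zero =>
    intro i hi
    cases i with
    | zero => omega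
    | succ i => simp [pp]
  | succ k ih =>
    intro i hi
    cases i with
    | zero => omega
    | succ i =>
      simp only [pp]
      rw [ih (i + 1) (by omega), ih i (by omega)]
      simp [opA]

private theorem opA_eval (a : ℝ) (k : ℕ) (c : ℝ) (p : Polynomial ℝ) (x : ℝ) :
    (opA a k c p).eval x = a * x * p.eval x -
      (1 - x ^ 2) * (x * p.derivative.eval x - ((k : ℝ) + 1) * p.eval x) + c * x ^ 2 * p.eval x := by
  unfold opA
  simp

private theorem pp_sum (s : ℕ) (a q : ℝ) (p0 : Polynomial ℝ) (k : ℕ) (x X : ℝ) :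
    (∑ i ∈ range (k + 1 + 1), X ^ i * (pp s a q p0 (k + 1) i).eval x) =
      (1 + X) * (a * x * (∑ i ∈ range (k + 1), X ^ i * (pp s a q p0 k i).eval x) -
        (1 - x ^ 2) * ((∑ i ∈ range (k + 1), X ^ i * (x * (pp s a q p0 k i).derivative.eval x)) -
          ((k : ℝ) + 1) * ∑ i ∈ range (k + 1), X ^ i * (pp s a q p0 k i).eval x) +
        s * x ^ 2 * (∑ i ∈ range (k + 1), X ^ i * (pp s a q p0 k i).eval x) +
        2 * x ^ 2 * ∑ i ∈ range (k + 1), (i : ℝ) * X ^ i * (pp s a q p0 k i).eval x) +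
      (q - k) * x ^ 2 * X * ∑ i ∈ range (k + 1), X ^ i * (pp s a q p0 k i).eval x := by
  rw [Finset.sum_range_succ']
  simp only [pp]
  have h1 : (∑ i ∈ range (k + 1), X ^ (i + 1) *
      (opA a k (↑s + 2 * (↑i + 1)) (pp s a q p0 k (i + 1)) +
        opA a k (↑s + 2 * ↑i + q - ↑k) (pp s a q p0 k i)).eval x) + X ^ 0 *
      (opA a k (↑s) (pp s a q p0 k 0)).eval x =
      (∑ i ∈ range (k + 1 + 1), X ^ i * (opA a k (s + 2 * (i : ℝ)) (pp s a q p0 k i)).eval x) +
      X * ∑ i ∈ range (k + 1), X ^ i *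
        (opA a k (↑s + 2 * ↑i + q - ↑k) (pp s a q p0 k i)).eval x := by
    rw [Finset.sum_range_succ' _ (k + 1), Finset.mul_sum]
    have h2 : ∀ i ∈ range (k + 1), X ^ (i + 1) *
      (opA a k (↑s + 2 * (↑i + 1)) (pp s a q p0 k (i + 1)) +
        opA a k (↑s + 2 * ↑i + q - ↑k) (pp s a q p0 k i)).eval x =
        X ^ (i + 1) * (opA a k (↑s + 2 * ((i + 1 : ℕ) : ℝ)) (pp s a q p0 k (i + 1))).eval x +
        X * (X ^ i * (opA a k (↑s + 2 * ↑i + q - ↑k) (pp s a q p0 k i)).eval x) := by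
      intro i hi
      push_cast
      rw [Polynomial.eval_add]
      ring
    rw [Finset.sum_congr rfl h2, Finset.sum_add_distrib]
    simp
    ring
  rw [h1, Finset.sum_range_succ _ (k + 1), pp_zero s a q p0 k (k + 1) (by omega)]
  have h3 : (opA a k (↑s + 2 * ((k + 1 : ℕ) : ℝ)) 0).eval x = 0 := by
    rw [opA_eval]
    simp
  rw [h3, mul_zero, add_zero]
  simp only [Finset.mul_sum, ← Finset.sum_add_distrib, ← Finset.sum_sub_distrib, opA_eval]
  refine Finset.sum_congr rfl fun i hi => ?_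
  ring

private theorem der_sum (s : ℕ) (a q : ℝ) (p0 : Polynomial ℝ) (k : ℕ) (T u : ℝ) :
    HasDerivAt (fun u => ∑ i ∈ range (k + 1), XX T u ^ i * (pp s a q p0 k i).eval (th T u))
      (RR T u * (-(2 * th T u) *
          (∑ i ∈ range (k + 1), (i : ℝ) * XX T u ^ i * (pp s a q p0 k i).eval (th T u)) +
        (1 - th T u ^ 2) * ∑ i ∈ range (k + 1), XX T u ^ i *
          (pp s a q p0 k i).derivative.eval (th T u))) u := by
  have h1 : ∀ i ∈ range (k + 1),
      HasDerivAt (fun u => XX T u ^ i * (pp s a q p0 k i).eval (th T u))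
        ((i : ℝ) * XX T u ^ (i - 1) * (-(2 * RR T u * th T u * XX T u)) *
          (pp s a q p0 k i).eval (th T u) + XX T u ^ i *
          ((pp s a q p0 k i).derivative.eval (th T u) * ((1 - th T u ^ 2) * RR T u))) u := by
    intro i hi
    have h2 := (der_XX T u).pow i
    have h3 := ((pp s a q p0 k i).hasDerivAt (th T u)).comp u (der_th T u)
    exact h2.mul h3
  have h2 := HasDerivAt.fun_sum h1
  refine h2.congr_deriv ?_
  simp only [Finset.mul_sum, ← Finset.sum_add_distrib]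
  refine Finset.sum_congr rfl fun i hi => ?_
  rcases Nat.eq_zero_or_pos i with h0 | h0
  · subst h0
    simp
    ring
  · have h4 : XX T u ^ i = XX T u ^ (i - 1) * XX T u := by
      rw [← pow_succ]
      congr 1
      omega
    rw [h4]
    ring

theorem Phi_hasDerivAt (s : ℕ) (a q : ℝ) (p0 : Polynomial ℝ) (k : ℕ) {T u : ℝ} (hT : 1 ≤ T)
    (hu : 0 < u) :
    HasDerivAt (fun u => Phi s a q p0 k T u) (-Phi s a q p0 (k + 1) T u) u := by
  have hth := th_pos hT hu
  have hR := RR_pos hT u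
  have hc := (Real.cosh_pos (vv T u)).ne'
  have hE : HasDerivAt (fun u => Real.exp (-(a * vv T u)))
      (Real.exp (-(a * vv T u)) * (-(a * RR T u))) u :=
    (((der_vv T u).const_mul a).neg).exp
  have hS : HasDerivAt (fun u => (1 / Real.cosh (vv T u)) ^ s)
      (-(s * th T u * RR T u) * (1 / Real.cosh (vv T u)) ^ s) u := by
    have h2 := (Real.hasDerivAt_cosh (vv T u)).comp u (der_vv T u)
    have h3 := (h2.inv hc).pow s
    have h4 : (fun u => (1 / Real.cosh (vv T u)) ^ s) =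
        ((Real.cosh ∘ fun u => vv T u)⁻¹) ^ s := by
      funext w
      simp
    rw [h4]
    refine h3.congr_deriv ?_
    unfold th
    rw [Real.tanh_eq_sinh_div_cosh]
    rcases Nat.eq_zero_or_pos s with h0 | h0
    · subst h0
      simp
    · have h5 : (1 / Real.cosh (vv T u)) ^ s =
          (1 / Real.cosh (vv T u)) ^ (s - 1) * (1 / Real.cosh (vv T u)) := by
        rw [← pow_succ]
        congr 1
        omega
      rw [h5]
      simp only [Function.comp, Pi.inv_apply]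
      rw [← one_div]
      field_simp
  have hQ : HasDerivAt (fun u => RR T u ^ (q - k))
      (-(th T u * XX T u) * (q - k) * RR T u ^ (q - k - 1)) u :=
    (der_RR T u).rpow_const (Or.inl hR.ne')
  have hA := der_sum s a q p0 k T u
  have hD := (der_th T u).pow (k + 1)
  have hF := ((hE.mul hS).mul hQ).mul (hA.div hD (pow_ne_zero _ hth.ne'))
  have hfun : (fun u => Phi s a q p0 k T u) = fun u =>
      Real.exp (-(a * vv T u)) * (1 / Real.cosh (vv T u)) ^ s * RR T u ^ (q - k) *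
    ((∑ i ∈ range (k + 1), XX T u ^ i * (pp s a q p0 k i).eval (th T u)) / th T u ^ (k + 1)) := rfl
  rw [hfun]
  refine hF.congr_deriv ?_
  unfold Phi
  rw [pp_sum]
  have hB : (∑ i ∈ range (k + 1), XX T u ^ i *
      (th T u * (pp s a q p0 k i).derivative.eval (th T u))) = th T u *
      ∑ i ∈ range (k + 1), XX T u ^ i * (pp s a q p0 k i).derivative.eval (th T u) := by
    rw [Finset.mul_sum]
    refine Finset.sum_congr rfl fun i hi => ?_
    ring
  rw [hB]
  have hq1 : q - ((k + 1 : ℕ) : ℝ) = q - k - 1 := by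
    push_cast
    ring
  have hq2 : RR T u ^ (q - k) = RR T u ^ (q - k - 1) * RR T u := by
    rw [← Real.rpow_add_one hR.ne']
    congr 1
    ring
  have hX : 1 + XX T u = RR T u ^ 2 := by
    unfold XX
    ring
  rw [hq1, hX]
  simp only [Pi.mul_apply, Pi.pow_apply, Pi.div_apply]
  rw [hq2]
  obtain ⟨A, hA'⟩ : ∃ A, A = ∑ i ∈ range (k + 1), XX T u ^ i * (pp s a q p0 k i).eval (th T u) :=
    ⟨_, rfl⟩
  obtain ⟨B, hB'⟩ : ∃ B, B = ∑ i ∈ range (k + 1), XX T u ^ i *
      (pp s a q p0 k i).derivative.eval (th T u) := ⟨_, rfl⟩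
  obtain ⟨C, hC'⟩ : ∃ C, C = ∑ i ∈ range (k + 1), (i : ℝ) * XX T u ^ i *
      (pp s a q p0 k i).eval (th T u) := ⟨_, rfl⟩
  rw [← hA', ← hB', ← hC']
  obtain ⟨E, hE'⟩ : ∃ E, E = Real.exp (-(a * vv T u)) := ⟨_, rfl⟩
  obtain ⟨S, hS'⟩ : ∃ S, S = (1 / Real.cosh (vv T u)) ^ s := ⟨_, rfl⟩
  obtain ⟨Q, hQ'⟩ : ∃ Q, Q = RR T u ^ (q - k - 1) := ⟨_, rfl⟩
  rw [← hE', ← hS', ← hQ']
  clear hF hfun hA' hB' hC' hE' hS' hQ' hA hD hQ hS hE hB
  obtain ⟨t, ht⟩ : ∃ t, t = th T u := ⟨_, rfl⟩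
  obtain ⟨R, hR'⟩ : ∃ R, R = RR T u := ⟨_, rfl⟩
  obtain ⟨X, hX'⟩ : ∃ X, X = XX T u := ⟨_, rfl⟩
  rw [← ht, ← hR', ← hX']
  rw [← ht] at hth
  have ht0 := hth.ne'
  have ht1 : t ^ (k + 1) ≠ 0 := pow_ne_zero _ ht0
  simp only [Nat.add_sub_cancel]
  push_cast
  have e1 : t ^ (k + 1) = t ^ k * t := pow_succ _ _
  have e2 : t ^ (k + 1 + 1) = t ^ k * t * t := by rw [pow_succ, pow_succ]
  have ht2 : t ^ k ≠ 0 := pow_ne_zero _ ht0
  rw [e2, e1]
  field_simp
  ring

end Pool.Agent.KIQ
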