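import Pool.Agent.KIQ.Defs
import Pool.Agent.KIM.SSY

/-!
# FRM: closed forms of the series of (G) and (C)
-/

set_option autoImplicit false

open PowerSeries

namespace Pool.Agent.KIQ

private theorem cP (y : ℝ) :
    constantCoeff (1 - C (2 * (1 - 2 * y)) * X + X ^ 2 : ℝ⟦X⟧) = 1 := by
  simp

private theorem cD (y : ℝ) : constantCoeff (De y) = 1 := KIM.constantCoeff_rp _ _

private theorem D_sq (y : ℝ) : De y ^ 2 = 1 - C (2 * (1 - 2 * y)) * X + X ^ 2 := by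
  have h1 := KIM.rp_natCast (cD y) 2
  have h2 : KIM.rp (De y) ((2 : ℕ) : ℝ) = 1 - C (2 * (1 - 2 * y)) * X + X ^ 2 := by
    unfold De
    rw [KIM.rp_rp (cP y)]
    have h3 : (1 / 2 : ℝ) * ((2 : ℕ) : ℝ) = 1 := by norm_num
    rw [h3, KIM.rp_one (cP y)]
  rw [← h1, h2]

private theorem cE (y : ℝ) : constantCoeff (Ee y) = 1 := by
  unfold Ee
  rw [map_mul, map_sub, map_add, cD, constantCoeff_C, map_one, constantCoeff_X]
  norm_num

private theorem cc2 : (C (2 : ℝ) : ℝ⟦X⟧) * C (1 / 2) = 1 := by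
  rw [← map_mul]
  norm_num

private theorem two_E (y : ℝ) : C (2 : ℝ) * Ee y = De y + 1 - X := by
  unfold Ee
  rw [← mul_assoc, cc2, one_mul]

private theorem C_two : (C (2 : ℝ) : ℝ⟦X⟧) = 2 := by
  have h1 : (2 : ℝ) = 1 + 1 := by norm_num
  rw [h1, map_add, map_one]
  norm_num

private theorem E_sq (y : ℝ) : Ee y ^ 2 = (1 - X) * Ee y + C y * X := by
  have h1 := two_E y
  have h2 := D_sq y
  have h3 : (C (2 * (1 - 2 * y)) : ℝ⟦X⟧) = 2 - 4 * C y := by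
    have h4 : 2 * (1 - 2 * y) = 2 * 1 - 2 * 2 * y := by ring
    rw [h4, map_sub, map_mul, map_mul, map_mul, C_two, map_one]
    ring
  rw [h3] at h2
  rw [C_two] at h1
  have h5 : (2 : ℝ⟦X⟧) ≠ 0 := by
    rw [← C_two]
    intro h
    have h6 := congrArg (constantCoeff) h
    rw [constantCoeff_C, map_zero] at h6
    norm_num at h6
  have h7 : (2 : ℝ⟦X⟧) * 2 ≠ 0 := mul_ne_zero h5 h5
  apply mul_left_cancel₀ h7
  linear_combination (2 * Ee y + De y + 1 - X - 2 * (1 - X)) * h1 + h2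

/-- `1 / E` -/
private noncomputable def ei (y : ℝ) : ℝ⟦X⟧ := KIM.rp (Ee y) (-1)

private theorem ei_mul (y : ℝ) : ei y * Ee y = 1 := KIM.rp_neg_one_mul (cE y)

private theorem c_ei (y : ℝ) : constantCoeff (ei y) = 1 := KIM.constantCoeff_rp _ _

private theorem rp_ei (y a : ℝ) : KIM.rp (ei y) a = KIM.rp (Ee y) (-a) := by
  unfold ei
  rw [KIM.rp_rp (cE y)]
  congr 1
  ring

private theorem wE_eq (y : ℝ) : wE y = C y * X * ei y ^ 2 := by
  unfold wE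
  have h1 : KIM.rp (Ee y) (-2) = ei y ^ 2 := by
    rw [sq]
    unfold ei
    rw [← KIM.rp_add (cE y)]
    congr 1
    norm_num
  rw [h1]

private theorem one_sub_w (y : ℝ) : 1 - wE y = (1 - X) * ei y := by
  rw [wE_eq]
  have h1 := E_sq y
  have h2 := ei_mul y
  linear_combination (ei y) ^ 2 * h1 - (ei y * Ee y + 1) * h2 + (1 - X) * ei y * h2

private theorem one_add_w (y : ℝ) : 1 + wE y = De y * ei y := by
  have h1 := one_sub_w y
  have h2 := ei_mul y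
  have h3 := two_E y
  rw [C_two] at h3
  linear_combination (-1 : ℝ⟦X⟧) * h1 - 2 * h2 + ei y * h3

private theorem wy_eq_wE (y : ℝ) : KIM.wy y = wE y := by
  have hp : constantCoeff (C y * KIM.k0 : ℝ⟦X⟧) = 0 := by
    rw [map_mul, KIM.constantCoeff_k0, mul_zero]
  refine KIM.eq_of_fix hp (KIM.wy_eq y) ?_
  rw [one_sub_w, wE_eq]
  have h1 := KIM.k0_eq
  linear_combination (-(C y * ei y ^ 2)) * h1

private theorem Sy_W (y : ℝ) : KIM.Sy y KIM.W = wE y := wy_eq_wE y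

private theorem c1X : constantCoeff (1 - X : ℝ⟦X⟧) = 1 := by simp

private theorem Sy_kap (q y : ℝ) : KIM.Kq q * KIM.Sy y (KIM.kap (-1 / 2) q) =
    KIM.rp (1 + X) q * KIM.rp (1 - X) (-1) * KIM.rp (De y) (-q) *
      KIM.rp (Ee y) (1 - 2 * q) := by
  unfold KIM.Kq KIM.bin KIM.kap
  rw [KIM.Sy_mul, KIM.Sy_rp y KIM.constantCoeff_one_sub_W,
    KIM.Sy_rp y KIM.constantCoeff_one_add_W, KIM.Sy_sub, KIM.Sy_add, KIM.Sy_one, Sy_W,
    one_sub_w, one_add_w, KIM.rp_mul c1X (c_ei y), KIM.rp_mul (cD y) (c_ei y), rp_ei, rp_ei]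
  have h1 : KIM.rp (1 - X : ℝ⟦X⟧) (-1) =
      KIM.rp (1 - X) (-(3 * q)) * KIM.rp (1 - X) (2 * (-1 / 2) + 3 * q) := by
    rw [← KIM.rp_add c1X]
    congr 1
    ring
  have h2 : KIM.rp (Ee y) (1 - 2 * q) =
      KIM.rp (Ee y) (-(2 * (-1 / 2) + 3 * q)) * KIM.rp (Ee y) (- -q) := by
    rw [← KIM.rp_add (cE y)]
    congr 1
    ring
  rw [h1, h2]
  ring

private theorem wE_pow (y : ℝ) (m : ℕ) :
    wE y ^ m = (C y * X) ^ m * KIM.rp (Ee y) (-(2 * m)) := by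
  unfold wE
  rw [mul_pow, ← KIM.rp_natCast (KIM.constantCoeff_rp _ _) m, KIM.rp_rp (cE y)]
  congr 2
  ring

private theorem Sy_hS (q y : ℝ) (m : ℕ) : KIM.Kq q * KIM.Sy y (KIM.hS (-1 / 2) q m) =
    (C y * X) ^ m * KIM.rp (1 + X) q * KIM.rp (1 - X) (-1) * KIM.rp (De y) (-q) *
      KIM.rp (Ee y) (1 - 2 * q - 2 * m) := by
  unfold KIM.hS
  rw [KIM.Sy_mul, KIM.Sy_pow, Sy_W, ← mul_assoc, Sy_kap, wE_pow]
  have h1 : KIM.rp (Ee y) (1 - 2 * q - 2 * m) =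
      KIM.rp (Ee y) (1 - 2 * q) * KIM.rp (Ee y) (-(2 * m)) := by
    rw [← KIM.rp_add (cE y)]
    congr 1
  rw [h1]
  ring

private theorem eul_W_pow (m : ℕ) :
    (1 + KIM.W) * KIM.eul (KIM.W ^ m) = C (m : ℝ) * (1 - KIM.W) * KIM.W ^ m := by
  induction m with
  | zero =>
    rw [pow_zero, KIM.eul_one, Nat.cast_zero, map_zero]
    ring
  | succ m ih =>
    rw [pow_succ, KIM.eul_mul, Nat.cast_succ, map_add, map_one]
    linear_combination KIM.W * ih + KIM.W ^ m * KIM.eul_W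

private theorem gS_eq (q : ℝ) (m : ℕ) : (1 + KIM.W) ^ 2 * KIM.gS (-1 / 2) q m =
    KIM.hS (-1 / 2) q m * (C (m : ℝ) * (1 - KIM.W ^ 2) + C (2 * q - 1) - KIM.W) := by
  have hne : (1 - KIM.W) ≠ 0 := KIM.ne_zero_of_one KIM.constantCoeff_one_sub_W
  set A : ℝ⟦X⟧ := KIM.rp (1 - KIM.W) (2 * (-1 / 2) + 3 * q) with hA
  set B : ℝ⟦X⟧ := KIM.rp (1 + KIM.W) (-q) with hB
  have hW := KIM.eul_W
  have a1 : (1 - KIM.W) * KIM.eul A = C (2 * (-1 / 2) + 3 * q) * (-KIM.eul KIM.W) * A := by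
    have h := KIM.rp_eul KIM.constantCoeff_one_sub_W (2 * (-1 / 2) + 3 * q)
    rw [KIM.eul_sub, KIM.eul_one, zero_sub] at h
    exact h
  have a2 : (1 + KIM.W) * KIM.eul A = -(C (2 * (-1 / 2) + 3 * q) * KIM.W * A) := by
    apply mul_left_cancel₀ hne
    linear_combination (1 + KIM.W) * a1 - C (2 * (-1 / 2) + 3 * q) * A * hW
  have b1 : (1 + KIM.W) * KIM.eul B = C (-q) * KIM.eul KIM.W * B := by
    have h := KIM.rp_eul KIM.constantCoeff_one_add_W (-q)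
    rw [KIM.eul_add, KIM.eul_one, zero_add] at h
    exact h
  have b2 : (1 + KIM.W) ^ 2 * KIM.eul B = C (-q) * KIM.W * (1 - KIM.W) * B := by
    linear_combination (1 + KIM.W) * b1 + C (-q) * B * hW
  have c1 := eul_W_pow m
  have hS : KIM.hS (-1 / 2) q m = A * B * KIM.W ^ m := rfl
  have hg : KIM.gS (-1 / 2) q m = C (2 * (-1 / 2 + q)) * KIM.hS (-1 / 2) q m +
      KIM.eul (KIM.hS (-1 / 2) q m) := rfl
  rw [hg, hS, KIM.eul_mul, KIM.eul_mul]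
  have e1 : (C (2 * (-1 / 2) + 3 * q) : ℝ⟦X⟧) = 3 * C q - 1 := by
    have h4 : 2 * (-1 / 2) + 3 * q = (2 + 1) * q - 1 := by ring
    rw [h4, map_sub, map_mul, map_add, C_two, map_one]
    ring
  have e2 : (C (2 * (-1 / 2 + q)) : ℝ⟦X⟧) = 2 * C q - 1 := by
    have h4 : 2 * (-1 / 2 + q) = 2 * q - 1 := by ring
    rw [h4, map_sub, map_mul, C_two, map_one]
  have e3 : (C (-q) : ℝ⟦X⟧) = - C q := by rw [map_neg]
  have e4 : (C (2 * q - 1) : ℝ⟦X⟧) = 2 * C q - 1 := by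
    rw [map_sub, map_mul, C_two, map_one]
  rw [e1] at a2
  rw [e3] at b2
  rw [e2, e4]
  linear_combination ((1 + KIM.W) * B * KIM.W ^ m) * a2 + (A * KIM.W ^ m) * b2 +
    ((1 + KIM.W) * A * B) * c1

theorem FG_eq (q : ℝ) {y : ℝ} (hy : 0 < y) (m : ℕ) :
    KIM.Kq q * KIM.Sy y (KIM.gS (-1 / 2) q m) =
      (C y * X) ^ m * KIM.rp (1 + X) q * KIM.rp (1 - X) (-1) * KIM.rp (De y) (-q - 2) *
        KIM.rp (Ee y) (3 - 2 * q - 2 * m) *
        (C (m : ℝ) * (1 - wE y ^ 2) + C (2 * q - 1) - wE y) := by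
  have _ := hy
  have h1 := congrArg (KIM.Sy y) (gS_eq q m)
  simp only [KIM.Sy_mul, KIM.Sy_pow, KIM.Sy_add, KIM.Sy_sub, KIM.Sy_one, KIM.Sy_C, Sy_W] at h1
  rw [one_add_w] at h1
  have h2 := Sy_hS q y m
  have h3 : KIM.rp (De y) (-q - 2) = KIM.rp (De y) (-q) * KIM.rp (De y) (-2) := by
    rw [← KIM.rp_add (cD y)]
    congr 1
  have h4 : KIM.rp (Ee y) (3 - 2 * q - 2 * m) =
      KIM.rp (Ee y) (1 - 2 * q - 2 * m) * KIM.rp (Ee y) 2 := by
    rw [← KIM.rp_add (cE y)]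
    congr 1
    ring
  have h5 : KIM.rp (De y) (-2) * De y ^ 2 = 1 := by
    have h6 := KIM.rp_natCast (cD y) 2
    have h7 := KIM.rp_neg_mul (cD y) 2
    rw [← h6]
    exact_mod_cast h7
  have h8 : KIM.rp (Ee y) 2 * ei y ^ 2 = 1 := by
    have h6 := KIM.rp_natCast (cE y) 2
    have h7 : KIM.rp (Ee y) 2 = Ee y ^ 2 := by
      rw [← h6]
      norm_num
    rw [h7]
    have h9 := ei_mul y
    linear_combination (ei y * Ee y + 1) * h9
  rw [h3, h4]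
  set Sg := KIM.Sy y (KIM.gS (-1 / 2) q m) with hSg
  set Sh := KIM.Sy y (KIM.hS (-1 / 2) q m) with hSh
  set L : ℝ⟦X⟧ := C (m : ℝ) * (1 - wE y ^ 2) + C (2 * q - 1) - wE y with hL
  have h10 : Sg = KIM.rp (De y) (-2) * KIM.rp (Ee y) 2 * (Sh * L) := by
    rw [← h1]
    linear_combination (-(Sg * KIM.rp (Ee y) 2 * ei y ^ 2)) * h5 - Sg * h8
  rw [h10]
  linear_combination (KIM.rp (De y) (-2) * KIM.rp (Ee y) 2 * L) * h2

theorem FC_eq (q : ℝ) {y : ℝ} (hy : 0 < y) (j : ℕ) :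
    KIM.Kq q * KIM.Sy y (KIM.tS (-1 / 2) q j) =
      (C y * X) ^ j * KIM.rp (1 + X) q * KIM.rp (1 - X) (-1) * KIM.rp (De y) (-q) *
        KIM.rp (Ee y) (1 - 2 * q - 2 * j) *
        (C (muj q j) + C (nuj q j) * wE y - wE y * Ee y * KIM.rp (De y) (-1)) := by
  have _ := hy
  have h1 : KIM.Sy y (KIM.tS (-1 / 2) q j) =
      KIM.Sy y (KIM.hS (-1 / 2) q j) *
        (C (muj q j) + C (nuj q j) * wE y - wE y * Ee y * KIM.rp (De y) (-1)) := by
    have h2 : KIM.tS (-1 / 2) q j = C (muj q j) * KIM.hS (-1 / 2) q j +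
        C (nuj q j) * KIM.hS (-1 / 2) q (j + 1) - KIM.rS (-1 / 2) q (j + 1) := rfl
    have h3 : KIM.hS (-1 / 2) q (j + 1) = KIM.hS (-1 / 2) q j * KIM.W := by
      unfold KIM.hS
      rw [pow_succ, mul_assoc]
    have h4 : KIM.rS (-1 / 2) q (j + 1) =
        KIM.hS (-1 / 2) q j * KIM.W * KIM.rp (1 + KIM.W) (-1) := by
      unfold KIM.hS KIM.rS
      rw [pow_succ]
      ring
    rw [h2, h3, h4]
    simp only [KIM.Sy_mul, KIM.Sy_add, KIM.Sy_sub, KIM.Sy_C, Sy_W,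
      KIM.Sy_rp y KIM.constantCoeff_one_add_W, KIM.Sy_one]
    rw [one_add_w, KIM.rp_mul (cD y) (c_ei y), rp_ei, neg_neg, KIM.rp_one (cE y)]
    ring
  rw [h1, ← mul_assoc, Sy_hS]

end Pool.Agent.KIQ
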