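import Pool.Agent.KIQ.REP
import Pool.Agent.KIQ.FRM

/-!
# DEV: evaluation of the series on the real axis
-/

set_option autoImplicit false

open PowerSeries

namespace Pool.Agent.KIQ

/-! ## The functions on the disc -/

private noncomputable def fP (y : ℝ) (z : ℂ) : ℂ :=
  1 - ((2 * (1 - 2 * y) : ℝ) : ℂ) * z + z ^ 2

private noncomputable def fD (y : ℝ) (z : ℂ) : ℂ := fP y z ^ ((1 / 2 : ℝ) : ℂ)

private noncomputable def fE (y : ℝ) (z : ℂ) : ℂ := ((1 / 2 : ℝ) : ℂ) * (fD y z + 1 - z)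

private noncomputable def fW (y : ℝ) (z : ℂ) : ℂ := (y : ℂ) * z * fE y z ^ ((-2 : ℝ) : ℂ)

private theorem cc_rp (f : ℝ⟦X⟧) (a : ℝ) : constantCoeff (KIM.rp f a) = 1 := by
  unfold KIM.rp
  rw [← PowerSeries.coeff_zero_eq_constantCoeff_apply, PowerSeries.coeff_mk]
  simp [KIM.rpc]

private theorem fP_slit {y : ℝ} (hy : 0 < y) (hy1 : y ≤ 1) {z : ℂ} (hz : ‖z‖ < 1) :
    fP y z ∈ Complex.slitPlane := by
  have h1 : z.re ^ 2 + z.im ^ 2 < 1 := by
    have h2 : ‖z‖ ^ 2 < 1 := by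
      have := norm_nonneg z
      nlinarith
    rw [Complex.sq_norm, Complex.normSq_apply] at h2
    nlinarith
  rw [Complex.mem_slitPlane_iff]
  have hre : (fP y z).re = 1 - 2 * (1 - 2 * y) * z.re + (z.re ^ 2 - z.im ^ 2) := by
    unfold fP
    simp [pow_two]
  have him : (fP y z).im = 2 * z.im * (z.re - (1 - 2 * y)) := by
    unfold fP
    simp [pow_two]
    ring
  by_cases h : (fP y z).im = 0
  · left
    rw [him] at h
    rw [hre]
    rcases mul_eq_zero.1 h with h2 | h2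
    · have h3 : z.im = 0 := by linarith
      rw [h3] at h1 ⊢
      have h4 : z.re < 1 := by nlinarith
      have h5 : -1 < z.re := by nlinarith
      rcases le_total 0 z.re with h6 | h6
      · have h7 : 0 < (1 - z.re) ^ 2 := by
          have : 0 < 1 - z.re := by linarith
          positivity
        have h8 : 0 ≤ y * z.re := mul_nonneg hy.le h6
        nlinarith
      · have h7 : 0 < (1 + z.re) ^ 2 := by
          have : 0 < 1 + z.re := by linarith
          positivity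
        have h8 : 0 ≤ (1 - y) * (-z.re) := mul_nonneg (by linarith) (by linarith)
        nlinarith
    · have h3 : 1 - 2 * y = z.re := by linarith
      rw [mul_assoc, h3]
      nlinarith
  · right
    exact h

private theorem half_re {w : ℂ} (hw : w ∈ Complex.slitPlane) :
    0 < (w ^ ((1 / 2 : ℝ) : ℂ)).re := by
  have hne := Complex.slitPlane_ne_zero hw
  have h1 := (Complex.mem_slitPlane_iff_arg.1 hw).1
  have h2 := Complex.neg_pi_lt_arg w
  have h3 := lt_of_le_of_ne (Complex.arg_le_pi w) h1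
  rw [Complex.cpow_def_of_ne_zero hne, Complex.exp_re]
  refine mul_pos (Real.exp_pos _) (Real.cos_pos_of_mem_Ioo ?_)
  have h4 : (Complex.log w * ((1 / 2 : ℝ) : ℂ)).im = Complex.arg w / 2 := by
    rw [Complex.mul_im, Complex.ofReal_re, Complex.ofReal_im, Complex.log_im]
    ring
  rw [h4]
  constructor <;> linarith

private theorem fD_re {y : ℝ} (hy : 0 < y) (hy1 : y ≤ 1) {z : ℂ} (hz : ‖z‖ < 1) :
    0 < (fD y z).re := half_re (fP_slit hy hy1 hz)

private theorem fE_re {y : ℝ} (hy : 0 < y) (hy1 : y ≤ 1) {z : ℂ} (hz : ‖z‖ < 1) :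
    0 < (fE y z).re := by
  have h1 := fD_re hy hy1 hz
  have h2 : z.re < 1 := lt_of_le_of_lt (Complex.re_le_norm z) hz
  unfold fE
  rw [Complex.mul_re, Complex.ofReal_re, Complex.ofReal_im, Complex.sub_re, Complex.add_re,
    Complex.one_re]
  linarith

private theorem slit_of_re {w : ℂ} (h : 0 < w.re) : w ∈ Complex.slitPlane := by
  rw [Complex.mem_slitPlane_iff]
  exact Or.inl h

private theorem rep_D {y : ℝ} (hy : 0 < y) (hy1 : y ≤ 1) : Rep (De y) (fD y) := by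
  have h1 : Rep (1 - PowerSeries.C (2 * (1 - 2 * y)) * PowerSeries.X + PowerSeries.X ^ 2 : ℝ⟦X⟧)
      (fP y) := (Rep.one.sub ((Rep.C _).mul Rep.X)).add (Rep.X.pow 2)
  exact h1.rp (by simp) (fun z hz => fP_slit hy hy1 hz) (1 / 2)

private theorem rep_E {y : ℝ} (hy : 0 < y) (hy1 : y ≤ 1) : Rep (Ee y) (fE y) :=
  (Rep.C _).mul (((rep_D hy hy1).add Rep.one).sub Rep.X)

private theorem cc_D (y : ℝ) : constantCoeff (De y) = 1 := cc_rp _ _

private theorem cc_E (y : ℝ) : constantCoeff (Ee y) = 1 := by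
  unfold Ee
  rw [map_mul, map_sub, map_add, cc_D]
  simp
  norm_num

private theorem rep_Ep {y : ℝ} (hy : 0 < y) (hy1 : y ≤ 1) (a : ℝ) :
    Rep (KIM.rp (Ee y) a) (fun z => fE y z ^ (a : ℂ)) :=
  (rep_E hy hy1).rp (cc_E y) (fun _ hz => slit_of_re (fE_re hy hy1 hz)) a

private theorem rep_Dp {y : ℝ} (hy : 0 < y) (hy1 : y ≤ 1) (a : ℝ) :
    Rep (KIM.rp (De y) a) (fun z => fD y z ^ (a : ℂ)) :=
  (rep_D hy hy1).rp (cc_D y) (fun _ hz => slit_of_re (fD_re hy hy1 hz)) a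

private theorem rep_W {y : ℝ} (hy : 0 < y) (hy1 : y ≤ 1) : Rep (wE y) (fW y) :=
  ((Rep.C _).mul Rep.X).mul (rep_Ep hy hy1 (-2))

private theorem rep_p (a : ℝ) :
    Rep (KIM.rp (1 + PowerSeries.X : ℝ⟦X⟧) a) (fun z => (1 + z) ^ (a : ℂ)) := by
  refine (Rep.one.add Rep.X).rp (by simp) (fun z hz => slit_of_re ?_) a
  have := (abs_le.1 ((Complex.abs_re_le_norm z))).1
  rw [Complex.add_re, Complex.one_re]
  linarith

private theorem rep_m (a : ℝ) :
    Rep (KIM.rp (1 - PowerSeries.X : ℝ⟦X⟧) a) (fun z => (1 - z) ^ (a : ℂ)) := by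
  refine (Rep.one.sub Rep.X).rp (by simp) (fun z hz => slit_of_re ?_) a
  have := (abs_le.1 ((Complex.abs_re_le_norm z))).2
  rw [Complex.sub_re, Complex.one_re]
  linarith

private theorem rep_G (q : ℝ) {y : ℝ} (hy : 0 < y) (hy1 : y ≤ 1) (m : ℕ) :
    Rep (KIM.Kq q * KIM.Sy y (KIM.gS (-1 / 2) q m)) (fun z =>
      ((y : ℂ) * z) ^ m * (1 + z) ^ (q : ℂ) * (1 - z) ^ ((-1 : ℝ) : ℂ) *
        fD y z ^ ((-q - 2 : ℝ) : ℂ) * fE y z ^ ((3 - 2 * q - 2 * m : ℝ) : ℂ) *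
        (((m : ℝ) : ℂ) * (1 - fW y z ^ 2) + ((2 * q - 1 : ℝ) : ℂ) - fW y z)) := by
  rw [FG_eq q hy m]
  exact ((((((Rep.C y).mul Rep.X).pow m).mul (rep_p q)).mul (rep_m (-1))).mul
    (rep_Dp hy hy1 _)).mul (rep_Ep hy hy1 _) |>.mul
    ((((Rep.C _).mul (Rep.one.sub ((rep_W hy hy1).pow 2))).add (Rep.C _)).sub (rep_W hy hy1))

private theorem rep_C (q : ℝ) {y : ℝ} (hy : 0 < y) (hy1 : y ≤ 1) (j : ℕ) :
    Rep (KIM.Kq q * KIM.Sy y (KIM.tS (-1 / 2) q j)) (fun z =>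
      ((y : ℂ) * z) ^ j * (1 + z) ^ (q : ℂ) * (1 - z) ^ ((-1 : ℝ) : ℂ) *
        fD y z ^ ((-q : ℝ) : ℂ) * fE y z ^ ((1 - 2 * q - 2 * j : ℝ) : ℂ) *
        (((muj q j : ℝ) : ℂ) + ((nuj q j : ℝ) : ℂ) * fW y z -
          fW y z * fE y z * fD y z ^ ((-1 : ℝ) : ℂ))) := by
  rw [FC_eq q hy j]
  exact ((((((Rep.C y).mul Rep.X).pow j).mul (rep_p q)).mul (rep_m (-1))).mul
    (rep_Dp hy hy1 _)).mul (rep_Ep hy hy1 _) |>.mul
    (((Rep.C _).add ((Rep.C _).mul (rep_W hy hy1))).sub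
      (((rep_W hy hy1).mul (rep_E hy hy1)).mul (rep_Dp hy hy1 _)))

/-! ## Evaluation at real points -/

private theorem fD_real {y ρ D : ℝ} (hD : 0 < D) (h : D ^ 2 = 1 - 2 * (1 - 2 * y) * ρ + ρ ^ 2) :
    fD y (ρ : ℂ) = (D : ℂ) := by
  have h1 : fP y (ρ : ℂ) = ((D ^ 2 : ℝ) : ℂ) := by
    unfold fP
    rw [h]
    push_cast
    ring
  unfold fD
  rw [h1, ← Complex.ofReal_cpow (by positivity), ← Real.sqrt_eq_rpow, Real.sqrt_sq hD.le]

private theorem fE_real {y ρ D E : ℝ} (hD : 0 < D)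
    (h : D ^ 2 = 1 - 2 * (1 - 2 * y) * ρ + ρ ^ 2) (hE : E = (D + 1 - ρ) / 2) :
    fE y (ρ : ℂ) = (E : ℂ) := by
  unfold fE
  rw [fD_real hD h, hE]
  push_cast
  ring

private theorem fW_real {y ρ D E : ℝ} (hD : 0 < D) (hE0 : 0 < E)
    (h : D ^ 2 = 1 - 2 * (1 - 2 * y) * ρ + ρ ^ 2) (hE : E = (D + 1 - ρ) / 2) :
    fW y (ρ : ℂ) = ((y * ρ * E ^ (-2 : ℝ) : ℝ) : ℂ) := by
  unfold fW
  rw [fE_real hD h hE, ← Complex.ofReal_cpow hE0.le]
  push_cast
  ring

private theorem sum_real {P : ℝ⟦X⟧} {f : ℂ → ℂ} (h : Rep P f) {ρ v : ℝ} (hρ : |ρ| < 1)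
    (hv : f (ρ : ℂ) = (v : ℂ)) : HasSum (fun n : ℕ => coeff n P * ρ ^ n) v := by
  have h1 := h (ρ : ℂ) (by rw [Complex.norm_real]; exact hρ)
  rw [hv] at h1
  refine Complex.hasSum_ofReal.1 ?_
  refine h1.congr_fun ?_
  intro n
  push_cast
  rfl

private theorem eval_G (q : ℝ) {y : ℝ} (hy : 0 < y) (hy1 : y ≤ 1) (m : ℕ) {ρ D E : ℝ}
    (hρ : |ρ| < 1) (hD : 0 < D) (hE0 : 0 < E)
    (h : D ^ 2 = 1 - 2 * (1 - 2 * y) * ρ + ρ ^ 2) (hE : E = (D + 1 - ρ) / 2) :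
    HasSum (fun N : ℕ => KIM.Lf q N y (KIM.gS (-1 / 2) q m) * ρ ^ N)
      ((y * ρ) ^ m * (1 + ρ) ^ q * (1 - ρ) ^ (-1 : ℝ) * D ^ (-q - 2) * E ^ (3 - 2 * q - 2 * m) *
        (m * (1 - (y * ρ * E ^ (-2 : ℝ)) ^ 2) + (2 * q - 1) - y * ρ * E ^ (-2 : ℝ))) := by
  refine sum_real (rep_G q hy hy1 m) hρ ?_
  have h1 := (abs_lt.1 hρ).1
  have h2 := (abs_lt.1 hρ).2
  rw [fD_real hD h, fW_real hD hE0 h hE, fE_real hD h hE]
  have e1 : (1 + (ρ : ℂ)) ^ (q : ℂ) = (((1 + ρ) ^ q : ℝ) : ℂ) := by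
    rw [Complex.ofReal_cpow (by linarith)]
    push_cast
    rfl
  have e2 : (1 - (ρ : ℂ)) ^ ((-1 : ℝ) : ℂ) = (((1 - ρ) ^ (-1 : ℝ) : ℝ) : ℂ) := by
    rw [Complex.ofReal_cpow (by linarith)]
    push_cast
    rfl
  rw [e1, e2, ← Complex.ofReal_cpow hD.le, ← Complex.ofReal_cpow hE0.le]
  push_cast
  ring

private theorem eval_C (q : ℝ) {y : ℝ} (hy : 0 < y) (hy1 : y ≤ 1) (j : ℕ) {ρ D E : ℝ}
    (hρ : |ρ| < 1) (hD : 0 < D) (hE0 : 0 < E)
    (h : D ^ 2 = 1 - 2 * (1 - 2 * y) * ρ + ρ ^ 2) (hE : E = (D + 1 - ρ) / 2) :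
    HasSum (fun N : ℕ => KIM.Lf q N y (KIM.tS (-1 / 2) q j) * ρ ^ N)
      ((y * ρ) ^ j * (1 + ρ) ^ q * (1 - ρ) ^ (-1 : ℝ) * D ^ (-q) * E ^ (1 - 2 * q - 2 * j) *
        (muj q j + nuj q j * (y * ρ * E ^ (-2 : ℝ)) - y * ρ * E ^ (-2 : ℝ) * E * D ^ (-1 : ℝ))) := by
  refine sum_real (rep_C q hy hy1 j) hρ ?_
  have h1 := (abs_lt.1 hρ).1
  have h2 := (abs_lt.1 hρ).2
  rw [fD_real hD h, fW_real hD hE0 h hE, fE_real hD h hE]
  have e1 : (1 + (ρ : ℂ)) ^ (q : ℂ) = (((1 + ρ) ^ q : ℝ) : ℂ) := by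
    rw [Complex.ofReal_cpow (by linarith)]
    push_cast
    rfl
  have e2 : (1 - (ρ : ℂ)) ^ ((-1 : ℝ) : ℂ) = (((1 - ρ) ^ (-1 : ℝ) : ℝ) : ℂ) := by
    rw [Complex.ofReal_cpow (by linarith)]
    push_cast
    rfl
  rw [e1, e2, ← Complex.ofReal_cpow hD.le, ← Complex.ofReal_cpow hD.le,
    ← Complex.ofReal_cpow hE0.le]
  push_cast
  ring

/-! ## Algebra of exponents -/

private theorem alg_G (q : ℝ) (m : ℕ) {κ T c s d : ℝ} (u v : ℝ) (hκ : 0 < κ) (hT : 0 < T)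
    (hc : 0 < c) (hs : 0 < s) (hd : 0 < d) :
    (Real.exp (-(2 * u)) / T ^ 2) ^ m * (κ * Real.exp (-u) * c) ^ q *
        (κ * Real.exp (-u) * s) ^ (-1 : ℝ) * (κ * Real.exp (-u) * d / T) ^ (-q - 2) *
        (Real.exp (v - u) / T) ^ (3 - 2 * q - 2 * m) =
      Real.exp (2 * q * u) * T ^ (2 * q) / κ ^ 2 *
        (Real.exp (-((2 * m + 2 * q - 1) * v)) * (T * c / d) ^ q *
          (Real.exp (2 * v) / (κ * (T * s) * d ^ 2))) := by
  obtain ⟨k, rfl⟩ : ∃ k, κ = Real.exp k := ⟨Real.log κ, (Real.exp_log hκ).symm⟩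
  obtain ⟨t, rfl⟩ : ∃ t, T = Real.exp t := ⟨Real.log T, (Real.exp_log hT).symm⟩
  obtain ⟨c, rfl⟩ : ∃ t, c = Real.exp t := ⟨Real.log c, (Real.exp_log hc).symm⟩
  obtain ⟨s, rfl⟩ : ∃ t, s = Real.exp t := ⟨Real.log s, (Real.exp_log hs).symm⟩
  obtain ⟨d, rfl⟩ : ∃ t, d = Real.exp t := ⟨Real.log d, (Real.exp_log hd).symm⟩
  simp only [← Real.exp_nat_mul, ← Real.exp_add, ← Real.exp_sub, ← Real.exp_mul]
  congr 1
  push_cast
  ring

private theorem alg_C (q : ℝ) (j : ℕ) {κ T c s d : ℝ} (u v : ℝ) (hκ : 0 < κ) (hT : 0 < T)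
    (hc : 0 < c) (hs : 0 < s) (hd : 0 < d) :
    (Real.exp (-(2 * u)) / T ^ 2) ^ j * (κ * Real.exp (-u) * c) ^ q *
        (κ * Real.exp (-u) * s) ^ (-1 : ℝ) * (κ * Real.exp (-u) * d / T) ^ (-q) *
        (Real.exp (v - u) / T) ^ (1 - 2 * q - 2 * j) =
      Real.exp (2 * q * u) * T ^ (2 * q) / κ ^ 2 *
        (Real.exp (-((2 * j + 2 * q) * v)) * (T * c / d) ^ q *
          (κ * Real.exp v / (T * s))) := by
  obtain ⟨k, rfl⟩ : ∃ k, κ = Real.exp k := ⟨Real.log κ, (Real.exp_log hκ).symm⟩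
  obtain ⟨t, rfl⟩ : ∃ t, T = Real.exp t := ⟨Real.log T, (Real.exp_log hT).symm⟩
  obtain ⟨c, rfl⟩ : ∃ t, c = Real.exp t := ⟨Real.log c, (Real.exp_log hc).symm⟩
  obtain ⟨s, rfl⟩ : ∃ t, s = Real.exp t := ⟨Real.log s, (Real.exp_log hs).symm⟩
  obtain ⟨d, rfl⟩ : ∃ t, d = Real.exp t := ⟨Real.log d, (Real.exp_log hd).symm⟩
  simp only [← Real.exp_nat_mul, ← Real.exp_add, ← Real.exp_sub, ← Real.exp_mul]
  congr 1
  push_cast
  ring

/-! ## The theorems -/

theorem devG_summable (q : ℝ) {y : ℝ} (hy : 0 < y) (hy1 : y ≤ 1) (m : ℕ) {ρ : ℝ} (h0 : 0 ≤ ρ)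
    (h1 : ρ < 1) : Summable fun N : ℕ => |KIM.Lf q N y (KIM.gS (-1 / 2) q m)| * ρ ^ N :=
  (rep_G q hy hy1 m).summable h0 h1

theorem devC_summable (q : ℝ) {y : ℝ} (hy : 0 < y) (hy1 : y ≤ 1) (j : ℕ) {ρ : ℝ} (h0 : 0 ≤ ρ)
    (h1 : ρ < 1) : Summable fun N : ℕ => |KIM.Lf q N y (KIM.tS (-1 / 2) q j)| * ρ ^ N :=
  (rep_C q hy hy1 j).summable h0 h1

private theorem Phi_zero (s : ℕ) (a q al be ga T u : ℝ) :
    Phi s a q (ini al be ga) 0 T u = Real.exp (-(a * vv T u)) *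
      (1 / Real.cosh (vv T u)) ^ s * RR T u ^ q *
        ((ga + be * th T u + al * th T u ^ 2) / th T u) := by
  unfold Phi
  simp [pp, ini]

private theorem T_pos {y : ℝ} (hy : 0 < y) : 0 < 1 / Real.sqrt y :=
  one_div_pos.2 (Real.sqrt_pos.2 hy)

private theorem T_one {y : ℝ} (hy : 0 < y) (hy1 : y ≤ 1) : 1 ≤ 1 / Real.sqrt y := by
  rw [le_div_iff₀ (Real.sqrt_pos.2 hy), one_mul, Real.sqrt_le_one]
  exact hy1

private theorem T_sq {y : ℝ} (hy : 0 < y) : y = 1 / (1 / Real.sqrt y) ^ 2 := by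
  rw [div_pow, one_pow, Real.sq_sqrt hy.le, one_div_one_div]

private theorem sinh_vv (T u : ℝ) : Real.sinh (vv T u) = T * Real.sinh u := by
  unfold vv
  exact Real.sinh_arsinh _

private theorem cosh_vv_sq (T u : ℝ) :
    Real.cosh (vv T u) ^ 2 = 1 + (T * Real.sinh u) ^ 2 := by
  rw [Real.cosh_sq, sinh_vv]
  ring

private theorem exp_ww {T u : ℝ} (hT : 1 ≤ T) :
    Real.exp (ww T u) = T * Real.cosh u + Real.sqrt ((T * Real.cosh u) ^ 2 - 1) := by
  unfold ww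
  refine Real.exp_log ?_
  have h1 := Real.sqrt_nonneg ((T * Real.cosh u) ^ 2 - 1)
  have h2 : 0 < T * Real.cosh u := mul_pos (by linarith) (Real.cosh_pos _)
  linarith

private theorem Tc_gt {T u : ℝ} (hT : 1 ≤ T) (hu : 0 < u) : 1 < T * Real.cosh u := by
  have h1 : 1 < Real.cosh u := Real.one_lt_cosh.2 hu.ne'
  nlinarith

private theorem exp_ww_neg {T u : ℝ} (hT : 1 ≤ T) (hu : 0 < u) :
    Real.exp (-ww T u) = T * Real.cosh u - Real.sqrt ((T * Real.cosh u) ^ 2 - 1) := by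
  have h1 := exp_ww (u := u) hT
  have h2 := Tc_gt hT hu
  have h3 := Real.sq_sqrt (by nlinarith : 0 ≤ (T * Real.cosh u) ^ 2 - 1)
  have h4 : Real.exp (ww T u) *
      (T * Real.cosh u - Real.sqrt ((T * Real.cosh u) ^ 2 - 1)) = 1 := by
    rw [h1]
    linear_combination -h3
  have h5 : Real.exp (ww T u) * Real.exp (-ww T u) = 1 := by
    rw [← Real.exp_add]
    simp
  exact mul_left_cancel₀ (Real.exp_pos _).ne' (h5.trans h4.symm)

private theorem cosh_ww {T u : ℝ} (hT : 1 ≤ T) (hu : 0 < u) :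
    Real.cosh (ww T u) = T * Real.cosh u := by
  rw [Real.cosh_eq, exp_ww hT, exp_ww_neg hT hu]
  ring

private theorem sinh_ww {T u : ℝ} (hT : 1 ≤ T) (hu : 0 < u) :
    Real.sinh (ww T u) = Real.sqrt ((T * Real.cosh u) ^ 2 - 1) := by
  rw [Real.sinh_eq, exp_ww hT, exp_ww_neg hT hu]
  ring

private theorem sinh_ww_pos {T u : ℝ} (hT : 1 ≤ T) (hu : 0 < u) : 0 < Real.sinh (ww T u) := by
  rw [sinh_ww hT hu]
  have h2 := Tc_gt hT hu
  exact Real.sqrt_pos.2 (by nlinarith)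

private theorem one_sub_exp (u : ℝ) :
    1 - Real.exp (-(2 * u)) = 2 * Real.exp (-u) * Real.sinh u := by
  have h1 : Real.exp (-(2 * u)) = Real.exp (-u) * Real.exp (-u) := by
    rw [← Real.exp_add]
    congr 1
    ring
  have h2 : Real.exp (-u) * Real.exp u = 1 := by
    rw [← Real.exp_add]
    simp
  rw [Real.sinh_eq, h1]
  linear_combination -h2

private theorem one_add_exp (u : ℝ) :
    1 + Real.exp (-(2 * u)) = 2 * Real.exp (-u) * Real.cosh u := by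
  have h1 : Real.exp (-(2 * u)) = Real.exp (-u) * Real.exp (-u) := by
    rw [← Real.exp_add]
    congr 1
    ring
  have h2 : Real.exp (-u) * Real.exp u = 1 := by
    rw [← Real.exp_add]
    simp
  rw [Real.cosh_eq, h1]
  linear_combination -h2

/-- the value of `y * rho * E ^ (-2)` -/
private theorem wval {T : ℝ} (hT : 0 < T) (u v : ℝ) :
    1 / T ^ 2 * Real.exp (-(2 * u)) * (Real.exp (v - u) / T) ^ (-2 : ℝ) =
      Real.exp (-(2 * v)) := by
  obtain ⟨t, rfl⟩ : ∃ t, T = Real.exp t := ⟨Real.log T, (Real.exp_log hT).symm⟩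
  rw [one_div, ← Real.exp_nat_mul, ← Real.exp_neg, ← Real.exp_sub, ← Real.exp_mul, ← Real.exp_add,
    ← Real.exp_add]
  congr 1
  push_cast
  ring

private theorem exp_two (v : ℝ) : Real.exp (2 * v) = Real.exp v * Real.exp v := by
  rw [← Real.exp_add]
  congr 1
  ring

private theorem exp_neg_two (v : ℝ) : Real.exp (-(2 * v)) = Real.exp (-v) * Real.exp (-v) := by
  rw [← Real.exp_add]
  congr 1
  ring

private theorem exp_pn (v : ℝ) : Real.exp v * Real.exp (-v) = 1 := by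
  rw [← Real.exp_add]
  simp

private theorem exp_p (v : ℝ) : Real.exp v = Real.cosh v + Real.sinh v :=
  (Real.cosh_add_sinh v).symm

private theorem exp_n (v : ℝ) : Real.exp (-v) = Real.cosh v - Real.sinh v :=
  (Real.cosh_sub_sinh v).symm

private theorem keyG_pos (q M v : ℝ) :
    Real.exp (2 * v) * (M * (1 - Real.exp (-(2 * v)) ^ 2) + (2 * q - 1) - Real.exp (-(2 * v))) =
      2 * ((q - 1) * Real.cosh v ^ 2 + (2 * M + 2 * q - 1) * Real.sinh v * Real.cosh v +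
        q * Real.sinh v ^ 2) := by
  rw [exp_two, exp_neg_two]
  have h1 := exp_pn v
  have h2 := Real.cosh_sq v
  have h3 : Real.exp v * Real.exp v * (M * (1 - (Real.exp (-v) * Real.exp (-v)) ^ 2) +
      (2 * q - 1) - Real.exp (-v) * Real.exp (-v)) =
      M * (Real.exp v * Real.exp v - (Real.exp v * Real.exp (-v)) ^ 2 *
        (Real.exp (-v) * Real.exp (-v))) + (2 * q - 1) * (Real.exp v * Real.exp v) -
        (Real.exp v * Real.exp (-v)) ^ 2 := by ring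
  rw [h3, h1, exp_p, exp_n]
  linear_combination h2

private theorem keyG_neg (q M v : ℝ) :
    Real.exp (2 * v) * (M * (1 - (-Real.exp (-(2 * v))) ^ 2) + (2 * q - 1) -
        -Real.exp (-(2 * v))) =
      2 * ((q - 1) * Real.sinh v ^ 2 + (2 * M + 2 * q - 1) * Real.sinh v * Real.cosh v +
        q * Real.cosh v ^ 2) := by
  rw [exp_two, exp_neg_two]
  have h1 := exp_pn v
  have h2 := Real.cosh_sq v
  have h3 : Real.exp v * Real.exp v * (M * (1 - (-(Real.exp (-v) * Real.exp (-v))) ^ 2) +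
      (2 * q - 1) - -(Real.exp (-v) * Real.exp (-v))) =
      M * (Real.exp v * Real.exp v - (Real.exp v * Real.exp (-v)) ^ 2 *
        (Real.exp (-v) * Real.exp (-v))) + (2 * q - 1) * (Real.exp v * Real.exp v) +
        (Real.exp v * Real.exp (-v)) ^ 2 := by ring
  rw [h3, h1, exp_p, exp_n]
  linear_combination (-1) * h2

/-! ## The two points -/

private theorem D_pos {T y u : ℝ} (hT : 0 < T) (hTs : y = 1 / T ^ 2) :
    (2 * Real.exp (-u) * Real.cosh (vv T u) / T) ^ 2 =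
      1 - 2 * (1 - 2 * y) * Real.exp (-(2 * u)) + Real.exp (-(2 * u)) ^ 2 := by
  have hee : Real.exp (-u) * Real.exp (-u) = Real.exp (-(2 * u)) := (exp_neg_two u).symm
  have hyT : y * T ^ 2 = 1 := by
    rw [hTs]
    field_simp
  have h1 : (2 * Real.exp (-u) * Real.cosh (vv T u) / T) ^ 2 =
      4 * (Real.exp (-u) * Real.exp (-u)) * Real.cosh (vv T u) ^ 2 * (1 / T ^ 2) := by
    ring
  rw [h1, ← hTs, cosh_vv_sq, hee]
  have h2 : (1 - Real.exp (-(2 * u))) ^ 2 =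
      4 * (Real.exp (-u) * Real.exp (-u)) * Real.sinh u ^ 2 := by
    rw [one_sub_exp]
    ring
  rw [hee] at h2
  linear_combination (-1) * h2 + 4 * Real.exp (-(2 * u)) * Real.sinh u ^ 2 * hyT

private theorem E_pos {T u : ℝ} (hT : 0 < T) : Real.exp (vv T u - u) / T =
    (2 * Real.exp (-u) * Real.cosh (vv T u) / T + 1 - Real.exp (-(2 * u))) / 2 := by
  have h1 := one_sub_exp u
  have h2 : Real.exp (vv T u - u) = Real.exp (-u) * (Real.cosh (vv T u) + Real.sinh (vv T u)) := by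
    rw [Real.cosh_add_sinh, ← Real.exp_add]
    congr 1
    ring
  rw [h2, sinh_vv, add_sub_assoc, h1]
  field_simp

private theorem D_neg {T y u : ℝ} (hT1 : 1 ≤ T) (hTs : y = 1 / T ^ 2) (hu : 0 < u) :
    (2 * Real.exp (-u) * Real.sinh (ww T u) / T) ^ 2 =
      1 - 2 * (1 - 2 * y) * (-Real.exp (-(2 * u))) + (-Real.exp (-(2 * u))) ^ 2 := by
  have hT : 0 < T := by linarith
  have hee : Real.exp (-u) * Real.exp (-u) = Real.exp (-(2 * u)) := (exp_neg_two u).symm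
  have hyT : y * T ^ 2 = 1 := by
    rw [hTs]
    field_simp
  have h0 : Real.sinh (ww T u) ^ 2 = (T * Real.cosh u) ^ 2 - 1 := by
    rw [Real.sinh_sq, cosh_ww hT1 hu]
  have h1 : (2 * Real.exp (-u) * Real.sinh (ww T u) / T) ^ 2 =
      4 * (Real.exp (-u) * Real.exp (-u)) * Real.sinh (ww T u) ^ 2 * (1 / T ^ 2) := by
    ring
  rw [h1, ← hTs, h0, hee]
  have h2 : (1 + Real.exp (-(2 * u))) ^ 2 =
      4 * (Real.exp (-u) * Real.exp (-u)) * Real.cosh u ^ 2 := by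
    rw [one_add_exp]
    ring
  rw [hee] at h2
  linear_combination (-1) * h2 + 4 * Real.exp (-(2 * u)) * Real.cosh u ^ 2 * hyT

private theorem E_neg {T u : ℝ} (hT1 : 1 ≤ T) (hu : 0 < u) : Real.exp (ww T u - u) / T =
    (2 * Real.exp (-u) * Real.sinh (ww T u) / T + 1 - -Real.exp (-(2 * u))) / 2 := by
  have hT : 0 < T := by linarith
  have h1 := one_add_exp u
  have h2 : Real.exp (ww T u - u) = Real.exp (-u) * (Real.cosh (ww T u) + Real.sinh (ww T u)) := by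
    rw [Real.cosh_add_sinh, ← Real.exp_add]
    congr 1
    ring
  rw [h2, cosh_ww hT1 hu, sub_neg_eq_add, add_assoc, h1]
  field_simp
  ring

theorem devG_pos (q : ℝ) {y : ℝ} (hy : 0 < y) (hy1 : y ≤ 1) (m : ℕ) {u : ℝ} (hu : 0 < u) :
    HasSum (fun N : ℕ => KIM.Lf q N y (KIM.gS (-1 / 2) q m) * Real.exp (-(2 * u)) ^ N)
      (Real.exp (2 * q * u) * (1 / Real.sqrt y) ^ (2 * q) / 4 *
        Phi 1 (2 * m + 2 * q - 1) q (iniG (2 * m + 2 * q - 1) q) 0 (1 / Real.sqrt y) u) := by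
  have hT0 := T_pos hy
  have hTs := T_sq hy
  obtain ⟨T, hT⟩ : ∃ T, T = 1 / Real.sqrt y := ⟨_, rfl⟩
  rw [← hT] at hT0 hTs ⊢
  have hr1 : Real.exp (-(2 * u)) < 1 := by
    rw [Real.exp_lt_one_iff]
    linarith
  have hC := Real.cosh_pos (vv T u)
  have hsu : 0 < Real.sinh u := Real.sinh_pos_iff.2 hu
  have hS : 0 < Real.sinh (vv T u) := by
    rw [sinh_vv]
    exact mul_pos hT0 hsu
  have hD : 0 < 2 * Real.exp (-u) * Real.cosh (vv T u) / T := by positivity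
  have hE : 0 < Real.exp (vv T u - u) / T := by positivity
  have hmain := eval_G q hy hy1 m (by rw [abs_of_pos (Real.exp_pos _)]; exact hr1) hD hE
    (D_pos hT0 hTs) (E_pos hT0)
  have hw : y * Real.exp (-(2 * u)) * (Real.exp (vv T u - u) / T) ^ (-2 : ℝ) =
      Real.exp (-(2 * vv T u)) := by
    rw [hTs]
    exact wval hT0 u (vv T u)
  have hyr : y * Real.exp (-(2 * u)) = Real.exp (-(2 * u)) / T ^ 2 := by
    rw [hTs]
    ring
  rw [hw, one_add_exp, one_sub_exp, hyr,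
    alg_G q m u (vv T u) two_pos hT0 (Real.cosh_pos u) hsu hC, ← sinh_vv] at hmain
  have key : 1 / Real.cosh (vv T u) * ((q - 1 + (2 * m + 2 * q - 1) * th T u +
      q * th T u ^ 2) / th T u) = Real.exp (2 * vv T u) /
        (2 * Real.sinh (vv T u) * Real.cosh (vv T u) ^ 2) *
        (m * (1 - Real.exp (-(2 * vv T u)) ^ 2) + (2 * q - 1) - Real.exp (-(2 * vv T u))) := by
    have h1 := keyG_pos q m (vv T u)
    rw [div_mul_eq_mul_div (Real.exp (2 * vv T u)), h1]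
    unfold th
    rw [Real.tanh_eq_sinh_div_cosh]
    field_simp
  have hval : Real.exp (2 * q * u) * T ^ (2 * q) / 4 *
        Phi 1 (2 * m + 2 * q - 1) q (iniG (2 * m + 2 * q - 1) q) 0 T u =
      Real.exp (2 * q * u) * T ^ (2 * q) / 2 ^ 2 *
        (Real.exp (-((2 * m + 2 * q - 1) * vv T u)) * (T * Real.cosh u / Real.cosh (vv T u)) ^ q *
          (Real.exp (2 * vv T u) / (2 * Real.sinh (vv T u) * Real.cosh (vv T u) ^ 2))) *
        (m * (1 - Real.exp (-(2 * vv T u)) ^ 2) + (2 * q - 1) - Real.exp (-(2 * vv T u))) := by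
    unfold iniG
    rw [Phi_zero]
    unfold RR
    linear_combination (Real.exp (2 * q * u) * T ^ (2 * q) / 4 *
      Real.exp (-((2 * m + 2 * q - 1) * vv T u)) *
      (T * Real.cosh u / Real.cosh (vv T u)) ^ q) * key
  rw [hval]
  exact hmain

theorem devG_neg (q : ℝ) {y : ℝ} (hy : 0 < y) (hy1 : y ≤ 1) (m : ℕ) {u : ℝ} (hu : 0 < u) :
    HasSum (fun N : ℕ => KIM.Lf q N y (KIM.gS (-1 / 2) q m) * (-Real.exp (-(2 * u))) ^ N)
      ((-1) ^ m * (Real.exp (2 * q * u) * (1 / Real.sqrt y) ^ (2 * q) / 4) *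
        altG (2 * m + 2 * q - 1) q (1 / Real.sqrt y) u) := by
  have hT1 := T_one hy hy1
  have hTs := T_sq hy
  obtain ⟨T, hT⟩ : ∃ T, T = 1 / Real.sqrt y := ⟨_, rfl⟩
  rw [← hT] at hT1 hTs ⊢
  have hT0 : 0 < T := by linarith
  have hr1 : Real.exp (-(2 * u)) < 1 := by
    rw [Real.exp_lt_one_iff]
    linarith
  have hC := Real.cosh_pos (ww T u)
  have hsu : 0 < Real.sinh u := Real.sinh_pos_iff.2 hu
  have hS : 0 < Real.sinh (ww T u) := sinh_ww_pos hT1 hu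
  have hD : 0 < 2 * Real.exp (-u) * Real.sinh (ww T u) / T := by positivity
  have hE : 0 < Real.exp (ww T u - u) / T := by positivity
  have hmain := eval_G q hy hy1 m (by rw [abs_neg, abs_of_pos (Real.exp_pos _)]; exact hr1) hD hE
    (D_neg hT1 hTs hu) (E_neg hT1 hu)
  have hw : y * -Real.exp (-(2 * u)) * (Real.exp (ww T u - u) / T) ^ (-2 : ℝ) =
      -Real.exp (-(2 * ww T u)) := by
    rw [← wval hT0 u (ww T u), hTs]
    ring
  have hyr : (y * -Real.exp (-(2 * u))) ^ m = (-1) ^ m * (Real.exp (-(2 * u)) / T ^ 2) ^ m := by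
    rw [← mul_pow, hTs]
    congr 1
    ring
  rw [hw, sub_neg_eq_add, ← sub_eq_add_neg, one_add_exp, one_sub_exp, hyr] at hmain
  have hal := alg_G q m u (ww T u) two_pos hT0 hsu (Real.cosh_pos u) hS
  rw [← cosh_ww hT1 hu] at hal
  have key : 1 / Real.cosh (ww T u) * ((q - 1) + (2 * m + 2 * q - 1) *
      (Real.cosh (ww T u) / Real.sinh (ww T u)) +
      q * (Real.cosh (ww T u) / Real.sinh (ww T u)) ^ 2) = Real.exp (2 * ww T u) /
        (2 * Real.cosh (ww T u) * Real.sinh (ww T u) ^ 2) *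
        (m * (1 - (-Real.exp (-(2 * ww T u))) ^ 2) + (2 * q - 1) -
          -Real.exp (-(2 * ww T u))) := by
    have h1 := keyG_neg q m (ww T u)
    rw [div_mul_eq_mul_div (Real.exp (2 * ww T u)), h1]
    field_simp
  have hval : (-1) ^ m * (Real.exp (2 * q * u) * T ^ (2 * q) / 4) *
        altG (2 * m + 2 * q - 1) q T u =
      (-1) ^ m * (Real.exp (-(2 * u)) / T ^ 2) ^ m * (2 * Real.exp (-u) * Real.sinh u) ^ q *
            (2 * Real.exp (-u) * Real.cosh u) ^ (-1 : ℝ) *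
          (2 * Real.exp (-u) * Real.sinh (ww T u) / T) ^ (-q - 2) *
        (Real.exp (ww T u - u) / T) ^ (3 - 2 * q - 2 * m) *
      (m * (1 - (-Real.exp (-(2 * ww T u))) ^ 2) + (2 * q - 1) - -Real.exp (-(2 * ww T u))) := by
    unfold altG
    linear_combination ((-1) ^ m * (Real.exp (2 * q * u) * T ^ (2 * q) / 4) *
      Real.exp (-((2 * m + 2 * q - 1) * ww T u)) *
      (T * Real.sinh u / Real.sinh (ww T u)) ^ q) * key - (-1) ^ m *
      (m * (1 - (-Real.exp (-(2 * ww T u))) ^ 2) + (2 * q - 1) - -Real.exp (-(2 * ww T u))) * hal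
  rw [hval]
  exact hmain

private theorem keyC_pos (mu nu v : ℝ) (hC : 0 < Real.cosh v) (hS : 0 < Real.sinh v) :
    (2 * (mu + nu) - 1 + 2 * (mu - nu) * Real.tanh v + 1 * Real.tanh v ^ 2) / Real.tanh v =
      2 * Real.exp v / Real.sinh v *
        (mu + nu * Real.exp (-(2 * v)) - Real.exp (-(2 * v)) *
          (Real.exp v / (2 * Real.cosh v))) := by
  have h1 := exp_pn v
  have h2 := Real.cosh_sq v
  have h3 : 2 * Real.exp v / Real.sinh v *
        (mu + nu * Real.exp (-(2 * v)) - Real.exp (-(2 * v)) *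
          (Real.exp v / (2 * Real.cosh v))) = 2 / Real.sinh v *
        (mu * Real.exp v + nu * (Real.exp v * Real.exp (-v)) * Real.exp (-v) -
          (Real.exp v * Real.exp (-v)) ^ 2 * (1 / (2 * Real.cosh v))) := by
    rw [exp_neg_two]
    ring
  rw [h3, h1, exp_p, exp_n, Real.tanh_eq_sinh_div_cosh]
  field_simp
  linear_combination (-1) * h2

private theorem keyC_neg (mu nu v : ℝ) (hC : 0 < Real.cosh v) (hS : 0 < Real.sinh v) :
    Real.cosh v / Real.sinh v + 2 * (mu - nu) + (2 * (mu + nu) - 1) * (Real.sinh v / Real.cosh v) =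
      2 * Real.exp v / Real.cosh v *
        (mu + nu * -Real.exp (-(2 * v)) - -Real.exp (-(2 * v)) *
          (Real.exp v / (2 * Real.sinh v))) := by
  have h1 := exp_pn v
  have h2 := Real.cosh_sq v
  have h3 : 2 * Real.exp v / Real.cosh v *
        (mu + nu * -Real.exp (-(2 * v)) - -Real.exp (-(2 * v)) *
          (Real.exp v / (2 * Real.sinh v))) = 2 / Real.cosh v *
        (mu * Real.exp v - nu * (Real.exp v * Real.exp (-v)) * Real.exp (-v) +
          (Real.exp v * Real.exp (-v)) ^ 2 * (1 / (2 * Real.sinh v))) := by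
    rw [exp_neg_two]
    ring
  rw [h3, h1, exp_p, exp_n]
  field_simp
  linear_combination h2

/-- the value of `E * D ^ (-1)` -/
private theorem EDval {T : ℝ} (hT : 0 < T) (u v d : ℝ) (hd : 0 < d) :
    Real.exp (v - u) / T * (2 * Real.exp (-u) * d / T) ^ (-1 : ℝ) =
      Real.exp v / (2 * d) := by
  have h1 : Real.exp (v - u) = Real.exp v * Real.exp (-u) := by
    rw [← Real.exp_add]
    congr 1
  have h2 := (Real.exp_pos (-u)).ne'
  rw [Real.rpow_neg_one, h1]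
  field_simp

theorem devC_pos (q : ℝ) {y : ℝ} (hy : 0 < y) (hy1 : y ≤ 1) (j : ℕ) {u : ℝ} (hu : 0 < u) :
    HasSum (fun N : ℕ => KIM.Lf q N y (KIM.tS (-1 / 2) q j) * Real.exp (-(2 * u)) ^ N)
      (Real.exp (2 * q * u) * (1 / Real.sqrt y) ^ (2 * q) / 4 *
        Phi 0 (2 * j + 2 * q) q (iniC (2 * (muj q j - nuj q j)) (2 * (muj q j + nuj q j) - 1)) 0
          (1 / Real.sqrt y) u) := by
  have hT0 := T_pos hy
  have hTs := T_sq hy
  obtain ⟨T, hT⟩ : ∃ T, T = 1 / Real.sqrt y := ⟨_, rfl⟩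
  rw [← hT] at hT0 hTs ⊢
  have hr1 : Real.exp (-(2 * u)) < 1 := by
    rw [Real.exp_lt_one_iff]
    linarith
  have hC := Real.cosh_pos (vv T u)
  have hsu : 0 < Real.sinh u := Real.sinh_pos_iff.2 hu
  have hS : 0 < Real.sinh (vv T u) := by
    rw [sinh_vv]
    exact mul_pos hT0 hsu
  have hD : 0 < 2 * Real.exp (-u) * Real.cosh (vv T u) / T := by positivity
  have hE : 0 < Real.exp (vv T u - u) / T := by positivity
  have hmain := eval_C q hy hy1 j (by rw [abs_of_pos (Real.exp_pos _)]; exact hr1) hD hE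
    (D_pos hT0 hTs) (E_pos hT0)
  have hw : y * Real.exp (-(2 * u)) * (Real.exp (vv T u - u) / T) ^ (-2 : ℝ) =
      Real.exp (-(2 * vv T u)) := by
    rw [hTs]
    exact wval hT0 u (vv T u)
  have hyr : y * Real.exp (-(2 * u)) = Real.exp (-(2 * u)) / T ^ 2 := by
    rw [hTs]
    ring
  have hED := EDval hT0 u (vv T u) _ hC
  rw [hw, one_add_exp, one_sub_exp, hyr, mul_assoc (Real.exp (-(2 * vv T u))), hED,
    alg_C q j u (vv T u) two_pos hT0 (Real.cosh_pos u) hsu hC, ← sinh_vv] at hmain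
  have key := keyC_pos (muj q j) (nuj q j) (vv T u) hC hS
  have hval : Real.exp (2 * q * u) * T ^ (2 * q) / 4 *
        Phi 0 (2 * j + 2 * q) q (iniC (2 * (muj q j - nuj q j)) (2 * (muj q j + nuj q j) - 1)) 0
          T u =
      Real.exp (2 * q * u) * T ^ (2 * q) / 2 ^ 2 *
        (Real.exp (-((2 * j + 2 * q) * vv T u)) * (T * Real.cosh u / Real.cosh (vv T u)) ^ q *
          (2 * Real.exp (vv T u) / Real.sinh (vv T u))) *
        (muj q j + nuj q j * Real.exp (-(2 * vv T u)) - Real.exp (-(2 * vv T u)) *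
          (Real.exp (vv T u) / (2 * Real.cosh (vv T u)))) := by
    unfold iniC
    rw [Phi_zero]
    unfold RR th
    linear_combination (Real.exp (2 * q * u) * T ^ (2 * q) / 4 *
      Real.exp (-((2 * j + 2 * q) * vv T u)) *
      (T * Real.cosh u / Real.cosh (vv T u)) ^ q) * key
  rw [hval]
  exact hmain

theorem devC_neg (q : ℝ) {y : ℝ} (hy : 0 < y) (hy1 : y ≤ 1) (j : ℕ) {u : ℝ} (hu : 0 < u) :
    HasSum (fun N : ℕ => KIM.Lf q N y (KIM.tS (-1 / 2) q j) * (-Real.exp (-(2 * u))) ^ N)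
      ((-1) ^ j * (Real.exp (2 * q * u) * (1 / Real.sqrt y) ^ (2 * q) / 4) *
        altC (2 * j + 2 * q) q (2 * (muj q j - nuj q j)) (2 * (muj q j + nuj q j) - 1)
          (1 / Real.sqrt y) u) := by
  have hT1 := T_one hy hy1
  have hTs := T_sq hy
  obtain ⟨T, hT⟩ : ∃ T, T = 1 / Real.sqrt y := ⟨_, rfl⟩
  rw [← hT] at hT1 hTs ⊢
  have hT0 : 0 < T := by linarith
  have hr1 : Real.exp (-(2 * u)) < 1 := by
    rw [Real.exp_lt_one_iff]
    linarith
  have hC := Real.cosh_pos (ww T u)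
  have hsu : 0 < Real.sinh u := Real.sinh_pos_iff.2 hu
  have hS : 0 < Real.sinh (ww T u) := sinh_ww_pos hT1 hu
  have hD : 0 < 2 * Real.exp (-u) * Real.sinh (ww T u) / T := by positivity
  have hE : 0 < Real.exp (ww T u - u) / T := by positivity
  have hmain := eval_C q hy hy1 j (by rw [abs_neg, abs_of_pos (Real.exp_pos _)]; exact hr1) hD hE
    (D_neg hT1 hTs hu) (E_neg hT1 hu)
  have hw : y * -Real.exp (-(2 * u)) * (Real.exp (ww T u - u) / T) ^ (-2 : ℝ) =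
      -Real.exp (-(2 * ww T u)) := by
    rw [← wval hT0 u (ww T u), hTs]
    ring
  have hyr : (y * -Real.exp (-(2 * u))) ^ j = (-1) ^ j * (Real.exp (-(2 * u)) / T ^ 2) ^ j := by
    rw [← mul_pow, hTs]
    congr 1
    ring
  have hED := EDval hT0 u (ww T u) _ hS
  rw [hw, sub_neg_eq_add, ← sub_eq_add_neg, one_add_exp, one_sub_exp, hyr,
    mul_assoc (-Real.exp (-(2 * ww T u))), hED] at hmain
  have hal := alg_C q j u (ww T u) two_pos hT0 hsu (Real.cosh_pos u) hS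
  rw [← cosh_ww hT1 hu] at hal
  have key := keyC_neg (muj q j) (nuj q j) (ww T u) hC hS
  have hval : (-1) ^ j * (Real.exp (2 * q * u) * T ^ (2 * q) / 4) *
        altC (2 * j + 2 * q) q (2 * (muj q j - nuj q j)) (2 * (muj q j + nuj q j) - 1) T u =
      (-1) ^ j * (Real.exp (-(2 * u)) / T ^ 2) ^ j * (2 * Real.exp (-u) * Real.sinh u) ^ q *
            (2 * Real.exp (-u) * Real.cosh u) ^ (-1 : ℝ) *
          (2 * Real.exp (-u) * Real.sinh (ww T u) / T) ^ (-q) *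
        (Real.exp (ww T u - u) / T) ^ (1 - 2 * q - 2 * j) *
      (muj q j + nuj q j * -Real.exp (-(2 * ww T u)) - -Real.exp (-(2 * ww T u)) *
        (Real.exp (ww T u) / (2 * Real.sinh (ww T u)))) := by
    unfold altC
    linear_combination ((-1) ^ j * (Real.exp (2 * q * u) * T ^ (2 * q) / 4) *
      Real.exp (-((2 * j + 2 * q) * ww T u)) *
      (T * Real.sinh u / Real.sinh (ww T u)) ^ q) * key - (-1) ^ j *
      (muj q j + nuj q j * -Real.exp (-(2 * ww T u)) - -Real.exp (-(2 * ww T u)) *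
        (Real.exp (ww T u) / (2 * Real.sinh (ww T u)))) * hal
  rw [hval]
  exact hmain

end Pool.Agent.KIQ
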