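import Mathlib
import Pool.Agent.KIM.Defs

/-!
# KIQ: positivity of the certificate for `1 < q < 2`.  Definitions
-/

set_option autoImplicit false

open PowerSeries Finset

namespace Pool.Agent.KIQ

/-! ## The kernels -/

/-- `cosh ^ q * sinh ^ (-3 q)`. -/
noncomputable def hK (q y : ℝ) : ℝ := Real.cosh y ^ q * Real.sinh y ^ (-(3 * q))

/-- `sinh ^ q * cosh ^ (-3 q)`. -/
noncomputable def gK (q y : ℝ) : ℝ := Real.sinh y ^ q * Real.cosh y ^ (-(3 * q))

/-- `2 N + 2 q`. -/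
noncomputable def aN (q : ℝ) (N : ℕ) : ℝ := 2 * (N : ℝ) + 2 * q

/-- `C_N = [z ^ N] (k') ^ q`. -/
noncomputable def cN (q : ℝ) (N : ℕ) : ℝ := coeff N (KIM.Kq q)

/-- `Psi_j(y) = ∑ F_N x ^ N a_N ^ j exp (-a_N y)`. -/
noncomputable def psi (q : ℝ) (F : ℕ → ℝ) (x : ℝ) (j : ℕ) (y : ℝ) : ℝ :=
  ∑' N, F N * x ^ N * aN q N ^ j * Real.exp (-(aN q N * y))

/-- `∑ (-1) ^ N F_N x ^ N exp (-a_N y)`. -/
noncomputable def psiM (q : ℝ) (F : ℕ → ℝ) (x : ℝ) (y : ℝ) : ℝ :=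
  ∑' N, (-1) ^ N * F N * x ^ N * Real.exp (-(aN q N * y))

/-! ## Power series representing functions on the disc -/

/-- The power series `P` (real coefficients) converges to `f` on the open unit disc. -/
def Rep (P : ℝ⟦X⟧) (f : ℂ → ℂ) : Prop :=
  ∀ z : ℂ, ‖z‖ < 1 → HasSum (fun n : ℕ => ((coeff n P : ℝ) : ℂ) * z ^ n) (f z)

/-! ## The flow variables -/

/-- `v`: `sinh v = T sinh u`. -/
noncomputable def vv (T u : ℝ) : ℝ := Real.arsinh (T * Real.sinh u)

/-- `theta = tanh v`. -/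
noncomputable def th (T u : ℝ) : ℝ := Real.tanh (vv T u)

/-- `R = dv / du = T cosh u / cosh v`. -/
noncomputable def RR (T u : ℝ) : ℝ := T * Real.cosh u / Real.cosh (vv T u)

/-- `X = R ^ 2 - 1`. -/
noncomputable def XX (T u : ℝ) : ℝ := RR T u ^ 2 - 1

/-- One step of the recursion for the polynomials. -/
noncomputable def opA (a : ℝ) (k : ℕ) (c : ℝ) (p : Polynomial ℝ) : Polynomial ℝ :=
  Polynomial.C a * Polynomial.X * p -
    (1 - Polynomial.X ^ 2) * (Polynomial.X * Polynomial.derivative p -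
      Polynomial.C ((k : ℝ) + 1) * p) + Polynomial.C c * Polynomial.X ^ 2 * p

/-- The polynomials `p_(k,i)(theta) = theta ^ (k + 1) P_i^(k)(theta)`. -/
noncomputable def pp (s : ℕ) (a q : ℝ) (p0 : Polynomial ℝ) : ℕ → ℕ → Polynomial ℝ
  | 0, 0 => p0
  | 0, _ + 1 => 0
  | k + 1, 0 => opA a k s (pp s a q p0 k 0)
  | k + 1, i + 1 => opA a k (s + 2 * ((i : ℝ) + 1)) (pp s a q p0 k (i + 1)) +
      opA a k (s + 2 * (i : ℝ) + q - k) (pp s a q p0 k i)

/-- `gamma + beta X + alpha X ^ 2`: the function `gamma / theta + beta + alpha theta`. -/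
noncomputable def ini (al be ga : ℝ) : Polynomial ℝ :=
  Polynomial.C ga + Polynomial.C be * Polynomial.X + Polynomial.C al * Polynomial.X ^ 2

/-- `(-d/du)^k` of `e^(-a v) sech^s v R^q (gamma / theta + beta + alpha theta)`. -/
noncomputable def Phi (s : ℕ) (a q : ℝ) (p0 : Polynomial ℝ) (k : ℕ) (T u : ℝ) : ℝ :=
  Real.exp (-(a * vv T u)) * (1 / Real.cosh (vv T u)) ^ s * RR T u ^ (q - k) *
    ((∑ i ∈ range (k + 1), XX T u ^ i * (pp s a q p0 k i).eval (th T u)) / th T u ^ (k + 1))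

/-- Initial polynomial for (G): `(q - 1) / theta + a + q theta`. -/
noncomputable def iniG (a q : ℝ) : Polynomial ℝ := ini q a (q - 1)

/-- Initial polynomial for (C): `theta + A + B / theta`. -/
noncomputable def iniC (A B : ℝ) : Polynomial ℝ := ini 1 A B

/-- `w'`: `cosh w' = T cosh u`, written with `arcosh`. -/
noncomputable def ww (T u : ℝ) : ℝ :=
  Real.log (T * Real.cosh u + Real.sqrt ((T * Real.cosh u) ^ 2 - 1))

/-- The alternating companion of `Phi` for (G). -/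
noncomputable def altG (a q T u : ℝ) : ℝ :=
  (T * Real.sinh u / Real.sinh (ww T u)) ^ q * Real.exp (-(a * ww T u)) *
    (1 / Real.cosh (ww T u)) *
    ((q - 1) + a * (Real.cosh (ww T u) / Real.sinh (ww T u)) +
      q * (Real.cosh (ww T u) / Real.sinh (ww T u)) ^ 2)

/-- The alternating companion of `Phi` for (C). -/
noncomputable def altC (a q A B T u : ℝ) : ℝ :=
  (T * Real.sinh u / Real.sinh (ww T u)) ^ q * Real.exp (-(a * ww T u)) *
    (Real.cosh (ww T u) / Real.sinh (ww T u) + A +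
      B * (Real.sinh (ww T u) / Real.cosh (ww T u)))

/-! ## The formal series -/

/-- `D = (1 - 2 (1 - 2 y) z + z ^ 2) ^ (1/2)`. -/
noncomputable def De (y : ℝ) : ℝ⟦X⟧ :=
  KIM.rp (1 - C (2 * (1 - 2 * y)) * X + X ^ 2 : ℝ⟦X⟧) (1 / 2)

/-- `E = (D + 1 - z) / 2`. -/
noncomputable def Ee (y : ℝ) : ℝ⟦X⟧ := C (1 / 2) * (De y + 1 - X)

/-- `w = y z E ^ (-2)`. -/
noncomputable def wE (y : ℝ) : ℝ⟦X⟧ := C y * X * KIM.rp (Ee y) (-2)

/-- `mu_j`. -/
noncomputable def muj (q : ℝ) (j : ℕ) : ℝ := KIM.pc (-1 / 2) q j / KIM.Vc (-1 / 2) q j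

/-- `nu_j`. -/
noncomputable def nuj (q : ℝ) (j : ℕ) : ℝ :=
  (if j = 0 then 0 else KIM.pc (-1 / 2) q (j - 1)) / KIM.Vc (-1 / 2) q (j + 1)

end Pool.Agent.KIQ
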