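import Pool.Agent.KIQ.DER

/-!
# PTN: nonnegativity of Phi for k = 0, 1
-/

set_option autoImplicit false

open PowerSeries Finset

namespace Pool.Agent.KIQ

private theorem ptn_pref (s : ℕ) (a q : ℝ) (p0 : Polynomial ℝ) (k : ℕ) {T u : ℝ} (hT : 1 ≤ T)
    (hu : 0 < u) (h : ∀ i ∈ range (k + 1), 0 ≤ (pp s a q p0 k i).eval (th T u)) :
    0 ≤ Phi s a q p0 k T u := by
  unfold Phi
  have h1 := th_pos hT hu
  have h2 := RR_pos hT u
  have h3 := XX_nonneg hT u
  have h4 := Real.cosh_pos (vv T u)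
  have h5 : 0 ≤ ∑ i ∈ range (k + 1), XX T u ^ i * (pp s a q p0 k i).eval (th T u) :=
    Finset.sum_nonneg fun i hi => mul_nonneg (pow_nonneg h3 i) (h i hi)
  have h6 : 0 ≤ RR T u ^ (q - k) := Real.rpow_nonneg h2.le _
  have h7 : 0 ≤ (∑ i ∈ range (k + 1), XX T u ^ i * (pp s a q p0 k i).eval (th T u)) /
      th T u ^ (k + 1) := div_nonneg h5 (pow_nonneg h1.le _)
  have h8 : 0 ≤ (1 / Real.cosh (vv T u)) ^ s := by positivity
  exact mul_nonneg (mul_nonneg (mul_nonneg (Real.exp_pos _).le h8) h6) h7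

private theorem ptn_ini (al be ga x : ℝ) :
    (ini al be ga).eval x = ga + be * x + al * x ^ 2 := by
  unfold ini
  simp

private theorem ptn_op (a c al be ga x : ℝ) :
    (opA a 0 c (ini al be ga)).eval x =
      a * x * (ga + be * x + al * x ^ 2) - (1 - x ^ 2) * (al * x ^ 2 - ga) +
        c * x ^ 2 * (ga + be * x + al * x ^ 2) := by
  unfold opA ini
  simp
  left
  ring

private theorem ptn_pp1 (s : ℕ) (a q : ℝ) (p0 : Polynomial ℝ) (x : ℝ) :
    (pp s a q p0 1 0).eval x = (opA a 0 s p0).eval x ∧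
      (pp s a q p0 1 1).eval x = (opA a 0 (s + q) p0).eval x := by
  constructor
  · simp [pp]
  · simp [pp, opA]

theorem ptG_nonneg0 {a q T u : ℝ} (hq : 1 ≤ q) (ha : 0 ≤ a) (hT : 1 ≤ T) (hu : 0 < u) :
    0 ≤ Phi 1 a q (iniG a q) 0 T u := by
  refine ptn_pref 1 a q _ 0 hT hu ?_
  intro i hi
  have hi0 : i = 0 := by simpa using hi
  subst hi0
  have h1 := th_pos hT hu
  have h2 : (pp 1 a q (iniG a q) 0 0) = iniG a q := rfl
  rw [h2, iniG, ptn_ini]
  have h3 : 0 ≤ a * th T u := mul_nonneg ha h1.le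
  have h4 : 0 ≤ q * th T u ^ 2 := mul_nonneg (by linarith) (by positivity)
  linarith

theorem ptG_nonneg1 {a q T u : ℝ} (hq : 1 ≤ q) (ha : 2 * q + 1 ≤ a) (hT : 1 ≤ T) (hu : 0 < u) :
    0 ≤ Phi 1 a q (iniG a q) 1 T u := by
  have h1 := th_pos hT hu
  have h2 := th_lt_one T u
  have key : ∀ c : ℝ, 0 ≤ c → 0 ≤ (opA a 0 c (iniG a q)).eval (th T u) := by
    intro c hc
    rw [iniG, ptn_op]
    set x := th T u with hx
    have hx2 : x ^ 2 ≤ 1 := by nlinarith
    have h3 : 0 ≤ a * x := mul_nonneg (by linarith) h1.le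
    have h4 : 0 ≤ (q - 1) + a * x + q * x ^ 2 := by
      have : 0 ≤ q * x ^ 2 := mul_nonneg (by linarith) (by positivity)
      linarith
    have h5 : 0 ≤ c * x ^ 2 * ((q - 1) + a * x + q * x ^ 2) :=
      mul_nonneg (mul_nonneg hc (by positivity)) h4
    have h6 : a * x * ((q - 1) + a * x + q * x ^ 2) ≥ a ^ 2 * x ^ 2 := by
      have : 0 ≤ a * x * ((q - 1) + q * x ^ 2) := by
        refine mul_nonneg h3 ?_
        have : 0 ≤ q * x ^ 2 := mul_nonneg (by linarith) (by positivity)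
        linarith
      nlinarith
    have h7 : (1 - x ^ 2) * (q * x ^ 2 - (q - 1)) ≤ q * x ^ 2 := by
      have e1 : 0 ≤ (1 - x ^ 2) * (q - 1) := mul_nonneg (by linarith) (by linarith)
      have e2 : 0 ≤ x ^ 2 * (q * x ^ 2) := by
        have : 0 ≤ q * x ^ 2 := mul_nonneg (by linarith) (by positivity)
        positivity
      nlinarith
    have h8 : q * x ^ 2 ≤ a ^ 2 * x ^ 2 := by
      refine mul_le_mul_of_nonneg_right ?_ (by positivity)
      nlinarith
    linarith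
  refine ptn_pref 1 a q _ 1 hT hu ?_
  intro i hi
  obtain ⟨e0, e1⟩ := ptn_pp1 1 a q (iniG a q) (th T u)
  have hi2 : i < 2 := by simpa using hi
  interval_cases i
  · rw [e0]
    exact key _ (by positivity)
  · rw [e1]
    refine key _ ?_
    have : (0 : ℝ) ≤ ((1 : ℕ) : ℝ) := by positivity
    linarith

theorem ptC_nonneg0 {a q A B T u : ℝ} (hA : 0 ≤ A) (hB : 0 ≤ B) (hT : 1 ≤ T) (hu : 0 < u) :
    0 ≤ Phi 0 a q (iniC A B) 0 T u := by
  refine ptn_pref 0 a q _ 0 hT hu ?_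
  intro i hi
  have hi0 : i = 0 := by simpa using hi
  subst hi0
  have h1 := th_pos hT hu
  have h2 : (pp 0 a q (iniC A B) 0 0) = iniC A B := rfl
  rw [h2, iniC, ptn_ini]
  have h3 : 0 ≤ A * th T u := mul_nonneg hA h1.le
  have h4 : 0 ≤ 1 * th T u ^ 2 := by positivity
  linarith

theorem ptC_nonneg1 {a q A B T u : ℝ} (hq : 1 ≤ q) (ha : 2 * q + 2 ≤ a)
    (hA : (3 * q - 2) * a ≤ (a ^ 2 - q ^ 2) * A) (hB : q * (3 * q - 2) ≤ (a ^ 2 - q ^ 2) * B)
    (hT : 1 ≤ T) (hu : 0 < u) :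
    0 ≤ Phi 0 a q (iniC A B) 1 T u := by
  have h1 := th_pos hT hu
  have h2 := th_lt_one T u
  have hD : 0 < a ^ 2 - q ^ 2 := by nlinarith
  have hB0 : 0 ≤ B := by
    by_contra hneg
    push Not at hneg
    have e1 : (a ^ 2 - q ^ 2) * B < 0 := mul_neg_of_pos_of_neg hD hneg
    have e2 : 0 ≤ q * (3 * q - 2) := mul_nonneg (by linarith) (by linarith)
    linarith
  have hA0 : 0 ≤ A := by
    by_contra hneg
    push Not at hneg
    have e1 : (a ^ 2 - q ^ 2) * A < 0 := mul_neg_of_pos_of_neg hD hneg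
    have e2 : 0 ≤ (3 * q - 2) * a := mul_nonneg (by linarith) (by linarith)
    linarith
  have hA1 : 1 ≤ a * A := by
    by_contra hneg
    push Not at hneg
    have e1 : (a ^ 2 - q ^ 2) * (a * A) < (a ^ 2 - q ^ 2) * 1 := mul_lt_mul_of_pos_left hneg hD
    have e2 : (3 * q - 2) * a * a ≤ (a ^ 2 - q ^ 2) * A * a :=
      mul_le_mul_of_nonneg_right hA (by linarith)
    have e3 : 1 * (a * a) ≤ (3 * q - 2) * (a * a) :=
      mul_le_mul_of_nonneg_right (by linarith) (by nlinarith)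
    have e4 : 0 ≤ q ^ 2 := sq_nonneg q
    nlinarith
  have key : ∀ c : ℝ, 0 ≤ c → 0 ≤ (opA a 0 c (iniC A B)).eval (th T u) := by
    intro c hc
    rw [iniC, ptn_op]
    set x := th T u with hx
    have hx2 : x ^ 2 ≤ 1 := by nlinarith
    have h3 : 0 ≤ a * x := mul_nonneg (by linarith) h1.le
    have h4 : 0 ≤ B + A * x + 1 * x ^ 2 := by
      have : 0 ≤ A * x := mul_nonneg hA0 h1.le
      positivity
    have h5 : 0 ≤ c * x ^ 2 * (B + A * x + 1 * x ^ 2) :=
      mul_nonneg (mul_nonneg hc (by positivity)) h4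
    have h6 : a * x * (B + A * x + 1 * x ^ 2) ≥ a * A * x ^ 2 := by
      have : 0 ≤ a * x * (B + x ^ 2) := mul_nonneg h3 (by positivity)
      nlinarith
    have h7 : (1 - x ^ 2) * (1 * x ^ 2 - B) ≤ x ^ 2 := by
      have e1 : 0 ≤ (1 - x ^ 2) * B := mul_nonneg (by linarith) hB0
      have e2 : 0 ≤ x ^ 2 * x ^ 2 := by positivity
      nlinarith
    have h8 : 1 * x ^ 2 ≤ a * A * x ^ 2 := mul_le_mul_of_nonneg_right hA1 (by positivity)
    linarith
  refine ptn_pref 0 a q _ 1 hT hu ?_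
  intro i hi
  obtain ⟨e0, e1⟩ := ptn_pp1 0 a q (iniC A B) (th T u)
  have hi2 : i < 2 := by simpa using hi
  interval_cases i
  · rw [e0]
    exact key _ (by positivity)
  · rw [e1]
    refine key _ ?_
    have : (0 : ℝ) ≤ ((0 : ℕ) : ℝ) := by positivity
    linarith

end Pool.Agent.KIQ
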