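import Pool.Agent.KIQ.POLYFC

/-!
# PC3: positivity of the polynomials
-/

set_option autoImplicit false
set_option maxRecDepth 10000
set_option linter.unusedSimpArgs false
set_option linter.unusedVariables false

open PowerSeries Finset

namespace Pool.Agent.KIQ.POLY

noncomputable def c30e_0 (n p : ℝ) : ℝ :=
  18 * p ^ 2 + 24 * p + 6

theorem c30e_0_nn {n p : ℝ} (hn : 0 ≤ n) (hp : 0 ≤ p) : 0 ≤ c30e_0 n p := by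
  unfold c30e_0; positivity

noncomputable def c30e_1 (n p : ℝ) : ℝ :=
  18 * n * p ^ 2 + 36 * p ^ 3 + 24 * n * p + 138 * p ^ 2 + 15 / 16 * n + 132 * p + 129 / 16

theorem c30e_1_nn {n p : ℝ} (hn : 0 ≤ n) (hp : 0 ≤ p) : 0 ≤ c30e_1 n p := by
  unfold c30e_1; positivity

noncomputable def c30e_2 (n p : ℝ) : ℝ :=
  9 * n ^ 2 * p ^ 2 + 36 * n * p ^ 3 + 36 * p ^ 4 + 12 * n ^ 2 * p + 138 * n * p ^ 2 + 228 * p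
  ^ 3 + 3 / 16 * n ^ 2 + 555 / 4 * n * p + 462 * p ^ 2 + 57 / 16 * n + 1477 / 4 * p + 139 /
  16

theorem c30e_2_nn {n p : ℝ} (hn : 0 ≤ n) (hp : 0 ≤ p) : 0 ≤ c30e_2 n p := by
  unfold c30e_2; positivity

noncomputable def c30e_3 (n p : ℝ) : ℝ :=
  3 * n ^ 3 * p ^ 2 + 18 * n ^ 2 * p ^ 3 + 36 * n * p ^ 4 + 24 * p ^ 5 + 4 * n ^ 3 * p + 69 *
  n ^ 2 * p ^ 2 + 228 * n * p ^ 3 + 212 * p ^ 4 + 1 / 16 * n ^ 3 + 72 * n ^ 2 * p + 1863 / 4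
  * n * p ^ 2 + 680 * p ^ 3 + 15 / 8 * n ^ 2 + 402 * n * p + 3825 / 4 * p ^ 2 + 135 / 16 * n
  + 2819 / 4 * p + 109 / 8

theorem c30e_3_nn {n p : ℝ} (hn : 0 ≤ n) (hp : 0 ≤ p) : 0 ≤ c30e_3 n p := by
  unfold c30e_3; positivity

noncomputable def c30e_4 (n p : ℝ) : ℝ :=
  3 * n ^ 4 * p + 27 * n ^ 3 * p ^ 2 + 90 * n ^ 2 * p ^ 3 + 132 * n * p ^ 4 + 72 * p ^ 5 + 5 /
  16 * n ^ 4 + 157 / 4 * n ^ 3 * p + 1201 / 4 * n ^ 2 * p ^ 2 + 716 * n * p ^ 3 + 540 * p ^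
  4 + 15 / 4 * n ^ 3 + 359 / 2 * n ^ 2 * p + 4239 / 4 * n * p ^ 2 + 1396 * p ^ 3 + 343 / 16
  * n ^ 2 + 345 * n * p + 4883 / 4 * p ^ 2 + 835 / 16 * n + 515 / 2 * p + 361 / 8

theorem c30e_4_nn {n p : ℝ} (hn : 0 ≤ n) (hp : 0 ≤ p) : 0 ≤ c30e_4 n p := by
  unfold c30e_4; positivity

noncomputable def c30e_5 (n p : ℝ) : ℝ :=
  1 / 2 * n ^ 5 + 11 * n ^ 4 * p + 64 * n ^ 3 * p ^ 2 + 164 * n ^ 2 * p ^ 3 + 200 * n * p ^ 4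
  + 96 * p ^ 5 + 173 / 16 * n ^ 4 + 333 / 2 * n ^ 3 * p + 2931 / 4 * n ^ 2 * p ^ 2 + 1284 *
  n * p ^ 3 + 796 * p ^ 4 + 329 / 4 * n ^ 3 + 3567 / 4 * n ^ 2 * p + 10425 / 4 * n * p ^ 2 +
  2260 * p ^ 3 + 2265 / 8 * n ^ 2 + 7969 / 4 * n * p + 5525 / 2 * p ^ 2 + 6763 / 16 * n +
  3041 / 2 * p + 1505 / 8

theorem c30e_5_nn {n p : ℝ} (hn : 0 ≤ n) (hp : 0 ≤ p) : 0 ≤ c30e_5 n p := by
  unfold c30e_5; positivity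

noncomputable def c30e_6 (n p : ℝ) : ℝ :=
  7 / 16 * n ^ 5 + 43 / 4 * n ^ 4 * p + 255 / 4 * n ^ 3 * p ^ 2 + 164 * n ^ 2 * p ^ 3 + 200 *
  n * p ^ 4 + 96 * p ^ 5 + 13 * n ^ 4 + 753 / 4 * n ^ 3 * p + 1601 / 2 * n ^ 2 * p ^ 2 +
  1368 * n * p ^ 3 + 832 * p ^ 4 + 1009 / 8 * n ^ 3 + 4665 / 4 * n ^ 2 * p + 12527 / 4 * n *
  p ^ 2 + 2572 * p ^ 3 + 4401 / 8 * n ^ 2 + 12169 / 4 * n * p + 7469 / 2 * p ^ 2 + 17483 /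
  16 * n + 5601 / 2 * p + 6305 / 8

theorem c30e_6_nn {n p : ℝ} (hn : 0 ≤ n) (hp : 0 ≤ p) : 0 ≤ c30e_6 n p := by
  unfold c30e_6; positivity

noncomputable def c30e_7 (n p : ℝ) : ℝ :=
  7 / 16 * n ^ 5 + 43 / 4 * n ^ 4 * p + 255 / 4 * n ^ 3 * p ^ 2 + 164 * n ^ 2 * p ^ 3 + 200 *
  n * p ^ 4 + 96 * p ^ 5 + 13 * n ^ 4 + 753 / 4 * n ^ 3 * p + 1601 / 2 * n ^ 2 * p ^ 2 +
  1368 * n * p ^ 3 + 832 * p ^ 4 + 1057 / 8 * n ^ 3 + 4809 / 4 * n ^ 2 * p + 12791 / 4 * n *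
  p ^ 2 + 2608 * p ^ 3 + 4977 / 8 * n ^ 2 + 13273 / 4 * n * p + 7949 / 2 * p ^ 2 + 21995 /
  16 * n + 6633 / 2 * p + 9185 / 8

theorem c30e_7_nn {n p : ℝ} (hn : 0 ≤ n) (hp : 0 ≤ p) : 0 ≤ c30e_7 n p := by
  unfold c30e_7; positivity

noncomputable def c30e_8 (n p : ℝ) : ℝ :=
  7 / 16 * n ^ 5 + 43 / 4 * n ^ 4 * p + 255 / 4 * n ^ 3 * p ^ 2 + 164 * n ^ 2 * p ^ 3 + 200 *
  n * p ^ 4 + 96 * p ^ 5 + 13 * n ^ 4 + 753 / 4 * n ^ 3 * p + 1601 / 2 * n ^ 2 * p ^ 2 +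
  1368 * n * p ^ 3 + 832 * p ^ 4 + 1057 / 8 * n ^ 3 + 4809 / 4 * n ^ 2 * p + 12791 / 4 * n *
  p ^ 2 + 2608 * p ^ 3 + 5025 / 8 * n ^ 2 + 13369 / 4 * n * p + 7985 / 2 * p ^ 2 + 22763 /
  16 * n + 6801 / 2 * p + 9905 / 8

theorem c30e_8_nn {n p : ℝ} (hn : 0 ≤ n) (hp : 0 ≤ p) : 0 ≤ c30e_8 n p := by
  unfold c30e_8; positivity

theorem c30e_nn {n p t : ℝ} (hn : 0 ≤ n) (hp : 0 ≤ p) (h0 : 0 < t) (h1 : t ≤ 1) :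
    0 ≤ (1 - t) * (c30e_0 n p * t ^ 0 + c30e_1 n p * t ^ 1 + c30e_2 n p * t ^ 2 + c30e_3 n p * t ^ 3
      + c30e_4 n p * t ^ 4 + c30e_5 n p * t ^ 5 + c30e_6 n p * t ^ 6 + c30e_7 n p * t ^ 7) +
      c30e_8 n p * t ^ 8 := by
  have e0 := c30e_0_nn hn hp
  have e1 := c30e_1_nn hn hp
  have e2 := c30e_2_nn hn hp
  have e3 := c30e_3_nn hn hp
  have e4 := c30e_4_nn hn hp
  have e5 := c30e_5_nn hn hp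
  have e6 := c30e_6_nn hn hp
  have e7 := c30e_7_nn hn hp
  have e8 := c30e_8_nn hn hp
  have h2 : 0 ≤ 1 - t := by linarith
  exact add_nonneg (mul_nonneg h2 (by positivity)) (by positivity)

noncomputable def c30a_4 (n p : ℝ) : ℝ :=
  n ^ 3 + 6 * n ^ 2 * p + 12 * n * p ^ 2 + 8 * p ^ 3 + 12 * n ^ 2 + 48 * n * p + 48 * p ^ 2 +
  48 * n + 96 * p + 64

theorem c30a_4_nn {n p : ℝ} (hn : 0 ≤ n) (hp : 0 ≤ p) : 0 ≤ c30a_4 n p := by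
  unfold c30a_4; positivity

noncomputable def c30a_5 (n p : ℝ) : ℝ :=
  n ^ 3 + 6 * n ^ 2 * p + 12 * n * p ^ 2 + 8 * p ^ 3 + 12 * n ^ 2 + 48 * n * p + 48 * p ^ 2 +
  48 * n + 76 * p + 64

theorem c30a_5_nn {n p : ℝ} (hn : 0 ≤ n) (hp : 0 ≤ p) : 0 ≤ c30a_5 n p := by
  unfold c30a_5; positivity

theorem c30a_nn {n p t : ℝ} (hn : 0 ≤ n) (hp : 0 ≤ p) (h0 : 0 < t) (h1 : t ≤ 1) :
    0 ≤ (1 - t) * (c30a_4 n p * t ^ 4) + c30a_5 n p * t ^ 5 := by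
  have e4 := c30a_4_nn hn hp
  have e5 := c30a_5_nn hn hp
  have h2 : 0 ≤ 1 - t := by linarith
  exact add_nonneg (mul_nonneg h2 (by positivity)) (by positivity)

noncomputable def c30b_0 (n p : ℝ) : ℝ :=
  6

theorem c30b_0_nn {n p : ℝ} (hn : 0 ≤ n) (hp : 0 ≤ p) : 0 ≤ c30b_0 n p := by
  unfold c30b_0; positivity

noncomputable def c30b_1 (n p : ℝ) : ℝ :=
  6 * n + 12 * p + 30

theorem c30b_1_nn {n p : ℝ} (hn : 0 ≤ n) (hp : 0 ≤ p) : 0 ≤ c30b_1 n p := by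
  unfold c30b_1; positivity

noncomputable def c30b_2 (n p : ℝ) : ℝ :=
  3 * n ^ 2 + 12 * n * p + 12 * p ^ 2 + 30 * n + 60 * p + 70

theorem c30b_2_nn {n p : ℝ} (hn : 0 ≤ n) (hp : 0 ≤ p) : 0 ≤ c30b_2 n p := by
  unfold c30b_2; positivity

noncomputable def c30b_3 (n p : ℝ) : ℝ :=
  n ^ 3 + 6 * n ^ 2 * p + 12 * n * p ^ 2 + 8 * p ^ 3 + 15 * n ^ 2 + 60 * n * p + 60 * p ^ 2 +
  72 * n + 144 * p + 110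

theorem c30b_3_nn {n p : ℝ} (hn : 0 ≤ n) (hp : 0 ≤ p) : 0 ≤ c30b_3 n p := by
  unfold c30b_3; positivity

noncomputable def c30b_4 (n p : ℝ) : ℝ :=
  n ^ 3 + 6 * n ^ 2 * p + 12 * n * p ^ 2 + 8 * p ^ 3 + 12 * n ^ 2 + 48 * n * p + 48 * p ^ 2 +
  48 * n + 96 * p + 64

theorem c30b_4_nn {n p : ℝ} (hn : 0 ≤ n) (hp : 0 ≤ p) : 0 ≤ c30b_4 n p := by
  unfold c30b_4; positivity

noncomputable def c30b_5 (n p : ℝ) : ℝ :=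
  n ^ 3 + 6 * n ^ 2 * p + 12 * n * p ^ 2 + 8 * p ^ 3 + 12 * n ^ 2 + 48 * n * p + 48 * p ^ 2 +
  48 * n + 76 * p + 64

theorem c30b_5_nn {n p : ℝ} (hn : 0 ≤ n) (hp : 0 ≤ p) : 0 ≤ c30b_5 n p := by
  unfold c30b_5; positivity

theorem c30b_nn {n p t : ℝ} (hn : 0 ≤ n) (hp : 0 ≤ p) (h0 : 0 < t) (h1 : t ≤ 1) :
    0 ≤ (1 - t) * (c30b_0 n p * t ^ 0 + c30b_1 n p * t ^ 1 + c30b_2 n p * t ^ 2 + c30b_3 n p * t ^ 3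
      + c30b_4 n p * t ^ 4) + c30b_5 n p * t ^ 5 := by
  have e0 := c30b_0_nn hn hp
  have e1 := c30b_1_nn hn hp
  have e2 := c30b_2_nn hn hp
  have e3 := c30b_3_nn hn hp
  have e4 := c30b_4_nn hn hp
  have e5 := c30b_5_nn hn hp
  have h2 : 0 ≤ 1 - t := by linarith
  exact add_nonneg (mul_nonneg h2 (by positivity)) (by positivity)

noncomputable def c30s (n t : ℝ) : ℝ :=
  1 / 16 * t ^ 4 * n ^ 3 + 5 / 16 * t ^ 4 * n ^ 2 + 1 / 2 * t ^ 3 * n ^ 3 + 5 / 8 * t ^ 4 * n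
  + 47 / 8 * t ^ 3 * n ^ 2 + 183 / 8 * t ^ 3 * n + 11 / 16 * t ^ 2 * n ^ 2 + 457 / 16 * t ^
  3 + 11 / 2 * t ^ 2 * n + 87 / 8 * t ^ 2 + 9 / 16 * t * n + 39 / 16 * t

theorem c30s_nn {n t : ℝ} (hn : 0 ≤ n) (h0 : 0 < t) : 0 ≤ c30s n t := by
  unfold c30s; positivity

end Pool.Agent.KIQ.POLY

namespace Pool.Agent.KIQ

open POLY

theorem PC3_0 {a q A B t : ℝ} (hq : 1 ≤ q) (ha : 2 * q + 2 ≤ a)
    (hA : (3 * q - 2) * a ≤ (a ^ 2 - q ^ 2) * A) (hB : q * (3 * q - 2) ≤ (a ^ 2 - q ^ 2) * B)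
    (h0 : 0 < t) (h1 : t ≤ 1) :
    20 * (q - 1) * t ^ 4 * (1 + (A + B) * t) ≤
      (pp 0 a q (iniC A B) 3 0).eval t := by
  obtain ⟨p, hp, rfl⟩ : ∃ p : ℝ, 0 ≤ p ∧ q = 1 + p := ⟨q - 1, by linarith, by ring⟩
  obtain ⟨n, hn, rfl⟩ : ∃ n : ℝ, 0 ≤ n ∧ a = 2 * (1 + p) + 2 + n :=
    ⟨a - (2 * (1 + p) + 2), by linarith, by ring⟩
  simp only [fc_3_0, eval_PL, evL]
  have hc : 0 < (2 * (1 + p) + 2 + n) ^ 2 - (1 + p) ^ 2 := by nlinarith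
  refine fin_aux hc (sub_nonneg.2 hA) (sub_nonneg.2 hB)
    (add_nonneg (c30e_nn hn hp h0 h1) (mul_nonneg (c30s_nn hn h0)
      (sq_nonneg ((2 * (1 + p) + 2 + n) * t - 3))))
    (c30a_nn hn hp h0 h1) (c30b_nn hn hp h0 h1) ?_
  simp only [c30e_0, c30e_1, c30e_2, c30e_3, c30e_4, c30e_5, c30e_6, c30e_7, c30e_8, c30a_4, c30a_5,
    c30b_0, c30b_1, c30b_2, c30b_3, c30b_4, c30b_5, c30s, fc_3_0_0, fc_3_0_1, fc_3_0_2,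
    fc_3_0_3, fc_3_0_4, fc_3_0_5, fc_3_0_6, fc_3_0_7, fc_3_0_8]
  ring

end Pool.Agent.KIQ

namespace Pool.Agent.KIQ.POLY

noncomputable def c31e_0 (n p : ℝ) : ℝ :=
  54 * p ^ 2 + 72 * p + 18

theorem c31e_0_nn {n p : ℝ} (hn : 0 ≤ n) (hp : 0 ≤ p) : 0 ≤ c31e_0 n p := by
  unfold c31e_0; positivity

noncomputable def c31e_1 (n p : ℝ) : ℝ :=
  54 * n * p ^ 2 + 108 * p ^ 3 + 72 * n * p + 414 * p ^ 2 + 9 / 4 * n + 396 * p + 45 / 4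

theorem c31e_1_nn {n p : ℝ} (hn : 0 ≤ n) (hp : 0 ≤ p) : 0 ≤ c31e_1 n p := by
  unfold c31e_1; positivity

noncomputable def c31e_2 (n p : ℝ) : ℝ :=
  27 * n ^ 2 * p ^ 2 + 108 * n * p ^ 3 + 108 * p ^ 4 + 36 * n ^ 2 * p + 414 * n * p ^ 2 + 693
  * p ^ 3 + 15 / 16 * n ^ 2 + 417 * n * p + 1422 * p ^ 2 + 171 / 16 * n + 1160 * p + 1943 /
  16

theorem c31e_2_nn {n p : ℝ} (hn : 0 ≤ n) (hp : 0 ≤ p) : 0 ≤ c31e_2 n p := by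
  unfold c31e_2; positivity

noncomputable def c31e_3 (n p : ℝ) : ℝ :=
  9 * n ^ 3 * p ^ 2 + 54 * n ^ 2 * p ^ 3 + 108 * n * p ^ 4 + 72 * p ^ 5 + 12 * n ^ 3 * p + 207
  * n ^ 2 * p ^ 2 + 693 * n * p ^ 3 + 654 * p ^ 4 + 11 / 16 * n ^ 3 + 863 / 4 * n ^ 2 * p +
  1433 * n * p ^ 2 + 2157 * p ^ 3 + 95 / 16 * n ^ 2 + 4991 / 4 * n * p + 3113 * p ^ 2 + 435
  / 16 * n + 8847 / 4 * p + 361 / 8

theorem c31e_3_nn {n p : ℝ} (hn : 0 ≤ n) (hp : 0 ≤ p) : 0 ≤ c31e_3 n p := by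
  unfold c31e_3; positivity

noncomputable def c31e_4 (n p : ℝ) : ℝ :=
  9 * n ^ 4 * p + 81 * n ^ 3 * p ^ 2 + 279 * n ^ 2 * p ^ 3 + 432 * n * p ^ 4 + 252 * p ^ 5 + 9
  / 16 * n ^ 4 + 117 * n ^ 3 * p + 3687 / 4 * n ^ 2 * p ^ 2 + 2313 * n * p ^ 3 + 1866 * p ^
  4 + 177 / 16 * n ^ 3 + 595 * n ^ 2 * p + 14395 / 4 * n * p ^ 2 + 4956 * p ^ 3 + 253 / 4 *
  n ^ 2 + 1520 * n * p + 20263 / 4 * p ^ 2 + 2377 / 16 * n + 3587 / 2 * p + 1911 / 16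

theorem c31e_4_nn {n p : ℝ} (hn : 0 ≤ n) (hp : 0 ≤ p) : 0 ≤ c31e_4 n p := by
  unfold c31e_4; positivity

noncomputable def c31e_5 (n p : ℝ) : ℝ :=
  25 / 16 * n ^ 5 + 133 / 4 * n ^ 4 * p + 805 / 4 * n ^ 3 * p ^ 2 + 555 * n ^ 2 * p ^ 3 + 744
  * n * p ^ 4 + 396 * p ^ 5 + 525 / 16 * n ^ 4 + 2045 / 4 * n ^ 3 * p + 9589 / 4 * n ^ 2 * p
  ^ 2 + 4611 * n * p ^ 3 + 3198 * p ^ 4 + 3847 / 16 * n ^ 3 + 2821 * n ^ 2 * p + 37117 / 4 *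
  n * p ^ 2 + 9384 * p ^ 3 + 11903 / 16 * n ^ 2 + 26659 / 4 * n * p + 23609 / 2 * p ^ 2 +
  13923 / 16 * n + 23283 / 4 * p + 2223 / 16

theorem c31e_5_nn {n p : ℝ} (hn : 0 ≤ n) (hp : 0 ≤ p) : 0 ≤ c31e_5 n p := by
  unfold c31e_5; positivity

noncomputable def c31e_6 (n p : ℝ) : ℝ :=
  5 / 4 * n ^ 5 + 35 * n ^ 4 * p + 224 * n ^ 3 * p ^ 2 + 624 * n ^ 2 * p ^ 3 + 828 * n * p ^ 4
  + 432 * p ^ 5 + 707 / 16 * n ^ 4 + 2679 / 4 * n ^ 3 * p + 12187 / 4 * n ^ 2 * p ^ 2 + 5667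
  * n * p ^ 3 + 3798 * p ^ 4 + 7463 / 16 * n ^ 3 + 4517 * n ^ 2 * p + 53213 / 4 * n * p ^ 2
  + 12483 * p ^ 3 + 8401 / 4 * n ^ 2 + 12818 * n * p + 75335 / 4 * p ^ 2 + 66955 / 16 * n +
  52571 / 4 * p + 47807 / 16

theorem c31e_6_nn {n p : ℝ} (hn : 0 ≤ n) (hp : 0 ≤ p) : 0 ≤ c31e_6 n p := by
  unfold c31e_6; positivity

noncomputable def c31e_7 (n p : ℝ) : ℝ :=
  5 / 4 * n ^ 5 + 35 * n ^ 4 * p + 224 * n ^ 3 * p ^ 2 + 624 * n ^ 2 * p ^ 3 + 828 * n * p ^ 4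
  + 432 * p ^ 5 + 707 / 16 * n ^ 4 + 2739 / 4 * n ^ 3 * p + 12547 / 4 * n ^ 2 * p ^ 2 + 5832
  * n * p ^ 3 + 3888 * p ^ 4 + 8135 / 16 * n ^ 3 + 4949 * n ^ 2 * p + 57965 / 4 * n * p ^ 2
  + 13407 * p ^ 3 + 10417 / 4 * n ^ 2 + 15503 * n * p + 88175 / 4 * p ^ 2 + 98731 / 16 * n +
  71483 / 4 * p + 88895 / 16

theorem c31e_7_nn {n p : ℝ} (hn : 0 ≤ n) (hp : 0 ≤ p) : 0 ≤ c31e_7 n p := by
  unfold c31e_7; positivity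

noncomputable def c31e_8 (n p : ℝ) : ℝ :=
  5 / 4 * n ^ 5 + 35 * n ^ 4 * p + 224 * n ^ 3 * p ^ 2 + 624 * n ^ 2 * p ^ 3 + 828 * n * p ^ 4
  + 432 * p ^ 5 + 707 / 16 * n ^ 4 + 2739 / 4 * n ^ 3 * p + 12547 / 4 * n ^ 2 * p ^ 2 + 5832
  * n * p ^ 3 + 3888 * p ^ 4 + 8135 / 16 * n ^ 3 + 4976 * n ^ 2 * p + 58397 / 4 * n * p ^ 2
  + 13488 * p ^ 3 + 10633 / 4 * n ^ 2 + 15935 * n * p + 90335 / 4 * p ^ 2 + 105643 / 16 * n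
  + 76127 / 4 * p + 101855 / 16

theorem c31e_8_nn {n p : ℝ} (hn : 0 ≤ n) (hp : 0 ≤ p) : 0 ≤ c31e_8 n p := by
  unfold c31e_8; positivity

theorem c31e_nn {n p t : ℝ} (hn : 0 ≤ n) (hp : 0 ≤ p) (h0 : 0 < t) (h1 : t ≤ 1) :
    0 ≤ (1 - t) * (c31e_0 n p * t ^ 0 + c31e_1 n p * t ^ 1 + c31e_2 n p * t ^ 2 + c31e_3 n p * t ^ 3
      + c31e_4 n p * t ^ 4 + c31e_5 n p * t ^ 5 + c31e_6 n p * t ^ 6 + c31e_7 n p * t ^ 7) +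
      c31e_8 n p * t ^ 8 := by
  have e0 := c31e_0_nn hn hp
  have e1 := c31e_1_nn hn hp
  have e2 := c31e_2_nn hn hp
  have e3 := c31e_3_nn hn hp
  have e4 := c31e_4_nn hn hp
  have e5 := c31e_5_nn hn hp
  have e6 := c31e_6_nn hn hp
  have e7 := c31e_7_nn hn hp
  have e8 := c31e_8_nn hn hp
  have h2 : 0 ≤ 1 - t := by linarith
  exact add_nonneg (mul_nonneg h2 (by positivity)) (by positivity)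

noncomputable def c31a_4 (n p : ℝ) : ℝ :=
  3 * n ^ 3 + 18 * n ^ 2 * p + 36 * n * p ^ 2 + 24 * p ^ 3 + 36 * n ^ 2 + 141 * n * p + 138 *
  p ^ 2 + 140 * n + 268 * p + 176

theorem c31a_4_nn {n p : ℝ} (hn : 0 ≤ n) (hp : 0 ≤ p) : 0 ≤ c31a_4 n p := by
  unfold c31a_4; positivity

noncomputable def c31a_5 (n p : ℝ) : ℝ :=
  3 * n ^ 3 + 21 * n ^ 2 * p + 48 * n * p ^ 2 + 36 * p ^ 3 + 42 * n ^ 2 + 189 * n * p + 210 *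
  p ^ 2 + 188 * n + 384 * p + 264

theorem c31a_5_nn {n p : ℝ} (hn : 0 ≤ n) (hp : 0 ≤ p) : 0 ≤ c31a_5 n p := by
  unfold c31a_5; positivity

noncomputable def c31a_6 (n p : ℝ) : ℝ :=
  3 * n ^ 3 + 21 * n ^ 2 * p + 48 * n * p ^ 2 + 36 * p ^ 3 + 42 * n ^ 2 + 198 * n * p + 228 *
  p ^ 2 + 200 * n + 444 * p + 312

theorem c31a_6_nn {n p : ℝ} (hn : 0 ≤ n) (hp : 0 ≤ p) : 0 ≤ c31a_6 n p := by
  unfold c31a_6; positivity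

noncomputable def c31a_7 (n p : ℝ) : ℝ :=
  3 * n ^ 3 + 21 * n ^ 2 * p + 48 * n * p ^ 2 + 36 * p ^ 3 + 42 * n ^ 2 + 198 * n * p + 228 *
  p ^ 2 + 200 * n + 456 * p + 324

theorem c31a_7_nn {n p : ℝ} (hn : 0 ≤ n) (hp : 0 ≤ p) : 0 ≤ c31a_7 n p := by
  unfold c31a_7; positivity

theorem c31a_nn {n p t : ℝ} (hn : 0 ≤ n) (hp : 0 ≤ p) (h0 : 0 < t) (h1 : t ≤ 1) :
    0 ≤ (1 - t) * (c31a_4 n p * t ^ 4 + c31a_5 n p * t ^ 5 + c31a_6 n p * t ^ 6) + c31a_7 n p * t ^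
      7 := by
  have e4 := c31a_4_nn hn hp
  have e5 := c31a_5_nn hn hp
  have e6 := c31a_6_nn hn hp
  have e7 := c31a_7_nn hn hp
  have h2 : 0 ≤ 1 - t := by linarith
  exact add_nonneg (mul_nonneg h2 (by positivity)) (by positivity)

noncomputable def c31b_0 (n p : ℝ) : ℝ :=
  18

theorem c31b_0_nn {n p : ℝ} (hn : 0 ≤ n) (hp : 0 ≤ p) : 0 ≤ c31b_0 n p := by
  unfold c31b_0; positivity

noncomputable def c31b_1 (n p : ℝ) : ℝ :=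
  18 * n + 36 * p + 90

theorem c31b_1_nn {n p : ℝ} (hn : 0 ≤ n) (hp : 0 ≤ p) : 0 ≤ c31b_1 n p := by
  unfold c31b_1; positivity

noncomputable def c31b_2 (n p : ℝ) : ℝ :=
  9 * n ^ 2 + 36 * n * p + 36 * p ^ 2 + 90 * n + 183 * p + 218

theorem c31b_2_nn {n p : ℝ} (hn : 0 ≤ n) (hp : 0 ≤ p) : 0 ≤ c31b_2 n p := by
  unfold c31b_2; positivity

noncomputable def c31b_3 (n p : ℝ) : ℝ :=
  3 * n ^ 3 + 18 * n ^ 2 * p + 36 * n * p ^ 2 + 24 * p ^ 3 + 45 * n ^ 2 + 183 * n * p + 186 *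
  p ^ 2 + 224 * n + 463 * p + 370

theorem c31b_3_nn {n p : ℝ} (hn : 0 ≤ n) (hp : 0 ≤ p) : 0 ≤ c31b_3 n p := by
  unfold c31b_3; positivity

noncomputable def c31b_4 (n p : ℝ) : ℝ :=
  3 * n ^ 3 + 21 * n ^ 2 * p + 48 * n * p ^ 2 + 36 * p ^ 3 + 42 * n ^ 2 + 195 * n * p + 222 *
  p ^ 2 + 200 * n + 461 * p + 324

theorem c31b_4_nn {n p : ℝ} (hn : 0 ≤ n) (hp : 0 ≤ p) : 0 ≤ c31b_4 n p := by
  unfold c31b_4; positivity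

noncomputable def c31b_5 (n p : ℝ) : ℝ :=
  3 * n ^ 3 + 21 * n ^ 2 * p + 48 * n * p ^ 2 + 36 * p ^ 3 + 42 * n ^ 2 + 198 * n * p + 228 *
  p ^ 2 + 200 * n + 453 * p + 324

theorem c31b_5_nn {n p : ℝ} (hn : 0 ≤ n) (hp : 0 ≤ p) : 0 ≤ c31b_5 n p := by
  unfold c31b_5; positivity

noncomputable def c31b_6 (n p : ℝ) : ℝ :=
  3 * n ^ 3 + 21 * n ^ 2 * p + 48 * n * p ^ 2 + 36 * p ^ 3 + 42 * n ^ 2 + 198 * n * p + 228 *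
  p ^ 2 + 200 * n + 456 * p + 324

theorem c31b_6_nn {n p : ℝ} (hn : 0 ≤ n) (hp : 0 ≤ p) : 0 ≤ c31b_6 n p := by
  unfold c31b_6; positivity

theorem c31b_nn {n p t : ℝ} (hn : 0 ≤ n) (hp : 0 ≤ p) (h0 : 0 < t) (h1 : t ≤ 1) :
    0 ≤ (1 - t) * (c31b_0 n p * t ^ 0 + c31b_1 n p * t ^ 1 + c31b_2 n p * t ^ 2 + c31b_3 n p * t ^ 3
      + c31b_4 n p * t ^ 4 + c31b_5 n p * t ^ 5) + c31b_6 n p * t ^ 6 := by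
  have e0 := c31b_0_nn hn hp
  have e1 := c31b_1_nn hn hp
  have e2 := c31b_2_nn hn hp
  have e3 := c31b_3_nn hn hp
  have e4 := c31b_4_nn hn hp
  have e5 := c31b_5_nn hn hp
  have e6 := c31b_6_nn hn hp
  have h2 : 0 ≤ 1 - t := by linarith
  exact add_nonneg (mul_nonneg h2 (by positivity)) (by positivity)

noncomputable def c31s (n t : ℝ) : ℝ :=
  5 / 16 * t ^ 4 * n ^ 3 + 9 / 8 * t ^ 4 * n ^ 2 + 23 / 16 * t ^ 3 * n ^ 3 + 145 / 8 * t ^ 3 *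
  n ^ 2 + 43 / 16 * t ^ 4 + 527 / 8 * t ^ 3 * n + 33 / 16 * t ^ 2 * n ^ 2 + 1237 / 16 * t ^
  3 + 281 / 16 * t ^ 2 * n + 405 / 16 * t ^ 2 + 7 / 4 * t * n + 35 / 4 * t

theorem c31s_nn {n t : ℝ} (hn : 0 ≤ n) (h0 : 0 < t) : 0 ≤ c31s n t := by
  unfold c31s; positivity

end Pool.Agent.KIQ.POLY

namespace Pool.Agent.KIQ

open POLY

theorem PC3_1 {a q A B t : ℝ} (hq : 1 ≤ q) (ha : 2 * q + 2 ≤ a)
    (hA : (3 * q - 2) * a ≤ (a ^ 2 - q ^ 2) * A) (hB : q * (3 * q - 2) ≤ (a ^ 2 - q ^ 2) * B)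
    (h0 : 0 < t) (h1 : t ≤ 1) :
    20 * (q - 1) * t ^ 4 * (1 + (A + B) * t) ≤
      (pp 0 a q (iniC A B) 3 1).eval t := by
  obtain ⟨p, hp, rfl⟩ : ∃ p : ℝ, 0 ≤ p ∧ q = 1 + p := ⟨q - 1, by linarith, by ring⟩
  obtain ⟨n, hn, rfl⟩ : ∃ n : ℝ, 0 ≤ n ∧ a = 2 * (1 + p) + 2 + n :=
    ⟨a - (2 * (1 + p) + 2), by linarith, by ring⟩
  simp only [fc_3_1, eval_PL, evL]
  have hc : 0 < (2 * (1 + p) + 2 + n) ^ 2 - (1 + p) ^ 2 := by nlinarith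
  refine fin_aux hc (sub_nonneg.2 hA) (sub_nonneg.2 hB)
    (add_nonneg (c31e_nn hn hp h0 h1) (mul_nonneg (c31s_nn hn h0)
      (sq_nonneg ((2 * (1 + p) + 2 + n) * t - 3))))
    (c31a_nn hn hp h0 h1) (c31b_nn hn hp h0 h1) ?_
  simp only [c31e_0, c31e_1, c31e_2, c31e_3, c31e_4, c31e_5, c31e_6, c31e_7, c31e_8, c31a_4, c31a_5,
    c31a_6, c31a_7, c31b_0, c31b_1, c31b_2, c31b_3, c31b_4, c31b_5, c31b_6, c31s, fc_3_1_0,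
    fc_3_1_1, fc_3_1_2, fc_3_1_3, fc_3_1_4, fc_3_1_5, fc_3_1_6, fc_3_1_7, fc_3_1_8]
  ring

end Pool.Agent.KIQ

namespace Pool.Agent.KIQ.POLY

noncomputable def c32e_0 (n p : ℝ) : ℝ :=
  54 * p ^ 2 + 72 * p + 18

theorem c32e_0_nn {n p : ℝ} (hn : 0 ≤ n) (hp : 0 ≤ p) : 0 ≤ c32e_0 n p := by
  unfold c32e_0; positivity

noncomputable def c32e_1 (n p : ℝ) : ℝ :=
  54 * n * p ^ 2 + 108 * p ^ 3 + 72 * n * p + 414 * p ^ 2 + 9 / 4 * n + 396 * p + 63 / 2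

theorem c32e_1_nn {n p : ℝ} (hn : 0 ≤ n) (hp : 0 ≤ p) : 0 ≤ c32e_1 n p := by
  unfold c32e_1; positivity

noncomputable def c32e_2 (n p : ℝ) : ℝ :=
  27 * n ^ 2 * p ^ 2 + 108 * n * p ^ 3 + 108 * p ^ 4 + 36 * n ^ 2 * p + 414 * n * p ^ 2 + 702
  * p ^ 3 + 15 / 16 * n ^ 2 + 417 * n * p + 1458 * p ^ 2 + 45 / 4 * n + 1168 * p + 1477 / 16

theorem c32e_2_nn {n p : ℝ} (hn : 0 ≤ n) (hp : 0 ≤ p) : 0 ≤ c32e_2 n p := by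
  unfold c32e_2; positivity

noncomputable def c32e_3 (n p : ℝ) : ℝ :=
  9 * n ^ 3 * p ^ 2 + 54 * n ^ 2 * p ^ 3 + 108 * n * p ^ 4 + 72 * p ^ 5 + 12 * n ^ 3 * p + 207
  * n ^ 2 * p ^ 2 + 702 * n * p ^ 3 + 672 * p ^ 4 + 11 / 16 * n ^ 3 + 863 / 4 * n ^ 2 * p +
  1469 * n * p ^ 2 + 2274 * p ^ 3 + 89 / 16 * n ^ 2 + 1273 * n * p + 3372 * p ^ 2 + 449 / 16
  * n + 9665 / 4 * p + 795 / 16

theorem c32e_3_nn {n p : ℝ} (hn : 0 ≤ n) (hp : 0 ≤ p) : 0 ≤ c32e_3 n p := by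
  unfold c32e_3; positivity

noncomputable def c32e_4 (n p : ℝ) : ℝ :=
  9 * n ^ 4 * p + 81 * n ^ 3 * p ^ 2 + 288 * n ^ 2 * p ^ 3 + 468 * n * p ^ 4 + 288 * p ^ 5 + 9
  / 16 * n ^ 4 + 117 * n ^ 3 * p + 3771 / 4 * n ^ 2 * p ^ 2 + 2478 * n * p ^ 3 + 2112 * p ^
  4 + 175 / 16 * n ^ 3 + 2509 / 4 * n ^ 2 * p + 3949 * n * p ^ 2 + 5670 * p ^ 3 + 249 / 4 *
  n ^ 2 + 1860 * n * p + 24749 / 4 * p ^ 2 + 565 / 4 * n + 10667 / 4 * p + 833 / 8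

theorem c32e_4_nn {n p : ℝ} (hn : 0 ≤ n) (hp : 0 ≤ p) : 0 ≤ c32e_4 n p := by
  unfold c32e_4; positivity

noncomputable def c32e_5 (n p : ℝ) : ℝ :=
  25 / 16 * n ^ 5 + 133 / 4 * n ^ 4 * p + 841 / 4 * n ^ 3 * p ^ 2 + 618 * n ^ 2 * p ^ 3 + 897
  * n * p ^ 4 + 522 * p ^ 5 + 507 / 16 * n ^ 4 + 1045 / 2 * n ^ 3 * p + 10405 / 4 * n ^ 2 *
  p ^ 2 + 5391 * n * p ^ 3 + 4086 * p ^ 4 + 1809 / 8 * n ^ 3 + 2946 * n ^ 2 * p + 42499 / 4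
  * n * p ^ 2 + 11880 * p ^ 3 + 678 * n ^ 2 + 29001 / 4 * n * p + 58931 / 4 * p ^ 2 + 5881 /
  8 * n + 13859 / 2 * p + 253 / 8

theorem c32e_5_nn {n p : ℝ} (hn : 0 ≤ n) (hp : 0 ≤ p) : 0 ≤ c32e_5 n p := by
  unfold c32e_5; positivity

noncomputable def c32e_6 (n p : ℝ) : ℝ :=
  25 / 16 * n ^ 5 + 157 / 4 * n ^ 4 * p + 1033 / 4 * n ^ 3 * p ^ 2 + 765 * n ^ 2 * p ^ 3 +
  1101 * n * p ^ 4 + 630 * p ^ 5 + 835 / 16 * n ^ 4 + 1569 / 2 * n ^ 3 * p + 14861 / 4 * n ^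
  2 * p ^ 2 + 7383 * n * p ^ 3 + 5406 * p ^ 4 + 8785 / 16 * n ^ 3 + 21955 / 4 * n ^ 2 * p +
  34385 / 2 * n * p ^ 2 + 17610 * p ^ 3 + 39879 / 16 * n ^ 2 + 16181 * n * p + 52329 / 2 * p
  ^ 2 + 39981 / 8 * n + 34949 / 2 * p + 28565 / 8

theorem c32e_6_nn {n p : ℝ} (hn : 0 ≤ n) (hp : 0 ≤ p) : 0 ≤ c32e_6 n p := by
  unfold c32e_6; positivity

noncomputable def c32e_7 (n p : ℝ) : ℝ :=
  25 / 16 * n ^ 5 + 157 / 4 * n ^ 4 * p + 1045 / 4 * n ^ 3 * p ^ 2 + 783 * n ^ 2 * p ^ 3 +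
  1134 * n * p ^ 4 + 648 * p ^ 5 + 835 / 16 * n ^ 4 + 1641 / 2 * n ^ 3 * p + 15869 / 4 * n ^
  2 * p ^ 2 + 7944 * n * p ^ 3 + 5796 * p ^ 4 + 9889 / 16 * n ^ 3 + 25339 / 4 * n ^ 2 * p +
  39731 / 2 * n * p ^ 2 + 20064 * p ^ 3 + 53127 / 16 * n ^ 2 + 21164 * n * p + 65805 / 2 * p
  ^ 2 + 66141 / 8 * n + 52181 / 2 * p + 62549 / 8

theorem c32e_7_nn {n p : ℝ} (hn : 0 ≤ n) (hp : 0 ≤ p) : 0 ≤ c32e_7 n p := by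
  unfold c32e_7; positivity

noncomputable def c32e_8 (n p : ℝ) : ℝ :=
  25 / 16 * n ^ 5 + 157 / 4 * n ^ 4 * p + 1045 / 4 * n ^ 3 * p ^ 2 + 783 * n ^ 2 * p ^ 3 +
  1134 * n * p ^ 4 + 648 * p ^ 5 + 835 / 16 * n ^ 4 + 1641 / 2 * n ^ 3 * p + 15917 / 4 * n ^
  2 * p ^ 2 + 7992 * n * p ^ 3 + 5832 * p ^ 4 + 9889 / 16 * n ^ 3 + 25627 / 4 * n ^ 2 * p +
  40499 / 2 * n * p ^ 2 + 20448 * p ^ 3 + 54663 / 16 * n ^ 2 + 22124 * n * p + 68757 / 2 * p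
  ^ 2 + 72285 / 8 * n + 57029 / 2 * p + 74069 / 8

theorem c32e_8_nn {n p : ℝ} (hn : 0 ≤ n) (hp : 0 ≤ p) : 0 ≤ c32e_8 n p := by
  unfold c32e_8; positivity

theorem c32e_nn {n p t : ℝ} (hn : 0 ≤ n) (hp : 0 ≤ p) (h0 : 0 < t) (h1 : t ≤ 1) :
    0 ≤ (1 - t) * (c32e_0 n p * t ^ 0 + c32e_1 n p * t ^ 1 + c32e_2 n p * t ^ 2 + c32e_3 n p * t ^ 3
      + c32e_4 n p * t ^ 4 + c32e_5 n p * t ^ 5 + c32e_6 n p * t ^ 6 + c32e_7 n p * t ^ 7) +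
      c32e_8 n p * t ^ 8 := by
  have e0 := c32e_0_nn hn hp
  have e1 := c32e_1_nn hn hp
  have e2 := c32e_2_nn hn hp
  have e3 := c32e_3_nn hn hp
  have e4 := c32e_4_nn hn hp
  have e5 := c32e_5_nn hn hp
  have e6 := c32e_6_nn hn hp
  have e7 := c32e_7_nn hn hp
  have e8 := c32e_8_nn hn hp
  have h2 : 0 ≤ 1 - t := by linarith
  exact add_nonneg (mul_nonneg h2 (by positivity)) (by positivity)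

noncomputable def c32a_4 (n p : ℝ) : ℝ :=
  3 * n ^ 3 + 18 * n ^ 2 * p + 36 * n * p ^ 2 + 24 * p ^ 3 + 36 * n ^ 2 + 138 * n * p + 132 *
  p ^ 2 + 136 * n + 248 * p + 160

theorem c32a_4_nn {n p : ℝ} (hn : 0 ≤ n) (hp : 0 ≤ p) : 0 ≤ c32a_4 n p := by
  unfold c32a_4; positivity

noncomputable def c32a_5 (n p : ℝ) : ℝ :=
  3 * n ^ 3 + 24 * n ^ 2 * p + 60 * n * p ^ 2 + 48 * p ^ 3 + 48 * n ^ 2 + 234 * n * p + 273 *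
  p ^ 2 + 232 * n + 516 * p + 335

theorem c32a_5_nn {n p : ℝ} (hn : 0 ≤ n) (hp : 0 ≤ p) : 0 ≤ c32a_5 n p := by
  unfold c32a_5; positivity

noncomputable def c32a_6 (n p : ℝ) : ℝ :=
  3 * n ^ 3 + 24 * n ^ 2 * p + 63 * n * p ^ 2 + 54 * p ^ 3 + 48 * n ^ 2 + 258 * n * p + 333 *
  p ^ 2 + 259 * n + 666 * p + 443

theorem c32a_6_nn {n p : ℝ} (hn : 0 ≤ n) (hp : 0 ≤ p) : 0 ≤ c32a_6 n p := by
  unfold c32a_6; positivity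

noncomputable def c32a_7 (n p : ℝ) : ℝ :=
  3 * n ^ 3 + 24 * n ^ 2 * p + 63 * n * p ^ 2 + 54 * p ^ 3 + 48 * n ^ 2 + 258 * n * p + 342 *
  p ^ 2 + 259 * n + 702 * p + 470

theorem c32a_7_nn {n p : ℝ} (hn : 0 ≤ n) (hp : 0 ≤ p) : 0 ≤ c32a_7 n p := by
  unfold c32a_7; positivity

theorem c32a_nn {n p t : ℝ} (hn : 0 ≤ n) (hp : 0 ≤ p) (h0 : 0 < t) (h1 : t ≤ 1) :
    0 ≤ (1 - t) * (c32a_4 n p * t ^ 4 + c32a_5 n p * t ^ 5 + c32a_6 n p * t ^ 6) + c32a_7 n p * t ^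
      7 := by
  have e4 := c32a_4_nn hn hp
  have e5 := c32a_5_nn hn hp
  have e6 := c32a_6_nn hn hp
  have e7 := c32a_7_nn hn hp
  have h2 : 0 ≤ 1 - t := by linarith
  exact add_nonneg (mul_nonneg h2 (by positivity)) (by positivity)

noncomputable def c32b_0 (n p : ℝ) : ℝ :=
  18

theorem c32b_0_nn {n p : ℝ} (hn : 0 ≤ n) (hp : 0 ≤ p) : 0 ≤ c32b_0 n p := by
  unfold c32b_0; positivity

noncomputable def c32b_1 (n p : ℝ) : ℝ :=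
  18 * n + 36 * p + 90

theorem c32b_1_nn {n p : ℝ} (hn : 0 ≤ n) (hp : 0 ≤ p) : 0 ≤ c32b_1 n p := by
  unfold c32b_1; positivity

noncomputable def c32b_2 (n p : ℝ) : ℝ :=
  9 * n ^ 2 + 36 * n * p + 36 * p ^ 2 + 90 * n + 186 * p + 226

theorem c32b_2_nn {n p : ℝ} (hn : 0 ≤ n) (hp : 0 ≤ p) : 0 ≤ c32b_2 n p := by
  unfold c32b_2; positivity

noncomputable def c32b_3 (n p : ℝ) : ℝ :=
  3 * n ^ 3 + 18 * n ^ 2 * p + 36 * n * p ^ 2 + 24 * p ^ 3 + 45 * n ^ 2 + 186 * n * p + 192 *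
  p ^ 2 + 232 * n + 494 * p + 410

theorem c32b_3_nn {n p : ℝ} (hn : 0 ≤ n) (hp : 0 ≤ p) : 0 ≤ c32b_3 n p := by
  unfold c32b_3; positivity

noncomputable def c32b_4 (n p : ℝ) : ℝ :=
  3 * n ^ 3 + 24 * n ^ 2 * p + 60 * n * p ^ 2 + 48 * p ^ 3 + 48 * n ^ 2 + 246 * n * p + 300 *
  p ^ 2 + 256 * n + 636 * p + 458

theorem c32b_4_nn {n p : ℝ} (hn : 0 ≤ n) (hp : 0 ≤ p) : 0 ≤ c32b_4 n p := by
  unfold c32b_4; positivity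

noncomputable def c32b_5 (n p : ℝ) : ℝ :=
  3 * n ^ 3 + 24 * n ^ 2 * p + 63 * n * p ^ 2 + 54 * p ^ 3 + 48 * n ^ 2 + 258 * n * p + 336 *
  p ^ 2 + 259 * n + 690 * p + 470

theorem c32b_5_nn {n p : ℝ} (hn : 0 ≤ n) (hp : 0 ≤ p) : 0 ≤ c32b_5 n p := by
  unfold c32b_5; positivity

noncomputable def c32b_6 (n p : ℝ) : ℝ :=
  3 * n ^ 3 + 24 * n ^ 2 * p + 63 * n * p ^ 2 + 54 * p ^ 3 + 48 * n ^ 2 + 258 * n * p + 342 *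
  p ^ 2 + 259 * n + 702 * p + 470

theorem c32b_6_nn {n p : ℝ} (hn : 0 ≤ n) (hp : 0 ≤ p) : 0 ≤ c32b_6 n p := by
  unfold c32b_6; positivity

theorem c32b_nn {n p t : ℝ} (hn : 0 ≤ n) (hp : 0 ≤ p) (h0 : 0 < t) (h1 : t ≤ 1) :
    0 ≤ (1 - t) * (c32b_0 n p * t ^ 0 + c32b_1 n p * t ^ 1 + c32b_2 n p * t ^ 2 + c32b_3 n p * t ^ 3
      + c32b_4 n p * t ^ 4 + c32b_5 n p * t ^ 5) + c32b_6 n p * t ^ 6 := by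
  have e0 := c32b_0_nn hn hp
  have e1 := c32b_1_nn hn hp
  have e2 := c32b_2_nn hn hp
  have e3 := c32b_3_nn hn hp
  have e4 := c32b_4_nn hn hp
  have e5 := c32b_5_nn hn hp
  have e6 := c32b_6_nn hn hp
  have h2 : 0 ≤ 1 - t := by linarith
  exact add_nonneg (mul_nonneg h2 (by positivity)) (by positivity)

noncomputable def c32s (n t : ℝ) : ℝ :=
  1 / 2 * t ^ 4 * n ^ 2 + 23 / 16 * t ^ 3 * n ^ 3 + 145 / 16 * t ^ 4 * n + 139 / 8 * t ^ 3 * n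
  ^ 2 + 433 / 16 * t ^ 4 + 1037 / 16 * t ^ 3 * n + 33 / 16 * t ^ 2 * n ^ 2 + 657 / 8 * t ^ 3
  + 16 * t ^ 2 * n + 411 / 16 * t ^ 2 + 7 / 4 * t * n + 13 / 2 * t

theorem c32s_nn {n t : ℝ} (hn : 0 ≤ n) (h0 : 0 < t) : 0 ≤ c32s n t := by
  unfold c32s; positivity

end Pool.Agent.KIQ.POLY

namespace Pool.Agent.KIQ

open POLY

theorem PC3_2 {a q A B t : ℝ} (hq : 1 ≤ q) (ha : 2 * q + 2 ≤ a)
    (hA : (3 * q - 2) * a ≤ (a ^ 2 - q ^ 2) * A) (hB : q * (3 * q - 2) ≤ (a ^ 2 - q ^ 2) * B)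
    (h0 : 0 < t) (h1 : t ≤ 1) :
    0 ≤
      (pp 0 a q (iniC A B) 3 2).eval t := by
  obtain ⟨p, hp, rfl⟩ : ∃ p : ℝ, 0 ≤ p ∧ q = 1 + p := ⟨q - 1, by linarith, by ring⟩
  obtain ⟨n, hn, rfl⟩ : ∃ n : ℝ, 0 ≤ n ∧ a = 2 * (1 + p) + 2 + n :=
    ⟨a - (2 * (1 + p) + 2), by linarith, by ring⟩
  simp only [fc_3_2, eval_PL, evL]
  have hc : 0 < (2 * (1 + p) + 2 + n) ^ 2 - (1 + p) ^ 2 := by nlinarith
  refine fin_aux hc (sub_nonneg.2 hA) (sub_nonneg.2 hB)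
    (add_nonneg (c32e_nn hn hp h0 h1) (mul_nonneg (c32s_nn hn h0)
      (sq_nonneg ((2 * (1 + p) + 2 + n) * t - 3))))
    (c32a_nn hn hp h0 h1) (c32b_nn hn hp h0 h1) ?_
  simp only [c32e_0, c32e_1, c32e_2, c32e_3, c32e_4, c32e_5, c32e_6, c32e_7, c32e_8, c32a_4, c32a_5,
    c32a_6, c32a_7, c32b_0, c32b_1, c32b_2, c32b_3, c32b_4, c32b_5, c32b_6, c32s, fc_3_2_0,
    fc_3_2_1, fc_3_2_2, fc_3_2_3, fc_3_2_4, fc_3_2_5, fc_3_2_6, fc_3_2_7, fc_3_2_8]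
  ring

end Pool.Agent.KIQ

namespace Pool.Agent.KIQ.POLY

noncomputable def c33e_0 (n p : ℝ) : ℝ :=
  18 * p ^ 2 + 24 * p + 6

theorem c33e_0_nn {n p : ℝ} (hn : 0 ≤ n) (hp : 0 ≤ p) : 0 ≤ c33e_0 n p := by
  unfold c33e_0; positivity

noncomputable def c33e_1 (n p : ℝ) : ℝ :=
  18 * n * p ^ 2 + 36 * p ^ 3 + 24 * n * p + 138 * p ^ 2 + 15 / 16 * n + 132 * p + 165 / 16

theorem c33e_1_nn {n p : ℝ} (hn : 0 ≤ n) (hp : 0 ≤ p) : 0 ≤ c33e_1 n p := by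
  unfold c33e_1; positivity

noncomputable def c33e_2 (n p : ℝ) : ℝ :=
  9 * n ^ 2 * p ^ 2 + 36 * n * p ^ 3 + 36 * p ^ 4 + 12 * n ^ 2 * p + 138 * n * p ^ 2 + 237 * p
  ^ 3 + 3 / 16 * n ^ 2 + 555 / 4 * n * p + 498 * p ^ 2 + 15 / 4 * n + 1605 / 4 * p + 81 / 8

theorem c33e_2_nn {n p : ℝ} (hn : 0 ≤ n) (hp : 0 ≤ p) : 0 ≤ c33e_2 n p := by
  unfold c33e_2; positivity

noncomputable def c33e_3 (n p : ℝ) : ℝ :=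
  3 * n ^ 3 * p ^ 2 + 18 * n ^ 2 * p ^ 3 + 36 * n * p ^ 4 + 24 * p ^ 5 + 4 * n ^ 3 * p + 69 *
  n ^ 2 * p ^ 2 + 237 * n * p ^ 3 + 230 * p ^ 4 + 1 / 16 * n ^ 3 + 72 * n ^ 2 * p + 2007 / 4
  * n * p ^ 2 + 797 * p ^ 3 + 25 / 16 * n ^ 2 + 1743 / 4 * n * p + 4829 / 4 * p ^ 2 + 463 /
  16 * n + 1801 / 2 * p + 289 / 16

theorem c33e_3_nn {n p : ℝ} (hn : 0 ≤ n) (hp : 0 ≤ p) : 0 ≤ c33e_3 n p := by
  unfold c33e_3; positivity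

noncomputable def c33e_4 (n p : ℝ) : ℝ :=
  3 * n ^ 4 * p + 27 * n ^ 3 * p ^ 2 + 99 * n ^ 2 * p ^ 3 + 168 * n * p ^ 4 + 108 * p ^ 5 + 5
  / 16 * n ^ 4 + 157 / 4 * n ^ 3 * p + 1285 / 4 * n ^ 2 * p ^ 2 + 881 * n * p ^ 3 + 786 * p
  ^ 4 + 33 / 8 * n ^ 3 + 429 / 2 * n ^ 2 * p + 2809 / 2 * n * p ^ 2 + 2110 * p ^ 3 + 21 * n
  ^ 2 + 2669 / 4 * n * p + 4669 / 2 * p ^ 2 + 721 / 16 * n + 4477 / 4 * p + 235 / 8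

theorem c33e_4_nn {n p : ℝ} (hn : 0 ≤ n) (hp : 0 ≤ p) : 0 ≤ c33e_4 n p := by
  unfold c33e_4; positivity

noncomputable def c33e_5 (n p : ℝ) : ℝ :=
  1 / 2 * n ^ 5 + 11 * n ^ 4 * p + 73 * n ^ 3 * p ^ 2 + 227 * n ^ 2 * p ^ 3 + 353 * n * p ^ 4
  + 222 * p ^ 5 + 21 / 2 * n ^ 4 + 178 * n ^ 3 * p + 934 * n ^ 2 * p ^ 2 + 2064 * n * p ^ 3
  + 1684 * p ^ 4 + 1139 / 16 * n ^ 3 + 4055 / 4 * n ^ 2 * p + 15791 / 4 * n * p ^ 2 + 4756 *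
  p ^ 3 + 3343 / 16 * n ^ 2 + 2550 * n * p + 22737 / 4 * p ^ 2 + 4123 / 16 * n + 5229 / 2 *
  p + 463 / 16

theorem c33e_5_nn {n p : ℝ} (hn : 0 ≤ n) (hp : 0 ≤ p) : 0 ≤ c33e_5 n p := by
  unfold c33e_5; positivity

noncomputable def c33e_6 (n p : ℝ) : ℝ :=
  1 / 2 * n ^ 5 + 14 * n ^ 4 * p + 97 * n ^ 3 * p ^ 2 + 305 * n ^ 2 * p ^ 3 + 473 * n * p ^ 4
  + 297 * p ^ 5 + 39 / 2 * n ^ 4 + 298 * n ^ 3 * p + 1465 * n ^ 2 * p ^ 2 + 3084 * n * p ^ 3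
  + 2444 * p ^ 4 + 3311 / 16 * n ^ 3 + 8543 / 4 * n ^ 2 * p + 28091 / 4 * n * p ^ 2 + 7697 *
  p ^ 3 + 3765 / 4 * n ^ 2 + 25613 / 4 * n * p + 22115 / 2 * p ^ 2 + 30893 / 16 * n + 28723
  / 4 * p + 22983 / 16

theorem c33e_6_nn {n p : ℝ} (hn : 0 ≤ n) (hp : 0 ≤ p) : 0 ≤ c33e_6 n p := by
  unfold c33e_6; positivity

noncomputable def c33e_7 (n p : ℝ) : ℝ :=
  1 / 2 * n ^ 5 + 14 * n ^ 4 * p + 100 * n ^ 3 * p ^ 2 + 323 * n ^ 2 * p ^ 3 + 509 * n * p ^ 4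
  + 321 * p ^ 5 + 39 / 2 * n ^ 4 + 319 * n ^ 3 * p + 1627 * n ^ 2 * p ^ 2 + 3481 * n * p ^ 3
  + 2758 * p ^ 4 + 3839 / 16 * n ^ 3 + 10343 / 4 * n ^ 2 * p + 34283 / 4 * n * p ^ 2 + 9261
  * p ^ 3 + 21325 / 16 * n ^ 2 + 17917 / 2 * n * p + 59175 / 4 * p ^ 2 + 55381 / 16 * n +
  46039 / 4 * p + 54487 / 16

theorem c33e_7_nn {n p : ℝ} (hn : 0 ≤ n) (hp : 0 ≤ p) : 0 ≤ c33e_7 n p := by
  unfold c33e_7; positivity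

noncomputable def c33e_8 (n p : ℝ) : ℝ :=
  1 / 2 * n ^ 5 + 14 * n ^ 4 * p + 100 * n ^ 3 * p ^ 2 + 324 * n ^ 2 * p ^ 3 + 513 * n * p ^ 4
  + 324 * p ^ 5 + 39 / 2 * n ^ 4 + 319 * n ^ 3 * p + 1639 * n ^ 2 * p ^ 2 + 3537 * n * p ^ 3
  + 2808 * p ^ 4 + 3839 / 16 * n ^ 3 + 10519 / 4 * n ^ 2 * p + 35371 / 4 * n * p ^ 2 + 9576
  * p ^ 3 + 22093 / 16 * n ^ 2 + 19005 / 2 * n * p + 62935 / 4 * p ^ 2 + 61525 / 16 * n +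
  51367 / 4 * p + 66007 / 16

theorem c33e_8_nn {n p : ℝ} (hn : 0 ≤ n) (hp : 0 ≤ p) : 0 ≤ c33e_8 n p := by
  unfold c33e_8; positivity

theorem c33e_nn {n p t : ℝ} (hn : 0 ≤ n) (hp : 0 ≤ p) (h0 : 0 < t) (h1 : t ≤ 1) :
    0 ≤ (1 - t) * (c33e_0 n p * t ^ 0 + c33e_1 n p * t ^ 1 + c33e_2 n p * t ^ 2 + c33e_3 n p * t ^ 3
      + c33e_4 n p * t ^ 4 + c33e_5 n p * t ^ 5 + c33e_6 n p * t ^ 6 + c33e_7 n p * t ^ 7) +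
      c33e_8 n p * t ^ 8 := by
  have e0 := c33e_0_nn hn hp
  have e1 := c33e_1_nn hn hp
  have e2 := c33e_2_nn hn hp
  have e3 := c33e_3_nn hn hp
  have e4 := c33e_4_nn hn hp
  have e5 := c33e_5_nn hn hp
  have e6 := c33e_6_nn hn hp
  have e7 := c33e_7_nn hn hp
  have e8 := c33e_8_nn hn hp
  have h2 : 0 ≤ 1 - t := by linarith
  exact add_nonneg (mul_nonneg h2 (by positivity)) (by positivity)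

noncomputable def c33a_4 (n p : ℝ) : ℝ :=
  n ^ 3 + 6 * n ^ 2 * p + 12 * n * p ^ 2 + 8 * p ^ 3 + 12 * n ^ 2 + 45 * n * p + 42 * p ^ 2 +
  44 * n + 76 * p + 48

theorem c33a_4_nn {n p : ℝ} (hn : 0 ≤ n) (hp : 0 ≤ p) : 0 ≤ c33a_4 n p := by
  unfold c33a_4; positivity

noncomputable def c33a_5 (n p : ℝ) : ℝ :=
  n ^ 3 + 9 * n ^ 2 * p + 24 * n * p ^ 2 + 20 * p ^ 3 + 18 * n ^ 2 + 93 * n * p + 111 * p ^ 2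
  + 92 * n + 208 * p + 135

theorem c33a_5_nn {n p : ℝ} (hn : 0 ≤ n) (hp : 0 ≤ p) : 0 ≤ c33a_5 n p := by
  unfold c33a_5; positivity

noncomputable def c33a_6 (n p : ℝ) : ℝ :=
  n ^ 3 + 9 * n ^ 2 * p + 27 * n * p ^ 2 + 26 * p ^ 3 + 18 * n ^ 2 + 108 * n * p + 153 * p ^ 2
  + 107 * n + 298 * p + 195

theorem c33a_6_nn {n p : ℝ} (hn : 0 ≤ n) (hp : 0 ≤ p) : 0 ≤ c33a_6 n p := by
  unfold c33a_6; positivity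

noncomputable def c33a_7 (n p : ℝ) : ℝ :=
  n ^ 3 + 9 * n ^ 2 * p + 27 * n * p ^ 2 + 27 * p ^ 3 + 18 * n ^ 2 + 108 * n * p + 162 * p ^ 2
  + 107 * n + 321 * p + 210

theorem c33a_7_nn {n p : ℝ} (hn : 0 ≤ n) (hp : 0 ≤ p) : 0 ≤ c33a_7 n p := by
  unfold c33a_7; positivity

theorem c33a_nn {n p t : ℝ} (hn : 0 ≤ n) (hp : 0 ≤ p) (h0 : 0 < t) (h1 : t ≤ 1) :
    0 ≤ (1 - t) * (c33a_4 n p * t ^ 4 + c33a_5 n p * t ^ 5 + c33a_6 n p * t ^ 6) + c33a_7 n p * t ^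
      7 := by
  have e4 := c33a_4_nn hn hp
  have e5 := c33a_5_nn hn hp
  have e6 := c33a_6_nn hn hp
  have e7 := c33a_7_nn hn hp
  have h2 : 0 ≤ 1 - t := by linarith
  exact add_nonneg (mul_nonneg h2 (by positivity)) (by positivity)

noncomputable def c33b_0 (n p : ℝ) : ℝ :=
  6

theorem c33b_0_nn {n p : ℝ} (hn : 0 ≤ n) (hp : 0 ≤ p) : 0 ≤ c33b_0 n p := by
  unfold c33b_0; positivity

noncomputable def c33b_1 (n p : ℝ) : ℝ :=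
  6 * n + 12 * p + 30

theorem c33b_1_nn {n p : ℝ} (hn : 0 ≤ n) (hp : 0 ≤ p) : 0 ≤ c33b_1 n p := by
  unfold c33b_1; positivity

noncomputable def c33b_2 (n p : ℝ) : ℝ :=
  3 * n ^ 2 + 12 * n * p + 12 * p ^ 2 + 30 * n + 63 * p + 78

theorem c33b_2_nn {n p : ℝ} (hn : 0 ≤ n) (hp : 0 ≤ p) : 0 ≤ c33b_2 n p := by
  unfold c33b_2; positivity

noncomputable def c33b_3 (n p : ℝ) : ℝ :=
  n ^ 3 + 6 * n ^ 2 * p + 12 * n * p ^ 2 + 8 * p ^ 3 + 15 * n ^ 2 + 63 * n * p + 66 * p ^ 2 +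
  80 * n + 175 * p + 150

theorem c33b_3_nn {n p : ℝ} (hn : 0 ≤ n) (hp : 0 ≤ p) : 0 ≤ c33b_3 n p := by
  unfold c33b_3; positivity

noncomputable def c33b_4 (n p : ℝ) : ℝ :=
  n ^ 3 + 9 * n ^ 2 * p + 24 * n * p ^ 2 + 20 * p ^ 3 + 18 * n ^ 2 + 99 * n * p + 126 * p ^ 2
  + 104 * n + 271 * p + 198

theorem c33b_4_nn {n p : ℝ} (hn : 0 ≤ n) (hp : 0 ≤ p) : 0 ≤ c33b_4 n p := by
  unfold c33b_4; positivity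

noncomputable def c33b_5 (n p : ℝ) : ℝ :=
  n ^ 3 + 9 * n ^ 2 * p + 27 * n * p ^ 2 + 26 * p ^ 3 + 18 * n ^ 2 + 108 * n * p + 156 * p ^ 2
  + 107 * n + 313 * p + 210

theorem c33b_5_nn {n p : ℝ} (hn : 0 ≤ n) (hp : 0 ≤ p) : 0 ≤ c33b_5 n p := by
  unfold c33b_5; positivity

noncomputable def c33b_6 (n p : ℝ) : ℝ :=
  n ^ 3 + 9 * n ^ 2 * p + 27 * n * p ^ 2 + 27 * p ^ 3 + 18 * n ^ 2 + 108 * n * p + 162 * p ^ 2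
  + 107 * n + 321 * p + 210

theorem c33b_6_nn {n p : ℝ} (hn : 0 ≤ n) (hp : 0 ≤ p) : 0 ≤ c33b_6 n p := by
  unfold c33b_6; positivity

theorem c33b_nn {n p t : ℝ} (hn : 0 ≤ n) (hp : 0 ≤ p) (h0 : 0 < t) (h1 : t ≤ 1) :
    0 ≤ (1 - t) * (c33b_0 n p * t ^ 0 + c33b_1 n p * t ^ 1 + c33b_2 n p * t ^ 2 + c33b_3 n p * t ^ 3
      + c33b_4 n p * t ^ 4 + c33b_5 n p * t ^ 5) + c33b_6 n p * t ^ 6 := by
  have e0 := c33b_0_nn hn hp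
  have e1 := c33b_1_nn hn hp
  have e2 := c33b_2_nn hn hp
  have e3 := c33b_3_nn hn hp
  have e4 := c33b_4_nn hn hp
  have e5 := c33b_5_nn hn hp
  have e6 := c33b_6_nn hn hp
  have h2 : 0 ≤ 1 - t := by linarith
  exact add_nonneg (mul_nonneg h2 (by positivity)) (by positivity)

noncomputable def c33s (n t : ℝ) : ℝ :=
  1 / 2 * t ^ 3 * n ^ 3 + 71 / 16 * t ^ 5 + 33 / 4 * t ^ 4 * n + 93 / 16 * t ^ 3 * n ^ 2 + 379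
  / 16 * t ^ 4 + 343 / 16 * t ^ 3 * n + 11 / 16 * t ^ 2 * n ^ 2 + 529 / 16 * t ^ 3 + 85 / 16
  * t ^ 2 * n + 179 / 16 * t ^ 2 + 9 / 16 * t * n + 35 / 16 * t

theorem c33s_nn {n t : ℝ} (hn : 0 ≤ n) (h0 : 0 < t) : 0 ≤ c33s n t := by
  unfold c33s; positivity

end Pool.Agent.KIQ.POLY

namespace Pool.Agent.KIQ

open POLY

theorem PC3_3 {a q A B t : ℝ} (hq : 1 ≤ q) (ha : 2 * q + 2 ≤ a)
    (hA : (3 * q - 2) * a ≤ (a ^ 2 - q ^ 2) * A) (hB : q * (3 * q - 2) ≤ (a ^ 2 - q ^ 2) * B)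
    (h0 : 0 < t) (h1 : t ≤ 1) :
    0 ≤
      (pp 0 a q (iniC A B) 3 3).eval t := by
  obtain ⟨p, hp, rfl⟩ : ∃ p : ℝ, 0 ≤ p ∧ q = 1 + p := ⟨q - 1, by linarith, by ring⟩
  obtain ⟨n, hn, rfl⟩ : ∃ n : ℝ, 0 ≤ n ∧ a = 2 * (1 + p) + 2 + n :=
    ⟨a - (2 * (1 + p) + 2), by linarith, by ring⟩
  simp only [fc_3_3, eval_PL, evL]
  have hc : 0 < (2 * (1 + p) + 2 + n) ^ 2 - (1 + p) ^ 2 := by nlinarith
  refine fin_aux hc (sub_nonneg.2 hA) (sub_nonneg.2 hB)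
    (add_nonneg (c33e_nn hn hp h0 h1) (mul_nonneg (c33s_nn hn h0)
      (sq_nonneg ((2 * (1 + p) + 2 + n) * t - 3))))
    (c33a_nn hn hp h0 h1) (c33b_nn hn hp h0 h1) ?_
  simp only [c33e_0, c33e_1, c33e_2, c33e_3, c33e_4, c33e_5, c33e_6, c33e_7, c33e_8, c33a_4, c33a_5,
    c33a_6, c33a_7, c33b_0, c33b_1, c33b_2, c33b_3, c33b_4, c33b_5, c33b_6, c33s, fc_3_3_0,
    fc_3_3_1, fc_3_3_2, fc_3_3_3, fc_3_3_4, fc_3_3_5, fc_3_3_6, fc_3_3_7, fc_3_3_8]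
  ring

end Pool.Agent.KIQ
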