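import Pool.Agent.KIQ.POLYFG

/-!
# PG3: positivity of the polynomials
-/

set_option autoImplicit false
set_option maxRecDepth 10000
set_option linter.unusedSimpArgs false
set_option linter.unusedVariables false

open PowerSeries Finset

namespace Pool.Agent.KIQ.POLY

noncomputable def g30_0 (n p : ℝ) : ℝ :=
  6 * p

theorem g30_0_nn {n p : ℝ} (hn : 0 ≤ n) (hp : 0 ≤ p) : 0 ≤ g30_0 n p := by
  unfold g30_0; positivity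

noncomputable def g30_1 (n p : ℝ) : ℝ :=
  6 * n * p + 12 * p ^ 2 + 24 * p

theorem g30_1_nn {n p : ℝ} (hn : 0 ≤ n) (hp : 0 ≤ p) : 0 ≤ g30_1 n p := by
  unfold g30_1; positivity

noncomputable def g30_2 (n p : ℝ) : ℝ :=
  3 * n ^ 2 * p + 12 * n * p ^ 2 + 12 * p ^ 3 + 24 * n * p + 48 * p ^ 2 + 46 * p

theorem g30_2_nn {n p : ℝ} (hn : 0 ≤ n) (hp : 0 ≤ p) : 0 ≤ g30_2 n p := by
  unfold g30_2; positivity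

noncomputable def g30_3 (n p : ℝ) : ℝ :=
  n ^ 3 * p + 6 * n ^ 2 * p ^ 2 + 12 * n * p ^ 3 + 8 * p ^ 4 + 12 * n ^ 2 * p + 48 * n * p ^ 2
  + 48 * p ^ 3 + 48 * n * p + 76 * p ^ 2 + 44 * p

theorem g30_3_nn {n p : ℝ} (hn : 0 ≤ n) (hp : 0 ≤ p) : 0 ≤ g30_3 n p := by
  unfold g30_3; positivity

noncomputable def g30_4 (n p : ℝ) : ℝ :=
  n ^ 4 + 9 * n ^ 3 * p + 30 * n ^ 2 * p ^ 2 + 44 * n * p ^ 3 + 24 * p ^ 4 + 12 * n ^ 3 + 81 *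
  n ^ 2 * p + 180 * n * p ^ 2 + 132 * p ^ 3 + 48 * n ^ 2 + 202 * n * p + 192 * p ^ 2 + 72 *
  n + 106 * p + 32

theorem g30_4_nn {n p : ℝ} (hn : 0 ≤ n) (hp : 0 ≤ p) : 0 ≤ g30_4 n p := by
  unfold g30_4; positivity

noncomputable def g30_5 (n p : ℝ) : ℝ :=
  n ^ 4 + 10 * n ^ 3 * p + 36 * n ^ 2 * p ^ 2 + 56 * n * p ^ 3 + 32 * p ^ 4 + 16 * n ^ 3 + 114
  * n ^ 2 * p + 264 * n * p ^ 2 + 200 * p ^ 3 + 84 * n ^ 2 + 358 * n * p + 340 * p ^ 2 + 160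
  * n + 264 * p + 80

theorem g30_5_nn {n p : ℝ} (hn : 0 ≤ n) (hp : 0 ≤ p) : 0 ≤ g30_5 n p := by
  unfold g30_5; positivity

noncomputable def g30_6 (n p : ℝ) : ℝ :=
  n ^ 4 + 10 * n ^ 3 * p + 36 * n ^ 2 * p ^ 2 + 56 * n * p ^ 3 + 32 * p ^ 4 + 16 * n ^ 3 + 120
  * n ^ 2 * p + 288 * n * p ^ 2 + 224 * p ^ 3 + 96 * n ^ 2 + 442 * n * p + 460 * p ^ 2 + 232
  * n + 434 * p + 160

theorem g30_6_nn {n p : ℝ} (hn : 0 ≤ n) (hp : 0 ≤ p) : 0 ≤ g30_6 n p := by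
  unfold g30_6; positivity

noncomputable def g30_7 (n p : ℝ) : ℝ :=
  n ^ 4 + 10 * n ^ 3 * p + 36 * n ^ 2 * p ^ 2 + 56 * n * p ^ 3 + 32 * p ^ 4 + 16 * n ^ 3 + 120
  * n ^ 2 * p + 288 * n * p ^ 2 + 224 * p ^ 3 + 96 * n ^ 2 + 460 * n * p + 496 * p ^ 2 + 256
  * n + 536 * p + 232

theorem g30_7_nn {n p : ℝ} (hn : 0 ≤ n) (hp : 0 ≤ p) : 0 ≤ g30_7 n p := by
  unfold g30_7; positivity

noncomputable def g30_8 (n p : ℝ) : ℝ :=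
  n ^ 4 + 10 * n ^ 3 * p + 36 * n ^ 2 * p ^ 2 + 56 * n * p ^ 3 + 32 * p ^ 4 + 16 * n ^ 3 + 120
  * n ^ 2 * p + 288 * n * p ^ 2 + 224 * p ^ 3 + 96 * n ^ 2 + 460 * n * p + 496 * p ^ 2 + 256
  * n + 560 * p + 256

theorem g30_8_nn {n p : ℝ} (hn : 0 ≤ n) (hp : 0 ≤ p) : 0 ≤ g30_8 n p := by
  unfold g30_8; positivity

theorem g30_nn {n p t : ℝ} (hn : 0 ≤ n) (hp : 0 ≤ p) (h0 : 0 < t) (h1 : t ≤ 1) :
    0 ≤ (1 - t) * (g30_0 n p * t ^ 0 + g30_1 n p * t ^ 1 + g30_2 n p * t ^ 2 + g30_3 n p * t ^ 3 +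
      g30_4 n p * t ^ 4 + g30_5 n p * t ^ 5 + g30_6 n p * t ^ 6 + g30_7 n p * t ^ 7) + g30_8
      n p * t ^ 8 := by
  have e0 := g30_0_nn hn hp
  have e1 := g30_1_nn hn hp
  have e2 := g30_2_nn hn hp
  have e3 := g30_3_nn hn hp
  have e4 := g30_4_nn hn hp
  have e5 := g30_5_nn hn hp
  have e6 := g30_6_nn hn hp
  have e7 := g30_7_nn hn hp
  have e8 := g30_8_nn hn hp
  have h2 : 0 ≤ 1 - t := by linarith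
  exact add_nonneg (mul_nonneg h2 (by positivity)) (by positivity)

end Pool.Agent.KIQ.POLY

namespace Pool.Agent.KIQ

open POLY

theorem PG3_0 {a q t : ℝ} (hq : 1 ≤ q) (ha : 2 * q + 1 ≤ a) (h0 : 0 < t) (h1 : t ≤ 1) :
    20 * (q - 1) * t ^ 3 * ((q - 1) * t ^ 2 + a * t + q) ≤
      (pp 1 a q (iniG a q) 3 0).eval t := by
  obtain ⟨p, hp, rfl⟩ : ∃ p : ℝ, 0 ≤ p ∧ q = 1 + p := ⟨q - 1, by linarith, by ring⟩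
  obtain ⟨n, hn, rfl⟩ : ∃ n : ℝ, 0 ≤ n ∧ a = 2 * (1 + p) + 1 + n :=
    ⟨a - (2 * (1 + p) + 1), by linarith, by ring⟩
  simp only [fg_3_0, eval_PL, evL]
  refine le_of_sub_nonneg (le_of_le_of_eq (g30_nn hn hp h0 h1) ?_)
  simp only [g30_0, g30_1, g30_2, g30_3, g30_4, g30_5, g30_6, g30_7, g30_8, fg_3_0_0, fg_3_0_1, fg_3_0_2,
    fg_3_0_3, fg_3_0_4, fg_3_0_5, fg_3_0_6, fg_3_0_7, fg_3_0_8]
  ring

end Pool.Agent.KIQ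

namespace Pool.Agent.KIQ.POLY

noncomputable def g31_0 (n p : ℝ) : ℝ :=
  18 * p

theorem g31_0_nn {n p : ℝ} (hn : 0 ≤ n) (hp : 0 ≤ p) : 0 ≤ g31_0 n p := by
  unfold g31_0; positivity

noncomputable def g31_1 (n p : ℝ) : ℝ :=
  18 * n * p + 36 * p ^ 2 + 72 * p

theorem g31_1_nn {n p : ℝ} (hn : 0 ≤ n) (hp : 0 ≤ p) : 0 ≤ g31_1 n p := by
  unfold g31_1; positivity

noncomputable def g31_2 (n p : ℝ) : ℝ :=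
  9 * n ^ 2 * p + 36 * n * p ^ 2 + 36 * p ^ 3 + 72 * n * p + 147 * p ^ 2 + 146 * p

theorem g31_2_nn {n p : ℝ} (hn : 0 ≤ n) (hp : 0 ≤ p) : 0 ≤ g31_2 n p := by
  unfold g31_2; positivity

noncomputable def g31_3 (n p : ℝ) : ℝ :=
  3 * n ^ 3 * p + 18 * n ^ 2 * p ^ 2 + 36 * n * p ^ 3 + 24 * p ^ 4 + 36 * n ^ 2 * p + 147 * n
  * p ^ 2 + 150 * p ^ 3 + 152 * n * p + 296 * p ^ 2 + 204 * p

theorem g31_3_nn {n p : ℝ} (hn : 0 ≤ n) (hp : 0 ≤ p) : 0 ≤ g31_3 n p := by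
  unfold g31_3; positivity

noncomputable def g31_4 (n p : ℝ) : ℝ :=
  3 * n ^ 4 + 27 * n ^ 3 * p + 93 * n ^ 2 * p ^ 2 + 144 * n * p ^ 3 + 84 * p ^ 4 + 36 * n ^ 3
  + 246 * n ^ 2 * p + 573 * n * p ^ 2 + 450 * p ^ 3 + 140 * n ^ 2 + 656 * n * p + 772 * p ^
  2 + 192 * n + 494 * p + 64

theorem g31_4_nn {n p : ℝ} (hn : 0 ≤ n) (hp : 0 ≤ p) : 0 ≤ g31_4 n p := by
  unfold g31_4; positivity

noncomputable def g31_5 (n p : ℝ) : ℝ :=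
  3 * n ^ 4 + 33 * n ^ 3 * p + 129 * n ^ 2 * p ^ 2 + 216 * n * p ^ 3 + 132 * p ^ 4 + 54 * n ^
  3 + 408 * n ^ 2 * p + 1005 * n * p ^ 2 + 810 * p ^ 3 + 302 * n ^ 2 + 1394 * n * p + 1580 *
  p ^ 2 + 584 * n + 1224 * p + 268

theorem g31_5_nn {n p : ℝ} (hn : 0 ≤ n) (hp : 0 ≤ p) : 0 ≤ g31_5 n p := by
  unfold g31_5; positivity

noncomputable def g31_6 (n p : ℝ) : ℝ :=
  3 * n ^ 4 + 33 * n ^ 3 * p + 132 * n ^ 2 * p ^ 2 + 228 * n * p ^ 3 + 144 * p ^ 4 + 54 * n ^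
  3 + 450 * n ^ 2 * p + 1191 * n * p ^ 2 + 1014 * p ^ 3 + 368 * n ^ 2 + 1910 * n * p + 2349
  * p ^ 2 + 980 * n + 2226 * p + 720

theorem g31_6_nn {n p : ℝ} (hn : 0 ≤ n) (hp : 0 ≤ p) : 0 ≤ g31_6 n p := by
  unfold g31_6; positivity

noncomputable def g31_7 (n p : ℝ) : ℝ :=
  3 * n ^ 4 + 33 * n ^ 3 * p + 132 * n ^ 2 * p ^ 2 + 228 * n * p ^ 3 + 144 * p ^ 4 + 54 * n ^
  3 + 450 * n ^ 2 * p + 1212 * n * p ^ 2 + 1056 * p ^ 3 + 368 * n ^ 2 + 2048 * n * p + 2688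
  * p ^ 2 + 1124 * n + 2928 * p + 1152

theorem g31_7_nn {n p : ℝ} (hn : 0 ≤ n) (hp : 0 ≤ p) : 0 ≤ g31_7 n p := by
  unfold g31_7; positivity

noncomputable def g31_8 (n p : ℝ) : ℝ :=
  3 * n ^ 4 + 33 * n ^ 3 * p + 132 * n ^ 2 * p ^ 2 + 228 * n * p ^ 3 + 144 * p ^ 4 + 54 * n ^
  3 + 450 * n ^ 2 * p + 1212 * n * p ^ 2 + 1056 * p ^ 3 + 368 * n ^ 2 + 2048 * n * p + 2736
  * p ^ 2 + 1124 * n + 3120 * p + 1296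

theorem g31_8_nn {n p : ℝ} (hn : 0 ≤ n) (hp : 0 ≤ p) : 0 ≤ g31_8 n p := by
  unfold g31_8; positivity

theorem g31_nn {n p t : ℝ} (hn : 0 ≤ n) (hp : 0 ≤ p) (h0 : 0 < t) (h1 : t ≤ 1) :
    0 ≤ (1 - t) * (g31_0 n p * t ^ 0 + g31_1 n p * t ^ 1 + g31_2 n p * t ^ 2 + g31_3 n p * t ^ 3 +
      g31_4 n p * t ^ 4 + g31_5 n p * t ^ 5 + g31_6 n p * t ^ 6 + g31_7 n p * t ^ 7) + g31_8
      n p * t ^ 8 := by
  have e0 := g31_0_nn hn hp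
  have e1 := g31_1_nn hn hp
  have e2 := g31_2_nn hn hp
  have e3 := g31_3_nn hn hp
  have e4 := g31_4_nn hn hp
  have e5 := g31_5_nn hn hp
  have e6 := g31_6_nn hn hp
  have e7 := g31_7_nn hn hp
  have e8 := g31_8_nn hn hp
  have h2 : 0 ≤ 1 - t := by linarith
  exact add_nonneg (mul_nonneg h2 (by positivity)) (by positivity)

end Pool.Agent.KIQ.POLY

namespace Pool.Agent.KIQ

open POLY

theorem PG3_1 {a q t : ℝ} (hq : 1 ≤ q) (ha : 2 * q + 1 ≤ a) (h0 : 0 < t) (h1 : t ≤ 1) :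
    20 * (q - 1) * t ^ 3 * ((q - 1) * t ^ 2 + a * t + q) ≤
      (pp 1 a q (iniG a q) 3 1).eval t := by
  obtain ⟨p, hp, rfl⟩ : ∃ p : ℝ, 0 ≤ p ∧ q = 1 + p := ⟨q - 1, by linarith, by ring⟩
  obtain ⟨n, hn, rfl⟩ : ∃ n : ℝ, 0 ≤ n ∧ a = 2 * (1 + p) + 1 + n :=
    ⟨a - (2 * (1 + p) + 1), by linarith, by ring⟩
  simp only [fg_3_1, eval_PL, evL]
  refine le_of_sub_nonneg (le_of_le_of_eq (g31_nn hn hp h0 h1) ?_)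
  simp only [g31_0, g31_1, g31_2, g31_3, g31_4, g31_5, g31_6, g31_7, g31_8, fg_3_1_0, fg_3_1_1, fg_3_1_2,
    fg_3_1_3, fg_3_1_4, fg_3_1_5, fg_3_1_6, fg_3_1_7, fg_3_1_8]
  ring

end Pool.Agent.KIQ

namespace Pool.Agent.KIQ.POLY

noncomputable def g32_0 (n p : ℝ) : ℝ :=
  18 * p

theorem g32_0_nn {n p : ℝ} (hn : 0 ≤ n) (hp : 0 ≤ p) : 0 ≤ g32_0 n p := by
  unfold g32_0; positivity

noncomputable def g32_1 (n p : ℝ) : ℝ :=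
  18 * n * p + 36 * p ^ 2 + 72 * p

theorem g32_1_nn {n p : ℝ} (hn : 0 ≤ n) (hp : 0 ≤ p) : 0 ≤ g32_1 n p := by
  unfold g32_1; positivity

noncomputable def g32_2 (n p : ℝ) : ℝ :=
  9 * n ^ 2 * p + 36 * n * p ^ 2 + 36 * p ^ 3 + 72 * n * p + 150 * p ^ 2 + 154 * p

theorem g32_2_nn {n p : ℝ} (hn : 0 ≤ n) (hp : 0 ≤ p) : 0 ≤ g32_2 n p := by
  unfold g32_2; positivity

noncomputable def g32_3 (n p : ℝ) : ℝ :=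
  3 * n ^ 3 * p + 18 * n ^ 2 * p ^ 2 + 36 * n * p ^ 3 + 24 * p ^ 4 + 36 * n ^ 2 * p + 150 * n
  * p ^ 2 + 156 * p ^ 3 + 160 * n * p + 344 * p ^ 2 + 256 * p

theorem g32_3_nn {n p : ℝ} (hn : 0 ≤ n) (hp : 0 ≤ p) : 0 ≤ g32_3 n p := by
  unfold g32_3; positivity

noncomputable def g32_4 (n p : ℝ) : ℝ :=
  3 * n ^ 4 + 27 * n ^ 3 * p + 96 * n ^ 2 * p ^ 2 + 156 * n * p ^ 3 + 96 * p ^ 4 + 36 * n ^ 3
  + 249 * n ^ 2 * p + 606 * n * p ^ 2 + 504 * p ^ 3 + 136 * n ^ 2 + 686 * n * p + 910 * p ^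
  2 + 168 * n + 592 * p + 32

theorem g32_4_nn {n p : ℝ} (hn : 0 ≤ n) (hp : 0 ≤ p) : 0 ≤ g32_4 n p := by
  unfold g32_4; positivity

noncomputable def g32_5 (n p : ℝ) : ℝ :=
  3 * n ^ 4 + 36 * n ^ 3 * p + 150 * n ^ 2 * p ^ 2 + 267 * n * p ^ 3 + 174 * p ^ 4 + 60 * n ^
  3 + 474 * n ^ 2 * p + 1221 * n * p ^ 2 + 1035 * p ^ 3 + 352 * n ^ 2 + 1693 * n * p + 2069
  * p ^ 2 + 687 * n + 1573 * p + 293

theorem g32_5_nn {n p : ℝ} (hn : 0 ≤ n) (hp : 0 ≤ p) : 0 ≤ g32_5 n p := by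
  unfold g32_5; positivity

noncomputable def g32_6 (n p : ℝ) : ℝ :=
  3 * n ^ 4 + 36 * n ^ 3 * p + 159 * n ^ 2 * p ^ 2 + 303 * n * p ^ 3 + 210 * p ^ 4 + 60 * n ^
  3 + 546 * n ^ 2 * p + 1563 * n * p ^ 2 + 1434 * p ^ 3 + 451 * n ^ 2 + 2521 * n * p + 3354
  * p ^ 2 + 1281 * n + 3146 * p + 980

theorem g32_6_nn {n p : ℝ} (hn : 0 ≤ n) (hp : 0 ≤ p) : 0 ≤ g32_6 n p := by
  unfold g32_6; positivity

noncomputable def g32_7 (n p : ℝ) : ℝ :=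
  3 * n ^ 4 + 36 * n ^ 3 * p + 159 * n ^ 2 * p ^ 2 + 306 * n * p ^ 3 + 216 * p ^ 4 + 60 * n ^
  3 + 546 * n ^ 2 * p + 1626 * n * p ^ 2 + 1569 * p ^ 3 + 451 * n ^ 2 + 2770 * n * p + 4041
  * p ^ 2 + 1506 * n + 4343 * p + 1655

theorem g32_7_nn {n p : ℝ} (hn : 0 ≤ n) (hp : 0 ≤ p) : 0 ≤ g32_7 n p := by
  unfold g32_7; positivity

noncomputable def g32_8 (n p : ℝ) : ℝ :=
  3 * n ^ 4 + 36 * n ^ 3 * p + 159 * n ^ 2 * p ^ 2 + 306 * n * p ^ 3 + 216 * p ^ 4 + 60 * n ^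
  3 + 546 * n ^ 2 * p + 1626 * n * p ^ 2 + 1584 * p ^ 3 + 451 * n ^ 2 + 2770 * n * p + 4176
  * p ^ 2 + 1506 * n + 4688 * p + 1880

theorem g32_8_nn {n p : ℝ} (hn : 0 ≤ n) (hp : 0 ≤ p) : 0 ≤ g32_8 n p := by
  unfold g32_8; positivity

theorem g32_nn {n p t : ℝ} (hn : 0 ≤ n) (hp : 0 ≤ p) (h0 : 0 < t) (h1 : t ≤ 1) :
    0 ≤ (1 - t) * (g32_0 n p * t ^ 0 + g32_1 n p * t ^ 1 + g32_2 n p * t ^ 2 + g32_3 n p * t ^ 3 +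
      g32_4 n p * t ^ 4 + g32_5 n p * t ^ 5 + g32_6 n p * t ^ 6 + g32_7 n p * t ^ 7) + g32_8
      n p * t ^ 8 := by
  have e0 := g32_0_nn hn hp
  have e1 := g32_1_nn hn hp
  have e2 := g32_2_nn hn hp
  have e3 := g32_3_nn hn hp
  have e4 := g32_4_nn hn hp
  have e5 := g32_5_nn hn hp
  have e6 := g32_6_nn hn hp
  have e7 := g32_7_nn hn hp
  have e8 := g32_8_nn hn hp
  have h2 : 0 ≤ 1 - t := by linarith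
  exact add_nonneg (mul_nonneg h2 (by positivity)) (by positivity)

end Pool.Agent.KIQ.POLY

namespace Pool.Agent.KIQ

open POLY

theorem PG3_2 {a q t : ℝ} (hq : 1 ≤ q) (ha : 2 * q + 1 ≤ a) (h0 : 0 < t) (h1 : t ≤ 1) :
    0 ≤
      (pp 1 a q (iniG a q) 3 2).eval t := by
  obtain ⟨p, hp, rfl⟩ : ∃ p : ℝ, 0 ≤ p ∧ q = 1 + p := ⟨q - 1, by linarith, by ring⟩
  obtain ⟨n, hn, rfl⟩ : ∃ n : ℝ, 0 ≤ n ∧ a = 2 * (1 + p) + 1 + n :=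
    ⟨a - (2 * (1 + p) + 1), by linarith, by ring⟩
  simp only [fg_3_2, eval_PL, evL]
  refine le_of_sub_nonneg (le_of_le_of_eq (g32_nn hn hp h0 h1) ?_)
  simp only [g32_0, g32_1, g32_2, g32_3, g32_4, g32_5, g32_6, g32_7, g32_8, fg_3_2_0, fg_3_2_1, fg_3_2_2,
    fg_3_2_3, fg_3_2_4, fg_3_2_5, fg_3_2_6, fg_3_2_7, fg_3_2_8]
  ring

end Pool.Agent.KIQ

namespace Pool.Agent.KIQ.POLY

noncomputable def g33_0 (n p : ℝ) : ℝ :=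
  6 * p

theorem g33_0_nn {n p : ℝ} (hn : 0 ≤ n) (hp : 0 ≤ p) : 0 ≤ g33_0 n p := by
  unfold g33_0; positivity

noncomputable def g33_1 (n p : ℝ) : ℝ :=
  6 * n * p + 12 * p ^ 2 + 24 * p

theorem g33_1_nn {n p : ℝ} (hn : 0 ≤ n) (hp : 0 ≤ p) : 0 ≤ g33_1 n p := by
  unfold g33_1; positivity

noncomputable def g33_2 (n p : ℝ) : ℝ :=
  3 * n ^ 2 * p + 12 * n * p ^ 2 + 12 * p ^ 3 + 24 * n * p + 51 * p ^ 2 + 54 * p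

theorem g33_2_nn {n p : ℝ} (hn : 0 ≤ n) (hp : 0 ≤ p) : 0 ≤ g33_2 n p := by
  unfold g33_2; positivity

noncomputable def g33_3 (n p : ℝ) : ℝ :=
  n ^ 3 * p + 6 * n ^ 2 * p ^ 2 + 12 * n * p ^ 3 + 8 * p ^ 4 + 12 * n ^ 2 * p + 51 * n * p ^ 2
  + 54 * p ^ 3 + 56 * n * p + 124 * p ^ 2 + 96 * p

theorem g33_3_nn {n p : ℝ} (hn : 0 ≤ n) (hp : 0 ≤ p) : 0 ≤ g33_3 n p := by
  unfold g33_3; positivity

noncomputable def g33_4 (n p : ℝ) : ℝ :=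
  n ^ 4 + 9 * n ^ 3 * p + 33 * n ^ 2 * p ^ 2 + 56 * n * p ^ 3 + 36 * p ^ 4 + 12 * n ^ 3 + 84 *
  n ^ 2 * p + 213 * n * p ^ 2 + 186 * p ^ 3 + 44 * n ^ 2 + 232 * n * p + 330 * p ^ 2 + 48 *
  n + 204 * p

theorem g33_4_nn {n p : ℝ} (hn : 0 ≤ n) (hp : 0 ≤ p) : 0 ≤ g33_4 n p := by
  unfold g33_4; positivity

noncomputable def g33_5 (n p : ℝ) : ℝ :=
  n ^ 4 + 13 * n ^ 3 * p + 57 * n ^ 2 * p ^ 2 + 107 * n * p ^ 3 + 74 * p ^ 4 + 22 * n ^ 3 +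
  180 * n ^ 2 * p + 480 * n * p ^ 2 + 425 * p ^ 3 + 134 * n ^ 2 + 657 * n * p + 829 * p ^ 2
  + 263 * n + 613 * p + 105

theorem g33_5_nn {n p : ℝ} (hn : 0 ≤ n) (hp : 0 ≤ p) : 0 ≤ g33_5 n p := by
  unfold g33_5; positivity

noncomputable def g33_6 (n p : ℝ) : ℝ :=
  n ^ 4 + 13 * n ^ 3 * p + 63 * n ^ 2 * p ^ 2 + 131 * n * p ^ 3 + 99 * p ^ 4 + 22 * n ^ 3 +
  216 * n ^ 2 * p + 660 * n * p ^ 2 + 644 * p ^ 3 + 179 * n ^ 2 + 1053 * n * p + 1464 * p ^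
  2 + 533 * n + 1354 * p + 420

theorem g33_6_nn {n p : ℝ} (hn : 0 ≤ n) (hp : 0 ≤ p) : 0 ≤ g33_6 n p := by
  unfold g33_6; positivity

noncomputable def g33_7 (n p : ℝ) : ℝ :=
  n ^ 4 + 13 * n ^ 3 * p + 63 * n ^ 2 * p ^ 2 + 135 * n * p ^ 3 + 107 * p ^ 4 + 22 * n ^ 3 +
  216 * n ^ 2 * p + 702 * n * p ^ 2 + 740 * p ^ 3 + 179 * n ^ 2 + 1181 * n * p + 1846 * p ^
  2 + 638 * n + 1948 * p + 735

theorem g33_7_nn {n p : ℝ} (hn : 0 ≤ n) (hp : 0 ≤ p) : 0 ≤ g33_7 n p := by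
  unfold g33_7; positivity

noncomputable def g33_8 (n p : ℝ) : ℝ :=
  n ^ 4 + 13 * n ^ 3 * p + 63 * n ^ 2 * p ^ 2 + 135 * n * p ^ 3 + 108 * p ^ 4 + 22 * n ^ 3 +
  216 * n ^ 2 * p + 702 * n * p ^ 2 + 756 * p ^ 3 + 179 * n ^ 2 + 1181 * n * p + 1932 * p ^
  2 + 638 * n + 2124 * p + 840

theorem g33_8_nn {n p : ℝ} (hn : 0 ≤ n) (hp : 0 ≤ p) : 0 ≤ g33_8 n p := by
  unfold g33_8; positivity

theorem g33_nn {n p t : ℝ} (hn : 0 ≤ n) (hp : 0 ≤ p) (h0 : 0 < t) (h1 : t ≤ 1) :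
    0 ≤ (1 - t) * (g33_0 n p * t ^ 0 + g33_1 n p * t ^ 1 + g33_2 n p * t ^ 2 + g33_3 n p * t ^ 3 +
      g33_4 n p * t ^ 4 + g33_5 n p * t ^ 5 + g33_6 n p * t ^ 6 + g33_7 n p * t ^ 7) + g33_8
      n p * t ^ 8 := by
  have e0 := g33_0_nn hn hp
  have e1 := g33_1_nn hn hp
  have e2 := g33_2_nn hn hp
  have e3 := g33_3_nn hn hp
  have e4 := g33_4_nn hn hp
  have e5 := g33_5_nn hn hp
  have e6 := g33_6_nn hn hp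
  have e7 := g33_7_nn hn hp
  have e8 := g33_8_nn hn hp
  have h2 : 0 ≤ 1 - t := by linarith
  exact add_nonneg (mul_nonneg h2 (by positivity)) (by positivity)

end Pool.Agent.KIQ.POLY

namespace Pool.Agent.KIQ

open POLY

theorem PG3_3 {a q t : ℝ} (hq : 1 ≤ q) (ha : 2 * q + 1 ≤ a) (h0 : 0 < t) (h1 : t ≤ 1) :
    0 ≤
      (pp 1 a q (iniG a q) 3 3).eval t := by
  obtain ⟨p, hp, rfl⟩ : ∃ p : ℝ, 0 ≤ p ∧ q = 1 + p := ⟨q - 1, by linarith, by ring⟩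
  obtain ⟨n, hn, rfl⟩ : ∃ n : ℝ, 0 ≤ n ∧ a = 2 * (1 + p) + 1 + n :=
    ⟨a - (2 * (1 + p) + 1), by linarith, by ring⟩
  simp only [fg_3_3, eval_PL, evL]
  refine le_of_sub_nonneg (le_of_le_of_eq (g33_nn hn hp h0 h1) ?_)
  simp only [g33_0, g33_1, g33_2, g33_3, g33_4, g33_5, g33_6, g33_7, g33_8, fg_3_3_0, fg_3_3_1, fg_3_3_2,
    fg_3_3_3, fg_3_3_4, fg_3_3_5, fg_3_3_6, fg_3_3_7, fg_3_3_8]
  ring

end Pool.Agent.KIQ
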