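import Pool.Agent.KIQ.WWL
import Pool.Agent.KIQ.PG3
import Pool.Agent.KIQ.PC3

/-!
# PTW3: pointwise inequalities
-/

set_option autoImplicit false

open PowerSeries Finset

namespace Pool.Agent.KIQ

private theorem PTW3_core {E t R q c S N al : ℝ} (hE : 0 ≤ E) (ht : 0 < t) (ht1 : t ≤ 1)
    (hR : 1 ≤ R) (hc : 0 ≤ c) (hN : 0 ≤ N) (hq : 1 ≤ q) (hal : al ≤ E * N)
    (hS : R ^ 2 * (c * t ^ 5 * N) ≤ S) :
    c * (t / R) ^ (4 * q - 3) * al ≤ E * R ^ (q - 3) * (S / t ^ 4) := by
  have hR0 : 0 < R := by linarith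
  have h1 : (t / R) ^ (4 * q - 3) ≤ t * (R ^ (q - 3) * R ^ 2) := by
    rw [div_eq_mul_inv, Real.mul_rpow ht.le (inv_nonneg.2 hR0.le)]
    have h2 : t ^ (4 * q - 3) ≤ t := by
      have := Real.rpow_le_rpow_of_exponent_ge ht ht1 (show (1 : ℝ) ≤ 4 * q - 3 by linarith)
      rwa [Real.rpow_one] at this
    have h3 : (R⁻¹) ^ (4 * q - 3) ≤ R ^ (q - 3) * R ^ 2 := by
      rw [Real.inv_rpow hR0.le, ← Real.rpow_neg hR0.le, ← Real.rpow_natCast R 2,
        ← Real.rpow_add hR0]
      apply Real.rpow_le_rpow_of_exponent_le hR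
      push_cast
      linarith
    exact mul_le_mul h2 h3 (by positivity) ht.le
  have hEN : 0 ≤ E * N := mul_nonneg hE hN
  have h4 : 0 ≤ R ^ (q - 3) := (Real.rpow_pos_of_pos hR0 _).le
  calc c * (t / R) ^ (4 * q - 3) * al ≤ c * (t / R) ^ (4 * q - 3) * (E * N) := by
        apply mul_le_mul_of_nonneg_left hal
        positivity
    _ ≤ c * (t * (R ^ (q - 3) * R ^ 2)) * (E * N) := by
        apply mul_le_mul_of_nonneg_right _ hEN
        exact mul_le_mul_of_nonneg_left h1 hc
    _ = E * R ^ (q - 3) * ((R ^ 2 * (c * t ^ 5 * N)) / t ^ 4) := by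
        field_simp
    _ ≤ E * R ^ (q - 3) * (S / t ^ 4) := by
        apply mul_le_mul_of_nonneg_left _ (mul_nonneg hE h4)
        exact div_le_div_of_nonneg_right hS (by positivity)

theorem ptG3 {a q T u : ℝ} (h1 : 1 < q) (h2 : q ≤ 5 / 4) (ha : 2 * q + 1 ≤ a) (hT : 1 ≤ T)
    (hu : 0 < u) :
    20 * (q - 1) * Real.tanh u ^ (4 * q - 3) * altG a q T u ≤
      Phi 1 a q (iniG a q) 3 T u := by
  have ht := th_pos hT hu
  have ht1 := (th_lt_one T u).le
  have hR := one_le_RR hT u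
  have hX := XX_nonneg hT u
  have hal := altG_le (a := a) (q := q) (by linarith) h1.le hT hu
  have p0 := PG3_0 h1.le ha ht ht1
  have p1 := PG3_1 h1.le ha ht ht1
  have p2 := PG3_2 h1.le ha ht ht1
  have p3 := PG3_3 h1.le ha ht ht1
  have hXR : RR T u ^ 2 = 1 + XX T u := by unfold XX; ring
  have hch := Real.cosh_pos (vv T u)
  rw [tanh_eq hT hu]
  unfold Phi
  rw [Finset.sum_range_succ, Finset.sum_range_succ, Finset.sum_range_succ,
    Finset.sum_range_succ, Finset.sum_range_zero]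
  have hN : 0 ≤ (q - 1) + a / th T u + q / th T u ^ 2 := by
    have : 0 ≤ q - 1 := by linarith
    have : 0 ≤ a := by linarith
    positivity
  have hE : 0 ≤ Real.exp (-(a * vv T u)) * (1 / Real.cosh (vv T u)) := by positivity
  refine PTW3_core (N := (q - 1) + a / th T u + q / th T u ^ 2) (by positivity) ht ht1 hR
    (by linarith) hN h1.le ?_ ?_
  · refine hal.trans ?_
    rw [pow_one]
    exact div_le_self (mul_nonneg hE hN) hR
  · have hb : 20 * (q - 1) * th T u ^ 5 * ((q - 1) + a / th T u + q / th T u ^ 2) =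
        20 * (q - 1) * th T u ^ 3 * ((q - 1) * th T u ^ 2 + a * th T u + q) := by
      field_simp
    rw [hb, hXR]
    have q1 := mul_le_mul_of_nonneg_left p1 hX
    have q2 := mul_nonneg (pow_nonneg hX 2) p2
    have q3 := mul_nonneg (pow_nonneg hX 3) p3
    rw [pow_zero, pow_one]
    linarith

theorem ptC3 {a q A B T u : ℝ} (h1 : 1 < q) (h2 : q ≤ 5 / 4) (ha : 2 * q + 2 ≤ a)
    (hA : (3 * q - 2) * a ≤ (a ^ 2 - q ^ 2) * A) (hB : q * (3 * q - 2) ≤ (a ^ 2 - q ^ 2) * B)
    (hT : 1 ≤ T) (hu : 0 < u) :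
    20 * (q - 1) * Real.tanh u ^ (4 * q - 3) * altC a q A B T u ≤
      Phi 0 a q (iniC A B) 3 T u := by
  have ht := th_pos hT hu
  have ht1 := (th_lt_one T u).le
  have hR := one_le_RR hT u
  have hX := XX_nonneg hT u
  have haq : 0 < a ^ 2 - q ^ 2 := by nlinarith
  have hA0 : 0 ≤ A := by
    by_contra h
    push Not at h
    have := mul_neg_of_pos_of_neg haq h
    have : 0 ≤ (3 * q - 2) * a := mul_nonneg (by linarith) (by linarith)
    linarith
  have hB0 : 0 ≤ B := by
    by_contra h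
    push Not at h
    have := mul_neg_of_pos_of_neg haq h
    have : 0 ≤ q * (3 * q - 2) := mul_nonneg (by linarith) (by linarith)
    linarith
  have hal := altC_le (a := a) (q := q) (A := A) (B := B) (by linarith) h1.le hA0 hB0 hT hu
  have p0 := PC3_0 h1.le ha hA hB ht ht1
  have p1 := PC3_1 h1.le ha hA hB ht ht1
  have p2 := PC3_2 h1.le ha hA hB ht ht1
  have p3 := PC3_3 h1.le ha hA hB ht ht1
  have hXR : RR T u ^ 2 = 1 + XX T u := by unfold XX; ring
  rw [tanh_eq hT hu]
  unfold Phi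
  rw [Finset.sum_range_succ, Finset.sum_range_succ, Finset.sum_range_succ,
    Finset.sum_range_succ, Finset.sum_range_zero]
  have hN : 0 ≤ 1 / th T u + A + B := by positivity
  refine PTW3_core (N := 1 / th T u + A + B) (by positivity) ht ht1 hR
    (by linarith) hN h1.le ?_ ?_
  · refine hal.trans ?_
    rw [pow_zero, mul_one]
  · have hb : 20 * (q - 1) * th T u ^ 5 * (1 / th T u + A + B) =
        20 * (q - 1) * th T u ^ 4 * (1 + (A + B) * th T u) := by
      field_simp
      ring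
    rw [hb, hXR]
    have q1 := mul_le_mul_of_nonneg_left p1 hX
    have q2 := mul_nonneg (pow_nonneg hX 2) p2
    have q3 := mul_nonneg (pow_nonneg hX 3) p3
    rw [pow_zero, pow_one]
    linarith

end Pool.Agent.KIQ
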