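import Pool.Agent.KIQ.POLYFC

/-!
# PC4: positivity of the polynomials
-/

set_option autoImplicit false
set_option maxRecDepth 10000
set_option linter.unusedSimpArgs false
set_option linter.unusedVariables false

open PowerSeries Finset

namespace Pool.Agent.KIQ.POLY

noncomputable def c40e_0 (n p : ℝ) : ℝ :=
  72 * p ^ 2 + 132 * p + 105 / 2

theorem c40e_0_nn {n p : ℝ} (hn : 0 ≤ n) (hp : 0 ≤ p) : 0 ≤ c40e_0 n p := by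
  unfold c40e_0; positivity

noncomputable def c40e_1 (n p : ℝ) : ℝ :=
  72 * n * p ^ 2 + 144 * p ^ 3 + 132 * n * p + 660 * p ^ 2 + 105 / 2 * n + 831 * p + 1155 / 4

theorem c40e_1_nn {n p : ℝ} (hn : 0 ≤ n) (hp : 0 ≤ p) : 0 ≤ c40e_1 n p := by
  unfold c40e_1; positivity

noncomputable def c40e_2 (n p : ℝ) : ℝ :=
  36 * n ^ 2 * p ^ 2 + 144 * n * p ^ 3 + 144 * p ^ 4 + 66 * n ^ 2 * p + 660 * n * p ^ 2 + 1056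
  * p ^ 3 + 105 / 4 * n ^ 2 + 831 * n * p + 2562 * p ^ 2 + 1155 / 4 * n + 2420 * p + 11725 /
  16

theorem c40e_2_nn {n p : ℝ} (hn : 0 ≤ n) (hp : 0 ≤ p) : 0 ≤ c40e_2 n p := by
  unfold c40e_2; positivity

noncomputable def c40e_3 (n p : ℝ) : ℝ :=
  12 * n ^ 3 * p ^ 2 + 72 * n ^ 2 * p ^ 3 + 144 * n * p ^ 4 + 96 * p ^ 5 + 22 * n ^ 3 * p +
  330 * n ^ 2 * p ^ 2 + 1056 * n * p ^ 3 + 968 * p ^ 4 + 17 / 4 * n ^ 3 + 831 / 2 * n ^ 2 *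
  p + 2586 * n * p ^ 2 + 3580 * p ^ 3 + 435 / 8 * n ^ 2 + 2464 * n * p + 6017 * p ^ 2 + 8117
  / 16 * n + 36447 / 8 * p + 27077 / 32

theorem c40e_3_nn {n p : ℝ} (hn : 0 ≤ n) (hp : 0 ≤ p) : 0 ≤ c40e_3 n p := by
  unfold c40e_3; positivity

noncomputable def c40e_4 (n p : ℝ) : ℝ :=
  3 * n ^ 4 * p ^ 2 + 24 * n ^ 3 * p ^ 3 + 72 * n ^ 2 * p ^ 4 + 96 * n * p ^ 5 + 48 * p ^ 6 +
  11 / 2 * n ^ 4 * p + 110 * n ^ 3 * p ^ 2 + 528 * n ^ 2 * p ^ 3 + 968 * n * p ^ 4 + 616 * p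
  ^ 5 + 11 / 16 * n ^ 4 + 289 / 2 * n ^ 3 * p + 1305 * n ^ 2 * p ^ 2 + 3628 * n * p ^ 3 +
  3109 * p ^ 4 + 109 / 8 * n ^ 3 + 1374 * n ^ 2 * p + 6237 * n * p ^ 2 + 7843 * p ^ 3 + 3933
  / 32 * n ^ 2 + 41255 / 8 * n * p + 165437 / 16 * p ^ 2 + 13405 / 32 * n + 229309 / 32 * p
  + 132539 / 256

theorem c40e_4_nn {n p : ℝ} (hn : 0 ≤ n) (hp : 0 ≤ p) : 0 ≤ c40e_4 n p := by
  unfold c40e_4; positivity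

noncomputable def c40e_5 (n p : ℝ) : ℝ :=
  3 * n ^ 5 * p + 33 * n ^ 4 * p ^ 2 + 144 * n ^ 3 * p ^ 3 + 312 * n ^ 2 * p ^ 4 + 336 * n * p
  ^ 5 + 144 * p ^ 6 + 1 / 4 * n ^ 5 + 109 / 2 * n ^ 4 * p + 550 * n ^ 3 * p ^ 2 + 1920 * n ^
  2 * p ^ 3 + 2852 * n * p ^ 4 + 1560 * p ^ 5 + 289 / 16 * n ^ 4 + 424 * n ^ 3 * p + 3515 *
  n ^ 2 * p ^ 2 + 8722 * n * p ^ 3 + 6631 * p ^ 4 + 1011 / 8 * n ^ 3 + 1761 * n ^ 2 * p +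
  21089 / 2 * n * p ^ 2 + 13589 * p ^ 3 + 16683 / 32 * n ^ 2 + 65353 / 16 * n * p + 198423 /
  16 * p ^ 2 + 66629 / 64 * n + 139443 / 32 * p + 215481 / 256

theorem c40e_5_nn {n p : ℝ} (hn : 0 ≤ n) (hp : 0 ≤ p) : 0 ≤ c40e_5 n p := by
  unfold c40e_5; positivity

noncomputable def c40e_6 (n p : ℝ) : ℝ :=
  1 / 2 * n ^ 6 + 13 * n ^ 5 * p + 90 * n ^ 4 * p ^ 2 + 296 * n ^ 3 * p ^ 3 + 528 * n ^ 2 * p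
  ^ 4 + 496 * n * p ^ 5 + 192 * p ^ 6 + 45 / 4 * n ^ 5 + 267 * n ^ 4 * p + 1546 * n ^ 3 * p
  ^ 2 + 3912 * n ^ 2 * p ^ 3 + 4716 * n * p ^ 4 + 2240 * p ^ 5 + 1141 / 8 * n ^ 4 + 4511 / 2
  * n ^ 3 * p + 9832 * n ^ 2 * p ^ 2 + 17030 * n * p ^ 3 + 10476 * p ^ 4 + 6047 / 8 * n ^ 3
  + 18059 / 2 * n ^ 2 * p + 54823 / 2 * n * p ^ 2 + 24608 * p ^ 3 + 29959 / 16 * n ^ 2 +
  278891 / 16 * n * p + 111953 / 4 * p ^ 2 + 128071 / 64 * n + 50185 / 4 * p + 9185 / 64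

theorem c40e_6_nn {n p : ℝ} (hn : 0 ≤ n) (hp : 0 ≤ p) : 0 ≤ c40e_6 n p := by
  unfold c40e_6; positivity

noncomputable def c40e_7 (n p : ℝ) : ℝ :=
  1 / 2 * n ^ 6 + 13 * n ^ 5 * p + 90 * n ^ 4 * p ^ 2 + 296 * n ^ 3 * p ^ 3 + 528 * n ^ 2 * p
  ^ 4 + 496 * n * p ^ 5 + 192 * p ^ 6 + 51 / 4 * n ^ 5 + 297 * n ^ 4 * p + 1692 * n ^ 3 * p
  ^ 2 + 4208 * n ^ 2 * p ^ 3 + 4988 * n * p ^ 4 + 2336 * p ^ 5 + 1681 / 8 * n ^ 4 + 5841 / 2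
  * n ^ 3 * p + 11878 * n ^ 2 * p ^ 2 + 19574 * n * p ^ 3 + 11620 * p ^ 4 + 1477 * n ^ 3 +
  13525 * n ^ 2 * p + 71843 / 2 * n * p ^ 2 + 29820 * p ^ 3 + 79809 / 16 * n ^ 2 + 469851 /
  16 * n * p + 156701 / 4 * p ^ 2 + 499947 / 64 * n + 188929 / 8 * p + 256055 / 64

theorem c40e_7_nn {n p : ℝ} (hn : 0 ≤ n) (hp : 0 ≤ p) : 0 ≤ c40e_7 n p := by
  unfold c40e_7; positivity

noncomputable def c40e_8 (n p : ℝ) : ℝ :=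
  1 / 2 * n ^ 6 + 13 * n ^ 5 * p + 90 * n ^ 4 * p ^ 2 + 296 * n ^ 3 * p ^ 3 + 528 * n ^ 2 * p
  ^ 4 + 496 * n * p ^ 5 + 192 * p ^ 6 + 51 / 4 * n ^ 5 + 297 * n ^ 4 * p + 1692 * n ^ 3 * p
  ^ 2 + 4208 * n ^ 2 * p ^ 3 + 4988 * n * p ^ 4 + 2336 * p ^ 5 + 1777 / 8 * n ^ 4 + 6033 / 2
  * n ^ 3 * p + 12154 * n ^ 2 * p ^ 2 + 19910 * n * p ^ 3 + 11764 * p ^ 4 + 1693 * n ^ 3 +
  14791 * n ^ 2 * p + 76571 / 2 * n * p ^ 2 + 31212 * p ^ 3 + 102197 / 16 * n ^ 2 + 555083 /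
  16 * n * p + 176117 / 4 * p ^ 2 + 746043 / 64 * n + 246393 / 8 * p + 498843 / 64

theorem c40e_8_nn {n p : ℝ} (hn : 0 ≤ n) (hp : 0 ≤ p) : 0 ≤ c40e_8 n p := by
  unfold c40e_8; positivity

noncomputable def c40e_9 (n p : ℝ) : ℝ :=
  1 / 2 * n ^ 6 + 13 * n ^ 5 * p + 90 * n ^ 4 * p ^ 2 + 296 * n ^ 3 * p ^ 3 + 528 * n ^ 2 * p
  ^ 4 + 496 * n * p ^ 5 + 192 * p ^ 6 + 51 / 4 * n ^ 5 + 297 * n ^ 4 * p + 1692 * n ^ 3 * p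
  ^ 2 + 4208 * n ^ 2 * p ^ 3 + 4988 * n * p ^ 4 + 2336 * p ^ 5 + 1777 / 8 * n ^ 4 + 6033 / 2
  * n ^ 3 * p + 12154 * n ^ 2 * p ^ 2 + 19910 * n * p ^ 3 + 11764 * p ^ 4 + 1717 * n ^ 3 +
  14935 * n ^ 2 * p + 77099 / 2 * n * p ^ 2 + 31356 * p ^ 3 + 107381 / 16 * n ^ 2 + 574859 /
  16 * n * p + 180389 / 4 * p ^ 2 + 836955 / 64 * n + 266961 / 8 * p + 628011 / 64

theorem c40e_9_nn {n p : ℝ} (hn : 0 ≤ n) (hp : 0 ≤ p) : 0 ≤ c40e_9 n p := by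
  unfold c40e_9; positivity

noncomputable def c40e_10 (n p : ℝ) : ℝ :=
  1 / 2 * n ^ 6 + 13 * n ^ 5 * p + 90 * n ^ 4 * p ^ 2 + 296 * n ^ 3 * p ^ 3 + 528 * n ^ 2 * p
  ^ 4 + 496 * n * p ^ 5 + 192 * p ^ 6 + 51 / 4 * n ^ 5 + 297 * n ^ 4 * p + 1692 * n ^ 3 * p
  ^ 2 + 4208 * n ^ 2 * p ^ 3 + 4988 * n * p ^ 4 + 2336 * p ^ 5 + 1777 / 8 * n ^ 4 + 6033 / 2
  * n ^ 3 * p + 12154 * n ^ 2 * p ^ 2 + 19910 * n * p ^ 3 + 11764 * p ^ 4 + 1717 * n ^ 3 +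
  14935 * n ^ 2 * p + 77099 / 2 * n * p ^ 2 + 31356 * p ^ 3 + 107765 / 16 * n ^ 2 + 576395 /
  16 * n * p + 180677 / 4 * p ^ 2 + 850779 / 64 * n + 269937 / 8 * p + 656715 / 64

theorem c40e_10_nn {n p : ℝ} (hn : 0 ≤ n) (hp : 0 ≤ p) : 0 ≤ c40e_10 n p := by
  unfold c40e_10; positivity

theorem c40e_nn {n p t : ℝ} (hn : 0 ≤ n) (hp : 0 ≤ p) (h0 : 0 < t) (h1 : t ≤ 1) :
    0 ≤ (1 - t) * (c40e_0 n p * t ^ 0 + c40e_1 n p * t ^ 1 + c40e_2 n p * t ^ 2 + c40e_3 n p * t ^ 3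
      + c40e_4 n p * t ^ 4 + c40e_5 n p * t ^ 5 + c40e_6 n p * t ^ 6 + c40e_7 n p * t ^ 7 +
      c40e_8 n p * t ^ 8 + c40e_9 n p * t ^ 9) + c40e_10 n p * t ^ 10 := by
  have e0 := c40e_0_nn hn hp
  have e1 := c40e_1_nn hn hp
  have e2 := c40e_2_nn hn hp
  have e3 := c40e_3_nn hn hp
  have e4 := c40e_4_nn hn hp
  have e5 := c40e_5_nn hn hp
  have e6 := c40e_6_nn hn hp
  have e7 := c40e_7_nn hn hp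
  have e8 := c40e_8_nn hn hp
  have e9 := c40e_9_nn hn hp
  have e10 := c40e_10_nn hn hp
  have h2 : 0 ≤ 1 - t := by linarith
  exact add_nonneg (mul_nonneg h2 (by positivity)) (by positivity)

noncomputable def c40a_5 (n p : ℝ) : ℝ :=
  n ^ 4 + 8 * n ^ 3 * p + 24 * n ^ 2 * p ^ 2 + 32 * n * p ^ 3 + 16 * p ^ 4 + 18 * n ^ 3 + 108
  * n ^ 2 * p + 216 * n * p ^ 2 + 144 * p ^ 3 + 243 / 2 * n ^ 2 + 486 * n * p + 486 * p ^ 2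
  + 729 / 2 * n + 729 * p + 6529 / 16

theorem c40a_5_nn {n p : ℝ} (hn : 0 ≤ n) (hp : 0 ≤ p) : 0 ≤ c40a_5 n p := by
  unfold c40a_5; positivity

noncomputable def c40a_6 (n p : ℝ) : ℝ :=
  n ^ 4 + 8 * n ^ 3 * p + 24 * n ^ 2 * p ^ 2 + 32 * n * p ^ 3 + 16 * p ^ 4 + 18 * n ^ 3 + 108
  * n ^ 2 * p + 216 * n * p ^ 2 + 144 * p ^ 3 + 243 / 2 * n ^ 2 + 486 * n * p + 486 * p ^ 2
  + 729 / 2 * n + 729 * p + 6033 / 16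

theorem c40a_6_nn {n p : ℝ} (hn : 0 ≤ n) (hp : 0 ≤ p) : 0 ≤ c40a_6 n p := by
  unfold c40a_6; positivity

theorem c40a_nn {n p t : ℝ} (hn : 0 ≤ n) (hp : 0 ≤ p) (h0 : 0 < t) (h1 : t ≤ 1) :
    0 ≤ (1 - t) * (c40a_5 n p * t ^ 5) + c40a_6 n p * t ^ 6 := by
  have e5 := c40a_5_nn hn hp
  have e6 := c40a_6_nn hn hp
  have h2 : 0 ≤ 1 - t := by linarith
  exact add_nonneg (mul_nonneg h2 (by positivity)) (by positivity)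

noncomputable def c40b_0 (n p : ℝ) : ℝ :=
  24

theorem c40b_0_nn {n p : ℝ} (hn : 0 ≤ n) (hp : 0 ≤ p) : 0 ≤ c40b_0 n p := by
  unfold c40b_0; positivity

noncomputable def c40b_1 (n p : ℝ) : ℝ :=
  24 * n + 48 * p + 132

theorem c40b_1_nn {n p : ℝ} (hn : 0 ≤ n) (hp : 0 ≤ p) : 0 ≤ c40b_1 n p := by
  unfold c40b_1; positivity

noncomputable def c40b_2 (n p : ℝ) : ℝ :=
  12 * n ^ 2 + 48 * n * p + 48 * p ^ 2 + 132 * n + 264 * p + 335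

theorem c40b_2_nn {n p : ℝ} (hn : 0 ≤ n) (hp : 0 ≤ p) : 0 ≤ c40b_2 n p := by
  unfold c40b_2; positivity

noncomputable def c40b_3 (n p : ℝ) : ℝ :=
  4 * n ^ 3 + 24 * n ^ 2 * p + 48 * n * p ^ 2 + 32 * p ^ 3 + 66 * n ^ 2 + 264 * n * p + 264 *
  p ^ 2 + 343 * n + 686 * p + 1111 / 2

theorem c40b_3_nn {n p : ℝ} (hn : 0 ≤ n) (hp : 0 ≤ p) : 0 ≤ c40b_3 n p := by
  unfold c40b_3; positivity

noncomputable def c40b_4 (n p : ℝ) : ℝ :=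
  n ^ 4 + 8 * n ^ 3 * p + 24 * n ^ 2 * p ^ 2 + 32 * n * p ^ 3 + 16 * p ^ 4 + 22 * n ^ 3 + 132
  * n ^ 2 * p + 264 * n * p ^ 2 + 176 * p ^ 3 + 351 / 2 * n ^ 2 + 702 * n * p + 702 * p ^ 2
  + 1199 / 2 * n + 1199 * p + 11785 / 16

theorem c40b_4_nn {n p : ℝ} (hn : 0 ≤ n) (hp : 0 ≤ p) : 0 ≤ c40b_4 n p := by
  unfold c40b_4; positivity

noncomputable def c40b_5 (n p : ℝ) : ℝ :=
  n ^ 4 + 8 * n ^ 3 * p + 24 * n ^ 2 * p ^ 2 + 32 * n * p ^ 3 + 16 * p ^ 4 + 18 * n ^ 3 + 108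
  * n ^ 2 * p + 216 * n * p ^ 2 + 144 * p ^ 3 + 243 / 2 * n ^ 2 + 486 * n * p + 486 * p ^ 2
  + 729 / 2 * n + 729 * p + 6529 / 16

theorem c40b_5_nn {n p : ℝ} (hn : 0 ≤ n) (hp : 0 ≤ p) : 0 ≤ c40b_5 n p := by
  unfold c40b_5; positivity

noncomputable def c40b_6 (n p : ℝ) : ℝ :=
  n ^ 4 + 8 * n ^ 3 * p + 24 * n ^ 2 * p ^ 2 + 32 * n * p ^ 3 + 16 * p ^ 4 + 18 * n ^ 3 + 108
  * n ^ 2 * p + 216 * n * p ^ 2 + 144 * p ^ 3 + 243 / 2 * n ^ 2 + 486 * n * p + 486 * p ^ 2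
  + 729 / 2 * n + 729 * p + 6033 / 16

theorem c40b_6_nn {n p : ℝ} (hn : 0 ≤ n) (hp : 0 ≤ p) : 0 ≤ c40b_6 n p := by
  unfold c40b_6; positivity

theorem c40b_nn {n p t : ℝ} (hn : 0 ≤ n) (hp : 0 ≤ p) (h0 : 0 < t) (h1 : t ≤ 1) :
    0 ≤ (1 - t) * (c40b_0 n p * t ^ 0 + c40b_1 n p * t ^ 1 + c40b_2 n p * t ^ 2 + c40b_3 n p * t ^ 3
      + c40b_4 n p * t ^ 4 + c40b_5 n p * t ^ 5) + c40b_6 n p * t ^ 6 := by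
  have e0 := c40b_0_nn hn hp
  have e1 := c40b_1_nn hn hp
  have e2 := c40b_2_nn hn hp
  have e3 := c40b_3_nn hn hp
  have e4 := c40b_4_nn hn hp
  have e5 := c40b_5_nn hn hp
  have e6 := c40b_6_nn hn hp
  have h2 : 0 ≤ 1 - t := by linarith
  exact add_nonneg (mul_nonneg h2 (by positivity)) (by positivity)

noncomputable def c40s (n t : ℝ) : ℝ :=
  5 / 2 * t ^ 5 * n ^ 3 + 1 / 2 * t ^ 4 * n ^ 4 + 23 / 2 * t ^ 4 * n ^ 3 + 67 * t ^ 4 * n ^ 2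
  + 1 / 2 * t ^ 3 * n ^ 3 + 13 * t ^ 5 + 361 / 2 * t ^ 4 * n + 10 * t ^ 3 * n ^ 2 + 407 / 2
  * t ^ 4 + 27 * t ^ 3 * n + 41 * t ^ 3

theorem c40s_nn {n t : ℝ} (hn : 0 ≤ n) (h0 : 0 < t) : 0 ≤ c40s n t := by
  unfold c40s; positivity

end Pool.Agent.KIQ.POLY

namespace Pool.Agent.KIQ

open POLY

theorem PC4_0 {a q A B t : ℝ} (hq : 5 / 4 ≤ q) (ha : 2 * q + 2 ≤ a)
    (hA : (3 * q - 2) * a ≤ (a ^ 2 - q ^ 2) * A) (hB : q * (3 * q - 2) ≤ (a ^ 2 - q ^ 2) * B)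
    (h0 : 0 < t) (h1 : t ≤ 1) :
    31 * t ^ 5 * (1 + (A + B) * t) + 2 * t ^ 4 * (B + A * t + t ^ 2) ≤
      (pp 0 a q (iniC A B) 4 0).eval t := by
  obtain ⟨p, hp, rfl⟩ : ∃ p : ℝ, 0 ≤ p ∧ q = 5 / 4 + p := ⟨q - 5 / 4, by linarith, by ring⟩
  obtain ⟨n, hn, rfl⟩ : ∃ n : ℝ, 0 ≤ n ∧ a = 2 * (5 / 4 + p) + 2 + n :=
    ⟨a - (2 * (5 / 4 + p) + 2), by linarith, by ring⟩
  simp only [fc_4_0, eval_PL, evL]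
  have hc : 0 < (2 * (5 / 4 + p) + 2 + n) ^ 2 - (5 / 4 + p) ^ 2 := by nlinarith
  refine fin_aux hc (sub_nonneg.2 hA) (sub_nonneg.2 hB)
    (add_nonneg (c40e_nn hn hp h0 h1) (mul_nonneg (c40s_nn hn h0)
      (sq_nonneg ((2 * (5 / 4 + p) + 2 + n) * t - 3))))
    (c40a_nn hn hp h0 h1) (c40b_nn hn hp h0 h1) ?_
  simp only [c40e_0, c40e_1, c40e_2, c40e_3, c40e_4, c40e_5, c40e_6, c40e_7, c40e_8, c40e_9, c40e_10,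
    c40a_5, c40a_6, c40b_0, c40b_1, c40b_2, c40b_3, c40b_4, c40b_5, c40b_6, c40s, fc_4_0_0,
    fc_4_0_1, fc_4_0_2, fc_4_0_3, fc_4_0_4, fc_4_0_5, fc_4_0_6, fc_4_0_7, fc_4_0_8,
    fc_4_0_9, fc_4_0_10]
  ring

end Pool.Agent.KIQ

namespace Pool.Agent.KIQ.POLY

noncomputable def c41e_0 (n p : ℝ) : ℝ :=
  288 * p ^ 2 + 528 * p + 210

theorem c41e_0_nn {n p : ℝ} (hn : 0 ≤ n) (hp : 0 ≤ p) : 0 ≤ c41e_0 n p := by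
  unfold c41e_0; positivity

noncomputable def c41e_1 (n p : ℝ) : ℝ :=
  288 * n * p ^ 2 + 576 * p ^ 3 + 528 * n * p + 2640 * p ^ 2 + 210 * n + 3324 * p + 1155

theorem c41e_1_nn {n p : ℝ} (hn : 0 ≤ n) (hp : 0 ≤ p) : 0 ≤ c41e_1 n p := by
  unfold c41e_1; positivity

noncomputable def c41e_2 (n p : ℝ) : ℝ :=
  144 * n ^ 2 * p ^ 2 + 576 * n * p ^ 3 + 576 * p ^ 4 + 264 * n ^ 2 * p + 2640 * n * p ^ 2 +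
  4260 * p ^ 3 + 105 * n ^ 2 + 3324 * n * p + 10443 * p ^ 2 + 1155 * n + 39771 / 4 * p +
  48405 / 16

theorem c41e_2_nn {n p : ℝ} (hn : 0 ≤ n) (hp : 0 ≤ p) : 0 ≤ c41e_2 n p := by
  unfold c41e_2; positivity

noncomputable def c41e_3 (n p : ℝ) : ℝ :=
  48 * n ^ 3 * p ^ 2 + 288 * n ^ 2 * p ^ 3 + 576 * n * p ^ 4 + 384 * p ^ 5 + 88 * n ^ 3 * p +
  1320 * n ^ 2 * p ^ 2 + 4260 * n * p ^ 3 + 3944 * p ^ 4 + 8 * n ^ 3 + 1662 * n ^ 2 * p +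
  10539 * n * p ^ 2 + 14908 * p ^ 3 + 453 / 2 * n ^ 2 + 40475 / 4 * n * p + 25666 * p ^ 2 +
  36997 / 16 * n + 79427 / 4 * p + 172095 / 32

theorem c41e_3_nn {n p : ℝ} (hn : 0 ≤ n) (hp : 0 ≤ p) : 0 ≤ c41e_3 n p := by
  unfold c41e_3; positivity

noncomputable def c41e_4 (n p : ℝ) : ℝ :=
  12 * n ^ 4 * p ^ 2 + 96 * n ^ 3 * p ^ 3 + 288 * n ^ 2 * p ^ 4 + 384 * n * p ^ 5 + 192 * p ^
  6 + 22 * n ^ 4 * p + 440 * n ^ 3 * p ^ 2 + 2130 * n ^ 2 * p ^ 3 + 3944 * n * p ^ 4 + 2536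
  * p ^ 5 + 35 / 4 * n ^ 4 + 590 * n ^ 3 * p + 10635 / 2 * n ^ 2 * p ^ 2 + 15100 * n * p ^ 3
  + 13222 * p ^ 4 + 133 / 2 * n ^ 3 + 44923 / 8 * n ^ 2 * p + 26546 * n * p ^ 2 + 34581 * p
  ^ 3 + 16085 / 32 * n ^ 2 + 88035 / 4 * n * p + 94701 / 2 * p ^ 2 + 59423 / 32 * n +
  1012905 / 32 * p + 520835 / 128

theorem c41e_4_nn {n p : ℝ} (hn : 0 ≤ n) (hp : 0 ≤ p) : 0 ≤ c41e_4 n p := by
  unfold c41e_4; positivity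

noncomputable def c41e_5 (n p : ℝ) : ℝ :=
  12 * n ^ 5 * p + 132 * n ^ 4 * p ^ 2 + 588 * n ^ 3 * p ^ 3 + 1320 * n ^ 2 * p ^ 4 + 1488 * n
  * p ^ 5 + 672 * p ^ 6 + 214 * n ^ 4 * p + 2233 * n ^ 3 * p ^ 2 + 8082 * n ^ 2 * p ^ 3 +
  12572 * n * p ^ 4 + 7256 * p ^ 5 + 281 / 4 * n ^ 4 + 6921 / 4 * n ^ 3 * p + 29757 / 2 * n
  ^ 2 * p ^ 2 + 38602 * n * p ^ 3 + 30984 * p ^ 4 + 8147 / 16 * n ^ 3 + 62179 / 8 * n ^ 2 *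
  p + 96499 / 2 * n * p ^ 2 + 64887 * p ^ 3 + 30693 / 16 * n ^ 2 + 340089 / 16 * n * p +
  518557 / 8 * p ^ 2 + 206003 / 64 * n + 826503 / 32 * p + 105509 / 64

theorem c41e_5_nn {n p : ℝ} (hn : 0 ≤ n) (hp : 0 ≤ p) : 0 ≤ c41e_5 n p := by
  unfold c41e_5; positivity

noncomputable def c41e_6 (n p : ℝ) : ℝ :=
  2 * n ^ 6 + 52 * n ^ 5 * p + 372 * n ^ 4 * p ^ 2 + 1292 * n ^ 3 * p ^ 3 + 2472 * n ^ 2 * p ^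
  4 + 2512 * n * p ^ 5 + 1056 * p ^ 6 + 44 * n ^ 5 + 1086 * n ^ 4 * p + 6609 * n ^ 3 * p ^ 2
  + 17910 * n ^ 2 * p ^ 3 + 23468 * n * p ^ 4 + 12200 * p ^ 5 + 2149 / 4 * n ^ 4 + 37049 / 4
  * n ^ 3 * p + 86907 / 2 * n ^ 2 * p ^ 2 + 82058 * n * p ^ 3 + 55732 * p ^ 4 + 43419 / 16 *
  n ^ 3 + 299881 / 8 * n ^ 2 * p + 252295 / 2 * n * p ^ 2 + 126053 * p ^ 3 + 48109 / 8 * n ^
  2 + 1197833 / 16 * n * p + 1114757 / 8 * p ^ 2 + 316855 / 64 * n + 1938193 / 32 * p + 1253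
  / 8

theorem c41e_6_nn {n p : ℝ} (hn : 0 ≤ n) (hp : 0 ≤ p) : 0 ≤ c41e_6 n p := by
  unfold c41e_6; positivity

noncomputable def c41e_7 (n p : ℝ) : ℝ :=
  2 * n ^ 6 + 56 * n ^ 5 * p + 412 * n ^ 4 * p ^ 2 + 1448 * n ^ 3 * p ^ 3 + 2768 * n ^ 2 * p ^
  4 + 2784 * n * p ^ 5 + 1152 * p ^ 6 + 64 * n ^ 5 + 1418 * n ^ 4 * p + 8398 * n ^ 3 * p ^ 2
  + 22278 * n ^ 2 * p ^ 3 + 28496 * n * p ^ 4 + 14424 * p ^ 5 + 4327 / 4 * n ^ 4 + 29527 / 2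
  * n ^ 3 * p + 125733 / 2 * n ^ 2 * p ^ 2 + 111520 * n * p ^ 3 + 72302 * p ^ 4 + 61789 / 8
  * n ^ 3 + 571705 / 8 * n ^ 2 * p + 201761 * n * p ^ 2 + 182847 * p ^ 3 + 840509 / 32 * n ^
  2 + 1297505 / 8 * n * p + 946929 / 4 * p ^ 2 + 325831 / 8 * n + 4441799 / 32 * p + 2714387
  / 128

theorem c41e_7_nn {n p : ℝ} (hn : 0 ≤ n) (hp : 0 ≤ p) : 0 ≤ c41e_7 n p := by
  unfold c41e_7; positivity

noncomputable def c41e_8 (n p : ℝ) : ℝ :=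
  2 * n ^ 6 + 56 * n ^ 5 * p + 412 * n ^ 4 * p ^ 2 + 1448 * n ^ 3 * p ^ 3 + 2768 * n ^ 2 * p ^
  4 + 2784 * n * p ^ 5 + 1152 * p ^ 6 + 64 * n ^ 5 + 1448 * n ^ 4 * p + 8638 * n ^ 3 * p ^ 2
  + 22968 * n ^ 2 * p ^ 3 + 29336 * n * p ^ 4 + 14784 * p ^ 5 + 4789 / 4 * n ^ 4 + 32455 / 2
  * n ^ 3 * p + 68832 * n ^ 2 * p ^ 2 + 121240 * n * p ^ 3 + 77744 * p ^ 4 + 78421 / 8 * n ^
  3 + 174653 / 2 * n ^ 2 * p + 239848 * n * p ^ 2 + 211848 * p ^ 3 + 635355 / 16 * n ^ 2 +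
  1796781 / 8 * n * p + 615989 / 2 * p ^ 2 + 2480749 / 32 * n + 884979 / 4 * p + 459793 / 8

theorem c41e_8_nn {n p : ℝ} (hn : 0 ≤ n) (hp : 0 ≤ p) : 0 ≤ c41e_8 n p := by
  unfold c41e_8; positivity

noncomputable def c41e_9 (n p : ℝ) : ℝ :=
  2 * n ^ 6 + 56 * n ^ 5 * p + 412 * n ^ 4 * p ^ 2 + 1448 * n ^ 3 * p ^ 3 + 2768 * n ^ 2 * p ^
  4 + 2784 * n * p ^ 5 + 1152 * p ^ 6 + 64 * n ^ 5 + 1448 * n ^ 4 * p + 8638 * n ^ 3 * p ^ 2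
  + 22968 * n ^ 2 * p ^ 3 + 29336 * n * p ^ 4 + 14784 * p ^ 5 + 4789 / 4 * n ^ 4 + 32671 / 2
  * n ^ 3 * p + 69480 * n ^ 2 * p ^ 2 + 122428 * n * p ^ 3 + 78392 * p ^ 4 + 80845 / 8 * n ^
  3 + 181205 / 2 * n ^ 2 * p + 248923 * n * p ^ 2 + 218832 * p ^ 3 + 700803 / 16 * n ^ 2 +
  1975395 / 8 * n * p + 669035 / 2 * p ^ 2 + 3058831 / 32 * n + 1058133 / 4 * p + 2673445 /
  32

theorem c41e_9_nn {n p : ℝ} (hn : 0 ≤ n) (hp : 0 ≤ p) : 0 ≤ c41e_9 n p := by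
  unfold c41e_9; positivity

noncomputable def c41e_10 (n p : ℝ) : ℝ :=
  2 * n ^ 6 + 56 * n ^ 5 * p + 412 * n ^ 4 * p ^ 2 + 1448 * n ^ 3 * p ^ 3 + 2768 * n ^ 2 * p ^
  4 + 2784 * n * p ^ 5 + 1152 * p ^ 6 + 64 * n ^ 5 + 1448 * n ^ 4 * p + 8638 * n ^ 3 * p ^ 2
  + 22968 * n ^ 2 * p ^ 3 + 29336 * n * p ^ 4 + 14784 * p ^ 5 + 4789 / 4 * n ^ 4 + 32671 / 2
  * n ^ 3 * p + 69480 * n ^ 2 * p ^ 2 + 122428 * n * p ^ 3 + 78392 * p ^ 4 + 80845 / 8 * n ^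
  3 + 181541 / 2 * n ^ 2 * p + 249595 * n * p ^ 2 + 219336 * p ^ 3 + 706851 / 16 * n ^ 2 +
  1999587 / 8 * n * p + 676511 / 2 * p ^ 2 + 3167695 / 32 * n + 1094127 / 4 * p + 2899489 /
  32

theorem c41e_10_nn {n p : ℝ} (hn : 0 ≤ n) (hp : 0 ≤ p) : 0 ≤ c41e_10 n p := by
  unfold c41e_10; positivity

theorem c41e_nn {n p t : ℝ} (hn : 0 ≤ n) (hp : 0 ≤ p) (h0 : 0 < t) (h1 : t ≤ 1) :
    0 ≤ (1 - t) * (c41e_0 n p * t ^ 0 + c41e_1 n p * t ^ 1 + c41e_2 n p * t ^ 2 + c41e_3 n p * t ^ 3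
      + c41e_4 n p * t ^ 4 + c41e_5 n p * t ^ 5 + c41e_6 n p * t ^ 6 + c41e_7 n p * t ^ 7 +
      c41e_8 n p * t ^ 8 + c41e_9 n p * t ^ 9) + c41e_10 n p * t ^ 10 := by
  have e0 := c41e_0_nn hn hp
  have e1 := c41e_1_nn hn hp
  have e2 := c41e_2_nn hn hp
  have e3 := c41e_3_nn hn hp
  have e4 := c41e_4_nn hn hp
  have e5 := c41e_5_nn hn hp
  have e6 := c41e_6_nn hn hp
  have e7 := c41e_7_nn hn hp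
  have e8 := c41e_8_nn hn hp
  have e9 := c41e_9_nn hn hp
  have e10 := c41e_10_nn hn hp
  have h2 : 0 ≤ 1 - t := by linarith
  exact add_nonneg (mul_nonneg h2 (by positivity)) (by positivity)

noncomputable def c41a_5 (n p : ℝ) : ℝ :=
  4 * n ^ 4 + 32 * n ^ 3 * p + 96 * n ^ 2 * p ^ 2 + 128 * n * p ^ 3 + 64 * p ^ 4 + 72 * n ^ 3
  + 426 * n ^ 2 * p + 840 * n * p ^ 2 + 552 * p ^ 3 + 949 / 2 * n ^ 2 + 1844 * n * p + 1790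
  * p ^ 2 + 2709 / 2 * n + 5191 / 2 * p + 11307 / 8

theorem c41a_5_nn {n p : ℝ} (hn : 0 ≤ n) (hp : 0 ≤ p) : 0 ≤ c41a_5 n p := by
  unfold c41a_5; positivity

noncomputable def c41a_6 (n p : ℝ) : ℝ :=
  4 * n ^ 4 + 36 * n ^ 3 * p + 120 * n ^ 2 * p ^ 2 + 176 * n * p ^ 3 + 96 * p ^ 4 + 83 * n ^ 3
  + 546 * n ^ 2 * p + 1188 * n * p ^ 2 + 856 * p ^ 3 + 623 * n ^ 2 + 2649 * n * p + 2806 * p
  ^ 2 + 7899 / 4 * n + 8113 / 2 * p + 8675 / 4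

theorem c41a_6_nn {n p : ℝ} (hn : 0 ≤ n) (hp : 0 ≤ p) : 0 ≤ c41a_6 n p := by
  unfold c41a_6; positivity

noncomputable def c41a_7 (n p : ℝ) : ℝ :=
  4 * n ^ 4 + 36 * n ^ 3 * p + 120 * n ^ 2 * p ^ 2 + 176 * n * p ^ 3 + 96 * p ^ 4 + 83 * n ^ 3
  + 564 * n ^ 2 * p + 1260 * n * p ^ 2 + 928 * p ^ 3 + 1315 / 2 * n ^ 2 + 2949 * n * p +
  3268 * p ^ 2 + 9141 / 4 * n + 4982 * p + 22339 / 8

theorem c41a_7_nn {n p : ℝ} (hn : 0 ≤ n) (hp : 0 ≤ p) : 0 ≤ c41a_7 n p := by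
  unfold c41a_7; positivity

noncomputable def c41a_8 (n p : ℝ) : ℝ :=
  4 * n ^ 4 + 36 * n ^ 3 * p + 120 * n ^ 2 * p ^ 2 + 176 * n * p ^ 3 + 96 * p ^ 4 + 83 * n ^ 3
  + 564 * n ^ 2 * p + 1260 * n * p ^ 2 + 928 * p ^ 3 + 1315 / 2 * n ^ 2 + 2997 * n * p +
  3364 * p ^ 2 + 9429 / 4 * n + 5342 * p + 24931 / 8

theorem c41a_8_nn {n p : ℝ} (hn : 0 ≤ n) (hp : 0 ≤ p) : 0 ≤ c41a_8 n p := by
  unfold c41a_8; positivity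

noncomputable def c41a_9 (n p : ℝ) : ℝ :=
  4 * n ^ 4 + 36 * n ^ 3 * p + 120 * n ^ 2 * p ^ 2 + 176 * n * p ^ 3 + 96 * p ^ 4 + 83 * n ^ 3
  + 564 * n ^ 2 * p + 1260 * n * p ^ 2 + 928 * p ^ 3 + 1315 / 2 * n ^ 2 + 2997 * n * p +
  3364 * p ^ 2 + 9429 / 4 * n + 5402 * p + 25531 / 8

theorem c41a_9_nn {n p : ℝ} (hn : 0 ≤ n) (hp : 0 ≤ p) : 0 ≤ c41a_9 n p := by
  unfold c41a_9; positivity

theorem c41a_nn {n p t : ℝ} (hn : 0 ≤ n) (hp : 0 ≤ p) (h0 : 0 < t) (h1 : t ≤ 1) :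
    0 ≤ (1 - t) * (c41a_5 n p * t ^ 5 + c41a_6 n p * t ^ 6 + c41a_7 n p * t ^ 7 + c41a_8 n p * t ^
      8) + c41a_9 n p * t ^ 9 := by
  have e5 := c41a_5_nn hn hp
  have e6 := c41a_6_nn hn hp
  have e7 := c41a_7_nn hn hp
  have e8 := c41a_8_nn hn hp
  have e9 := c41a_9_nn hn hp
  have h2 : 0 ≤ 1 - t := by linarith
  exact add_nonneg (mul_nonneg h2 (by positivity)) (by positivity)

noncomputable def c41b_0 (n p : ℝ) : ℝ :=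
  96

theorem c41b_0_nn {n p : ℝ} (hn : 0 ≤ n) (hp : 0 ≤ p) : 0 ≤ c41b_0 n p := by
  unfold c41b_0; positivity

noncomputable def c41b_1 (n p : ℝ) : ℝ :=
  96 * n + 192 * p + 528

theorem c41b_1_nn {n p : ℝ} (hn : 0 ≤ n) (hp : 0 ≤ p) : 0 ≤ c41b_1 n p := by
  unfold c41b_1; positivity

noncomputable def c41b_2 (n p : ℝ) : ℝ :=
  48 * n ^ 2 + 192 * n * p + 192 * p ^ 2 + 528 * n + 1068 * p + 1383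

theorem c41b_2_nn {n p : ℝ} (hn : 0 ≤ n) (hp : 0 ≤ p) : 0 ≤ c41b_2 n p := by
  unfold c41b_2; positivity

noncomputable def c41b_3 (n p : ℝ) : ℝ :=
  16 * n ^ 3 + 96 * n ^ 2 * p + 192 * n * p ^ 2 + 128 * p ^ 3 + 264 * n ^ 2 + 1068 * n * p +
  1080 * p ^ 2 + 1415 * n + 2896 * p + 4917 / 2

theorem c41b_3_nn {n p : ℝ} (hn : 0 ≤ n) (hp : 0 ≤ p) : 0 ≤ c41b_3 n p := by
  unfold c41b_3; positivity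

noncomputable def c41b_4 (n p : ℝ) : ℝ :=
  4 * n ^ 4 + 32 * n ^ 3 * p + 96 * n ^ 2 * p ^ 2 + 128 * n * p ^ 3 + 64 * p ^ 4 + 88 * n ^ 3
  + 534 * n ^ 2 * p + 1080 * n * p ^ 2 + 728 * p ^ 3 + 1447 / 2 * n ^ 2 + 2960 * n * p +
  3026 * p ^ 2 + 5269 / 2 * n + 10897 / 2 * p + 28705 / 8

theorem c41b_4_nn {n p : ℝ} (hn : 0 ≤ n) (hp : 0 ≤ p) : 0 ≤ c41b_4 n p := by
  unfold c41b_4; positivity

noncomputable def c41b_5 (n p : ℝ) : ℝ :=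
  4 * n ^ 4 + 36 * n ^ 3 * p + 120 * n ^ 2 * p ^ 2 + 176 * n * p ^ 3 + 96 * p ^ 4 + 83 * n ^ 3
  + 558 * n ^ 2 * p + 1236 * n * p ^ 2 + 904 * p ^ 3 + 656 * n ^ 2 + 2925 * n * p + 3226 * p
  ^ 2 + 9363 / 4 * n + 10379 / 2 * p + 6355 / 2

theorem c41b_5_nn {n p : ℝ} (hn : 0 ≤ n) (hp : 0 ≤ p) : 0 ≤ c41b_5 n p := by
  unfold c41b_5; positivity

noncomputable def c41b_6 (n p : ℝ) : ℝ :=
  4 * n ^ 4 + 36 * n ^ 3 * p + 120 * n ^ 2 * p ^ 2 + 176 * n * p ^ 3 + 96 * p ^ 4 + 83 * n ^ 3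
  + 564 * n ^ 2 * p + 1260 * n * p ^ 2 + 928 * p ^ 3 + 1315 / 2 * n ^ 2 + 2985 * n * p +
  3340 * p ^ 2 + 9417 / 4 * n + 5330 * p + 25399 / 8

theorem c41b_6_nn {n p : ℝ} (hn : 0 ≤ n) (hp : 0 ≤ p) : 0 ≤ c41b_6 n p := by
  unfold c41b_6; positivity

noncomputable def c41b_7 (n p : ℝ) : ℝ :=
  4 * n ^ 4 + 36 * n ^ 3 * p + 120 * n ^ 2 * p ^ 2 + 176 * n * p ^ 3 + 96 * p ^ 4 + 83 * n ^ 3
  + 564 * n ^ 2 * p + 1260 * n * p ^ 2 + 928 * p ^ 3 + 1315 / 2 * n ^ 2 + 2997 * n * p +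
  3364 * p ^ 2 + 9429 / 4 * n + 5390 * p + 25507 / 8

theorem c41b_7_nn {n p : ℝ} (hn : 0 ≤ n) (hp : 0 ≤ p) : 0 ≤ c41b_7 n p := by
  unfold c41b_7; positivity

noncomputable def c41b_8 (n p : ℝ) : ℝ :=
  4 * n ^ 4 + 36 * n ^ 3 * p + 120 * n ^ 2 * p ^ 2 + 176 * n * p ^ 3 + 96 * p ^ 4 + 83 * n ^ 3
  + 564 * n ^ 2 * p + 1260 * n * p ^ 2 + 928 * p ^ 3 + 1315 / 2 * n ^ 2 + 2997 * n * p +
  3364 * p ^ 2 + 9429 / 4 * n + 5402 * p + 25531 / 8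

theorem c41b_8_nn {n p : ℝ} (hn : 0 ≤ n) (hp : 0 ≤ p) : 0 ≤ c41b_8 n p := by
  unfold c41b_8; positivity

theorem c41b_nn {n p t : ℝ} (hn : 0 ≤ n) (hp : 0 ≤ p) (h0 : 0 < t) (h1 : t ≤ 1) :
    0 ≤ (1 - t) * (c41b_0 n p * t ^ 0 + c41b_1 n p * t ^ 1 + c41b_2 n p * t ^ 2 + c41b_3 n p * t ^ 3
      + c41b_4 n p * t ^ 4 + c41b_5 n p * t ^ 5 + c41b_6 n p * t ^ 6 + c41b_7 n p * t ^ 7) +
      c41b_8 n p * t ^ 8 := by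
  have e0 := c41b_0_nn hn hp
  have e1 := c41b_1_nn hn hp
  have e2 := c41b_2_nn hn hp
  have e3 := c41b_3_nn hn hp
  have e4 := c41b_4_nn hn hp
  have e5 := c41b_5_nn hn hp
  have e6 := c41b_6_nn hn hp
  have e7 := c41b_7_nn hn hp
  have e8 := c41b_8_nn hn hp
  have h2 : 0 ≤ 1 - t := by linarith
  exact add_nonneg (mul_nonneg h2 (by positivity)) (by positivity)

noncomputable def c41s (n t : ℝ) : ℝ :=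
  7 * t ^ 5 * n ^ 3 + 2 * t ^ 4 * n ^ 4 + 46 * t ^ 4 * n ^ 3 + 256 * t ^ 4 * n ^ 2 + 3 * t ^ 3
  * n ^ 3 + 88 * t ^ 5 + 608 * t ^ 4 * n + 39 * t ^ 3 * n ^ 2 + 420 * t ^ 4 + 87 * t ^ 3 * n

theorem c41s_nn {n t : ℝ} (hn : 0 ≤ n) (h0 : 0 < t) : 0 ≤ c41s n t := by
  unfold c41s; positivity

end Pool.Agent.KIQ.POLY

namespace Pool.Agent.KIQ

open POLY

theorem PC4_1 {a q A B t : ℝ} (hq : 5 / 4 ≤ q) (ha : 2 * q + 2 ≤ a)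
    (hA : (3 * q - 2) * a ≤ (a ^ 2 - q ^ 2) * A) (hB : q * (3 * q - 2) ≤ (a ^ 2 - q ^ 2) * B)
    (h0 : 0 < t) (h1 : t ≤ 1) :
    31 * t ^ 5 * (1 + (A + B) * t) + 4 * t ^ 4 * (B + A * t + t ^ 2) ≤
      (pp 0 a q (iniC A B) 4 1).eval t := by
  obtain ⟨p, hp, rfl⟩ : ∃ p : ℝ, 0 ≤ p ∧ q = 5 / 4 + p := ⟨q - 5 / 4, by linarith, by ring⟩
  obtain ⟨n, hn, rfl⟩ : ∃ n : ℝ, 0 ≤ n ∧ a = 2 * (5 / 4 + p) + 2 + n :=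
    ⟨a - (2 * (5 / 4 + p) + 2), by linarith, by ring⟩
  simp only [fc_4_1, eval_PL, evL]
  have hc : 0 < (2 * (5 / 4 + p) + 2 + n) ^ 2 - (5 / 4 + p) ^ 2 := by nlinarith
  refine fin_aux hc (sub_nonneg.2 hA) (sub_nonneg.2 hB)
    (add_nonneg (c41e_nn hn hp h0 h1) (mul_nonneg (c41s_nn hn h0)
      (sq_nonneg ((2 * (5 / 4 + p) + 2 + n) * t - 3))))
    (c41a_nn hn hp h0 h1) (c41b_nn hn hp h0 h1) ?_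
  simp only [c41e_0, c41e_1, c41e_2, c41e_3, c41e_4, c41e_5, c41e_6, c41e_7, c41e_8, c41e_9, c41e_10,
    c41a_5, c41a_6, c41a_7, c41a_8, c41a_9, c41b_0, c41b_1, c41b_2, c41b_3, c41b_4, c41b_5,
    c41b_6, c41b_7, c41b_8, c41s, fc_4_1_0, fc_4_1_1, fc_4_1_2, fc_4_1_3, fc_4_1_4,
    fc_4_1_5, fc_4_1_6, fc_4_1_7, fc_4_1_8, fc_4_1_9, fc_4_1_10]
  ring

end Pool.Agent.KIQ

namespace Pool.Agent.KIQ.POLY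

noncomputable def c42e_0 (n p : ℝ) : ℝ :=
  432 * p ^ 2 + 792 * p + 315

theorem c42e_0_nn {n p : ℝ} (hn : 0 ≤ n) (hp : 0 ≤ p) : 0 ≤ c42e_0 n p := by
  unfold c42e_0; positivity

noncomputable def c42e_1 (n p : ℝ) : ℝ :=
  432 * n * p ^ 2 + 864 * p ^ 3 + 792 * n * p + 3960 * p ^ 2 + 315 * n + 4986 * p + 3465 / 2

theorem c42e_1_nn {n p : ℝ} (hn : 0 ≤ n) (hp : 0 ≤ p) : 0 ≤ c42e_1 n p := by
  unfold c42e_1; positivity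

noncomputable def c42e_2 (n p : ℝ) : ℝ :=
  216 * n ^ 2 * p ^ 2 + 864 * n * p ^ 3 + 864 * p ^ 4 + 396 * n ^ 2 * p + 3960 * n * p ^ 2 +
  6444 * p ^ 3 + 315 / 2 * n ^ 2 + 4986 * n * p + 15957 * p ^ 2 + 3465 / 2 * n + 61233 / 4 *
  p + 74865 / 16

theorem c42e_2_nn {n p : ℝ} (hn : 0 ≤ n) (hp : 0 ≤ p) : 0 ≤ c42e_2 n p := by
  unfold c42e_2; positivity

noncomputable def c42e_3 (n p : ℝ) : ℝ :=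
  72 * n ^ 3 * p ^ 2 + 432 * n ^ 2 * p ^ 3 + 864 * n * p ^ 4 + 576 * p ^ 5 + 132 * n ^ 3 * p +
  1980 * n ^ 2 * p ^ 2 + 6444 * n * p ^ 3 + 6024 * p ^ 4 + 33 / 2 * n ^ 3 + 2493 * n ^ 2 * p
  + 16101 * n * p ^ 2 + 23244 * p ^ 3 + 1125 / 4 * n ^ 2 + 62289 / 4 * n * p + 40896 * p ^ 2
  + 60561 / 16 * n + 32235 * p + 282975 / 32

theorem c42e_3_nn {n p : ℝ} (hn : 0 ≤ n) (hp : 0 ≤ p) : 0 ≤ c42e_3 n p := by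
  unfold c42e_3; positivity

noncomputable def c42e_4 (n p : ℝ) : ℝ :=
  18 * n ^ 4 * p ^ 2 + 144 * n ^ 3 * p ^ 3 + 432 * n ^ 2 * p ^ 4 + 576 * n * p ^ 5 + 288 * p ^
  6 + 33 * n ^ 4 * p + 660 * n ^ 3 * p ^ 2 + 3222 * n ^ 2 * p ^ 3 + 6024 * n * p ^ 4 + 3912
  * p ^ 5 + 9 / 8 * n ^ 4 + 879 * n ^ 3 * p + 16245 / 2 * n ^ 2 * p ^ 2 + 23532 * n * p ^ 3
  + 21021 * p ^ 4 + 627 / 4 * n ^ 3 + 69585 / 8 * n ^ 2 * p + 42216 * n * p ^ 2 + 56748 * p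
  ^ 3 + 24945 / 32 * n ^ 2 + 35229 * n * p + 160315 / 2 * p ^ 2 + 151119 / 32 * n + 1761523
  / 32 * p + 2788961 / 256

theorem c42e_4_nn {n p : ℝ} (hn : 0 ≤ n) (hp : 0 ≤ p) : 0 ≤ c42e_4 n p := by
  unfold c42e_4; positivity

noncomputable def c42e_5 (n p : ℝ) : ℝ :=
  18 * n ^ 5 * p + 198 * n ^ 4 * p ^ 2 + 900 * n ^ 3 * p ^ 3 + 2088 * n ^ 2 * p ^ 4 + 2448 * n
  * p ^ 5 + 1152 * p ^ 6 + 13 / 2 * n ^ 5 + 335 * n ^ 4 * p + 3407 * n ^ 3 * p ^ 2 + 12726 *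
  n ^ 2 * p ^ 3 + 20604 * n * p ^ 4 + 12408 * p ^ 5 + 803 / 8 * n ^ 4 + 10363 / 4 * n ^ 3 *
  p + 47027 / 2 * n ^ 2 * p ^ 2 + 63513 * n * p ^ 3 + 53253 * p ^ 4 + 11997 / 16 * n ^ 3 +
  103449 / 8 * n ^ 2 * p + 326251 / 4 * n * p ^ 2 + 113624 * p ^ 3 + 21327 / 8 * n ^ 2 +
  303965 / 8 * n * p + 958163 / 8 * p ^ 2 + 117841 / 32 * n + 1688685 / 32 * p + 99941 / 256

theorem c42e_5_nn {n p : ℝ} (hn : 0 ≤ n) (hp : 0 ≤ p) : 0 ≤ c42e_5 n p := by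
  unfold c42e_5; positivity

noncomputable def c42e_6 (n p : ℝ) : ℝ :=
  2 * n ^ 6 + 74 * n ^ 5 * p + 572 * n ^ 4 * p ^ 2 + 2100 * n ^ 3 * p ^ 3 + 4266 * n ^ 2 * p ^
  4 + 4632 * n * p ^ 5 + 2088 * p ^ 6 + 133 / 2 * n ^ 5 + 1670 * n ^ 4 * p + 10571 * n ^ 3 *
  p ^ 2 + 30318 * n ^ 2 * p ^ 3 + 42510 * n * p ^ 4 + 23724 * p ^ 5 + 3143 / 4 * n ^ 4 +
  57023 / 4 * n ^ 3 * p + 285323 / 4 * n ^ 2 * p ^ 2 + 144918 * n * p ^ 3 + 212319 / 2 * p ^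
  4 + 58449 / 16 * n ^ 3 + 464819 / 8 * n ^ 2 * p + 215099 * n * p ^ 2 + 467693 / 2 * p ^ 3
  + 778557 / 128 * n ^ 2 + 3774809 / 32 * n * p + 8020083 / 32 * p ^ 2 + 296041 / 128 * n +
  6773979 / 64 * p + 1009897 / 512

theorem c42e_6_nn {n p : ℝ} (hn : 0 ≤ n) (hp : 0 ≤ p) : 0 ≤ c42e_6 n p := by
  unfold c42e_6; positivity

noncomputable def c42e_7 (n p : ℝ) : ℝ :=
  2 * n ^ 6 + 86 * n ^ 5 * p + 692 * n ^ 4 * p ^ 2 + 2586 * n ^ 3 * p ^ 3 + 5262 * n ^ 2 * p ^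
  4 + 5664 * n * p ^ 5 + 2520 * p ^ 6 + 219 / 2 * n ^ 5 + 2454 * n ^ 4 * p + 30159 / 2 * n ^
  3 * p ^ 2 + 42186 * n ^ 2 * p ^ 3 + 57624 * n * p ^ 4 + 31380 * p ^ 5 + 7769 / 4 * n ^ 4 +
  213183 / 8 * n ^ 3 * p + 472385 / 4 * n ^ 2 * p ^ 2 + 222353 * n * p ^ 3 + 310065 / 2 * p
  ^ 4 + 453341 / 32 * n ^ 3 + 1065617 / 8 * n ^ 2 * p + 1580323 / 4 * n * p ^ 2 + 766955 / 2
  * p ^ 3 + 6076175 / 128 * n ^ 2 + 4914801 / 16 * n * p + 15423693 / 32 * p ^ 2 + 4506939 /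
  64 * n + 17172773 / 64 * p + 17174023 / 512

theorem c42e_7_nn {n p : ℝ} (hn : 0 ≤ n) (hp : 0 ≤ p) : 0 ≤ c42e_7 n p := by
  unfold c42e_7; positivity

noncomputable def c42e_8 (n p : ℝ) : ℝ :=
  2 * n ^ 6 + 86 * n ^ 5 * p + 698 * n ^ 4 * p ^ 2 + 2634 * n ^ 3 * p ^ 3 + 5400 * n ^ 2 * p ^
  4 + 5832 * n * p ^ 5 + 2592 * p ^ 6 + 219 / 2 * n ^ 5 + 2565 * n ^ 4 * p + 32151 / 2 * n ^
  3 * p ^ 2 + 45480 * n ^ 2 * p ^ 3 + 62346 * n * p ^ 4 + 33840 * p ^ 5 + 17893 / 8 * n ^ 4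
  + 248007 / 8 * n ^ 3 * p + 137970 * n ^ 2 * p ^ 2 + 258870 * n * p ^ 3 + 178791 * p ^ 4 +
  622901 / 32 * n ^ 3 + 177905 * n ^ 2 * p + 513320 * n * p ^ 2 + 484887 * p ^ 3 + 2615189 /
  32 * n ^ 2 + 15342963 / 32 * n * p + 2794477 / 4 * p ^ 2 + 21006387 / 128 * n + 495220 * p
  + 32282027 / 256

theorem c42e_8_nn {n p : ℝ} (hn : 0 ≤ n) (hp : 0 ≤ p) : 0 ≤ c42e_8 n p := by
  unfold c42e_8; positivity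

noncomputable def c42e_9 (n p : ℝ) : ℝ :=
  2 * n ^ 6 + 86 * n ^ 5 * p + 698 * n ^ 4 * p ^ 2 + 2634 * n ^ 3 * p ^ 3 + 5400 * n ^ 2 * p ^
  4 + 5832 * n * p ^ 5 + 2592 * p ^ 6 + 219 / 2 * n ^ 5 + 2565 * n ^ 4 * p + 32247 / 2 * n ^
  3 * p ^ 2 + 45768 * n ^ 2 * p ^ 3 + 62874 * n * p ^ 4 + 34128 * p ^ 5 + 17893 / 8 * n ^ 4
  + 251703 / 8 * n ^ 3 * p + 141390 * n ^ 2 * p ^ 2 + 266649 * n * p ^ 3 + 184149 * p ^ 4 +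
  650789 / 32 * n ^ 3 + 189371 * n ^ 2 * p + 2202737 / 4 * n * p ^ 2 + 519117 * p ^ 3 +
  2991677 / 32 * n ^ 2 + 17702373 / 32 * n * p + 1598171 / 2 * p ^ 2 + 27677121 / 128 * n +
  2541073 / 4 * p + 51657929 / 256

theorem c42e_9_nn {n p : ℝ} (hn : 0 ≤ n) (hp : 0 ≤ p) : 0 ≤ c42e_9 n p := by
  unfold c42e_9; positivity

noncomputable def c42e_10 (n p : ℝ) : ℝ :=
  2 * n ^ 6 + 86 * n ^ 5 * p + 698 * n ^ 4 * p ^ 2 + 2634 * n ^ 3 * p ^ 3 + 5400 * n ^ 2 * p ^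
  4 + 5832 * n * p ^ 5 + 2592 * p ^ 6 + 219 / 2 * n ^ 5 + 2565 * n ^ 4 * p + 32247 / 2 * n ^
  3 * p ^ 2 + 45768 * n ^ 2 * p ^ 3 + 62874 * n * p ^ 4 + 34128 * p ^ 5 + 17893 / 8 * n ^ 4
  + 251703 / 8 * n ^ 3 * p + 141513 * n ^ 2 * p ^ 2 + 267141 * n * p ^ 3 + 184518 * p ^ 4 +
  650789 / 32 * n ^ 3 + 380341 / 2 * n ^ 2 * p + 2219957 / 4 * n * p ^ 2 + 523422 * p ^ 3 +
  3029315 / 32 * n ^ 2 + 18083181 / 32 * n * p + 6538439 / 8 * p ^ 2 + 29032089 / 128 * n +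
  10695037 / 16 * p + 28642405 / 128

theorem c42e_10_nn {n p : ℝ} (hn : 0 ≤ n) (hp : 0 ≤ p) : 0 ≤ c42e_10 n p := by
  unfold c42e_10; positivity

theorem c42e_nn {n p t : ℝ} (hn : 0 ≤ n) (hp : 0 ≤ p) (h0 : 0 < t) (h1 : t ≤ 1) :
    0 ≤ (1 - t) * (c42e_0 n p * t ^ 0 + c42e_1 n p * t ^ 1 + c42e_2 n p * t ^ 2 + c42e_3 n p * t ^ 3
      + c42e_4 n p * t ^ 4 + c42e_5 n p * t ^ 5 + c42e_6 n p * t ^ 6 + c42e_7 n p * t ^ 7 +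
      c42e_8 n p * t ^ 8 + c42e_9 n p * t ^ 9) + c42e_10 n p * t ^ 10 := by
  have e0 := c42e_0_nn hn hp
  have e1 := c42e_1_nn hn hp
  have e2 := c42e_2_nn hn hp
  have e3 := c42e_3_nn hn hp
  have e4 := c42e_4_nn hn hp
  have e5 := c42e_5_nn hn hp
  have e6 := c42e_6_nn hn hp
  have e7 := c42e_7_nn hn hp
  have e8 := c42e_8_nn hn hp
  have e9 := c42e_9_nn hn hp
  have e10 := c42e_10_nn hn hp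
  have h2 : 0 ≤ 1 - t := by linarith
  exact add_nonneg (mul_nonneg h2 (by positivity)) (by positivity)

noncomputable def c42a_5 (n p : ℝ) : ℝ :=
  6 * n ^ 4 + 48 * n ^ 3 * p + 144 * n ^ 2 * p ^ 2 + 192 * n * p ^ 3 + 96 * p ^ 4 + 108 * n ^
  3 + 630 * n ^ 2 * p + 1224 * n * p ^ 2 + 792 * p ^ 3 + 1389 / 2 * n ^ 2 + 2616 * n * p +
  2457 * p ^ 2 + 3753 / 2 * n + 3418 * p + 28671 / 16

theorem c42a_5_nn {n p : ℝ} (hn : 0 ≤ n) (hp : 0 ≤ p) : 0 ≤ c42a_5 n p := by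
  unfold c42a_5; positivity

noncomputable def c42a_6 (n p : ℝ) : ℝ :=
  6 * n ^ 4 + 60 * n ^ 3 * p + 216 * n ^ 2 * p ^ 2 + 336 * n * p ^ 3 + 192 * p ^ 4 + 141 * n ^
  3 + 990 * n ^ 2 * p + 2256 * n * p ^ 2 + 1680 * p ^ 3 + 1140 * n ^ 2 + 4999 * n * p + 5387
  * p ^ 2 + 3715 * n + 15225 / 2 * p + 64815 / 16

theorem c42a_6_nn {n p : ℝ} (hn : 0 ≤ n) (hp : 0 ≤ p) : 0 ≤ c42a_6 n p := by
  unfold c42a_6; positivity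

noncomputable def c42a_7 (n p : ℝ) : ℝ :=
  6 * n ^ 4 + 60 * n ^ 3 * p + 222 * n ^ 2 * p ^ 2 + 360 * n * p ^ 3 + 216 * p ^ 4 + 141 * n ^
  3 + 1065 * n ^ 2 * p + 2610 * n * p ^ 2 + 2088 * p ^ 3 + 10107 / 8 * n ^ 2 + 12335 / 2 * n
  * p + 7302 * p ^ 2 + 38603 / 8 * n + 11067 * p + 200677 / 32

theorem c42a_7_nn {n p : ℝ} (hn : 0 ≤ n) (hp : 0 ≤ p) : 0 ≤ c42a_7 n p := by
  unfold c42a_7; positivity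

noncomputable def c42a_8 (n p : ℝ) : ℝ :=
  6 * n ^ 4 + 60 * n ^ 3 * p + 222 * n ^ 2 * p ^ 2 + 360 * n * p ^ 3 + 216 * p ^ 4 + 141 * n ^
  3 + 1065 * n ^ 2 * p + 2646 * n * p ^ 2 + 2160 * p ^ 3 + 10107 / 8 * n ^ 2 + 12815 / 2 * n
  * p + 7944 * p ^ 2 + 40865 / 8 * n + 25425 / 2 * p + 241393 / 32

theorem c42a_8_nn {n p : ℝ} (hn : 0 ≤ n) (hp : 0 ≤ p) : 0 ≤ c42a_8 n p := by
  unfold c42a_8; positivity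

noncomputable def c42a_9 (n p : ℝ) : ℝ :=
  6 * n ^ 4 + 60 * n ^ 3 * p + 222 * n ^ 2 * p ^ 2 + 360 * n * p ^ 3 + 216 * p ^ 4 + 141 * n ^
  3 + 1065 * n ^ 2 * p + 2646 * n * p ^ 2 + 2160 * p ^ 3 + 10107 / 8 * n ^ 2 + 12815 / 2 * n
  * p + 8019 * p ^ 2 + 40865 / 8 * n + 13050 * p + 251143 / 32

theorem c42a_9_nn {n p : ℝ} (hn : 0 ≤ n) (hp : 0 ≤ p) : 0 ≤ c42a_9 n p := by
  unfold c42a_9; positivity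

theorem c42a_nn {n p t : ℝ} (hn : 0 ≤ n) (hp : 0 ≤ p) (h0 : 0 < t) (h1 : t ≤ 1) :
    0 ≤ (1 - t) * (c42a_5 n p * t ^ 5 + c42a_6 n p * t ^ 6 + c42a_7 n p * t ^ 7 + c42a_8 n p * t ^
      8) + c42a_9 n p * t ^ 9 := by
  have e5 := c42a_5_nn hn hp
  have e6 := c42a_6_nn hn hp
  have e7 := c42a_7_nn hn hp
  have e8 := c42a_8_nn hn hp
  have e9 := c42a_9_nn hn hp
  have h2 : 0 ≤ 1 - t := by linarith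
  exact add_nonneg (mul_nonneg h2 (by positivity)) (by positivity)

noncomputable def c42b_0 (n p : ℝ) : ℝ :=
  144

theorem c42b_0_nn {n p : ℝ} (hn : 0 ≤ n) (hp : 0 ≤ p) : 0 ≤ c42b_0 n p := by
  unfold c42b_0; positivity

noncomputable def c42b_1 (n p : ℝ) : ℝ :=
  144 * n + 288 * p + 792

theorem c42b_1_nn {n p : ℝ} (hn : 0 ≤ n) (hp : 0 ≤ p) : 0 ≤ c42b_1 n p := by
  unfold c42b_1; positivity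

noncomputable def c42b_2 (n p : ℝ) : ℝ :=
  72 * n ^ 2 + 288 * n * p + 288 * p ^ 2 + 792 * n + 1620 * p + 2139

theorem c42b_2_nn {n p : ℝ} (hn : 0 ≤ n) (hp : 0 ≤ p) : 0 ≤ c42b_2 n p := by
  unfold c42b_2; positivity

noncomputable def c42b_3 (n p : ℝ) : ℝ :=
  24 * n ^ 3 + 144 * n ^ 2 * p + 288 * n * p ^ 2 + 192 * p ^ 3 + 396 * n ^ 2 + 1620 * n * p +
  1656 * p ^ 2 + 2187 * n + 4572 * p + 8085 / 2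

theorem c42b_3_nn {n p : ℝ} (hn : 0 ≤ n) (hp : 0 ≤ p) : 0 ≤ c42b_3 n p := by
  unfold c42b_3; positivity

noncomputable def c42b_4 (n p : ℝ) : ℝ :=
  6 * n ^ 4 + 48 * n ^ 3 * p + 144 * n ^ 2 * p ^ 2 + 192 * n * p ^ 3 + 96 * p ^ 4 + 132 * n ^
  3 + 810 * n ^ 2 * p + 1656 * n * p ^ 2 + 1128 * p ^ 3 + 2235 / 2 * n ^ 2 + 4668 * n * p +
  4869 * p ^ 2 + 8613 / 2 * n + 9167 * p + 101803 / 16

theorem c42b_4_nn {n p : ℝ} (hn : 0 ≤ n) (hp : 0 ≤ p) : 0 ≤ c42b_4 n p := by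
  unfold c42b_4; positivity

noncomputable def c42b_5 (n p : ℝ) : ℝ :=
  6 * n ^ 4 + 60 * n ^ 3 * p + 216 * n ^ 2 * p ^ 2 + 336 * n * p ^ 3 + 192 * p ^ 4 + 141 * n ^
  3 + 1026 * n ^ 2 * p + 2412 * n * p ^ 2 + 1848 * p ^ 3 + 1239 * n ^ 2 + 5869 * n * p +
  6785 * p ^ 2 + 19411 / 4 * n + 11290 * p + 114889 / 16

theorem c42b_5_nn {n p : ℝ} (hn : 0 ≤ n) (hp : 0 ≤ p) : 0 ≤ c42b_5 n p := by
  unfold c42b_5; positivity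

noncomputable def c42b_6 (n p : ℝ) : ℝ :=
  6 * n ^ 4 + 60 * n ^ 3 * p + 222 * n ^ 2 * p ^ 2 + 360 * n * p ^ 3 + 216 * p ^ 4 + 141 * n ^
  3 + 1065 * n ^ 2 * p + 2622 * n * p ^ 2 + 2112 * p ^ 3 + 10107 / 8 * n ^ 2 + 12635 / 2 * n
  * p + 7692 * p ^ 2 + 40577 / 8 * n + 24951 / 2 * p + 245257 / 32

theorem c42b_6_nn {n p : ℝ} (hn : 0 ≤ n) (hp : 0 ≤ p) : 0 ≤ c42b_6 n p := by
  unfold c42b_6; positivity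

noncomputable def c42b_7 (n p : ℝ) : ℝ :=
  6 * n ^ 4 + 60 * n ^ 3 * p + 222 * n ^ 2 * p ^ 2 + 360 * n * p ^ 3 + 216 * p ^ 4 + 141 * n ^
  3 + 1065 * n ^ 2 * p + 2646 * n * p ^ 2 + 2160 * p ^ 3 + 10107 / 8 * n ^ 2 + 12815 / 2 * n
  * p + 7980 * p ^ 2 + 40865 / 8 * n + 25905 / 2 * p + 250441 / 32

theorem c42b_7_nn {n p : ℝ} (hn : 0 ≤ n) (hp : 0 ≤ p) : 0 ≤ c42b_7 n p := by
  unfold c42b_7; positivity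

noncomputable def c42b_8 (n p : ℝ) : ℝ :=
  6 * n ^ 4 + 60 * n ^ 3 * p + 222 * n ^ 2 * p ^ 2 + 360 * n * p ^ 3 + 216 * p ^ 4 + 141 * n ^
  3 + 1065 * n ^ 2 * p + 2646 * n * p ^ 2 + 2160 * p ^ 3 + 10107 / 8 * n ^ 2 + 12815 / 2 * n
  * p + 8019 * p ^ 2 + 40865 / 8 * n + 13050 * p + 251143 / 32

theorem c42b_8_nn {n p : ℝ} (hn : 0 ≤ n) (hp : 0 ≤ p) : 0 ≤ c42b_8 n p := by
  unfold c42b_8; positivity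

theorem c42b_nn {n p t : ℝ} (hn : 0 ≤ n) (hp : 0 ≤ p) (h0 : 0 < t) (h1 : t ≤ 1) :
    0 ≤ (1 - t) * (c42b_0 n p * t ^ 0 + c42b_1 n p * t ^ 1 + c42b_2 n p * t ^ 2 + c42b_3 n p * t ^ 3
      + c42b_4 n p * t ^ 4 + c42b_5 n p * t ^ 5 + c42b_6 n p * t ^ 6 + c42b_7 n p * t ^ 7) +
      c42b_8 n p * t ^ 8 := by
  have e0 := c42b_0_nn hn hp
  have e1 := c42b_1_nn hn hp
  have e2 := c42b_2_nn hn hp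
  have e3 := c42b_3_nn hn hp
  have e4 := c42b_4_nn hn hp
  have e5 := c42b_5_nn hn hp
  have e6 := c42b_6_nn hn hp
  have e7 := c42b_7_nn hn hp
  have e8 := c42b_8_nn hn hp
  have h2 : 0 ≤ 1 - t := by linarith
  exact add_nonneg (mul_nonneg h2 (by positivity)) (by positivity)

noncomputable def c42s (n t : ℝ) : ℝ :=
  14 * t ^ 5 * n ^ 3 + 4 * t ^ 4 * n ^ 4 + 66 * t ^ 4 * n ^ 3 + 389 * t ^ 4 * n ^ 2 + 4 * t ^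
  3 * n ^ 3 + 494 * t ^ 5 + 744 * t ^ 4 * n + 65 * t ^ 3 * n ^ 2 + 336 * t ^ 4 + 111 * t ^ 3
  * n

theorem c42s_nn {n t : ℝ} (hn : 0 ≤ n) (h0 : 0 < t) : 0 ≤ c42s n t := by
  unfold c42s; positivity

end Pool.Agent.KIQ.POLY

namespace Pool.Agent.KIQ

open POLY

theorem PC4_2 {a q A B t : ℝ} (hq : 5 / 4 ≤ q) (ha : 2 * q + 2 ≤ a)
    (hA : (3 * q - 2) * a ≤ (a ^ 2 - q ^ 2) * A) (hB : q * (3 * q - 2) ≤ (a ^ 2 - q ^ 2) * B)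
    (h0 : 0 < t) (h1 : t ≤ 1) :
    2 * t ^ 4 * (B + A * t + t ^ 2) ≤
      (pp 0 a q (iniC A B) 4 2).eval t := by
  obtain ⟨p, hp, rfl⟩ : ∃ p : ℝ, 0 ≤ p ∧ q = 5 / 4 + p := ⟨q - 5 / 4, by linarith, by ring⟩
  obtain ⟨n, hn, rfl⟩ : ∃ n : ℝ, 0 ≤ n ∧ a = 2 * (5 / 4 + p) + 2 + n :=
    ⟨a - (2 * (5 / 4 + p) + 2), by linarith, by ring⟩
  simp only [fc_4_2, eval_PL, evL]
  have hc : 0 < (2 * (5 / 4 + p) + 2 + n) ^ 2 - (5 / 4 + p) ^ 2 := by nlinarith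
  refine fin_aux hc (sub_nonneg.2 hA) (sub_nonneg.2 hB)
    (add_nonneg (c42e_nn hn hp h0 h1) (mul_nonneg (c42s_nn hn h0)
      (sq_nonneg ((2 * (5 / 4 + p) + 2 + n) * t - 3))))
    (c42a_nn hn hp h0 h1) (c42b_nn hn hp h0 h1) ?_
  simp only [c42e_0, c42e_1, c42e_2, c42e_3, c42e_4, c42e_5, c42e_6, c42e_7, c42e_8, c42e_9, c42e_10,
    c42a_5, c42a_6, c42a_7, c42a_8, c42a_9, c42b_0, c42b_1, c42b_2, c42b_3, c42b_4, c42b_5,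
    c42b_6, c42b_7, c42b_8, c42s, fc_4_2_0, fc_4_2_1, fc_4_2_2, fc_4_2_3, fc_4_2_4,
    fc_4_2_5, fc_4_2_6, fc_4_2_7, fc_4_2_8, fc_4_2_9, fc_4_2_10]
  ring

end Pool.Agent.KIQ

namespace Pool.Agent.KIQ.POLY

noncomputable def c43e_0 (n p : ℝ) : ℝ :=
  288 * p ^ 2 + 528 * p + 210

theorem c43e_0_nn {n p : ℝ} (hn : 0 ≤ n) (hp : 0 ≤ p) : 0 ≤ c43e_0 n p := by
  unfold c43e_0; positivity

noncomputable def c43e_1 (n p : ℝ) : ℝ :=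
  288 * n * p ^ 2 + 576 * p ^ 3 + 528 * n * p + 2640 * p ^ 2 + 210 * n + 3324 * p + 1155

theorem c43e_1_nn {n p : ℝ} (hn : 0 ≤ n) (hp : 0 ≤ p) : 0 ≤ c43e_1 n p := by
  unfold c43e_1; positivity

noncomputable def c43e_2 (n p : ℝ) : ℝ :=
  144 * n ^ 2 * p ^ 2 + 576 * n * p ^ 3 + 576 * p ^ 4 + 264 * n ^ 2 * p + 2640 * n * p ^ 2 +
  4332 * p ^ 3 + 105 * n ^ 2 + 3324 * n * p + 10833 * p ^ 2 + 1155 * n + 41873 / 4 * p +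
  51415 / 16

theorem c43e_2_nn {n p : ℝ} (hn : 0 ≤ n) (hp : 0 ≤ p) : 0 ≤ c43e_2 n p := by
  unfold c43e_2; positivity

noncomputable def c43e_3 (n p : ℝ) : ℝ :=
  48 * n ^ 3 * p ^ 2 + 288 * n ^ 2 * p ^ 3 + 576 * n * p ^ 4 + 384 * p ^ 5 + 88 * n ^ 3 * p +
  1320 * n ^ 2 * p ^ 2 + 4332 * n * p ^ 3 + 4088 * p ^ 4 + 8 * n ^ 3 + 1662 * n ^ 2 * p +
  10929 * n * p ^ 2 + 16084 * p ^ 3 + 363 / 2 * n ^ 2 + 42577 / 4 * n * p + 28862 * p ^ 2 +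
  46775 / 16 * n + 92493 / 4 * p + 205205 / 32

theorem c43e_3_nn {n p : ℝ} (hn : 0 ≤ n) (hp : 0 ≤ p) : 0 ≤ c43e_3 n p := by
  unfold c43e_3; positivity

noncomputable def c43e_4 (n p : ℝ) : ℝ :=
  12 * n ^ 4 * p ^ 2 + 96 * n ^ 3 * p ^ 3 + 288 * n ^ 2 * p ^ 4 + 384 * n * p ^ 5 + 192 * p ^
  6 + 22 * n ^ 4 * p + 440 * n ^ 3 * p ^ 2 + 2166 * n ^ 2 * p ^ 3 + 4088 * n * p ^ 4 + 2680
  * p ^ 5 + 35 / 4 * n ^ 4 + 590 * n ^ 3 * p + 11025 / 2 * n ^ 2 * p ^ 2 + 16276 * n * p ^ 3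
  + 14812 * p ^ 4 + 139 / 2 * n ^ 3 + 47505 / 8 * n ^ 2 * p + 29742 * n * p ^ 2 + 41125 * p
  ^ 3 + 17559 / 32 * n ^ 2 + 98845 / 4 * n * p + 238491 / 4 * p ^ 2 + 112117 / 32 * n +
  1338591 / 32 * p + 574695 / 64

theorem c43e_4_nn {n p : ℝ} (hn : 0 ≤ n) (hp : 0 ≤ p) : 0 ≤ c43e_4 n p := by
  unfold c43e_4; positivity

noncomputable def c43e_5 (n p : ℝ) : ℝ :=
  12 * n ^ 5 * p + 132 * n ^ 4 * p ^ 2 + 612 * n ^ 3 * p ^ 3 + 1464 * n ^ 2 * p ^ 4 + 1776 * n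
  * p ^ 5 + 864 * p ^ 6 + 214 * n ^ 4 * p + 2307 * n ^ 3 * p ^ 2 + 8886 * n ^ 2 * p ^ 3 +
  14900 * n * p ^ 4 + 9288 * p ^ 5 + 333 / 4 * n ^ 4 + 7275 / 4 * n ^ 3 * p + 32975 / 2 * n
  ^ 2 * p ^ 2 + 46108 * n * p ^ 3 + 40078 * p ^ 4 + 7841 / 16 * n ^ 3 + 74425 / 8 * n ^ 2 *
  p + 60671 * n * p ^ 2 + 86943 * p ^ 3 + 26247 / 16 * n ^ 2 + 483789 / 16 * n * p + 763493
  / 8 * p ^ 2 + 112527 / 64 * n + 1490593 / 32 * p + 125217 / 128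

theorem c43e_5_nn {n p : ℝ} (hn : 0 ≤ n) (hp : 0 ≤ p) : 0 ≤ c43e_5 n p := by
  unfold c43e_5; positivity

noncomputable def c43e_6 (n p : ℝ) : ℝ :=
  2 * n ^ 6 + 52 * n ^ 5 * p + 396 * n ^ 4 * p ^ 2 + 1508 * n ^ 3 * p ^ 3 + 3228 * n ^ 2 * p ^
  4 + 3712 * n * p ^ 5 + 1776 * p ^ 6 + 41 * n ^ 5 + 1118 * n ^ 4 * p + 7455 * n ^ 3 * p ^ 2
  + 22554 * n ^ 2 * p ^ 3 + 33480 * n * p ^ 4 + 19802 * p ^ 5 + 2123 / 4 * n ^ 4 + 39331 / 4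
  * n ^ 3 * p + 51817 * n ^ 2 * p ^ 2 + 111782 * n * p ^ 3 + 174035 / 2 * p ^ 4 + 35517 / 16
  * n ^ 3 + 320203 / 8 * n ^ 2 * p + 322555 / 2 * n * p ^ 2 + 751913 / 4 * p ^ 3 + 197285 /
  64 * n ^ 2 + 674605 / 8 * n * p + 1570849 / 8 * p ^ 2 + 1392 * n + 10327345 / 128 * p +
  1336059 / 512

theorem c43e_6_nn {n p : ℝ} (hn : 0 ≤ n) (hp : 0 ≤ p) : 0 ≤ c43e_6 n p := by
  unfold c43e_6; positivity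

noncomputable def c43e_7 (n p : ℝ) : ℝ :=
  2 * n ^ 6 + 64 * n ^ 5 * p + 516 * n ^ 4 * p ^ 2 + 2012 * n ^ 3 * p ^ 3 + 4332 * n ^ 2 * p ^
  4 + 4972 * n * p ^ 5 + 2376 * p ^ 6 + 76 * n ^ 5 + 1822 * n ^ 4 * p + 11701 * n ^ 3 * p ^
  2 + 34370 * n ^ 2 * p ^ 3 + 49743 * n * p ^ 4 + 28942 * p ^ 5 + 6029 / 4 * n ^ 4 + 83309 /
  4 * n ^ 3 * p + 95293 * n ^ 2 * p ^ 2 + 376963 / 2 * n * p ^ 3 + 139848 * p ^ 4 + 175327 /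
  16 * n ^ 3 + 843623 / 8 * n ^ 2 * p + 2621251 / 8 * n * p ^ 2 + 1351823 / 4 * p ^ 3 +
  2295841 / 64 * n ^ 2 + 15709551 / 64 * n * p + 13199257 / 32 * p ^ 2 + 12992891 / 256 * n
  + 27911787 / 128 * p + 5417055 / 256

theorem c43e_7_nn {n p : ℝ} (hn : 0 ≤ n) (hp : 0 ≤ p) : 0 ≤ c43e_7 n p := by
  unfold c43e_7; positivity

noncomputable def c43e_8 (n p : ℝ) : ℝ :=
  2 * n ^ 6 + 64 * n ^ 5 * p + 528 * n ^ 4 * p ^ 2 + 2108 * n ^ 3 * p ^ 3 + 4620 * n ^ 2 * p ^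
  4 + 5356 * n * p ^ 5 + 2568 * p ^ 6 + 76 * n ^ 5 + 1954 * n ^ 4 * p + 12973 * n ^ 3 * p ^
  2 + 38912 * n ^ 2 * p ^ 3 + 56871 * n * p ^ 4 + 33146 * p ^ 5 + 3595 / 2 * n ^ 4 + 102101
  / 4 * n ^ 3 * p + 236527 / 2 * n ^ 2 * p ^ 2 + 467955 / 2 * n * p ^ 3 + 172521 * p ^ 4 +
  258919 / 16 * n ^ 3 + 304677 / 2 * n ^ 2 * p + 3675947 / 8 * n * p ^ 2 + 1841237 / 4 * p ^
  3 + 4457479 / 64 * n ^ 2 + 27147759 / 64 * n * p + 20859301 / 32 * p ^ 2 + 36644243 / 256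
  * n + 58035817 / 128 * p + 7210467 / 64

theorem c43e_8_nn {n p : ℝ} (hn : 0 ≤ n) (hp : 0 ≤ p) : 0 ≤ c43e_8 n p := by
  unfold c43e_8; positivity

noncomputable def c43e_9 (n p : ℝ) : ℝ :=
  2 * n ^ 6 + 64 * n ^ 5 * p + 528 * n ^ 4 * p ^ 2 + 2112 * n ^ 3 * p ^ 3 + 4644 * n ^ 2 * p ^
  4 + 5400 * n * p ^ 5 + 2592 * p ^ 6 + 76 * n ^ 5 + 1954 * n ^ 4 * p + 13078 * n ^ 3 * p ^
  2 + 39596 * n ^ 2 * p ^ 3 + 58286 * n * p ^ 4 + 34062 * p ^ 5 + 3595 / 2 * n ^ 4 + 26131 *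
  n ^ 3 * p + 246631 / 2 * n ^ 2 * p ^ 2 + 246843 * n * p ^ 3 + 365231 / 2 * p ^ 4 + 136907
  / 8 * n ^ 3 + 664407 / 4 * n ^ 2 * p + 2035787 / 4 * n * p ^ 2 + 2042203 / 4 * p ^ 3 +
  5261809 / 64 * n ^ 2 + 16320119 / 32 * n * p + 12466537 / 16 * p ^ 2 + 25460899 / 128 * n
  + 78658867 / 128 * p + 99314091 / 512

theorem c43e_9_nn {n p : ℝ} (hn : 0 ≤ n) (hp : 0 ≤ p) : 0 ≤ c43e_9 n p := by
  unfold c43e_9; positivity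

noncomputable def c43e_10 (n p : ℝ) : ℝ :=
  2 * n ^ 6 + 64 * n ^ 5 * p + 528 * n ^ 4 * p ^ 2 + 2112 * n ^ 3 * p ^ 3 + 4644 * n ^ 2 * p ^
  4 + 5400 * n * p ^ 5 + 2592 * p ^ 6 + 76 * n ^ 5 + 1954 * n ^ 4 * p + 13078 * n ^ 3 * p ^
  2 + 39618 * n ^ 2 * p ^ 3 + 58374 * n * p ^ 4 + 34128 * p ^ 5 + 3595 / 2 * n ^ 4 + 26131 *
  n ^ 3 * p + 123596 * n ^ 2 * p ^ 2 + 248163 * n * p ^ 3 + 183798 * p ^ 4 + 136907 / 8 * n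
  ^ 3 + 1337647 / 8 * n ^ 2 * p + 2063551 / 4 * n * p ^ 2 + 518622 * p ^ 3 + 5345959 / 64 *
  n ^ 2 + 16806407 / 32 * n * p + 6443671 / 8 * p ^ 2 + 26975599 / 128 * n + 10488573 / 16 *
  p + 27973629 / 128

theorem c43e_10_nn {n p : ℝ} (hn : 0 ≤ n) (hp : 0 ≤ p) : 0 ≤ c43e_10 n p := by
  unfold c43e_10; positivity

theorem c43e_nn {n p t : ℝ} (hn : 0 ≤ n) (hp : 0 ≤ p) (h0 : 0 < t) (h1 : t ≤ 1) :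
    0 ≤ (1 - t) * (c43e_0 n p * t ^ 0 + c43e_1 n p * t ^ 1 + c43e_2 n p * t ^ 2 + c43e_3 n p * t ^ 3
      + c43e_4 n p * t ^ 4 + c43e_5 n p * t ^ 5 + c43e_6 n p * t ^ 6 + c43e_7 n p * t ^ 7 +
      c43e_8 n p * t ^ 8 + c43e_9 n p * t ^ 9) + c43e_10 n p * t ^ 10 := by
  have e0 := c43e_0_nn hn hp
  have e1 := c43e_1_nn hn hp
  have e2 := c43e_2_nn hn hp
  have e3 := c43e_3_nn hn hp
  have e4 := c43e_4_nn hn hp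
  have e5 := c43e_5_nn hn hp
  have e6 := c43e_6_nn hn hp
  have e7 := c43e_7_nn hn hp
  have e8 := c43e_8_nn hn hp
  have e9 := c43e_9_nn hn hp
  have e10 := c43e_10_nn hn hp
  have h2 : 0 ≤ 1 - t := by linarith
  exact add_nonneg (mul_nonneg h2 (by positivity)) (by positivity)

noncomputable def c43a_5 (n p : ℝ) : ℝ :=
  4 * n ^ 4 + 32 * n ^ 3 * p + 96 * n ^ 2 * p ^ 2 + 128 * n * p ^ 3 + 64 * p ^ 4 + 72 * n ^ 3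
  + 414 * n ^ 2 * p + 792 * n * p ^ 2 + 504 * p ^ 3 + 903 / 2 * n ^ 2 + 1644 * n * p + 1488
  * p ^ 2 + 2295 / 2 * n + 3931 / 2 * p + 976

theorem c43a_5_nn {n p : ℝ} (hn : 0 ≤ n) (hp : 0 ≤ p) : 0 ≤ c43a_5 n p := by
  unfold c43a_5; positivity

noncomputable def c43a_6 (n p : ℝ) : ℝ :=
  4 * n ^ 4 + 44 * n ^ 3 * p + 168 * n ^ 2 * p ^ 2 + 272 * n * p ^ 3 + 160 * p ^ 4 + 105 * n ^
  3 + 774 * n ^ 2 * p + 1812 * n * p ^ 2 + 1368 * p ^ 3 + 897 * n ^ 2 + 3995 * n * p + 4300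
  * p ^ 2 + 11855 / 4 * n + 11943 / 2 * p + 25079 / 8

theorem c43a_6_nn {n p : ℝ} (hn : 0 ≤ n) (hp : 0 ≤ p) : 0 ≤ c43a_6 n p := by
  unfold c43a_6; positivity

noncomputable def c43a_7 (n p : ℝ) : ℝ :=
  4 * n ^ 4 + 44 * n ^ 3 * p + 180 * n ^ 2 * p ^ 2 + 320 * n * p ^ 3 + 208 * p ^ 4 + 105 * n ^
  3 + 870 * n ^ 2 * p + 2304 * n * p ^ 2 + 1962 * p ^ 3 + 4161 / 4 * n ^ 2 + 5432 * n * p +
  13471 / 2 * p ^ 2 + 4253 * n + 80823 / 8 * p + 182547 / 32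

theorem c43a_7_nn {n p : ℝ} (hn : 0 ≤ n) (hp : 0 ≤ p) : 0 ≤ c43a_7 n p := by
  unfold c43a_7; positivity

noncomputable def c43a_8 (n p : ℝ) : ℝ :=
  4 * n ^ 4 + 44 * n ^ 3 * p + 180 * n ^ 2 * p ^ 2 + 324 * n * p ^ 3 + 216 * p ^ 4 + 105 * n ^
  3 + 870 * n ^ 2 * p + 2385 * n * p ^ 2 + 2142 * p ^ 3 + 4161 / 4 * n ^ 2 + 23095 / 4 * n *
  p + 15567 / 2 * p ^ 2 + 73655 / 16 * n + 98733 / 8 * p + 116505 / 16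

theorem c43a_8_nn {n p : ℝ} (hn : 0 ≤ n) (hp : 0 ≤ p) : 0 ≤ c43a_8 n p := by
  unfold c43a_8; positivity

noncomputable def c43a_9 (n p : ℝ) : ℝ :=
  4 * n ^ 4 + 44 * n ^ 3 * p + 180 * n ^ 2 * p ^ 2 + 324 * n * p ^ 3 + 216 * p ^ 4 + 105 * n ^
  3 + 870 * n ^ 2 * p + 2385 * n * p ^ 2 + 2160 * p ^ 3 + 4161 / 4 * n ^ 2 + 23095 / 4 * n *
  p + 7959 * p ^ 2 + 73655 / 16 * n + 12840 * p + 245295 / 32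

theorem c43a_9_nn {n p : ℝ} (hn : 0 ≤ n) (hp : 0 ≤ p) : 0 ≤ c43a_9 n p := by
  unfold c43a_9; positivity

theorem c43a_nn {n p t : ℝ} (hn : 0 ≤ n) (hp : 0 ≤ p) (h0 : 0 < t) (h1 : t ≤ 1) :
    0 ≤ (1 - t) * (c43a_5 n p * t ^ 5 + c43a_6 n p * t ^ 6 + c43a_7 n p * t ^ 7 + c43a_8 n p * t ^
      8) + c43a_9 n p * t ^ 9 := by
  have e5 := c43a_5_nn hn hp
  have e6 := c43a_6_nn hn hp
  have e7 := c43a_7_nn hn hp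
  have e8 := c43a_8_nn hn hp
  have e9 := c43a_9_nn hn hp
  have h2 : 0 ≤ 1 - t := by linarith
  exact add_nonneg (mul_nonneg h2 (by positivity)) (by positivity)

noncomputable def c43b_0 (n p : ℝ) : ℝ :=
  96

theorem c43b_0_nn {n p : ℝ} (hn : 0 ≤ n) (hp : 0 ≤ p) : 0 ≤ c43b_0 n p := by
  unfold c43b_0; positivity

noncomputable def c43b_1 (n p : ℝ) : ℝ :=
  96 * n + 192 * p + 528

theorem c43b_1_nn {n p : ℝ} (hn : 0 ≤ n) (hp : 0 ≤ p) : 0 ≤ c43b_1 n p := by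
  unfold c43b_1; positivity

noncomputable def c43b_2 (n p : ℝ) : ℝ :=
  48 * n ^ 2 + 192 * n * p + 192 * p ^ 2 + 528 * n + 1092 * p + 1469

theorem c43b_2_nn {n p : ℝ} (hn : 0 ≤ n) (hp : 0 ≤ p) : 0 ≤ c43b_2 n p := by
  unfold c43b_2; positivity

noncomputable def c43b_3 (n p : ℝ) : ℝ :=
  16 * n ^ 3 + 96 * n ^ 2 * p + 192 * n * p ^ 2 + 128 * p ^ 3 + 264 * n ^ 2 + 1092 * n * p +
  1128 * p ^ 2 + 1501 * n + 3200 * p + 5863 / 2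

theorem c43b_3_nn {n p : ℝ} (hn : 0 ≤ n) (hp : 0 ≤ p) : 0 ≤ c43b_3 n p := by
  unfold c43b_3; positivity

noncomputable def c43b_4 (n p : ℝ) : ℝ :=
  4 * n ^ 4 + 32 * n ^ 3 * p + 96 * n ^ 2 * p ^ 2 + 128 * n * p ^ 3 + 64 * p ^ 4 + 88 * n ^ 3
  + 546 * n ^ 2 * p + 1128 * n * p ^ 2 + 776 * p ^ 3 + 1533 / 2 * n ^ 2 + 3264 * n * p +
  3468 * p ^ 2 + 6215 / 2 * n + 13569 / 2 * p + 19629 / 4

theorem c43b_4_nn {n p : ℝ} (hn : 0 ≤ n) (hp : 0 ≤ p) : 0 ≤ c43b_4 n p := by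
  unfold c43b_4; positivity

noncomputable def c43b_5 (n p : ℝ) : ℝ :=
  4 * n ^ 4 + 44 * n ^ 3 * p + 168 * n ^ 2 * p ^ 2 + 272 * n * p ^ 3 + 160 * p ^ 4 + 105 * n ^
  3 + 810 * n ^ 2 * p + 1980 * n * p ^ 2 + 1560 * p ^ 3 + 996 * n ^ 2 + 4907 * n * p + 5836
  * p ^ 2 + 16565 / 4 * n + 19855 / 2 * p + 51687 / 8

theorem c43b_5_nn {n p : ℝ} (hn : 0 ≤ n) (hp : 0 ≤ p) : 0 ≤ c43b_5 n p := by
  unfold c43b_5; positivity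

noncomputable def c43b_6 (n p : ℝ) : ℝ :=
  4 * n ^ 4 + 44 * n ^ 3 * p + 180 * n ^ 2 * p ^ 2 + 320 * n * p ^ 3 + 208 * p ^ 4 + 105 * n ^
  3 + 870 * n ^ 2 * p + 2328 * n * p ^ 2 + 2014 * p ^ 3 + 4161 / 4 * n ^ 2 + 5624 * n * p +
  14617 / 2 * p ^ 2 + 9079 / 2 * n + 95053 / 8 * p + 235017 / 32

theorem c43b_6_nn {n p : ℝ} (hn : 0 ≤ n) (hp : 0 ≤ p) : 0 ≤ c43b_6 n p := by
  unfold c43b_6; positivity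

noncomputable def c43b_7 (n p : ℝ) : ℝ :=
  4 * n ^ 4 + 44 * n ^ 3 * p + 180 * n ^ 2 * p ^ 2 + 324 * n * p ^ 3 + 216 * p ^ 4 + 105 * n ^
  3 + 870 * n ^ 2 * p + 2385 * n * p ^ 2 + 2146 * p ^ 3 + 4161 / 4 * n ^ 2 + 23095 / 4 * n *
  p + 15729 / 2 * p ^ 2 + 73655 / 16 * n + 101467 / 8 * p + 7632

theorem c43b_7_nn {n p : ℝ} (hn : 0 ≤ n) (hp : 0 ≤ p) : 0 ≤ c43b_7 n p := by
  unfold c43b_7; positivity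

noncomputable def c43b_8 (n p : ℝ) : ℝ :=
  4 * n ^ 4 + 44 * n ^ 3 * p + 180 * n ^ 2 * p ^ 2 + 324 * n * p ^ 3 + 216 * p ^ 4 + 105 * n ^
  3 + 870 * n ^ 2 * p + 2385 * n * p ^ 2 + 2160 * p ^ 3 + 4161 / 4 * n ^ 2 + 23095 / 4 * n *
  p + 7959 * p ^ 2 + 73655 / 16 * n + 12840 * p + 245295 / 32

theorem c43b_8_nn {n p : ℝ} (hn : 0 ≤ n) (hp : 0 ≤ p) : 0 ≤ c43b_8 n p := by
  unfold c43b_8; positivity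

theorem c43b_nn {n p t : ℝ} (hn : 0 ≤ n) (hp : 0 ≤ p) (h0 : 0 < t) (h1 : t ≤ 1) :
    0 ≤ (1 - t) * (c43b_0 n p * t ^ 0 + c43b_1 n p * t ^ 1 + c43b_2 n p * t ^ 2 + c43b_3 n p * t ^ 3
      + c43b_4 n p * t ^ 4 + c43b_5 n p * t ^ 5 + c43b_6 n p * t ^ 6 + c43b_7 n p * t ^ 7) +
      c43b_8 n p * t ^ 8 := by
  have e0 := c43b_0_nn hn hp
  have e1 := c43b_1_nn hn hp
  have e2 := c43b_2_nn hn hp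
  have e3 := c43b_3_nn hn hp
  have e4 := c43b_4_nn hn hp
  have e5 := c43b_5_nn hn hp
  have e6 := c43b_6_nn hn hp
  have e7 := c43b_7_nn hn hp
  have e8 := c43b_8_nn hn hp
  have h2 : 0 ≤ 1 - t := by linarith
  exact add_nonneg (mul_nonneg h2 (by positivity)) (by positivity)

noncomputable def c43s (n t : ℝ) : ℝ :=
  14 * t ^ 5 * n ^ 3 + 2 * t ^ 4 * n ^ 4 + 49 * t ^ 4 * n ^ 3 + 205 * t ^ 5 * n + 240 * t ^ 4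
  * n ^ 2 + 3 * t ^ 3 * n ^ 3 + 622 * t ^ 5 + 446 * t ^ 4 * n + 44 * t ^ 3 * n ^ 2 + 195 * t
  ^ 4 + 40 * t ^ 3 * n

theorem c43s_nn {n t : ℝ} (hn : 0 ≤ n) (h0 : 0 < t) : 0 ≤ c43s n t := by
  unfold c43s; positivity

end Pool.Agent.KIQ.POLY

namespace Pool.Agent.KIQ

open POLY

theorem PC4_3 {a q A B t : ℝ} (hq : 5 / 4 ≤ q) (ha : 2 * q + 2 ≤ a)
    (hA : (3 * q - 2) * a ≤ (a ^ 2 - q ^ 2) * A) (hB : q * (3 * q - 2) ≤ (a ^ 2 - q ^ 2) * B)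
    (h0 : 0 < t) (h1 : t ≤ 1) :
    0 ≤
      (pp 0 a q (iniC A B) 4 3).eval t := by
  obtain ⟨p, hp, rfl⟩ : ∃ p : ℝ, 0 ≤ p ∧ q = 5 / 4 + p := ⟨q - 5 / 4, by linarith, by ring⟩
  obtain ⟨n, hn, rfl⟩ : ∃ n : ℝ, 0 ≤ n ∧ a = 2 * (5 / 4 + p) + 2 + n :=
    ⟨a - (2 * (5 / 4 + p) + 2), by linarith, by ring⟩
  simp only [fc_4_3, eval_PL, evL]
  have hc : 0 < (2 * (5 / 4 + p) + 2 + n) ^ 2 - (5 / 4 + p) ^ 2 := by nlinarith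
  refine fin_aux hc (sub_nonneg.2 hA) (sub_nonneg.2 hB)
    (add_nonneg (c43e_nn hn hp h0 h1) (mul_nonneg (c43s_nn hn h0)
      (sq_nonneg ((2 * (5 / 4 + p) + 2 + n) * t - 3))))
    (c43a_nn hn hp h0 h1) (c43b_nn hn hp h0 h1) ?_
  simp only [c43e_0, c43e_1, c43e_2, c43e_3, c43e_4, c43e_5, c43e_6, c43e_7, c43e_8, c43e_9, c43e_10,
    c43a_5, c43a_6, c43a_7, c43a_8, c43a_9, c43b_0, c43b_1, c43b_2, c43b_3, c43b_4, c43b_5,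
    c43b_6, c43b_7, c43b_8, c43s, fc_4_3_0, fc_4_3_1, fc_4_3_2, fc_4_3_3, fc_4_3_4,
    fc_4_3_5, fc_4_3_6, fc_4_3_7, fc_4_3_8, fc_4_3_9, fc_4_3_10]
  ring

end Pool.Agent.KIQ

namespace Pool.Agent.KIQ.POLY

noncomputable def c44e_0 (n p : ℝ) : ℝ :=
  72 * p ^ 2 + 132 * p + 105 / 2

theorem c44e_0_nn {n p : ℝ} (hn : 0 ≤ n) (hp : 0 ≤ p) : 0 ≤ c44e_0 n p := by
  unfold c44e_0; positivity

noncomputable def c44e_1 (n p : ℝ) : ℝ :=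
  72 * n * p ^ 2 + 144 * p ^ 3 + 132 * n * p + 660 * p ^ 2 + 105 / 2 * n + 831 * p + 1155 / 4

theorem c44e_1_nn {n p : ℝ} (hn : 0 ≤ n) (hp : 0 ≤ p) : 0 ≤ c44e_1 n p := by
  unfold c44e_1; positivity

noncomputable def c44e_2 (n p : ℝ) : ℝ :=
  36 * n ^ 2 * p ^ 2 + 144 * n * p ^ 3 + 144 * p ^ 4 + 66 * n ^ 2 * p + 660 * n * p ^ 2 + 1092
  * p ^ 3 + 105 / 4 * n ^ 2 + 831 * n * p + 2757 * p ^ 2 + 1155 / 4 * n + 10731 / 4 * p +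
  6615 / 8

theorem c44e_2_nn {n p : ℝ} (hn : 0 ≤ n) (hp : 0 ≤ p) : 0 ≤ c44e_2 n p := by
  unfold c44e_2; positivity

noncomputable def c44e_3 (n p : ℝ) : ℝ :=
  12 * n ^ 3 * p ^ 2 + 72 * n ^ 2 * p ^ 3 + 144 * n * p ^ 4 + 96 * p ^ 5 + 22 * n ^ 3 * p +
  330 * n ^ 2 * p ^ 2 + 1092 * n * p ^ 3 + 1040 * p ^ 4 + 17 / 4 * n ^ 3 + 831 / 2 * n ^ 2 *
  p + 2781 * n * p ^ 2 + 4168 * p ^ 3 + 363 / 8 * n ^ 2 + 10907 / 4 * n * p + 7615 * p ^ 2 +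
  6755 / 8 * n + 49513 / 8 * p + 3465 / 2

theorem c44e_3_nn {n p : ℝ} (hn : 0 ≤ n) (hp : 0 ≤ p) : 0 ≤ c44e_3 n p := by
  unfold c44e_3; positivity

noncomputable def c44e_4 (n p : ℝ) : ℝ :=
  3 * n ^ 4 * p ^ 2 + 24 * n ^ 3 * p ^ 3 + 72 * n ^ 2 * p ^ 4 + 96 * n * p ^ 5 + 48 * p ^ 6 +
  11 / 2 * n ^ 4 * p + 110 * n ^ 3 * p ^ 2 + 546 * n ^ 2 * p ^ 3 + 1040 * n * p ^ 4 + 688 *
  p ^ 5 + 11 / 16 * n ^ 4 + 289 / 2 * n ^ 3 * p + 2805 / 2 * n ^ 2 * p ^ 2 + 4216 * n * p ^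
  3 + 3904 * p ^ 4 + 121 / 8 * n ^ 3 + 12139 / 8 * n ^ 2 * p + 7835 * n * p ^ 2 + 11115 * p
  ^ 3 + 2647 / 16 * n ^ 2 + 51729 / 8 * n * p + 263615 / 16 * p ^ 2 + 3265 / 4 * n + 47051 /
  4 * p + 341379 / 128

theorem c44e_4_nn {n p : ℝ} (hn : 0 ≤ n) (hp : 0 ≤ p) : 0 ≤ c44e_4 n p := by
  unfold c44e_4; positivity

noncomputable def c44e_5 (n p : ℝ) : ℝ :=
  3 * n ^ 5 * p + 33 * n ^ 4 * p ^ 2 + 156 * n ^ 3 * p ^ 3 + 384 * n ^ 2 * p ^ 4 + 480 * n * p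
  ^ 5 + 240 * p ^ 6 + 1 / 4 * n ^ 5 + 109 / 2 * n ^ 4 * p + 587 * n ^ 3 * p ^ 2 + 2322 * n ^
  2 * p ^ 3 + 4016 * n * p ^ 4 + 2576 * p ^ 5 + 321 / 16 * n ^ 4 + 1849 / 4 * n ^ 3 * p +
  8651 / 2 * n ^ 2 * p ^ 2 + 12475 * n * p ^ 3 + 11178 * p ^ 4 + 1853 / 16 * n ^ 3 + 19675 /
  8 * n ^ 2 * p + 67077 / 4 * n * p ^ 2 + 24617 * p ^ 3 + 11945 / 32 * n ^ 2 + 143651 / 16 *
  n * p + 446727 / 16 * p ^ 2 + 16747 / 64 * n + 58577 / 4 * p + 18063 / 32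

theorem c44e_5_nn {n p : ℝ} (hn : 0 ≤ n) (hp : 0 ≤ p) : 0 ≤ c44e_5 n p := by
  unfold c44e_5; positivity

noncomputable def c44e_6 (n p : ℝ) : ℝ :=
  1 / 2 * n ^ 6 + 13 * n ^ 5 * p + 102 * n ^ 4 * p ^ 2 + 404 * n ^ 3 * p ^ 3 + 906 * n ^ 2 * p
  ^ 4 + 1096 * n * p ^ 5 + 552 * p ^ 6 + 43 / 4 * n ^ 5 + 287 * n ^ 4 * p + 1973 * n ^ 3 * p
  ^ 2 + 6234 * n ^ 2 * p ^ 3 + 9722 * n * p ^ 4 + 6038 * p ^ 5 + 923 / 8 * n ^ 4 + 10043 / 4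
  * n ^ 3 * p + 56199 / 4 * n ^ 2 * p ^ 2 + 31892 * n * p ^ 3 + 26114 * p ^ 4 + 6971 / 16 *
  n ^ 3 + 82765 / 8 * n ^ 2 * p + 89877 / 2 * n * p ^ 2 + 222307 / 4 * p ^ 3 + 92821 / 128 *
  n ^ 2 + 733527 / 32 * n * p + 1825629 / 32 * p ^ 2 + 103031 / 128 * n + 2945823 / 128 * p
  + 239877 / 256

theorem c44e_6_nn {n p : ℝ} (hn : 0 ≤ n) (hp : 0 ≤ p) : 0 ≤ c44e_6 n p := by
  unfold c44e_6; positivity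

noncomputable def c44e_7 (n p : ℝ) : ℝ :=
  1 / 2 * n ^ 6 + 17 * n ^ 5 * p + 142 * n ^ 4 * p ^ 2 + 578 * n ^ 3 * p ^ 3 + 1310 * n ^ 2 *
  p ^ 4 + 1596 * n * p ^ 5 + 816 * p ^ 6 + 103 / 4 * n ^ 5 + 527 * n ^ 4 * p + 6743 / 2 * n
  ^ 3 * p ^ 2 + 10254 * n ^ 2 * p ^ 3 + 15627 * n * p ^ 4 + 9650 * p ^ 5 + 3603 / 8 * n ^ 4
  + 48163 / 8 * n ^ 3 * p + 112469 / 4 * n ^ 2 * p ^ 2 + 116149 / 2 * n * p ^ 3 + 90995 / 2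
  * p ^ 4 + 98893 / 32 * n ^ 3 + 243223 / 8 * n ^ 2 * p + 789849 / 8 * n * p ^ 2 + 430021 /
  4 * p ^ 3 + 1261247 / 128 * n ^ 2 + 4574791 / 64 * n * p + 1023531 / 8 * p ^ 2 + 3417859 /
  256 * n + 8290989 / 128 * p + 2439819 / 512

theorem c44e_7_nn {n p : ℝ} (hn : 0 ≤ n) (hp : 0 ≤ p) : 0 ≤ c44e_7 n p := by
  unfold c44e_7; positivity

noncomputable def c44e_8 (n p : ℝ) : ℝ :=
  1 / 2 * n ^ 6 + 17 * n ^ 5 * p + 148 * n ^ 4 * p ^ 2 + 626 * n ^ 3 * p ^ 3 + 1460 * n ^ 2 *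
  p ^ 4 + 1812 * n * p ^ 5 + 939 * p ^ 6 + 103 / 4 * n ^ 5 + 578 * n ^ 4 * p + 7775 / 2 * n
  ^ 3 * p ^ 2 + 12192 * n ^ 2 * p ^ 3 + 18873 * n * p ^ 4 + 23513 / 2 * p ^ 5 + 2199 / 4 * n
  ^ 4 + 61867 / 8 * n ^ 3 * p + 73807 / 2 * n ^ 2 * p ^ 2 + 152875 / 2 * n * p ^ 3 + 955205
  / 16 * p ^ 4 + 156133 / 32 * n ^ 3 + 47183 * n ^ 2 * p + 1184415 / 8 * n * p ^ 2 + 2496767
  / 16 * p ^ 3 + 1370821 / 64 * n ^ 2 + 8639557 / 64 * n * p + 55577669 / 256 * p ^ 2 +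
  11519209 / 256 * n + 76022937 / 512 * p + 148214187 / 4096

theorem c44e_8_nn {n p : ℝ} (hn : 0 ≤ n) (hp : 0 ≤ p) : 0 ≤ c44e_8 n p := by
  unfold c44e_8; positivity

noncomputable def c44e_9 (n p : ℝ) : ℝ :=
  1 / 2 * n ^ 6 + 17 * n ^ 5 * p + 148 * n ^ 4 * p ^ 2 + 630 * n ^ 3 * p ^ 3 + 1484 * n ^ 2 *
  p ^ 4 + 1859 * n * p ^ 5 + 969 * p ^ 6 + 103 / 4 * n ^ 5 + 578 * n ^ 4 * p + 7889 / 2 * n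
  ^ 3 * p ^ 2 + 12588 * n ^ 2 * p ^ 3 + 79035 / 4 * n * p ^ 4 + 24791 / 2 * p ^ 5 + 2199 / 4
  * n ^ 4 + 63881 / 8 * n ^ 3 * p + 78367 / 2 * n ^ 2 * p ^ 2 + 661631 / 8 * n * p ^ 3 +
  1041007 / 16 * p ^ 4 + 166963 / 32 * n ^ 3 + 210449 / 4 * n ^ 2 * p + 5406459 / 32 * n * p
  ^ 2 + 2861801 / 16 * p ^ 3 + 1663231 / 64 * n ^ 2 + 43052943 / 256 * n * p + 68966487 /
  256 * p ^ 2 + 66865951 / 1024 * n + 107666151 / 512 * p + 269776017 / 4096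

theorem c44e_9_nn {n p : ℝ} (hn : 0 ≤ n) (hp : 0 ≤ p) : 0 ≤ c44e_9 n p := by
  unfold c44e_9; positivity

noncomputable def c44e_10 (n p : ℝ) : ℝ :=
  1 / 2 * n ^ 6 + 17 * n ^ 5 * p + 148 * n ^ 4 * p ^ 2 + 630 * n ^ 3 * p ^ 3 + 1485 * n ^ 2 *
  p ^ 4 + 1863 * n * p ^ 5 + 972 * p ^ 6 + 103 / 4 * n ^ 5 + 578 * n ^ 4 * p + 7889 / 2 * n
  ^ 3 * p ^ 2 + 12609 * n ^ 2 * p ^ 3 + 79407 / 4 * n * p ^ 4 + 12474 * p ^ 5 + 2199 / 4 * n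
  ^ 4 + 63881 / 8 * n ^ 3 * p + 314711 / 8 * n ^ 2 * p ^ 2 + 668115 / 8 * n * p ^ 3 + 263493
  / 4 * p ^ 4 + 166963 / 32 * n ^ 3 + 849377 / 16 * n ^ 2 * p + 5511855 / 32 * n * p ^ 2 +
  732339 / 4 * p ^ 3 + 6779149 / 256 * n ^ 2 + 44649507 / 256 * n * p + 17992141 / 64 * p ^
  2 + 71410051 / 1024 * n + 29028141 / 128 * p + 76879323 / 1024

theorem c44e_10_nn {n p : ℝ} (hn : 0 ≤ n) (hp : 0 ≤ p) : 0 ≤ c44e_10 n p := by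
  unfold c44e_10; positivity

theorem c44e_nn {n p t : ℝ} (hn : 0 ≤ n) (hp : 0 ≤ p) (h0 : 0 < t) (h1 : t ≤ 1) :
    0 ≤ (1 - t) * (c44e_0 n p * t ^ 0 + c44e_1 n p * t ^ 1 + c44e_2 n p * t ^ 2 + c44e_3 n p * t ^ 3
      + c44e_4 n p * t ^ 4 + c44e_5 n p * t ^ 5 + c44e_6 n p * t ^ 6 + c44e_7 n p * t ^ 7 +
      c44e_8 n p * t ^ 8 + c44e_9 n p * t ^ 9) + c44e_10 n p * t ^ 10 := by
  have e0 := c44e_0_nn hn hp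
  have e1 := c44e_1_nn hn hp
  have e2 := c44e_2_nn hn hp
  have e3 := c44e_3_nn hn hp
  have e4 := c44e_4_nn hn hp
  have e5 := c44e_5_nn hn hp
  have e6 := c44e_6_nn hn hp
  have e7 := c44e_7_nn hn hp
  have e8 := c44e_8_nn hn hp
  have e9 := c44e_9_nn hn hp
  have e10 := c44e_10_nn hn hp
  have h2 : 0 ≤ 1 - t := by linarith
  exact add_nonneg (mul_nonneg h2 (by positivity)) (by positivity)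

noncomputable def c44a_5 (n p : ℝ) : ℝ :=
  n ^ 4 + 8 * n ^ 3 * p + 24 * n ^ 2 * p ^ 2 + 32 * n * p ^ 3 + 16 * p ^ 4 + 18 * n ^ 3 + 102
  * n ^ 2 * p + 192 * n * p ^ 2 + 120 * p ^ 3 + 110 * n ^ 2 + 386 * n * p + 335 * p ^ 2 +
  261 * n + 414 * p + 1515 / 8

theorem c44a_5_nn {n p : ℝ} (hn : 0 ≤ n) (hp : 0 ≤ p) : 0 ≤ c44a_5 n p := by
  unfold c44a_5; positivity

noncomputable def c44a_6 (n p : ℝ) : ℝ :=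
  n ^ 4 + 12 * n ^ 3 * p + 48 * n ^ 2 * p ^ 2 + 80 * n * p ^ 3 + 48 * p ^ 4 + 29 * n ^ 3 + 222
  * n ^ 2 * p + 528 * n * p ^ 2 + 400 * p ^ 3 + 517 / 2 * n ^ 2 + 1159 * n * p + 1233 * p ^
  2 + 859 * n + 3373 / 2 * p + 7005 / 8

theorem c44a_6_nn {n p : ℝ} (hn : 0 ≤ n) (hp : 0 ≤ p) : 0 ≤ c44a_6 n p := by
  unfold c44a_6; positivity

noncomputable def c44a_7 (n p : ℝ) : ℝ :=
  n ^ 4 + 12 * n ^ 3 * p + 54 * n ^ 2 * p ^ 2 + 104 * n * p ^ 3 + 72 * p ^ 4 + 29 * n ^ 3 +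
  261 * n ^ 2 * p + 738 * n * p ^ 2 + 658 * p ^ 3 + 2503 / 8 * n ^ 2 + 3455 / 2 * n * p +
  4431 / 2 * p ^ 2 + 10787 / 8 * n + 26311 / 8 * p + 7395 / 4

theorem c44a_7_nn {n p : ℝ} (hn : 0 ≤ n) (hp : 0 ≤ p) : 0 ≤ c44a_7 n p := by
  unfold c44a_7; positivity

noncomputable def c44a_8 (n p : ℝ) : ℝ :=
  n ^ 4 + 12 * n ^ 3 * p + 54 * n ^ 2 * p ^ 2 + 108 * n * p ^ 3 + 80 * p ^ 4 + 29 * n ^ 3 +
  261 * n ^ 2 * p + 783 * n * p ^ 2 + 766 * p ^ 3 + 2503 / 8 * n ^ 2 + 7509 / 4 * n * p +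
  5435 / 2 * p ^ 2 + 23809 / 16 * n + 33937 / 8 * p + 79275 / 32

theorem c44a_8_nn {n p : ℝ} (hn : 0 ≤ n) (hp : 0 ≤ p) : 0 ≤ c44a_8 n p := by
  unfold c44a_8; positivity

noncomputable def c44a_9 (n p : ℝ) : ℝ :=
  n ^ 4 + 12 * n ^ 3 * p + 54 * n ^ 2 * p ^ 2 + 108 * n * p ^ 3 + 81 * p ^ 4 + 29 * n ^ 3 +
  261 * n ^ 2 * p + 783 * n * p ^ 2 + 783 * p ^ 3 + 2503 / 8 * n ^ 2 + 7509 / 4 * n * p +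
  22527 / 8 * p ^ 2 + 23809 / 16 * n + 71427 / 16 * p + 673785 / 256

theorem c44a_9_nn {n p : ℝ} (hn : 0 ≤ n) (hp : 0 ≤ p) : 0 ≤ c44a_9 n p := by
  unfold c44a_9; positivity

theorem c44a_nn {n p t : ℝ} (hn : 0 ≤ n) (hp : 0 ≤ p) (h0 : 0 < t) (h1 : t ≤ 1) :
    0 ≤ (1 - t) * (c44a_5 n p * t ^ 5 + c44a_6 n p * t ^ 6 + c44a_7 n p * t ^ 7 + c44a_8 n p * t ^
      8) + c44a_9 n p * t ^ 9 := by
  have e5 := c44a_5_nn hn hp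
  have e6 := c44a_6_nn hn hp
  have e7 := c44a_7_nn hn hp
  have e8 := c44a_8_nn hn hp
  have e9 := c44a_9_nn hn hp
  have h2 : 0 ≤ 1 - t := by linarith
  exact add_nonneg (mul_nonneg h2 (by positivity)) (by positivity)

noncomputable def c44b_0 (n p : ℝ) : ℝ :=
  24

theorem c44b_0_nn {n p : ℝ} (hn : 0 ≤ n) (hp : 0 ≤ p) : 0 ≤ c44b_0 n p := by
  unfold c44b_0; positivity

noncomputable def c44b_1 (n p : ℝ) : ℝ :=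
  24 * n + 48 * p + 132

theorem c44b_1_nn {n p : ℝ} (hn : 0 ≤ n) (hp : 0 ≤ p) : 0 ≤ c44b_1 n p := by
  unfold c44b_1; positivity

noncomputable def c44b_2 (n p : ℝ) : ℝ :=
  12 * n ^ 2 + 48 * n * p + 48 * p ^ 2 + 132 * n + 276 * p + 378

theorem c44b_2_nn {n p : ℝ} (hn : 0 ≤ n) (hp : 0 ≤ p) : 0 ≤ c44b_2 n p := by
  unfold c44b_2; positivity

noncomputable def c44b_3 (n p : ℝ) : ℝ :=
  4 * n ^ 3 + 24 * n ^ 2 * p + 48 * n * p ^ 2 + 32 * p ^ 3 + 66 * n ^ 2 + 276 * n * p + 288 *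
  p ^ 2 + 386 * n + 838 * p + 792

theorem c44b_3_nn {n p : ℝ} (hn : 0 ≤ n) (hp : 0 ≤ p) : 0 ≤ c44b_3 n p := by
  unfold c44b_3; positivity

noncomputable def c44b_4 (n p : ℝ) : ℝ :=
  n ^ 4 + 8 * n ^ 3 * p + 24 * n ^ 2 * p ^ 2 + 32 * n * p ^ 3 + 16 * p ^ 4 + 22 * n ^ 3 + 138
  * n ^ 2 * p + 288 * n * p ^ 2 + 200 * p ^ 3 + 197 * n ^ 2 + 854 * n * p + 923 * p ^ 2 +
  836 * n + 1867 * p + 11169 / 8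

theorem c44b_4_nn {n p : ℝ} (hn : 0 ≤ n) (hp : 0 ≤ p) : 0 ≤ c44b_4 n p := by
  unfold c44b_4; positivity

noncomputable def c44b_5 (n p : ℝ) : ℝ :=
  n ^ 4 + 12 * n ^ 3 * p + 48 * n ^ 2 * p ^ 2 + 80 * n * p ^ 3 + 48 * p ^ 4 + 29 * n ^ 3 + 234
  * n ^ 2 * p + 588 * n * p ^ 2 + 472 * p ^ 3 + 583 / 2 * n ^ 2 + 1477 * n * p + 1791 * p ^
  2 + 5059 / 4 * n + 3098 * p + 8199 / 4

theorem c44b_5_nn {n p : ℝ} (hn : 0 ≤ n) (hp : 0 ≤ p) : 0 ≤ c44b_5 n p := by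
  unfold c44b_5; positivity

noncomputable def c44b_6 (n p : ℝ) : ℝ :=
  n ^ 4 + 12 * n ^ 3 * p + 54 * n ^ 2 * p ^ 2 + 104 * n * p ^ 3 + 72 * p ^ 4 + 29 * n ^ 3 +
  261 * n ^ 2 * p + 750 * n * p ^ 2 + 686 * p ^ 3 + 2503 / 8 * n ^ 2 + 3611 / 2 * n * p +
  4941 / 2 * p ^ 2 + 11657 / 8 * n + 32057 / 8 * p + 39645 / 16

theorem c44b_6_nn {n p : ℝ} (hn : 0 ≤ n) (hp : 0 ≤ p) : 0 ≤ c44b_6 n p := by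
  unfold c44b_6; positivity

noncomputable def c44b_7 (n p : ℝ) : ℝ :=
  n ^ 4 + 12 * n ^ 3 * p + 54 * n ^ 2 * p ^ 2 + 108 * n * p ^ 3 + 80 * p ^ 4 + 29 * n ^ 3 +
  261 * n ^ 2 * p + 783 * n * p ^ 2 + 770 * p ^ 3 + 2503 / 8 * n ^ 2 + 7509 / 4 * n * p +
  5525 / 2 * p ^ 2 + 23809 / 16 * n + 35135 / 8 * p + 83745 / 32

theorem c44b_7_nn {n p : ℝ} (hn : 0 ≤ n) (hp : 0 ≤ p) : 0 ≤ c44b_7 n p := by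
  unfold c44b_7; positivity

noncomputable def c44b_8 (n p : ℝ) : ℝ :=
  n ^ 4 + 12 * n ^ 3 * p + 54 * n ^ 2 * p ^ 2 + 108 * n * p ^ 3 + 81 * p ^ 4 + 29 * n ^ 3 +
  261 * n ^ 2 * p + 783 * n * p ^ 2 + 783 * p ^ 3 + 2503 / 8 * n ^ 2 + 7509 / 4 * n * p +
  22527 / 8 * p ^ 2 + 23809 / 16 * n + 71427 / 16 * p + 673785 / 256

theorem c44b_8_nn {n p : ℝ} (hn : 0 ≤ n) (hp : 0 ≤ p) : 0 ≤ c44b_8 n p := by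
  unfold c44b_8; positivity

theorem c44b_nn {n p t : ℝ} (hn : 0 ≤ n) (hp : 0 ≤ p) (h0 : 0 < t) (h1 : t ≤ 1) :
    0 ≤ (1 - t) * (c44b_0 n p * t ^ 0 + c44b_1 n p * t ^ 1 + c44b_2 n p * t ^ 2 + c44b_3 n p * t ^ 3
      + c44b_4 n p * t ^ 4 + c44b_5 n p * t ^ 5 + c44b_6 n p * t ^ 6 + c44b_7 n p * t ^ 7) +
      c44b_8 n p * t ^ 8 := by
  have e0 := c44b_0_nn hn hp
  have e1 := c44b_1_nn hn hp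
  have e2 := c44b_2_nn hn hp
  have e3 := c44b_3_nn hn hp
  have e4 := c44b_4_nn hn hp
  have e5 := c44b_5_nn hn hp
  have e6 := c44b_6_nn hn hp
  have e7 := c44b_7_nn hn hp
  have e8 := c44b_8_nn hn hp
  have h2 : 0 ≤ 1 - t := by linarith
  exact add_nonneg (mul_nonneg h2 (by positivity)) (by positivity)

noncomputable def c44s (n t : ℝ) : ℝ :=
  1 / 2 * t ^ 4 * n ^ 4 + 5 / 2 * t ^ 5 * n ^ 2 + 12 * t ^ 4 * n ^ 3 + 132 * t ^ 5 * n + 103 /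
  2 * t ^ 4 * n ^ 2 + 1 / 2 * t ^ 3 * n ^ 3 + 220 * t ^ 5 + 225 / 2 * t ^ 4 * n + 11 * t ^ 3
  * n ^ 2 + 43 * t ^ 4

theorem c44s_nn {n t : ℝ} (hn : 0 ≤ n) (h0 : 0 < t) : 0 ≤ c44s n t := by
  unfold c44s; positivity

end Pool.Agent.KIQ.POLY

namespace Pool.Agent.KIQ

open POLY

theorem PC4_4 {a q A B t : ℝ} (hq : 5 / 4 ≤ q) (ha : 2 * q + 2 ≤ a)
    (hA : (3 * q - 2) * a ≤ (a ^ 2 - q ^ 2) * A) (hB : q * (3 * q - 2) ≤ (a ^ 2 - q ^ 2) * B)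
    (h0 : 0 < t) (h1 : t ≤ 1) :
    0 ≤
      (pp 0 a q (iniC A B) 4 4).eval t := by
  obtain ⟨p, hp, rfl⟩ : ∃ p : ℝ, 0 ≤ p ∧ q = 5 / 4 + p := ⟨q - 5 / 4, by linarith, by ring⟩
  obtain ⟨n, hn, rfl⟩ : ∃ n : ℝ, 0 ≤ n ∧ a = 2 * (5 / 4 + p) + 2 + n :=
    ⟨a - (2 * (5 / 4 + p) + 2), by linarith, by ring⟩
  simp only [fc_4_4, eval_PL, evL]
  have hc : 0 < (2 * (5 / 4 + p) + 2 + n) ^ 2 - (5 / 4 + p) ^ 2 := by nlinarith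
  refine fin_aux hc (sub_nonneg.2 hA) (sub_nonneg.2 hB)
    (add_nonneg (c44e_nn hn hp h0 h1) (mul_nonneg (c44s_nn hn h0)
      (sq_nonneg ((2 * (5 / 4 + p) + 2 + n) * t - 3))))
    (c44a_nn hn hp h0 h1) (c44b_nn hn hp h0 h1) ?_
  simp only [c44e_0, c44e_1, c44e_2, c44e_3, c44e_4, c44e_5, c44e_6, c44e_7, c44e_8, c44e_9, c44e_10,
    c44a_5, c44a_6, c44a_7, c44a_8, c44a_9, c44b_0, c44b_1, c44b_2, c44b_3, c44b_4, c44b_5,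
    c44b_6, c44b_7, c44b_8, c44s, fc_4_4_0, fc_4_4_1, fc_4_4_2, fc_4_4_3, fc_4_4_4,
    fc_4_4_5, fc_4_4_6, fc_4_4_7, fc_4_4_8, fc_4_4_9, fc_4_4_10]
  ring

end Pool.Agent.KIQ
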