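import Pool.Agent.KIQ.POLYFG

/-!
# PG4: positivity of the polynomials
-/

set_option autoImplicit false
set_option maxRecDepth 10000
set_option linter.unusedSimpArgs false
set_option linter.unusedVariables false

open PowerSeries Finset

namespace Pool.Agent.KIQ.POLY

noncomputable def g40_0 (n p : ℝ) : ℝ :=
  24 * p + 6

theorem g40_0_nn {n p : ℝ} (hn : 0 ≤ n) (hp : 0 ≤ p) : 0 ≤ g40_0 n p := by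
  unfold g40_0; positivity

noncomputable def g40_1 (n p : ℝ) : ℝ :=
  24 * n * p + 48 * p ^ 2 + 6 * n + 120 * p + 27

theorem g40_1_nn {n p : ℝ} (hn : 0 ≤ n) (hp : 0 ≤ p) : 0 ≤ g40_1 n p := by
  unfold g40_1; positivity

noncomputable def g40_2 (n p : ℝ) : ℝ :=
  12 * n ^ 2 * p + 48 * n * p ^ 2 + 48 * p ^ 3 + 3 * n ^ 2 + 120 * n * p + 228 * p ^ 2 + 27 *
  n + 281 * p + 227 / 4

theorem g40_2_nn {n p : ℝ} (hn : 0 ≤ n) (hp : 0 ≤ p) : 0 ≤ g40_2 n p := by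
  unfold g40_2; positivity

noncomputable def g40_3 (n p : ℝ) : ℝ :=
  4 * n ^ 3 * p + 24 * n ^ 2 * p ^ 2 + 48 * n * p ^ 3 + 32 * p ^ 4 + n ^ 3 + 60 * n ^ 2 * p +
  228 * n * p ^ 2 + 224 * p ^ 3 + 27 / 2 * n ^ 2 + 289 * n * p + 524 * p ^ 2 + 235 / 4 * n +
  446 * p + 657 / 8

theorem g40_3_nn {n p : ℝ} (hn : 0 ≤ n) (hp : 0 ≤ p) : 0 ≤ g40_3 n p := by
  unfold g40_3; positivity

noncomputable def g40_4 (n p : ℝ) : ℝ :=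
  n ^ 4 * p + 8 * n ^ 3 * p ^ 2 + 24 * n ^ 2 * p ^ 3 + 32 * n * p ^ 4 + 16 * p ^ 5 + 1 / 4 * n
  ^ 4 + 20 * n ^ 3 * p + 114 * n ^ 2 * p ^ 2 + 224 * n * p ^ 3 + 148 * p ^ 4 + 9 / 2 * n ^ 3
  + 297 / 2 * n ^ 2 * p + 540 * n * p ^ 2 + 522 * p ^ 3 + 243 / 8 * n ^ 2 + 486 * n * p +
  1701 / 2 * p ^ 2 + 729 / 8 * n + 8949 / 16 * p + 4049 / 64

theorem g40_4_nn {n p : ℝ} (hn : 0 ≤ n) (hp : 0 ≤ p) : 0 ≤ g40_4 n p := by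
  unfold g40_4; positivity

noncomputable def g40_5 (n p : ℝ) : ℝ :=
  n ^ 5 + 11 * n ^ 4 * p + 48 * n ^ 3 * p ^ 2 + 104 * n ^ 2 * p ^ 3 + 112 * n * p ^ 4 + 48 * p
  ^ 5 + 71 / 4 * n ^ 4 + 156 * n ^ 3 * p + 510 * n ^ 2 * p ^ 2 + 736 * n * p ^ 3 + 396 * p ^
  4 + 116 * n ^ 3 + 1551 / 2 * n ^ 2 * p + 1710 * n * p ^ 2 + 1246 * p ^ 3 + 2749 / 8 * n ^
  2 + 1612 * n * p + 3699 / 2 * p ^ 2 + 6947 / 16 * n + 18303 / 16 * p + 6807 / 64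

theorem g40_5_nn {n p : ℝ} (hn : 0 ≤ n) (hp : 0 ≤ p) : 0 ≤ g40_5 n p := by
  unfold g40_5; positivity

noncomputable def g40_6 (n p : ℝ) : ℝ :=
  n ^ 5 + 12 * n ^ 4 * p + 56 * n ^ 3 * p ^ 2 + 128 * n ^ 2 * p ^ 3 + 144 * n * p ^ 4 + 64 * p
  ^ 5 + 23 * n ^ 4 + 212 * n ^ 3 * p + 720 * n ^ 2 * p ^ 2 + 1072 * n * p ^ 3 + 592 * p ^ 4
  + 379 / 2 * n ^ 3 + 1260 * n ^ 2 * p + 2766 * n * p ^ 2 + 2008 * p ^ 3 + 672 * n ^ 2 +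
  2887 * n * p + 3086 * p ^ 2 + 14913 / 16 * n + 7801 / 4 * p + 4093 / 16

theorem g40_6_nn {n p : ℝ} (hn : 0 ≤ n) (hp : 0 ≤ p) : 0 ≤ g40_6 n p := by
  unfold g40_6; positivity

noncomputable def g40_7 (n p : ℝ) : ℝ :=
  n ^ 5 + 12 * n ^ 4 * p + 56 * n ^ 3 * p ^ 2 + 128 * n ^ 2 * p ^ 3 + 144 * n * p ^ 4 + 64 * p
  ^ 5 + 23 * n ^ 4 + 220 * n ^ 3 * p + 768 * n ^ 2 * p ^ 2 + 1168 * n * p ^ 3 + 656 * p ^ 4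
  + 423 / 2 * n ^ 3 + 1476 * n ^ 2 * p + 3366 * n * p ^ 2 + 2520 * p ^ 3 + 903 * n ^ 2 +
  3993 * n * p + 4374 * p ^ 2 + 25161 / 16 * n + 12729 / 4 * p + 9777 / 16

theorem g40_7_nn {n p : ℝ} (hn : 0 ≤ n) (hp : 0 ≤ p) : 0 ≤ g40_7 n p := by
  unfold g40_7; positivity

noncomputable def g40_8 (n p : ℝ) : ℝ :=
  n ^ 5 + 12 * n ^ 4 * p + 56 * n ^ 3 * p ^ 2 + 128 * n ^ 2 * p ^ 3 + 144 * n * p ^ 4 + 64 * p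
  ^ 5 + 23 * n ^ 4 + 220 * n ^ 3 * p + 768 * n ^ 2 * p ^ 2 + 1168 * n * p ^ 3 + 656 * p ^ 4
  + 423 / 2 * n ^ 3 + 1512 * n ^ 2 * p + 3510 * n * p ^ 2 + 2664 * p ^ 3 + 972 * n ^ 2 +
  4521 * n * p + 5154 * p ^ 2 + 32889 / 16 * n + 17637 / 4 * p + 19701 / 16

theorem g40_8_nn {n p : ℝ} (hn : 0 ≤ n) (hp : 0 ≤ p) : 0 ≤ g40_8 n p := by
  unfold g40_8; positivity

noncomputable def g40_9 (n p : ℝ) : ℝ :=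
  n ^ 5 + 12 * n ^ 4 * p + 56 * n ^ 3 * p ^ 2 + 128 * n ^ 2 * p ^ 3 + 144 * n * p ^ 4 + 64 * p
  ^ 5 + 23 * n ^ 4 + 220 * n ^ 3 * p + 768 * n ^ 2 * p ^ 2 + 1168 * n * p ^ 3 + 656 * p ^ 4
  + 423 / 2 * n ^ 3 + 1512 * n ^ 2 * p + 3510 * n * p ^ 2 + 2664 * p ^ 3 + 972 * n ^ 2 +
  4617 * n * p + 5346 * p ^ 2 + 35193 / 16 * n + 20133 / 4 * p + 27765 / 16

theorem g40_9_nn {n p : ℝ} (hn : 0 ≤ n) (hp : 0 ≤ p) : 0 ≤ g40_9 n p := by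
  unfold g40_9; positivity

noncomputable def g40_10 (n p : ℝ) : ℝ :=
  n ^ 5 + 12 * n ^ 4 * p + 56 * n ^ 3 * p ^ 2 + 128 * n ^ 2 * p ^ 3 + 144 * n * p ^ 4 + 64 * p
  ^ 5 + 23 * n ^ 4 + 220 * n ^ 3 * p + 768 * n ^ 2 * p ^ 2 + 1168 * n * p ^ 3 + 656 * p ^ 4
  + 423 / 2 * n ^ 3 + 1512 * n ^ 2 * p + 3510 * n * p ^ 2 + 2664 * p ^ 3 + 972 * n ^ 2 +
  4617 * n * p + 5346 * p ^ 2 + 35193 / 16 * n + 20613 / 4 * p + 30165 / 16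

theorem g40_10_nn {n p : ℝ} (hn : 0 ≤ n) (hp : 0 ≤ p) : 0 ≤ g40_10 n p := by
  unfold g40_10; positivity

theorem g40_nn {n p t : ℝ} (hn : 0 ≤ n) (hp : 0 ≤ p) (h0 : 0 < t) (h1 : t ≤ 1) :
    0 ≤ (1 - t) * (g40_0 n p * t ^ 0 + g40_1 n p * t ^ 1 + g40_2 n p * t ^ 2 + g40_3 n p * t ^ 3 +
      g40_4 n p * t ^ 4 + g40_5 n p * t ^ 5 + g40_6 n p * t ^ 6 + g40_7 n p * t ^ 7 + g40_8
      n p * t ^ 8 + g40_9 n p * t ^ 9) + g40_10 n p * t ^ 10 := by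
  have e0 := g40_0_nn hn hp
  have e1 := g40_1_nn hn hp
  have e2 := g40_2_nn hn hp
  have e3 := g40_3_nn hn hp
  have e4 := g40_4_nn hn hp
  have e5 := g40_5_nn hn hp
  have e6 := g40_6_nn hn hp
  have e7 := g40_7_nn hn hp
  have e8 := g40_8_nn hn hp
  have e9 := g40_9_nn hn hp
  have e10 := g40_10_nn hn hp
  have h2 : 0 ≤ 1 - t := by linarith
  exact add_nonneg (mul_nonneg h2 (by positivity)) (by positivity)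

end Pool.Agent.KIQ.POLY

namespace Pool.Agent.KIQ

open POLY

theorem PG4_0 {a q t : ℝ} (hq : 5 / 4 ≤ q) (ha : 2 * q + 1 ≤ a) (h0 : 0 < t) (h1 : t ≤ 1) :
    31 * t ^ 4 * ((q - 1) * t ^ 2 + a * t + q) + 2 * t ^ 4 * ((q - 1) + a * t + q * t ^ 2) ≤
      (pp 1 a q (iniG a q) 4 0).eval t := by
  obtain ⟨p, hp, rfl⟩ : ∃ p : ℝ, 0 ≤ p ∧ q = 5 / 4 + p := ⟨q - 5 / 4, by linarith, by ring⟩
  obtain ⟨n, hn, rfl⟩ : ∃ n : ℝ, 0 ≤ n ∧ a = 2 * (5 / 4 + p) + 1 + n :=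
    ⟨a - (2 * (5 / 4 + p) + 1), by linarith, by ring⟩
  simp only [fg_4_0, eval_PL, evL]
  refine le_of_sub_nonneg (le_of_le_of_eq (g40_nn hn hp h0 h1) ?_)
  simp only [g40_0, g40_1, g40_2, g40_3, g40_4, g40_5, g40_6, g40_7, g40_8, g40_9, g40_10, fg_4_0_0,
    fg_4_0_1, fg_4_0_2, fg_4_0_3, fg_4_0_4, fg_4_0_5, fg_4_0_6, fg_4_0_7, fg_4_0_8,
    fg_4_0_9, fg_4_0_10]
  ring

end Pool.Agent.KIQ

namespace Pool.Agent.KIQ.POLY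

noncomputable def g41_0 (n p : ℝ) : ℝ :=
  96 * p + 24

theorem g41_0_nn {n p : ℝ} (hn : 0 ≤ n) (hp : 0 ≤ p) : 0 ≤ g41_0 n p := by
  unfold g41_0; positivity

noncomputable def g41_1 (n p : ℝ) : ℝ :=
  96 * n * p + 192 * p ^ 2 + 24 * n + 480 * p + 108

theorem g41_1_nn {n p : ℝ} (hn : 0 ≤ n) (hp : 0 ≤ p) : 0 ≤ g41_1 n p := by
  unfold g41_1; positivity

noncomputable def g41_2 (n p : ℝ) : ℝ :=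
  48 * n ^ 2 * p + 192 * n * p ^ 2 + 192 * p ^ 3 + 12 * n ^ 2 + 480 * n * p + 924 * p ^ 2 +
  108 * n + 1170 * p + 951 / 4

theorem g41_2_nn {n p : ℝ} (hn : 0 ≤ n) (hp : 0 ≤ p) : 0 ≤ g41_2 n p := by
  unfold g41_2; positivity

noncomputable def g41_3 (n p : ℝ) : ℝ :=
  16 * n ^ 3 * p + 96 * n ^ 2 * p ^ 2 + 192 * n * p ^ 3 + 128 * p ^ 4 + 4 * n ^ 3 + 240 * n ^
  2 * p + 924 * n * p ^ 2 + 920 * p ^ 3 + 54 * n ^ 2 + 1202 * n * p + 2242 * p ^ 2 + 983 / 4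
  * n + 4025 / 2 * p + 3015 / 8

theorem g41_3_nn {n p : ℝ} (hn : 0 ≤ n) (hp : 0 ≤ p) : 0 ≤ g41_3 n p := by
  unfold g41_3; positivity

noncomputable def g41_4 (n p : ℝ) : ℝ :=
  4 * n ^ 4 * p + 32 * n ^ 3 * p ^ 2 + 96 * n ^ 2 * p ^ 3 + 128 * n * p ^ 4 + 64 * p ^ 5 + n ^
  4 + 80 * n ^ 3 * p + 462 * n ^ 2 * p ^ 2 + 920 * n * p ^ 3 + 616 * p ^ 4 + 18 * n ^ 3 +
  617 * n ^ 2 * p + 2306 * n * p ^ 2 + 2288 * p ^ 3 + 1015 / 8 * n ^ 2 + 4345 / 2 * n * p +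
  3963 * p ^ 2 + 3303 / 8 * n + 11627 / 4 * p + 15405 / 32

theorem g41_4_nn {n p : ℝ} (hn : 0 ≤ n) (hp : 0 ≤ p) : 0 ≤ g41_4 n p := by
  unfold g41_4; positivity

noncomputable def g41_5 (n p : ℝ) : ℝ :=
  4 * n ^ 5 + 44 * n ^ 4 * p + 196 * n ^ 3 * p ^ 2 + 440 * n ^ 2 * p ^ 3 + 496 * n * p ^ 4 +
  224 * p ^ 5 + 71 * n ^ 4 + 630 * n ^ 3 * p + 2124 * n ^ 2 * p ^ 2 + 3208 * n * p ^ 3 +
  1824 * p ^ 4 + 1821 / 4 * n ^ 3 + 6271 / 2 * n ^ 2 * p + 7284 * n * p ^ 2 + 5668 * p ^ 3 +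
  1288 * n ^ 2 + 13135 / 2 * n * p + 8294 * p ^ 2 + 25725 / 16 * n + 42247 / 8 * p + 1567 /
  2

theorem g41_5_nn {n p : ℝ} (hn : 0 ≤ n) (hp : 0 ≤ p) : 0 ≤ g41_5 n p := by
  unfold g41_5; positivity

noncomputable def g41_6 (n p : ℝ) : ℝ :=
  4 * n ^ 5 + 52 * n ^ 4 * p + 260 * n ^ 3 * p ^ 2 + 632 * n ^ 2 * p ^ 3 + 752 * n * p ^ 4 +
  352 * p ^ 5 + 103 * n ^ 4 + 998 * n ^ 3 * p + 3564 * n ^ 2 * p ^ 2 + 5576 * n * p ^ 3 +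
  3232 * p ^ 4 + 3613 / 4 * n ^ 3 + 12415 / 2 * n ^ 2 * p + 14196 * n * p ^ 2 + 10788 * p ^
  3 + 3259 * n ^ 2 + 28791 / 2 * n * p + 16126 * p ^ 2 + 70861 / 16 * n + 80571 / 8 * p +
  5657 / 4

theorem g41_6_nn {n p : ℝ} (hn : 0 ≤ n) (hp : 0 ≤ p) : 0 ≤ g41_6 n p := by
  unfold g41_6; positivity

noncomputable def g41_7 (n p : ℝ) : ℝ :=
  4 * n ^ 5 + 52 * n ^ 4 * p + 264 * n ^ 3 * p ^ 2 + 656 * n ^ 2 * p ^ 3 + 800 * n * p ^ 4 +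
  384 * p ^ 5 + 103 * n ^ 4 + 1076 * n ^ 3 * p + 4074 * n ^ 2 * p ^ 2 + 6680 * n * p ^ 3 +
  4024 * p ^ 4 + 2145 / 2 * n ^ 3 + 8042 * n ^ 2 * p + 19546 * n * p ^ 2 + 15504 * p ^ 3 +
  40289 / 8 * n ^ 2 + 46693 / 2 * n * p + 26727 * p ^ 2 + 37397 / 4 * n + 39345 / 2 * p +
  131923 / 32

theorem g41_7_nn {n p : ℝ} (hn : 0 ≤ n) (hp : 0 ≤ p) : 0 ≤ g41_7 n p := by
  unfold g41_7; positivity

noncomputable def g41_8 (n p : ℝ) : ℝ :=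
  4 * n ^ 5 + 52 * n ^ 4 * p + 264 * n ^ 3 * p ^ 2 + 656 * n ^ 2 * p ^ 3 + 800 * n * p ^ 4 +
  384 * p ^ 5 + 103 * n ^ 4 + 1076 * n ^ 3 * p + 4116 * n ^ 2 * p ^ 2 + 6848 * n * p ^ 3 +
  4192 * p ^ 4 + 2145 / 2 * n ^ 3 + 8447 * n ^ 2 * p + 21460 * n * p ^ 2 + 17712 * p ^ 3 +
  22579 / 4 * n ^ 2 + 28616 * n * p + 34996 * p ^ 2 + 108877 / 8 * n + 62439 / 2 * p + 77651
  / 8

theorem g41_8_nn {n p : ℝ} (hn : 0 ≤ n) (hp : 0 ≤ p) : 0 ≤ g41_8 n p := by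
  unfold g41_8; positivity

noncomputable def g41_9 (n p : ℝ) : ℝ :=
  4 * n ^ 5 + 52 * n ^ 4 * p + 264 * n ^ 3 * p ^ 2 + 656 * n ^ 2 * p ^ 3 + 800 * n * p ^ 4 +
  384 * p ^ 5 + 103 * n ^ 4 + 1076 * n ^ 3 * p + 4116 * n ^ 2 * p ^ 2 + 6848 * n * p ^ 3 +
  4192 * p ^ 4 + 2145 / 2 * n ^ 3 + 8447 * n ^ 2 * p + 21652 * n * p ^ 2 + 18096 * p ^ 3 +
  22579 / 4 * n ^ 2 + 29816 * n * p + 38068 * p ^ 2 + 119821 / 8 * n + 76311 / 2 * p +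
  115955 / 8

theorem g41_9_nn {n p : ℝ} (hn : 0 ≤ n) (hp : 0 ≤ p) : 0 ≤ g41_9 n p := by
  unfold g41_9; positivity

noncomputable def g41_10 (n p : ℝ) : ℝ :=
  4 * n ^ 5 + 52 * n ^ 4 * p + 264 * n ^ 3 * p ^ 2 + 656 * n ^ 2 * p ^ 3 + 800 * n * p ^ 4 +
  384 * p ^ 5 + 103 * n ^ 4 + 1076 * n ^ 3 * p + 4116 * n ^ 2 * p ^ 2 + 6848 * n * p ^ 3 +
  4192 * p ^ 4 + 2145 / 2 * n ^ 3 + 8447 * n ^ 2 * p + 21652 * n * p ^ 2 + 18096 * p ^ 3 +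
  22579 / 4 * n ^ 2 + 29816 * n * p + 38428 * p ^ 2 + 119821 / 8 * n + 79551 / 2 * p +
  127655 / 8

theorem g41_10_nn {n p : ℝ} (hn : 0 ≤ n) (hp : 0 ≤ p) : 0 ≤ g41_10 n p := by
  unfold g41_10; positivity

theorem g41_nn {n p t : ℝ} (hn : 0 ≤ n) (hp : 0 ≤ p) (h0 : 0 < t) (h1 : t ≤ 1) :
    0 ≤ (1 - t) * (g41_0 n p * t ^ 0 + g41_1 n p * t ^ 1 + g41_2 n p * t ^ 2 + g41_3 n p * t ^ 3 +
      g41_4 n p * t ^ 4 + g41_5 n p * t ^ 5 + g41_6 n p * t ^ 6 + g41_7 n p * t ^ 7 + g41_8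
      n p * t ^ 8 + g41_9 n p * t ^ 9) + g41_10 n p * t ^ 10 := by
  have e0 := g41_0_nn hn hp
  have e1 := g41_1_nn hn hp
  have e2 := g41_2_nn hn hp
  have e3 := g41_3_nn hn hp
  have e4 := g41_4_nn hn hp
  have e5 := g41_5_nn hn hp
  have e6 := g41_6_nn hn hp
  have e7 := g41_7_nn hn hp
  have e8 := g41_8_nn hn hp
  have e9 := g41_9_nn hn hp
  have e10 := g41_10_nn hn hp
  have h2 : 0 ≤ 1 - t := by linarith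
  exact add_nonneg (mul_nonneg h2 (by positivity)) (by positivity)

end Pool.Agent.KIQ.POLY

namespace Pool.Agent.KIQ

open POLY

theorem PG4_1 {a q t : ℝ} (hq : 5 / 4 ≤ q) (ha : 2 * q + 1 ≤ a) (h0 : 0 < t) (h1 : t ≤ 1) :
    31 * t ^ 4 * ((q - 1) * t ^ 2 + a * t + q) + 4 * t ^ 4 * ((q - 1) + a * t + q * t ^ 2) ≤
      (pp 1 a q (iniG a q) 4 1).eval t := by
  obtain ⟨p, hp, rfl⟩ : ∃ p : ℝ, 0 ≤ p ∧ q = 5 / 4 + p := ⟨q - 5 / 4, by linarith, by ring⟩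
  obtain ⟨n, hn, rfl⟩ : ∃ n : ℝ, 0 ≤ n ∧ a = 2 * (5 / 4 + p) + 1 + n :=
    ⟨a - (2 * (5 / 4 + p) + 1), by linarith, by ring⟩
  simp only [fg_4_1, eval_PL, evL]
  refine le_of_sub_nonneg (le_of_le_of_eq (g41_nn hn hp h0 h1) ?_)
  simp only [g41_0, g41_1, g41_2, g41_3, g41_4, g41_5, g41_6, g41_7, g41_8, g41_9, g41_10, fg_4_1_0,
    fg_4_1_1, fg_4_1_2, fg_4_1_3, fg_4_1_4, fg_4_1_5, fg_4_1_6, fg_4_1_7, fg_4_1_8,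
    fg_4_1_9, fg_4_1_10]
  ring

end Pool.Agent.KIQ

namespace Pool.Agent.KIQ.POLY

noncomputable def g42_0 (n p : ℝ) : ℝ :=
  144 * p + 36

theorem g42_0_nn {n p : ℝ} (hn : 0 ≤ n) (hp : 0 ≤ p) : 0 ≤ g42_0 n p := by
  unfold g42_0; positivity

noncomputable def g42_1 (n p : ℝ) : ℝ :=
  144 * n * p + 288 * p ^ 2 + 36 * n + 720 * p + 162

theorem g42_1_nn {n p : ℝ} (hn : 0 ≤ n) (hp : 0 ≤ p) : 0 ≤ g42_1 n p := by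
  unfold g42_1; positivity

noncomputable def g42_2 (n p : ℝ) : ℝ :=
  72 * n ^ 2 * p + 288 * n * p ^ 2 + 288 * p ^ 3 + 18 * n ^ 2 + 720 * n * p + 1404 * p ^ 2 +
  162 * n + 1824 * p + 1491 / 4

theorem g42_2_nn {n p : ℝ} (hn : 0 ≤ n) (hp : 0 ≤ p) : 0 ≤ g42_2 n p := by
  unfold g42_2; positivity

noncomputable def g42_3 (n p : ℝ) : ℝ :=
  24 * n ^ 3 * p + 144 * n ^ 2 * p ^ 2 + 288 * n * p ^ 3 + 192 * p ^ 4 + 6 * n ^ 3 + 360 * n ^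
  2 * p + 1404 * n * p ^ 2 + 1416 * p ^ 3 + 81 * n ^ 2 + 1872 * n * p + 3582 * p ^ 2 + 1539
  / 4 * n + 6723 / 2 * p + 5103 / 8

theorem g42_3_nn {n p : ℝ} (hn : 0 ≤ n) (hp : 0 ≤ p) : 0 ≤ g42_3 n p := by
  unfold g42_3; positivity

noncomputable def g42_4 (n p : ℝ) : ℝ :=
  6 * n ^ 4 * p + 48 * n ^ 3 * p ^ 2 + 144 * n ^ 2 * p ^ 3 + 192 * n * p ^ 4 + 96 * p ^ 5 + 3
  / 2 * n ^ 4 + 120 * n ^ 3 * p + 702 * n ^ 2 * p ^ 2 + 1416 * n * p ^ 3 + 960 * p ^ 4 + 27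
  * n ^ 3 + 960 * n ^ 2 * p + 3678 * n * p ^ 2 + 3735 * p ^ 3 + 1587 / 8 * n ^ 2 + 7203 / 2
  * n * p + 27209 / 4 * p ^ 2 + 5535 / 8 * n + 84687 / 16 * p + 60979 / 64

theorem g42_4_nn {n p : ℝ} (hn : 0 ≤ n) (hp : 0 ≤ p) : 0 ≤ g42_4 n p := by
  unfold g42_4; positivity

noncomputable def g42_5 (n p : ℝ) : ℝ :=
  6 * n ^ 5 + 66 * n ^ 4 * p + 300 * n ^ 3 * p ^ 2 + 696 * n ^ 2 * p ^ 3 + 816 * n * p ^ 4 +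
  384 * p ^ 5 + 213 / 2 * n ^ 4 + 954 * n ^ 3 * p + 3312 * n ^ 2 * p ^ 2 + 5208 * n * p ^ 3
  + 3096 * p ^ 4 + 2679 / 4 * n ^ 3 + 9507 / 2 * n ^ 2 * p + 11605 * n * p ^ 2 + 9557 * p ^
  3 + 7209 / 4 * n ^ 2 + 10056 * n * p + 55591 / 4 * p ^ 2 + 17039 / 8 * n + 141119 / 16 * p
  + 82623 / 64

theorem g42_5_nn {n p : ℝ} (hn : 0 ≤ n) (hp : 0 ≤ p) : 0 ≤ g42_5 n p := by
  unfold g42_5; positivity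

noncomputable def g42_6 (n p : ℝ) : ℝ :=
  6 * n ^ 5 + 84 * n ^ 4 * p + 444 * n ^ 3 * p ^ 2 + 1134 * n ^ 2 * p ^ 3 + 1416 * n * p ^ 4 +
  696 * p ^ 5 + 171 * n ^ 4 + 1722 * n ^ 3 * p + 12765 / 2 * n ^ 2 * p ^ 2 + 10380 * n * p ^
  3 + 6270 * p ^ 4 + 6291 / 4 * n ^ 3 + 88445 / 8 * n ^ 2 * p + 26051 * n * p ^ 2 + 20533 *
  p ^ 3 + 183287 / 32 * n ^ 2 + 103091 / 4 * n * p + 119837 / 4 * p ^ 2 + 239509 / 32 * n +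
  575679 / 32 * p + 265991 / 128

theorem g42_6_nn {n p : ℝ} (hn : 0 ≤ n) (hp : 0 ≤ p) : 0 ≤ g42_6 n p := by
  unfold g42_6; positivity

noncomputable def g42_7 (n p : ℝ) : ℝ :=
  6 * n ^ 5 + 84 * n ^ 4 * p + 462 * n ^ 3 * p ^ 2 + 1242 * n ^ 2 * p ^ 3 + 1632 * n * p ^ 4 +
  840 * p ^ 5 + 171 * n ^ 4 + 1929 * n ^ 3 * p + 15627 / 2 * n ^ 2 * p ^ 2 + 13632 * n * p ^
  3 + 8706 * p ^ 4 + 15747 / 8 * n ^ 3 + 124823 / 8 * n ^ 2 * p + 39775 * n * p ^ 2 + 32999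
  * p ^ 3 + 316217 / 32 * n ^ 2 + 94749 / 2 * n * p + 223967 / 4 * p ^ 2 + 303637 / 16 * n +
  1301577 / 32 * p + 1072321 / 128

theorem g42_7_nn {n p : ℝ} (hn : 0 ≤ n) (hp : 0 ≤ p) : 0 ≤ g42_7 n p := by
  unfold g42_7; positivity

noncomputable def g42_8 (n p : ℝ) : ℝ :=
  6 * n ^ 5 + 84 * n ^ 4 * p + 462 * n ^ 3 * p ^ 2 + 1248 * n ^ 2 * p ^ 3 + 1656 * n * p ^ 4 +
  864 * p ^ 5 + 171 * n ^ 4 + 1929 * n ^ 3 * p + 8016 * n ^ 2 * p ^ 2 + 14484 * n * p ^ 3 +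
  9600 * p ^ 4 + 15747 / 8 * n ^ 3 + 16786 * n ^ 2 * p + 45925 * n * p ^ 2 + 40575 * p ^ 3 +
  11425 * n ^ 2 + 247317 / 4 * n * p + 319161 / 4 * p ^ 2 + 952955 / 32 * n + 1143047 / 16 *
  p + 1453219 / 64

theorem g42_8_nn {n p : ℝ} (hn : 0 ≤ n) (hp : 0 ≤ p) : 0 ≤ g42_8 n p := by
  unfold g42_8; positivity

noncomputable def g42_9 (n p : ℝ) : ℝ :=
  6 * n ^ 5 + 84 * n ^ 4 * p + 462 * n ^ 3 * p ^ 2 + 1248 * n ^ 2 * p ^ 3 + 1656 * n * p ^ 4 +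
  864 * p ^ 5 + 171 * n ^ 4 + 1929 * n ^ 3 * p + 8016 * n ^ 2 * p ^ 2 + 14544 * n * p ^ 3 +
  9720 * p ^ 4 + 15747 / 8 * n ^ 3 + 16786 * n ^ 2 * p + 46879 * n * p ^ 2 + 42693 * p ^ 3 +
  11425 * n ^ 2 + 65520 * n * p + 362043 / 4 * p ^ 2 + 1068443 / 32 * n + 1465217 / 16 * p +
  2261635 / 64

theorem g42_9_nn {n p : ℝ} (hn : 0 ≤ n) (hp : 0 ≤ p) : 0 ≤ g42_9 n p := by
  unfold g42_9; positivity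

noncomputable def g42_10 (n p : ℝ) : ℝ :=
  6 * n ^ 5 + 84 * n ^ 4 * p + 462 * n ^ 3 * p ^ 2 + 1248 * n ^ 2 * p ^ 3 + 1656 * n * p ^ 4 +
  864 * p ^ 5 + 171 * n ^ 4 + 1929 * n ^ 3 * p + 8016 * n ^ 2 * p ^ 2 + 14544 * n * p ^ 3 +
  9720 * p ^ 4 + 15747 / 8 * n ^ 3 + 16786 * n ^ 2 * p + 46879 * n * p ^ 2 + 42876 * p ^ 3 +
  11425 * n ^ 2 + 65520 * n * p + 92295 * p ^ 2 + 1068443 / 32 * n + 773143 / 8 * p +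
  1255715 / 32

theorem g42_10_nn {n p : ℝ} (hn : 0 ≤ n) (hp : 0 ≤ p) : 0 ≤ g42_10 n p := by
  unfold g42_10; positivity

theorem g42_nn {n p t : ℝ} (hn : 0 ≤ n) (hp : 0 ≤ p) (h0 : 0 < t) (h1 : t ≤ 1) :
    0 ≤ (1 - t) * (g42_0 n p * t ^ 0 + g42_1 n p * t ^ 1 + g42_2 n p * t ^ 2 + g42_3 n p * t ^ 3 +
      g42_4 n p * t ^ 4 + g42_5 n p * t ^ 5 + g42_6 n p * t ^ 6 + g42_7 n p * t ^ 7 + g42_8
      n p * t ^ 8 + g42_9 n p * t ^ 9) + g42_10 n p * t ^ 10 := by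
  have e0 := g42_0_nn hn hp
  have e1 := g42_1_nn hn hp
  have e2 := g42_2_nn hn hp
  have e3 := g42_3_nn hn hp
  have e4 := g42_4_nn hn hp
  have e5 := g42_5_nn hn hp
  have e6 := g42_6_nn hn hp
  have e7 := g42_7_nn hn hp
  have e8 := g42_8_nn hn hp
  have e9 := g42_9_nn hn hp
  have e10 := g42_10_nn hn hp
  have h2 : 0 ≤ 1 - t := by linarith
  exact add_nonneg (mul_nonneg h2 (by positivity)) (by positivity)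

end Pool.Agent.KIQ.POLY

namespace Pool.Agent.KIQ

open POLY

theorem PG4_2 {a q t : ℝ} (hq : 5 / 4 ≤ q) (ha : 2 * q + 1 ≤ a) (h0 : 0 < t) (h1 : t ≤ 1) :
    2 * t ^ 4 * ((q - 1) + a * t + q * t ^ 2) ≤
      (pp 1 a q (iniG a q) 4 2).eval t := by
  obtain ⟨p, hp, rfl⟩ : ∃ p : ℝ, 0 ≤ p ∧ q = 5 / 4 + p := ⟨q - 5 / 4, by linarith, by ring⟩
  obtain ⟨n, hn, rfl⟩ : ∃ n : ℝ, 0 ≤ n ∧ a = 2 * (5 / 4 + p) + 1 + n :=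
    ⟨a - (2 * (5 / 4 + p) + 1), by linarith, by ring⟩
  simp only [fg_4_2, eval_PL, evL]
  refine le_of_sub_nonneg (le_of_le_of_eq (g42_nn hn hp h0 h1) ?_)
  simp only [g42_0, g42_1, g42_2, g42_3, g42_4, g42_5, g42_6, g42_7, g42_8, g42_9, g42_10, fg_4_2_0,
    fg_4_2_1, fg_4_2_2, fg_4_2_3, fg_4_2_4, fg_4_2_5, fg_4_2_6, fg_4_2_7, fg_4_2_8,
    fg_4_2_9, fg_4_2_10]
  ring

end Pool.Agent.KIQ

namespace Pool.Agent.KIQ.POLY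

noncomputable def g43_0 (n p : ℝ) : ℝ :=
  96 * p + 24

theorem g43_0_nn {n p : ℝ} (hn : 0 ≤ n) (hp : 0 ≤ p) : 0 ≤ g43_0 n p := by
  unfold g43_0; positivity

noncomputable def g43_1 (n p : ℝ) : ℝ :=
  96 * n * p + 192 * p ^ 2 + 24 * n + 480 * p + 108

theorem g43_1_nn {n p : ℝ} (hn : 0 ≤ n) (hp : 0 ≤ p) : 0 ≤ g43_1 n p := by
  unfold g43_1; positivity

noncomputable def g43_2 (n p : ℝ) : ℝ :=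
  48 * n ^ 2 * p + 192 * n * p ^ 2 + 192 * p ^ 3 + 12 * n ^ 2 + 480 * n * p + 948 * p ^ 2 +
  108 * n + 1262 * p + 1037 / 4

theorem g43_2_nn {n p : ℝ} (hn : 0 ≤ n) (hp : 0 ≤ p) : 0 ≤ g43_2 n p := by
  unfold g43_2; positivity

noncomputable def g43_3 (n p : ℝ) : ℝ :=
  16 * n ^ 3 * p + 96 * n ^ 2 * p ^ 2 + 192 * n * p ^ 3 + 128 * p ^ 4 + 4 * n ^ 3 + 240 * n ^
  2 * p + 948 * n * p ^ 2 + 968 * p ^ 3 + 54 * n ^ 2 + 1294 * n * p + 2534 * p ^ 2 + 1069 /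
  4 * n + 4939 / 2 * p + 3789 / 8

theorem g43_3_nn {n p : ℝ} (hn : 0 ≤ n) (hp : 0 ≤ p) : 0 ≤ g43_3 n p := by
  unfold g43_3; positivity

noncomputable def g43_4 (n p : ℝ) : ℝ :=
  4 * n ^ 4 * p + 32 * n ^ 3 * p ^ 2 + 96 * n ^ 2 * p ^ 3 + 128 * n * p ^ 4 + 64 * p ^ 5 + n ^
  4 + 80 * n ^ 3 * p + 474 * n ^ 2 * p ^ 2 + 968 * n * p ^ 3 + 664 * p ^ 4 + 18 * n ^ 3 +
  663 * n ^ 2 * p + 2598 * n * p ^ 2 + 2694 * p ^ 3 + 1101 / 8 * n ^ 2 + 5259 / 2 * n * p +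
  10235 / 2 * p ^ 2 + 4077 / 8 * n + 33071 / 8 * p + 12051 / 16

theorem g43_4_nn {n p : ℝ} (hn : 0 ≤ n) (hp : 0 ≤ p) : 0 ≤ g43_4 n p := by
  unfold g43_4; positivity

noncomputable def g43_5 (n p : ℝ) : ℝ :=
  4 * n ^ 5 + 44 * n ^ 4 * p + 204 * n ^ 3 * p ^ 2 + 488 * n ^ 2 * p ^ 3 + 592 * n * p ^ 4 +
  288 * p ^ 5 + 71 * n ^ 4 + 642 * n ^ 3 * p + 2292 * n ^ 2 * p ^ 2 + 3736 * n * p ^ 3 +
  2304 * p ^ 4 + 1751 / 4 * n ^ 3 + 6405 / 2 * n ^ 2 * p + 8198 * n * p ^ 2 + 7094 * p ^ 3 +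
  1115 * n ^ 2 + 13715 / 2 * n * p + 20623 / 2 * p ^ 2 + 19265 / 16 * n + 6466 * p + 25733 /
  32

theorem g43_5_nn {n p : ℝ} (hn : 0 ≤ n) (hp : 0 ≤ p) : 0 ≤ g43_5 n p := by
  unfold g43_5; positivity

noncomputable def g43_6 (n p : ℝ) : ℝ :=
  4 * n ^ 5 + 60 * n ^ 4 * p + 332 * n ^ 3 * p ^ 2 + 884 * n ^ 2 * p ^ 3 + 1152 * n * p ^ 4 +
  592 * p ^ 5 + 125 * n ^ 4 + 1298 * n ^ 3 * p + 4953 * n ^ 2 * p ^ 2 + 8320 * n * p ^ 3 +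
  5210 * p ^ 4 + 4775 / 4 * n ^ 3 + 34115 / 4 * n ^ 2 * p + 20578 * n * p ^ 2 + 16734 * p ^
  3 + 69863 / 16 * n ^ 2 + 19907 * n * p + 95557 / 4 * p ^ 2 + 43537 / 8 * n + 219089 / 16 *
  p + 139761 / 128

theorem g43_6_nn {n p : ℝ} (hn : 0 ≤ n) (hp : 0 ≤ p) : 0 ≤ g43_6 n p := by
  unfold g43_6; positivity

noncomputable def g43_7 (n p : ℝ) : ℝ :=
  4 * n ^ 5 + 60 * n ^ 4 * p + 356 * n ^ 3 * p ^ 2 + 1028 * n ^ 2 * p ^ 3 + 1444 * n * p ^ 4 +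
  792 * p ^ 5 + 125 * n ^ 4 + 1510 * n ^ 3 * p + 6477 * n ^ 2 * p ^ 2 + 11900 * n * p ^ 3 +
  7984 * p ^ 4 + 6261 / 4 * n ^ 3 + 51935 / 4 * n ^ 2 * p + 68751 / 2 * n * p ^ 2 + 29579 *
  p ^ 3 + 132275 / 16 * n ^ 2 + 162731 / 4 * n * p + 49304 * p ^ 2 + 1038625 / 64 * n +
  1126127 / 32 * p + 55905 / 8

theorem g43_7_nn {n p : ℝ} (hn : 0 ≤ n) (hp : 0 ≤ p) : 0 ≤ g43_7 n p := by
  unfold g43_7; positivity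

noncomputable def g43_8 (n p : ℝ) : ℝ :=
  4 * n ^ 5 + 60 * n ^ 4 * p + 356 * n ^ 3 * p ^ 2 + 1044 * n ^ 2 * p ^ 3 + 1508 * n * p ^ 4 +
  856 * p ^ 5 + 125 * n ^ 4 + 1510 * n ^ 3 * p + 6765 * n ^ 2 * p ^ 2 + 13164 * n * p ^ 3 +
  9368 * p ^ 4 + 6261 / 4 * n ^ 3 + 57139 / 4 * n ^ 2 * p + 83191 / 2 * n * p ^ 2 + 38881 *
  p ^ 3 + 156875 / 16 * n ^ 2 + 223759 / 4 * n * p + 150779 / 2 * p ^ 2 + 1727425 / 64 * n +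
  2146091 / 32 * p + 85545 / 4

theorem g43_8_nn {n p : ℝ} (hn : 0 ≤ n) (hp : 0 ≤ p) : 0 ≤ g43_8 n p := by
  unfold g43_8; positivity

noncomputable def g43_9 (n p : ℝ) : ℝ :=
  4 * n ^ 5 + 60 * n ^ 4 * p + 356 * n ^ 3 * p ^ 2 + 1044 * n ^ 2 * p ^ 3 + 1512 * n * p ^ 4 +
  864 * p ^ 5 + 125 * n ^ 4 + 1510 * n ^ 3 * p + 6765 * n ^ 2 * p ^ 2 + 13320 * n * p ^ 3 +
  9694 * p ^ 4 + 6261 / 4 * n ^ 3 + 57139 / 4 * n ^ 2 * p + 42979 * n * p ^ 2 + 42194 * p ^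
  3 + 156875 / 16 * n ^ 2 + 120245 / 2 * n * p + 354389 / 4 * p ^ 2 + 981845 / 32 * n +
  356353 / 4 * p + 4391295 / 128

theorem g43_9_nn {n p : ℝ} (hn : 0 ≤ n) (hp : 0 ≤ p) : 0 ≤ g43_9 n p := by
  unfold g43_9; positivity

noncomputable def g43_10 (n p : ℝ) : ℝ :=
  4 * n ^ 5 + 60 * n ^ 4 * p + 356 * n ^ 3 * p ^ 2 + 1044 * n ^ 2 * p ^ 3 + 1512 * n * p ^ 4 +
  864 * p ^ 5 + 125 * n ^ 4 + 1510 * n ^ 3 * p + 6765 * n ^ 2 * p ^ 2 + 13320 * n * p ^ 3 +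
  9720 * p ^ 4 + 6261 / 4 * n ^ 3 + 57139 / 4 * n ^ 2 * p + 42979 * n * p ^ 2 + 42636 * p ^
  3 + 156875 / 16 * n ^ 2 + 120245 / 2 * n * p + 91155 * p ^ 2 + 981845 / 32 * n + 758895 /
  8 * p + 1226475 / 32

theorem g43_10_nn {n p : ℝ} (hn : 0 ≤ n) (hp : 0 ≤ p) : 0 ≤ g43_10 n p := by
  unfold g43_10; positivity

theorem g43_nn {n p t : ℝ} (hn : 0 ≤ n) (hp : 0 ≤ p) (h0 : 0 < t) (h1 : t ≤ 1) :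
    0 ≤ (1 - t) * (g43_0 n p * t ^ 0 + g43_1 n p * t ^ 1 + g43_2 n p * t ^ 2 + g43_3 n p * t ^ 3 +
      g43_4 n p * t ^ 4 + g43_5 n p * t ^ 5 + g43_6 n p * t ^ 6 + g43_7 n p * t ^ 7 + g43_8
      n p * t ^ 8 + g43_9 n p * t ^ 9) + g43_10 n p * t ^ 10 := by
  have e0 := g43_0_nn hn hp
  have e1 := g43_1_nn hn hp
  have e2 := g43_2_nn hn hp
  have e3 := g43_3_nn hn hp
  have e4 := g43_4_nn hn hp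
  have e5 := g43_5_nn hn hp
  have e6 := g43_6_nn hn hp
  have e7 := g43_7_nn hn hp
  have e8 := g43_8_nn hn hp
  have e9 := g43_9_nn hn hp
  have e10 := g43_10_nn hn hp
  have h2 : 0 ≤ 1 - t := by linarith
  exact add_nonneg (mul_nonneg h2 (by positivity)) (by positivity)

end Pool.Agent.KIQ.POLY

namespace Pool.Agent.KIQ

open POLY

theorem PG4_3 {a q t : ℝ} (hq : 5 / 4 ≤ q) (ha : 2 * q + 1 ≤ a) (h0 : 0 < t) (h1 : t ≤ 1) :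
    0 ≤
      (pp 1 a q (iniG a q) 4 3).eval t := by
  obtain ⟨p, hp, rfl⟩ : ∃ p : ℝ, 0 ≤ p ∧ q = 5 / 4 + p := ⟨q - 5 / 4, by linarith, by ring⟩
  obtain ⟨n, hn, rfl⟩ : ∃ n : ℝ, 0 ≤ n ∧ a = 2 * (5 / 4 + p) + 1 + n :=
    ⟨a - (2 * (5 / 4 + p) + 1), by linarith, by ring⟩
  simp only [fg_4_3, eval_PL, evL]
  refine le_of_sub_nonneg (le_of_le_of_eq (g43_nn hn hp h0 h1) ?_)
  simp only [g43_0, g43_1, g43_2, g43_3, g43_4, g43_5, g43_6, g43_7, g43_8, g43_9, g43_10, fg_4_3_0,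
    fg_4_3_1, fg_4_3_2, fg_4_3_3, fg_4_3_4, fg_4_3_5, fg_4_3_6, fg_4_3_7, fg_4_3_8,
    fg_4_3_9, fg_4_3_10]
  ring

end Pool.Agent.KIQ

namespace Pool.Agent.KIQ.POLY

noncomputable def g44_0 (n p : ℝ) : ℝ :=
  24 * p + 6

theorem g44_0_nn {n p : ℝ} (hn : 0 ≤ n) (hp : 0 ≤ p) : 0 ≤ g44_0 n p := by
  unfold g44_0; positivity

noncomputable def g44_1 (n p : ℝ) : ℝ :=
  24 * n * p + 48 * p ^ 2 + 6 * n + 120 * p + 27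

theorem g44_1_nn {n p : ℝ} (hn : 0 ≤ n) (hp : 0 ≤ p) : 0 ≤ g44_1 n p := by
  unfold g44_1; positivity

noncomputable def g44_2 (n p : ℝ) : ℝ :=
  12 * n ^ 2 * p + 48 * n * p ^ 2 + 48 * p ^ 3 + 3 * n ^ 2 + 120 * n * p + 240 * p ^ 2 + 27 *
  n + 327 * p + 135 / 2

theorem g44_2_nn {n p : ℝ} (hn : 0 ≤ n) (hp : 0 ≤ p) : 0 ≤ g44_2 n p := by
  unfold g44_2; positivity

noncomputable def g44_3 (n p : ℝ) : ℝ :=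
  4 * n ^ 3 * p + 24 * n ^ 2 * p ^ 2 + 48 * n * p ^ 3 + 32 * p ^ 4 + n ^ 3 + 60 * n ^ 2 * p +
  240 * n * p ^ 2 + 248 * p ^ 3 + 27 / 2 * n ^ 2 + 335 * n * p + 670 * p ^ 2 + 139 / 2 * n +
  1349 / 2 * p + 261 / 2

theorem g44_3_nn {n p : ℝ} (hn : 0 ≤ n) (hp : 0 ≤ p) : 0 ≤ g44_3 n p := by
  unfold g44_3; positivity

noncomputable def g44_4 (n p : ℝ) : ℝ :=
  n ^ 4 * p + 8 * n ^ 3 * p ^ 2 + 24 * n ^ 2 * p ^ 3 + 32 * n * p ^ 4 + 16 * p ^ 5 + 1 / 4 * n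
  ^ 4 + 20 * n ^ 3 * p + 120 * n ^ 2 * p ^ 2 + 248 * n * p ^ 3 + 172 * p ^ 4 + 9 / 2 * n ^ 3
  + 343 / 2 * n ^ 2 * p + 686 * n * p ^ 2 + 725 * p ^ 3 + 143 / 4 * n ^ 2 + 1429 / 2 * n * p
  + 5711 / 4 * p ^ 2 + 279 / 2 * n + 9507 / 8 * p + 6993 / 32

theorem g44_4_nn {n p : ℝ} (hn : 0 ≤ n) (hp : 0 ≤ p) : 0 ≤ g44_4 n p := by
  unfold g44_4; positivity

noncomputable def g44_5 (n p : ℝ) : ℝ :=
  n ^ 5 + 11 * n ^ 4 * p + 52 * n ^ 3 * p ^ 2 + 128 * n ^ 2 * p ^ 3 + 160 * n * p ^ 4 + 80 * p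
  ^ 5 + 71 / 4 * n ^ 4 + 162 * n ^ 3 * p + 594 * n ^ 2 * p ^ 2 + 1000 * n * p ^ 3 + 636 * p
  ^ 4 + 429 / 4 * n ^ 3 + 809 * n ^ 2 * p + 2167 * n * p ^ 2 + 1959 * p ^ 3 + 2057 / 8 * n ^
  2 + 1757 * n * p + 11433 / 4 * p ^ 2 + 3965 / 16 * n + 1783 * p + 3045 / 16

theorem g44_5_nn {n p : ℝ} (hn : 0 ≤ n) (hp : 0 ≤ p) : 0 ≤ g44_5 n p := by
  unfold g44_5; positivity

noncomputable def g44_6 (n p : ℝ) : ℝ :=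
  n ^ 5 + 16 * n ^ 4 * p + 92 * n ^ 3 * p ^ 2 + 254 * n ^ 2 * p ^ 3 + 344 * n * p ^ 4 + 184 *
  p ^ 5 + 34 * n ^ 4 + 362 * n ^ 3 * p + 2829 / 2 * n ^ 2 * p ^ 2 + 2444 * n * p ^ 3 + 1580
  * p ^ 4 + 1339 / 4 * n ^ 3 + 19365 / 8 * n ^ 2 * p + 5957 * n * p ^ 2 + 4981 * p ^ 3 +
  39223 / 32 * n ^ 2 + 22571 / 4 * n * p + 6970 * p ^ 2 + 46535 / 32 * n + 122375 / 32 * p +
  11025 / 64

theorem g44_6_nn {n p : ℝ} (hn : 0 ≤ n) (hp : 0 ≤ p) : 0 ≤ g44_6 n p := by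
  unfold g44_6; positivity

noncomputable def g44_7 (n p : ℝ) : ℝ :=
  n ^ 5 + 16 * n ^ 4 * p + 102 * n ^ 3 * p ^ 2 + 314 * n ^ 2 * p ^ 3 + 468 * n * p ^ 4 + 272 *
  p ^ 5 + 34 * n ^ 4 + 437 * n ^ 3 * p + 3939 / 2 * n ^ 2 * p ^ 2 + 3780 * n * p ^ 3 + 2646
  * p ^ 4 + 3663 / 8 * n ^ 3 + 31575 / 8 * n ^ 2 * p + 21561 / 2 * n * p ^ 2 + 9564 * p ^ 3
  + 80593 / 32 * n ^ 2 + 50647 / 4 * n * p + 62661 / 4 * p ^ 2 + 321785 / 64 * n + 176119 /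
  16 * p + 271635 / 128

theorem g44_7_nn {n p : ℝ} (hn : 0 ≤ n) (hp : 0 ≤ p) : 0 ≤ g44_7 n p := by
  unfold g44_7; positivity

noncomputable def g44_8 (n p : ℝ) : ℝ :=
  n ^ 5 + 16 * n ^ 4 * p + 102 * n ^ 3 * p ^ 2 + 324 * n ^ 2 * p ^ 3 + 508 * n * p ^ 4 + 313 *
  p ^ 5 + 34 * n ^ 4 + 437 * n ^ 3 * p + 2097 * n ^ 2 * p ^ 2 + 4360 * n * p ^ 3 + 13213 / 4
  * p ^ 4 + 3663 / 8 * n ^ 3 + 17735 / 4 * n ^ 2 * p + 27241 / 2 * n * p ^ 2 + 106813 / 8 *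
  p ^ 3 + 48839 / 16 * n ^ 2 + 36411 / 2 * n * p + 814141 / 32 * p ^ 2 + 560975 / 64 * n +
  5743581 / 256 * p + 7326585 / 1024

theorem g44_8_nn {n p : ℝ} (hn : 0 ≤ n) (hp : 0 ≤ p) : 0 ≤ g44_8 n p := by
  unfold g44_8; positivity

noncomputable def g44_9 (n p : ℝ) : ℝ :=
  n ^ 5 + 16 * n ^ 4 * p + 102 * n ^ 3 * p ^ 2 + 324 * n ^ 2 * p ^ 3 + 513 * n * p ^ 4 + 323 *
  p ^ 5 + 34 * n ^ 4 + 437 * n ^ 3 * p + 2097 * n ^ 2 * p ^ 2 + 4455 * n * p ^ 3 + 14043 / 4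
  * p ^ 4 + 3663 / 8 * n ^ 3 + 17735 / 4 * n ^ 2 * p + 113919 / 8 * n * p ^ 2 + 119383 / 8 *
  p ^ 3 + 48839 / 16 * n ^ 2 + 316843 / 16 * n * p + 985731 / 32 * p ^ 2 + 2578505 / 256 * n
  + 7843871 / 256 * p + 12011055 / 1024

theorem g44_9_nn {n p : ℝ} (hn : 0 ≤ n) (hp : 0 ≤ p) : 0 ≤ g44_9 n p := by
  unfold g44_9; positivity

noncomputable def g44_10 (n p : ℝ) : ℝ :=
  n ^ 5 + 16 * n ^ 4 * p + 102 * n ^ 3 * p ^ 2 + 324 * n ^ 2 * p ^ 3 + 513 * n * p ^ 4 + 324 *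
  p ^ 5 + 34 * n ^ 4 + 437 * n ^ 3 * p + 2097 * n ^ 2 * p ^ 2 + 4455 * n * p ^ 3 + 3537 * p
  ^ 4 + 3663 / 8 * n ^ 3 + 17735 / 4 * n ^ 2 * p + 113919 / 8 * n * p ^ 2 + 30357 / 2 * p ^
  3 + 48839 / 16 * n ^ 2 + 316843 / 16 * n * p + 255489 / 8 * p ^ 2 + 2578505 / 256 * n +
  2102325 / 64 * p + 3368925 / 256

theorem g44_10_nn {n p : ℝ} (hn : 0 ≤ n) (hp : 0 ≤ p) : 0 ≤ g44_10 n p := by
  unfold g44_10; positivity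

theorem g44_nn {n p t : ℝ} (hn : 0 ≤ n) (hp : 0 ≤ p) (h0 : 0 < t) (h1 : t ≤ 1) :
    0 ≤ (1 - t) * (g44_0 n p * t ^ 0 + g44_1 n p * t ^ 1 + g44_2 n p * t ^ 2 + g44_3 n p * t ^ 3 +
      g44_4 n p * t ^ 4 + g44_5 n p * t ^ 5 + g44_6 n p * t ^ 6 + g44_7 n p * t ^ 7 + g44_8
      n p * t ^ 8 + g44_9 n p * t ^ 9) + g44_10 n p * t ^ 10 := by
  have e0 := g44_0_nn hn hp
  have e1 := g44_1_nn hn hp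
  have e2 := g44_2_nn hn hp
  have e3 := g44_3_nn hn hp
  have e4 := g44_4_nn hn hp
  have e5 := g44_5_nn hn hp
  have e6 := g44_6_nn hn hp
  have e7 := g44_7_nn hn hp
  have e8 := g44_8_nn hn hp
  have e9 := g44_9_nn hn hp
  have e10 := g44_10_nn hn hp
  have h2 : 0 ≤ 1 - t := by linarith
  exact add_nonneg (mul_nonneg h2 (by positivity)) (by positivity)

end Pool.Agent.KIQ.POLY

namespace Pool.Agent.KIQ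

open POLY

theorem PG4_4 {a q t : ℝ} (hq : 5 / 4 ≤ q) (ha : 2 * q + 1 ≤ a) (h0 : 0 < t) (h1 : t ≤ 1) :
    0 ≤
      (pp 1 a q (iniG a q) 4 4).eval t := by
  obtain ⟨p, hp, rfl⟩ : ∃ p : ℝ, 0 ≤ p ∧ q = 5 / 4 + p := ⟨q - 5 / 4, by linarith, by ring⟩
  obtain ⟨n, hn, rfl⟩ : ∃ n : ℝ, 0 ≤ n ∧ a = 2 * (5 / 4 + p) + 1 + n :=
    ⟨a - (2 * (5 / 4 + p) + 1), by linarith, by ring⟩
  simp only [fg_4_4, eval_PL, evL]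
  refine le_of_sub_nonneg (le_of_le_of_eq (g44_nn hn hp h0 h1) ?_)
  simp only [g44_0, g44_1, g44_2, g44_3, g44_4, g44_5, g44_6, g44_7, g44_8, g44_9, g44_10, fg_4_4_0,
    fg_4_4_1, fg_4_4_2, fg_4_4_3, fg_4_4_4, fg_4_4_5, fg_4_4_6, fg_4_4_7, fg_4_4_8,
    fg_4_4_9, fg_4_4_10]
  ring

end Pool.Agent.KIQ
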