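import Pool.Agent.KIQ.WWL
import Pool.Agent.KIQ.PG4
import Pool.Agent.KIQ.PC4

/-!
# PTW4: pointwise inequalities
-/

set_option autoImplicit false

open PowerSeries Finset

namespace Pool.Agent.KIQ

private theorem PTW4_core {E t R X q c S N al p00 : ℝ} (hE : 0 ≤ E) (ht : 0 < t)
    (ht1 : t ≤ 1) (hR : 1 ≤ R) (hXR : R ^ 2 = 1 + X) (hc : 0 ≤ c) (hN : 0 ≤ N) (hq : 5 / 4 ≤ q)
    (hal : al ≤ E * N)
    (hS : (1 + X) * (c * t ^ 6 * N) + 2 * t ^ 4 * (1 + X) ^ 2 * p00 ≤ S) :
    c * (t / R) ^ (4 * q - 4) * al +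
      2 * (E * R ^ (q - 0) * (p00 / t)) ≤ E * R ^ (q - 4) * (S / t ^ 5) := by
  have hR0 : 0 < R := by linarith
  have h1 : (t / R) ^ (4 * q - 4) ≤ t * (R ^ (q - 4) * R ^ 2) := by
    rw [div_eq_mul_inv, Real.mul_rpow ht.le (inv_nonneg.2 hR0.le)]
    have h2 : t ^ (4 * q - 4) ≤ t := by
      have := Real.rpow_le_rpow_of_exponent_ge ht ht1 (show (1 : ℝ) ≤ 4 * q - 4 by linarith)
      rwa [Real.rpow_one] at this
    have h3 : (R⁻¹) ^ (4 * q - 4) ≤ R ^ (q - 4) * R ^ 2 := by
      rw [Real.inv_rpow hR0.le, ← Real.rpow_neg hR0.le, ← Real.rpow_natCast R 2,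
        ← Real.rpow_add hR0]
      apply Real.rpow_le_rpow_of_exponent_le hR
      push_cast
      linarith
    exact mul_le_mul h2 h3 (by positivity) ht.le
  have hEN : 0 ≤ E * N := mul_nonneg hE hN
  have h4 : 0 ≤ R ^ (q - 4) := (Real.rpow_pos_of_pos hR0 _).le
  have hRz : R ^ (q - 0) = R ^ (q - 4) * R ^ 4 := by
    rw [← Real.rpow_natCast R 4, ← Real.rpow_add hR0]
    congr 1
    push_cast
    ring
  have hR4 : R ^ 4 = (1 + X) ^ 2 := by rw [← hXR]; ring
  have k1 : c * (t / R) ^ (4 * q - 4) * al ≤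
      E * R ^ (q - 4) * (((1 + X) * (c * t ^ 6 * N)) / t ^ 5) := by
    calc c * (t / R) ^ (4 * q - 4) * al ≤ c * (t / R) ^ (4 * q - 4) * (E * N) := by
          apply mul_le_mul_of_nonneg_left hal
          positivity
      _ ≤ c * (t * (R ^ (q - 4) * R ^ 2)) * (E * N) := by
          apply mul_le_mul_of_nonneg_right _ hEN
          exact mul_le_mul_of_nonneg_left h1 hc
      _ = E * R ^ (q - 4) * (((1 + X) * (c * t ^ 6 * N)) / t ^ 5) := by
          rw [← hXR]
          field_simp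
  have k2 : 2 * (E * R ^ (q - 0) * (p00 / t)) =
      E * R ^ (q - 4) * ((2 * t ^ 4 * (1 + X) ^ 2 * p00) / t ^ 5) := by
    rw [hRz, hR4]
    field_simp
  have k4 : E * R ^ (q - 4) * (((1 + X) * (c * t ^ 6 * N)) / t ^ 5) +
      E * R ^ (q - 4) * ((2 * t ^ 4 * (1 + X) ^ 2 * p00) / t ^ 5) ≤
      E * R ^ (q - 4) * (S / t ^ 5) := by
    rw [← mul_add, ← add_div]
    apply mul_le_mul_of_nonneg_left _ (mul_nonneg hE h4)
    exact div_le_div_of_nonneg_right hS (by positivity)
  rw [k2]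
  linarith

theorem ptG4 {a q T u : ℝ} (h1 : 5 / 4 ≤ q) (h2 : q ≤ 8 / 5) (ha : 2 * q + 1 ≤ a) (hT : 1 ≤ T)
    (hu : 0 < u) :
    31 * Real.tanh u ^ (4 * q - 4) * altG a q T u +
      2 * Phi 1 a q (iniG a q) 0 T u ≤
      Phi 1 a q (iniG a q) 4 T u := by
  have ht := th_pos hT hu
  have ht1 := (th_lt_one T u).le
  have hR := one_le_RR hT u
  have hX := XX_nonneg hT u
  have hal := altG_le (a := a) (q := q) (by linarith) (by linarith) hT hu
  have p0 := PG4_0 h1 ha ht ht1
  have p1 := PG4_1 h1 ha ht ht1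
  have p2 := PG4_2 h1 ha ht ht1
  have p3 := PG4_3 h1 ha ht ht1
  have p4 := PG4_4 h1 ha ht ht1
  have hXR : RR T u ^ 2 = 1 + XX T u := by unfold XX; ring
  have hch := Real.cosh_pos (vv T u)
  have hq1 : 0 ≤ q - 1 := by linarith
  have ha0 : 0 ≤ a := by linarith
  have hN : 0 ≤ (q - 1) + a / th T u + q / th T u ^ 2 := by
    positivity
  have hE : 0 ≤ Real.exp (-(a * vv T u)) * (1 / Real.cosh (vv T u)) ^ 1 := by positivity
  have hp00 : (pp 1 a q (iniG a q) 0 0).eval (th T u) =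
      (q - 1) + a * th T u + q * th T u ^ 2 := by
    simp [pp, iniG, ini]
  have key := PTW4_core (E := Real.exp (-(a * vv T u)) * (1 / Real.cosh (vv T u)) ^ 1)
    (t := th T u) (R := RR T u) (X := XX T u) (q := q) (c := 31)
    (S := ∑ i ∈ range (4 + 1), XX T u ^ i * (pp 1 a q (iniG a q) 4 i).eval (th T u))
    (N := (q - 1) + a / th T u + q / th T u ^ 2) (al := altG a q T u)
    (p00 := (q - 1) + a * th T u + q * th T u ^ 2) hE ht ht1 hR hXR (by norm_num) hN h1
    (by
      refine hal.trans ?_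
      rw [pow_one] at hE ⊢
      exact div_le_self (mul_nonneg hE hN) hR)
    (by
      rw [Finset.sum_range_succ, Finset.sum_range_succ, Finset.sum_range_succ,
        Finset.sum_range_succ, Finset.sum_range_succ,
        Finset.sum_range_zero]
      have hb : 31 * th T u ^ 6 * ((q - 1) + a / th T u + q / th T u ^ 2) =
          31 * th T u ^ 4 * ((q - 1) * th T u ^ 2 + a * th T u + q) := by
        field_simp
      rw [hb]
      have q1 := mul_le_mul_of_nonneg_left p1 hX
      have q2 := mul_le_mul_of_nonneg_left p2 (pow_nonneg hX 2)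
      have q3 := mul_nonneg (pow_nonneg hX 3) p3
      have q4 := mul_nonneg (pow_nonneg hX 4) p4
      rw [pow_zero, pow_one]
      linarith)
  rw [tanh_eq hT hu]
  unfold Phi
  have s0 : (∑ i ∈ range (0 + 1), XX T u ^ i * (pp 1 a q (iniG a q) 0 i).eval (th T u)) =
      (q - 1) + a * th T u + q * th T u ^ 2 := by
    rw [Finset.sum_range_succ, Finset.sum_range_zero, hp00]
    ring
  rw [s0]
  have c0 : ((0 : ℕ) : ℝ) = 0 := by norm_num
  have c4 : ((4 : ℕ) : ℝ) = 4 := by norm_num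
  rw [c0, c4, show 4 + 1 = 5 from rfl, show 0 + 1 = 1 from rfl]
  rw [pow_one (th T u)]
  exact key

theorem ptC4 {a q A B T u : ℝ} (h1 : 5 / 4 ≤ q) (h2 : q ≤ 8 / 5) (ha : 2 * q + 2 ≤ a)
    (hA : (3 * q - 2) * a ≤ (a ^ 2 - q ^ 2) * A) (hB : q * (3 * q - 2) ≤ (a ^ 2 - q ^ 2) * B)
    (hT : 1 ≤ T) (hu : 0 < u) :
    31 * Real.tanh u ^ (4 * q - 4) * altC a q A B T u +
      2 * Phi 0 a q (iniC A B) 0 T u ≤
      Phi 0 a q (iniC A B) 4 T u := by
  have ht := th_pos hT hu
  have ht1 := (th_lt_one T u).le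
  have hR := one_le_RR hT u
  have hX := XX_nonneg hT u
  have haq : 0 < a ^ 2 - q ^ 2 := by nlinarith
  have hA0 : 0 ≤ A := by
    by_contra h
    push Not at h
    have := mul_neg_of_pos_of_neg haq h
    have : 0 ≤ (3 * q - 2) * a := mul_nonneg (by linarith) (by linarith)
    linarith
  have hB0 : 0 ≤ B := by
    by_contra h
    push Not at h
    have := mul_neg_of_pos_of_neg haq h
    have : 0 ≤ q * (3 * q - 2) := mul_nonneg (by linarith) (by linarith)
    linarith
  have hal := altC_le (a := a) (q := q) (A := A) (B := B) (by linarith) (by linarith) hA0 hB0 hT hu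
  have p0 := PC4_0 h1 ha hA hB ht ht1
  have p1 := PC4_1 h1 ha hA hB ht ht1
  have p2 := PC4_2 h1 ha hA hB ht ht1
  have p3 := PC4_3 h1 ha hA hB ht ht1
  have p4 := PC4_4 h1 ha hA hB ht ht1
  have hXR : RR T u ^ 2 = 1 + XX T u := by unfold XX; ring
  have hN : 0 ≤ 1 / th T u + A + B := by positivity
  have hE : 0 ≤ Real.exp (-(a * vv T u)) * (1 / Real.cosh (vv T u)) ^ 0 := by positivity
  have hp00 : (pp 0 a q (iniC A B) 0 0).eval (th T u) =
      B + A * th T u + th T u ^ 2 := by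
    simp [pp, iniC, ini]
  have key := PTW4_core (E := Real.exp (-(a * vv T u)) * (1 / Real.cosh (vv T u)) ^ 0)
    (t := th T u) (R := RR T u) (X := XX T u) (q := q) (c := 31)
    (S := ∑ i ∈ range (4 + 1), XX T u ^ i * (pp 0 a q (iniC A B) 4 i).eval (th T u))
    (N := 1 / th T u + A + B) (al := altC a q A B T u)
    (p00 := B + A * th T u + th T u ^ 2) hE ht ht1 hR hXR (by norm_num) hN h1
    (by
      refine hal.trans ?_
      rw [pow_zero, mul_one])
    (by
      rw [Finset.sum_range_succ, Finset.sum_range_succ, Finset.sum_range_succ,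
        Finset.sum_range_succ, Finset.sum_range_succ,
        Finset.sum_range_zero]
      have hb : 31 * th T u ^ 6 * (1 / th T u + A + B) =
          31 * th T u ^ 5 * (1 + (A + B) * th T u) := by
        field_simp
        ring
      rw [hb]
      have q1 := mul_le_mul_of_nonneg_left p1 hX
      have q2 := mul_le_mul_of_nonneg_left p2 (pow_nonneg hX 2)
      have q3 := mul_nonneg (pow_nonneg hX 3) p3
      have q4 := mul_nonneg (pow_nonneg hX 4) p4
      rw [pow_zero, pow_one]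
      linarith)
  rw [tanh_eq hT hu]
  unfold Phi
  have s0 : (∑ i ∈ range (0 + 1), XX T u ^ i * (pp 0 a q (iniC A B) 0 i).eval (th T u)) =
      B + A * th T u + th T u ^ 2 := by
    rw [Finset.sum_range_succ, Finset.sum_range_zero, hp00]
    ring
  rw [s0]
  have c0 : ((0 : ℕ) : ℝ) = 0 := by norm_num
  have c4 : ((4 : ℕ) : ℝ) = 4 := by norm_num
  rw [c0, c4, show 4 + 1 = 5 from rfl, show 0 + 1 = 1 from rfl]
  rw [pow_one (th T u)]
  exact key

end Pool.Agent.KIQ
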