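import Pool.Agent.KIQ.POLYFC

/-!
# PC5: positivity of the polynomials
-/

set_option autoImplicit false
set_option maxRecDepth 10000
set_option linter.unusedSimpArgs false
set_option linter.unusedVariables false

open PowerSeries Finset

namespace Pool.Agent.KIQ.POLY

noncomputable def c50e_0 (n p : ℝ) : ℝ :=
  360 * p ^ 2 + 912 * p + 2688 / 5

theorem c50e_0_nn {n p : ℝ} (hn : 0 ≤ n) (hp : 0 ≤ p) : 0 ≤ c50e_0 n p := by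
  unfold c50e_0; positivity

noncomputable def c50e_1 (n p : ℝ) : ℝ :=
  360 * n * p ^ 2 + 720 * p ^ 3 + 912 * n * p + 4056 * p ^ 2 + 2688 / 5 * n + 33648 / 5 * p +
  83328 / 25

theorem c50e_1_nn {n p : ℝ} (hn : 0 ≤ n) (hp : 0 ≤ p) : 0 ≤ c50e_1 n p := by
  unfold c50e_1; positivity

noncomputable def c50e_2 (n p : ℝ) : ℝ :=
  180 * n ^ 2 * p ^ 2 + 720 * n * p ^ 3 + 720 * p ^ 4 + 456 * n ^ 2 * p + 4056 * n * p ^ 2 +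
  6288 * p ^ 3 + 1344 / 5 * n ^ 2 + 33648 / 5 * n * p + 93816 / 5 * p ^ 2 + 83328 / 25 * n +
  570672 / 25 * p + 1190784 / 125

theorem c50e_2_nn {n p : ℝ} (hn : 0 ≤ n) (hp : 0 ≤ p) : 0 ≤ c50e_2 n p := by
  unfold c50e_2; positivity

noncomputable def c50e_3 (n p : ℝ) : ℝ :=
  60 * n ^ 3 * p ^ 2 + 360 * n ^ 2 * p ^ 3 + 720 * n * p ^ 4 + 480 * p ^ 5 + 152 * n ^ 3 * p +
  2028 * n ^ 2 * p ^ 2 + 6288 * n * p ^ 3 + 5680 * p ^ 4 + 448 / 5 * n ^ 3 + 16824 / 5 * n ^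
  2 * p + 94416 / 5 * n * p ^ 2 + 25024 * p ^ 3 + 41664 / 25 * n ^ 2 + 578272 / 25 * n * p +
  256456 / 5 * p ^ 2 + 1213184 / 125 * n + 49040 * p + 10915968 / 625

theorem c50e_3_nn {n p : ℝ} (hn : 0 ≤ n) (hp : 0 ≤ p) : 0 ≤ c50e_3 n p := by
  unfold c50e_3; positivity

noncomputable def c50e_4 (n p : ℝ) : ℝ :=
  15 * n ^ 4 * p ^ 2 + 120 * n ^ 3 * p ^ 3 + 360 * n ^ 2 * p ^ 4 + 480 * n * p ^ 5 + 240 * p ^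
  6 + 38 * n ^ 4 * p + 676 * n ^ 3 * p ^ 2 + 3144 * n ^ 2 * p ^ 3 + 5680 * n * p ^ 4 + 3584
  * p ^ 5 + 112 / 5 * n ^ 4 + 5608 / 5 * n ^ 3 * p + 47508 / 5 * n ^ 2 * p ^ 2 + 25264 * n *
  p ^ 3 + 21136 * p ^ 4 + 13888 / 25 * n ^ 3 + 292936 / 25 * n ^ 2 * p + 263216 / 5 * n * p
  ^ 2 + 314304 / 5 * p ^ 3 + 617792 / 125 * n ^ 2 + 256416 / 5 * n * p + 2483264 / 25 * p ^
  2 + 11610368 / 625 * n + 49398784 / 625 * p + 77156352 / 3125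

theorem c50e_4_nn {n p : ℝ} (hn : 0 ≤ n) (hp : 0 ≤ p) : 0 ≤ c50e_4 n p := by
  unfold c50e_4; positivity

noncomputable def c50e_5 (n p : ℝ) : ℝ :=
  3 * n ^ 5 * p ^ 2 + 30 * n ^ 4 * p ^ 3 + 120 * n ^ 3 * p ^ 4 + 240 * n ^ 2 * p ^ 5 + 240 * n
  * p ^ 6 + 96 * p ^ 7 + 38 / 5 * n ^ 5 * p + 169 * n ^ 4 * p ^ 2 + 1048 * n ^ 3 * p ^ 3 +
  2840 * n ^ 2 * p ^ 4 + 3584 * n * p ^ 5 + 8656 / 5 * p ^ 6 + 221 / 200 * n ^ 5 + 1402 / 5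
  * n ^ 4 * p + 15936 / 5 * n ^ 3 * p ^ 2 + 12752 * n ^ 2 * p ^ 3 + 21376 * n * p ^ 4 +
  322464 / 25 * p ^ 5 + 8201 / 200 * n ^ 4 + 98912 / 25 * n ^ 3 * p + 134988 / 5 * n ^ 2 * p
  ^ 2 + 324784 / 5 * n * p ^ 3 + 1283824 / 25 * p ^ 4 + 753687 / 1000 * n ^ 3 + 133816 / 5 *
  n ^ 2 * p + 2641424 / 25 * n * p ^ 2 + 14709952 / 125 * p ^ 3 + 7304143 / 1250 * n ^ 2 +
  54268384 / 625 * n * p + 483590988 / 3125 * p ^ 2 + 523290041 / 25000 * n + 1684250008 /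
  15625 * p + 8579572023 / 312500

theorem c50e_5_nn {n p : ℝ} (hn : 0 ≤ n) (hp : 0 ≤ p) : 0 ≤ c50e_5 n p := by
  unfold c50e_5; positivity

noncomputable def c50e_6 (n p : ℝ) : ℝ :=
  3 * n ^ 6 * p + 39 * n ^ 5 * p ^ 2 + 210 * n ^ 4 * p ^ 3 + 600 * n ^ 3 * p ^ 4 + 960 * n ^ 2
  * p ^ 5 + 816 * n * p ^ 6 + 288 * p ^ 7 + 1 / 20 * n ^ 6 + 793 / 10 * n ^ 5 * p + 963 * n
  ^ 4 * p ^ 2 + 4360 * n ^ 3 * p ^ 3 + 9560 * n ^ 2 * p ^ 4 + 51648 / 5 * n * p ^ 5 + 22128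
  / 5 * p ^ 6 + 1883 / 200 * n ^ 5 + 9193 / 10 * n ^ 4 * p + 9792 * n ^ 3 * p ^ 2 + 34688 *
  n ^ 2 * p ^ 3 + 258112 / 5 * n * p ^ 4 + 703872 / 25 * p ^ 5 + 22827 / 200 * n ^ 4 + 12223
  / 2 * n ^ 3 * p + 260612 / 5 * n ^ 2 * p ^ 2 + 3153808 / 25 * n * p ^ 3 + 2368592 / 25 * p
  ^ 4 + 130431 / 200 * n ^ 3 + 128238 / 5 * n ^ 2 * p + 18286928 / 125 * n * p ^ 2 +
  22123936 / 125 * p ^ 3 + 4796319 / 2500 * n ^ 2 + 391946181 / 6250 * n * p + 535924364 /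
  3125 * p ^ 2 + 319925277 / 125000 * n + 1038688679 / 15625 * p + 315060579 / 312500

theorem c50e_6_nn {n p : ℝ} (hn : 0 ≤ n) (hp : 0 ≤ p) : 0 ≤ c50e_6 n p := by
  unfold c50e_6; positivity

noncomputable def c50e_7 (n p : ℝ) : ℝ :=
  5 / 8 * n ^ 7 + 31 / 2 * n ^ 6 * p + 241 / 2 * n ^ 5 * p ^ 2 + 480 * n ^ 4 * p ^ 3 + 1120 *
  n ^ 3 * p ^ 4 + 1552 * n ^ 2 * p ^ 5 + 1184 * n * p ^ 6 + 384 * p ^ 7 + 867 / 40 * n ^ 6 +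
  2308 / 5 * n ^ 5 * p + 6091 / 2 * n ^ 4 * p ^ 2 + 9848 * n ^ 3 * p ^ 3 + 17416 * n ^ 2 * p
  ^ 4 + 81152 / 5 * n * p ^ 5 + 31184 / 5 * p ^ 6 + 32883 / 100 * n ^ 5 + 28261 / 5 * n ^ 4
  * p + 302767 / 10 * n ^ 3 * p ^ 2 + 374056 / 5 * n ^ 2 * p ^ 3 + 447888 / 5 * n * p ^ 4 +
  1056736 / 25 * p ^ 5 + 528599 / 200 * n ^ 4 + 1803769 / 50 * n ^ 3 * p + 3711898 / 25 * n
  ^ 2 * p ^ 2 + 6271792 / 25 * n * p ^ 3 + 3832816 / 25 * p ^ 4 + 1509704 / 125 * n ^ 3 +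
  31851309 / 250 * n ^ 2 * p + 90582969 / 250 * n * p ^ 2 + 39454688 / 125 * p ^ 3 +
  97887811 / 3125 * n ^ 2 + 1486578069 / 6250 * n * p + 1108274727 / 3125 * p ^ 2 +
  5334625673 / 125000 * n + 2873436637 / 15625 * p + 7186402527 / 312500

theorem c50e_7_nn {n p : ℝ} (hn : 0 ≤ n) (hp : 0 ≤ p) : 0 ≤ c50e_7 n p := by
  unfold c50e_7; positivity

noncomputable def c50e_8 (n p : ℝ) : ℝ :=
  5 / 8 * n ^ 7 + 31 / 2 * n ^ 6 * p + 241 / 2 * n ^ 5 * p ^ 2 + 480 * n ^ 4 * p ^ 3 + 1120 *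
  n ^ 3 * p ^ 4 + 1552 * n ^ 2 * p ^ 5 + 1184 * n * p ^ 6 + 384 * p ^ 7 + 1067 / 40 * n ^ 6
  + 2608 / 5 * n ^ 5 * p + 6681 / 2 * n ^ 4 * p ^ 2 + 10608 * n ^ 3 * p ^ 3 + 18496 * n ^ 2
  * p ^ 4 + 85152 / 5 * n * p ^ 5 + 32384 / 5 * p ^ 6 + 48483 / 100 * n ^ 5 + 35981 / 5 * n
  ^ 4 * p + 362847 / 10 * n ^ 3 * p ^ 2 + 431416 / 5 * n ^ 2 * p ^ 3 + 501488 / 5 * n * p ^
  4 + 1154336 / 25 * p ^ 5 + 915639 / 200 * n ^ 4 + 2561209 / 50 * n ^ 3 * p + 4804818 / 25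
  * n ^ 2 * p ^ 2 + 7646992 / 25 * n * p ^ 3 + 4467216 / 25 * p ^ 4 + 3026024 / 125 * n ^ 3
  + 49462189 / 250 * n ^ 2 * p + 124139769 / 250 * n * p ^ 2 + 49920288 / 125 * p ^ 3 +
  223219211 / 3125 * n ^ 2 + 2449626069 / 6250 * n * p + 1564957727 / 3125 * p ^ 2 +
  13490305673 / 125000 * n + 4831726237 / 15625 * p + 19522853727 / 312500

theorem c50e_8_nn {n p : ℝ} (hn : 0 ≤ n) (hp : 0 ≤ p) : 0 ≤ c50e_8 n p := by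
  unfold c50e_8; positivity

noncomputable def c50e_9 (n p : ℝ) : ℝ :=
  5 / 8 * n ^ 7 + 31 / 2 * n ^ 6 * p + 241 / 2 * n ^ 5 * p ^ 2 + 480 * n ^ 4 * p ^ 3 + 1120 *
  n ^ 3 * p ^ 4 + 1552 * n ^ 2 * p ^ 5 + 1184 * n * p ^ 6 + 384 * p ^ 7 + 1067 / 40 * n ^ 6
  + 2608 / 5 * n ^ 5 * p + 6681 / 2 * n ^ 4 * p ^ 2 + 10608 * n ^ 3 * p ^ 3 + 18496 * n ^ 2
  * p ^ 4 + 85152 / 5 * n * p ^ 5 + 32384 / 5 * p ^ 6 + 50483 / 100 * n ^ 5 + 36981 / 5 * n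
  ^ 4 * p + 370647 / 10 * n ^ 3 * p ^ 2 + 438816 / 5 * n ^ 2 * p ^ 3 + 508288 / 5 * n * p ^
  4 + 1166336 / 25 * p ^ 5 + 1019639 / 200 * n ^ 4 + 2766009 / 50 * n ^ 3 * p + 5099418 / 25
  * n ^ 2 * p ^ 2 + 8012592 / 25 * n * p ^ 3 + 4631216 / 25 * p ^ 4 + 3670624 / 125 * n ^ 3
  + 56947789 / 250 * n ^ 2 * p + 138256169 / 250 * n * p ^ 2 + 54222288 / 125 * p ^ 3 +
  298853211 / 3125 * n ^ 2 + 3026250069 / 6250 * n * p + 1833507727 / 3125 * p ^ 2 +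
  20146657673 / 125000 * n + 6407206237 / 15625 * p + 33079877727 / 312500

theorem c50e_9_nn {n p : ℝ} (hn : 0 ≤ n) (hp : 0 ≤ p) : 0 ≤ c50e_9 n p := by
  unfold c50e_9; positivity

noncomputable def c50e_10 (n p : ℝ) : ℝ :=
  5 / 8 * n ^ 7 + 31 / 2 * n ^ 6 * p + 241 / 2 * n ^ 5 * p ^ 2 + 480 * n ^ 4 * p ^ 3 + 1120 *
  n ^ 3 * p ^ 4 + 1552 * n ^ 2 * p ^ 5 + 1184 * n * p ^ 6 + 384 * p ^ 7 + 1067 / 40 * n ^ 6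
  + 2608 / 5 * n ^ 5 * p + 6681 / 2 * n ^ 4 * p ^ 2 + 10608 * n ^ 3 * p ^ 3 + 18496 * n ^ 2
  * p ^ 4 + 85152 / 5 * n * p ^ 5 + 32384 / 5 * p ^ 6 + 50483 / 100 * n ^ 5 + 36981 / 5 * n
  ^ 4 * p + 370647 / 10 * n ^ 3 * p ^ 2 + 438816 / 5 * n ^ 2 * p ^ 3 + 508288 / 5 * n * p ^
  4 + 1166336 / 25 * p ^ 5 + 1031639 / 200 * n ^ 4 + 2790009 / 50 * n ^ 3 * p + 5133918 / 25
  * n ^ 2 * p ^ 2 + 8054592 / 25 * n * p ^ 3 + 4649216 / 25 * p ^ 4 + 3826624 / 125 * n ^ 3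
  + 58771789 / 250 * n ^ 2 * p + 141652169 / 250 * n * p ^ 2 + 55218288 / 125 * p ^ 3 +
  328043211 / 3125 * n ^ 2 + 3247290069 / 6250 * n * p + 1933467727 / 3125 * p ^ 2 +
  23853217673 / 125000 * n + 7264726237 / 15625 * p + 43655237727 / 312500

theorem c50e_10_nn {n p : ℝ} (hn : 0 ≤ n) (hp : 0 ≤ p) : 0 ≤ c50e_10 n p := by
  unfold c50e_10; positivity

noncomputable def c50e_11 (n p : ℝ) : ℝ :=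
  5 / 8 * n ^ 7 + 31 / 2 * n ^ 6 * p + 241 / 2 * n ^ 5 * p ^ 2 + 480 * n ^ 4 * p ^ 3 + 1120 *
  n ^ 3 * p ^ 4 + 1552 * n ^ 2 * p ^ 5 + 1184 * n * p ^ 6 + 384 * p ^ 7 + 1067 / 40 * n ^ 6
  + 2608 / 5 * n ^ 5 * p + 6681 / 2 * n ^ 4 * p ^ 2 + 10608 * n ^ 3 * p ^ 3 + 18496 * n ^ 2
  * p ^ 4 + 85152 / 5 * n * p ^ 5 + 32384 / 5 * p ^ 6 + 50483 / 100 * n ^ 5 + 36981 / 5 * n
  ^ 4 * p + 370647 / 10 * n ^ 3 * p ^ 2 + 438816 / 5 * n ^ 2 * p ^ 3 + 508288 / 5 * n * p ^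
  4 + 1166336 / 25 * p ^ 5 + 1031639 / 200 * n ^ 4 + 2790009 / 50 * n ^ 3 * p + 5133918 / 25
  * n ^ 2 * p ^ 2 + 8054592 / 25 * n * p ^ 3 + 4649216 / 25 * p ^ 4 + 3841624 / 125 * n ^ 3
  + 58951789 / 250 * n ^ 2 * p + 141982169 / 250 * n * p ^ 2 + 55308288 / 125 * p ^ 3 +
  333893211 / 3125 * n ^ 2 + 3291690069 / 6250 * n * p + 1952517727 / 3125 * p ^ 2 +
  25031617673 / 125000 * n + 7528126237 / 15625 * p + 48428837727 / 312500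

theorem c50e_11_nn {n p : ℝ} (hn : 0 ≤ n) (hp : 0 ≤ p) : 0 ≤ c50e_11 n p := by
  unfold c50e_11; positivity

noncomputable def c50e_12 (n p : ℝ) : ℝ :=
  5 / 8 * n ^ 7 + 31 / 2 * n ^ 6 * p + 241 / 2 * n ^ 5 * p ^ 2 + 480 * n ^ 4 * p ^ 3 + 1120 *
  n ^ 3 * p ^ 4 + 1552 * n ^ 2 * p ^ 5 + 1184 * n * p ^ 6 + 384 * p ^ 7 + 1067 / 40 * n ^ 6
  + 2608 / 5 * n ^ 5 * p + 6681 / 2 * n ^ 4 * p ^ 2 + 10608 * n ^ 3 * p ^ 3 + 18496 * n ^ 2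
  * p ^ 4 + 85152 / 5 * n * p ^ 5 + 32384 / 5 * p ^ 6 + 50483 / 100 * n ^ 5 + 36981 / 5 * n
  ^ 4 * p + 370647 / 10 * n ^ 3 * p ^ 2 + 438816 / 5 * n ^ 2 * p ^ 3 + 508288 / 5 * n * p ^
  4 + 1166336 / 25 * p ^ 5 + 1031639 / 200 * n ^ 4 + 2790009 / 50 * n ^ 3 * p + 5133918 / 25
  * n ^ 2 * p ^ 2 + 8054592 / 25 * n * p ^ 3 + 4649216 / 25 * p ^ 4 + 3841624 / 125 * n ^ 3
  + 58951789 / 250 * n ^ 2 * p + 141982169 / 250 * n * p ^ 2 + 55308288 / 125 * p ^ 3 +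
  334268211 / 3125 * n ^ 2 + 3294690069 / 6250 * n * p + 1953642727 / 3125 * p ^ 2 +
  25187617673 / 125000 * n + 7561126237 / 15625 * p + 49346837727 / 312500

theorem c50e_12_nn {n p : ℝ} (hn : 0 ≤ n) (hp : 0 ≤ p) : 0 ≤ c50e_12 n p := by
  unfold c50e_12; positivity

theorem c50e_nn {n p t : ℝ} (hn : 0 ≤ n) (hp : 0 ≤ p) (h0 : 0 < t) (h1 : t ≤ 1) :
    0 ≤ (1 - t) * (c50e_0 n p * t ^ 0 + c50e_1 n p * t ^ 1 + c50e_2 n p * t ^ 2 + c50e_3 n p * t ^ 3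
      + c50e_4 n p * t ^ 4 + c50e_5 n p * t ^ 5 + c50e_6 n p * t ^ 6 + c50e_7 n p * t ^ 7 +
      c50e_8 n p * t ^ 8 + c50e_9 n p * t ^ 9 + c50e_10 n p * t ^ 10 + c50e_11 n p * t ^ 11)
      + c50e_12 n p * t ^ 12 := by
  have e0 := c50e_0_nn hn hp
  have e1 := c50e_1_nn hn hp
  have e2 := c50e_2_nn hn hp
  have e3 := c50e_3_nn hn hp
  have e4 := c50e_4_nn hn hp
  have e5 := c50e_5_nn hn hp
  have e6 := c50e_6_nn hn hp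
  have e7 := c50e_7_nn hn hp
  have e8 := c50e_8_nn hn hp
  have e9 := c50e_9_nn hn hp
  have e10 := c50e_10_nn hn hp
  have e11 := c50e_11_nn hn hp
  have e12 := c50e_12_nn hn hp
  have h2 : 0 ≤ 1 - t := by linarith
  exact add_nonneg (mul_nonneg h2 (by positivity)) (by positivity)

noncomputable def c50a_6 (n p : ℝ) : ℝ :=
  n ^ 5 + 10 * n ^ 4 * p + 40 * n ^ 3 * p ^ 2 + 80 * n ^ 2 * p ^ 3 + 80 * n * p ^ 4 + 32 * p ^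
  5 + 26 * n ^ 4 + 208 * n ^ 3 * p + 624 * n ^ 2 * p ^ 2 + 832 * n * p ^ 3 + 416 * p ^ 4 +
  1352 / 5 * n ^ 3 + 8112 / 5 * n ^ 2 * p + 16224 / 5 * n * p ^ 2 + 10816 / 5 * p ^ 3 +
  35152 / 25 * n ^ 2 + 140608 / 25 * n * p + 140608 / 25 * p ^ 2 + 454976 / 125 * n + 909952
  / 125 * p + 11583876 / 3125

theorem c50a_6_nn {n p : ℝ} (hn : 0 ≤ n) (hp : 0 ≤ p) : 0 ≤ c50a_6 n p := by
  unfold c50a_6; positivity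

noncomputable def c50a_7 (n p : ℝ) : ℝ :=
  n ^ 5 + 10 * n ^ 4 * p + 40 * n ^ 3 * p ^ 2 + 80 * n ^ 2 * p ^ 3 + 80 * n * p ^ 4 + 32 * p ^
  5 + 26 * n ^ 4 + 208 * n ^ 3 * p + 624 * n ^ 2 * p ^ 2 + 832 * n * p ^ 3 + 416 * p ^ 4 +
  1352 / 5 * n ^ 3 + 8112 / 5 * n ^ 2 * p + 16224 / 5 * n * p ^ 2 + 10816 / 5 * p ^ 3 +
  35152 / 25 * n ^ 2 + 140608 / 25 * n * p + 140608 / 25 * p ^ 2 + 454976 / 125 * n + 909952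
  / 125 * p + 11458876 / 3125

theorem c50a_7_nn {n p : ℝ} (hn : 0 ≤ n) (hp : 0 ≤ p) : 0 ≤ c50a_7 n p := by
  unfold c50a_7; positivity

theorem c50a_nn {n p t : ℝ} (hn : 0 ≤ n) (hp : 0 ≤ p) (h0 : 0 < t) (h1 : t ≤ 1) :
    0 ≤ (1 - t) * (c50a_6 n p * t ^ 6) + c50a_7 n p * t ^ 7 := by
  have e6 := c50a_6_nn hn hp
  have e7 := c50a_7_nn hn hp
  have h2 : 0 ≤ 1 - t := by linarith
  exact add_nonneg (mul_nonneg h2 (by positivity)) (by positivity)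

noncomputable def c50b_0 (n p : ℝ) : ℝ :=
  120

theorem c50b_0_nn {n p : ℝ} (hn : 0 ≤ n) (hp : 0 ≤ p) : 0 ≤ c50b_0 n p := by
  unfold c50b_0; positivity

noncomputable def c50b_1 (n p : ℝ) : ℝ :=
  120 * n + 240 * p + 744

theorem c50b_1_nn {n p : ℝ} (hn : 0 ≤ n) (hp : 0 ≤ p) : 0 ≤ c50b_1 n p := by
  unfold c50b_1; positivity

noncomputable def c50b_2 (n p : ℝ) : ℝ :=
  60 * n ^ 2 + 240 * n * p + 240 * p ^ 2 + 744 * n + 1488 * p + 10632 / 5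

theorem c50b_2_nn {n p : ℝ} (hn : 0 ≤ n) (hp : 0 ≤ p) : 0 ≤ c50b_2 n p := by
  unfold c50b_2; positivity

noncomputable def c50b_3 (n p : ℝ) : ℝ :=
  20 * n ^ 3 + 120 * n ^ 2 * p + 240 * n * p ^ 2 + 160 * p ^ 3 + 372 * n ^ 2 + 1488 * n * p +
  1488 * p ^ 2 + 10832 / 5 * n + 21664 / 5 * p + 97464 / 25

theorem c50b_3_nn {n p : ℝ} (hn : 0 ≤ n) (hp : 0 ≤ p) : 0 ≤ c50b_3 n p := by
  unfold c50b_3; positivity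

noncomputable def c50b_4 (n p : ℝ) : ℝ :=
  5 * n ^ 4 + 40 * n ^ 3 * p + 120 * n ^ 2 * p ^ 2 + 160 * n * p ^ 3 + 80 * p ^ 4 + 124 * n ^
  3 + 744 * n ^ 2 * p + 1488 * n * p ^ 2 + 992 * p ^ 3 + 5516 / 5 * n ^ 2 + 22064 / 5 * n *
  p + 22064 / 5 * p ^ 2 + 103664 / 25 * n + 207328 / 25 * p + 688896 / 125

theorem c50b_4_nn {n p : ℝ} (hn : 0 ≤ n) (hp : 0 ≤ p) : 0 ≤ c50b_4 n p := by
  unfold c50b_4; positivity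

noncomputable def c50b_5 (n p : ℝ) : ℝ :=
  n ^ 5 + 10 * n ^ 4 * p + 40 * n ^ 3 * p ^ 2 + 80 * n ^ 2 * p ^ 3 + 80 * n * p ^ 4 + 32 * p ^
  5 + 31 * n ^ 4 + 248 * n ^ 3 * p + 744 * n ^ 2 * p ^ 2 + 992 * n * p ^ 3 + 496 * p ^ 4 +
  1872 / 5 * n ^ 3 + 11232 / 5 * n ^ 2 * p + 22464 / 5 * n * p ^ 2 + 14976 / 5 * p ^ 3 +
  54932 / 25 * n ^ 2 + 219728 / 25 * n * p + 219728 / 25 * p ^ 2 + 780496 / 125 * n +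
  1560992 / 125 * p + 21318276 / 3125

theorem c50b_5_nn {n p : ℝ} (hn : 0 ≤ n) (hp : 0 ≤ p) : 0 ≤ c50b_5 n p := by
  unfold c50b_5; positivity

noncomputable def c50b_6 (n p : ℝ) : ℝ :=
  n ^ 5 + 10 * n ^ 4 * p + 40 * n ^ 3 * p ^ 2 + 80 * n ^ 2 * p ^ 3 + 80 * n * p ^ 4 + 32 * p ^
  5 + 26 * n ^ 4 + 208 * n ^ 3 * p + 624 * n ^ 2 * p ^ 2 + 832 * n * p ^ 3 + 416 * p ^ 4 +
  1352 / 5 * n ^ 3 + 8112 / 5 * n ^ 2 * p + 16224 / 5 * n * p ^ 2 + 10816 / 5 * p ^ 3 +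
  35152 / 25 * n ^ 2 + 140608 / 25 * n * p + 140608 / 25 * p ^ 2 + 454976 / 125 * n + 909952
  / 125 * p + 11583876 / 3125

theorem c50b_6_nn {n p : ℝ} (hn : 0 ≤ n) (hp : 0 ≤ p) : 0 ≤ c50b_6 n p := by
  unfold c50b_6; positivity

noncomputable def c50b_7 (n p : ℝ) : ℝ :=
  n ^ 5 + 10 * n ^ 4 * p + 40 * n ^ 3 * p ^ 2 + 80 * n ^ 2 * p ^ 3 + 80 * n * p ^ 4 + 32 * p ^
  5 + 26 * n ^ 4 + 208 * n ^ 3 * p + 624 * n ^ 2 * p ^ 2 + 832 * n * p ^ 3 + 416 * p ^ 4 +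
  1352 / 5 * n ^ 3 + 8112 / 5 * n ^ 2 * p + 16224 / 5 * n * p ^ 2 + 10816 / 5 * p ^ 3 +
  35152 / 25 * n ^ 2 + 140608 / 25 * n * p + 140608 / 25 * p ^ 2 + 454976 / 125 * n + 909952
  / 125 * p + 11458876 / 3125

theorem c50b_7_nn {n p : ℝ} (hn : 0 ≤ n) (hp : 0 ≤ p) : 0 ≤ c50b_7 n p := by
  unfold c50b_7; positivity

theorem c50b_nn {n p t : ℝ} (hn : 0 ≤ n) (hp : 0 ≤ p) (h0 : 0 < t) (h1 : t ≤ 1) :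
    0 ≤ (1 - t) * (c50b_0 n p * t ^ 0 + c50b_1 n p * t ^ 1 + c50b_2 n p * t ^ 2 + c50b_3 n p * t ^ 3
      + c50b_4 n p * t ^ 4 + c50b_5 n p * t ^ 5 + c50b_6 n p * t ^ 6) + c50b_7 n p * t ^ 7 := by
  have e0 := c50b_0_nn hn hp
  have e1 := c50b_1_nn hn hp
  have e2 := c50b_2_nn hn hp
  have e3 := c50b_3_nn hn hp
  have e4 := c50b_4_nn hn hp
  have e5 := c50b_5_nn hn hp
  have e6 := c50b_6_nn hn hp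
  have e7 := c50b_7_nn hn hp
  have h2 : 0 ≤ 1 - t := by linarith
  exact add_nonneg (mul_nonneg h2 (by positivity)) (by positivity)

noncomputable def c50s (n t : ℝ) : ℝ :=
  3 / 8 * t ^ 5 * n ^ 5 + 87 / 8 * t ^ 5 * n ^ 4 + 821 / 8 * t ^ 5 * n ^ 3 + 889 / 2 * t ^ 5 *
  n ^ 2 + 6259 / 8 * t ^ 5 * n + 1381 / 4 * t ^ 5

theorem c50s_nn {n t : ℝ} (hn : 0 ≤ n) (h0 : 0 < t) : 0 ≤ c50s n t := by
  unfold c50s; positivity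

end Pool.Agent.KIQ.POLY

namespace Pool.Agent.KIQ

open POLY

theorem PC5_0 {a q A B t : ℝ} (hq : 8 / 5 ≤ q) (ha : 2 * q + 2 ≤ a)
    (hA : (3 * q - 2) * a ≤ (a ^ 2 - q ^ 2) * A) (hB : q * (3 * q - 2) ≤ (a ^ 2 - q ^ 2) * B)
    (h0 : 0 < t) (h1 : t ≤ 1) :
    40 * t ^ 6 * (1 + (A + B) * t) + 16 * t ^ 4 * (pp 0 a q (iniC A B) 1 0).eval t + 12 * t ^ 5 * (B + A * t + t ^ 2) ≤
      (pp 0 a q (iniC A B) 5 0).eval t := by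
  obtain ⟨p, hp, rfl⟩ : ∃ p : ℝ, 0 ≤ p ∧ q = 8 / 5 + p := ⟨q - 8 / 5, by linarith, by ring⟩
  obtain ⟨n, hn, rfl⟩ : ∃ n : ℝ, 0 ≤ n ∧ a = 2 * (8 / 5 + p) + 2 + n :=
    ⟨a - (2 * (8 / 5 + p) + 2), by linarith, by ring⟩
  simp only [fc_5_0, fc_1_0, eval_PL, evL]
  have hc : 0 < (2 * (8 / 5 + p) + 2 + n) ^ 2 - (8 / 5 + p) ^ 2 := by nlinarith
  refine fin_aux hc (sub_nonneg.2 hA) (sub_nonneg.2 hB)
    (add_nonneg (c50e_nn hn hp h0 h1) (mul_nonneg (c50s_nn hn h0)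
      (sq_nonneg ((2 * (8 / 5 + p) + 2 + n) * t - 3))))
    (c50a_nn hn hp h0 h1) (c50b_nn hn hp h0 h1) ?_
  simp only [c50e_0, c50e_1, c50e_2, c50e_3, c50e_4, c50e_5, c50e_6, c50e_7, c50e_8, c50e_9, c50e_10,
    c50e_11, c50e_12, c50a_6, c50a_7, c50b_0, c50b_1, c50b_2, c50b_3, c50b_4, c50b_5,
    c50b_6, c50b_7, c50s, fc_5_0_0, fc_5_0_1, fc_5_0_2, fc_5_0_3, fc_5_0_4, fc_5_0_5,
    fc_5_0_6, fc_5_0_7, fc_5_0_8, fc_5_0_9, fc_5_0_10, fc_5_0_11, fc_5_0_12, fc_1_0_0,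
    fc_1_0_1, fc_1_0_2, fc_1_0_3, fc_1_0_4]
  ring

end Pool.Agent.KIQ

namespace Pool.Agent.KIQ.POLY

noncomputable def c51e_0 (n p : ℝ) : ℝ :=
  1800 * p ^ 2 + 4560 * p + 2688

theorem c51e_0_nn {n p : ℝ} (hn : 0 ≤ n) (hp : 0 ≤ p) : 0 ≤ c51e_0 n p := by
  unfold c51e_0; positivity

noncomputable def c51e_1 (n p : ℝ) : ℝ :=
  1800 * n * p ^ 2 + 3600 * p ^ 3 + 4560 * n * p + 20280 * p ^ 2 + 2688 * n + 33648 * p +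
  83328 / 5

theorem c51e_1_nn {n p : ℝ} (hn : 0 ≤ n) (hp : 0 ≤ p) : 0 ≤ c51e_1 n p := by
  unfold c51e_1; positivity

noncomputable def c51e_2 (n p : ℝ) : ℝ :=
  900 * n ^ 2 * p ^ 2 + 3600 * n * p ^ 3 + 3600 * p ^ 4 + 2280 * n ^ 2 * p + 20280 * n * p ^ 2
  + 31620 * p ^ 3 + 1344 * n ^ 2 + 33648 * n * p + 95100 * p ^ 2 + 83328 / 5 * n + 582504 /
  5 * p + 1221696 / 25

theorem c51e_2_nn {n p : ℝ} (hn : 0 ≤ n) (hp : 0 ≤ p) : 0 ≤ c51e_2 n p := by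
  unfold c51e_2; positivity

noncomputable def c51e_3 (n p : ℝ) : ℝ :=
  300 * n ^ 3 * p ^ 2 + 1800 * n ^ 2 * p ^ 3 + 3600 * n * p ^ 4 + 2400 * p ^ 5 + 760 * n ^ 3 *
  p + 10140 * n ^ 2 * p ^ 2 + 31620 * n * p ^ 3 + 28760 * p ^ 4 + 448 * n ^ 3 + 16824 * n ^
  2 * p + 95700 * n * p ^ 2 + 128804 * p ^ 3 + 41664 / 5 * n ^ 2 + 590104 / 5 * n * p +
  1345748 / 5 * p ^ 2 + 1244096 / 25 * n + 6558616 / 25 * p + 2374848 / 25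

theorem c51e_3_nn {n p : ℝ} (hn : 0 ≤ n) (hp : 0 ≤ p) : 0 ≤ c51e_3 n p := by
  unfold c51e_3; positivity

noncomputable def c51e_4 (n p : ℝ) : ℝ :=
  75 * n ^ 4 * p ^ 2 + 600 * n ^ 3 * p ^ 3 + 1800 * n ^ 2 * p ^ 4 + 2400 * n * p ^ 5 + 1200 *
  p ^ 6 + 190 * n ^ 4 * p + 3380 * n ^ 3 * p ^ 2 + 15810 * n ^ 2 * p ^ 3 + 28760 * n * p ^ 4
  + 18280 * p ^ 5 + 112 * n ^ 4 + 5608 * n ^ 3 * p + 48150 * n ^ 2 * p ^ 2 + 130004 * n * p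
  ^ 3 + 110480 * p ^ 4 + 13888 / 5 * n ^ 3 + 298852 / 5 * n ^ 2 * p + 1379548 / 5 * n * p ^
  2 + 338328 * p ^ 3 + 633248 / 25 * n ^ 2 + 6839016 / 25 * n * p + 2762528 / 5 * p ^ 2 +
  2513728 / 25 * n + 56852704 / 125 * p + 91623168 / 625

theorem c51e_4_nn {n p : ℝ} (hn : 0 ≤ n) (hp : 0 ≤ p) : 0 ≤ c51e_4 n p := by
  unfold c51e_4; positivity

noncomputable def c51e_5 (n p : ℝ) : ℝ :=
  15 * n ^ 5 * p ^ 2 + 150 * n ^ 4 * p ^ 3 + 600 * n ^ 3 * p ^ 4 + 1200 * n ^ 2 * p ^ 5 + 1200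
  * n * p ^ 6 + 480 * p ^ 7 + 38 * n ^ 5 * p + 845 * n ^ 4 * p ^ 2 + 5270 * n ^ 3 * p ^ 3 +
  14380 * n ^ 2 * p ^ 4 + 18280 * n * p ^ 5 + 8896 * p ^ 6 + 22 / 5 * n ^ 5 + 1402 * n ^ 4 *
  p + 16150 * n ^ 3 * p ^ 2 + 65602 * n ^ 2 * p ^ 3 + 111680 * n * p ^ 4 + 342184 / 5 * p ^
  5 + 547 / 5 * n ^ 4 + 100884 / 5 * n ^ 3 * p + 706674 / 5 * n ^ 2 * p ^ 2 + 348868 * n * p
  ^ 3 + 1413504 / 5 * p ^ 4 + 112666 / 25 * n ^ 3 + 3559708 / 25 * n ^ 2 * p + 2922828 / 5 *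
  n * p ^ 2 + 16882072 / 25 * p ^ 3 + 839854 / 25 * n ^ 2 + 61820904 / 125 * n * p +
  580625588 / 625 * p ^ 2 + 97803093 / 625 * n + 2118161928 / 3125 * p + 3136779072 / 15625

theorem c51e_5_nn {n p : ℝ} (hn : 0 ≤ n) (hp : 0 ≤ p) : 0 ≤ c51e_5 n p := by
  unfold c51e_5; positivity

noncomputable def c51e_6 (n p : ℝ) : ℝ :=
  15 * n ^ 6 * p + 195 * n ^ 5 * p ^ 2 + 1065 * n ^ 4 * p ^ 3 + 3120 * n ^ 3 * p ^ 4 + 5160 *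
  n ^ 2 * p ^ 5 + 4560 * n * p ^ 6 + 1680 * p ^ 7 + n ^ 6 + 398 * n ^ 5 * p + 4877 * n ^ 4 *
  p ^ 2 + 22638 * n ^ 3 * p ^ 3 + 51340 * n ^ 2 * p ^ 4 + 57736 * n * p ^ 5 + 25856 * p ^ 6
  + 568 / 5 * n ^ 5 + 24036 / 5 * n ^ 4 * p + 255646 / 5 * n ^ 3 * p ^ 2 + 187360 * n ^ 2 *
  p ^ 3 + 290424 * n * p ^ 4 + 828704 / 5 * p ^ 5 + 13441 / 25 * n ^ 4 + 816492 / 25 * n ^ 3
  * p + 1445196 / 5 * n ^ 2 * p ^ 2 + 3622036 / 5 * n * p ^ 3 + 2842104 / 5 * p ^ 4 + 447094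
  / 125 * n ^ 3 + 3992408 / 25 * n ^ 2 * p + 22281556 / 25 * n * p ^ 2 + 27682012 / 25 * p ^
  3 + 4335636 / 625 * n ^ 2 + 269824896 / 625 * n * p + 739319608 / 625 * p ^ 2 + 7050933 /
  3125 * n + 1836353008 / 3125 * p + 1119150432 / 15625

theorem c51e_6_nn {n p : ℝ} (hn : 0 ≤ n) (hp : 0 ≤ p) : 0 ≤ c51e_6 n p := by
  unfold c51e_6; positivity

noncomputable def c51e_7 (n p : ℝ) : ℝ :=
  3 * n ^ 7 + 77 * n ^ 6 * p + 617 * n ^ 5 * p ^ 2 + 2565 * n ^ 4 * p ^ 3 + 6320 * n ^ 3 * p ^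
  4 + 9320 * n ^ 2 * p ^ 5 + 7600 * n * p ^ 6 + 2640 * p ^ 7 + 486 / 5 * n ^ 6 + 11512 / 5 *
  n ^ 5 * p + 16017 * n ^ 4 * p ^ 2 + 54778 * n ^ 3 * p ^ 3 + 103380 * n ^ 2 * p ^ 4 +
  103480 * n * p ^ 5 + 42848 * p ^ 6 + 40208 / 25 * n ^ 5 + 144996 / 5 * n ^ 4 * p + 819466
  / 5 * n ^ 3 * p ^ 2 + 433440 * n ^ 2 * p ^ 3 + 561000 * n * p ^ 4 + 1435872 / 5 * p ^ 5 +
  308311 / 25 * n ^ 4 + 4609452 / 25 * n ^ 3 * p + 4125772 / 5 * n ^ 2 * p ^ 2 + 1524144 * n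
  * p ^ 3 + 5101712 / 5 * p ^ 4 + 6718659 / 125 * n ^ 3 + 16565476 / 25 * n ^ 2 * p +
  10550788 / 5 * n * p ^ 2 + 50980556 / 25 * p ^ 3 + 82265972 / 625 * n ^ 2 + 160911552 /
  125 * n * p + 1381012284 / 625 * p ^ 2 + 109590773 / 625 * n + 3412460464 / 3125 * p +
  1878912976 / 15625

theorem c51e_7_nn {n p : ℝ} (hn : 0 ≤ n) (hp : 0 ≤ p) : 0 ≤ c51e_7 n p := by
  unfold c51e_7; positivity

noncomputable def c51e_8 (n p : ℝ) : ℝ :=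
  3 * n ^ 7 + 82 * n ^ 6 * p + 677 * n ^ 5 * p ^ 2 + 2860 * n ^ 4 * p ^ 3 + 7080 * n ^ 3 * p ^
  4 + 10400 * n ^ 2 * p ^ 5 + 8400 * n * p ^ 6 + 2880 * p ^ 7 + 701 / 5 * n ^ 6 + 14872 / 5
  * n ^ 5 * p + 20188 * n ^ 4 * p ^ 2 + 68042 * n ^ 3 * p ^ 3 + 126300 * n ^ 2 * p ^ 4 +
  123960 * n * p ^ 5 + 50256 * p ^ 6 + 73748 / 25 * n ^ 5 + 221754 / 5 * n ^ 4 * p + 1168434
  / 5 * n ^ 3 * p ^ 2 + 590630 * n ^ 2 * p ^ 3 + 736160 * n * p ^ 4 + 1821944 / 5 * p ^ 5 +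
  719639 / 25 * n ^ 4 + 8203548 / 25 * n ^ 3 * p + 1299202 * n ^ 2 * p ^ 2 + 2222496 * n * p
  ^ 3 + 7038584 / 5 * p ^ 4 + 19266051 / 125 * n ^ 3 + 1307564 * n ^ 2 * p + 17582236 / 5 *
  n * p ^ 2 + 76996072 / 25 * p ^ 3 + 55847748 / 125 * n ^ 2 + 329922528 / 125 * n * p +
  2315988728 / 625 * p ^ 2 + 400170101 / 625 * n + 6622019608 / 3125 * p + 5383983952 /
  15625

theorem c51e_8_nn {n p : ℝ} (hn : 0 ≤ n) (hp : 0 ≤ p) : 0 ≤ c51e_8 n p := by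
  unfold c51e_8; positivity

noncomputable def c51e_9 (n p : ℝ) : ℝ :=
  3 * n ^ 7 + 82 * n ^ 6 * p + 677 * n ^ 5 * p ^ 2 + 2860 * n ^ 4 * p ^ 3 + 7080 * n ^ 3 * p ^
  4 + 10400 * n ^ 2 * p ^ 5 + 8400 * n * p ^ 6 + 2880 * p ^ 7 + 701 / 5 * n ^ 6 + 15122 / 5
  * n ^ 5 * p + 20688 * n ^ 4 * p ^ 2 + 69992 * n ^ 3 * p ^ 3 + 130000 * n ^ 2 * p ^ 4 +
  127360 * n * p ^ 5 + 51456 * p ^ 6 + 79998 / 25 * n ^ 5 + 240754 / 5 * n ^ 4 * p + 1270184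
  / 5 * n ^ 3 * p ^ 2 + 640750 * n ^ 2 * p ^ 3 + 794040 * n * p ^ 4 + 1948344 / 5 * p ^ 5 +
  882139 / 25 * n ^ 4 + 9818148 / 25 * n ^ 3 * p + 1529926 * n ^ 2 * p ^ 2 + 2575608 * n * p
  ^ 3 + 8018584 / 5 * p ^ 4 + 27276751 / 125 * n ^ 3 + 1747780 * n ^ 2 * p + 4510452 * n * p
  ^ 2 + 95482472 / 25 * p ^ 3 + 92934668 / 125 * n ^ 2 + 493023768 / 125 * n * p +
  3221096728 / 625 * p ^ 2 + 797694821 / 625 * n + 10961511208 / 3125 * p + 13097591152 /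
  15625

theorem c51e_9_nn {n p : ℝ} (hn : 0 ≤ n) (hp : 0 ≤ p) : 0 ≤ c51e_9 n p := by
  unfold c51e_9; positivity

noncomputable def c51e_10 (n p : ℝ) : ℝ :=
  3 * n ^ 7 + 82 * n ^ 6 * p + 677 * n ^ 5 * p ^ 2 + 2860 * n ^ 4 * p ^ 3 + 7080 * n ^ 3 * p ^
  4 + 10400 * n ^ 2 * p ^ 5 + 8400 * n * p ^ 6 + 2880 * p ^ 7 + 701 / 5 * n ^ 6 + 15122 / 5
  * n ^ 5 * p + 20688 * n ^ 4 * p ^ 2 + 69992 * n ^ 3 * p ^ 3 + 130000 * n ^ 2 * p ^ 4 +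
  127360 * n * p ^ 5 + 51456 * p ^ 6 + 79998 / 25 * n ^ 5 + 242104 / 5 * n ^ 4 * p + 1280984
  / 5 * n ^ 3 * p ^ 2 + 646960 * n ^ 2 * p ^ 3 + 801600 * n * p ^ 4 + 1964544 / 5 * p ^ 5 +
  907189 / 25 * n ^ 4 + 10158948 / 25 * n ^ 3 * p + 1586704 * n ^ 2 * p ^ 2 + 2668392 * n *
  p ^ 3 + 8275984 / 5 * p ^ 4 + 29881951 / 125 * n ^ 3 + 9566084 / 5 * n ^ 2 * p + 24560268
  / 5 * n * p ^ 2 + 103058672 / 25 * p ^ 3 + 112450088 / 125 * n ^ 2 + 585624648 / 125 * n *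
  p + 3748151728 / 625 * p ^ 2 + 1108050581 / 625 * n + 14464614208 / 3125 * p + 22041506752
  / 15625

theorem c51e_10_nn {n p : ℝ} (hn : 0 ≤ n) (hp : 0 ≤ p) : 0 ≤ c51e_10 n p := by
  unfold c51e_10; positivity

noncomputable def c51e_11 (n p : ℝ) : ℝ :=
  3 * n ^ 7 + 82 * n ^ 6 * p + 677 * n ^ 5 * p ^ 2 + 2860 * n ^ 4 * p ^ 3 + 7080 * n ^ 3 * p ^
  4 + 10400 * n ^ 2 * p ^ 5 + 8400 * n * p ^ 6 + 2880 * p ^ 7 + 701 / 5 * n ^ 6 + 15122 / 5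
  * n ^ 5 * p + 20688 * n ^ 4 * p ^ 2 + 69992 * n ^ 3 * p ^ 3 + 130000 * n ^ 2 * p ^ 4 +
  127360 * n * p ^ 5 + 51456 * p ^ 6 + 79998 / 25 * n ^ 5 + 242104 / 5 * n ^ 4 * p + 1280984
  / 5 * n ^ 3 * p ^ 2 + 646960 * n ^ 2 * p ^ 3 + 801600 * n * p ^ 4 + 1964544 / 5 * p ^ 5 +
  907189 / 25 * n ^ 4 + 10179948 / 25 * n ^ 3 * p + 1591744 * n ^ 2 * p ^ 2 + 2677632 * n *
  p ^ 3 + 8301184 / 5 * p ^ 4 + 30199951 / 125 * n ^ 3 + 9707924 / 5 * n ^ 2 * p + 24954228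
  / 5 * n * p ^ 2 + 104561072 / 25 * p ^ 3 + 117410888 / 125 * n ^ 2 + 613041048 / 125 * n *
  p + 3909605728 / 625 * p ^ 2 + 1233968981 / 625 * n + 15970122208 / 3125 * p + 27232562752
  / 15625

theorem c51e_11_nn {n p : ℝ} (hn : 0 ≤ n) (hp : 0 ≤ p) : 0 ≤ c51e_11 n p := by
  unfold c51e_11; positivity

noncomputable def c51e_12 (n p : ℝ) : ℝ :=
  3 * n ^ 7 + 82 * n ^ 6 * p + 677 * n ^ 5 * p ^ 2 + 2860 * n ^ 4 * p ^ 3 + 7080 * n ^ 3 * p ^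
  4 + 10400 * n ^ 2 * p ^ 5 + 8400 * n * p ^ 6 + 2880 * p ^ 7 + 701 / 5 * n ^ 6 + 15122 / 5
  * n ^ 5 * p + 20688 * n ^ 4 * p ^ 2 + 69992 * n ^ 3 * p ^ 3 + 130000 * n ^ 2 * p ^ 4 +
  127360 * n * p ^ 5 + 51456 * p ^ 6 + 79998 / 25 * n ^ 5 + 242104 / 5 * n ^ 4 * p + 1280984
  / 5 * n ^ 3 * p ^ 2 + 646960 * n ^ 2 * p ^ 3 + 801600 * n * p ^ 4 + 1964544 / 5 * p ^ 5 +
  907189 / 25 * n ^ 4 + 10179948 / 25 * n ^ 3 * p + 1591744 * n ^ 2 * p ^ 2 + 2677632 * n *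
  p ^ 3 + 8301184 / 5 * p ^ 4 + 30199951 / 125 * n ^ 3 + 9713924 / 5 * n ^ 2 * p + 24978228
  / 5 * n * p ^ 2 + 104651072 / 25 * p ^ 3 + 117800888 / 125 * n ^ 2 + 616161048 / 125 * n *
  p + 3928655728 / 625 * p ^ 2 + 1254248981 / 625 * n + 16233522208 / 3125 * p + 28425962752
  / 15625

theorem c51e_12_nn {n p : ℝ} (hn : 0 ≤ n) (hp : 0 ≤ p) : 0 ≤ c51e_12 n p := by
  unfold c51e_12; positivity

theorem c51e_nn {n p t : ℝ} (hn : 0 ≤ n) (hp : 0 ≤ p) (h0 : 0 < t) (h1 : t ≤ 1) :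
    0 ≤ (1 - t) * (c51e_0 n p * t ^ 0 + c51e_1 n p * t ^ 1 + c51e_2 n p * t ^ 2 + c51e_3 n p * t ^ 3
      + c51e_4 n p * t ^ 4 + c51e_5 n p * t ^ 5 + c51e_6 n p * t ^ 6 + c51e_7 n p * t ^ 7 +
      c51e_8 n p * t ^ 8 + c51e_9 n p * t ^ 9 + c51e_10 n p * t ^ 10 + c51e_11 n p * t ^ 11)
      + c51e_12 n p * t ^ 12 := by
  have e0 := c51e_0_nn hn hp
  have e1 := c51e_1_nn hn hp
  have e2 := c51e_2_nn hn hp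
  have e3 := c51e_3_nn hn hp
  have e4 := c51e_4_nn hn hp
  have e5 := c51e_5_nn hn hp
  have e6 := c51e_6_nn hn hp
  have e7 := c51e_7_nn hn hp
  have e8 := c51e_8_nn hn hp
  have e9 := c51e_9_nn hn hp
  have e10 := c51e_10_nn hn hp
  have e11 := c51e_11_nn hn hp
  have e12 := c51e_12_nn hn hp
  have h2 : 0 ≤ 1 - t := by linarith
  exact add_nonneg (mul_nonneg h2 (by positivity)) (by positivity)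

noncomputable def c51a_6 (n p : ℝ) : ℝ :=
  5 * n ^ 5 + 50 * n ^ 4 * p + 200 * n ^ 3 * p ^ 2 + 400 * n ^ 2 * p ^ 3 + 400 * n * p ^ 4 +
  160 * p ^ 5 + 130 * n ^ 4 + 1030 * n ^ 3 * p + 3060 * n ^ 2 * p ^ 2 + 4040 * n * p ^ 3 +
  2000 * p ^ 4 + 1326 * n ^ 3 + 7800 * n ^ 2 * p + 15288 * n * p ^ 2 + 9984 * p ^ 3 + 33124
  / 5 * n ^ 2 + 25728 * n * p + 124784 / 5 * p ^ 2 + 404848 / 25 * n + 779744 / 25 * p +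
  9651996 / 625

theorem c51a_6_nn {n p : ℝ} (hn : 0 ≤ n) (hp : 0 ≤ p) : 0 ≤ c51a_6 n p := by
  unfold c51a_6; positivity

noncomputable def c51a_7 (n p : ℝ) : ℝ :=
  5 * n ^ 5 + 55 * n ^ 4 * p + 240 * n ^ 3 * p ^ 2 + 520 * n ^ 2 * p ^ 3 + 560 * n * p ^ 4 +
  240 * p ^ 5 + 148 * n ^ 4 + 1278 * n ^ 3 * p + 4116 * n ^ 2 * p ^ 2 + 5864 * n * p ^ 3 +
  3120 * p ^ 4 + 8502 / 5 * n ^ 3 + 53888 / 5 * n ^ 2 * p + 113528 / 5 * n * p ^ 2 + 15904 *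
  p ^ 3 + 234428 / 25 * n ^ 2 + 967936 / 25 * n * p + 199632 / 5 * p ^ 2 + 3071312 / 125 * n
  + 1238888 / 25 * p + 15133364 / 625

theorem c51a_7_nn {n p : ℝ} (hn : 0 ≤ n) (hp : 0 ≤ p) : 0 ≤ c51a_7 n p := by
  unfold c51a_7; positivity

noncomputable def c51a_8 (n p : ℝ) : ℝ :=
  5 * n ^ 5 + 55 * n ^ 4 * p + 240 * n ^ 3 * p ^ 2 + 520 * n ^ 2 * p ^ 3 + 560 * n * p ^ 4 +
  240 * p ^ 5 + 148 * n ^ 4 + 1308 * n ^ 3 * p + 4296 * n ^ 2 * p ^ 2 + 6224 * n * p ^ 3 +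
  3360 * p ^ 4 + 8892 / 5 * n ^ 3 + 58568 / 5 * n ^ 2 * p + 127568 / 5 * n * p ^ 2 + 18400 *
  p ^ 3 + 264848 / 25 * n ^ 2 + 1142956 / 25 * n * p + 245304 / 5 * p ^ 2 + 3794732 / 125 *
  n + 1594712 / 25 * p + 20233004 / 625

theorem c51a_8_nn {n p : ℝ} (hn : 0 ≤ n) (hp : 0 ≤ p) : 0 ≤ c51a_8 n p := by
  unfold c51a_8; positivity

noncomputable def c51a_9 (n p : ℝ) : ℝ :=
  5 * n ^ 5 + 55 * n ^ 4 * p + 240 * n ^ 3 * p ^ 2 + 520 * n ^ 2 * p ^ 3 + 560 * n * p ^ 4 +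
  240 * p ^ 5 + 148 * n ^ 4 + 1308 * n ^ 3 * p + 4296 * n ^ 2 * p ^ 2 + 6224 * n * p ^ 3 +
  3360 * p ^ 4 + 8892 / 5 * n ^ 3 + 59168 / 5 * n ^ 2 * p + 129968 / 5 * n * p ^ 2 + 18880 *
  p ^ 3 + 271148 / 25 * n ^ 2 + 1199356 / 25 * n * p + 262824 / 5 * p ^ 2 + 4122332 / 125 *
  n + 1794872 / 25 * p + 24011804 / 625

theorem c51a_9_nn {n p : ℝ} (hn : 0 ≤ n) (hp : 0 ≤ p) : 0 ≤ c51a_9 n p := by
  unfold c51a_9; positivity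

noncomputable def c51a_10 (n p : ℝ) : ℝ :=
  5 * n ^ 5 + 55 * n ^ 4 * p + 240 * n ^ 3 * p ^ 2 + 520 * n ^ 2 * p ^ 3 + 560 * n * p ^ 4 +
  240 * p ^ 5 + 148 * n ^ 4 + 1308 * n ^ 3 * p + 4296 * n ^ 2 * p ^ 2 + 6224 * n * p ^ 3 +
  3360 * p ^ 4 + 8892 / 5 * n ^ 3 + 59168 / 5 * n ^ 2 * p + 129968 / 5 * n * p ^ 2 + 18880 *
  p ^ 3 + 271148 / 25 * n ^ 2 + 1206856 / 25 * n * p + 265824 / 5 * p ^ 2 + 4189832 / 125 *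
  n + 1860872 / 25 * p + 25766804 / 625

theorem c51a_10_nn {n p : ℝ} (hn : 0 ≤ n) (hp : 0 ≤ p) : 0 ≤ c51a_10 n p := by
  unfold c51a_10; positivity

noncomputable def c51a_11 (n p : ℝ) : ℝ :=
  5 * n ^ 5 + 55 * n ^ 4 * p + 240 * n ^ 3 * p ^ 2 + 520 * n ^ 2 * p ^ 3 + 560 * n * p ^ 4 +
  240 * p ^ 5 + 148 * n ^ 4 + 1308 * n ^ 3 * p + 4296 * n ^ 2 * p ^ 2 + 6224 * n * p ^ 3 +
  3360 * p ^ 4 + 8892 / 5 * n ^ 3 + 59168 / 5 * n ^ 2 * p + 129968 / 5 * n * p ^ 2 + 18880 *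
  p ^ 3 + 271148 / 25 * n ^ 2 + 1206856 / 25 * n * p + 265824 / 5 * p ^ 2 + 4189832 / 125 *
  n + 1869872 / 25 * p + 26126804 / 625

theorem c51a_11_nn {n p : ℝ} (hn : 0 ≤ n) (hp : 0 ≤ p) : 0 ≤ c51a_11 n p := by
  unfold c51a_11; positivity

theorem c51a_nn {n p t : ℝ} (hn : 0 ≤ n) (hp : 0 ≤ p) (h0 : 0 < t) (h1 : t ≤ 1) :
    0 ≤ (1 - t) * (c51a_6 n p * t ^ 6 + c51a_7 n p * t ^ 7 + c51a_8 n p * t ^ 8 + c51a_9 n p * t ^ 9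
      + c51a_10 n p * t ^ 10) + c51a_11 n p * t ^ 11 := by
  have e6 := c51a_6_nn hn hp
  have e7 := c51a_7_nn hn hp
  have e8 := c51a_8_nn hn hp
  have e9 := c51a_9_nn hn hp
  have e10 := c51a_10_nn hn hp
  have e11 := c51a_11_nn hn hp
  have h2 : 0 ≤ 1 - t := by linarith
  exact add_nonneg (mul_nonneg h2 (by positivity)) (by positivity)

noncomputable def c51b_0 (n p : ℝ) : ℝ :=
  600

theorem c51b_0_nn {n p : ℝ} (hn : 0 ≤ n) (hp : 0 ≤ p) : 0 ≤ c51b_0 n p := by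
  unfold c51b_0; positivity

noncomputable def c51b_1 (n p : ℝ) : ℝ :=
  600 * n + 1200 * p + 3720

theorem c51b_1_nn {n p : ℝ} (hn : 0 ≤ n) (hp : 0 ≤ p) : 0 ≤ c51b_1 n p := by
  unfold c51b_1; positivity

noncomputable def c51b_2 (n p : ℝ) : ℝ :=
  300 * n ^ 2 + 1200 * n * p + 1200 * p ^ 2 + 3720 * n + 7500 * p + 10908

theorem c51b_2_nn {n p : ℝ} (hn : 0 ≤ n) (hp : 0 ≤ p) : 0 ≤ c51b_2 n p := by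
  unfold c51b_2; positivity

noncomputable def c51b_3 (n p : ℝ) : ℝ :=
  100 * n ^ 3 + 600 * n ^ 2 * p + 1200 * n * p ^ 2 + 800 * p ^ 3 + 1860 * n ^ 2 + 7500 * n * p
  + 7560 * p ^ 2 + 11108 * n + 22588 * p + 21204

theorem c51b_3_nn {n p : ℝ} (hn : 0 ≤ n) (hp : 0 ≤ p) : 0 ≤ c51b_3 n p := by
  unfold c51b_3; positivity

noncomputable def c51b_4 (n p : ℝ) : ℝ :=
  25 * n ^ 4 + 200 * n ^ 3 * p + 600 * n ^ 2 * p ^ 2 + 800 * n * p ^ 3 + 400 * p ^ 4 + 620 * n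
  ^ 3 + 3750 * n ^ 2 * p + 7560 * n * p ^ 2 + 5080 * p ^ 3 + 5654 * n ^ 2 + 22988 * n * p +
  23360 * p ^ 2 + 22444 * n + 230056 / 5 * p + 818064 / 25

theorem c51b_4_nn {n p : ℝ} (hn : 0 ≤ n) (hp : 0 ≤ p) : 0 ≤ c51b_4 n p := by
  unfold c51b_4; positivity

noncomputable def c51b_5 (n p : ℝ) : ℝ :=
  5 * n ^ 5 + 50 * n ^ 4 * p + 200 * n ^ 3 * p ^ 2 + 400 * n ^ 2 * p ^ 3 + 400 * n * p ^ 4 +
  160 * p ^ 5 + 155 * n ^ 4 + 1250 * n ^ 3 * p + 3780 * n ^ 2 * p ^ 2 + 5080 * n * p ^ 3 +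
  2560 * p ^ 4 + 1918 * n ^ 3 + 11694 * n ^ 2 * p + 23760 * n * p ^ 2 + 16088 * p ^ 3 +
  11842 * n ^ 2 + 242556 / 5 * n * p + 248272 / 5 * p ^ 2 + 911964 / 25 * n + 376392 / 5 * p
  + 28006956 / 625

theorem c51b_5_nn {n p : ℝ} (hn : 0 ≤ n) (hp : 0 ≤ p) : 0 ≤ c51b_5 n p := by
  unfold c51b_5; positivity

noncomputable def c51b_6 (n p : ℝ) : ℝ :=
  5 * n ^ 5 + 55 * n ^ 4 * p + 240 * n ^ 3 * p ^ 2 + 520 * n ^ 2 * p ^ 3 + 560 * n * p ^ 4 +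
  240 * p ^ 5 + 148 * n ^ 4 + 1298 * n ^ 3 * p + 4236 * n ^ 2 * p ^ 2 + 6104 * n * p ^ 3 +
  3280 * p ^ 4 + 8862 / 5 * n ^ 3 + 58058 / 5 * n ^ 2 * p + 125888 / 5 * n * p ^ 2 + 18088 *
  p ^ 3 + 268358 / 25 * n ^ 2 + 1167116 / 25 * n * p + 50432 * p ^ 2 + 4104092 / 125 * n +
  1777544 / 25 * p + 25281324 / 625

theorem c51b_6_nn {n p : ℝ} (hn : 0 ≤ n) (hp : 0 ≤ p) : 0 ≤ c51b_6 n p := by
  unfold c51b_6; positivity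

noncomputable def c51b_7 (n p : ℝ) : ℝ :=
  5 * n ^ 5 + 55 * n ^ 4 * p + 240 * n ^ 3 * p ^ 2 + 520 * n ^ 2 * p ^ 3 + 560 * n * p ^ 4 +
  240 * p ^ 5 + 148 * n ^ 4 + 1308 * n ^ 3 * p + 4296 * n ^ 2 * p ^ 2 + 6224 * n * p ^ 3 +
  3360 * p ^ 4 + 8892 / 5 * n ^ 3 + 59018 / 5 * n ^ 2 * p + 129368 / 5 * n * p ^ 2 + 18760 *
  p ^ 3 + 270698 / 25 * n ^ 2 + 1195756 / 25 * n * p + 261744 / 5 * p ^ 2 + 4161932 / 125 *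
  n + 1830632 / 25 * p + 25705604 / 625

theorem c51b_7_nn {n p : ℝ} (hn : 0 ≤ n) (hp : 0 ≤ p) : 0 ≤ c51b_7 n p := by
  unfold c51b_7; positivity

noncomputable def c51b_8 (n p : ℝ) : ℝ :=
  5 * n ^ 5 + 55 * n ^ 4 * p + 240 * n ^ 3 * p ^ 2 + 520 * n ^ 2 * p ^ 3 + 560 * n * p ^ 4 +
  240 * p ^ 5 + 148 * n ^ 4 + 1308 * n ^ 3 * p + 4296 * n ^ 2 * p ^ 2 + 6224 * n * p ^ 3 +
  3360 * p ^ 4 + 8892 / 5 * n ^ 3 + 59168 / 5 * n ^ 2 * p + 129968 / 5 * n * p ^ 2 + 18880 *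
  p ^ 3 + 271148 / 25 * n ^ 2 + 1205356 / 25 * n * p + 265224 / 5 * p ^ 2 + 4185332 / 125 *
  n + 1858772 / 25 * p + 25987304 / 625

theorem c51b_8_nn {n p : ℝ} (hn : 0 ≤ n) (hp : 0 ≤ p) : 0 ≤ c51b_8 n p := by
  unfold c51b_8; positivity

noncomputable def c51b_9 (n p : ℝ) : ℝ :=
  5 * n ^ 5 + 55 * n ^ 4 * p + 240 * n ^ 3 * p ^ 2 + 520 * n ^ 2 * p ^ 3 + 560 * n * p ^ 4 +
  240 * p ^ 5 + 148 * n ^ 4 + 1308 * n ^ 3 * p + 4296 * n ^ 2 * p ^ 2 + 6224 * n * p ^ 3 +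
  3360 * p ^ 4 + 8892 / 5 * n ^ 3 + 59168 / 5 * n ^ 2 * p + 129968 / 5 * n * p ^ 2 + 18880 *
  p ^ 3 + 271148 / 25 * n ^ 2 + 1206856 / 25 * n * p + 265824 / 5 * p ^ 2 + 4189832 / 125 *
  n + 1868372 / 25 * p + 26104304 / 625

theorem c51b_9_nn {n p : ℝ} (hn : 0 ≤ n) (hp : 0 ≤ p) : 0 ≤ c51b_9 n p := by
  unfold c51b_9; positivity

noncomputable def c51b_10 (n p : ℝ) : ℝ :=
  5 * n ^ 5 + 55 * n ^ 4 * p + 240 * n ^ 3 * p ^ 2 + 520 * n ^ 2 * p ^ 3 + 560 * n * p ^ 4 +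
  240 * p ^ 5 + 148 * n ^ 4 + 1308 * n ^ 3 * p + 4296 * n ^ 2 * p ^ 2 + 6224 * n * p ^ 3 +
  3360 * p ^ 4 + 8892 / 5 * n ^ 3 + 59168 / 5 * n ^ 2 * p + 129968 / 5 * n * p ^ 2 + 18880 *
  p ^ 3 + 271148 / 25 * n ^ 2 + 1206856 / 25 * n * p + 265824 / 5 * p ^ 2 + 4189832 / 125 *
  n + 1869872 / 25 * p + 26126804 / 625

theorem c51b_10_nn {n p : ℝ} (hn : 0 ≤ n) (hp : 0 ≤ p) : 0 ≤ c51b_10 n p := by
  unfold c51b_10; positivity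

theorem c51b_nn {n p t : ℝ} (hn : 0 ≤ n) (hp : 0 ≤ p) (h0 : 0 < t) (h1 : t ≤ 1) :
    0 ≤ (1 - t) * (c51b_0 n p * t ^ 0 + c51b_1 n p * t ^ 1 + c51b_2 n p * t ^ 2 + c51b_3 n p * t ^ 3
      + c51b_4 n p * t ^ 4 + c51b_5 n p * t ^ 5 + c51b_6 n p * t ^ 6 + c51b_7 n p * t ^ 7 +
      c51b_8 n p * t ^ 8 + c51b_9 n p * t ^ 9) + c51b_10 n p * t ^ 10 := by
  have e0 := c51b_0_nn hn hp
  have e1 := c51b_1_nn hn hp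
  have e2 := c51b_2_nn hn hp
  have e3 := c51b_3_nn hn hp
  have e4 := c51b_4_nn hn hp
  have e5 := c51b_5_nn hn hp
  have e6 := c51b_6_nn hn hp
  have e7 := c51b_7_nn hn hp
  have e8 := c51b_8_nn hn hp
  have e9 := c51b_9_nn hn hp
  have e10 := c51b_10_nn hn hp
  have h2 : 0 ≤ 1 - t := by linarith
  exact add_nonneg (mul_nonneg h2 (by positivity)) (by positivity)

noncomputable def c51s (n t : ℝ) : ℝ :=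
  2 * t ^ 5 * n ^ 5 + 65 * t ^ 5 * n ^ 4 + 454 * t ^ 5 * n ^ 3 + 2162 * t ^ 5 * n ^ 2 + 771 *
  t ^ 5 * n

theorem c51s_nn {n t : ℝ} (hn : 0 ≤ n) (h0 : 0 < t) : 0 ≤ c51s n t := by
  unfold c51s; positivity

end Pool.Agent.KIQ.POLY

namespace Pool.Agent.KIQ

open POLY

theorem PC5_1 {a q A B t : ℝ} (hq : 8 / 5 ≤ q) (ha : 2 * q + 2 ≤ a)
    (hA : (3 * q - 2) * a ≤ (a ^ 2 - q ^ 2) * A) (hB : q * (3 * q - 2) ≤ (a ^ 2 - q ^ 2) * B)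
    (h0 : 0 < t) (h1 : t ≤ 1) :
    40 * t ^ 6 * (1 + (A + B) * t) +
      16 * t ^ 4 * (2 * (pp 0 a q (iniC A B) 1 0).eval t + (pp 0 a q (iniC A B) 1 1).eval t) +
      36 * t ^ 5 * (B + A * t + t ^ 2) ≤
      (pp 0 a q (iniC A B) 5 1).eval t := by
  obtain ⟨p, hp, rfl⟩ : ∃ p : ℝ, 0 ≤ p ∧ q = 8 / 5 + p := ⟨q - 8 / 5, by linarith, by ring⟩
  obtain ⟨n, hn, rfl⟩ : ∃ n : ℝ, 0 ≤ n ∧ a = 2 * (8 / 5 + p) + 2 + n :=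
    ⟨a - (2 * (8 / 5 + p) + 2), by linarith, by ring⟩
  simp only [fc_5_1, fc_1_0, fc_1_1, eval_PL, evL]
  have hc : 0 < (2 * (8 / 5 + p) + 2 + n) ^ 2 - (8 / 5 + p) ^ 2 := by nlinarith
  refine fin_aux hc (sub_nonneg.2 hA) (sub_nonneg.2 hB)
    (add_nonneg (c51e_nn hn hp h0 h1) (mul_nonneg (c51s_nn hn h0)
      (sq_nonneg ((2 * (8 / 5 + p) + 2 + n) * t - 3))))
    (c51a_nn hn hp h0 h1) (c51b_nn hn hp h0 h1) ?_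
  simp only [c51e_0, c51e_1, c51e_2, c51e_3, c51e_4, c51e_5, c51e_6, c51e_7, c51e_8, c51e_9, c51e_10,
    c51e_11, c51e_12, c51a_6, c51a_7, c51a_8, c51a_9, c51a_10, c51a_11, c51b_0, c51b_1,
    c51b_2, c51b_3, c51b_4, c51b_5, c51b_6, c51b_7, c51b_8, c51b_9, c51b_10, c51s, fc_5_1_0,
    fc_5_1_1, fc_5_1_2, fc_5_1_3, fc_5_1_4, fc_5_1_5, fc_5_1_6, fc_5_1_7, fc_5_1_8,
    fc_5_1_9, fc_5_1_10, fc_5_1_11, fc_5_1_12, fc_1_0_0, fc_1_0_1, fc_1_0_2, fc_1_0_3,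
    fc_1_0_4, fc_1_1_0, fc_1_1_1, fc_1_1_2, fc_1_1_3, fc_1_1_4]
  ring

end Pool.Agent.KIQ

namespace Pool.Agent.KIQ.POLY

noncomputable def c52e_0 (n p : ℝ) : ℝ :=
  3600 * p ^ 2 + 9120 * p + 5376

theorem c52e_0_nn {n p : ℝ} (hn : 0 ≤ n) (hp : 0 ≤ p) : 0 ≤ c52e_0 n p := by
  unfold c52e_0; positivity

noncomputable def c52e_1 (n p : ℝ) : ℝ :=
  3600 * n * p ^ 2 + 7200 * p ^ 3 + 9120 * n * p + 40560 * p ^ 2 + 5376 * n + 67296 * p +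
  166656 / 5

theorem c52e_1_nn {n p : ℝ} (hn : 0 ≤ n) (hp : 0 ≤ p) : 0 ≤ c52e_1 n p := by
  unfold c52e_1; positivity

noncomputable def c52e_2 (n p : ℝ) : ℝ :=
  1800 * n ^ 2 * p ^ 2 + 7200 * n * p ^ 3 + 7200 * p ^ 4 + 4560 * n ^ 2 * p + 40560 * n * p ^
  2 + 63600 * p ^ 3 + 2688 * n ^ 2 + 67296 * n * p + 192768 * p ^ 2 + 166656 / 5 * n +
  1188672 / 5 * p + 2505216 / 25

theorem c52e_2_nn {n p : ℝ} (hn : 0 ≤ n) (hp : 0 ≤ p) : 0 ≤ c52e_2 n p := by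
  unfold c52e_2; positivity

noncomputable def c52e_3 (n p : ℝ) : ℝ :=
  600 * n ^ 3 * p ^ 2 + 3600 * n ^ 2 * p ^ 3 + 7200 * n * p ^ 4 + 4800 * p ^ 5 + 1520 * n ^ 3
  * p + 20280 * n ^ 2 * p ^ 2 + 63600 * n * p ^ 3 + 58240 * p ^ 4 + 896 * n ^ 3 + 33648 * n
  ^ 2 * p + 193968 * n * p ^ 2 + 264976 * p ^ 3 + 83328 / 5 * n ^ 2 + 1203872 / 5 * n * p +
  2818432 / 5 * p ^ 2 + 2550016 / 25 * n + 13974464 / 25 * p + 25665024 / 125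

theorem c52e_3_nn {n p : ℝ} (hn : 0 ≤ n) (hp : 0 ≤ p) : 0 ≤ c52e_3 n p := by
  unfold c52e_3; positivity

noncomputable def c52e_4 (n p : ℝ) : ℝ :=
  150 * n ^ 4 * p ^ 2 + 1200 * n ^ 3 * p ^ 3 + 3600 * n ^ 2 * p ^ 4 + 4800 * n * p ^ 5 + 2400
  * p ^ 6 + 380 * n ^ 4 * p + 6760 * n ^ 3 * p ^ 2 + 31800 * n ^ 2 * p ^ 3 + 58240 * n * p ^
  4 + 37280 * p ^ 5 + 224 * n ^ 4 + 11216 * n ^ 3 * p + 97584 * n ^ 2 * p ^ 2 + 267376 * n *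
  p ^ 3 + 230605 * p ^ 4 + 27776 / 5 * n ^ 3 + 609536 / 5 * n ^ 2 * p + 2886032 / 5 * n * p
  ^ 2 + 725142 * p ^ 3 + 1297408 / 25 * n ^ 2 + 14535264 / 25 * n * p + 1218143 * p ^ 2 +
  27053824 / 125 * n + 128844158 / 125 * p + 212682288 / 625

theorem c52e_4_nn {n p : ℝ} (hn : 0 ≤ n) (hp : 0 ≤ p) : 0 ≤ c52e_4 n p := by
  unfold c52e_4; positivity

noncomputable def c52e_5 (n p : ℝ) : ℝ :=
  30 * n ^ 5 * p ^ 2 + 300 * n ^ 4 * p ^ 3 + 1200 * n ^ 3 * p ^ 4 + 2400 * n ^ 2 * p ^ 5 +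
  2400 * n * p ^ 6 + 960 * p ^ 7 + 76 * n ^ 5 * p + 1690 * n ^ 4 * p ^ 2 + 10600 * n ^ 3 * p
  ^ 3 + 29120 * n ^ 2 * p ^ 4 + 37280 * n * p ^ 5 + 18272 * p ^ 6 + 44 / 5 * n ^ 5 + 2804 *
  n ^ 4 * p + 32728 * n ^ 3 * p ^ 2 + 134888 * n ^ 2 * p ^ 3 + 233005 * n * p ^ 4 + 724258 /
  5 * p ^ 5 + 2084 / 5 * n ^ 4 + 205712 / 5 * n ^ 3 * p + 1476816 / 5 * n ^ 2 * p ^ 2 +
  746342 * n * p ^ 3 + 3092143 / 5 * p ^ 4 + 208861 / 25 * n ^ 3 + 7548032 / 25 * n ^ 2 * p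
  + 1283119 * n * p ^ 2 + 38247584 / 25 * p ^ 3 + 10944187 / 125 * n ^ 2 + 138977758 / 125 *
  n * p + 1363133501 / 625 * p ^ 2 + 234231088 / 625 * n + 5144676946 / 3125 * p +
  7848842064 / 15625

theorem c52e_5_nn {n p : ℝ} (hn : 0 ≤ n) (hp : 0 ≤ p) : 0 ≤ c52e_5 n p := by
  unfold c52e_5; positivity

noncomputable def c52e_6 (n p : ℝ) : ℝ :=
  30 * n ^ 6 * p + 390 * n ^ 5 * p ^ 2 + 2160 * n ^ 4 * p ^ 3 + 6480 * n ^ 3 * p ^ 4 + 11040 *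
  n ^ 2 * p ^ 5 + 10080 * n * p ^ 6 + 3840 * p ^ 7 + 2 * n ^ 6 + 796 * n ^ 5 * p + 9878 * n
  ^ 4 * p ^ 2 + 46952 * n ^ 3 * p ^ 3 + 109760 * n ^ 2 * p ^ 4 + 127648 * n * p ^ 5 + 59168
  * p ^ 6 + 476 / 5 * n ^ 5 + 47584 / 5 * n ^ 4 * p + 532984 / 5 * n ^ 3 * p ^ 2 + 402695 *
  n ^ 2 * p ^ 3 + 646057 * n * p ^ 4 + 1910222 / 5 * p ^ 5 + 36814 / 25 * n ^ 4 + 1809268 /
  25 * n ^ 3 * p + 3177829 / 5 * n ^ 2 * p ^ 2 + 8202398 / 5 * n * p ^ 3 + 6664007 / 5 * p ^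
  4 + 664051 / 125 * n ^ 3 + 9192827 / 25 * n ^ 2 * p + 52840983 / 25 * n * p ^ 2 + 67137026
  / 25 * p ^ 3 + 5321784 / 625 * n ^ 2 + 730157178 / 625 * n * p + 1916362329 / 625 * p ^ 2
  + 349109244 / 3125 * n + 5526015924 / 3125 * p + 5667155076 / 15625

theorem c52e_6_nn {n p : ℝ} (hn : 0 ≤ n) (hp : 0 ≤ p) : 0 ≤ c52e_6 n p := by
  unfold c52e_6; positivity

noncomputable def c52e_7 (n p : ℝ) : ℝ :=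
  6 * n ^ 7 + 154 * n ^ 6 * p + 1264 * n ^ 5 * p ^ 2 + 5460 * n ^ 4 * p ^ 3 + 14110 * n ^ 3 *
  p ^ 4 + 21940 * n ^ 2 * p ^ 5 + 18920 * n * p ^ 6 + 6960 * p ^ 7 + 1082 / 5 * n ^ 6 +
  23844 / 5 * n ^ 5 * p + 33786 * n ^ 4 * p ^ 2 + 120774 * n ^ 3 * p ^ 3 + 240680 * n ^ 2 *
  p ^ 4 + 255192 * n * p ^ 5 + 112032 * p ^ 6 + 77481 / 25 * n ^ 5 + 294532 / 5 * n ^ 4 * p
  + 1760638 / 5 * n ^ 3 * p ^ 2 + 989623 * n ^ 2 * p ^ 3 + 1363068 * n * p ^ 4 + 3709788 / 5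
  * p ^ 5 + 583881 / 25 * n ^ 4 + 9503581 / 25 * n ^ 3 * p + 1827751 * n ^ 2 * p ^ 2 +
  18115682 / 5 * n * p ^ 3 + 12987213 / 5 * p ^ 4 + 11780692 / 125 * n ^ 3 + 34399919 / 25 *
  n ^ 2 * p + 121304572 / 25 * n * p ^ 2 + 127536564 / 25 * p ^ 3 + 124394494 / 625 * n ^ 2
  + 1727908622 / 625 * n * p + 3384770751 / 625 * p ^ 2 + 802522776 / 3125 * n + 8145552276
  / 3125 * p + 4221061404 / 15625

theorem c52e_7_nn {n p : ℝ} (hn : 0 ≤ n) (hp : 0 ≤ p) : 0 ≤ c52e_7 n p := by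
  unfold c52e_7; positivity

noncomputable def c52e_8 (n p : ℝ) : ℝ :=
  6 * n ^ 7 + 174 * n ^ 6 * p + 1504 * n ^ 5 * p ^ 2 + 6670 * n ^ 4 * p ^ 3 + 17390 * n ^ 3 *
  p ^ 4 + 26980 * n ^ 2 * p ^ 5 + 23080 * n * p ^ 6 + 8400 * p ^ 7 + 1692 / 5 * n ^ 6 +
  34284 / 5 * n ^ 5 * p + 47644 * n ^ 4 * p ^ 2 + 167846 * n ^ 3 * p ^ 3 + 328520 * n ^ 2 *
  p ^ 4 + 341528 * n * p ^ 5 + 147200 * p ^ 6 + 172641 / 25 * n ^ 5 + 524771 / 5 * n ^ 4 * p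
  + 2872262 / 5 * n ^ 3 * p ^ 2 + 1526805 * n ^ 2 * p ^ 3 + 2015412 * n * p ^ 4 + 1061556 *
  p ^ 5 + 348307 / 5 * n ^ 4 + 20104229 / 25 * n ^ 3 * p + 16572228 / 5 * n ^ 2 * p ^ 2 +
  29961918 / 5 * n * p ^ 3 + 4045907 * p ^ 4 + 46405828 / 125 * n ^ 3 + 81162289 / 25 * n ^
  2 * p + 230884088 / 25 * n * p ^ 2 + 43299234 / 5 * p ^ 3 + 646685733 / 625 * n ^ 2 +
  4121764978 / 625 * n * p + 1258319893 / 125 * p ^ 2 + 4340929284 / 3125 * n + 673863006 /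
  125 * p + 2142976488 / 3125

theorem c52e_8_nn {n p : ℝ} (hn : 0 ≤ n) (hp : 0 ≤ p) : 0 ≤ c52e_8 n p := by
  unfold c52e_8; positivity

noncomputable def c52e_9 (n p : ℝ) : ℝ :=
  6 * n ^ 7 + 174 * n ^ 6 * p + 1514 * n ^ 5 * p ^ 2 + 6770 * n ^ 4 * p ^ 3 + 17780 * n ^ 3 *
  p ^ 4 + 27720 * n ^ 2 * p ^ 5 + 23760 * n * p ^ 6 + 8640 * p ^ 7 + 1692 / 5 * n ^ 6 +
  35544 / 5 * n ^ 5 * p + 50424 * n ^ 4 * p ^ 2 + 179992 * n ^ 3 * p ^ 3 + 354680 * n ^ 2 *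
  p ^ 4 + 369216 * n * p ^ 5 + 158688 * p ^ 6 + 194456 / 25 * n ^ 5 + 601161 / 5 * n ^ 4 * p
  + 3325239 / 5 * n ^ 3 * p ^ 2 + 1773295 * n ^ 2 * p ^ 3 + 2333639 * n * p ^ 4 + 6101442 /
  5 * p ^ 5 + 92349 * n ^ 4 + 26261448 / 25 * n ^ 3 * p + 21353252 / 5 * n ^ 2 * p ^ 2 +
  37984396 / 5 * n * p ^ 3 + 25209417 / 5 * p ^ 4 + 74286066 / 125 * n ^ 3 + 122169271 / 25
  * n ^ 2 * p + 330874861 / 25 * n * p ^ 2 + 298344576 / 25 * p ^ 3 + 1287662537 / 625 * n ^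
  2 + 7120599616 / 625 * n * p + 9903685359 / 625 * p ^ 2 + 11121817548 / 3125 * n +
  32686513434 / 3125 * p + 36386946936 / 15625

theorem c52e_9_nn {n p : ℝ} (hn : 0 ≤ n) (hp : 0 ≤ p) : 0 ≤ c52e_9 n p := by
  unfold c52e_9; positivity

noncomputable def c52e_10 (n p : ℝ) : ℝ :=
  6 * n ^ 7 + 174 * n ^ 6 * p + 1514 * n ^ 5 * p ^ 2 + 6770 * n ^ 4 * p ^ 3 + 17780 * n ^ 3 *
  p ^ 4 + 27720 * n ^ 2 * p ^ 5 + 23760 * n * p ^ 6 + 8640 * p ^ 7 + 1692 / 5 * n ^ 6 +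
  35544 / 5 * n ^ 5 * p + 50544 * n ^ 4 * p ^ 2 + 180952 * n ^ 3 * p ^ 3 + 357440 * n ^ 2 *
  p ^ 4 + 372576 * n * p ^ 5 + 160128 * p ^ 6 + 194456 / 25 * n ^ 5 + 609231 / 5 * n ^ 4 * p
  + 3402279 / 5 * n ^ 3 * p ^ 2 + 1826134 * n ^ 2 * p ^ 3 + 2410499 * n * p ^ 4 + 6300462 /
  5 * p ^ 5 + 481971 / 5 * n ^ 4 + 27909768 / 25 * n ^ 3 * p + 4586119 * n ^ 2 * p ^ 2 +
  40939636 / 5 * n * p ^ 3 + 27120297 / 5 * p ^ 4 + 84803586 / 125 * n ^ 3 + 140999542 / 25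
  * n ^ 2 * p + 381988021 / 25 * n * p ^ 2 + 342077046 / 25 * p ^ 3 + 1682033372 / 625 * n ^
  2 + 9177780616 / 625 * n * p + 12503763459 / 625 * p ^ 2 + 17409413928 / 3125 * n +
  48185032704 / 3125 * p + 72916590996 / 15625

theorem c52e_10_nn {n p : ℝ} (hn : 0 ≤ n) (hp : 0 ≤ p) : 0 ≤ c52e_10 n p := by
  unfold c52e_10; positivity

noncomputable def c52e_11 (n p : ℝ) : ℝ :=
  6 * n ^ 7 + 174 * n ^ 6 * p + 1514 * n ^ 5 * p ^ 2 + 6770 * n ^ 4 * p ^ 3 + 17780 * n ^ 3 *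
  p ^ 4 + 27720 * n ^ 2 * p ^ 5 + 23760 * n * p ^ 6 + 8640 * p ^ 7 + 1692 / 5 * n ^ 6 +
  35544 / 5 * n ^ 5 * p + 50544 * n ^ 4 * p ^ 2 + 180952 * n ^ 3 * p ^ 3 + 357440 * n ^ 2 *
  p ^ 4 + 372576 * n * p ^ 5 + 160128 * p ^ 6 + 194456 / 25 * n ^ 5 + 609231 / 5 * n ^ 4 * p
  + 3405354 / 5 * n ^ 3 * p ^ 2 + 1829824 * n ^ 2 * p ^ 3 + 2417264 * n * p ^ 4 + 6318912 /
  5 * p ^ 5 + 481971 / 5 * n ^ 4 + 28053468 / 25 * n ^ 3 * p + 4630201 * n ^ 2 * p ^ 2 +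
  41447716 / 5 * n * p ^ 3 + 27468747 / 5 * p ^ 4 + 86234511 / 125 * n ^ 3 + 144958372 / 25
  * n ^ 2 * p + 395154556 / 25 * n * p ^ 2 + 354118596 / 25 * p ^ 3 + 1793645522 / 625 * n ^
  2 + 9896695216 / 625 * n * p + 13486558209 / 625 * p ^ 2 + 20253014628 / 3125 * n +
  55905007704 / 3125 * p + 96550333596 / 15625

theorem c52e_11_nn {n p : ℝ} (hn : 0 ≤ n) (hp : 0 ≤ p) : 0 ≤ c52e_11 n p := by
  unfold c52e_11; positivity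

noncomputable def c52e_12 (n p : ℝ) : ℝ :=
  6 * n ^ 7 + 174 * n ^ 6 * p + 1514 * n ^ 5 * p ^ 2 + 6770 * n ^ 4 * p ^ 3 + 17780 * n ^ 3 *
  p ^ 4 + 27720 * n ^ 2 * p ^ 5 + 23760 * n * p ^ 6 + 8640 * p ^ 7 + 1692 / 5 * n ^ 6 +
  35544 / 5 * n ^ 5 * p + 50544 * n ^ 4 * p ^ 2 + 180952 * n ^ 3 * p ^ 3 + 357440 * n ^ 2 *
  p ^ 4 + 372576 * n * p ^ 5 + 160128 * p ^ 6 + 194456 / 25 * n ^ 5 + 609231 / 5 * n ^ 4 * p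
  + 3405354 / 5 * n ^ 3 * p ^ 2 + 1829824 * n ^ 2 * p ^ 3 + 2417264 * n * p ^ 4 + 6318912 /
  5 * p ^ 5 + 481971 / 5 * n ^ 4 + 28053468 / 25 * n ^ 3 * p + 4631476 * n ^ 2 * p ^ 2 +
  41473216 / 5 * n * p ^ 3 + 27487872 / 5 * p ^ 4 + 86234511 / 125 * n ^ 3 + 145187872 / 25
  * n ^ 2 * p + 396404056 / 25 * n * p ^ 2 + 355368096 / 25 * p ^ 3 + 1803176147 / 625 * n ^
  2 + 9994487716 / 625 * n * p + 13635637584 / 625 * p ^ 2 + 20748607128 / 3125 * n +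
  57445972704 / 3125 * p + 102383076096 / 15625

theorem c52e_12_nn {n p : ℝ} (hn : 0 ≤ n) (hp : 0 ≤ p) : 0 ≤ c52e_12 n p := by
  unfold c52e_12; positivity

theorem c52e_nn {n p t : ℝ} (hn : 0 ≤ n) (hp : 0 ≤ p) (h0 : 0 < t) (h1 : t ≤ 1) :
    0 ≤ (1 - t) * (c52e_0 n p * t ^ 0 + c52e_1 n p * t ^ 1 + c52e_2 n p * t ^ 2 + c52e_3 n p * t ^ 3
      + c52e_4 n p * t ^ 4 + c52e_5 n p * t ^ 5 + c52e_6 n p * t ^ 6 + c52e_7 n p * t ^ 7 +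
      c52e_8 n p * t ^ 8 + c52e_9 n p * t ^ 9 + c52e_10 n p * t ^ 10 + c52e_11 n p * t ^ 11)
      + c52e_12 n p * t ^ 12 := by
  have e0 := c52e_0_nn hn hp
  have e1 := c52e_1_nn hn hp
  have e2 := c52e_2_nn hn hp
  have e3 := c52e_3_nn hn hp
  have e4 := c52e_4_nn hn hp
  have e5 := c52e_5_nn hn hp
  have e6 := c52e_6_nn hn hp
  have e7 := c52e_7_nn hn hp
  have e8 := c52e_8_nn hn hp
  have e9 := c52e_9_nn hn hp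
  have e10 := c52e_10_nn hn hp
  have e11 := c52e_11_nn hn hp
  have e12 := c52e_12_nn hn hp
  have h2 : 0 ≤ 1 - t := by linarith
  exact add_nonneg (mul_nonneg h2 (by positivity)) (by positivity)

noncomputable def c52a_6 (n p : ℝ) : ℝ :=
  10 * n ^ 5 + 100 * n ^ 4 * p + 400 * n ^ 3 * p ^ 2 + 800 * n ^ 2 * p ^ 3 + 800 * n * p ^ 4 +
  320 * p ^ 5 + 260 * n ^ 4 + 2040 * n ^ 3 * p + 6000 * n ^ 2 * p ^ 2 + 7840 * n * p ^ 3 +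
  3840 * p ^ 4 + 2600 * n ^ 3 + 14976 * n ^ 2 * p + 28719 * n * p ^ 2 + 18334 * p ^ 3 +
  62192 / 5 * n ^ 2 + 233584 / 5 * n * p + 43758 * p ^ 2 + 28401 * n + 1306482 / 25 * p +
  15508782 / 625

theorem c52a_6_nn {n p : ℝ} (hn : 0 ≤ n) (hp : 0 ≤ p) : 0 ≤ c52a_6 n p := by
  unfold c52a_6; positivity

noncomputable def c52a_7 (n p : ℝ) : ℝ :=
  10 * n ^ 5 + 120 * n ^ 4 * p + 560 * n ^ 3 * p ^ 2 + 1280 * n ^ 2 * p ^ 3 + 1440 * n * p ^ 4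
  + 640 * p ^ 5 + 332 * n ^ 4 + 3032 * n ^ 3 * p + 10194 * n ^ 2 * p ^ 2 + 15016 * n * p ^ 3
  + 8200 * p ^ 4 + 20488 / 5 * n ^ 3 + 133802 / 5 * n ^ 2 * p + 287867 / 5 * n * p ^ 2 +
  40886 * p ^ 3 + 582697 / 25 * n ^ 2 + 2420124 / 25 * n * p + 498826 / 5 * p ^ 2 + 7556673
  / 125 * n + 2994786 / 25 * p + 35363634 / 625

theorem c52a_7_nn {n p : ℝ} (hn : 0 ≤ n) (hp : 0 ≤ p) : 0 ≤ c52a_7 n p := by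
  unfold c52a_7; positivity

noncomputable def c52a_8 (n p : ℝ) : ℝ :=
  10 * n ^ 5 + 120 * n ^ 4 * p + 570 * n ^ 3 * p ^ 2 + 1340 * n ^ 2 * p ^ 3 + 1560 * n * p ^ 4
  + 720 * p ^ 5 + 332 * n ^ 4 + 3204 * n ^ 3 * p + 11382 * n ^ 2 * p ^ 2 + 17704 * n * p ^ 3
  + 10200 * p ^ 4 + 22411 / 5 * n ^ 3 + 158756 / 5 * n ^ 2 * p + 367413 / 5 * n * p ^ 2 +
  55818 * p ^ 3 + 732691 / 25 * n ^ 2 + 3316916 / 25 * n * p + 738078 / 5 * p ^ 2 + 11086767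
  / 125 * n + 4741038 / 25 * p + 59548782 / 625

theorem c52a_8_nn {n p : ℝ} (hn : 0 ≤ n) (hp : 0 ≤ p) : 0 ≤ c52a_8 n p := by
  unfold c52a_8; positivity

noncomputable def c52a_9 (n p : ℝ) : ℝ :=
  10 * n ^ 5 + 120 * n ^ 4 * p + 570 * n ^ 3 * p ^ 2 + 1340 * n ^ 2 * p ^ 3 + 1560 * n * p ^ 4
  + 720 * p ^ 5 + 332 * n ^ 4 + 3204 * n ^ 3 * p + 11472 * n ^ 2 * p ^ 2 + 18064 * n * p ^ 3
  + 10560 * p ^ 4 + 22411 / 5 * n ^ 3 + 163046 / 5 * n ^ 2 * p + 389253 / 5 * n * p ^ 2 +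
  61122 * p ^ 3 + 768376 / 25 * n ^ 2 + 3682736 / 25 * n * p + 864726 / 5 * p ^ 2 + 12942387
  / 125 * n + 5965494 / 25 * p + 80815842 / 625

theorem c52a_9_nn {n p : ℝ} (hn : 0 ≤ n) (hp : 0 ≤ p) : 0 ≤ c52a_9 n p := by
  unfold c52a_9; positivity

noncomputable def c52a_10 (n p : ℝ) : ℝ :=
  10 * n ^ 5 + 120 * n ^ 4 * p + 570 * n ^ 3 * p ^ 2 + 1340 * n ^ 2 * p ^ 3 + 1560 * n * p ^ 4
  + 720 * p ^ 5 + 332 * n ^ 4 + 3204 * n ^ 3 * p + 11472 * n ^ 2 * p ^ 2 + 18064 * n * p ^ 3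
  + 10560 * p ^ 4 + 22411 / 5 * n ^ 3 + 163046 / 5 * n ^ 2 * p + 391128 / 5 * n * p ^ 2 +
  61872 * p ^ 3 + 768376 / 25 * n ^ 2 + 3745736 / 25 * n * p + 899676 / 5 * p ^ 2 + 13362012
  / 125 * n + 6460944 / 25 * p + 91726092 / 625

theorem c52a_10_nn {n p : ℝ} (hn : 0 ≤ n) (hp : 0 ≤ p) : 0 ≤ c52a_10 n p := by
  unfold c52a_10; positivity

noncomputable def c52a_11 (n p : ℝ) : ℝ :=
  10 * n ^ 5 + 120 * n ^ 4 * p + 570 * n ^ 3 * p ^ 2 + 1340 * n ^ 2 * p ^ 3 + 1560 * n * p ^ 4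
  + 720 * p ^ 5 + 332 * n ^ 4 + 3204 * n ^ 3 * p + 11472 * n ^ 2 * p ^ 2 + 18064 * n * p ^ 3
  + 10560 * p ^ 4 + 22411 / 5 * n ^ 3 + 163046 / 5 * n ^ 2 * p + 391128 / 5 * n * p ^ 2 +
  61872 * p ^ 3 + 768376 / 25 * n ^ 2 + 3745736 / 25 * n * p + 902976 / 5 * p ^ 2 + 13362012
  / 125 * n + 6546744 / 25 * p + 94102092 / 625

theorem c52a_11_nn {n p : ℝ} (hn : 0 ≤ n) (hp : 0 ≤ p) : 0 ≤ c52a_11 n p := by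
  unfold c52a_11; positivity

theorem c52a_nn {n p t : ℝ} (hn : 0 ≤ n) (hp : 0 ≤ p) (h0 : 0 < t) (h1 : t ≤ 1) :
    0 ≤ (1 - t) * (c52a_6 n p * t ^ 6 + c52a_7 n p * t ^ 7 + c52a_8 n p * t ^ 8 + c52a_9 n p * t ^ 9
      + c52a_10 n p * t ^ 10) + c52a_11 n p * t ^ 11 := by
  have e6 := c52a_6_nn hn hp
  have e7 := c52a_7_nn hn hp
  have e8 := c52a_8_nn hn hp
  have e9 := c52a_9_nn hn hp
  have e10 := c52a_10_nn hn hp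
  have e11 := c52a_11_nn hn hp
  have h2 : 0 ≤ 1 - t := by linarith
  exact add_nonneg (mul_nonneg h2 (by positivity)) (by positivity)

noncomputable def c52b_0 (n p : ℝ) : ℝ :=
  1200

theorem c52b_0_nn {n p : ℝ} (hn : 0 ≤ n) (hp : 0 ≤ p) : 0 ≤ c52b_0 n p := by
  unfold c52b_0; positivity

noncomputable def c52b_1 (n p : ℝ) : ℝ :=
  1200 * n + 2400 * p + 7440

theorem c52b_1_nn {n p : ℝ} (hn : 0 ≤ n) (hp : 0 ≤ p) : 0 ≤ c52b_1 n p := by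
  unfold c52b_1; positivity

noncomputable def c52b_2 (n p : ℝ) : ℝ :=
  600 * n ^ 2 + 2400 * n * p + 2400 * p ^ 2 + 7440 * n + 15120 * p + 22368

theorem c52b_2_nn {n p : ℝ} (hn : 0 ≤ n) (hp : 0 ≤ p) : 0 ≤ c52b_2 n p := by
  unfold c52b_2; positivity

noncomputable def c52b_3 (n p : ℝ) : ℝ :=
  200 * n ^ 3 + 1200 * n ^ 2 * p + 2400 * n * p ^ 2 + 1600 * p ^ 3 + 3720 * n ^ 2 + 15120 * n
  * p + 15360 * p ^ 2 + 22768 * n + 47024 * p + 229152 / 5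

theorem c52b_3_nn {n p : ℝ} (hn : 0 ≤ n) (hp : 0 ≤ p) : 0 ≤ c52b_3 n p := by
  unfold c52b_3; positivity

noncomputable def c52b_4 (n p : ℝ) : ℝ :=
  50 * n ^ 4 + 400 * n ^ 3 * p + 1200 * n ^ 2 * p ^ 2 + 1600 * n * p ^ 3 + 800 * p ^ 4 + 1240
  * n ^ 3 + 7560 * n ^ 2 * p + 15360 * n * p ^ 2 + 10400 * p ^ 3 + 11584 * n ^ 2 + 47824 * n
  * p + 49327 * p ^ 2 + 241552 / 5 * n + 506108 / 5 * p + 1898949 / 25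

theorem c52b_4_nn {n p : ℝ} (hn : 0 ≤ n) (hp : 0 ≤ p) : 0 ≤ c52b_4 n p := by
  unfold c52b_4; positivity

noncomputable def c52b_5 (n p : ℝ) : ℝ :=
  10 * n ^ 5 + 100 * n ^ 4 * p + 400 * n ^ 3 * p ^ 2 + 800 * n ^ 2 * p ^ 3 + 800 * n * p ^ 4 +
  320 * p ^ 5 + 310 * n ^ 4 + 2520 * n ^ 3 * p + 7680 * n ^ 2 * p ^ 2 + 10400 * n * p ^ 3 +
  5280 * p ^ 4 + 3928 * n ^ 3 + 24312 * n ^ 2 * p + 50127 * n * p ^ 2 + 34430 * p ^ 3 +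
  126976 / 5 * n ^ 2 + 531308 / 5 * n * p + 555177 / 5 * p ^ 2 + 2091349 / 25 * n + 4431566
  / 25 * p + 70078947 / 625

theorem c52b_5_nn {n p : ℝ} (hn : 0 ≤ n) (hp : 0 ≤ p) : 0 ≤ c52b_5 n p := by
  unfold c52b_5; positivity

noncomputable def c52b_6 (n p : ℝ) : ℝ :=
  10 * n ^ 5 + 120 * n ^ 4 * p + 560 * n ^ 3 * p ^ 2 + 1280 * n ^ 2 * p ^ 3 + 1440 * n * p ^ 4
  + 640 * p ^ 5 + 332 * n ^ 4 + 3112 * n ^ 3 * p + 10704 * n ^ 2 * p ^ 2 + 16096 * n * p ^ 3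
  + 8960 * p ^ 4 + 21928 / 5 * n ^ 3 + 151262 / 5 * n ^ 2 * p + 341987 / 5 * n * p ^ 2 +
  50870 * p ^ 3 + 723862 / 25 * n ^ 2 + 3280684 / 25 * n * p + 733724 / 5 * p ^ 2 + 11990433
  / 125 * n + 5378022 / 25 * p + 79978044 / 625

theorem c52b_6_nn {n p : ℝ} (hn : 0 ≤ n) (hp : 0 ≤ p) : 0 ≤ c52b_6 n p := by
  unfold c52b_6; positivity

noncomputable def c52b_7 (n p : ℝ) : ℝ :=
  10 * n ^ 5 + 120 * n ^ 4 * p + 570 * n ^ 3 * p ^ 2 + 1340 * n ^ 2 * p ^ 3 + 1560 * n * p ^ 4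
  + 720 * p ^ 5 + 332 * n ^ 4 + 3204 * n ^ 3 * p + 11412 * n ^ 2 * p ^ 2 + 17824 * n * p ^ 3
  + 10320 * p ^ 4 + 22411 / 5 * n ^ 3 + 161336 / 5 * n ^ 2 * p + 380193 / 5 * n * p ^ 2 +
  58866 * p ^ 3 + 761536 / 25 * n ^ 2 + 3609356 / 25 * n * p + 840264 / 5 * p ^ 2 + 12943557
  / 125 * n + 241518 * p + 87780852 / 625

theorem c52b_7_nn {n p : ℝ} (hn : 0 ≤ n) (hp : 0 ≤ p) : 0 ≤ c52b_7 n p := by
  unfold c52b_7; positivity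

noncomputable def c52b_8 (n p : ℝ) : ℝ :=
  10 * n ^ 5 + 120 * n ^ 4 * p + 570 * n ^ 3 * p ^ 2 + 1340 * n ^ 2 * p ^ 3 + 1560 * n * p ^ 4
  + 720 * p ^ 5 + 332 * n ^ 4 + 3204 * n ^ 3 * p + 11472 * n ^ 2 * p ^ 2 + 18064 * n * p ^ 3
  + 10560 * p ^ 4 + 22411 / 5 * n ^ 3 + 163046 / 5 * n ^ 2 * p + 390153 / 5 * n * p ^ 2 +
  61482 * p ^ 3 + 768376 / 25 * n ^ 2 + 3725636 / 25 * n * p + 888441 / 5 * p ^ 2 + 13299237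
  / 125 * n + 6394314 / 25 * p + 92192067 / 625

theorem c52b_8_nn {n p : ℝ} (hn : 0 ≤ n) (hp : 0 ≤ p) : 0 ≤ c52b_8 n p := by
  unfold c52b_8; positivity

noncomputable def c52b_9 (n p : ℝ) : ℝ :=
  10 * n ^ 5 + 120 * n ^ 4 * p + 570 * n ^ 3 * p ^ 2 + 1340 * n ^ 2 * p ^ 3 + 1560 * n * p ^ 4
  + 720 * p ^ 5 + 332 * n ^ 4 + 3204 * n ^ 3 * p + 11472 * n ^ 2 * p ^ 2 + 18064 * n * p ^ 3
  + 10560 * p ^ 4 + 22411 / 5 * n ^ 3 + 163046 / 5 * n ^ 2 * p + 391128 / 5 * n * p ^ 2 +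
  61872 * p ^ 3 + 768376 / 25 * n ^ 2 + 3745736 / 25 * n * p + 901551 / 5 * p ^ 2 + 13362012
  / 125 * n + 6523944 / 25 * p + 93824217 / 625

theorem c52b_9_nn {n p : ℝ} (hn : 0 ≤ n) (hp : 0 ≤ p) : 0 ≤ c52b_9 n p := by
  unfold c52b_9; positivity

noncomputable def c52b_10 (n p : ℝ) : ℝ :=
  10 * n ^ 5 + 120 * n ^ 4 * p + 570 * n ^ 3 * p ^ 2 + 1340 * n ^ 2 * p ^ 3 + 1560 * n * p ^ 4
  + 720 * p ^ 5 + 332 * n ^ 4 + 3204 * n ^ 3 * p + 11472 * n ^ 2 * p ^ 2 + 18064 * n * p ^ 3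
  + 10560 * p ^ 4 + 22411 / 5 * n ^ 3 + 163046 / 5 * n ^ 2 * p + 391128 / 5 * n * p ^ 2 +
  61872 * p ^ 3 + 768376 / 25 * n ^ 2 + 3745736 / 25 * n * p + 902976 / 5 * p ^ 2 + 13362012
  / 125 * n + 6546744 / 25 * p + 94102092 / 625

theorem c52b_10_nn {n p : ℝ} (hn : 0 ≤ n) (hp : 0 ≤ p) : 0 ≤ c52b_10 n p := by
  unfold c52b_10; positivity

theorem c52b_nn {n p t : ℝ} (hn : 0 ≤ n) (hp : 0 ≤ p) (h0 : 0 < t) (h1 : t ≤ 1) :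
    0 ≤ (1 - t) * (c52b_0 n p * t ^ 0 + c52b_1 n p * t ^ 1 + c52b_2 n p * t ^ 2 + c52b_3 n p * t ^ 3
      + c52b_4 n p * t ^ 4 + c52b_5 n p * t ^ 5 + c52b_6 n p * t ^ 6 + c52b_7 n p * t ^ 7 +
      c52b_8 n p * t ^ 8 + c52b_9 n p * t ^ 9) + c52b_10 n p * t ^ 10 := by
  have e0 := c52b_0_nn hn hp
  have e1 := c52b_1_nn hn hp
  have e2 := c52b_2_nn hn hp
  have e3 := c52b_3_nn hn hp
  have e4 := c52b_4_nn hn hp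
  have e5 := c52b_5_nn hn hp
  have e6 := c52b_6_nn hn hp
  have e7 := c52b_7_nn hn hp
  have e8 := c52b_8_nn hn hp
  have e9 := c52b_9_nn hn hp
  have e10 := c52b_10_nn hn hp
  have h2 : 0 ≤ 1 - t := by linarith
  exact add_nonneg (mul_nonneg h2 (by positivity)) (by positivity)

noncomputable def c52s (n t : ℝ) : ℝ :=
  4 * t ^ 5 * n ^ 5 + 108 * t ^ 5 * n ^ 4 + 1027 * t ^ 5 * n ^ 3 + 2913 * t ^ 5 * n ^ 2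

theorem c52s_nn {n t : ℝ} (hn : 0 ≤ n) (h0 : 0 < t) : 0 ≤ c52s n t := by
  unfold c52s; positivity

end Pool.Agent.KIQ.POLY

namespace Pool.Agent.KIQ

open POLY

theorem PC5_2 {a q A B t : ℝ} (hq : 8 / 5 ≤ q) (ha : 2 * q + 2 ≤ a)
    (hA : (3 * q - 2) * a ≤ (a ^ 2 - q ^ 2) * A) (hB : q * (3 * q - 2) ≤ (a ^ 2 - q ^ 2) * B)
    (h0 : 0 < t) (h1 : t ≤ 1) :
    16 * t ^ 4 * ((pp 0 a q (iniC A B) 1 0).eval t + 2 * (pp 0 a q (iniC A B) 1 1).eval t) +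
      36 * t ^ 5 * (B + A * t + t ^ 2) ≤
      (pp 0 a q (iniC A B) 5 2).eval t := by
  obtain ⟨p, hp, rfl⟩ : ∃ p : ℝ, 0 ≤ p ∧ q = 8 / 5 + p := ⟨q - 8 / 5, by linarith, by ring⟩
  obtain ⟨n, hn, rfl⟩ : ∃ n : ℝ, 0 ≤ n ∧ a = 2 * (8 / 5 + p) + 2 + n :=
    ⟨a - (2 * (8 / 5 + p) + 2), by linarith, by ring⟩
  simp only [fc_5_2, fc_1_0, fc_1_1, eval_PL, evL]
  have hc : 0 < (2 * (8 / 5 + p) + 2 + n) ^ 2 - (8 / 5 + p) ^ 2 := by nlinarith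
  refine fin_aux hc (sub_nonneg.2 hA) (sub_nonneg.2 hB)
    (add_nonneg (c52e_nn hn hp h0 h1) (mul_nonneg (c52s_nn hn h0)
      (sq_nonneg ((2 * (8 / 5 + p) + 2 + n) * t - 3))))
    (c52a_nn hn hp h0 h1) (c52b_nn hn hp h0 h1) ?_
  simp only [c52e_0, c52e_1, c52e_2, c52e_3, c52e_4, c52e_5, c52e_6, c52e_7, c52e_8, c52e_9, c52e_10,
    c52e_11, c52e_12, c52a_6, c52a_7, c52a_8, c52a_9, c52a_10, c52a_11, c52b_0, c52b_1,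
    c52b_2, c52b_3, c52b_4, c52b_5, c52b_6, c52b_7, c52b_8, c52b_9, c52b_10, c52s, fc_5_2_0,
    fc_5_2_1, fc_5_2_2, fc_5_2_3, fc_5_2_4, fc_5_2_5, fc_5_2_6, fc_5_2_7, fc_5_2_8,
    fc_5_2_9, fc_5_2_10, fc_5_2_11, fc_5_2_12, fc_1_0_0, fc_1_0_1, fc_1_0_2, fc_1_0_3,
    fc_1_0_4, fc_1_1_0, fc_1_1_1, fc_1_1_2, fc_1_1_3, fc_1_1_4]
  ring

end Pool.Agent.KIQ

namespace Pool.Agent.KIQ.POLY

noncomputable def c53e_0 (n p : ℝ) : ℝ :=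
  3600 * p ^ 2 + 9120 * p + 5376

theorem c53e_0_nn {n p : ℝ} (hn : 0 ≤ n) (hp : 0 ≤ p) : 0 ≤ c53e_0 n p := by
  unfold c53e_0; positivity

noncomputable def c53e_1 (n p : ℝ) : ℝ :=
  3600 * n * p ^ 2 + 7200 * p ^ 3 + 9120 * n * p + 40560 * p ^ 2 + 5376 * n + 67296 * p +
  166656 / 5

theorem c53e_1_nn {n p : ℝ} (hn : 0 ≤ n) (hp : 0 ≤ p) : 0 ≤ c53e_1 n p := by
  unfold c53e_1; positivity

noncomputable def c53e_2 (n p : ℝ) : ℝ :=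
  1800 * n ^ 2 * p ^ 2 + 7200 * n * p ^ 3 + 7200 * p ^ 4 + 4560 * n ^ 2 * p + 40560 * n * p ^
  2 + 63960 * p ^ 3 + 2688 * n ^ 2 + 67296 * n * p + 195336 * p ^ 2 + 166656 / 5 * n +
  1212336 / 5 * p + 513408 / 5

theorem c53e_2_nn {n p : ℝ} (hn : 0 ≤ n) (hp : 0 ≤ p) : 0 ≤ c53e_2 n p := by
  unfold c53e_2; positivity

noncomputable def c53e_3 (n p : ℝ) : ℝ :=
  600 * n ^ 3 * p ^ 2 + 3600 * n ^ 2 * p ^ 3 + 7200 * n * p ^ 4 + 4800 * p ^ 5 + 1520 * n ^ 3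
  * p + 20280 * n ^ 2 * p ^ 2 + 63960 * n * p ^ 3 + 58960 * p ^ 4 + 896 * n ^ 3 + 33648 * n
  ^ 2 * p + 196536 * n * p ^ 2 + 272344 * p ^ 3 + 83328 / 5 * n ^ 2 + 1227536 / 5 * n * p +
  2945368 / 5 * p ^ 2 + 522368 / 5 * n + 14831696 / 25 * p + 27581568 / 125

theorem c53e_3_nn {n p : ℝ} (hn : 0 ≤ n) (hp : 0 ≤ p) : 0 ≤ c53e_3 n p := by
  unfold c53e_3; positivity

noncomputable def c53e_4 (n p : ℝ) : ℝ :=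
  150 * n ^ 4 * p ^ 2 + 1200 * n ^ 3 * p ^ 3 + 3600 * n ^ 2 * p ^ 4 + 4800 * n * p ^ 5 + 2400
  * p ^ 6 + 380 * n ^ 4 * p + 6760 * n ^ 3 * p ^ 2 + 31980 * n ^ 2 * p ^ 3 + 58960 * n * p ^
  4 + 38000 * p ^ 5 + 224 * n ^ 4 + 11216 * n ^ 3 * p + 98868 * n ^ 2 * p ^ 2 + 274744 * n *
  p ^ 3 + 240295 * p ^ 4 + 27776 / 5 * n ^ 3 + 621368 / 5 * n ^ 2 * p + 3012968 / 5 * n * p
  ^ 2 + 774066 * p ^ 3 + 265664 / 5 * n ^ 2 + 15392496 / 25 * n * p + 1332701 * p ^ 2 +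
  28970368 / 125 * n + 144213818 / 125 * p + 48524112 / 125

theorem c53e_4_nn {n p : ℝ} (hn : 0 ≤ n) (hp : 0 ≤ p) : 0 ≤ c53e_4 n p := by
  unfold c53e_4; positivity

noncomputable def c53e_5 (n p : ℝ) : ℝ :=
  30 * n ^ 5 * p ^ 2 + 300 * n ^ 4 * p ^ 3 + 1200 * n ^ 3 * p ^ 4 + 2400 * n ^ 2 * p ^ 5 +
  2400 * n * p ^ 6 + 960 * p ^ 7 + 76 * n ^ 5 * p + 1690 * n ^ 4 * p ^ 2 + 10660 * n ^ 3 * p
  ^ 3 + 29480 * n ^ 2 * p ^ 4 + 38000 * n * p ^ 5 + 18752 * p ^ 6 + 44 / 5 * n ^ 5 + 2804 *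
  n ^ 4 * p + 33156 * n ^ 3 * p ^ 2 + 138572 * n ^ 2 * p ^ 3 + 242695 * n * p ^ 4 + 764598 /
  5 * p ^ 5 + 2084 / 5 * n ^ 4 + 209656 / 5 * n ^ 3 * p + 1540284 / 5 * n ^ 2 * p ^ 2 +
  795386 * n * p ^ 3 + 3363053 / 5 * p ^ 4 + 30738 / 5 * n ^ 3 + 7976648 / 25 * n ^ 2 * p +
  1398533 * n * p ^ 2 + 42870224 / 25 * p ^ 3 + 13975834 / 125 * n ^ 2 + 154544618 / 125 * n
  * p + 1572828951 / 625 * p ^ 2 + 52936912 / 125 * n + 6093559286 / 3125 * p + 9501145584 /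
  15625

theorem c53e_5_nn {n p : ℝ} (hn : 0 ≤ n) (hp : 0 ≤ p) : 0 ≤ c53e_5 n p := by
  unfold c53e_5; positivity

noncomputable def c53e_6 (n p : ℝ) : ℝ :=
  30 * n ^ 6 * p + 390 * n ^ 5 * p ^ 2 + 2190 * n ^ 4 * p ^ 3 + 6720 * n ^ 3 * p ^ 4 + 11760 *
  n ^ 2 * p ^ 5 + 11040 * n * p ^ 6 + 4320 * p ^ 7 + 2 * n ^ 6 + 796 * n ^ 5 * p + 10002 * n
  ^ 4 * p ^ 2 + 48628 * n ^ 3 * p ^ 3 + 116840 * n ^ 2 * p ^ 4 + 139824 * n * p ^ 5 + 66624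
  * p ^ 6 + 476 / 5 * n ^ 5 + 48416 / 5 * n ^ 4 * p + 554676 / 5 * n ^ 3 * p ^ 2 + 430805 *
  n ^ 2 * p ^ 3 + 711851 * n * p ^ 4 + 2166261 / 5 * p ^ 5 + 84756 / 25 * n ^ 4 + 2037152 /
  25 * n ^ 3 * p + 3468431 / 5 * n ^ 2 * p ^ 2 + 9182594 / 5 * n * p ^ 3 + 7677131 / 5 * p ^
  4 + 587214 / 125 * n ^ 3 + 10293333 / 25 * n ^ 2 * p + 61407469 / 25 * n * p ^ 2 +
  79574503 / 25 * p ^ 3 + 1955521 / 625 * n ^ 2 + 939885214 / 625 * n * p + 2385567317 / 625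
  * p ^ 2 + 803625172 / 3125 * n + 7517402332 / 3125 * p + 9308580588 / 15625

theorem c53e_6_nn {n p : ℝ} (hn : 0 ≤ n) (hp : 0 ≤ p) : 0 ≤ c53e_6 n p := by
  unfold c53e_6; positivity

noncomputable def c53e_7 (n p : ℝ) : ℝ :=
  6 * n ^ 7 + 154 * n ^ 6 * p + 1294 * n ^ 5 * p ^ 2 + 5790 * n ^ 4 * p ^ 3 + 15610 * n ^ 3 *
  p ^ 4 + 25420 * n ^ 2 * p ^ 5 + 23000 * n * p ^ 6 + 8880 * p ^ 7 + 1082 / 5 * n ^ 6 +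
  24224 / 5 * n ^ 5 * p + 35450 * n ^ 4 * p ^ 2 + 132134 * n ^ 3 * p ^ 3 + 275920 * n ^ 2 *
  p ^ 4 + 306970 * n * p ^ 5 + 141316 * p ^ 6 + 67826 / 25 * n ^ 5 + 294664 / 5 * n ^ 4 * p
  + 1880258 / 5 * n ^ 3 * p ^ 2 + 1116341 * n ^ 2 * p ^ 3 + 1618895 * n * p ^ 4 + 4626049 /
  5 * p ^ 5 + 540358 / 25 * n ^ 4 + 9801431 / 25 * n ^ 3 * p + 10068269 / 5 * n ^ 2 * p ^ 2
  + 4233291 * n * p ^ 3 + 16015629 / 5 * p ^ 4 + 10094457 / 125 * n ^ 3 + 1431569 * n ^ 2 *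
  p + 27659994 / 5 * n * p ^ 2 + 155661427 / 25 * p ^ 3 + 83819447 / 625 * n ^ 2 + 74802122
  / 25 * n * p + 4096151603 / 625 * p ^ 2 + 111238952 / 625 * n + 9832782588 / 3125 * p +
  5360315892 / 15625

theorem c53e_7_nn {n p : ℝ} (hn : 0 ≤ n) (hp : 0 ≤ p) : 0 ≤ c53e_7 n p := by
  unfold c53e_7; positivity

noncomputable def c53e_8 (n p : ℝ) : ℝ :=
  6 * n ^ 7 + 184 * n ^ 6 * p + 1654 * n ^ 5 * p ^ 2 + 7650 * n ^ 4 * p ^ 3 + 20890 * n ^ 3 *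
  p ^ 4 + 34090 * n ^ 2 * p ^ 5 + 30800 * n * p ^ 6 + 11880 * p ^ 7 + 1872 / 5 * n ^ 6 +
  38384 / 5 * n ^ 5 * p + 54948 * n ^ 4 * p ^ 2 + 201366 * n ^ 3 * p ^ 3 + 412850 * n ^ 2 *
  p ^ 4 + 451930 * n * p ^ 5 + 205916 * p ^ 6 + 191066 / 25 * n ^ 5 + 602033 / 5 * n ^ 4 * p
  + 3421722 / 5 * n ^ 3 * p ^ 2 + 1899741 * n ^ 2 * p ^ 3 + 2634615 * n * p ^ 4 + 7320574 /
  5 * p ^ 5 + 2029152 / 25 * n ^ 4 + 23825999 / 25 * n ^ 3 * p + 20334961 / 5 * n ^ 2 * p ^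
  2 + 7705339 * n * p ^ 3 + 27437179 / 5 * p ^ 4 + 53848713 / 125 * n ^ 3 + 96952436 / 25 *
  n ^ 2 * p + 57955302 / 5 * n * p ^ 2 + 287722552 / 25 * p ^ 3 + 719568004 / 625 * n ^ 2 +
  989269266 / 125 * n * p + 8128850153 / 625 * p ^ 2 + 899096828 / 625 * n + 20620732638 /
  3125 * p + 10010141592 / 15625

theorem c53e_8_nn {n p : ℝ} (hn : 0 ≤ n) (hp : 0 ≤ p) : 0 ≤ c53e_8 n p := by
  unfold c53e_8; positivity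

noncomputable def c53e_9 (n p : ℝ) : ℝ :=
  6 * n ^ 7 + 184 * n ^ 6 * p + 1684 * n ^ 5 * p ^ 2 + 7950 * n ^ 4 * p ^ 3 + 22090 * n ^ 3 *
  p ^ 4 + 36490 * n ^ 2 * p ^ 5 + 33200 * n * p ^ 6 + 12840 * p ^ 7 + 1872 / 5 * n ^ 6 +
  40664 / 5 * n ^ 5 * p + 60288 * n ^ 4 * p ^ 2 + 226226 * n ^ 3 * p ^ 3 + 470330 * n ^ 2 *
  p ^ 4 + 518190 * n * p ^ 5 + 236548 * p ^ 6 + 224011 / 25 * n ^ 5 + 727203 / 5 * n ^ 4 * p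
  + 4210002 / 5 * n ^ 3 * p ^ 2 + 2356213 * n ^ 2 * p ^ 3 + 3268830 * n * p ^ 4 + 9054412 /
  5 * p ^ 5 + 2885722 / 25 * n ^ 4 + 33635629 / 25 * n ^ 3 * p + 5672129 * n ^ 2 * p ^ 2 +
  10569767 * n * p ^ 3 + 37051017 / 5 * p ^ 4 + 95867363 / 125 * n ^ 3 + 161446484 / 25 * n
  ^ 2 * p + 91051287 / 5 * n * p ^ 2 + 432556666 / 25 * p ^ 3 + 1680857424 / 625 * n ^ 2 +
  1925871664 / 125 * n * p + 14101159679 / 625 * p ^ 2 + 2913992564 / 625 * n + 45293496714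
  / 3125 * p + 47489185896 / 15625

theorem c53e_9_nn {n p : ℝ} (hn : 0 ≤ n) (hp : 0 ≤ p) : 0 ≤ c53e_9 n p := by
  unfold c53e_9; positivity

noncomputable def c53e_10 (n p : ℝ) : ℝ :=
  6 * n ^ 7 + 184 * n ^ 6 * p + 1684 * n ^ 5 * p ^ 2 + 7960 * n ^ 4 * p ^ 3 + 22170 * n ^ 3 *
  p ^ 4 + 36720 * n ^ 2 * p ^ 5 + 33480 * n * p ^ 6 + 12960 * p ^ 7 + 1872 / 5 * n ^ 6 +
  40664 / 5 * n ^ 5 * p + 60696 * n ^ 4 * p ^ 2 + 229698 * n ^ 3 * p ^ 3 + 481200 * n ^ 2 *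
  p ^ 4 + 532958 * n * p ^ 5 + 243852 * p ^ 6 + 224011 / 25 * n ^ 5 + 743722 / 5 * n ^ 4 * p
  + 4384586 / 5 * n ^ 3 * p ^ 2 + 2487753 * n ^ 2 * p ^ 3 + 3479942 * n * p ^ 4 + 9669773 /
  5 * p ^ 5 + 3055036 / 25 * n ^ 4 + 36708117 / 25 * n ^ 3 * p + 31558193 / 5 * n ^ 2 * p ^
  2 + 59361603 / 5 * n * p ^ 3 + 41697503 / 5 * p ^ 4 + 113476019 / 125 * n ^ 3 + 195436633
  / 25 * n ^ 2 * p + 554292663 / 25 * n * p ^ 2 + 524532599 / 25 * p ^ 3 + 2341789857 / 625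
  * n ^ 2 + 13293922568 / 625 * n * p + 19062255401 / 625 * p ^ 2 + 25131546424 / 3125 * n +
  72881071836 / 3125 * p + 109246859484 / 15625

theorem c53e_10_nn {n p : ℝ} (hn : 0 ≤ n) (hp : 0 ≤ p) : 0 ≤ c53e_10 n p := by
  unfold c53e_10; positivity

noncomputable def c53e_11 (n p : ℝ) : ℝ :=
  6 * n ^ 7 + 184 * n ^ 6 * p + 1684 * n ^ 5 * p ^ 2 + 7960 * n ^ 4 * p ^ 3 + 22170 * n ^ 3 *
  p ^ 4 + 36720 * n ^ 2 * p ^ 5 + 33480 * n * p ^ 6 + 12960 * p ^ 7 + 1872 / 5 * n ^ 6 +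
  40664 / 5 * n ^ 5 * p + 60696 * n ^ 4 * p ^ 2 + 229808 * n ^ 3 * p ^ 3 + 481860 * n ^ 2 *
  p ^ 4 + 534168 * n * p ^ 5 + 244512 * p ^ 6 + 224011 / 25 * n ^ 5 + 743722 / 5 * n ^ 4 * p
  + 4396001 / 5 * n ^ 3 * p ^ 2 + 2503167 * n ^ 2 * p ^ 3 + 3512332 * n * p ^ 4 + 9773853 /
  5 * p ^ 5 + 3055036 / 25 * n ^ 4 + 37028512 / 25 * n ^ 3 * p + 32120741 / 5 * n ^ 2 * p ^
  2 + 60830328 / 5 * n * p ^ 3 + 42848773 / 5 * p ^ 4 + 116049314 / 125 * n ^ 3 + 203522749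
  / 25 * n ^ 2 * p + 584264968 / 25 * n * p ^ 2 + 555151179 / 25 * p ^ 3 + 2542506867 / 625
  * n ^ 2 + 14715861268 / 625 * n * p + 21196492051 / 625 * p ^ 2 + 30257469004 / 3125 * n +
  87966229116 / 3125 * p + 152064380724 / 15625

theorem c53e_11_nn {n p : ℝ} (hn : 0 ≤ n) (hp : 0 ≤ p) : 0 ≤ c53e_11 n p := by
  unfold c53e_11; positivity

noncomputable def c53e_12 (n p : ℝ) : ℝ :=
  6 * n ^ 7 + 184 * n ^ 6 * p + 1684 * n ^ 5 * p ^ 2 + 7960 * n ^ 4 * p ^ 3 + 22170 * n ^ 3 *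
  p ^ 4 + 36720 * n ^ 2 * p ^ 5 + 33480 * n * p ^ 6 + 12960 * p ^ 7 + 1872 / 5 * n ^ 6 +
  40664 / 5 * n ^ 5 * p + 60696 * n ^ 4 * p ^ 2 + 229808 * n ^ 3 * p ^ 3 + 481860 * n ^ 2 *
  p ^ 4 + 534168 * n * p ^ 5 + 244512 * p ^ 6 + 224011 / 25 * n ^ 5 + 743722 / 5 * n ^ 4 * p
  + 4396001 / 5 * n ^ 3 * p ^ 2 + 2503532 * n ^ 2 * p ^ 3 + 3513792 * n * p ^ 4 + 9779328 /
  5 * p ^ 5 + 3055036 / 25 * n ^ 4 + 37028512 / 25 * n ^ 3 * p + 32145926 / 5 * n ^ 2 * p ^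
  2 + 60950048 / 5 * n * p ^ 3 + 42956448 / 5 * p ^ 4 + 116049314 / 125 * n ^ 3 + 204065504
  / 25 * n ^ 2 * p + 587745608 / 25 * n * p ^ 2 + 559219104 / 25 * p ^ 3 + 2560514142 / 625
  * n ^ 2 + 14929006668 / 625 * n * p + 21566392176 / 625 * p ^ 2 + 31193847304 / 3125 * n +
  91211699616 / 3125 * p + 163084833024 / 15625

theorem c53e_12_nn {n p : ℝ} (hn : 0 ≤ n) (hp : 0 ≤ p) : 0 ≤ c53e_12 n p := by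
  unfold c53e_12; positivity

theorem c53e_nn {n p t : ℝ} (hn : 0 ≤ n) (hp : 0 ≤ p) (h0 : 0 < t) (h1 : t ≤ 1) :
    0 ≤ (1 - t) * (c53e_0 n p * t ^ 0 + c53e_1 n p * t ^ 1 + c53e_2 n p * t ^ 2 + c53e_3 n p * t ^ 3
      + c53e_4 n p * t ^ 4 + c53e_5 n p * t ^ 5 + c53e_6 n p * t ^ 6 + c53e_7 n p * t ^ 7 +
      c53e_8 n p * t ^ 8 + c53e_9 n p * t ^ 9 + c53e_10 n p * t ^ 10 + c53e_11 n p * t ^ 11)
      + c53e_12 n p * t ^ 12 := by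
  have e0 := c53e_0_nn hn hp
  have e1 := c53e_1_nn hn hp
  have e2 := c53e_2_nn hn hp
  have e3 := c53e_3_nn hn hp
  have e4 := c53e_4_nn hn hp
  have e5 := c53e_5_nn hn hp
  have e6 := c53e_6_nn hn hp
  have e7 := c53e_7_nn hn hp
  have e8 := c53e_8_nn hn hp
  have e9 := c53e_9_nn hn hp
  have e10 := c53e_10_nn hn hp
  have e11 := c53e_11_nn hn hp
  have e12 := c53e_12_nn hn hp
  have h2 : 0 ≤ 1 - t := by linarith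
  exact add_nonneg (mul_nonneg h2 (by positivity)) (by positivity)

noncomputable def c53a_6 (n p : ℝ) : ℝ :=
  10 * n ^ 5 + 100 * n ^ 4 * p + 400 * n ^ 3 * p ^ 2 + 800 * n ^ 2 * p ^ 3 + 800 * n * p ^ 4 +
  320 * p ^ 5 + 260 * n ^ 4 + 2020 * n ^ 3 * p + 5880 * n ^ 2 * p ^ 2 + 7600 * n * p ^ 3 +
  3680 * p ^ 4 + 2548 * n ^ 3 + 14352 * n ^ 2 * p + 26877 * n * p ^ 2 + 16730 * p ^ 3 +
  58136 / 5 * n ^ 2 + 210128 / 5 * n * p + 188882 / 5 * p ^ 2 + 610939 / 25 * n + 1060886 /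
  25 * p + 11782122 / 625

theorem c53a_6_nn {n p : ℝ} (hn : 0 ≤ n) (hp : 0 ≤ p) : 0 ≤ c53a_6 n p := by
  unfold c53a_6; positivity

noncomputable def c53a_7 (n p : ℝ) : ℝ :=
  10 * n ^ 5 + 130 * n ^ 4 * p + 640 * n ^ 3 * p ^ 2 + 1520 * n ^ 2 * p ^ 3 + 1760 * n * p ^ 4
  + 800 * p ^ 5 + 368 * n ^ 4 + 3508 * n ^ 3 * p + 12126 * n ^ 2 * p ^ 2 + 18184 * n * p ^ 3
  + 10040 * p ^ 4 + 23972 / 5 * n ^ 3 + 159198 / 5 * n ^ 2 * p + 344673 / 5 * n * p ^ 2 +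
  48881 * p ^ 3 + 693043 / 25 * n ^ 2 + 2858836 / 25 * n * p + 580112 / 5 * p ^ 2 + 8791907
  / 125 * n + 3371414 / 25 * p + 7659774 / 125

theorem c53a_7_nn {n p : ℝ} (hn : 0 ≤ n) (hp : 0 ≤ p) : 0 ≤ c53a_7 n p := by
  unfold c53a_7; positivity

noncomputable def c53a_8 (n p : ℝ) : ℝ :=
  10 * n ^ 5 + 130 * n ^ 4 * p + 670 * n ^ 3 * p ^ 2 + 1700 * n ^ 2 * p ^ 3 + 2120 * n * p ^ 4
  + 1040 * p ^ 5 + 368 * n ^ 4 + 3844 * n ^ 3 * p + 14610 * n ^ 2 * p ^ 2 + 24058 * n * p ^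
  3 + 14540 * p ^ 4 + 27401 / 5 * n ^ 3 + 41196 * n ^ 2 * p + 498501 / 5 * n * p ^ 2 + 78317
  * p ^ 3 + 192101 / 5 * n ^ 2 + 4495357 / 25 * n * p + 1019378 / 5 * p ^ 2 + 15032909 / 125
  * n + 258092 * p + 80028714 / 625

theorem c53a_8_nn {n p : ℝ} (hn : 0 ≤ n) (hp : 0 ≤ p) : 0 ≤ c53a_8 n p := by
  unfold c53a_8; positivity

noncomputable def c53a_9 (n p : ℝ) : ℝ :=
  10 * n ^ 5 + 130 * n ^ 4 * p + 670 * n ^ 3 * p ^ 2 + 1710 * n ^ 2 * p ^ 3 + 2160 * n * p ^ 4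
  + 1080 * p ^ 5 + 368 * n ^ 4 + 3844 * n ^ 3 * p + 14928 * n ^ 2 * p ^ 2 + 25434 * n * p ^
  3 + 16020 * p ^ 4 + 27401 / 5 * n ^ 3 + 215659 / 5 * n ^ 2 * p + 553753 / 5 * n * p ^ 2 +
  92775 * p ^ 3 + 1030984 / 25 * n ^ 2 + 5280581 / 25 * n * p + 1307598 / 5 * p ^ 2 +
  18697817 / 125 * n + 8992824 / 25 * p + 121869318 / 625

theorem c53a_9_nn {n p : ℝ} (hn : 0 ≤ n) (hp : 0 ≤ p) : 0 ≤ c53a_9 n p := by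
  unfold c53a_9; positivity

noncomputable def c53a_10 (n p : ℝ) : ℝ :=
  10 * n ^ 5 + 130 * n ^ 4 * p + 670 * n ^ 3 * p ^ 2 + 1710 * n ^ 2 * p ^ 3 + 2160 * n * p ^ 4
  + 1080 * p ^ 5 + 368 * n ^ 4 + 3844 * n ^ 3 * p + 14928 * n ^ 2 * p ^ 2 + 25524 * n * p ^
  3 + 16200 * p ^ 4 + 27401 / 5 * n ^ 3 + 215659 / 5 * n ^ 2 * p + 561088 / 5 * n * p ^ 2 +
  96177 * p ^ 3 + 1030984 / 25 * n ^ 2 + 5435786 / 25 * n * p + 1407822 / 5 * p ^ 2 +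
  19577972 / 125 * n + 10151952 / 25 * p + 144753348 / 625

theorem c53a_10_nn {n p : ℝ} (hn : 0 ≤ n) (hp : 0 ≤ p) : 0 ≤ c53a_10 n p := by
  unfold c53a_10; positivity

noncomputable def c53a_11 (n p : ℝ) : ℝ :=
  10 * n ^ 5 + 130 * n ^ 4 * p + 670 * n ^ 3 * p ^ 2 + 1710 * n ^ 2 * p ^ 3 + 2160 * n * p ^ 4
  + 1080 * p ^ 5 + 368 * n ^ 4 + 3844 * n ^ 3 * p + 14928 * n ^ 2 * p ^ 2 + 25524 * n * p ^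
  3 + 16200 * p ^ 4 + 27401 / 5 * n ^ 3 + 215659 / 5 * n ^ 2 * p + 561088 / 5 * n * p ^ 2 +
  96432 * p ^ 3 + 1030984 / 25 * n ^ 2 + 5435786 / 25 * n * p + 1421592 / 5 * p ^ 2 +
  19577972 / 125 * n + 10374312 / 25 * p + 149894148 / 625

theorem c53a_11_nn {n p : ℝ} (hn : 0 ≤ n) (hp : 0 ≤ p) : 0 ≤ c53a_11 n p := by
  unfold c53a_11; positivity

theorem c53a_nn {n p t : ℝ} (hn : 0 ≤ n) (hp : 0 ≤ p) (h0 : 0 < t) (h1 : t ≤ 1) :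
    0 ≤ (1 - t) * (c53a_6 n p * t ^ 6 + c53a_7 n p * t ^ 7 + c53a_8 n p * t ^ 8 + c53a_9 n p * t ^ 9
      + c53a_10 n p * t ^ 10) + c53a_11 n p * t ^ 11 := by
  have e6 := c53a_6_nn hn hp
  have e7 := c53a_7_nn hn hp
  have e8 := c53a_8_nn hn hp
  have e9 := c53a_9_nn hn hp
  have e10 := c53a_10_nn hn hp
  have e11 := c53a_11_nn hn hp
  have h2 : 0 ≤ 1 - t := by linarith
  exact add_nonneg (mul_nonneg h2 (by positivity)) (by positivity)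

noncomputable def c53b_0 (n p : ℝ) : ℝ :=
  1200

theorem c53b_0_nn {n p : ℝ} (hn : 0 ≤ n) (hp : 0 ≤ p) : 0 ≤ c53b_0 n p := by
  unfold c53b_0; positivity

noncomputable def c53b_1 (n p : ℝ) : ℝ :=
  1200 * n + 2400 * p + 7440

theorem c53b_1_nn {n p : ℝ} (hn : 0 ≤ n) (hp : 0 ≤ p) : 0 ≤ c53b_1 n p := by
  unfold c53b_1; positivity

noncomputable def c53b_2 (n p : ℝ) : ℝ :=
  600 * n ^ 2 + 2400 * n * p + 2400 * p ^ 2 + 7440 * n + 15240 * p + 22920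

theorem c53b_2_nn {n p : ℝ} (hn : 0 ≤ n) (hp : 0 ≤ p) : 0 ≤ c53b_2 n p := by
  unfold c53b_2; positivity

noncomputable def c53b_3 (n p : ℝ) : ℝ :=
  200 * n ^ 3 + 1200 * n ^ 2 * p + 2400 * n * p ^ 2 + 1600 * p ^ 3 + 3720 * n ^ 2 + 15240 * n
  * p + 15600 * p ^ 2 + 23320 * n + 48872 * p + 246264 / 5

theorem c53b_3_nn {n p : ℝ} (hn : 0 ≤ n) (hp : 0 ≤ p) : 0 ≤ c53b_3 n p := by
  unfold c53b_3; positivity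

noncomputable def c53b_4 (n p : ℝ) : ℝ :=
  50 * n ^ 4 + 400 * n ^ 3 * p + 1200 * n ^ 2 * p ^ 2 + 1600 * n * p ^ 3 + 800 * p ^ 4 + 1240
  * n ^ 3 + 7620 * n ^ 2 * p + 15600 * n * p ^ 2 + 10640 * p ^ 3 + 11860 * n ^ 2 + 49672 * n
  * p + 51949 * p ^ 2 + 258664 / 5 * n + 552644 / 5 * p + 433251 / 5

theorem c53b_4_nn {n p : ℝ} (hn : 0 ≤ n) (hp : 0 ≤ p) : 0 ≤ c53b_4 n p := by
  unfold c53b_4; positivity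

noncomputable def c53b_5 (n p : ℝ) : ℝ :=
  10 * n ^ 5 + 100 * n ^ 4 * p + 400 * n ^ 3 * p ^ 2 + 800 * n ^ 2 * p ^ 3 + 800 * n * p ^ 4 +
  320 * p ^ 5 + 310 * n ^ 4 + 2540 * n ^ 3 * p + 7800 * n ^ 2 * p ^ 2 + 10640 * n * p ^ 3 +
  5440 * p ^ 4 + 4020 * n ^ 3 + 25236 * n ^ 2 * p + 52749 * n * p ^ 2 + 36714 * p ^ 3 +
  135532 / 5 * n ^ 2 + 578044 / 5 * n * p + 123071 * p ^ 2 + 472651 / 5 * n + 5124922 / 25 *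
  p + 84831657 / 625

theorem c53b_5_nn {n p : ℝ} (hn : 0 ≤ n) (hp : 0 ≤ p) : 0 ≤ c53b_5 n p := by
  unfold c53b_5; positivity

noncomputable def c53b_6 (n p : ℝ) : ℝ :=
  10 * n ^ 5 + 130 * n ^ 4 * p + 640 * n ^ 3 * p ^ 2 + 1520 * n ^ 2 * p ^ 3 + 1760 * n * p ^ 4
  + 800 * p ^ 5 + 368 * n ^ 4 + 3628 * n ^ 3 * p + 12936 * n ^ 2 * p ^ 2 + 19984 * n * p ^ 3
  + 11360 * p ^ 4 + 26132 / 5 * n ^ 3 + 186558 / 5 * n ^ 2 * p + 432873 / 5 * n * p ^ 2 +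
  65719 * p ^ 3 + 912958 / 25 * n ^ 2 + 4245436 / 25 * n * p + 969548 / 5 * p ^ 2 + 15896507
  / 125 * n + 7289541 / 25 * p + 22284348 / 125

theorem c53b_6_nn {n p : ℝ} (hn : 0 ≤ n) (hp : 0 ≤ p) : 0 ≤ c53b_6 n p := by
  unfold c53b_6; positivity

noncomputable def c53b_7 (n p : ℝ) : ℝ :=
  10 * n ^ 5 + 130 * n ^ 4 * p + 670 * n ^ 3 * p ^ 2 + 1700 * n ^ 2 * p ^ 3 + 2120 * n * p ^ 4
  + 1040 * p ^ 5 + 368 * n ^ 4 + 3844 * n ^ 3 * p + 14700 * n ^ 2 * p ^ 2 + 24438 * n * p ^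
  3 + 14940 * p ^ 4 + 27401 / 5 * n ^ 3 + 42204 * n ^ 2 * p + 526521 / 5 * n * p ^ 2 + 85587
  * p ^ 3 + 202388 / 5 * n ^ 2 + 5059967 / 25 * n * p + 1231338 / 5 * p ^ 2 + 18412319 / 125
  * n + 1790807 / 5 * p + 132224964 / 625

theorem c53b_7_nn {n p : ℝ} (hn : 0 ≤ n) (hp : 0 ≤ p) : 0 ≤ c53b_7 n p := by
  unfold c53b_7; positivity

noncomputable def c53b_8 (n p : ℝ) : ℝ :=
  10 * n ^ 5 + 130 * n ^ 4 * p + 670 * n ^ 3 * p ^ 2 + 1710 * n ^ 2 * p ^ 3 + 2160 * n * p ^ 4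
  + 1080 * p ^ 5 + 368 * n ^ 4 + 3844 * n ^ 3 * p + 14928 * n ^ 2 * p ^ 2 + 25454 * n * p ^
  3 + 16060 * p ^ 4 + 27401 / 5 * n ^ 3 + 215659 / 5 * n ^ 2 * p + 556933 / 5 * n * p ^ 2 +
  94241 * p ^ 3 + 1030984 / 25 * n ^ 2 + 5377371 / 25 * n * p + 274037 * p ^ 2 + 19402607 /
  125 * n + 9933253 / 25 * p + 144594633 / 625

theorem c53b_8_nn {n p : ℝ} (hn : 0 ≤ n) (hp : 0 ≤ p) : 0 ≤ c53b_8 n p := by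
  unfold c53b_8; positivity

noncomputable def c53b_9 (n p : ℝ) : ℝ :=
  10 * n ^ 5 + 130 * n ^ 4 * p + 670 * n ^ 3 * p ^ 2 + 1710 * n ^ 2 * p ^ 3 + 2160 * n * p ^ 4
  + 1080 * p ^ 5 + 368 * n ^ 4 + 3844 * n ^ 3 * p + 14928 * n ^ 2 * p ^ 2 + 25524 * n * p ^
  3 + 16200 * p ^ 4 + 27401 / 5 * n ^ 3 + 215659 / 5 * n ^ 2 * p + 561088 / 5 * n * p ^ 2 +
  96267 * p ^ 3 + 1030984 / 25 * n ^ 2 + 5435786 / 25 * n * p + 1415157 / 5 * p ^ 2 +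
  19577972 / 125 * n + 10307157 / 25 * p + 149154123 / 625

theorem c53b_9_nn {n p : ℝ} (hn : 0 ≤ n) (hp : 0 ≤ p) : 0 ≤ c53b_9 n p := by
  unfold c53b_9; positivity

noncomputable def c53b_10 (n p : ℝ) : ℝ :=
  10 * n ^ 5 + 130 * n ^ 4 * p + 670 * n ^ 3 * p ^ 2 + 1710 * n ^ 2 * p ^ 3 + 2160 * n * p ^ 4
  + 1080 * p ^ 5 + 368 * n ^ 4 + 3844 * n ^ 3 * p + 14928 * n ^ 2 * p ^ 2 + 25524 * n * p ^
  3 + 16200 * p ^ 4 + 27401 / 5 * n ^ 3 + 215659 / 5 * n ^ 2 * p + 561088 / 5 * n * p ^ 2 +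
  96432 * p ^ 3 + 1030984 / 25 * n ^ 2 + 5435786 / 25 * n * p + 1421592 / 5 * p ^ 2 +
  19577972 / 125 * n + 10374312 / 25 * p + 149894148 / 625

theorem c53b_10_nn {n p : ℝ} (hn : 0 ≤ n) (hp : 0 ≤ p) : 0 ≤ c53b_10 n p := by
  unfold c53b_10; positivity

theorem c53b_nn {n p t : ℝ} (hn : 0 ≤ n) (hp : 0 ≤ p) (h0 : 0 < t) (h1 : t ≤ 1) :
    0 ≤ (1 - t) * (c53b_0 n p * t ^ 0 + c53b_1 n p * t ^ 1 + c53b_2 n p * t ^ 2 + c53b_3 n p * t ^ 3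
      + c53b_4 n p * t ^ 4 + c53b_5 n p * t ^ 5 + c53b_6 n p * t ^ 6 + c53b_7 n p * t ^ 7 +
      c53b_8 n p * t ^ 8 + c53b_9 n p * t ^ 9) + c53b_10 n p * t ^ 10 := by
  have e0 := c53b_0_nn hn hp
  have e1 := c53b_1_nn hn hp
  have e2 := c53b_2_nn hn hp
  have e3 := c53b_3_nn hn hp
  have e4 := c53b_4_nn hn hp
  have e5 := c53b_5_nn hn hp
  have e6 := c53b_6_nn hn hp
  have e7 := c53b_7_nn hn hp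
  have e8 := c53b_8_nn hn hp
  have e9 := c53b_9_nn hn hp
  have e10 := c53b_10_nn hn hp
  have h2 : 0 ≤ 1 - t := by linarith
  exact add_nonneg (mul_nonneg h2 (by positivity)) (by positivity)

noncomputable def c53s (n t : ℝ) : ℝ :=
  4 * t ^ 5 * n ^ 5 + 108 * t ^ 5 * n ^ 4 + 1318 * t ^ 5 * n ^ 3 + 1070 * t ^ 5 * n ^ 2

theorem c53s_nn {n t : ℝ} (hn : 0 ≤ n) (h0 : 0 < t) : 0 ≤ c53s n t := by
  unfold c53s; positivity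

end Pool.Agent.KIQ.POLY

namespace Pool.Agent.KIQ

open POLY

theorem PC5_3 {a q A B t : ℝ} (hq : 8 / 5 ≤ q) (ha : 2 * q + 2 ≤ a)
    (hA : (3 * q - 2) * a ≤ (a ^ 2 - q ^ 2) * A) (hB : q * (3 * q - 2) ≤ (a ^ 2 - q ^ 2) * B)
    (h0 : 0 < t) (h1 : t ≤ 1) :
    16 * t ^ 4 * (pp 0 a q (iniC A B) 1 1).eval t + 12 * t ^ 5 * (B + A * t + t ^ 2) ≤
      (pp 0 a q (iniC A B) 5 3).eval t := by
  obtain ⟨p, hp, rfl⟩ : ∃ p : ℝ, 0 ≤ p ∧ q = 8 / 5 + p := ⟨q - 8 / 5, by linarith, by ring⟩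
  obtain ⟨n, hn, rfl⟩ : ∃ n : ℝ, 0 ≤ n ∧ a = 2 * (8 / 5 + p) + 2 + n :=
    ⟨a - (2 * (8 / 5 + p) + 2), by linarith, by ring⟩
  simp only [fc_5_3, fc_1_1, eval_PL, evL]
  have hc : 0 < (2 * (8 / 5 + p) + 2 + n) ^ 2 - (8 / 5 + p) ^ 2 := by nlinarith
  refine fin_aux hc (sub_nonneg.2 hA) (sub_nonneg.2 hB)
    (add_nonneg (c53e_nn hn hp h0 h1) (mul_nonneg (c53s_nn hn h0)
      (sq_nonneg ((2 * (8 / 5 + p) + 2 + n) * t - 3))))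
    (c53a_nn hn hp h0 h1) (c53b_nn hn hp h0 h1) ?_
  simp only [c53e_0, c53e_1, c53e_2, c53e_3, c53e_4, c53e_5, c53e_6, c53e_7, c53e_8, c53e_9, c53e_10,
    c53e_11, c53e_12, c53a_6, c53a_7, c53a_8, c53a_9, c53a_10, c53a_11, c53b_0, c53b_1,
    c53b_2, c53b_3, c53b_4, c53b_5, c53b_6, c53b_7, c53b_8, c53b_9, c53b_10, c53s, fc_5_3_0,
    fc_5_3_1, fc_5_3_2, fc_5_3_3, fc_5_3_4, fc_5_3_5, fc_5_3_6, fc_5_3_7, fc_5_3_8,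
    fc_5_3_9, fc_5_3_10, fc_5_3_11, fc_5_3_12, fc_1_1_0, fc_1_1_1, fc_1_1_2, fc_1_1_3,
    fc_1_1_4]
  ring

end Pool.Agent.KIQ

namespace Pool.Agent.KIQ.POLY

noncomputable def c54e_0 (n p : ℝ) : ℝ :=
  1800 * p ^ 2 + 4560 * p + 2688

theorem c54e_0_nn {n p : ℝ} (hn : 0 ≤ n) (hp : 0 ≤ p) : 0 ≤ c54e_0 n p := by
  unfold c54e_0; positivity

noncomputable def c54e_1 (n p : ℝ) : ℝ :=
  1800 * n * p ^ 2 + 3600 * p ^ 3 + 4560 * n * p + 20280 * p ^ 2 + 2688 * n + 33648 * p +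
  83328 / 5

theorem c54e_1_nn {n p : ℝ} (hn : 0 ≤ n) (hp : 0 ≤ p) : 0 ≤ c54e_1 n p := by
  unfold c54e_1; positivity

noncomputable def c54e_2 (n p : ℝ) : ℝ :=
  900 * n ^ 2 * p ^ 2 + 3600 * n * p ^ 3 + 3600 * p ^ 4 + 2280 * n ^ 2 * p + 20280 * n * p ^ 2
  + 32160 * p ^ 3 + 1344 * n ^ 2 + 33648 * n * p + 98952 * p ^ 2 + 83328 / 5 * n + 123600 *
  p + 1314432 / 25

theorem c54e_2_nn {n p : ℝ} (hn : 0 ≤ n) (hp : 0 ≤ p) : 0 ≤ c54e_2 n p := by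
  unfold c54e_2; positivity

noncomputable def c54e_3 (n p : ℝ) : ℝ :=
  300 * n ^ 3 * p ^ 2 + 1800 * n ^ 2 * p ^ 3 + 3600 * n * p ^ 4 + 2400 * p ^ 5 + 760 * n ^ 3 *
  p + 10140 * n ^ 2 * p ^ 2 + 32160 * n * p ^ 3 + 29840 * p ^ 4 + 448 * n ^ 3 + 16824 * n ^
  2 * p + 99552 * n * p ^ 2 + 139856 * p ^ 3 + 41664 / 5 * n ^ 2 + 125120 * n * p + 1536152
  / 5 * p ^ 2 + 1336832 / 25 * n + 7844464 / 25 * p + 14749056 / 125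

theorem c54e_3_nn {n p : ℝ} (hn : 0 ≤ n) (hp : 0 ≤ p) : 0 ≤ c54e_3 n p := by
  unfold c54e_3; positivity

noncomputable def c54e_4 (n p : ℝ) : ℝ :=
  75 * n ^ 4 * p ^ 2 + 600 * n ^ 3 * p ^ 3 + 1800 * n ^ 2 * p ^ 4 + 2400 * n * p ^ 5 + 1200 *
  p ^ 6 + 190 * n ^ 4 * p + 3380 * n ^ 3 * p ^ 2 + 16080 * n ^ 2 * p ^ 3 + 29840 * n * p ^ 4
  + 19360 * p ^ 5 + 112 * n ^ 4 + 5608 * n ^ 3 * p + 50076 * n ^ 2 * p ^ 2 + 141056 * n * p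
  ^ 3 + 125015 * p ^ 4 + 13888 / 5 * n ^ 3 + 63320 * n ^ 2 * p + 1569952 / 5 * n * p ^ 2 +
  411714 * p ^ 3 + 679616 / 25 * n ^ 2 + 8124864 / 25 * n * p + 3621713 / 5 * p ^ 2 +
  15443456 / 125 * n + 79907194 / 125 * p + 136530576 / 625

theorem c54e_4_nn {n p : ℝ} (hn : 0 ≤ n) (hp : 0 ≤ p) : 0 ≤ c54e_4 n p := by
  unfold c54e_4; positivity

noncomputable def c54e_5 (n p : ℝ) : ℝ :=
  15 * n ^ 5 * p ^ 2 + 150 * n ^ 4 * p ^ 3 + 600 * n ^ 3 * p ^ 4 + 1200 * n ^ 2 * p ^ 5 + 1200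
  * n * p ^ 6 + 480 * p ^ 7 + 38 * n ^ 5 * p + 845 * n ^ 4 * p ^ 2 + 5360 * n ^ 3 * p ^ 3 +
  14920 * n ^ 2 * p ^ 4 + 19360 * n * p ^ 5 + 9616 * p ^ 6 + 22 / 5 * n ^ 5 + 1402 * n ^ 4 *
  p + 16792 * n ^ 3 * p ^ 2 + 71128 * n ^ 2 * p ^ 3 + 126215 * n * p ^ 4 + 402694 / 5 * p ^
  5 + 1042 / 5 * n ^ 4 + 21360 * n ^ 3 * p + 801876 / 5 * n ^ 2 * p ^ 2 + 422434 * n * p ^ 3
  + 1819869 / 5 * p ^ 4 + 72772 / 25 * n ^ 3 + 4202632 / 25 * n ^ 2 * p + 3788433 / 5 * n *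
  p ^ 2 + 23816032 / 25 * p ^ 3 + 8068928 / 125 * n ^ 2 + 85171194 / 125 * n * p + 895168763
  / 625 * p ^ 2 + 147820176 / 625 * n + 3541485438 / 3125 * p + 5615234352 / 15625

theorem c54e_5_nn {n p : ℝ} (hn : 0 ≤ n) (hp : 0 ≤ p) : 0 ≤ c54e_5 n p := by
  unfold c54e_5; positivity

noncomputable def c54e_6 (n p : ℝ) : ℝ :=
  15 * n ^ 6 * p + 195 * n ^ 5 * p ^ 2 + 1110 * n ^ 4 * p ^ 3 + 3480 * n ^ 3 * p ^ 4 + 6240 *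
  n ^ 2 * p ^ 5 + 6000 * n * p ^ 6 + 2400 * p ^ 7 + n ^ 6 + 398 * n ^ 5 * p + 5063 * n ^ 4 *
  p ^ 2 + 25152 * n ^ 3 * p ^ 3 + 61960 * n ^ 2 * p ^ 4 + 76000 * n * p ^ 5 + 37040 * p ^ 6
  + 238 / 5 * n ^ 5 + 24624 / 5 * n ^ 4 * p + 288184 / 5 * n ^ 3 * p ^ 2 + 229525 * n ^ 2 *
  p ^ 3 + 389115 * n * p ^ 4 + 242560 * p ^ 5 + 50674 / 25 * n ^ 4 + 1101168 / 25 * n ^ 3 *
  p + 1881099 / 5 * n ^ 2 * p ^ 2 + 1018466 * n * p ^ 3 + 872413 * p ^ 4 + 255076 / 125 * n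
  ^ 3 + 5823917 / 25 * n ^ 2 * p + 7026257 / 5 * n * p ^ 2 + 9268408 / 5 * p ^ 3 + 4779679 /
  625 * n ^ 2 + 23149378 / 25 * n * p + 288665343 / 125 * p ^ 2 + 25465468 / 125 * n +
  965202924 / 625 * p + 52776204 / 125

theorem c54e_6_nn {n p : ℝ} (hn : 0 ≤ n) (hp : 0 ≤ p) : 0 ≤ c54e_6 n p := by
  unfold c54e_6; positivity

noncomputable def c54e_7 (n p : ℝ) : ℝ :=
  3 * n ^ 7 + 77 * n ^ 6 * p + 662 * n ^ 5 * p ^ 2 + 3060 * n ^ 4 * p ^ 3 + 8570 * n ^ 3 * p ^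
  4 + 14540 * n ^ 2 * p ^ 5 + 13720 * n * p ^ 6 + 5520 * p ^ 7 + 541 / 5 * n ^ 6 + 12302 / 5
  * n ^ 5 * p + 18557 * n ^ 4 * p ^ 2 + 71818 * n ^ 3 * p ^ 3 + 156240 * n ^ 2 * p ^ 4 +
  181132 * n * p ^ 5 + 86744 * p ^ 6 + 31698 / 25 * n ^ 5 + 149488 / 5 * n ^ 4 * p + 1002706
  / 5 * n ^ 3 * p ^ 2 + 623517 * n ^ 2 * p ^ 3 + 944698 * n * p ^ 4 + 2809486 / 5 * p ^ 5 +
  10010 * n ^ 4 + 5037887 / 25 * n ^ 3 * p + 5507993 / 5 * n ^ 2 * p ^ 2 + 12196952 / 5 * n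
  * p ^ 3 + 9643651 / 5 * p ^ 4 + 4069559 / 125 * n ^ 3 + 3718797 / 5 * n ^ 2 * p + 78327712
  / 25 * n * p ^ 2 + 93180698 / 25 * p ^ 3 + 21726089 / 625 * n ^ 2 + 1022278302 / 625 * n *
  p + 2449149737 / 625 * p ^ 2 + 191900896 / 3125 * n + 5952041692 / 3125 * p + 3618751188 /
  15625

theorem c54e_7_nn {n p : ℝ} (hn : 0 ≤ n) (hp : 0 ≤ p) : 0 ≤ c54e_7 n p := by
  unfold c54e_7; positivity

noncomputable def c54e_8 (n p : ℝ) : ℝ :=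
  3 * n ^ 7 + 97 * n ^ 6 * p + 902 * n ^ 5 * p ^ 2 + 4330 * n ^ 4 * p ^ 3 + 12330 * n ^ 3 * p
  ^ 4 + 21080 * n ^ 2 * p ^ 5 + 20040 * n * p ^ 6 + 8160 * p ^ 7 + 1026 / 5 * n ^ 6 + 21242
  / 5 * n ^ 5 * p + 31188 * n ^ 4 * p ^ 2 + 118322 * n ^ 3 * p ^ 3 + 252860 * n ^ 2 * p ^ 4
  + 289964 * n * p ^ 5 + 138857 * p ^ 6 + 107358 / 25 * n ^ 5 + 341941 / 5 * n ^ 4 * p +
  1996434 / 5 * n ^ 3 * p ^ 2 + 1150171 * n ^ 2 * p ^ 3 + 1666146 * n * p ^ 4 + 4851028 / 5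
  * p ^ 5 + 1158288 / 25 * n ^ 4 + 13767863 / 25 * n ^ 3 * p + 2425798 * n ^ 2 * p ^ 2 +
  23970564 / 5 * n * p ^ 3 + 17872868 / 5 * p ^ 4 + 30310631 / 125 * n ^ 3 + 56322353 / 25 *
  n ^ 2 * p + 176392804 / 25 * n * p ^ 2 + 184022874 / 25 * p ^ 3 + 388909158 / 625 * n ^ 2
  + 2891991314 / 625 * n * p + 5077324371 / 625 * p ^ 2 + 2247386692 / 3125 * n +
  12304791026 / 3125 * p + 4372922424 / 15625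

theorem c54e_8_nn {n p : ℝ} (hn : 0 ≤ n) (hp : 0 ≤ p) : 0 ≤ c54e_8 n p := by
  unfold c54e_8; positivity

noncomputable def c54e_9 (n p : ℝ) : ℝ :=
  3 * n ^ 7 + 97 * n ^ 6 * p + 932 * n ^ 5 * p ^ 2 + 4630 * n ^ 4 * p ^ 3 + 13560 * n ^ 3 * p
  ^ 4 + 23660 * n ^ 2 * p ^ 5 + 22815 * n * p ^ 6 + 9390 * p ^ 7 + 1026 / 5 * n ^ 6 + 23022
  / 5 * n ^ 5 * p + 35528 * n ^ 4 * p ^ 2 + 139404 * n ^ 3 * p ^ 3 + 304140 * n ^ 2 * p ^ 4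
  + 353064 * n * p ^ 5 + 170623 * p ^ 6 + 130303 / 25 * n ^ 5 + 434111 / 5 * n ^ 4 * p +
  2601563 / 5 * n ^ 3 * p ^ 2 + 1516725 * n ^ 2 * p ^ 3 + 2204676 * n * p ^ 4 + 6433072 / 5
  * p ^ 5 + 1754858 / 25 * n ^ 4 + 20861866 / 25 * n ^ 3 * p + 18157166 / 5 * n ^ 2 * p ^ 2
  + 35244414 / 5 * n * p ^ 3 + 25919212 / 5 * p ^ 4 + 59527017 / 125 * n ^ 3 + 102568303 /
  25 * n ^ 2 * p + 299723619 / 25 * n * p ^ 2 + 297800956 / 25 * p ^ 3 + 1054661986 / 625 *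
  n ^ 2 + 6235218404 / 625 * n * p + 9537686709 / 625 * p ^ 2 + 9172100092 / 3125 * n +
  29912781414 / 3125 * p + 29779221576 / 15625

theorem c54e_9_nn {n p : ℝ} (hn : 0 ≤ n) (hp : 0 ≤ p) : 0 ≤ c54e_9 n p := by
  unfold c54e_9; positivity

noncomputable def c54e_10 (n p : ℝ) : ℝ :=
  3 * n ^ 7 + 97 * n ^ 6 * p + 932 * n ^ 5 * p ^ 2 + 4650 * n ^ 4 * p ^ 3 + 13720 * n ^ 3 * p
  ^ 4 + 24135 * n ^ 2 * p ^ 5 + 23435 * n * p ^ 6 + 9690 * p ^ 7 + 1026 / 5 * n ^ 6 + 23022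
  / 5 * n ^ 5 * p + 35984 * n ^ 4 * p ^ 2 + 143468 * n ^ 3 * p ^ 3 + 317635 * n ^ 2 * p ^ 4
  + 372816 * n * p ^ 5 + 181453 * p ^ 6 + 130303 / 25 * n ^ 5 + 448339 / 5 * n ^ 4 * p +
  2762811 / 5 * n ^ 3 * p ^ 2 + 1646153 * n ^ 2 * p ^ 3 + 2427024 * n * p ^ 4 + 7139472 / 5
  * p ^ 5 + 1882796 / 25 * n ^ 4 + 23365082 / 25 * n ^ 3 * p + 20921352 / 5 * n ^ 2 * p ^ 2
  + 41219446 / 5 * n * p ^ 3 + 30500642 / 5 * p ^ 4 + 72832569 / 125 * n ^ 3 + 25937882 / 5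
  * n ^ 2 * p + 382921591 / 25 * n * p ^ 2 + 379886286 / 25 * p ^ 3 + 1554530491 / 625 * n ^
  2 + 9134277396 / 625 * n * p + 13667941189 / 625 * p ^ 2 + 17176156048 / 3125 * n +
  51746777904 / 3125 * p + 76836352476 / 15625

theorem c54e_10_nn {n p : ℝ} (hn : 0 ≤ n) (hp : 0 ≤ p) : 0 ≤ c54e_10 n p := by
  unfold c54e_10; positivity

noncomputable def c54e_11 (n p : ℝ) : ℝ :=
  3 * n ^ 7 + 97 * n ^ 6 * p + 932 * n ^ 5 * p ^ 2 + 4650 * n ^ 4 * p ^ 3 + 13725 * n ^ 3 * p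
  ^ 4 + 24165 * n ^ 2 * p ^ 5 + 23490 * n * p ^ 6 + 9720 * p ^ 7 + 1026 / 5 * n ^ 6 + 23022
  / 5 * n ^ 5 * p + 35984 * n ^ 4 * p ^ 2 + 143700 * n ^ 3 * p ^ 3 + 319105 * n ^ 2 * p ^ 4
  + 375754 * n * p ^ 5 + 183279 * p ^ 6 + 130303 / 25 * n ^ 5 + 448339 / 5 * n ^ 4 * p +
  555289 * n ^ 3 * p ^ 2 + 1666133 * n ^ 2 * p ^ 3 + 2472886 * n * p ^ 4 + 7303456 / 5 * p ^
  5 + 1882796 / 25 * n ^ 4 + 4731746 / 5 * n ^ 3 * p + 4297284 * n ^ 2 * p ^ 2 + 42824094 /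
  5 * n * p ^ 3 + 31877726 / 5 * p ^ 4 + 14976648 / 25 * n ^ 3 + 136731124 / 25 * n ^ 2 * p
  + 411087104 / 25 * n * p ^ 2 + 410977888 / 25 * p ^ 3 + 1714482829 / 625 * n ^ 2 +
  10347400684 / 625 * n * p + 15614750807 / 625 * p ^ 2 + 21268024612 / 3125 * n +
  64514362872 / 3125 * p + 111139748148 / 15625

theorem c54e_11_nn {n p : ℝ} (hn : 0 ≤ n) (hp : 0 ≤ p) : 0 ≤ c54e_11 n p := by
  unfold c54e_11; positivity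

noncomputable def c54e_12 (n p : ℝ) : ℝ :=
  3 * n ^ 7 + 97 * n ^ 6 * p + 932 * n ^ 5 * p ^ 2 + 4650 * n ^ 4 * p ^ 3 + 13725 * n ^ 3 * p
  ^ 4 + 24165 * n ^ 2 * p ^ 5 + 23490 * n * p ^ 6 + 9720 * p ^ 7 + 1026 / 5 * n ^ 6 + 23022
  / 5 * n ^ 5 * p + 35984 * n ^ 4 * p ^ 2 + 143700 * n ^ 3 * p ^ 3 + 319140 * n ^ 2 * p ^ 4
  + 375894 * n * p ^ 5 + 183384 * p ^ 6 + 130303 / 25 * n ^ 5 + 448339 / 5 * n ^ 4 * p +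
  555289 * n ^ 3 * p ^ 2 + 1666917 * n ^ 2 * p ^ 3 + 2476386 * n * p ^ 4 + 7318296 / 5 * p ^
  5 + 1882796 / 25 * n ^ 4 + 4731746 / 5 * n ^ 3 * p + 21517598 / 5 * n ^ 2 * p ^ 2 +
  42989574 / 5 * n * p ^ 3 + 32044536 / 5 * p ^ 4 + 14976648 / 25 * n ^ 3 + 27449556 / 5 * n
  ^ 2 * p + 414774984 / 25 * n * p ^ 2 + 415751328 / 25 * p ^ 3 + 1729332664 / 625 * n ^ 2 +
  10541130584 / 625 * n * p + 15982033632 / 625 * p ^ 2 + 22040216032 / 3125 * n +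
  67402115712 / 3125 * p + 120227847168 / 15625

theorem c54e_12_nn {n p : ℝ} (hn : 0 ≤ n) (hp : 0 ≤ p) : 0 ≤ c54e_12 n p := by
  unfold c54e_12; positivity

theorem c54e_nn {n p t : ℝ} (hn : 0 ≤ n) (hp : 0 ≤ p) (h0 : 0 < t) (h1 : t ≤ 1) :
    0 ≤ (1 - t) * (c54e_0 n p * t ^ 0 + c54e_1 n p * t ^ 1 + c54e_2 n p * t ^ 2 + c54e_3 n p * t ^ 3
      + c54e_4 n p * t ^ 4 + c54e_5 n p * t ^ 5 + c54e_6 n p * t ^ 6 + c54e_7 n p * t ^ 7 +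
      c54e_8 n p * t ^ 8 + c54e_9 n p * t ^ 9 + c54e_10 n p * t ^ 10 + c54e_11 n p * t ^ 11)
      + c54e_12 n p * t ^ 12 := by
  have e0 := c54e_0_nn hn hp
  have e1 := c54e_1_nn hn hp
  have e2 := c54e_2_nn hn hp
  have e3 := c54e_3_nn hn hp
  have e4 := c54e_4_nn hn hp
  have e5 := c54e_5_nn hn hp
  have e6 := c54e_6_nn hn hp
  have e7 := c54e_7_nn hn hp
  have e8 := c54e_8_nn hn hp
  have e9 := c54e_9_nn hn hp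
  have e10 := c54e_10_nn hn hp
  have e11 := c54e_11_nn hn hp
  have e12 := c54e_12_nn hn hp
  have h2 : 0 ≤ 1 - t := by linarith
  exact add_nonneg (mul_nonneg h2 (by positivity)) (by positivity)

noncomputable def c54a_6 (n p : ℝ) : ℝ :=
  5 * n ^ 5 + 50 * n ^ 4 * p + 200 * n ^ 3 * p ^ 2 + 400 * n ^ 2 * p ^ 3 + 400 * n * p ^ 4 +
  160 * p ^ 5 + 130 * n ^ 4 + 1000 * n ^ 3 * p + 2880 * n ^ 2 * p ^ 2 + 3680 * n * p ^ 3 +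
  1760 * p ^ 4 + 1248 * n ^ 3 + 6864 * n ^ 2 * p + 12525 * n * p ^ 2 + 7578 * p ^ 3 + 5408 *
  n ^ 2 + 93456 / 5 * n * p + 79922 / 5 * p ^ 2 + 256219 / 25 * n + 16454 * p + 4062006 /
  625

theorem c54a_6_nn {n p : ℝ} (hn : 0 ≤ n) (hp : 0 ≤ p) : 0 ≤ c54a_6 n p := by
  unfold c54a_6; positivity

noncomputable def c54a_7 (n p : ℝ) : ℝ :=
  5 * n ^ 5 + 70 * n ^ 4 * p + 360 * n ^ 3 * p ^ 2 + 880 * n ^ 2 * p ^ 3 + 1040 * n * p ^ 4 +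
  480 * p ^ 5 + 202 * n ^ 4 + 1992 * n ^ 3 * p + 7014 * n ^ 2 * p ^ 2 + 10616 * n * p ^ 3 +
  5880 * p ^ 4 + 13728 / 5 * n ^ 3 + 91982 / 5 * n ^ 2 * p + 198737 / 5 * n * p ^ 2 + 27904
  * p ^ 3 + 399947 / 25 * n ^ 2 + 1626004 / 25 * n * p + 321666 / 5 * p ^ 2 + 4924163 / 125
  * n + 360814 / 5 * p + 19556418 / 625

theorem c54a_7_nn {n p : ℝ} (hn : 0 ≤ n) (hp : 0 ≤ p) : 0 ≤ c54a_7 n p := by
  unfold c54a_7; positivity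

noncomputable def c54a_8 (n p : ℝ) : ℝ :=
  5 * n ^ 5 + 70 * n ^ 4 * p + 390 * n ^ 3 * p ^ 2 + 1060 * n ^ 2 * p ^ 3 + 1400 * n * p ^ 4 +
  720 * p ^ 5 + 202 * n ^ 4 + 2268 * n ^ 3 * p + 9138 * n ^ 2 * p ^ 2 + 15740 * n * p ^ 3 +
  9840 * p ^ 4 + 16377 / 5 * n ^ 3 + 129404 / 5 * n ^ 2 * p + 64783 * n * p ^ 2 + 51964 * p
  ^ 3 + 606569 / 25 * n ^ 2 + 116350 * n * p + 133026 * p ^ 2 + 1941913 / 25 * n + 4150382 /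
  25 * p + 50859222 / 625

theorem c54a_8_nn {n p : ℝ} (hn : 0 ≤ n) (hp : 0 ≤ p) : 0 ≤ c54a_8 n p := by
  unfold c54a_8; positivity

noncomputable def c54a_9 (n p : ℝ) : ℝ :=
  5 * n ^ 5 + 70 * n ^ 4 * p + 390 * n ^ 3 * p ^ 2 + 1080 * n ^ 2 * p ^ 3 + 1480 * n * p ^ 4 +
  800 * p ^ 5 + 202 * n ^ 4 + 2268 * n ^ 3 * p + 9504 * n ^ 2 * p ^ 2 + 17412 * n * p ^ 3 +
  11710 * p ^ 4 + 16377 / 5 * n ^ 3 + 138292 / 5 * n ^ 2 * p + 378499 / 5 * n * p ^ 2 +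
  66874 * p ^ 3 + 665672 / 25 * n ^ 2 + 3607338 / 25 * n * p + 931738 / 5 * p ^ 2 + 12782921
  / 125 * n + 6358806 / 25 * p + 17170698 / 125

theorem c54a_9_nn {n p : ℝ} (hn : 0 ≤ n) (hp : 0 ≤ p) : 0 ≤ c54a_9 n p := by
  unfold c54a_9; positivity

noncomputable def c54a_10 (n p : ℝ) : ℝ :=
  5 * n ^ 5 + 70 * n ^ 4 * p + 390 * n ^ 3 * p ^ 2 + 1080 * n ^ 2 * p ^ 3 + 1485 * n * p ^ 4 +
  810 * p ^ 5 + 202 * n ^ 4 + 2268 * n ^ 3 * p + 9504 * n ^ 2 * p ^ 2 + 17604 * n * p ^ 3 +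
  12120 * p ^ 4 + 16377 / 5 * n ^ 3 + 138292 / 5 * n ^ 2 * p + 387573 / 5 * n * p ^ 2 +
  71502 * p ^ 3 + 665672 / 25 * n ^ 2 + 3758706 / 25 * n * p + 207894 * p ^ 2 + 13554212 /
  125 * n + 7454436 / 25 * p + 105907056 / 625

theorem c54a_10_nn {n p : ℝ} (hn : 0 ≤ n) (hp : 0 ≤ p) : 0 ≤ c54a_10 n p := by
  unfold c54a_10; positivity

noncomputable def c54a_11 (n p : ℝ) : ℝ :=
  5 * n ^ 5 + 70 * n ^ 4 * p + 390 * n ^ 3 * p ^ 2 + 1080 * n ^ 2 * p ^ 3 + 1485 * n * p ^ 4 +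
  810 * p ^ 5 + 202 * n ^ 4 + 2268 * n ^ 3 * p + 9504 * n ^ 2 * p ^ 2 + 17604 * n * p ^ 3 +
  12150 * p ^ 4 + 16377 / 5 * n ^ 3 + 138292 / 5 * n ^ 2 * p + 387573 / 5 * n * p ^ 2 +
  72054 * p ^ 3 + 665672 / 25 * n ^ 2 + 3758706 / 25 * n * p + 1057014 / 5 * p ^ 2 +
  13554212 / 125 * n + 7677444 / 25 * p + 110503536 / 625

theorem c54a_11_nn {n p : ℝ} (hn : 0 ≤ n) (hp : 0 ≤ p) : 0 ≤ c54a_11 n p := by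
  unfold c54a_11; positivity

theorem c54a_nn {n p t : ℝ} (hn : 0 ≤ n) (hp : 0 ≤ p) (h0 : 0 < t) (h1 : t ≤ 1) :
    0 ≤ (1 - t) * (c54a_6 n p * t ^ 6 + c54a_7 n p * t ^ 7 + c54a_8 n p * t ^ 8 + c54a_9 n p * t ^ 9
      + c54a_10 n p * t ^ 10) + c54a_11 n p * t ^ 11 := by
  have e6 := c54a_6_nn hn hp
  have e7 := c54a_7_nn hn hp
  have e8 := c54a_8_nn hn hp
  have e9 := c54a_9_nn hn hp
  have e10 := c54a_10_nn hn hp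
  have e11 := c54a_11_nn hn hp
  have h2 : 0 ≤ 1 - t := by linarith
  exact add_nonneg (mul_nonneg h2 (by positivity)) (by positivity)

noncomputable def c54b_0 (n p : ℝ) : ℝ :=
  600

theorem c54b_0_nn {n p : ℝ} (hn : 0 ≤ n) (hp : 0 ≤ p) : 0 ≤ c54b_0 n p := by
  unfold c54b_0; positivity

noncomputable def c54b_1 (n p : ℝ) : ℝ :=
  600 * n + 1200 * p + 3720

theorem c54b_1_nn {n p : ℝ} (hn : 0 ≤ n) (hp : 0 ≤ p) : 0 ≤ c54b_1 n p := by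
  unfold c54b_1; positivity

noncomputable def c54b_2 (n p : ℝ) : ℝ :=
  300 * n ^ 2 + 1200 * n * p + 1200 * p ^ 2 + 3720 * n + 7680 * p + 11736

theorem c54b_2_nn {n p : ℝ} (hn : 0 ≤ n) (hp : 0 ≤ p) : 0 ≤ c54b_2 n p := by
  unfold c54b_2; positivity

noncomputable def c54b_3 (n p : ℝ) : ℝ :=
  100 * n ^ 3 + 600 * n ^ 2 * p + 1200 * n * p ^ 2 + 800 * p ^ 3 + 1860 * n ^ 2 + 7680 * n * p
  + 7920 * p ^ 2 + 11936 * n + 25360 * p + 131688 / 5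

theorem c54b_3_nn {n p : ℝ} (hn : 0 ≤ n) (hp : 0 ≤ p) : 0 ≤ c54b_3 n p := by
  unfold c54b_3; positivity

noncomputable def c54b_4 (n p : ℝ) : ℝ :=
  25 * n ^ 4 + 200 * n ^ 3 * p + 600 * n ^ 2 * p ^ 2 + 800 * n * p ^ 3 + 400 * p ^ 4 + 620 * n
  ^ 3 + 3840 * n ^ 2 * p + 7920 * n * p ^ 2 + 5440 * p ^ 3 + 6068 * n ^ 2 + 25760 * n * p +
  27293 * p ^ 2 + 137888 / 5 * n + 59972 * p + 1219023 / 25

theorem c54b_4_nn {n p : ℝ} (hn : 0 ≤ n) (hp : 0 ≤ p) : 0 ≤ c54b_4 n p := by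
  unfold c54b_4; positivity

noncomputable def c54b_5 (n p : ℝ) : ℝ :=
  5 * n ^ 5 + 50 * n ^ 4 * p + 200 * n ^ 3 * p ^ 2 + 400 * n ^ 2 * p ^ 3 + 400 * n * p ^ 4 +
  160 * p ^ 5 + 155 * n ^ 4 + 1280 * n ^ 3 * p + 3960 * n ^ 2 * p ^ 2 + 5440 * n * p ^ 3 +
  2800 * p ^ 4 + 2056 * n ^ 3 + 13080 * n ^ 2 * p + 27693 * n * p ^ 2 + 19514 * p ^ 3 +
  72044 / 5 * n ^ 2 + 62532 * n * p + 338539 / 5 * p ^ 2 + 1319823 / 25 * n + 2921994 / 25 *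
  p + 50136021 / 625

theorem c54b_5_nn {n p : ℝ} (hn : 0 ≤ n) (hp : 0 ≤ p) : 0 ≤ c54b_5 n p := by
  unfold c54b_5; positivity

noncomputable def c54b_6 (n p : ℝ) : ℝ :=
  5 * n ^ 5 + 70 * n ^ 4 * p + 360 * n ^ 3 * p ^ 2 + 880 * n ^ 2 * p ^ 3 + 1040 * n * p ^ 4 +
  480 * p ^ 5 + 202 * n ^ 4 + 2072 * n ^ 3 * p + 7584 * n ^ 2 * p ^ 2 + 11936 * n * p ^ 3 +
  6880 * p ^ 4 + 15168 / 5 * n ^ 3 + 111002 / 5 * n ^ 2 * p + 262217 / 5 * n * p ^ 2 + 40364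
  * p ^ 3 + 552002 / 25 * n ^ 2 + 2614244 / 25 * n * p + 605956 / 5 * p ^ 2 + 9963203 / 125
  * n + 929048 / 5 * p + 72450768 / 625

theorem c54b_6_nn {n p : ℝ} (hn : 0 ≤ n) (hp : 0 ≤ p) : 0 ≤ c54b_6 n p := by
  unfold c54b_6; positivity

noncomputable def c54b_7 (n p : ℝ) : ℝ :=
  5 * n ^ 5 + 70 * n ^ 4 * p + 390 * n ^ 3 * p ^ 2 + 1060 * n ^ 2 * p ^ 3 + 1400 * n * p ^ 4 +
  720 * p ^ 5 + 202 * n ^ 4 + 2268 * n ^ 3 * p + 9228 * n ^ 2 * p ^ 2 + 16140 * n * p ^ 3 +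
  10280 * p ^ 4 + 16377 / 5 * n ^ 3 + 133544 / 5 * n ^ 2 * p + 69763 * n * p ^ 2 + 58800 * p
  ^ 3 + 646304 / 25 * n ^ 2 + 134874 * n * p + 848252 / 5 * p ^ 2 + 2473363 / 25 * n +
  6206796 / 25 * p + 92445912 / 625

theorem c54b_7_nn {n p : ℝ} (hn : 0 ≤ n) (hp : 0 ≤ p) : 0 ≤ c54b_7 n p := by
  unfold c54b_7; positivity

noncomputable def c54b_8 (n p : ℝ) : ℝ :=
  5 * n ^ 5 + 70 * n ^ 4 * p + 390 * n ^ 3 * p ^ 2 + 1080 * n ^ 2 * p ^ 3 + 1480 * n * p ^ 4 +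
  800 * p ^ 5 + 202 * n ^ 4 + 2268 * n ^ 3 * p + 9504 * n ^ 2 * p ^ 2 + 17452 * n * p ^ 3 +
  11795 * p ^ 4 + 16377 / 5 * n ^ 3 + 138292 / 5 * n ^ 2 * p + 382159 / 5 * n * p ^ 2 +
  68738 * p ^ 3 + 665672 / 25 * n ^ 2 + 3696218 / 25 * n * p + 995396 / 5 * p ^ 2 + 13373951
  / 125 * n + 7208762 / 25 * p + 4203069 / 25

theorem c54b_8_nn {n p : ℝ} (hn : 0 ≤ n) (hp : 0 ≤ p) : 0 ≤ c54b_8 n p := by
  unfold c54b_8; positivity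

noncomputable def c54b_9 (n p : ℝ) : ℝ :=
  5 * n ^ 5 + 70 * n ^ 4 * p + 390 * n ^ 3 * p ^ 2 + 1080 * n ^ 2 * p ^ 3 + 1485 * n * p ^ 4 +
  810 * p ^ 5 + 202 * n ^ 4 + 2268 * n ^ 3 * p + 9504 * n ^ 2 * p ^ 2 + 17604 * n * p ^ 3 +
  12125 * p ^ 4 + 16377 / 5 * n ^ 3 + 138292 / 5 * n ^ 2 * p + 387573 / 5 * n * p ^ 2 +
  71694 * p ^ 3 + 665672 / 25 * n ^ 2 + 3758706 / 25 * n * p + 1048544 / 5 * p ^ 2 +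
  13554212 / 125 * n + 7605804 / 25 * p + 109763511 / 625

theorem c54b_9_nn {n p : ℝ} (hn : 0 ≤ n) (hp : 0 ≤ p) : 0 ≤ c54b_9 n p := by
  unfold c54b_9; positivity

noncomputable def c54b_10 (n p : ℝ) : ℝ :=
  5 * n ^ 5 + 70 * n ^ 4 * p + 390 * n ^ 3 * p ^ 2 + 1080 * n ^ 2 * p ^ 3 + 1485 * n * p ^ 4 +
  810 * p ^ 5 + 202 * n ^ 4 + 2268 * n ^ 3 * p + 9504 * n ^ 2 * p ^ 2 + 17604 * n * p ^ 3 +
  12150 * p ^ 4 + 16377 / 5 * n ^ 3 + 138292 / 5 * n ^ 2 * p + 387573 / 5 * n * p ^ 2 +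
  72054 * p ^ 3 + 665672 / 25 * n ^ 2 + 3758706 / 25 * n * p + 1057014 / 5 * p ^ 2 +
  13554212 / 125 * n + 7677444 / 25 * p + 110503536 / 625

theorem c54b_10_nn {n p : ℝ} (hn : 0 ≤ n) (hp : 0 ≤ p) : 0 ≤ c54b_10 n p := by
  unfold c54b_10; positivity

theorem c54b_nn {n p t : ℝ} (hn : 0 ≤ n) (hp : 0 ≤ p) (h0 : 0 < t) (h1 : t ≤ 1) :
    0 ≤ (1 - t) * (c54b_0 n p * t ^ 0 + c54b_1 n p * t ^ 1 + c54b_2 n p * t ^ 2 + c54b_3 n p * t ^ 3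
      + c54b_4 n p * t ^ 4 + c54b_5 n p * t ^ 5 + c54b_6 n p * t ^ 6 + c54b_7 n p * t ^ 7 +
      c54b_8 n p * t ^ 8 + c54b_9 n p * t ^ 9) + c54b_10 n p * t ^ 10 := by
  have e0 := c54b_0_nn hn hp
  have e1 := c54b_1_nn hn hp
  have e2 := c54b_2_nn hn hp
  have e3 := c54b_3_nn hn hp
  have e4 := c54b_4_nn hn hp
  have e5 := c54b_5_nn hn hp
  have e6 := c54b_6_nn hn hp
  have e7 := c54b_7_nn hn hp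
  have e8 := c54b_8_nn hn hp
  have e9 := c54b_9_nn hn hp
  have e10 := c54b_10_nn hn hp
  have h2 : 0 ≤ 1 - t := by linarith
  exact add_nonneg (mul_nonneg h2 (by positivity)) (by positivity)

noncomputable def c54s (n t : ℝ) : ℝ :=
  2 * t ^ 5 * n ^ 5 + 54 * t ^ 5 * n ^ 4 + 700 * t ^ 5 * n ^ 3

theorem c54s_nn {n t : ℝ} (hn : 0 ≤ n) (h0 : 0 < t) : 0 ≤ c54s n t := by
  unfold c54s; positivity

end Pool.Agent.KIQ.POLY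

namespace Pool.Agent.KIQ

open POLY

theorem PC5_4 {a q A B t : ℝ} (hq : 8 / 5 ≤ q) (ha : 2 * q + 2 ≤ a)
    (hA : (3 * q - 2) * a ≤ (a ^ 2 - q ^ 2) * A) (hB : q * (3 * q - 2) ≤ (a ^ 2 - q ^ 2) * B)
    (h0 : 0 < t) (h1 : t ≤ 1) :
    0 ≤
      (pp 0 a q (iniC A B) 5 4).eval t := by
  obtain ⟨p, hp, rfl⟩ : ∃ p : ℝ, 0 ≤ p ∧ q = 8 / 5 + p := ⟨q - 8 / 5, by linarith, by ring⟩
  obtain ⟨n, hn, rfl⟩ : ∃ n : ℝ, 0 ≤ n ∧ a = 2 * (8 / 5 + p) + 2 + n :=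
    ⟨a - (2 * (8 / 5 + p) + 2), by linarith, by ring⟩
  simp only [fc_5_4, eval_PL, evL]
  have hc : 0 < (2 * (8 / 5 + p) + 2 + n) ^ 2 - (8 / 5 + p) ^ 2 := by nlinarith
  refine fin_aux hc (sub_nonneg.2 hA) (sub_nonneg.2 hB)
    (add_nonneg (c54e_nn hn hp h0 h1) (mul_nonneg (c54s_nn hn h0)
      (sq_nonneg ((2 * (8 / 5 + p) + 2 + n) * t - 3))))
    (c54a_nn hn hp h0 h1) (c54b_nn hn hp h0 h1) ?_
  simp only [c54e_0, c54e_1, c54e_2, c54e_3, c54e_4, c54e_5, c54e_6, c54e_7, c54e_8, c54e_9, c54e_10,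
    c54e_11, c54e_12, c54a_6, c54a_7, c54a_8, c54a_9, c54a_10, c54a_11, c54b_0, c54b_1,
    c54b_2, c54b_3, c54b_4, c54b_5, c54b_6, c54b_7, c54b_8, c54b_9, c54b_10, c54s, fc_5_4_0,
    fc_5_4_1, fc_5_4_2, fc_5_4_3, fc_5_4_4, fc_5_4_5, fc_5_4_6, fc_5_4_7, fc_5_4_8,
    fc_5_4_9, fc_5_4_10, fc_5_4_11, fc_5_4_12]
  ring

end Pool.Agent.KIQ

namespace Pool.Agent.KIQ.POLY

noncomputable def c55e_0 (n p : ℝ) : ℝ :=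
  360 * p ^ 2 + 912 * p + 2688 / 5

theorem c55e_0_nn {n p : ℝ} (hn : 0 ≤ n) (hp : 0 ≤ p) : 0 ≤ c55e_0 n p := by
  unfold c55e_0; positivity

noncomputable def c55e_1 (n p : ℝ) : ℝ :=
  360 * n * p ^ 2 + 720 * p ^ 3 + 912 * n * p + 4056 * p ^ 2 + 2688 / 5 * n + 33648 / 5 * p +
  83328 / 25

theorem c55e_1_nn {n p : ℝ} (hn : 0 ≤ n) (hp : 0 ≤ p) : 0 ≤ c55e_1 n p := by
  unfold c55e_1; positivity

noncomputable def c55e_2 (n p : ℝ) : ℝ :=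
  180 * n ^ 2 * p ^ 2 + 720 * n * p ^ 3 + 720 * p ^ 4 + 456 * n ^ 2 * p + 4056 * n * p ^ 2 +
  6468 * p ^ 3 + 1344 / 5 * n ^ 2 + 33648 / 5 * n * p + 100236 / 5 * p ^ 2 + 83328 / 25 * n
  + 629832 / 25 * p + 1345344 / 125

theorem c55e_2_nn {n p : ℝ} (hn : 0 ≤ n) (hp : 0 ≤ p) : 0 ≤ c55e_2 n p := by
  unfold c55e_2; positivity

noncomputable def c55e_3 (n p : ℝ) : ℝ :=
  60 * n ^ 3 * p ^ 2 + 360 * n ^ 2 * p ^ 3 + 720 * n * p ^ 4 + 480 * p ^ 5 + 152 * n ^ 3 * p +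
  2028 * n ^ 2 * p ^ 2 + 6468 * n * p ^ 3 + 6040 * p ^ 4 + 448 / 5 * n ^ 3 + 16824 / 5 * n ^
  2 * p + 100836 / 5 * n * p ^ 2 + 28708 * p ^ 3 + 41664 / 25 * n ^ 2 + 637432 / 25 * n * p
  + 319924 / 5 * p ^ 2 + 1367744 / 125 * n + 1654616 / 25 * p + 15707328 / 625

theorem c55e_3_nn {n p : ℝ} (hn : 0 ≤ n) (hp : 0 ≤ p) : 0 ≤ c55e_3 n p := by
  unfold c55e_3; positivity

noncomputable def c55e_4 (n p : ℝ) : ℝ :=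
  15 * n ^ 4 * p ^ 2 + 120 * n ^ 3 * p ^ 3 + 360 * n ^ 2 * p ^ 4 + 480 * n * p ^ 5 + 240 * p ^
  6 + 38 * n ^ 4 * p + 676 * n ^ 3 * p ^ 2 + 3234 * n ^ 2 * p ^ 3 + 6040 * n * p ^ 4 + 3944
  * p ^ 5 + 112 / 5 * n ^ 4 + 5608 / 5 * n ^ 3 * p + 50718 / 5 * n ^ 2 * p ^ 2 + 28948 * n *
  p ^ 3 + 25981 * p ^ 4 + 13888 / 25 * n ^ 3 + 322516 / 25 * n ^ 2 * p + 326684 / 5 * n * p
  ^ 2 + 436614 / 5 * p ^ 3 + 695072 / 125 * n ^ 2 + 1710696 / 25 * n * p + 3915239 / 25 * p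
  ^ 2 + 16401728 / 625 * n + 87822934 / 625 * p + 152002032 / 3125

theorem c55e_4_nn {n p : ℝ} (hn : 0 ≤ n) (hp : 0 ≤ p) : 0 ≤ c55e_4 n p := by
  unfold c55e_4; positivity

noncomputable def c55e_5 (n p : ℝ) : ℝ :=
  3 * n ^ 5 * p ^ 2 + 30 * n ^ 4 * p ^ 3 + 120 * n ^ 3 * p ^ 4 + 240 * n ^ 2 * p ^ 5 + 240 * n
  * p ^ 6 + 96 * p ^ 7 + 38 / 5 * n ^ 5 * p + 169 * n ^ 4 * p ^ 2 + 1078 * n ^ 3 * p ^ 3 +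
  3020 * n ^ 2 * p ^ 4 + 3944 * n * p ^ 5 + 9856 / 5 * p ^ 6 + 221 / 200 * n ^ 5 + 1402 / 5
  * n ^ 4 * p + 17006 / 5 * n ^ 3 * p ^ 2 + 14594 * n ^ 2 * p ^ 3 + 26221 * n * p ^ 4 +
  423314 / 25 * p ^ 5 + 4213 / 100 * n ^ 4 + 108772 / 25 * n ^ 3 * p + 166722 / 5 * n ^ 2 *
  p ^ 2 + 447394 / 5 * n * p ^ 3 + 1961099 / 25 * p ^ 4 + 486071 / 500 * n ^ 3 + 883388 / 25
  * n ^ 2 * p + 4084099 / 25 * n * p ^ 2 + 26266552 / 125 * p ^ 3 + 65363887 / 5000 * n ^ 2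
  + 93185534 / 625 * n * p + 1007829613 / 3125 * p ^ 2 + 163549232 / 3125 * n + 4056455858 /
  15625 * p + 6518405712 / 78125

theorem c55e_5_nn {n p : ℝ} (hn : 0 ≤ n) (hp : 0 ≤ p) : 0 ≤ c55e_5 n p := by
  unfold c55e_5; positivity

noncomputable def c55e_6 (n p : ℝ) : ℝ :=
  3 * n ^ 6 * p + 39 * n ^ 5 * p ^ 2 + 225 * n ^ 4 * p ^ 3 + 720 * n ^ 3 * p ^ 4 + 1320 * n ^
  2 * p ^ 5 + 1296 * n * p ^ 6 + 528 * p ^ 7 + 1 / 20 * n ^ 6 + 793 / 10 * n ^ 5 * p + 1025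
  * n ^ 4 * p ^ 2 + 5198 * n ^ 3 * p ^ 3 + 13100 * n ^ 2 * p ^ 4 + 82088 / 5 * n * p ^ 5 +
  40768 / 5 * p ^ 6 + 1733 / 200 * n ^ 5 + 1001 * n ^ 4 * p + 59806 / 5 * n ^ 3 * p ^ 2 +
  48743 * n ^ 2 * p ^ 3 + 422597 / 5 * n * p ^ 4 + 1344157 / 25 * p ^ 5 + 3779 / 20 * n ^ 4
  + 222667 / 25 * n ^ 3 * p + 405913 / 5 * n ^ 2 * p ^ 2 + 5604298 / 25 * n * p ^ 3 +
  4902777 / 25 * p ^ 4 + 87233 / 250 * n ^ 3 + 2709361 / 50 * n ^ 2 * p + 39703143 / 125 * n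
  * p ^ 2 + 53236691 / 125 * p ^ 3 + 33254211 / 5000 * n ^ 2 + 691454118 / 3125 * n * p +
  1709934959 / 3125 * p ^ 2 + 879026964 / 15625 * n + 5965330324 / 15625 * p + 8662219956 /
  78125

theorem c55e_6_nn {n p : ℝ} (hn : 0 ≤ n) (hp : 0 ≤ p) : 0 ≤ c55e_6 n p := by
  unfold c55e_6; positivity

noncomputable def c55e_7 (n p : ℝ) : ℝ :=
  5 / 8 * n ^ 7 + 31 / 2 * n ^ 6 * p + 271 / 2 * n ^ 5 * p ^ 2 + 645 * n ^ 4 * p ^ 3 + 1870 *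
  n ^ 3 * p ^ 4 + 3292 * n ^ 2 * p ^ 5 + 3224 * n * p ^ 6 + 1344 * p ^ 7 + 109 / 5 * n ^ 6 +
  5001 / 10 * n ^ 5 * p + 3878 * n ^ 4 * p ^ 2 + 15528 * n ^ 3 * p ^ 3 + 35036 * n ^ 2 * p ^
  4 + 210522 / 5 * n * p ^ 5 + 104244 / 5 * p ^ 6 + 56631 / 200 * n ^ 5 + 6254 * n ^ 4 * p +
  214131 / 5 * n ^ 3 * p ^ 2 + 690851 / 5 * n ^ 2 * p ^ 3 + 1087243 / 5 * n * p ^ 4 +
  3343501 / 25 * p ^ 5 + 375053 / 200 * n ^ 4 + 2057419 / 50 * n ^ 3 * p + 11962541 / 50 * n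
  ^ 2 * p ^ 2 + 13899087 / 25 * n * p ^ 3 + 11400431 / 25 * p ^ 4 + 553974 / 125 * n ^ 3 +
  38383139 / 250 * n ^ 2 * p + 88189042 / 125 * n * p ^ 2 + 109831083 / 125 * p ^ 3 +
  1454923 / 25000 * n ^ 2 + 1125798042 / 3125 * n * p + 2896373357 / 3125 * p ^ 2 +
  142799616 / 15625 * n + 7182663092 / 15625 * p + 4930066908 / 78125

theorem c55e_7_nn {n p : ℝ} (hn : 0 ≤ n) (hp : 0 ≤ p) : 0 ≤ c55e_7 n p := by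
  unfold c55e_7; positivity

noncomputable def c55e_8 (n p : ℝ) : ℝ :=
  5 / 8 * n ^ 7 + 41 / 2 * n ^ 6 * p + 391 / 2 * n ^ 5 * p ^ 2 + 970 * n ^ 4 * p ^ 3 + 2870 *
  n ^ 3 * p ^ 4 + 5122 * n ^ 2 * p ^ 5 + 5104 * n * p ^ 6 + 2184 * p ^ 7 + 224 / 5 * n ^ 6 +
  9321 / 10 * n ^ 5 * p + 6993 * n ^ 4 * p ^ 2 + 27368 * n ^ 3 * p ^ 3 + 60726 * n ^ 2 * p ^
  4 + 363162 / 5 * n * p ^ 5 + 181809 / 5 * p ^ 6 + 200151 / 200 * n ^ 5 + 15511 * n ^ 4 * p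
  + 459091 / 5 * n ^ 3 * p ^ 2 + 1364441 / 5 * n ^ 2 * p ^ 3 + 2055403 / 5 * n * p ^ 4 +
  6235786 / 25 * p ^ 5 + 2086653 / 200 * n ^ 4 + 6238779 / 50 * n ^ 3 * p + 28323781 / 50 *
  n ^ 2 * p ^ 2 + 29113527 / 25 * n * p ^ 3 + 22600416 / 25 * p ^ 4 + 6634854 / 125 * n ^ 3
  + 128033049 / 250 * n ^ 2 * p + 210021582 / 125 * n * p ^ 2 + 228922388 / 125 * p ^ 3 +
  3274225443 / 25000 * n ^ 2 + 3318428082 / 3125 * n * p + 6189698127 / 3125 * p ^ 2 +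
  2170791036 / 15625 * n + 14422267762 / 15625 * p + 3479657688 / 78125

theorem c55e_8_nn {n p : ℝ} (hn : 0 ≤ n) (hp : 0 ≤ p) : 0 ≤ c55e_8 n p := by
  unfold c55e_8; positivity

noncomputable def c55e_9 (n p : ℝ) : ℝ :=
  5 / 8 * n ^ 7 + 41 / 2 * n ^ 6 * p + 411 / 2 * n ^ 5 * p ^ 2 + 1070 * n ^ 4 * p ^ 3 + 3290 *
  n ^ 3 * p ^ 4 + 6042 * n ^ 2 * p ^ 5 + 6159 * n * p ^ 6 + 2694 * p ^ 7 + 224 / 5 * n ^ 6 +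
  10341 / 10 * n ^ 5 * p + 8273 * n ^ 4 * p ^ 2 + 33786 * n ^ 3 * p ^ 3 + 76986 * n ^ 2 * p
  ^ 4 + 468802 / 5 * n * p ^ 5 + 238919 / 5 * p ^ 6 + 248671 / 200 * n ^ 5 + 20589 * n ^ 4 *
  p + 631067 / 5 * n ^ 3 * p ^ 2 + 1904101 / 5 * n ^ 2 * p ^ 3 + 2885513 / 5 * n * p ^ 4 +
  8825126 / 25 * p ^ 5 + 3348173 / 200 * n ^ 4 + 10097563 / 50 * n ^ 3 * p + 45211941 / 50 *
  n ^ 2 * p ^ 2 + 45522267 / 25 * n * p ^ 3 + 34926356 / 25 * p ^ 4 + 14346728 / 125 * n ^ 3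
  + 253053489 / 250 * n ^ 2 * p + 382037497 / 125 * n * p ^ 2 + 394754258 / 125 * p ^ 3 +
  10279521923 / 25000 * n ^ 2 + 7824457772 / 3125 * n * p + 12433401657 / 3125 * p ^ 2 +
  11220331956 / 15625 * n + 38176112742 / 15625 * p + 36297474408 / 78125

theorem c55e_9_nn {n p : ℝ} (hn : 0 ≤ n) (hp : 0 ≤ p) : 0 ≤ c55e_9 n p := by
  unfold c55e_9; positivity

noncomputable def c55e_10 (n p : ℝ) : ℝ :=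
  5 / 8 * n ^ 7 + 41 / 2 * n ^ 6 * p + 411 / 2 * n ^ 5 * p ^ 2 + 1080 * n ^ 4 * p ^ 3 + 3370 *
  n ^ 3 * p ^ 4 + 6287 * n ^ 2 * p ^ 5 + 6499 * n * p ^ 6 + 2877 * p ^ 7 + 224 / 5 * n ^ 6 +
  10341 / 10 * n ^ 5 * p + 8441 * n ^ 4 * p ^ 2 + 35338 * n ^ 3 * p ^ 3 + 82371 * n ^ 2 * p
  ^ 4 + 510522 / 5 * n * p ^ 5 + 263757 / 5 * p ^ 6 + 248671 / 200 * n ^ 5 + 107374 / 5 * n
  ^ 4 * p + 683971 / 5 * n ^ 3 * p ^ 2 + 2126686 / 5 * n ^ 2 * p ^ 3 + 3288193 / 5 * n * p ^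
  4 + 10193898 / 25 * p ^ 5 + 727561 / 40 * n ^ 4 + 11598059 / 50 * n ^ 3 * p + 53881851 /
  50 * n ^ 2 * p ^ 2 + 55332187 / 25 * n * p ^ 3 + 42886008 / 25 * p ^ 4 + 18111944 / 125 *
  n ^ 3 + 333130579 / 250 * n ^ 2 * p + 509909817 / 125 * n * p ^ 2 + 527082429 / 125 * p ^
  3 + 15942234203 / 25000 * n ^ 2 + 12078334492 / 3125 * n * p + 18744374931 / 3125 * p ^ 2
  + 22575101616 / 15625 * n + 70242788676 / 15625 * p + 103366791684 / 78125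

theorem c55e_10_nn {n p : ℝ} (hn : 0 ≤ n) (hp : 0 ≤ p) : 0 ≤ c55e_10 n p := by
  unfold c55e_10; positivity

noncomputable def c55e_11 (n p : ℝ) : ℝ :=
  5 / 8 * n ^ 7 + 41 / 2 * n ^ 6 * p + 411 / 2 * n ^ 5 * p ^ 2 + 1080 * n ^ 4 * p ^ 3 + 3375 *
  n ^ 3 * p ^ 4 + 6317 * n ^ 2 * p ^ 5 + 6557 * n * p ^ 6 + 2913 * p ^ 7 + 224 / 5 * n ^ 6 +
  10341 / 10 * n ^ 5 * p + 8441 * n ^ 4 * p ^ 2 + 35460 * n ^ 3 * p ^ 3 + 83181 * n ^ 2 * p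
  ^ 4 + 519146 / 5 * n * p ^ 5 + 269633 / 5 * p ^ 6 + 248671 / 200 * n ^ 5 + 107374 / 5 * n
  ^ 4 * p + 137853 * n ^ 3 * p ^ 2 + 2167966 / 5 * n ^ 2 * p ^ 3 + 3389299 / 5 * n * p ^ 4 +
  10584462 / 25 * p ^ 5 + 727561 / 40 * n ^ 4 + 2357993 / 10 * n ^ 3 * p + 55859151 / 50 * n
  ^ 2 * p ^ 2 + 58321366 / 25 * n * p ^ 3 + 45629602 / 25 * p ^ 4 + 3743449 / 25 * n ^ 3 +
  355362859 / 250 * n ^ 2 * p + 557027056 / 125 * n * p ^ 2 + 582242601 / 125 * p ^ 3 +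
  17830773323 / 25000 * n ^ 2 + 13965623456 / 3125 * n * p + 21933327689 / 3125 * p ^ 2 +
  28622118588 / 15625 * n + 89990627844 / 15625 * p + 154201529196 / 78125

theorem c55e_11_nn {n p : ℝ} (hn : 0 ≤ n) (hp : 0 ≤ p) : 0 ≤ c55e_11 n p := by
  unfold c55e_11; positivity

noncomputable def c55e_12 (n p : ℝ) : ℝ :=
  5 / 8 * n ^ 7 + 41 / 2 * n ^ 6 * p + 411 / 2 * n ^ 5 * p ^ 2 + 1080 * n ^ 4 * p ^ 3 + 3375 *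
  n ^ 3 * p ^ 4 + 6318 * n ^ 2 * p ^ 5 + 6561 * n * p ^ 6 + 2916 * p ^ 7 + 224 / 5 * n ^ 6 +
  10341 / 10 * n ^ 5 * p + 8441 * n ^ 4 * p ^ 2 + 35460 * n ^ 3 * p ^ 3 + 83214 * n ^ 2 * p
  ^ 4 + 519858 / 5 * n * p ^ 5 + 270216 / 5 * p ^ 6 + 248671 / 200 * n ^ 5 + 107374 / 5 * n
  ^ 4 * p + 137853 * n ^ 3 * p ^ 2 + 2170044 / 5 * n ^ 2 * p ^ 3 + 3399327 / 5 * n * p ^ 4 +
  10630764 / 25 * p ^ 5 + 727561 / 40 * n ^ 4 + 2357993 / 10 * n ^ 3 * p + 55983099 / 50 * n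
  ^ 2 * p ^ 2 + 58677318 / 25 * n * p ^ 3 + 46018584 / 25 * p ^ 4 + 3743449 / 25 * n ^ 3 +
  357097301 / 250 * n ^ 2 * p + 563718588 / 125 * n * p ^ 2 + 591569712 / 125 * p ^ 3 +
  18010668467 / 25000 * n ^ 2 + 14281048488 / 3125 * n * p + 22572006048 / 3125 * p ^ 2 +
  29791437024 / 15625 * n + 94623170688 / 15625 * p + 167963507712 / 78125

theorem c55e_12_nn {n p : ℝ} (hn : 0 ≤ n) (hp : 0 ≤ p) : 0 ≤ c55e_12 n p := by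
  unfold c55e_12; positivity

theorem c55e_nn {n p t : ℝ} (hn : 0 ≤ n) (hp : 0 ≤ p) (h0 : 0 < t) (h1 : t ≤ 1) :
    0 ≤ (1 - t) * (c55e_0 n p * t ^ 0 + c55e_1 n p * t ^ 1 + c55e_2 n p * t ^ 2 + c55e_3 n p * t ^ 3
      + c55e_4 n p * t ^ 4 + c55e_5 n p * t ^ 5 + c55e_6 n p * t ^ 6 + c55e_7 n p * t ^ 7 +
      c55e_8 n p * t ^ 8 + c55e_9 n p * t ^ 9 + c55e_10 n p * t ^ 10 + c55e_11 n p * t ^ 11)
      + c55e_12 n p * t ^ 12 := by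
  have e0 := c55e_0_nn hn hp
  have e1 := c55e_1_nn hn hp
  have e2 := c55e_2_nn hn hp
  have e3 := c55e_3_nn hn hp
  have e4 := c55e_4_nn hn hp
  have e5 := c55e_5_nn hn hp
  have e6 := c55e_6_nn hn hp
  have e7 := c55e_7_nn hn hp
  have e8 := c55e_8_nn hn hp
  have e9 := c55e_9_nn hn hp
  have e10 := c55e_10_nn hn hp
  have e11 := c55e_11_nn hn hp
  have e12 := c55e_12_nn hn hp
  have h2 : 0 ≤ 1 - t := by linarith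
  exact add_nonneg (mul_nonneg h2 (by positivity)) (by positivity)

noncomputable def c55a_6 (n p : ℝ) : ℝ :=
  n ^ 5 + 10 * n ^ 4 * p + 40 * n ^ 3 * p ^ 2 + 80 * n ^ 2 * p ^ 3 + 80 * n * p ^ 4 + 32 * p ^
  5 + 26 * n ^ 4 + 198 * n ^ 3 * p + 564 * n ^ 2 * p ^ 2 + 712 * n * p ^ 3 + 336 * p ^ 4 +
  1222 / 5 * n ^ 3 + 6552 / 5 * n ^ 2 * p + 11619 / 5 * n * p ^ 2 + 6806 / 5 * p ^ 3 + 25012
  / 25 * n ^ 2 + 81968 / 25 * n * p + 65838 / 25 * p ^ 2 + 207261 / 125 * n + 295962 / 125 *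
  p + 2267226 / 3125

theorem c55a_6_nn {n p : ℝ} (hn : 0 ≤ n) (hp : 0 ≤ p) : 0 ≤ c55a_6 n p := by
  unfold c55a_6; positivity

noncomputable def c55a_7 (n p : ℝ) : ℝ :=
  n ^ 5 + 15 * n ^ 4 * p + 80 * n ^ 3 * p ^ 2 + 200 * n ^ 2 * p ^ 3 + 240 * n * p ^ 4 + 112 *
  p ^ 5 + 44 * n ^ 4 + 446 * n ^ 3 * p + 1590 * n ^ 2 * p ^ 2 + 2416 * n * p ^ 3 + 1336 * p
  ^ 4 + 3094 / 5 * n ^ 3 + 4162 * n ^ 2 * p + 44627 / 5 * n * p ^ 2 + 30841 / 5 * p ^ 3 +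
  3613 * n ^ 2 + 359964 / 25 * n * p + 344348 / 25 * p ^ 2 + 1072593 / 125 * n + 1852722 /
  125 * p + 18897966 / 3125

theorem c55a_7_nn {n p : ℝ} (hn : 0 ≤ n) (hp : 0 ≤ p) : 0 ≤ c55a_7 n p := by
  unfold c55a_7; positivity

noncomputable def c55a_8 (n p : ℝ) : ℝ :=
  n ^ 5 + 15 * n ^ 4 * p + 90 * n ^ 3 * p ^ 2 + 260 * n ^ 2 * p ^ 3 + 360 * n * p ^ 4 + 192 *
  p ^ 5 + 44 * n ^ 4 + 528 * n ^ 3 * p + 2238 * n ^ 2 * p ^ 2 + 3994 * n * p ^ 3 + 2556 * p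
  ^ 4 + 3847 / 5 * n ^ 3 + 31724 / 5 * n ^ 2 * p + 81483 / 5 * n * p ^ 2 + 66141 / 5 * p ^ 3
  + 149059 / 25 * n ^ 2 + 727961 / 25 * n * p + 833238 / 25 * p ^ 2 + 2423667 / 125 * n +
  5131992 / 125 * p + 62190306 / 3125

theorem c55a_8_nn {n p : ℝ} (hn : 0 ≤ n) (hp : 0 ≤ p) : 0 ≤ c55a_8 n p := by
  unfold c55a_8; positivity

noncomputable def c55a_9 (n p : ℝ) : ℝ :=
  n ^ 5 + 15 * n ^ 4 * p + 90 * n ^ 3 * p ^ 2 + 270 * n ^ 2 * p ^ 3 + 400 * n * p ^ 4 + 232 *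
  p ^ 5 + 44 * n ^ 4 + 528 * n ^ 3 * p + 2376 * n ^ 2 * p ^ 2 + 4650 * n * p ^ 3 + 3306 * p
  ^ 4 + 3847 / 5 * n ^ 3 + 34623 / 5 * n ^ 2 * p + 20051 * n * p ^ 2 + 92521 / 5 * p ^ 3 +
  167068 / 25 * n ^ 2 + 190149 / 5 * n * p + 1270818 / 25 * p ^ 2 + 672027 / 25 * n +
  8592972 / 125 * p + 115399926 / 3125

theorem c55a_9_nn {n p : ℝ} (hn : 0 ≤ n) (hp : 0 ≤ p) : 0 ≤ c55a_9 n p := by
  unfold c55a_9; positivity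

noncomputable def c55a_10 (n p : ℝ) : ℝ :=
  n ^ 5 + 15 * n ^ 4 * p + 90 * n ^ 3 * p ^ 2 + 270 * n ^ 2 * p ^ 3 + 405 * n * p ^ 4 + 242 *
  p ^ 5 + 44 * n ^ 4 + 528 * n ^ 3 * p + 2376 * n ^ 2 * p ^ 2 + 4752 * n * p ^ 3 + 3536 * p
  ^ 4 + 3847 / 5 * n ^ 3 + 34623 / 5 * n ^ 2 * p + 103869 / 5 * n * p ^ 2 + 102401 / 5 * p ^
  3 + 167068 / 25 * n ^ 2 + 1002408 / 25 * n * p + 1468108 / 25 * p ^ 2 + 3603396 / 125 * n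
  + 10422732 / 125 * p + 147023856 / 3125

theorem c55a_10_nn {n p : ℝ} (hn : 0 ≤ n) (hp : 0 ≤ p) : 0 ≤ c55a_10 n p := by
  unfold c55a_10; positivity

noncomputable def c55a_11 (n p : ℝ) : ℝ :=
  n ^ 5 + 15 * n ^ 4 * p + 90 * n ^ 3 * p ^ 2 + 270 * n ^ 2 * p ^ 3 + 405 * n * p ^ 4 + 243 *
  p ^ 5 + 44 * n ^ 4 + 528 * n ^ 3 * p + 2376 * n ^ 2 * p ^ 2 + 4752 * n * p ^ 3 + 3564 * p
  ^ 4 + 3847 / 5 * n ^ 3 + 34623 / 5 * n ^ 2 * p + 103869 / 5 * n * p ^ 2 + 103869 / 5 * p ^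
  3 + 167068 / 25 * n ^ 2 + 1002408 / 25 * n * p + 1503612 / 25 * p ^ 2 + 3603396 / 125 * n
  + 10810188 / 125 * p + 154378224 / 3125

theorem c55a_11_nn {n p : ℝ} (hn : 0 ≤ n) (hp : 0 ≤ p) : 0 ≤ c55a_11 n p := by
  unfold c55a_11; positivity

theorem c55a_nn {n p t : ℝ} (hn : 0 ≤ n) (hp : 0 ≤ p) (h0 : 0 < t) (h1 : t ≤ 1) :
    0 ≤ (1 - t) * (c55a_6 n p * t ^ 6 + c55a_7 n p * t ^ 7 + c55a_8 n p * t ^ 8 + c55a_9 n p * t ^ 9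
      + c55a_10 n p * t ^ 10) + c55a_11 n p * t ^ 11 := by
  have e6 := c55a_6_nn hn hp
  have e7 := c55a_7_nn hn hp
  have e8 := c55a_8_nn hn hp
  have e9 := c55a_9_nn hn hp
  have e10 := c55a_10_nn hn hp
  have e11 := c55a_11_nn hn hp
  have h2 : 0 ≤ 1 - t := by linarith
  exact add_nonneg (mul_nonneg h2 (by positivity)) (by positivity)

noncomputable def c55b_0 (n p : ℝ) : ℝ :=
  120

theorem c55b_0_nn {n p : ℝ} (hn : 0 ≤ n) (hp : 0 ≤ p) : 0 ≤ c55b_0 n p := by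
  unfold c55b_0; positivity

noncomputable def c55b_1 (n p : ℝ) : ℝ :=
  120 * n + 240 * p + 744

theorem c55b_1_nn {n p : ℝ} (hn : 0 ≤ n) (hp : 0 ≤ p) : 0 ≤ c55b_1 n p := by
  unfold c55b_1; positivity

noncomputable def c55b_2 (n p : ℝ) : ℝ :=
  60 * n ^ 2 + 240 * n * p + 240 * p ^ 2 + 744 * n + 1548 * p + 12012 / 5

theorem c55b_2_nn {n p : ℝ} (hn : 0 ≤ n) (hp : 0 ≤ p) : 0 ≤ c55b_2 n p := by
  unfold c55b_2; positivity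

noncomputable def c55b_3 (n p : ℝ) : ℝ :=
  20 * n ^ 3 + 120 * n ^ 2 * p + 240 * n * p ^ 2 + 160 * p ^ 3 + 372 * n ^ 2 + 1548 * n * p +
  1608 * p ^ 2 + 12212 / 5 * n + 26284 / 5 * p + 140244 / 25

theorem c55b_3_nn {n p : ℝ} (hn : 0 ≤ n) (hp : 0 ≤ p) : 0 ≤ c55b_3 n p := by
  unfold c55b_3; positivity

noncomputable def c55b_4 (n p : ℝ) : ℝ :=
  5 * n ^ 4 + 40 * n ^ 3 * p + 120 * n ^ 2 * p ^ 2 + 160 * n * p ^ 3 + 80 * p ^ 4 + 124 * n ^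
  3 + 774 * n ^ 2 * p + 1608 * n * p ^ 2 + 1112 * p ^ 3 + 6206 / 5 * n ^ 2 + 26684 / 5 * n *
  p + 28619 / 5 * p ^ 2 + 146444 / 25 * n + 323668 / 25 * p + 1357161 / 125

theorem c55b_4_nn {n p : ℝ} (hn : 0 ≤ n) (hp : 0 ≤ p) : 0 ≤ c55b_4 n p := by
  unfold c55b_4; positivity

noncomputable def c55b_5 (n p : ℝ) : ℝ :=
  n ^ 5 + 10 * n ^ 4 * p + 40 * n ^ 3 * p ^ 2 + 80 * n ^ 2 * p ^ 3 + 80 * n * p ^ 4 + 32 * p ^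
  5 + 31 * n ^ 4 + 258 * n ^ 3 * p + 804 * n ^ 2 * p ^ 2 + 1112 * n * p ^ 3 + 576 * p ^ 4 +
  2102 / 5 * n ^ 3 + 13542 / 5 * n ^ 2 * p + 29019 / 5 * n * p ^ 2 + 20686 / 5 * p ^ 3 +
  76322 / 25 * n ^ 2 + 336568 / 25 * n * p + 370173 / 25 * p ^ 2 + 1460261 / 125 * n +
  3294382 / 125 * p + 58200051 / 3125

theorem c55b_5_nn {n p : ℝ} (hn : 0 ≤ n) (hp : 0 ≤ p) : 0 ≤ c55b_5 n p := by
  unfold c55b_5; positivity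

noncomputable def c55b_6 (n p : ℝ) : ℝ :=
  n ^ 5 + 15 * n ^ 4 * p + 80 * n ^ 3 * p ^ 2 + 200 * n ^ 2 * p ^ 3 + 240 * n * p ^ 4 + 112 *
  p ^ 5 + 44 * n ^ 4 + 466 * n ^ 3 * p + 1740 * n ^ 2 * p ^ 2 + 2776 * n * p ^ 3 + 1616 * p
  ^ 4 + 3454 / 5 * n ^ 3 + 5152 * n ^ 2 * p + 61667 / 5 * n * p ^ 2 + 47951 / 5 * p ^ 3 +
  5188 * n ^ 2 + 622984 / 25 * n * p + 730468 / 25 * p ^ 2 + 2408013 / 125 * n + 5690837 /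
  125 * p + 90212616 / 3125

theorem c55b_6_nn {n p : ℝ} (hn : 0 ≤ n) (hp : 0 ≤ p) : 0 ≤ c55b_6 n p := by
  unfold c55b_6; positivity

noncomputable def c55b_7 (n p : ℝ) : ℝ :=
  n ^ 5 + 15 * n ^ 4 * p + 90 * n ^ 3 * p ^ 2 + 260 * n ^ 2 * p ^ 3 + 360 * n * p ^ 4 + 192 *
  p ^ 5 + 44 * n ^ 4 + 528 * n ^ 3 * p + 2268 * n ^ 2 * p ^ 2 + 4134 * n * p ^ 3 + 2716 * p
  ^ 4 + 3847 / 5 * n ^ 3 + 32954 / 5 * n ^ 2 * p + 89343 / 5 * n * p ^ 2 + 77411 / 5 * p ^ 3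
  + 160354 / 25 * n ^ 2 + 866091 / 25 * n * p + 1117778 / 25 * p ^ 2 + 3191097 / 125 * n +
  8210347 / 125 * p + 122939856 / 3125

theorem c55b_7_nn {n p : ℝ} (hn : 0 ≤ n) (hp : 0 ≤ p) : 0 ≤ c55b_7 n p := by
  unfold c55b_7; positivity

noncomputable def c55b_8 (n p : ℝ) : ℝ :=
  n ^ 5 + 15 * n ^ 4 * p + 90 * n ^ 3 * p ^ 2 + 270 * n ^ 2 * p ^ 3 + 400 * n * p ^ 4 + 232 *
  p ^ 5 + 44 * n ^ 4 + 528 * n ^ 3 * p + 2376 * n ^ 2 * p ^ 2 + 4670 * n * p ^ 3 + 3351 * p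
  ^ 4 + 3847 / 5 * n ^ 3 + 34623 / 5 * n ^ 2 * p + 20327 * n * p ^ 2 + 96311 / 5 * p ^ 3 +
  167068 / 25 * n ^ 2 + 195947 / 5 * n * p + 1382748 / 25 * p ^ 2 + 141609 / 5 * n + 9965207
  / 125 * p + 144893151 / 3125

theorem c55b_8_nn {n p : ℝ} (hn : 0 ≤ n) (hp : 0 ≤ p) : 0 ≤ c55b_8 n p := by
  unfold c55b_8; positivity

noncomputable def c55b_9 (n p : ℝ) : ℝ :=
  n ^ 5 + 15 * n ^ 4 * p + 90 * n ^ 3 * p ^ 2 + 270 * n ^ 2 * p ^ 3 + 405 * n * p ^ 4 + 242 *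
  p ^ 5 + 44 * n ^ 4 + 528 * n ^ 3 * p + 2376 * n ^ 2 * p ^ 2 + 4752 * n * p ^ 3 + 3541 * p
  ^ 4 + 3847 / 5 * n ^ 3 + 34623 / 5 * n ^ 2 * p + 103869 / 5 * n * p ^ 2 + 102911 / 5 * p ^
  3 + 167068 / 25 * n ^ 2 + 1002408 / 25 * n * p + 1486178 / 25 * p ^ 2 + 3603396 / 125 * n
  + 10681047 / 125 * p + 153105381 / 3125

theorem c55b_9_nn {n p : ℝ} (hn : 0 ≤ n) (hp : 0 ≤ p) : 0 ≤ c55b_9 n p := by
  unfold c55b_9; positivity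

noncomputable def c55b_10 (n p : ℝ) : ℝ :=
  n ^ 5 + 15 * n ^ 4 * p + 90 * n ^ 3 * p ^ 2 + 270 * n ^ 2 * p ^ 3 + 405 * n * p ^ 4 + 243 *
  p ^ 5 + 44 * n ^ 4 + 528 * n ^ 3 * p + 2376 * n ^ 2 * p ^ 2 + 4752 * n * p ^ 3 + 3564 * p
  ^ 4 + 3847 / 5 * n ^ 3 + 34623 / 5 * n ^ 2 * p + 103869 / 5 * n * p ^ 2 + 103869 / 5 * p ^
  3 + 167068 / 25 * n ^ 2 + 1002408 / 25 * n * p + 1503612 / 25 * p ^ 2 + 3603396 / 125 * n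
  + 10810188 / 125 * p + 154378224 / 3125

theorem c55b_10_nn {n p : ℝ} (hn : 0 ≤ n) (hp : 0 ≤ p) : 0 ≤ c55b_10 n p := by
  unfold c55b_10; positivity

theorem c55b_nn {n p t : ℝ} (hn : 0 ≤ n) (hp : 0 ≤ p) (h0 : 0 < t) (h1 : t ≤ 1) :
    0 ≤ (1 - t) * (c55b_0 n p * t ^ 0 + c55b_1 n p * t ^ 1 + c55b_2 n p * t ^ 2 + c55b_3 n p * t ^ 3
      + c55b_4 n p * t ^ 4 + c55b_5 n p * t ^ 5 + c55b_6 n p * t ^ 6 + c55b_7 n p * t ^ 7 +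
      c55b_8 n p * t ^ 8 + c55b_9 n p * t ^ 9) + c55b_10 n p * t ^ 10 := by
  have e0 := c55b_0_nn hn hp
  have e1 := c55b_1_nn hn hp
  have e2 := c55b_2_nn hn hp
  have e3 := c55b_3_nn hn hp
  have e4 := c55b_4_nn hn hp
  have e5 := c55b_5_nn hn hp
  have e6 := c55b_6_nn hn hp
  have e7 := c55b_7_nn hn hp
  have e8 := c55b_8_nn hn hp
  have e9 := c55b_9_nn hn hp
  have e10 := c55b_10_nn hn hp
  have h2 : 0 ≤ 1 - t := by linarith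
  exact add_nonneg (mul_nonneg h2 (by positivity)) (by positivity)

noncomputable def c55s (n t : ℝ) : ℝ :=
  3 / 8 * t ^ 5 * n ^ 5 + 43 / 4 * t ^ 5 * n ^ 4 + 405 / 4 * t ^ 5 * n ^ 3 + 537 / 8 * t ^ 5 *
  n ^ 2

theorem c55s_nn {n t : ℝ} (hn : 0 ≤ n) (h0 : 0 < t) : 0 ≤ c55s n t := by
  unfold c55s; positivity

end Pool.Agent.KIQ.POLY

namespace Pool.Agent.KIQ

open POLY

theorem PC5_5 {a q A B t : ℝ} (hq : 8 / 5 ≤ q) (ha : 2 * q + 2 ≤ a)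
    (hA : (3 * q - 2) * a ≤ (a ^ 2 - q ^ 2) * A) (hB : q * (3 * q - 2) ≤ (a ^ 2 - q ^ 2) * B)
    (h0 : 0 < t) (h1 : t ≤ 1) :
    0 ≤
      (pp 0 a q (iniC A B) 5 5).eval t := by
  obtain ⟨p, hp, rfl⟩ : ∃ p : ℝ, 0 ≤ p ∧ q = 8 / 5 + p := ⟨q - 8 / 5, by linarith, by ring⟩
  obtain ⟨n, hn, rfl⟩ : ∃ n : ℝ, 0 ≤ n ∧ a = 2 * (8 / 5 + p) + 2 + n :=
    ⟨a - (2 * (8 / 5 + p) + 2), by linarith, by ring⟩
  simp only [fc_5_5, eval_PL, evL]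
  have hc : 0 < (2 * (8 / 5 + p) + 2 + n) ^ 2 - (8 / 5 + p) ^ 2 := by nlinarith
  refine fin_aux hc (sub_nonneg.2 hA) (sub_nonneg.2 hB)
    (add_nonneg (c55e_nn hn hp h0 h1) (mul_nonneg (c55s_nn hn h0)
      (sq_nonneg ((2 * (8 / 5 + p) + 2 + n) * t - 3))))
    (c55a_nn hn hp h0 h1) (c55b_nn hn hp h0 h1) ?_
  simp only [c55e_0, c55e_1, c55e_2, c55e_3, c55e_4, c55e_5, c55e_6, c55e_7, c55e_8, c55e_9, c55e_10,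
    c55e_11, c55e_12, c55a_6, c55a_7, c55a_8, c55a_9, c55a_10, c55a_11, c55b_0, c55b_1,
    c55b_2, c55b_3, c55b_4, c55b_5, c55b_6, c55b_7, c55b_8, c55b_9, c55b_10, c55s, fc_5_5_0,
    fc_5_5_1, fc_5_5_2, fc_5_5_3, fc_5_5_4, fc_5_5_5, fc_5_5_6, fc_5_5_7, fc_5_5_8,
    fc_5_5_9, fc_5_5_10, fc_5_5_11, fc_5_5_12]
  ring

end Pool.Agent.KIQ
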