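import Pool.Agent.KIQ.POLYFG

/-!
# PG5: positivity of the polynomials
-/

set_option autoImplicit false
set_option maxRecDepth 10000
set_option linter.unusedSimpArgs false
set_option linter.unusedVariables false

open PowerSeries Finset

namespace Pool.Agent.KIQ.POLY

noncomputable def g50_0 (n p : ℝ) : ℝ :=
  120 * p + 72

theorem g50_0_nn {n p : ℝ} (hn : 0 ≤ n) (hp : 0 ≤ p) : 0 ≤ g50_0 n p := by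
  unfold g50_0; positivity

noncomputable def g50_1 (n p : ℝ) : ℝ :=
  120 * n * p + 240 * p ^ 2 + 72 * n + 768 * p + 1872 / 5

theorem g50_1_nn {n p : ℝ} (hn : 0 ≤ n) (hp : 0 ≤ p) : 0 ≤ g50_1 n p := by
  unfold g50_1; positivity

noncomputable def g50_2 (n p : ℝ) : ℝ :=
  60 * n ^ 2 * p + 240 * n * p ^ 2 + 240 * p ^ 3 + 36 * n ^ 2 + 768 * n * p + 1392 * p ^ 2 +
  1872 / 5 * n + 11256 / 5 * p + 22536 / 25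

theorem g50_2_nn {n p : ℝ} (hn : 0 ≤ n) (hp : 0 ≤ p) : 0 ≤ g50_2 n p := by
  unfold g50_2; positivity

noncomputable def g50_3 (n p : ℝ) : ℝ :=
  20 * n ^ 3 * p + 120 * n ^ 2 * p ^ 2 + 240 * n * p ^ 3 + 160 * p ^ 4 + 12 * n ^ 3 + 384 * n
  ^ 2 * p + 1392 * n * p ^ 2 + 1344 * p ^ 3 + 936 / 5 * n ^ 2 + 11456 / 5 * n * p + 19168 /
  5 * p ^ 2 + 23136 / 25 * n + 106176 / 25 * p + 179712 / 125

theorem g50_3_nn {n p : ℝ} (hn : 0 ≤ n) (hp : 0 ≤ p) : 0 ≤ g50_3 n p := by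
  unfold g50_3; positivity

noncomputable def g50_4 (n p : ℝ) : ℝ :=
  5 * n ^ 4 * p + 40 * n ^ 3 * p ^ 2 + 120 * n ^ 2 * p ^ 3 + 160 * n * p ^ 4 + 80 * p ^ 5 + 3
  * n ^ 4 + 128 * n ^ 3 * p + 696 * n ^ 2 * p ^ 2 + 1344 * n * p ^ 3 + 880 * p ^ 4 + 312 / 5
  * n ^ 3 + 5828 / 5 * n ^ 2 * p + 19568 / 5 * n * p ^ 2 + 3664 * p ^ 3 + 11868 / 25 * n ^ 2
  + 112576 / 25 * n * p + 35536 / 5 * p ^ 2 + 195312 / 125 * n + 6240 * p + 1168128 / 625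

theorem g50_4_nn {n p : ℝ} (hn : 0 ≤ n) (hp : 0 ≤ p) : 0 ≤ g50_4 n p := by
  unfold g50_4; positivity

noncomputable def g50_5 (n p : ℝ) : ℝ :=
  n ^ 5 * p + 10 * n ^ 4 * p ^ 2 + 40 * n ^ 3 * p ^ 3 + 80 * n ^ 2 * p ^ 4 + 80 * n * p ^ 5 +
  32 * p ^ 6 + 3 / 5 * n ^ 5 + 32 * n ^ 4 * p + 232 * n ^ 3 * p ^ 2 + 672 * n ^ 2 * p ^ 3 +
  880 * n * p ^ 4 + 2176 / 5 * p ^ 5 + 78 / 5 * n ^ 4 + 1976 / 5 * n ^ 3 * p + 9984 / 5 * n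
  ^ 2 * p ^ 2 + 3744 * n * p ^ 3 + 12064 / 5 * p ^ 4 + 4056 / 25 * n ^ 3 + 59488 / 25 * n ^
  2 * p + 37856 / 5 * n * p ^ 2 + 173056 / 25 * p ^ 3 + 105456 / 125 * n ^ 2 + 35072 / 5 * n
  * p + 1331776 / 125 * p ^ 2 + 1364928 / 625 * n + 25108156 / 3125 * p + 33751628 / 15625

theorem g50_5_nn {n p : ℝ} (hn : 0 ≤ n) (hp : 0 ≤ p) : 0 ≤ g50_5 n p := by
  unfold g50_5; positivity

noncomputable def g50_6 (n p : ℝ) : ℝ :=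
  n ^ 6 + 13 * n ^ 5 * p + 70 * n ^ 4 * p ^ 2 + 200 * n ^ 3 * p ^ 3 + 320 * n ^ 2 * p ^ 4 +
  272 * n * p ^ 5 + 96 * p ^ 6 + 129 / 5 * n ^ 5 + 279 * n ^ 4 * p + 1200 * n ^ 3 * p ^ 2 +
  2568 * n ^ 2 * p ^ 3 + 2736 * n * p ^ 4 + 5808 / 5 * p ^ 5 + 1311 / 5 * n ^ 4 + 2284 * n ^
  3 * p + 37056 / 5 * n ^ 2 * p ^ 2 + 53136 / 5 * n * p ^ 3 + 28432 / 5 * p ^ 4 + 6708 / 5 *
  n ^ 3 + 224412 / 25 * n ^ 2 * p + 495168 / 25 * n * p ^ 2 + 361008 / 25 * p ^ 3 + 461884 /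
  125 * n ^ 2 + 2169792 / 125 * n * p + 2492048 / 125 * p ^ 2 + 16833196 / 3125 * n +
  42878868 / 3125 * p + 51994424 / 15625

theorem g50_6_nn {n p : ℝ} (hn : 0 ≤ n) (hp : 0 ≤ p) : 0 ≤ g50_6 n p := by
  unfold g50_6; positivity

noncomputable def g50_7 (n p : ℝ) : ℝ :=
  n ^ 6 + 14 * n ^ 5 * p + 80 * n ^ 4 * p ^ 2 + 240 * n ^ 3 * p ^ 3 + 400 * n ^ 2 * p ^ 4 +
  352 * n * p ^ 5 + 128 * p ^ 6 + 162 / 5 * n ^ 5 + 366 * n ^ 4 * p + 1632 * n ^ 3 * p ^ 2 +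
  3600 * n ^ 2 * p ^ 3 + 3936 * n * p ^ 4 + 8544 / 5 * p ^ 5 + 2004 / 5 * n ^ 4 + 17596 / 5
  * n ^ 3 * p + 11496 * n ^ 2 * p ^ 2 + 82896 / 5 * n * p ^ 3 + 44576 / 5 * p ^ 4 + 59396 /
  25 * n ^ 3 + 76464 / 5 * n ^ 2 * p + 816528 / 25 * n * p ^ 2 + 578944 / 25 * p ^ 3 +
  173672 / 25 * n ^ 2 + 3695552 / 125 * n * p + 3917664 / 125 * p ^ 2 + 29009436 / 3125 * n
  + 63369824 / 3125 * p + 68901632 / 15625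

theorem g50_7_nn {n p : ℝ} (hn : 0 ≤ n) (hp : 0 ≤ p) : 0 ≤ g50_7 n p := by
  unfold g50_7; positivity

noncomputable def g50_8 (n p : ℝ) : ℝ :=
  n ^ 6 + 14 * n ^ 5 * p + 80 * n ^ 4 * p ^ 2 + 240 * n ^ 3 * p ^ 3 + 400 * n ^ 2 * p ^ 4 +
  352 * n * p ^ 5 + 128 * p ^ 6 + 162 / 5 * n ^ 5 + 376 * n ^ 4 * p + 1712 * n ^ 3 * p ^ 2 +
  3840 * n ^ 2 * p ^ 3 + 4256 * n * p ^ 4 + 9344 / 5 * p ^ 5 + 2184 / 5 * n ^ 4 + 19876 / 5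
  * n ^ 3 * p + 13368 * n ^ 2 * p ^ 2 + 98736 / 5 * n * p ^ 3 + 54176 / 5 * p ^ 4 + 74516 /
  25 * n ^ 3 + 19700 * n ^ 2 * p + 1075808 / 25 * n * p ^ 2 + 777744 / 25 * p ^ 3 + 254228 /
  25 * n ^ 2 + 5383112 / 125 * n * p + 5681664 / 125 * p ^ 2 + 46914036 / 3125 * n +
  95436824 / 3125 * p + 97617032 / 15625

theorem g50_8_nn {n p : ℝ} (hn : 0 ≤ n) (hp : 0 ≤ p) : 0 ≤ g50_8 n p := by
  unfold g50_8; positivity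

noncomputable def g50_9 (n p : ℝ) : ℝ :=
  n ^ 6 + 14 * n ^ 5 * p + 80 * n ^ 4 * p ^ 2 + 240 * n ^ 3 * p ^ 3 + 400 * n ^ 2 * p ^ 4 +
  352 * n * p ^ 5 + 128 * p ^ 6 + 162 / 5 * n ^ 5 + 376 * n ^ 4 * p + 1712 * n ^ 3 * p ^ 2 +
  3840 * n ^ 2 * p ^ 3 + 4256 * n * p ^ 4 + 9344 / 5 * p ^ 5 + 2184 / 5 * n ^ 4 + 20176 / 5
  * n ^ 3 * p + 13728 * n ^ 2 * p ^ 2 + 102336 / 5 * n * p ^ 3 + 56576 / 5 * p ^ 4 + 78416 /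
  25 * n ^ 3 + 21392 * n ^ 2 * p + 1198208 / 25 * n * p ^ 2 + 884544 / 25 * p ^ 3 + 303368 /
  25 * n ^ 2 + 6650312 / 125 * n * p + 7233264 / 125 * p ^ 2 + 67650036 / 3125 * n +
  138987824 / 3125 * p + 171894032 / 15625

theorem g50_9_nn {n p : ℝ} (hn : 0 ≤ n) (hp : 0 ≤ p) : 0 ≤ g50_9 n p := by
  unfold g50_9; positivity

noncomputable def g50_10 (n p : ℝ) : ℝ :=
  n ^ 6 + 14 * n ^ 5 * p + 80 * n ^ 4 * p ^ 2 + 240 * n ^ 3 * p ^ 3 + 400 * n ^ 2 * p ^ 4 +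
  352 * n * p ^ 5 + 128 * p ^ 6 + 162 / 5 * n ^ 5 + 376 * n ^ 4 * p + 1712 * n ^ 3 * p ^ 2 +
  3840 * n ^ 2 * p ^ 3 + 4256 * n * p ^ 4 + 9344 / 5 * p ^ 5 + 2184 / 5 * n ^ 4 + 20176 / 5
  * n ^ 3 * p + 13728 * n ^ 2 * p ^ 2 + 102336 / 5 * n * p ^ 3 + 56576 / 5 * p ^ 4 + 78416 /
  25 * n ^ 3 + 21632 * n ^ 2 * p + 1222208 / 25 * n * p ^ 2 + 908544 / 25 * p ^ 3 + 315968 /
  25 * n ^ 2 + 7154312 / 125 * n * p + 7989264 / 125 * p ^ 2 + 80880036 / 3125 * n +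
  174552824 / 3125 * p + 277809032 / 15625

theorem g50_10_nn {n p : ℝ} (hn : 0 ≤ n) (hp : 0 ≤ p) : 0 ≤ g50_10 n p := by
  unfold g50_10; positivity

noncomputable def g50_11 (n p : ℝ) : ℝ :=
  n ^ 6 + 14 * n ^ 5 * p + 80 * n ^ 4 * p ^ 2 + 240 * n ^ 3 * p ^ 3 + 400 * n ^ 2 * p ^ 4 +
  352 * n * p ^ 5 + 128 * p ^ 6 + 162 / 5 * n ^ 5 + 376 * n ^ 4 * p + 1712 * n ^ 3 * p ^ 2 +
  3840 * n ^ 2 * p ^ 3 + 4256 * n * p ^ 4 + 9344 / 5 * p ^ 5 + 2184 / 5 * n ^ 4 + 20176 / 5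
  * n ^ 3 * p + 13728 * n ^ 2 * p ^ 2 + 102336 / 5 * n * p ^ 3 + 56576 / 5 * p ^ 4 + 78416 /
  25 * n ^ 3 + 21632 * n ^ 2 * p + 1222208 / 25 * n * p ^ 2 + 908544 / 25 * p ^ 3 + 315968 /
  25 * n ^ 2 + 7229312 / 125 * n * p + 8139264 / 125 * p ^ 2 + 84255036 / 3125 * n +
  189177824 / 3125 * p + 348684032 / 15625

theorem g50_11_nn {n p : ℝ} (hn : 0 ≤ n) (hp : 0 ≤ p) : 0 ≤ g50_11 n p := by
  unfold g50_11; positivity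

noncomputable def g50_12 (n p : ℝ) : ℝ :=
  n ^ 6 + 14 * n ^ 5 * p + 80 * n ^ 4 * p ^ 2 + 240 * n ^ 3 * p ^ 3 + 400 * n ^ 2 * p ^ 4 +
  352 * n * p ^ 5 + 128 * p ^ 6 + 162 / 5 * n ^ 5 + 376 * n ^ 4 * p + 1712 * n ^ 3 * p ^ 2 +
  3840 * n ^ 2 * p ^ 3 + 4256 * n * p ^ 4 + 9344 / 5 * p ^ 5 + 2184 / 5 * n ^ 4 + 20176 / 5
  * n ^ 3 * p + 13728 * n ^ 2 * p ^ 2 + 102336 / 5 * n * p ^ 3 + 56576 / 5 * p ^ 4 + 78416 /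
  25 * n ^ 3 + 21632 * n ^ 2 * p + 1222208 / 25 * n * p ^ 2 + 908544 / 25 * p ^ 3 + 315968 /
  25 * n ^ 2 + 7229312 / 125 * n * p + 8139264 / 125 * p ^ 2 + 84255036 / 3125 * n +
  191427824 / 3125 * p + 366684032 / 15625

theorem g50_12_nn {n p : ℝ} (hn : 0 ≤ n) (hp : 0 ≤ p) : 0 ≤ g50_12 n p := by
  unfold g50_12; positivity

theorem g50_nn {n p t : ℝ} (hn : 0 ≤ n) (hp : 0 ≤ p) (h0 : 0 < t) (h1 : t ≤ 1) :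
    0 ≤ (1 - t) * (g50_0 n p * t ^ 0 + g50_1 n p * t ^ 1 + g50_2 n p * t ^ 2 + g50_3 n p * t ^ 3 +
      g50_4 n p * t ^ 4 + g50_5 n p * t ^ 5 + g50_6 n p * t ^ 6 + g50_7 n p * t ^ 7 + g50_8
      n p * t ^ 8 + g50_9 n p * t ^ 9 + g50_10 n p * t ^ 10 + g50_11 n p * t ^ 11) + g50_12
      n p * t ^ 12 := by
  have e0 := g50_0_nn hn hp
  have e1 := g50_1_nn hn hp
  have e2 := g50_2_nn hn hp
  have e3 := g50_3_nn hn hp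
  have e4 := g50_4_nn hn hp
  have e5 := g50_5_nn hn hp
  have e6 := g50_6_nn hn hp
  have e7 := g50_7_nn hn hp
  have e8 := g50_8_nn hn hp
  have e9 := g50_9_nn hn hp
  have e10 := g50_10_nn hn hp
  have e11 := g50_11_nn hn hp
  have e12 := g50_12_nn hn hp
  have h2 : 0 ≤ 1 - t := by linarith
  exact add_nonneg (mul_nonneg h2 (by positivity)) (by positivity)

end Pool.Agent.KIQ.POLY

namespace Pool.Agent.KIQ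

open POLY

theorem PG5_0 {a q t : ℝ} (hq : 8 / 5 ≤ q) (ha : 2 * q + 1 ≤ a) (h0 : 0 < t) (h1 : t ≤ 1) :
    40 * t ^ 5 * ((q - 1) * t ^ 2 + a * t + q) + 16 * t ^ 4 * (pp 1 a q (iniG a q) 1 0).eval t + 12 * t ^ 5 * ((q - 1) + a * t + q * t ^ 2) ≤
      (pp 1 a q (iniG a q) 5 0).eval t := by
  obtain ⟨p, hp, rfl⟩ : ∃ p : ℝ, 0 ≤ p ∧ q = 8 / 5 + p := ⟨q - 8 / 5, by linarith, by ring⟩
  obtain ⟨n, hn, rfl⟩ : ∃ n : ℝ, 0 ≤ n ∧ a = 2 * (8 / 5 + p) + 1 + n :=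
    ⟨a - (2 * (8 / 5 + p) + 1), by linarith, by ring⟩
  simp only [fg_5_0, fg_1_0, eval_PL, evL]
  refine le_of_sub_nonneg (le_of_le_of_eq (g50_nn hn hp h0 h1) ?_)
  simp only [g50_0, g50_1, g50_2, g50_3, g50_4, g50_5, g50_6, g50_7, g50_8, g50_9, g50_10, g50_11,
    g50_12, fg_5_0_0, fg_5_0_1, fg_5_0_2, fg_5_0_3, fg_5_0_4, fg_5_0_5, fg_5_0_6, fg_5_0_7,
    fg_5_0_8, fg_5_0_9, fg_5_0_10, fg_5_0_11, fg_5_0_12, fg_1_0_0, fg_1_0_1, fg_1_0_2,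
    fg_1_0_3, fg_1_0_4]
  ring

end Pool.Agent.KIQ

namespace Pool.Agent.KIQ.POLY

noncomputable def g51_0 (n p : ℝ) : ℝ :=
  600 * p + 360

theorem g51_0_nn {n p : ℝ} (hn : 0 ≤ n) (hp : 0 ≤ p) : 0 ≤ g51_0 n p := by
  unfold g51_0; positivity

noncomputable def g51_1 (n p : ℝ) : ℝ :=
  600 * n * p + 1200 * p ^ 2 + 360 * n + 3840 * p + 1872

theorem g51_1_nn {n p : ℝ} (hn : 0 ≤ n) (hp : 0 ≤ p) : 0 ≤ g51_1 n p := by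
  unfold g51_1; positivity

noncomputable def g51_2 (n p : ℝ) : ℝ :=
  300 * n ^ 2 * p + 1200 * n * p ^ 2 + 1200 * p ^ 3 + 180 * n ^ 2 + 3840 * n * p + 7020 * p ^
  2 + 1872 * n + 11568 * p + 23364 / 5

theorem g51_2_nn {n p : ℝ} (hn : 0 ≤ n) (hp : 0 ≤ p) : 0 ≤ g51_2 n p := by
  unfold g51_2; positivity

noncomputable def g51_3 (n p : ℝ) : ℝ :=
  100 * n ^ 3 * p + 600 * n ^ 2 * p ^ 2 + 1200 * n * p ^ 3 + 800 * p ^ 4 + 60 * n ^ 3 + 1920 *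
  n ^ 2 * p + 7020 * n * p ^ 2 + 6840 * p ^ 3 + 936 * n ^ 2 + 11768 * n * p + 20104 * p ^ 2
  + 23964 / 5 * n + 115944 / 5 * p + 40248 / 5

theorem g51_3_nn {n p : ℝ} (hn : 0 ≤ n) (hp : 0 ≤ p) : 0 ≤ g51_3 n p := by
  unfold g51_3; positivity

noncomputable def g51_4 (n p : ℝ) : ℝ :=
  25 * n ^ 4 * p + 200 * n ^ 3 * p ^ 2 + 600 * n ^ 2 * p ^ 3 + 800 * n * p ^ 4 + 400 * p ^ 5 +
  15 * n ^ 4 + 640 * n ^ 3 * p + 3510 * n ^ 2 * p ^ 2 + 6840 * n * p ^ 3 + 4520 * p ^ 4 +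
  312 * n ^ 3 + 5984 * n ^ 2 * p + 20504 * n * p ^ 2 + 19568 * p ^ 3 + 12282 / 5 * n ^ 2 +
  122344 / 5 * n * p + 199616 / 5 * p ^ 2 + 43368 / 5 * n + 928512 / 25 * p + 1447992 / 125

theorem g51_4_nn {n p : ℝ} (hn : 0 ≤ n) (hp : 0 ≤ p) : 0 ≤ g51_4 n p := by
  unfold g51_4; positivity

noncomputable def g51_5 (n p : ℝ) : ℝ :=
  5 * n ^ 5 * p + 50 * n ^ 4 * p ^ 2 + 200 * n ^ 3 * p ^ 3 + 400 * n ^ 2 * p ^ 4 + 400 * n * p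
  ^ 5 + 160 * p ^ 6 + 3 * n ^ 5 + 160 * n ^ 4 * p + 1170 * n ^ 3 * p ^ 2 + 3420 * n ^ 2 * p
  ^ 3 + 4520 * n * p ^ 4 + 2256 * p ^ 5 + 78 * n ^ 4 + 2028 * n ^ 3 * p + 10452 * n ^ 2 * p
  ^ 2 + 19968 * n * p ^ 3 + 13104 * p ^ 4 + 4194 / 5 * n ^ 3 + 64372 / 5 * n ^ 2 * p +
  211316 / 5 * n * p ^ 2 + 198696 / 5 * p ^ 3 + 23244 / 5 * n ^ 2 + 1027912 / 25 * n * p +
  1628696 / 25 * p ^ 2 + 1651692 / 125 * n + 32998556 / 625 * p + 47621068 / 3125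

theorem g51_5_nn {n p : ℝ} (hn : 0 ≤ n) (hp : 0 ≤ p) : 0 ≤ g51_5 n p := by
  unfold g51_5; positivity

noncomputable def g51_6 (n p : ℝ) : ℝ :=
  5 * n ^ 6 + 65 * n ^ 5 * p + 355 * n ^ 4 * p ^ 2 + 1040 * n ^ 3 * p ^ 3 + 1720 * n ^ 2 * p ^
  4 + 1520 * n * p ^ 5 + 560 * p ^ 6 + 129 * n ^ 5 + 1406 * n ^ 4 * p + 6182 * n ^ 3 * p ^ 2
  + 13668 * n ^ 2 * p ^ 3 + 15160 * n * p ^ 4 + 6736 * p ^ 5 + 6479 / 5 * n ^ 4 + 57676 / 5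
  * n ^ 3 * p + 194036 / 5 * n ^ 2 * p ^ 2 + 58272 * n * p ^ 3 + 32864 * p ^ 4 + 162006 / 25
  * n ^ 3 + 1140832 / 25 * n ^ 2 * p + 535836 / 5 * n * p ^ 2 + 418216 / 5 * p ^ 3 + 2197344
  / 125 * n ^ 2 + 2299504 / 25 * n * p + 2920316 / 25 * p ^ 2 + 17045072 / 625 * n +
  51814596 / 625 * p + 67896508 / 3125

theorem g51_6_nn {n p : ℝ} (hn : 0 ≤ n) (hp : 0 ≤ p) : 0 ≤ g51_6 n p := by
  unfold g51_6; positivity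

noncomputable def g51_7 (n p : ℝ) : ℝ :=
  5 * n ^ 6 + 75 * n ^ 5 * p + 455 * n ^ 4 * p ^ 2 + 1440 * n ^ 3 * p ^ 3 + 2520 * n ^ 2 * p ^
  4 + 2320 * n * p ^ 5 + 880 * p ^ 6 + 180 * n ^ 5 + 2126 * n ^ 4 * p + 9902 * n ^ 3 * p ^ 2
  + 22788 * n ^ 2 * p ^ 3 + 25960 * n * p ^ 4 + 11728 * p ^ 5 + 11834 / 5 * n ^ 4 + 107136 /
  5 * n ^ 3 * p + 362276 / 5 * n ^ 2 * p ^ 2 + 108432 * n * p ^ 3 + 60592 * p ^ 4 + 359066 /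
  25 * n ^ 3 + 2369812 / 25 * n ^ 2 * p + 1047576 / 5 * n * p ^ 2 + 773808 / 5 * p ^ 3 +
  5165904 / 125 * n ^ 2 + 4563944 / 25 * n * p + 5105848 / 25 * p ^ 2 + 32894052 / 625 * n +
  79947808 / 625 * p + 83151184 / 3125

theorem g51_7_nn {n p : ℝ} (hn : 0 ≤ n) (hp : 0 ≤ p) : 0 ≤ g51_7 n p := by
  unfold g51_7; positivity

noncomputable def g51_8 (n p : ℝ) : ℝ :=
  5 * n ^ 6 + 75 * n ^ 5 * p + 460 * n ^ 4 * p ^ 2 + 1480 * n ^ 3 * p ^ 3 + 2640 * n ^ 2 * p ^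
  4 + 2480 * n * p ^ 5 + 960 * p ^ 6 + 180 * n ^ 5 + 2252 * n ^ 4 * p + 10994 * n ^ 3 * p ^
  2 + 26316 * n ^ 2 * p ^ 3 + 31000 * n * p ^ 4 + 14416 * p ^ 5 + 13628 / 5 * n ^ 4 + 132072
  / 5 * n ^ 3 * p + 470182 / 5 * n ^ 2 * p ^ 2 + 146392 * n * p ^ 3 + 84344 * p ^ 4 + 509762
  / 25 * n ^ 3 + 3520084 / 25 * n ^ 2 * p + 1602612 / 5 * n * p ^ 2 + 1204776 / 5 * p ^ 3 +
  9141378 / 125 * n ^ 2 + 7944512 / 25 * n * p + 8644216 / 25 * p ^ 2 + 66950088 / 625 * n +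
  139753936 / 625 * p + 126670648 / 3125

theorem g51_8_nn {n p : ℝ} (hn : 0 ≤ n) (hp : 0 ≤ p) : 0 ≤ g51_8 n p := by
  unfold g51_8; positivity

noncomputable def g51_9 (n p : ℝ) : ℝ :=
  5 * n ^ 6 + 75 * n ^ 5 * p + 460 * n ^ 4 * p ^ 2 + 1480 * n ^ 3 * p ^ 3 + 2640 * n ^ 2 * p ^
  4 + 2480 * n * p ^ 5 + 960 * p ^ 6 + 180 * n ^ 5 + 2252 * n ^ 4 * p + 11064 * n ^ 3 * p ^
  2 + 26736 * n ^ 2 * p ^ 3 + 31840 * n * p ^ 4 + 14976 * p ^ 5 + 13628 / 5 * n ^ 4 + 136592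
  / 5 * n ^ 3 * p + 501712 / 5 * n ^ 2 * p ^ 2 + 160768 * n * p ^ 3 + 95104 * p ^ 4 + 555692
  / 25 * n ^ 3 + 4080424 / 25 * n ^ 2 * p + 1950424 / 5 * n * p ^ 2 + 1525616 / 5 * p ^ 3 +
  12034968 / 125 * n ^ 2 + 11109376 / 25 * n * p + 12604976 / 25 * p ^ 2 + 115644228 / 625 *
  n + 242671936 / 625 * p + 298532128 / 3125

theorem g51_9_nn {n p : ℝ} (hn : 0 ≤ n) (hp : 0 ≤ p) : 0 ≤ g51_9 n p := by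
  unfold g51_9; positivity

noncomputable def g51_10 (n p : ℝ) : ℝ :=
  5 * n ^ 6 + 75 * n ^ 5 * p + 460 * n ^ 4 * p ^ 2 + 1480 * n ^ 3 * p ^ 3 + 2640 * n ^ 2 * p ^
  4 + 2480 * n * p ^ 5 + 960 * p ^ 6 + 180 * n ^ 5 + 2252 * n ^ 4 * p + 11064 * n ^ 3 * p ^
  2 + 26736 * n ^ 2 * p ^ 3 + 31840 * n * p ^ 4 + 14976 * p ^ 5 + 13628 / 5 * n ^ 4 + 136592
  / 5 * n ^ 3 * p + 504112 / 5 * n ^ 2 * p ^ 2 + 162688 * n * p ^ 3 + 97024 * p ^ 4 + 555692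
  / 25 * n ^ 3 + 4184824 / 25 * n ^ 2 * p + 2054104 / 5 * n * p ^ 2 + 1649456 / 5 * p ^ 3 +
  12866568 / 125 * n ^ 2 + 12651616 / 25 * n * p + 15133856 / 25 * p ^ 2 + 150571428 / 625 *
  n + 343806736 / 625 * p + 579827728 / 3125

theorem g51_10_nn {n p : ℝ} (hn : 0 ≤ n) (hp : 0 ≤ p) : 0 ≤ g51_10 n p := by
  unfold g51_10; positivity

noncomputable def g51_11 (n p : ℝ) : ℝ :=
  5 * n ^ 6 + 75 * n ^ 5 * p + 460 * n ^ 4 * p ^ 2 + 1480 * n ^ 3 * p ^ 3 + 2640 * n ^ 2 * p ^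
  4 + 2480 * n * p ^ 5 + 960 * p ^ 6 + 180 * n ^ 5 + 2252 * n ^ 4 * p + 11064 * n ^ 3 * p ^
  2 + 26736 * n ^ 2 * p ^ 3 + 31840 * n * p ^ 4 + 14976 * p ^ 5 + 13628 / 5 * n ^ 4 + 136592
  / 5 * n ^ 3 * p + 504112 / 5 * n ^ 2 * p ^ 2 + 162688 * n * p ^ 3 + 97024 * p ^ 4 + 555692
  / 25 * n ^ 3 + 4184824 / 25 * n ^ 2 * p + 2063104 / 5 * n * p ^ 2 + 1667456 / 5 * p ^ 3 +
  12866568 / 125 * n ^ 2 + 12945616 / 25 * n * p + 15910856 / 25 * p ^ 2 + 160201428 / 625 *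
  n + 393936736 / 625 * p + 782057728 / 3125

theorem g51_11_nn {n p : ℝ} (hn : 0 ≤ n) (hp : 0 ≤ p) : 0 ≤ g51_11 n p := by
  unfold g51_11; positivity

noncomputable def g51_12 (n p : ℝ) : ℝ :=
  5 * n ^ 6 + 75 * n ^ 5 * p + 460 * n ^ 4 * p ^ 2 + 1480 * n ^ 3 * p ^ 3 + 2640 * n ^ 2 * p ^
  4 + 2480 * n * p ^ 5 + 960 * p ^ 6 + 180 * n ^ 5 + 2252 * n ^ 4 * p + 11064 * n ^ 3 * p ^
  2 + 26736 * n ^ 2 * p ^ 3 + 31840 * n * p ^ 4 + 14976 * p ^ 5 + 13628 / 5 * n ^ 4 + 136592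
  / 5 * n ^ 3 * p + 504112 / 5 * n ^ 2 * p ^ 2 + 162688 * n * p ^ 3 + 97024 * p ^ 4 + 555692
  / 25 * n ^ 3 + 4184824 / 25 * n ^ 2 * p + 2063104 / 5 * n * p ^ 2 + 1667456 / 5 * p ^ 3 +
  12866568 / 125 * n ^ 2 + 12945616 / 25 * n * p + 15985856 / 25 * p ^ 2 + 160201428 / 625 *
  n + 403686736 / 625 * p + 836057728 / 3125

theorem g51_12_nn {n p : ℝ} (hn : 0 ≤ n) (hp : 0 ≤ p) : 0 ≤ g51_12 n p := by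
  unfold g51_12; positivity

theorem g51_nn {n p t : ℝ} (hn : 0 ≤ n) (hp : 0 ≤ p) (h0 : 0 < t) (h1 : t ≤ 1) :
    0 ≤ (1 - t) * (g51_0 n p * t ^ 0 + g51_1 n p * t ^ 1 + g51_2 n p * t ^ 2 + g51_3 n p * t ^ 3 +
      g51_4 n p * t ^ 4 + g51_5 n p * t ^ 5 + g51_6 n p * t ^ 6 + g51_7 n p * t ^ 7 + g51_8
      n p * t ^ 8 + g51_9 n p * t ^ 9 + g51_10 n p * t ^ 10 + g51_11 n p * t ^ 11) + g51_12
      n p * t ^ 12 := by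
  have e0 := g51_0_nn hn hp
  have e1 := g51_1_nn hn hp
  have e2 := g51_2_nn hn hp
  have e3 := g51_3_nn hn hp
  have e4 := g51_4_nn hn hp
  have e5 := g51_5_nn hn hp
  have e6 := g51_6_nn hn hp
  have e7 := g51_7_nn hn hp
  have e8 := g51_8_nn hn hp
  have e9 := g51_9_nn hn hp
  have e10 := g51_10_nn hn hp
  have e11 := g51_11_nn hn hp
  have e12 := g51_12_nn hn hp
  have h2 : 0 ≤ 1 - t := by linarith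
  exact add_nonneg (mul_nonneg h2 (by positivity)) (by positivity)

end Pool.Agent.KIQ.POLY

namespace Pool.Agent.KIQ

open POLY

theorem PG5_1 {a q t : ℝ} (hq : 8 / 5 ≤ q) (ha : 2 * q + 1 ≤ a) (h0 : 0 < t) (h1 : t ≤ 1) :
    40 * t ^ 5 * ((q - 1) * t ^ 2 + a * t + q) +
      16 * t ^ 4 * (2 * (pp 1 a q (iniG a q) 1 0).eval t + (pp 1 a q (iniG a q) 1 1).eval t) +
      36 * t ^ 5 * ((q - 1) + a * t + q * t ^ 2) ≤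
      (pp 1 a q (iniG a q) 5 1).eval t := by
  obtain ⟨p, hp, rfl⟩ : ∃ p : ℝ, 0 ≤ p ∧ q = 8 / 5 + p := ⟨q - 8 / 5, by linarith, by ring⟩
  obtain ⟨n, hn, rfl⟩ : ∃ n : ℝ, 0 ≤ n ∧ a = 2 * (8 / 5 + p) + 1 + n :=
    ⟨a - (2 * (8 / 5 + p) + 1), by linarith, by ring⟩
  simp only [fg_5_1, fg_1_0, fg_1_1, eval_PL, evL]
  refine le_of_sub_nonneg (le_of_le_of_eq (g51_nn hn hp h0 h1) ?_)
  simp only [g51_0, g51_1, g51_2, g51_3, g51_4, g51_5, g51_6, g51_7, g51_8, g51_9, g51_10, g51_11,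
    g51_12, fg_5_1_0, fg_5_1_1, fg_5_1_2, fg_5_1_3, fg_5_1_4, fg_5_1_5, fg_5_1_6, fg_5_1_7,
    fg_5_1_8, fg_5_1_9, fg_5_1_10, fg_5_1_11, fg_5_1_12, fg_1_0_0, fg_1_0_1, fg_1_0_2,
    fg_1_0_3, fg_1_0_4, fg_1_1_0, fg_1_1_1, fg_1_1_2, fg_1_1_3, fg_1_1_4]
  ring

end Pool.Agent.KIQ

namespace Pool.Agent.KIQ.POLY

noncomputable def g52_0 (n p : ℝ) : ℝ :=
  1200 * p + 720

theorem g52_0_nn {n p : ℝ} (hn : 0 ≤ n) (hp : 0 ≤ p) : 0 ≤ g52_0 n p := by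
  unfold g52_0; positivity

noncomputable def g52_1 (n p : ℝ) : ℝ :=
  1200 * n * p + 2400 * p ^ 2 + 720 * n + 7680 * p + 3744

theorem g52_1_nn {n p : ℝ} (hn : 0 ≤ n) (hp : 0 ≤ p) : 0 ≤ g52_1 n p := by
  unfold g52_1; positivity

noncomputable def g52_2 (n p : ℝ) : ℝ :=
  600 * n ^ 2 * p + 2400 * n * p ^ 2 + 2400 * p ^ 3 + 360 * n ^ 2 + 7680 * n * p + 14160 * p ^
  2 + 3744 * n + 23760 * p + 48384 / 5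

theorem g52_2_nn {n p : ℝ} (hn : 0 ≤ n) (hp : 0 ≤ p) : 0 ≤ g52_2 n p := by
  unfold g52_2; positivity

noncomputable def g52_3 (n p : ℝ) : ℝ :=
  200 * n ^ 3 * p + 1200 * n ^ 2 * p ^ 2 + 2400 * n * p ^ 3 + 1600 * p ^ 4 + 120 * n ^ 3 +
  3840 * n ^ 2 * p + 14160 * n * p ^ 2 + 13920 * p ^ 3 + 1872 * n ^ 2 + 24160 * n * p +
  42080 * p ^ 2 + 49584 / 5 * n + 251424 / 5 * p + 445536 / 25

theorem g52_3_nn {n p : ℝ} (hn : 0 ≤ n) (hp : 0 ≤ p) : 0 ≤ g52_3 n p := by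
  unfold g52_3; positivity

noncomputable def g52_4 (n p : ℝ) : ℝ :=
  50 * n ^ 4 * p + 400 * n ^ 3 * p ^ 2 + 1200 * n ^ 2 * p ^ 3 + 1600 * n * p ^ 4 + 800 * p ^ 5
  + 30 * n ^ 4 + 1280 * n ^ 3 * p + 7080 * n ^ 2 * p ^ 2 + 13920 * n * p ^ 3 + 9280 * p ^ 4
  + 624 * n ^ 3 + 12280 * n ^ 2 * p + 42880 * n * p ^ 2 + 41647 * p ^ 3 + 25392 / 5 * n ^ 2
  + 264224 / 5 * n * p + 443689 / 5 * p ^ 2 + 476736 / 25 * n + 2160153 / 25 * p + 3469167 /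
  125

theorem g52_4_nn {n p : ℝ} (hn : 0 ≤ n) (hp : 0 ≤ p) : 0 ≤ g52_4 n p := by
  unfold g52_4; positivity

noncomputable def g52_5 (n p : ℝ) : ℝ :=
  10 * n ^ 5 * p + 100 * n ^ 4 * p ^ 2 + 400 * n ^ 3 * p ^ 3 + 800 * n ^ 2 * p ^ 4 + 800 * n *
  p ^ 5 + 320 * p ^ 6 + 6 * n ^ 5 + 320 * n ^ 4 * p + 2360 * n ^ 3 * p ^ 2 + 6960 * n ^ 2 *
  p ^ 3 + 9280 * n * p ^ 4 + 4672 * p ^ 5 + 156 * n ^ 4 + 4160 * n ^ 3 * p + 21840 * n ^ 2 *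
  p ^ 2 + 42447 * n * p ^ 3 + 28318 * p ^ 4 + 8664 / 5 * n ^ 3 + 138512 / 5 * n ^ 2 * p +
  467289 / 5 * n * p ^ 2 + 450232 / 5 * p ^ 3 + 253968 / 25 * n ^ 2 + 2364153 / 25 * n * p +
  3878652 / 25 * p ^ 2 + 3890367 / 125 * n + 82548612 / 625 * p + 123507666 / 3125

theorem g52_5_nn {n p : ℝ} (hn : 0 ≤ n) (hp : 0 ≤ p) : 0 ≤ g52_5 n p := by
  unfold g52_5; positivity

noncomputable def g52_6 (n p : ℝ) : ℝ :=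
  10 * n ^ 6 + 130 * n ^ 5 * p + 720 * n ^ 4 * p ^ 2 + 2160 * n ^ 3 * p ^ 3 + 3680 * n ^ 2 * p
  ^ 4 + 3360 * n * p ^ 5 + 1280 * p ^ 6 + 258 * n ^ 5 + 2834 * n ^ 4 * p + 12728 * n ^ 3 * p
  ^ 2 + 28992 * n ^ 2 * p ^ 3 + 33280 * n * p ^ 4 + 15328 * p ^ 5 + 12806 / 5 * n ^ 4 +
  116504 / 5 * n ^ 3 * p + 405809 / 5 * n ^ 2 * p ^ 2 + 127011 * n * p ^ 3 + 74802 * p ^ 4 +
  312624 / 25 * n ^ 3 + 2322808 / 25 * n ^ 2 * p + 1158363 / 5 * n * p ^ 2 + 959143 / 5 * p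
  ^ 3 + 4179311 / 125 * n ^ 2 + 4901797 / 25 * n * p + 6813733 / 25 * p ^ 2 + 34792221 / 625
  * n + 124343673 / 625 * p + 168803109 / 3125

theorem g52_6_nn {n p : ℝ} (hn : 0 ≤ n) (hp : 0 ≤ p) : 0 ≤ g52_6 n p := by
  unfold g52_6; positivity

noncomputable def g52_7 (n p : ℝ) : ℝ :=
  10 * n ^ 6 + 160 * n ^ 5 * p + 1020 * n ^ 4 * p ^ 2 + 3370 * n ^ 3 * p ^ 3 + 6140 * n ^ 2 *
  p ^ 4 + 5880 * n * p ^ 5 + 2320 * p ^ 6 + 396 * n ^ 5 + 4844 * n ^ 4 * p + 23316 * n ^ 3 *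
  p ^ 2 + 55446 * n ^ 2 * p ^ 3 + 65320 * n * p ^ 4 + 30552 * p ^ 5 + 27296 / 5 * n ^ 4 +
  252473 / 5 * n ^ 3 * p + 875627 / 5 * n ^ 2 * p ^ 2 + 269780 * n * p ^ 3 + 155668 * p ^ 4
  + 839898 / 25 * n ^ 3 + 5638219 / 25 * n ^ 2 * p + 2559868 / 5 * n * p ^ 2 + 1956642 / 5 *
  p ^ 3 + 11837213 / 125 * n ^ 2 + 10782304 / 25 * n * p + 12652012 / 25 * p ^ 2 + 71183148
  / 625 * n + 192018612 / 625 * p + 184358556 / 3125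

theorem g52_7_nn {n p : ℝ} (hn : 0 ≤ n) (hp : 0 ≤ p) : 0 ≤ g52_7 n p := by
  unfold g52_7; positivity

noncomputable def g52_8 (n p : ℝ) : ℝ :=
  10 * n ^ 6 + 160 * n ^ 5 * p + 1050 * n ^ 4 * p ^ 2 + 3610 * n ^ 3 * p ^ 3 + 6860 * n ^ 2 *
  p ^ 4 + 6840 * n * p ^ 5 + 2800 * p ^ 6 + 396 * n ^ 5 + 5300 * n ^ 4 * p + 27468 * n ^ 3 *
  p ^ 2 + 69444 * n ^ 2 * p ^ 3 + 86080 * n * p ^ 4 + 42000 * p ^ 5 + 6607 * n ^ 4 + 336689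
  / 5 * n ^ 3 * p + 1252433 / 5 * n ^ 2 * p ^ 2 + 406088 * n * p ^ 3 + 243220 * p ^ 4 +
  1321974 / 25 * n ^ 3 + 9421786 / 25 * n ^ 2 * p + 883700 * n * p ^ 2 + 684429 * p ^ 3 +
  24469817 / 125 * n ^ 2 + 21616894 / 25 * n * p + 4809119 / 5 * p ^ 2 + 176561484 / 625 * n
  + 74789211 / 125 * p + 2337957 / 25

theorem g52_8_nn {n p : ℝ} (hn : 0 ≤ n) (hp : 0 ≤ p) : 0 ≤ g52_8 n p := by
  unfold g52_8; positivity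

noncomputable def g52_9 (n p : ℝ) : ℝ :=
  10 * n ^ 6 + 160 * n ^ 5 * p + 1050 * n ^ 4 * p ^ 2 + 3620 * n ^ 3 * p ^ 3 + 6920 * n ^ 2 *
  p ^ 4 + 6960 * n * p ^ 5 + 2880 * p ^ 6 + 396 * n ^ 5 + 5300 * n ^ 4 * p + 27936 * n ^ 3 *
  p ^ 2 + 72378 * n ^ 2 * p ^ 3 + 92200 * n * p ^ 4 + 46248 * p ^ 5 + 6607 * n ^ 4 + 355218
  / 5 * n ^ 3 * p + 1393091 / 5 * n ^ 2 * p ^ 2 + 474349 * n * p ^ 3 + 296862 * p ^ 4 +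
  1485528 / 25 * n ^ 3 + 11570437 / 25 * n ^ 2 * p + 5815699 / 5 * n * p ^ 2 + 4756188 / 5 *
  p ^ 3 + 34773719 / 125 * n ^ 2 + 33360539 / 25 * n * p + 39043068 / 25 * p ^ 2 + 349848801
  / 625 * n + 744881508 / 625 * p + 901931094 / 3125

theorem g52_9_nn {n p : ℝ} (hn : 0 ≤ n) (hp : 0 ≤ p) : 0 ≤ g52_9 n p := by
  unfold g52_9; positivity

noncomputable def g52_10 (n p : ℝ) : ℝ :=
  10 * n ^ 6 + 160 * n ^ 5 * p + 1050 * n ^ 4 * p ^ 2 + 3620 * n ^ 3 * p ^ 3 + 6920 * n ^ 2 *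
  p ^ 4 + 6960 * n * p ^ 5 + 2880 * p ^ 6 + 396 * n ^ 5 + 5300 * n ^ 4 * p + 27936 * n ^ 3 *
  p ^ 2 + 72528 * n ^ 2 * p ^ 3 + 92800 * n * p ^ 4 + 46848 * p ^ 5 + 6607 * n ^ 4 + 355218
  / 5 * n ^ 3 * p + 1410416 / 5 * n ^ 2 * p ^ 2 + 489469 * n * p ^ 3 + 313242 * p ^ 4 +
  1485528 / 25 * n ^ 3 + 12036712 / 25 * n ^ 2 * p + 6334249 / 5 * n * p ^ 2 + 5424573 / 5 *
  p ^ 3 + 37950044 / 125 * n ^ 2 + 39818309 / 25 * n * p + 50270163 / 25 * p ^ 2 + 483254451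
  / 625 * n + 1153252083 / 625 * p + 1983442419 / 3125

theorem g52_10_nn {n p : ℝ} (hn : 0 ≤ n) (hp : 0 ≤ p) : 0 ≤ g52_10 n p := by
  unfold g52_10; positivity

noncomputable def g52_11 (n p : ℝ) : ℝ :=
  10 * n ^ 6 + 160 * n ^ 5 * p + 1050 * n ^ 4 * p ^ 2 + 3620 * n ^ 3 * p ^ 3 + 6920 * n ^ 2 *
  p ^ 4 + 6960 * n * p ^ 5 + 2880 * p ^ 6 + 396 * n ^ 5 + 5300 * n ^ 4 * p + 27936 * n ^ 3 *
  p ^ 2 + 72528 * n ^ 2 * p ^ 3 + 92800 * n * p ^ 4 + 46848 * p ^ 5 + 6607 * n ^ 4 + 355218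
  / 5 * n ^ 3 * p + 1410416 / 5 * n ^ 2 * p ^ 2 + 490384 * n * p ^ 3 + 315072 * p ^ 4 +
  1485528 / 25 * n ^ 3 + 12036712 / 25 * n ^ 2 * p + 6402784 / 5 * n * p ^ 2 + 5580858 / 5 *
  p ^ 3 + 37950044 / 125 * n ^ 2 + 41209064 / 25 * n * p + 54490908 / 25 * p ^ 2 + 521686476
  / 625 * n + 1376145408 / 625 * p + 2790514944 / 3125

theorem g52_11_nn {n p : ℝ} (hn : 0 ≤ n) (hp : 0 ≤ p) : 0 ≤ g52_11 n p := by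
  unfold g52_11; positivity

noncomputable def g52_12 (n p : ℝ) : ℝ :=
  10 * n ^ 6 + 160 * n ^ 5 * p + 1050 * n ^ 4 * p ^ 2 + 3620 * n ^ 3 * p ^ 3 + 6920 * n ^ 2 *
  p ^ 4 + 6960 * n * p ^ 5 + 2880 * p ^ 6 + 396 * n ^ 5 + 5300 * n ^ 4 * p + 27936 * n ^ 3 *
  p ^ 2 + 72528 * n ^ 2 * p ^ 3 + 92800 * n * p ^ 4 + 46848 * p ^ 5 + 6607 * n ^ 4 + 355218
  / 5 * n ^ 3 * p + 1410416 / 5 * n ^ 2 * p ^ 2 + 490384 * n * p ^ 3 + 315072 * p ^ 4 +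
  1485528 / 25 * n ^ 3 + 12036712 / 25 * n ^ 2 * p + 6402784 / 5 * n * p ^ 2 + 5591808 / 5 *
  p ^ 3 + 37950044 / 125 * n ^ 2 + 41209064 / 25 * n * p + 55082208 / 25 * p ^ 2 + 521686476
  / 625 * n + 1423887408 / 625 * p + 3011266944 / 3125

theorem g52_12_nn {n p : ℝ} (hn : 0 ≤ n) (hp : 0 ≤ p) : 0 ≤ g52_12 n p := by
  unfold g52_12; positivity

theorem g52_nn {n p t : ℝ} (hn : 0 ≤ n) (hp : 0 ≤ p) (h0 : 0 < t) (h1 : t ≤ 1) :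
    0 ≤ (1 - t) * (g52_0 n p * t ^ 0 + g52_1 n p * t ^ 1 + g52_2 n p * t ^ 2 + g52_3 n p * t ^ 3 +
      g52_4 n p * t ^ 4 + g52_5 n p * t ^ 5 + g52_6 n p * t ^ 6 + g52_7 n p * t ^ 7 + g52_8
      n p * t ^ 8 + g52_9 n p * t ^ 9 + g52_10 n p * t ^ 10 + g52_11 n p * t ^ 11) + g52_12
      n p * t ^ 12 := by
  have e0 := g52_0_nn hn hp
  have e1 := g52_1_nn hn hp
  have e2 := g52_2_nn hn hp
  have e3 := g52_3_nn hn hp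
  have e4 := g52_4_nn hn hp
  have e5 := g52_5_nn hn hp
  have e6 := g52_6_nn hn hp
  have e7 := g52_7_nn hn hp
  have e8 := g52_8_nn hn hp
  have e9 := g52_9_nn hn hp
  have e10 := g52_10_nn hn hp
  have e11 := g52_11_nn hn hp
  have e12 := g52_12_nn hn hp
  have h2 : 0 ≤ 1 - t := by linarith
  exact add_nonneg (mul_nonneg h2 (by positivity)) (by positivity)

end Pool.Agent.KIQ.POLY

namespace Pool.Agent.KIQ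

open POLY

theorem PG5_2 {a q t : ℝ} (hq : 8 / 5 ≤ q) (ha : 2 * q + 1 ≤ a) (h0 : 0 < t) (h1 : t ≤ 1) :
    16 * t ^ 4 * ((pp 1 a q (iniG a q) 1 0).eval t + 2 * (pp 1 a q (iniG a q) 1 1).eval t) +
      36 * t ^ 5 * ((q - 1) + a * t + q * t ^ 2) ≤
      (pp 1 a q (iniG a q) 5 2).eval t := by
  obtain ⟨p, hp, rfl⟩ : ∃ p : ℝ, 0 ≤ p ∧ q = 8 / 5 + p := ⟨q - 8 / 5, by linarith, by ring⟩
  obtain ⟨n, hn, rfl⟩ : ∃ n : ℝ, 0 ≤ n ∧ a = 2 * (8 / 5 + p) + 1 + n :=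
    ⟨a - (2 * (8 / 5 + p) + 1), by linarith, by ring⟩
  simp only [fg_5_2, fg_1_0, fg_1_1, eval_PL, evL]
  refine le_of_sub_nonneg (le_of_le_of_eq (g52_nn hn hp h0 h1) ?_)
  simp only [g52_0, g52_1, g52_2, g52_3, g52_4, g52_5, g52_6, g52_7, g52_8, g52_9, g52_10, g52_11,
    g52_12, fg_5_2_0, fg_5_2_1, fg_5_2_2, fg_5_2_3, fg_5_2_4, fg_5_2_5, fg_5_2_6, fg_5_2_7,
    fg_5_2_8, fg_5_2_9, fg_5_2_10, fg_5_2_11, fg_5_2_12, fg_1_0_0, fg_1_0_1, fg_1_0_2,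
    fg_1_0_3, fg_1_0_4, fg_1_1_0, fg_1_1_1, fg_1_1_2, fg_1_1_3, fg_1_1_4]
  ring

end Pool.Agent.KIQ

namespace Pool.Agent.KIQ.POLY

noncomputable def g53_0 (n p : ℝ) : ℝ :=
  1200 * p + 720

theorem g53_0_nn {n p : ℝ} (hn : 0 ≤ n) (hp : 0 ≤ p) : 0 ≤ g53_0 n p := by
  unfold g53_0; positivity

noncomputable def g53_1 (n p : ℝ) : ℝ :=
  1200 * n * p + 2400 * p ^ 2 + 720 * n + 7680 * p + 3744

theorem g53_1_nn {n p : ℝ} (hn : 0 ≤ n) (hp : 0 ≤ p) : 0 ≤ g53_1 n p := by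
  unfold g53_1; positivity

noncomputable def g53_2 (n p : ℝ) : ℝ :=
  600 * n ^ 2 * p + 2400 * n * p ^ 2 + 2400 * p ^ 3 + 360 * n ^ 2 + 7680 * n * p + 14280 * p ^
  2 + 3744 * n + 24384 * p + 10008

theorem g53_2_nn {n p : ℝ} (hn : 0 ≤ n) (hp : 0 ≤ p) : 0 ≤ g53_2 n p := by
  unfold g53_2; positivity

noncomputable def g53_3 (n p : ℝ) : ℝ :=
  200 * n ^ 3 * p + 1200 * n ^ 2 * p ^ 2 + 2400 * n * p ^ 3 + 1600 * p ^ 4 + 120 * n ^ 3 +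
  3840 * n ^ 2 * p + 14280 * n * p ^ 2 + 14160 * p ^ 3 + 1872 * n ^ 2 + 24784 * n * p +
  43952 * p ^ 2 + 10248 * n + 54192 * p + 488592 / 25

theorem g53_3_nn {n p : ℝ} (hn : 0 ≤ n) (hp : 0 ≤ p) : 0 ≤ g53_3 n p := by
  unfold g53_3; positivity

noncomputable def g53_4 (n p : ℝ) : ℝ :=
  50 * n ^ 4 * p + 400 * n ^ 3 * p ^ 2 + 1200 * n ^ 2 * p ^ 3 + 1600 * n * p ^ 4 + 800 * p ^ 5
  + 30 * n ^ 4 + 1280 * n ^ 3 * p + 7140 * n ^ 2 * p ^ 2 + 14160 * n * p ^ 3 + 9520 * p ^ 4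
  + 624 * n ^ 3 + 12592 * n ^ 2 * p + 44752 * n * p ^ 2 + 44173 * p ^ 3 + 5244 * n ^ 2 +
  56752 * n * p + 488731 / 5 * p ^ 2 + 519792 / 25 * n + 2469387 / 25 * p + 811161 / 25

theorem g53_4_nn {n p : ℝ} (hn : 0 ≤ n) (hp : 0 ≤ p) : 0 ≤ g53_4 n p := by
  unfold g53_4; positivity

noncomputable def g53_5 (n p : ℝ) : ℝ :=
  10 * n ^ 5 * p + 100 * n ^ 4 * p ^ 2 + 400 * n ^ 3 * p ^ 3 + 800 * n ^ 2 * p ^ 4 + 800 * n *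
  p ^ 5 + 320 * p ^ 6 + 6 * n ^ 5 + 320 * n ^ 4 * p + 2380 * n ^ 3 * p ^ 2 + 7080 * n ^ 2 *
  p ^ 3 + 9520 * n * p ^ 4 + 4832 * p ^ 5 + 156 * n ^ 4 + 4264 * n ^ 3 * p + 22776 * n ^ 2 *
  p ^ 2 + 44973 * n * p ^ 3 + 30458 * p ^ 4 + 1788 * n ^ 3 + 29656 * n ^ 2 * p + 512531 / 5
  * n * p ^ 2 + 504632 / 5 * p ^ 3 + 275496 / 25 * n ^ 2 + 2678587 / 25 * n * p + 4527332 /
  25 * p ^ 2 + 898161 / 25 * n + 99970812 / 625 * p + 153099846 / 3125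

theorem g53_5_nn {n p : ℝ} (hn : 0 ≤ n) (hp : 0 ≤ p) : 0 ≤ g53_5 n p := by
  unfold g53_5; positivity

noncomputable def g53_6 (n p : ℝ) : ℝ :=
  10 * n ^ 6 + 130 * n ^ 5 * p + 730 * n ^ 4 * p ^ 2 + 2240 * n ^ 3 * p ^ 3 + 3920 * n ^ 2 * p
  ^ 4 + 3680 * n * p ^ 5 + 1440 * p ^ 6 + 258 * n ^ 5 + 2856 * n ^ 4 * p + 13092 * n ^ 3 * p
  ^ 2 + 30648 * n ^ 2 * p ^ 3 + 36240 * n * p ^ 4 + 17184 * p ^ 5 + 12654 / 5 * n ^ 4 +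
  117656 / 5 * n ^ 3 * p + 423771 / 5 * n ^ 2 * p ^ 2 + 137673 * n * p ^ 3 + 84091 * p ^ 4 +
  301236 / 25 * n ^ 3 + 2367552 / 25 * n ^ 2 * p + 1250409 / 5 * n * p ^ 2 + 1090284 / 5 * p
  ^ 3 + 3972709 / 125 * n ^ 2 + 5247951 / 25 * n * p + 7904594 / 25 * p ^ 2 + 35872623 / 625
  * n + 148221504 / 625 * p + 205942527 / 3125

theorem g53_6_nn {n p : ℝ} (hn : 0 ≤ n) (hp : 0 ≤ p) : 0 ≤ g53_6 n p := by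
  unfold g53_6; positivity

noncomputable def g53_7 (n p : ℝ) : ℝ :=
  10 * n ^ 6 + 170 * n ^ 5 * p + 1130 * n ^ 4 * p ^ 2 + 3870 * n ^ 3 * p ^ 3 + 7300 * n ^ 2 *
  p ^ 4 + 7240 * n * p ^ 5 + 2960 * p ^ 6 + 432 * n ^ 5 + 5436 * n ^ 4 * p + 26856 * n ^ 3 *
  p ^ 2 + 65610 * n ^ 2 * p ^ 3 + 79550 * n * p ^ 4 + 38356 * p ^ 5 + 30924 / 5 * n ^ 4 +
  290563 / 5 * n ^ 3 * p + 205605 * n ^ 2 * p ^ 2 + 324531 * n * p ^ 3 + 192549 * p ^ 4 +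
  959258 / 25 * n ^ 3 + 1303797 / 5 * n ^ 2 * p + 3027431 / 5 * n * p ^ 2 + 2385366 / 5 * p
  ^ 3 + 2639963 / 25 * n ^ 2 + 12355741 / 25 * n * p + 15165016 / 25 * p ^ 2 + 74304844 /
  625 * n + 223676486 / 625 * p + 195212868 / 3125

theorem g53_7_nn {n p : ℝ} (hn : 0 ≤ n) (hp : 0 ≤ p) : 0 ≤ g53_7 n p := by
  unfold g53_7; positivity

noncomputable def g53_8 (n p : ℝ) : ℝ :=
  10 * n ^ 6 + 170 * n ^ 5 * p + 1190 * n ^ 4 * p ^ 2 + 4350 * n ^ 3 * p ^ 3 + 8750 * n ^ 2 *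
  p ^ 4 + 9200 * n * p ^ 5 + 3960 * p ^ 6 + 432 * n ^ 5 + 6148 * n ^ 4 * p + 33560 * n ^ 3 *
  p ^ 2 + 88860 * n ^ 2 * p ^ 3 + 114970 * n * p ^ 4 + 58436 * p ^ 5 + 39177 / 5 * n ^ 4 +
  83279 * n ^ 3 * p + 320918 * n ^ 2 * p ^ 2 + 537563 * n * p ^ 3 + 332414 * p ^ 4 + 330502
  / 5 * n ^ 3 + 2413714 / 5 * n ^ 2 * p + 5790501 / 5 * n * p ^ 2 + 4594231 / 5 * p ^ 3 +
  6253499 / 25 * n ^ 2 + 27936367 / 25 * n * p + 31620061 / 25 * p ^ 2 + 44339828 / 125 * n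
  + 473898611 / 625 * p + 313171683 / 3125

theorem g53_8_nn {n p : ℝ} (hn : 0 ≤ n) (hp : 0 ≤ p) : 0 ≤ g53_8 n p := by
  unfold g53_8; positivity

noncomputable def g53_9 (n p : ℝ) : ℝ :=
  10 * n ^ 6 + 170 * n ^ 5 * p + 1190 * n ^ 4 * p ^ 2 + 4390 * n ^ 3 * p ^ 3 + 8990 * n ^ 2 *
  p ^ 4 + 9680 * n * p ^ 5 + 4280 * p ^ 6 + 432 * n ^ 5 + 6148 * n ^ 4 * p + 34592 * n ^ 3 *
  p ^ 2 + 95556 * n ^ 2 * p ^ 3 + 129410 * n * p ^ 4 + 68788 * p ^ 5 + 39177 / 5 * n ^ 4 +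
  448271 / 5 * n ^ 3 * p + 1860862 / 5 * n ^ 2 * p ^ 2 + 667116 * n * p ^ 3 + 437672 * p ^ 4
  + 1907816 / 25 * n ^ 3 + 15608594 / 25 * n ^ 2 * p + 1634582 * n * p ^ 2 + 6927678 / 5 * p
  ^ 3 + 47351773 / 125 * n ^ 2 + 46859268 / 25 * n * p + 56201108 / 25 * p ^ 2 + 492208843 /
  625 * n + 1060335998 / 625 * p + 1265097714 / 3125

theorem g53_9_nn {n p : ℝ} (hn : 0 ≤ n) (hp : 0 ≤ p) : 0 ≤ g53_9 n p := by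
  unfold g53_9; positivity

noncomputable def g53_10 (n p : ℝ) : ℝ :=
  10 * n ^ 6 + 170 * n ^ 5 * p + 1190 * n ^ 4 * p ^ 2 + 4390 * n ^ 3 * p ^ 3 + 9000 * n ^ 2 *
  p ^ 4 + 9720 * n * p ^ 5 + 4320 * p ^ 6 + 432 * n ^ 5 + 6148 * n ^ 4 * p + 34592 * n ^ 3 *
  p ^ 2 + 96180 * n ^ 2 * p ^ 3 + 131990 * n * p ^ 4 + 71452 * p ^ 5 + 39177 / 5 * n ^ 4 +
  448271 / 5 * n ^ 3 * p + 380284 * n ^ 2 * p ^ 2 + 704804 * n * p ^ 3 + 480663 * p ^ 4 +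
  1907816 / 25 * n ^ 3 + 3292162 / 5 * n ^ 2 * p + 1839074 * n * p ^ 2 + 8314132 / 5 * p ^ 3
  + 10513892 / 25 * n ^ 2 + 58192032 / 25 * n * p + 76791342 / 25 * p ^ 2 + 711351697 / 625
  * n + 1760863362 / 625 * p + 3051614481 / 3125

theorem g53_10_nn {n p : ℝ} (hn : 0 ≤ n) (hp : 0 ≤ p) : 0 ≤ g53_10 n p := by
  unfold g53_10; positivity

noncomputable def g53_11 (n p : ℝ) : ℝ :=
  10 * n ^ 6 + 170 * n ^ 5 * p + 1190 * n ^ 4 * p ^ 2 + 4390 * n ^ 3 * p ^ 3 + 9000 * n ^ 2 *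
  p ^ 4 + 9720 * n * p ^ 5 + 4320 * p ^ 6 + 432 * n ^ 5 + 6148 * n ^ 4 * p + 34592 * n ^ 3 *
  p ^ 2 + 96180 * n ^ 2 * p ^ 3 + 132120 * n * p ^ 4 + 71712 * p ^ 5 + 39177 / 5 * n ^ 4 +
  448271 / 5 * n ^ 3 * p + 380284 * n ^ 2 * p ^ 2 + 708656 * n * p ^ 3 + 488913 * p ^ 4 +
  1907816 / 25 * n ^ 3 + 3292162 / 5 * n ^ 2 * p + 9361184 / 5 * n * p ^ 2 + 8726652 / 5 * p
  ^ 3 + 10513892 / 25 * n ^ 2 + 12165144 / 5 * n * p + 85540812 / 25 * p ^ 2 + 776389252 /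
  625 * n + 2167475712 / 625 * p + 4417403136 / 3125

theorem g53_11_nn {n p : ℝ} (hn : 0 ≤ n) (hp : 0 ≤ p) : 0 ≤ g53_11 n p := by
  unfold g53_11; positivity

noncomputable def g53_12 (n p : ℝ) : ℝ :=
  10 * n ^ 6 + 170 * n ^ 5 * p + 1190 * n ^ 4 * p ^ 2 + 4390 * n ^ 3 * p ^ 3 + 9000 * n ^ 2 *
  p ^ 4 + 9720 * n * p ^ 5 + 4320 * p ^ 6 + 432 * n ^ 5 + 6148 * n ^ 4 * p + 34592 * n ^ 3 *
  p ^ 2 + 96180 * n ^ 2 * p ^ 3 + 132120 * n * p ^ 4 + 71712 * p ^ 5 + 39177 / 5 * n ^ 4 +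
  448271 / 5 * n ^ 3 * p + 380284 * n ^ 2 * p ^ 2 + 708656 * n * p ^ 3 + 489408 * p ^ 4 +
  1907816 / 25 * n ^ 3 + 3292162 / 5 * n ^ 2 * p + 9361184 / 5 * n * p ^ 2 + 8772192 / 5 * p
  ^ 3 + 10513892 / 25 * n ^ 2 + 12165144 / 5 * n * p + 86988192 / 25 * p ^ 2 + 776389252 /
  625 * n + 2259466512 / 625 * p + 4796612736 / 3125

theorem g53_12_nn {n p : ℝ} (hn : 0 ≤ n) (hp : 0 ≤ p) : 0 ≤ g53_12 n p := by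
  unfold g53_12; positivity

theorem g53_nn {n p t : ℝ} (hn : 0 ≤ n) (hp : 0 ≤ p) (h0 : 0 < t) (h1 : t ≤ 1) :
    0 ≤ (1 - t) * (g53_0 n p * t ^ 0 + g53_1 n p * t ^ 1 + g53_2 n p * t ^ 2 + g53_3 n p * t ^ 3 +
      g53_4 n p * t ^ 4 + g53_5 n p * t ^ 5 + g53_6 n p * t ^ 6 + g53_7 n p * t ^ 7 + g53_8
      n p * t ^ 8 + g53_9 n p * t ^ 9 + g53_10 n p * t ^ 10 + g53_11 n p * t ^ 11) + g53_12
      n p * t ^ 12 := by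
  have e0 := g53_0_nn hn hp
  have e1 := g53_1_nn hn hp
  have e2 := g53_2_nn hn hp
  have e3 := g53_3_nn hn hp
  have e4 := g53_4_nn hn hp
  have e5 := g53_5_nn hn hp
  have e6 := g53_6_nn hn hp
  have e7 := g53_7_nn hn hp
  have e8 := g53_8_nn hn hp
  have e9 := g53_9_nn hn hp
  have e10 := g53_10_nn hn hp
  have e11 := g53_11_nn hn hp
  have e12 := g53_12_nn hn hp
  have h2 : 0 ≤ 1 - t := by linarith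
  exact add_nonneg (mul_nonneg h2 (by positivity)) (by positivity)

end Pool.Agent.KIQ.POLY

namespace Pool.Agent.KIQ

open POLY

theorem PG5_3 {a q t : ℝ} (hq : 8 / 5 ≤ q) (ha : 2 * q + 1 ≤ a) (h0 : 0 < t) (h1 : t ≤ 1) :
    16 * t ^ 4 * (pp 1 a q (iniG a q) 1 1).eval t + 12 * t ^ 5 * ((q - 1) + a * t + q * t ^ 2) ≤
      (pp 1 a q (iniG a q) 5 3).eval t := by
  obtain ⟨p, hp, rfl⟩ : ∃ p : ℝ, 0 ≤ p ∧ q = 8 / 5 + p := ⟨q - 8 / 5, by linarith, by ring⟩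
  obtain ⟨n, hn, rfl⟩ : ∃ n : ℝ, 0 ≤ n ∧ a = 2 * (8 / 5 + p) + 1 + n :=
    ⟨a - (2 * (8 / 5 + p) + 1), by linarith, by ring⟩
  simp only [fg_5_3, fg_1_1, eval_PL, evL]
  refine le_of_sub_nonneg (le_of_le_of_eq (g53_nn hn hp h0 h1) ?_)
  simp only [g53_0, g53_1, g53_2, g53_3, g53_4, g53_5, g53_6, g53_7, g53_8, g53_9, g53_10, g53_11,
    g53_12, fg_5_3_0, fg_5_3_1, fg_5_3_2, fg_5_3_3, fg_5_3_4, fg_5_3_5, fg_5_3_6, fg_5_3_7,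
    fg_5_3_8, fg_5_3_9, fg_5_3_10, fg_5_3_11, fg_5_3_12, fg_1_1_0, fg_1_1_1, fg_1_1_2,
    fg_1_1_3, fg_1_1_4]
  ring

end Pool.Agent.KIQ

namespace Pool.Agent.KIQ.POLY

noncomputable def g54_0 (n p : ℝ) : ℝ :=
  600 * p + 360

theorem g54_0_nn {n p : ℝ} (hn : 0 ≤ n) (hp : 0 ≤ p) : 0 ≤ g54_0 n p := by
  unfold g54_0; positivity

noncomputable def g54_1 (n p : ℝ) : ℝ :=
  600 * n * p + 1200 * p ^ 2 + 360 * n + 3840 * p + 1872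

theorem g54_1_nn {n p : ℝ} (hn : 0 ≤ n) (hp : 0 ≤ p) : 0 ≤ g54_1 n p := by
  unfold g54_1; positivity

noncomputable def g54_2 (n p : ℝ) : ℝ :=
  300 * n ^ 2 * p + 1200 * n * p ^ 2 + 1200 * p ^ 3 + 180 * n ^ 2 + 3840 * n * p + 7200 * p ^
  2 + 1872 * n + 12504 * p + 25848 / 5

theorem g54_2_nn {n p : ℝ} (hn : 0 ≤ n) (hp : 0 ≤ p) : 0 ≤ g54_2 n p := by
  unfold g54_2; positivity

noncomputable def g54_3 (n p : ℝ) : ℝ :=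
  100 * n ^ 3 * p + 600 * n ^ 2 * p ^ 2 + 1200 * n * p ^ 3 + 800 * p ^ 4 + 60 * n ^ 3 + 1920 *
  n ^ 2 * p + 7200 * n * p ^ 2 + 7200 * p ^ 3 + 936 * n ^ 2 + 12704 * n * p + 22912 * p ^ 2
  + 26448 / 5 * n + 145248 / 5 * p + 265824 / 25

theorem g54_3_nn {n p : ℝ} (hn : 0 ≤ n) (hp : 0 ≤ p) : 0 ≤ g54_3 n p := by
  unfold g54_3; positivity

noncomputable def g54_4 (n p : ℝ) : ℝ :=
  25 * n ^ 4 * p + 200 * n ^ 3 * p ^ 2 + 600 * n ^ 2 * p ^ 3 + 800 * n * p ^ 4 + 400 * p ^ 5 +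
  15 * n ^ 4 + 640 * n ^ 3 * p + 3600 * n ^ 2 * p ^ 2 + 7200 * n * p ^ 3 + 4880 * p ^ 4 +
  312 * n ^ 3 + 6452 * n ^ 2 * p + 23312 * n * p ^ 2 + 23357 * p ^ 3 + 13524 / 5 * n ^ 2 +
  151648 / 5 * n * p + 267179 / 5 * p ^ 2 + 281424 / 25 * n + 1392363 / 25 * p + 2327949 /
  125

theorem g54_4_nn {n p : ℝ} (hn : 0 ≤ n) (hp : 0 ≤ p) : 0 ≤ g54_4 n p := by
  unfold g54_4; positivity

noncomputable def g54_5 (n p : ℝ) : ℝ :=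
  5 * n ^ 5 * p + 50 * n ^ 4 * p ^ 2 + 200 * n ^ 3 * p ^ 3 + 400 * n ^ 2 * p ^ 4 + 400 * n * p
  ^ 5 + 160 * p ^ 6 + 3 * n ^ 5 + 160 * n ^ 4 * p + 1200 * n ^ 3 * p ^ 2 + 3600 * n ^ 2 * p
  ^ 3 + 4880 * n * p ^ 4 + 2496 * p ^ 5 + 78 * n ^ 4 + 2184 * n ^ 3 * p + 11856 * n ^ 2 * p
  ^ 2 + 23757 * n * p ^ 3 + 16314 * p ^ 4 + 4608 / 5 * n ^ 3 + 79024 / 5 * n ^ 2 * p +
  279179 / 5 * n * p ^ 2 + 280296 / 5 * p ^ 3 + 148512 / 25 * n ^ 2 + 1499563 / 25 * n * p +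
  2601716 / 25 * p ^ 2 + 2552349 / 125 * n + 59156856 / 625 * p + 92209338 / 3125

theorem g54_5_nn {n p : ℝ} (hn : 0 ≤ n) (hp : 0 ≤ p) : 0 ≤ g54_5 n p := by
  unfold g54_5; positivity

noncomputable def g54_6 (n p : ℝ) : ℝ :=
  5 * n ^ 6 + 65 * n ^ 5 * p + 370 * n ^ 4 * p ^ 2 + 1160 * n ^ 3 * p ^ 3 + 2080 * n ^ 2 * p ^
  4 + 2000 * n * p ^ 5 + 800 * p ^ 6 + 129 * n ^ 5 + 1439 * n ^ 4 * p + 6728 * n ^ 3 * p ^ 2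
  + 16152 * n ^ 2 * p ^ 3 + 19600 * n * p ^ 4 + 9520 * p ^ 5 + 6251 / 5 * n ^ 4 + 59404 / 5
  * n ^ 3 * p + 220979 / 5 * n ^ 2 * p ^ 2 + 74265 * n * p ^ 3 + 46800 * p ^ 4 + 144924 / 25
  * n ^ 3 + 1207948 / 25 * n ^ 2 * p + 134781 * n * p ^ 2 + 122999 * p ^ 3 + 1887441 / 125 *
  n ^ 2 + 563747 / 5 * n * p + 911441 / 5 * p ^ 2 + 747627 / 25 * n + 17543301 / 125 * p +
  24868467 / 625

theorem g54_6_nn {n p : ℝ} (hn : 0 ≤ n) (hp : 0 ≤ p) : 0 ≤ g54_6 n p := by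
  unfold g54_6; positivity

noncomputable def g54_7 (n p : ℝ) : ℝ :=
  5 * n ^ 6 + 90 * n ^ 5 * p + 620 * n ^ 4 * p ^ 2 + 2190 * n ^ 3 * p ^ 3 + 4260 * n ^ 2 * p ^
  4 + 4360 * n * p ^ 5 + 1840 * p ^ 6 + 234 * n ^ 5 + 3014 * n ^ 4 * p + 15212 * n ^ 3 * p ^
  2 + 38034 * n ^ 2 * p ^ 3 + 47300 * n * p ^ 4 + 23424 * p ^ 5 + 17276 / 5 * n ^ 4 + 164271
  / 5 * n ^ 3 * p + 590873 / 5 * n ^ 2 * p ^ 2 + 190554 * n * p ^ 3 + 115886 * p ^ 4 +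
  538106 / 25 * n ^ 3 + 3690961 / 25 * n ^ 2 * p + 1749034 / 5 * n * p ^ 2 + 1417094 / 5 * p
  ^ 3 + 7209807 / 125 * n ^ 2 + 6924794 / 25 * n * p + 8879724 / 25 * p ^ 2 + 37602016 / 625
  * n + 127618544 / 625 * p + 100253172 / 3125

theorem g54_7_nn {n p : ℝ} (hn : 0 ≤ n) (hp : 0 ≤ p) : 0 ≤ g54_7 n p := by
  unfold g54_7; positivity

noncomputable def g54_8 (n p : ℝ) : ℝ :=
  5 * n ^ 6 + 90 * n ^ 5 * p + 670 * n ^ 4 * p ^ 2 + 2590 * n ^ 3 * p ^ 3 + 5480 * n ^ 2 * p ^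
  4 + 6040 * n * p ^ 5 + 2720 * p ^ 6 + 234 * n ^ 5 + 3524 * n ^ 4 * p + 20132 * n ^ 3 * p ^
  2 + 55452 * n ^ 2 * p ^ 3 + 74420 * n * p ^ 4 + 39187 * p ^ 5 + 22841 / 5 * n ^ 4 + 251631
  / 5 * n ^ 3 * p + 998409 / 5 * n ^ 2 * p ^ 2 + 343694 * n * p ^ 3 + 218363 * p ^ 4 +
  1005566 / 25 * n ^ 3 + 7489618 / 25 * n ^ 2 * p + 3660142 / 5 * n * p ^ 2 + 2963442 / 5 *
  p ^ 3 + 19335351 / 125 * n ^ 2 + 17416988 / 25 * n * p + 19998782 / 25 * p ^ 2 + 134575144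
  / 625 * n + 289437227 / 625 * p + 157870011 / 3125

theorem g54_8_nn {n p : ℝ} (hn : 0 ≤ n) (hp : 0 ≤ p) : 0 ≤ g54_8 n p := by
  unfold g54_8; positivity

noncomputable def g54_9 (n p : ℝ) : ℝ :=
  5 * n ^ 6 + 90 * n ^ 5 * p + 670 * n ^ 4 * p ^ 2 + 2640 * n ^ 3 * p ^ 3 + 5780 * n ^ 2 * p ^
  4 + 6645 * n * p ^ 5 + 3130 * p ^ 6 + 234 * n ^ 5 + 3524 * n ^ 4 * p + 21072 * n ^ 3 * p ^
  2 + 61722 * n ^ 2 * p ^ 3 + 88305 * n * p ^ 4 + 49418 * p ^ 5 + 22841 / 5 * n ^ 4 + 276376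
  / 5 * n ^ 3 * p + 1206099 / 5 * n ^ 2 * p ^ 2 + 451920 * n * p ^ 3 + 308612 * p ^ 4 +
  1189736 / 25 * n ^ 3 + 10153573 / 25 * n ^ 2 * p + 5502252 / 5 * n * p ^ 2 + 4804828 / 5 *
  p ^ 3 + 30938061 / 125 * n ^ 2 + 31424161 / 25 * n * p + 38460858 / 25 * p ^ 2 + 329771767
  / 625 * n + 717629108 / 625 * p + 845802354 / 3125

theorem g54_9_nn {n p : ℝ} (hn : 0 ≤ n) (hp : 0 ≤ p) : 0 ≤ g54_9 n p := by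
  unfold g54_9; positivity

noncomputable def g54_10 (n p : ℝ) : ℝ :=
  5 * n ^ 6 + 90 * n ^ 5 * p + 670 * n ^ 4 * p ^ 2 + 2640 * n ^ 3 * p ^ 3 + 5805 * n ^ 2 * p ^
  4 + 6745 * n * p ^ 5 + 3230 * p ^ 6 + 234 * n ^ 5 + 3524 * n ^ 4 * p + 21072 * n ^ 3 * p ^
  2 + 62532 * n ^ 2 * p ^ 3 + 91755 * n * p ^ 4 + 53093 * p ^ 5 + 22841 / 5 * n ^ 4 + 276376
  / 5 * n ^ 3 * p + 1244869 / 5 * n ^ 2 * p ^ 2 + 489740 * n * p ^ 3 + 353457 * p ^ 4 +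
  1189736 / 25 * n ^ 3 + 10846738 / 25 * n ^ 2 * p + 6382452 / 5 * n * p ^ 2 + 6045278 / 5 *
  p ^ 3 + 34855716 / 125 * n ^ 2 + 40380871 / 25 * n * p + 55320868 / 25 * p ^ 2 + 494313277
  / 625 * n + 1262519493 / 625 * p + 2193512529 / 3125

theorem g54_10_nn {n p : ℝ} (hn : 0 ≤ n) (hp : 0 ≤ p) : 0 ≤ g54_10 n p := by
  unfold g54_10; positivity

noncomputable def g54_11 (n p : ℝ) : ℝ :=
  5 * n ^ 6 + 90 * n ^ 5 * p + 670 * n ^ 4 * p ^ 2 + 2640 * n ^ 3 * p ^ 3 + 5805 * n ^ 2 * p ^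
  4 + 6750 * n * p ^ 5 + 3240 * p ^ 6 + 234 * n ^ 5 + 3524 * n ^ 4 * p + 21072 * n ^ 3 * p ^
  2 + 62532 * n ^ 2 * p ^ 3 + 92070 * n * p ^ 4 + 53744 * p ^ 5 + 22841 / 5 * n ^ 4 + 276376
  / 5 * n ^ 3 * p + 1244869 / 5 * n ^ 2 * p ^ 2 + 494778 * n * p ^ 3 + 364856 * p ^ 4 +
  1189736 / 25 * n ^ 3 + 10846738 / 25 * n ^ 2 * p + 6544446 / 5 * n * p ^ 2 + 6475064 / 5 *
  p ^ 3 + 34855716 / 125 * n ^ 2 + 42576532 / 25 * n * p + 63114064 / 25 * p ^ 2 + 108847664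
  / 125 * n + 1592913984 / 625 * p + 3241938432 / 3125

theorem g54_11_nn {n p : ℝ} (hn : 0 ≤ n) (hp : 0 ≤ p) : 0 ≤ g54_11 n p := by
  unfold g54_11; positivity

noncomputable def g54_12 (n p : ℝ) : ℝ :=
  5 * n ^ 6 + 90 * n ^ 5 * p + 670 * n ^ 4 * p ^ 2 + 2640 * n ^ 3 * p ^ 3 + 5805 * n ^ 2 * p ^
  4 + 6750 * n * p ^ 5 + 3240 * p ^ 6 + 234 * n ^ 5 + 3524 * n ^ 4 * p + 21072 * n ^ 3 * p ^
  2 + 62532 * n ^ 2 * p ^ 3 + 92070 * n * p ^ 4 + 53784 * p ^ 5 + 22841 / 5 * n ^ 4 + 276376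
  / 5 * n ^ 3 * p + 1244869 / 5 * n ^ 2 * p ^ 2 + 494778 * n * p ^ 3 + 365976 * p ^ 4 +
  1189736 / 25 * n ^ 3 + 10846738 / 25 * n ^ 2 * p + 6544446 / 5 * n * p ^ 2 + 6533784 / 5 *
  p ^ 3 + 34855716 / 125 * n ^ 2 + 42576532 / 25 * n * p + 64534224 / 25 * p ^ 2 + 108847664
  / 125 * n + 1670405184 / 625 * p + 3536113152 / 3125

theorem g54_12_nn {n p : ℝ} (hn : 0 ≤ n) (hp : 0 ≤ p) : 0 ≤ g54_12 n p := by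
  unfold g54_12; positivity

theorem g54_nn {n p t : ℝ} (hn : 0 ≤ n) (hp : 0 ≤ p) (h0 : 0 < t) (h1 : t ≤ 1) :
    0 ≤ (1 - t) * (g54_0 n p * t ^ 0 + g54_1 n p * t ^ 1 + g54_2 n p * t ^ 2 + g54_3 n p * t ^ 3 +
      g54_4 n p * t ^ 4 + g54_5 n p * t ^ 5 + g54_6 n p * t ^ 6 + g54_7 n p * t ^ 7 + g54_8
      n p * t ^ 8 + g54_9 n p * t ^ 9 + g54_10 n p * t ^ 10 + g54_11 n p * t ^ 11) + g54_12
      n p * t ^ 12 := by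
  have e0 := g54_0_nn hn hp
  have e1 := g54_1_nn hn hp
  have e2 := g54_2_nn hn hp
  have e3 := g54_3_nn hn hp
  have e4 := g54_4_nn hn hp
  have e5 := g54_5_nn hn hp
  have e6 := g54_6_nn hn hp
  have e7 := g54_7_nn hn hp
  have e8 := g54_8_nn hn hp
  have e9 := g54_9_nn hn hp
  have e10 := g54_10_nn hn hp
  have e11 := g54_11_nn hn hp
  have e12 := g54_12_nn hn hp
  have h2 : 0 ≤ 1 - t := by linarith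
  exact add_nonneg (mul_nonneg h2 (by positivity)) (by positivity)

end Pool.Agent.KIQ.POLY

namespace Pool.Agent.KIQ

open POLY

theorem PG5_4 {a q t : ℝ} (hq : 8 / 5 ≤ q) (ha : 2 * q + 1 ≤ a) (h0 : 0 < t) (h1 : t ≤ 1) :
    0 ≤
      (pp 1 a q (iniG a q) 5 4).eval t := by
  obtain ⟨p, hp, rfl⟩ : ∃ p : ℝ, 0 ≤ p ∧ q = 8 / 5 + p := ⟨q - 8 / 5, by linarith, by ring⟩
  obtain ⟨n, hn, rfl⟩ : ∃ n : ℝ, 0 ≤ n ∧ a = 2 * (8 / 5 + p) + 1 + n :=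
    ⟨a - (2 * (8 / 5 + p) + 1), by linarith, by ring⟩
  simp only [fg_5_4, eval_PL, evL]
  refine le_of_sub_nonneg (le_of_le_of_eq (g54_nn hn hp h0 h1) ?_)
  simp only [g54_0, g54_1, g54_2, g54_3, g54_4, g54_5, g54_6, g54_7, g54_8, g54_9, g54_10, g54_11,
    g54_12, fg_5_4_0, fg_5_4_1, fg_5_4_2, fg_5_4_3, fg_5_4_4, fg_5_4_5, fg_5_4_6, fg_5_4_7,
    fg_5_4_8, fg_5_4_9, fg_5_4_10, fg_5_4_11, fg_5_4_12]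
  ring

end Pool.Agent.KIQ

namespace Pool.Agent.KIQ.POLY

noncomputable def g55_0 (n p : ℝ) : ℝ :=
  120 * p + 72

theorem g55_0_nn {n p : ℝ} (hn : 0 ≤ n) (hp : 0 ≤ p) : 0 ≤ g55_0 n p := by
  unfold g55_0; positivity

noncomputable def g55_1 (n p : ℝ) : ℝ :=
  120 * n * p + 240 * p ^ 2 + 72 * n + 768 * p + 1872 / 5

theorem g55_1_nn {n p : ℝ} (hn : 0 ≤ n) (hp : 0 ≤ p) : 0 ≤ g55_1 n p := by
  unfold g55_1; positivity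

noncomputable def g55_2 (n p : ℝ) : ℝ :=
  60 * n ^ 2 * p + 240 * n * p ^ 2 + 240 * p ^ 3 + 36 * n ^ 2 + 768 * n * p + 1452 * p ^ 2 +
  1872 / 5 * n + 12816 / 5 * p + 26676 / 25

theorem g55_2_nn {n p : ℝ} (hn : 0 ≤ n) (hp : 0 ≤ p) : 0 ≤ g55_2 n p := by
  unfold g55_2; positivity

noncomputable def g55_3 (n p : ℝ) : ℝ :=
  20 * n ^ 3 * p + 120 * n ^ 2 * p ^ 2 + 240 * n * p ^ 3 + 160 * p ^ 4 + 12 * n ^ 3 + 384 * n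
  ^ 2 * p + 1452 * n * p ^ 2 + 1464 * p ^ 3 + 936 / 5 * n ^ 2 + 13016 / 5 * n * p + 23848 /
  5 * p ^ 2 + 27276 / 25 * n + 155016 / 25 * p + 287352 / 125

theorem g55_3_nn {n p : ℝ} (hn : 0 ≤ n) (hp : 0 ≤ p) : 0 ≤ g55_3 n p := by
  unfold g55_3; positivity

noncomputable def g55_4 (n p : ℝ) : ℝ :=
  5 * n ^ 4 * p + 40 * n ^ 3 * p ^ 2 + 120 * n ^ 2 * p ^ 3 + 160 * n * p ^ 4 + 80 * p ^ 5 + 3
  * n ^ 4 + 128 * n ^ 3 * p + 726 * n ^ 2 * p ^ 2 + 1464 * n * p ^ 3 + 1000 * p ^ 4 + 312 /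
  5 * n ^ 3 + 6608 / 5 * n ^ 2 * p + 24248 / 5 * n * p ^ 2 + 4927 * p ^ 3 + 13938 / 25 * n ^
  2 + 161416 / 25 * n * p + 58057 / 5 * p ^ 2 + 302952 / 125 * n + 310617 / 25 * p + 2634723
  / 625

theorem g55_4_nn {n p : ℝ} (hn : 0 ≤ n) (hp : 0 ≤ p) : 0 ≤ g55_4 n p := by
  unfold g55_4; positivity

noncomputable def g55_5 (n p : ℝ) : ℝ :=
  n ^ 5 * p + 10 * n ^ 4 * p ^ 2 + 40 * n ^ 3 * p ^ 3 + 80 * n ^ 2 * p ^ 4 + 80 * n * p ^ 5 +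
  32 * p ^ 6 + 3 / 5 * n ^ 5 + 32 * n ^ 4 * p + 242 * n ^ 3 * p ^ 2 + 732 * n ^ 2 * p ^ 3 +
  1000 * n * p ^ 4 + 2576 / 5 * p ^ 5 + 78 / 5 * n ^ 4 + 2236 / 5 * n ^ 3 * p + 12324 / 5 *
  n ^ 2 * p ^ 2 + 5007 * n * p ^ 3 + 17414 / 5 * p ^ 4 + 4746 / 25 * n ^ 3 + 83908 / 25 * n
  ^ 2 * p + 60477 / 5 * n * p ^ 2 + 309056 / 25 * p ^ 3 + 159276 / 125 * n ^ 2 + 332577 / 25
  * n * p + 2953476 / 125 * p ^ 2 + 2866023 / 625 * n + 68788656 / 3125 * p + 108732078 /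
  15625

theorem g55_5_nn {n p : ℝ} (hn : 0 ≤ n) (hp : 0 ≤ p) : 0 ≤ g55_5 n p := by
  unfold g55_5; positivity

noncomputable def g55_6 (n p : ℝ) : ℝ :=
  n ^ 6 + 13 * n ^ 5 * p + 75 * n ^ 4 * p ^ 2 + 240 * n ^ 3 * p ^ 3 + 440 * n ^ 2 * p ^ 4 +
  432 * n * p ^ 5 + 176 * p ^ 6 + 129 / 5 * n ^ 5 + 290 * n ^ 4 * p + 1382 * n ^ 3 * p ^ 2 +
  3396 * n ^ 2 * p ^ 3 + 4216 * n * p ^ 4 + 10448 / 5 * p ^ 5 + 247 * n ^ 4 + 11996 / 5 * n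
  ^ 3 * p + 46037 / 5 * n ^ 2 * p ^ 2 + 79791 / 5 * n * p ^ 3 + 51667 / 5 * p ^ 4 + 27846 /
  25 * n ^ 3 + 246784 / 25 * n ^ 2 * p + 725283 / 25 * n * p ^ 2 + 689198 / 25 * p ^ 3 +
  358583 / 125 * n ^ 2 + 3035177 / 125 * n * p + 5222188 / 125 * p ^ 2 + 19659201 / 3125 * n
  + 102999258 / 3125 * p + 148526469 / 15625

theorem g55_6_nn {n p : ℝ} (hn : 0 ≤ n) (hp : 0 ≤ p) : 0 ≤ g55_6 n p := by
  unfold g55_6; positivity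

noncomputable def g55_7 (n p : ℝ) : ℝ :=
  n ^ 6 + 19 * n ^ 5 * p + 135 * n ^ 4 * p ^ 2 + 490 * n ^ 3 * p ^ 3 + 980 * n ^ 2 * p ^ 4 +
  1032 * n * p ^ 5 + 448 * p ^ 6 + 252 / 5 * n ^ 5 + 662 * n ^ 4 * p + 3402 * n ^ 3 * p ^ 2
  + 8682 * n ^ 2 * p ^ 3 + 11046 * n * p ^ 4 + 28004 / 5 * p ^ 5 + 3818 / 5 * n ^ 4 + 36641
  / 5 * n ^ 3 * p + 133679 / 5 * n ^ 2 * p ^ 2 + 219751 / 5 * n * p ^ 3 + 136641 / 5 * p ^ 4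
  + 119076 / 25 * n ^ 3 + 822703 / 25 * n ^ 2 * p + 1986003 / 25 * n * p ^ 2 + 1651754 / 25
  * p ^ 3 + 1549661 / 125 * n ^ 2 + 7632617 / 125 * n * p + 10222024 / 125 * p ^ 2 +
  36940776 / 3125 * n + 143434134 / 3125 * p + 100140012 / 15625

theorem g55_7_nn {n p : ℝ} (hn : 0 ≤ n) (hp : 0 ≤ p) : 0 ≤ g55_7 n p := by
  unfold g55_7; positivity

noncomputable def g55_8 (n p : ℝ) : ℝ :=
  n ^ 6 + 19 * n ^ 5 * p + 150 * n ^ 4 * p ^ 2 + 610 * n ^ 3 * p ^ 3 + 1350 * n ^ 2 * p ^ 4 +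
  1552 * n * p ^ 5 + 728 * p ^ 6 + 252 / 5 * n ^ 5 + 800 * n ^ 4 * p + 4758 * n ^ 3 * p ^ 2
  + 13560 * n ^ 2 * p ^ 3 + 18786 * n * p ^ 4 + 51019 / 5 * p ^ 5 + 1051 * n ^ 4 + 59729 / 5
  * n ^ 3 * p + 48582 * n ^ 2 * p ^ 2 + 427871 / 5 * n * p ^ 3 + 278301 / 5 * p ^ 4 + 239784
  / 25 * n ^ 3 + 72610 * n ^ 2 * p + 4503453 / 25 * n * p ^ 2 + 3710644 / 25 * p ^ 3 +
  933487 / 25 * n ^ 2 + 21148127 / 125 * n * p + 24582164 / 125 * p ^ 2 + 159351036 / 3125 *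
  n + 344090499 / 3125 * p + 148978557 / 15625

theorem g55_8_nn {n p : ℝ} (hn : 0 ≤ n) (hp : 0 ≤ p) : 0 ≤ g55_8 n p := by
  unfold g55_8; positivity

noncomputable def g55_9 (n p : ℝ) : ℝ :=
  n ^ 6 + 19 * n ^ 5 * p + 150 * n ^ 4 * p ^ 2 + 630 * n ^ 3 * p ^ 3 + 1470 * n ^ 2 * p ^ 4 +
  1797 * n * p ^ 5 + 898 * p ^ 6 + 252 / 5 * n ^ 5 + 800 * n ^ 4 * p + 5064 * n ^ 3 * p ^ 2
  + 15648 * n ^ 2 * p ^ 3 + 23511 * n * p ^ 4 + 68854 / 5 * p ^ 5 + 1051 * n ^ 4 + 66907 / 5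
  * n ^ 3 * p + 305256 / 5 * n ^ 2 * p ^ 2 + 594261 / 5 * n * p ^ 3 + 420066 / 5 * p ^ 4 +
  290172 / 25 * n ^ 3 + 2569792 / 25 * n ^ 2 * p + 7171293 / 25 * n * p ^ 2 + 6423154 / 25 *
  p ^ 3 + 7841879 / 125 * n ^ 2 + 40730592 / 125 * n * p + 50722474 / 125 * p ^ 2 +
  426487521 / 3125 * n + 936501234 / 3125 * p + 1092412062 / 15625

theorem g55_9_nn {n p : ℝ} (hn : 0 ≤ n) (hp : 0 ≤ p) : 0 ≤ g55_9 n p := by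
  unfold g55_9; positivity

noncomputable def g55_10 (n p : ℝ) : ℝ :=
  n ^ 6 + 19 * n ^ 5 * p + 150 * n ^ 4 * p ^ 2 + 630 * n ^ 3 * p ^ 3 + 1485 * n ^ 2 * p ^ 4 +
  1857 * n * p ^ 5 + 959 * p ^ 6 + 252 / 5 * n ^ 5 + 800 * n ^ 4 * p + 5064 * n ^ 3 * p ^ 2
  + 15984 * n ^ 2 * p ^ 3 + 24981 * n * p ^ 4 + 76902 / 5 * p ^ 5 + 1051 * n ^ 4 + 66907 / 5
  * n ^ 3 * p + 318393 / 5 * n ^ 2 * p ^ 2 + 660921 / 5 * n * p ^ 3 + 501613 / 5 * p ^ 4 +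
  290172 / 25 * n ^ 3 + 2778616 / 25 * n ^ 2 * p + 8558343 / 25 * n * p ^ 2 + 8439942 / 25 *
  p ^ 3 + 8949572 / 125 * n ^ 2 + 53931972 / 125 * n * p + 76319047 / 125 * p ^ 2 +
  659103051 / 3125 * n + 1730059422 / 3125 * p + 3005360631 / 15625

theorem g55_10_nn {n p : ℝ} (hn : 0 ≤ n) (hp : 0 ≤ p) : 0 ≤ g55_10 n p := by
  unfold g55_10; positivity

noncomputable def g55_11 (n p : ℝ) : ℝ :=
  n ^ 6 + 19 * n ^ 5 * p + 150 * n ^ 4 * p ^ 2 + 630 * n ^ 3 * p ^ 3 + 1485 * n ^ 2 * p ^ 4 +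
  1863 * n * p ^ 5 + 971 * p ^ 6 + 252 / 5 * n ^ 5 + 800 * n ^ 4 * p + 5064 * n ^ 3 * p ^ 2
  + 15984 * n ^ 2 * p ^ 3 + 25164 * n * p ^ 4 + 78858 / 5 * p ^ 5 + 1051 * n ^ 4 + 66907 / 5
  * n ^ 3 * p + 318393 / 5 * n ^ 2 * p ^ 2 + 671409 / 5 * n * p ^ 3 + 526432 / 5 * p ^ 4 +
  290172 / 25 * n ^ 3 + 2778616 / 25 * n ^ 2 * p + 8837052 / 25 * n * p ^ 2 + 9217608 / 25 *
  p ^ 3 + 8949572 / 125 * n ^ 2 + 57300828 / 125 * n * p + 88909648 / 125 * p ^ 2 +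
  730921584 / 3125 * n + 2227426368 / 3125 * p + 4513549824 / 15625

theorem g55_11_nn {n p : ℝ} (hn : 0 ≤ n) (hp : 0 ≤ p) : 0 ≤ g55_11 n p := by
  unfold g55_11; positivity

noncomputable def g55_12 (n p : ℝ) : ℝ :=
  n ^ 6 + 19 * n ^ 5 * p + 150 * n ^ 4 * p ^ 2 + 630 * n ^ 3 * p ^ 3 + 1485 * n ^ 2 * p ^ 4 +
  1863 * n * p ^ 5 + 972 * p ^ 6 + 252 / 5 * n ^ 5 + 800 * n ^ 4 * p + 5064 * n ^ 3 * p ^ 2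
  + 15984 * n ^ 2 * p ^ 3 + 25164 * n * p ^ 4 + 79056 / 5 * p ^ 5 + 1051 * n ^ 4 + 66907 / 5
  * n ^ 3 * p + 318393 / 5 * n ^ 2 * p ^ 2 + 671409 / 5 * n * p ^ 3 + 529524 / 5 * p ^ 4 +
  290172 / 25 * n ^ 3 + 2778616 / 25 * n ^ 2 * p + 8837052 / 25 * n * p ^ 2 + 9338256 / 25 *
  p ^ 3 + 8949572 / 125 * n ^ 2 + 57300828 / 125 * n * p + 91356336 / 125 * p ^ 2 +
  730921584 / 3125 * n + 2347142976 / 3125 * p + 4940103168 / 15625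

theorem g55_12_nn {n p : ℝ} (hn : 0 ≤ n) (hp : 0 ≤ p) : 0 ≤ g55_12 n p := by
  unfold g55_12; positivity

theorem g55_nn {n p t : ℝ} (hn : 0 ≤ n) (hp : 0 ≤ p) (h0 : 0 < t) (h1 : t ≤ 1) :
    0 ≤ (1 - t) * (g55_0 n p * t ^ 0 + g55_1 n p * t ^ 1 + g55_2 n p * t ^ 2 + g55_3 n p * t ^ 3 +
      g55_4 n p * t ^ 4 + g55_5 n p * t ^ 5 + g55_6 n p * t ^ 6 + g55_7 n p * t ^ 7 + g55_8
      n p * t ^ 8 + g55_9 n p * t ^ 9 + g55_10 n p * t ^ 10 + g55_11 n p * t ^ 11) + g55_12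
      n p * t ^ 12 := by
  have e0 := g55_0_nn hn hp
  have e1 := g55_1_nn hn hp
  have e2 := g55_2_nn hn hp
  have e3 := g55_3_nn hn hp
  have e4 := g55_4_nn hn hp
  have e5 := g55_5_nn hn hp
  have e6 := g55_6_nn hn hp
  have e7 := g55_7_nn hn hp
  have e8 := g55_8_nn hn hp
  have e9 := g55_9_nn hn hp
  have e10 := g55_10_nn hn hp
  have e11 := g55_11_nn hn hp
  have e12 := g55_12_nn hn hp
  have h2 : 0 ≤ 1 - t := by linarith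
  exact add_nonneg (mul_nonneg h2 (by positivity)) (by positivity)

end Pool.Agent.KIQ.POLY

namespace Pool.Agent.KIQ

open POLY

theorem PG5_5 {a q t : ℝ} (hq : 8 / 5 ≤ q) (ha : 2 * q + 1 ≤ a) (h0 : 0 < t) (h1 : t ≤ 1) :
    0 ≤
      (pp 1 a q (iniG a q) 5 5).eval t := by
  obtain ⟨p, hp, rfl⟩ : ∃ p : ℝ, 0 ≤ p ∧ q = 8 / 5 + p := ⟨q - 8 / 5, by linarith, by ring⟩
  obtain ⟨n, hn, rfl⟩ : ∃ n : ℝ, 0 ≤ n ∧ a = 2 * (8 / 5 + p) + 1 + n :=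
    ⟨a - (2 * (8 / 5 + p) + 1), by linarith, by ring⟩
  simp only [fg_5_5, eval_PL, evL]
  refine le_of_sub_nonneg (le_of_le_of_eq (g55_nn hn hp h0 h1) ?_)
  simp only [g55_0, g55_1, g55_2, g55_3, g55_4, g55_5, g55_6, g55_7, g55_8, g55_9, g55_10, g55_11,
    g55_12, fg_5_5_0, fg_5_5_1, fg_5_5_2, fg_5_5_3, fg_5_5_4, fg_5_5_5, fg_5_5_6, fg_5_5_7,
    fg_5_5_8, fg_5_5_9, fg_5_5_10, fg_5_5_11, fg_5_5_12]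
  ring

end Pool.Agent.KIQ
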