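import Pool.Agent.KIQ.Defs
import Pool.Agent.KIM.KBN

/-!
# SCB: the scalar bounds for (C)
-/

set_option autoImplicit false

open PowerSeries Finset

namespace Pool.Agent.KIQ

private theorem scb_gen (g b : ℝ) (n : ℕ) : ((n : ℝ) + 2) * coeff (n + 2) (KIM.bin g b) =
    (g + b) * coeff (n + 1) (KIM.bin g b) + (b - g + n) * coeff n (KIM.bin g b) := by
  have h := KIM.eul_bin g b
  set f := KIM.bin g b with hf
  have h1 : (1 - X ^ 2) * KIM.eul f = KIM.eul f - X ^ 2 * KIM.eul f := by ring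
  have h2 : (C g * X * (1 - X) + C b * X * (1 + X)) * f =
      C g * (X * f) - C g * (X ^ 2 * f) + C b * (X * f) + C b * (X ^ 2 * f) := by ring
  rw [h1, h2] at h
  have h3 := congrArg (coeff (n + 2)) h
  simp only [map_add, map_sub, coeff_C_mul] at h3
  have e1 : coeff (n + 2) (X ^ 2 * KIM.eul f) = coeff n (KIM.eul f) := coeff_X_pow_mul _ _ _
  have e2 : coeff (n + 2) (X ^ 2 * f) = coeff n f := coeff_X_pow_mul _ _ _
  have e3 : coeff (n + 2) (X * f) = coeff (n + 1) f := coeff_succ_X_mul _ _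
  rw [e1, e2, e3, KIM.coeff_eul, KIM.coeff_eul] at h3
  push_cast at h3
  linear_combination h3

private theorem scb_gen1 (g b : ℝ) : coeff 1 (KIM.bin g b) = (g + b) * coeff 0 (KIM.bin g b) := by
  have h := KIM.eul_bin g b
  set f := KIM.bin g b with hf
  have h1 : (1 - X ^ 2) * KIM.eul f = KIM.eul f - X * (X * KIM.eul f) := by ring
  have h2 : (C g * X * (1 - X) + C b * X * (1 + X)) * f =
      C g * (X * f) - C g * (X * (X * f)) + C b * (X * f) + C b * (X * (X * f)) := by ring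
  rw [h1, h2] at h
  have h3 := congrArg (coeff 1) h
  simp only [map_add, map_sub, coeff_C_mul] at h3
  have e1 : coeff 1 (X * (X * KIM.eul f)) = 0 := by
    rw [show (1 : ℕ) = 0 + 1 from rfl, coeff_succ_X_mul, coeff_zero_X_mul]
  have e2 : coeff 1 (X * (X * f)) = 0 := by
    rw [show (1 : ℕ) = 0 + 1 from rfl, coeff_succ_X_mul, coeff_zero_X_mul]
  have e3 : coeff 1 (X * f) = coeff 0 f := by
    rw [show (1 : ℕ) = 0 + 1 from rfl, coeff_succ_X_mul]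
  rw [e1, e2, e3, KIM.coeff_eul] at h3
  push_cast at h3
  linear_combination h3

private theorem scb_rec (q : ℝ) (n : ℕ) : ((n : ℝ) + 2) * KIM.pc (-1 / 2) q (n + 2) =
    (4 * q - 3) * KIM.pc (-1 / 2) q (n + 1) + ((n : ℝ) + 1 + 2 * q) * KIM.pc (-1 / 2) q n := by
  have h := scb_gen (q - 2) (2 * (-1 / 2) + 3 * q) n
  unfold KIM.pc
  linear_combination h

private theorem scb_one (q : ℝ) : KIM.pc (-1 / 2) q 1 = (4 * q - 3) * KIM.pc (-1 / 2) q 0 := by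
  have h := scb_gen1 (q - 2) (2 * (-1 / 2) + 3 * q)
  unfold KIM.pc
  linear_combination h

private theorem scb_F2 (q : ℝ) (n : ℕ) : ((n : ℝ) + 2) * KIM.Vc (-1 / 2) q (n + 2) =
    (2 * ((n : ℝ) + 1) + 4 * q - 1) * KIM.pc (-1 / 2) q (n + 1) +
      (2 * ((n : ℝ) + 1) + 2 * q + 1) * KIM.pc (-1 / 2) q n := by
  rw [KIM.Vc_eq_pc]
  have h := scb_rec q n
  linear_combination h

private theorem scb_F1 (q : ℝ) (n : ℕ) : ((n : ℝ) + 2 * q) * KIM.Vc (-1 / 2) q (n + 1) =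
    (2 * ((n : ℝ) + 1) + 2 * q - 1) * KIM.pc (-1 / 2) q (n + 1) +
      (2 * ((n : ℝ) + 1) + 1) * KIM.pc (-1 / 2) q n := by
  cases n with
  | zero =>
    rw [show (0 : ℕ) + 1 = 1 from rfl, KIM.Vc_one_eq_pc]
    have h := scb_one q
    push_cast
    linear_combination -h
  | succ n =>
    rw [show n + 1 + 1 = n + 2 from rfl, KIM.Vc_eq_pc]
    have h := scb_rec q n
    push_cast
    linear_combination -h

private theorem scb_pos {q : ℝ} (h1 : 1 ≤ q) (h2 : q ≤ 2) (n : ℕ) : 0 < KIM.pc (-1 / 2) q n := by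
  refine KIM.pos_bin ?_ n
  rw [abs_of_nonpos (by linarith)]
  linarith

private theorem scb_mono {q : ℝ} (h1 : 1 ≤ q) (h2 : q ≤ 2) (n : ℕ) :
    KIM.pc (-1 / 2) q n ≤ KIM.pc (-1 / 2) q (n + 1) := by
  have h : |q - 2| ≤ (2 * (-1 / 2) + 3 * q) - 1 := by
    rw [abs_of_nonpos (by linarith)]
    linarith
  exact KIM.mono_bin h (Nat.le_succ n)

/-- all data for `j = n + 1`. -/
private theorem scb_data {q : ℝ} (h1 : 1 ≤ q) (h2 : q ≤ 2) (n : ℕ) :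
    ∃ d r : ℝ, 0 ≤ d ∧ 0 < r ∧
      muj q (n + 1) * ((2 * (n : ℝ) + 2 * q + 1) * (r + d) + (2 * (n : ℝ) + 3) * r) =
        ((n : ℝ) + 2 * q) * (r + d) ∧
      nuj q (n + 1) * ((2 * (n : ℝ) + 4 * q + 1) * (r + d) + (2 * (n : ℝ) + 2 * q + 3) * r) =
        ((n : ℝ) + 2) * r := by
  have hn : (0 : ℝ) ≤ n := Nat.cast_nonneg n
  refine ⟨KIM.pc (-1 / 2) q (n + 1) - KIM.pc (-1 / 2) q n, KIM.pc (-1 / 2) q n,
    by linarith [scb_mono h1 h2 n], scb_pos h1 h2 n, ?_, ?_⟩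
  · have hF := scb_F1 q n
    have hp := scb_pos h1 h2 n
    have hp' := scb_pos h1 h2 (n + 1)
    have hV : 0 < KIM.Vc (-1 / 2) q (n + 1) := by
      have h3 : 0 < ((n : ℝ) + 2 * q) * KIM.Vc (-1 / 2) q (n + 1) := by
        rw [hF]
        have : 0 < (2 * ((n : ℝ) + 1) + 2 * q - 1) := by linarith
        positivity
      exact (mul_pos_iff_of_pos_left (by linarith)).1 h3
    have h4 : muj q (n + 1) = KIM.pc (-1 / 2) q (n + 1) / KIM.Vc (-1 / 2) q (n + 1) := rfl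
    have h5 : (2 * (n : ℝ) + 2 * q + 1) * (KIM.pc (-1 / 2) q n + (KIM.pc (-1 / 2) q (n + 1) - KIM.pc (-1 / 2) q n)) +
        (2 * (n : ℝ) + 3) * KIM.pc (-1 / 2) q n = ((n : ℝ) + 2 * q) * KIM.Vc (-1 / 2) q (n + 1) := by
      linear_combination -hF
    rw [h5, h4, div_mul_eq_mul_div, div_eq_iff hV.ne']
    ring
  · have hF := scb_F2 q n
    have hp := scb_pos h1 h2 n
    have hp' := scb_pos h1 h2 (n + 1)
    have hV : 0 < KIM.Vc (-1 / 2) q (n + 2) := by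
      have h3 : 0 < ((n : ℝ) + 2) * KIM.Vc (-1 / 2) q (n + 2) := by
        rw [hF]
        have : 0 < (2 * ((n : ℝ) + 1) + 4 * q - 1) := by linarith
        positivity
      exact (mul_pos_iff_of_pos_left (by linarith)).1 h3
    have h4 : nuj q (n + 1) = KIM.pc (-1 / 2) q n / KIM.Vc (-1 / 2) q (n + 2) := by
      unfold nuj
      rw [if_neg (Nat.succ_ne_zero n)]
      rfl
    have h5 : (2 * (n : ℝ) + 4 * q + 1) * (KIM.pc (-1 / 2) q n + (KIM.pc (-1 / 2) q (n + 1) - KIM.pc (-1 / 2) q n)) +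
        (2 * (n : ℝ) + 2 * q + 3) * KIM.pc (-1 / 2) q n = ((n : ℝ) + 2) * KIM.Vc (-1 / 2) q (n + 2) := by
      linear_combination -hF
    rw [h5, h4, div_mul_eq_mul_div, div_eq_iff hV.ne']
    ring

/-- `A = 2 (mu - nu)` is at least `(3 q - 2) a / (a ^ 2 - q ^ 2)`, `a = 2 (j + q)`. -/
theorem scbA {q : ℝ} (h1 : 1 ≤ q) (h2 : q ≤ 2) {j : ℕ} (hj : 1 ≤ j) :
    (3 * q - 2) * (2 * (j : ℝ) + 2 * q) ≤
      ((2 * (j : ℝ) + 2 * q) ^ 2 - q ^ 2) * (2 * (muj q j - nuj q j)) := by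
  obtain ⟨n, rfl⟩ : ∃ n, j = n + 1 := ⟨j - 1, by omega⟩
  obtain ⟨d, r, hd, hr, hmu, hnu⟩ := scb_data h1 h2 n
  obtain ⟨s, hs, hs0⟩ : ∃ s : ℝ, (n : ℝ) = s ∧ 0 ≤ s := ⟨n, rfl, Nat.cast_nonneg n⟩
  obtain ⟨t, ht, ht0⟩ : ∃ t : ℝ, q = 1 + t ∧ 0 ≤ t := ⟨q - 1, by ring, by linarith⟩
  generalize muj q (n + 1) = mu at *
  generalize nuj q (n + 1) = nu at *
  push_cast
  rw [hs] at *
  subst ht
  set D1 := ((2 * s + 2 * (1 + t) + 1) * (r + d) + (2 * s + 3) * r) with hD1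
  set D2 := ((2 * s + 4 * (1 + t) + 1) * (r + d) + (2 * s + 2 * (1 + t) + 3) * r) with hD2
  have hD1p : 0 < D1 := by positivity
  have hD2p : 0 < D2 := by positivity
  have key : 0 ≤ ((2 * (s + 1) + 2 * (1 + t)) ^ 2 - (1 + t) ^ 2) * (2 * ((s + 2 * (1 + t)) * (r + d) * D2 -
      (s + 2) * r * D1)) - (3 * (1 + t) - 2) * (2 * (s + 1) + 2 * (1 + t)) * (D1 * D2) := by
    rw [hD1, hD2]
    ring_nf
    positivity
  have h3 : ((2 * (s + 1) + 2 * (1 + t)) ^ 2 - (1 + t) ^ 2) * (2 * (mu - nu)) * (D1 * D2) =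
      ((2 * (s + 1) + 2 * (1 + t)) ^ 2 - (1 + t) ^ 2) * (2 * ((s + 2 * (1 + t)) * (r + d) * D2 -
      (s + 2) * r * D1)) := by
    rw [← hmu, ← hnu]
    ring
  have h4 : (3 * (1 + t) - 2) * (2 * (s + 1) + 2 * (1 + t)) * (D1 * D2) ≤
      ((2 * (s + 1) + 2 * (1 + t)) ^ 2 - (1 + t) ^ 2) * (2 * (mu - nu)) * (D1 * D2) := by
    rw [h3]
    linarith
  exact le_of_mul_le_mul_right h4 (by positivity)

/-- `B = 2 (mu + nu) - 1` is at least `q (3 q - 2) / (a ^ 2 - q ^ 2)`, `a = 2 (j + q)`. -/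
theorem scbB {q : ℝ} (h1 : 1 ≤ q) (h2 : q ≤ 2) {j : ℕ} (hj : 1 ≤ j) :
    q * (3 * q - 2) ≤
      ((2 * (j : ℝ) + 2 * q) ^ 2 - q ^ 2) * (2 * (muj q j + nuj q j) - 1) := by
  obtain ⟨n, rfl⟩ : ∃ n, j = n + 1 := ⟨j - 1, by omega⟩
  obtain ⟨d, r, hd, hr, hmu, hnu⟩ := scb_data h1 h2 n
  obtain ⟨s, hs, hs0⟩ : ∃ s : ℝ, (n : ℝ) = s ∧ 0 ≤ s := ⟨n, rfl, Nat.cast_nonneg n⟩
  obtain ⟨t, ht, ht0⟩ : ∃ t : ℝ, q = 1 + t ∧ 0 ≤ t := ⟨q - 1, by ring, by linarith⟩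
  generalize muj q (n + 1) = mu at *
  generalize nuj q (n + 1) = nu at *
  push_cast
  rw [hs] at *
  subst ht
  set D1 := ((2 * s + 2 * (1 + t) + 1) * (r + d) + (2 * s + 3) * r) with hD1
  set D2 := ((2 * s + 4 * (1 + t) + 1) * (r + d) + (2 * s + 2 * (1 + t) + 3) * r) with hD2
  have hD1p : 0 < D1 := by positivity
  have hD2p : 0 < D2 := by positivity
  have key : 0 ≤ ((2 * (s + 1) + 2 * (1 + t)) ^ 2 - (1 + t) ^ 2) * (2 * ((s + 2 * (1 + t)) * (r + d) * D2 +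
      (s + 2) * r * D1) - D1 * D2) - (1 + t) * (3 * (1 + t) - 2) * (D1 * D2) := by
    rw [hD1, hD2]
    ring_nf
    positivity
  have h3 : ((2 * (s + 1) + 2 * (1 + t)) ^ 2 - (1 + t) ^ 2) * (2 * (mu + nu) - 1) * (D1 * D2) =
      ((2 * (s + 1) + 2 * (1 + t)) ^ 2 - (1 + t) ^ 2) * (2 * ((s + 2 * (1 + t)) * (r + d) * D2 +
      (s + 2) * r * D1) - D1 * D2) := by
    rw [← hmu, ← hnu]
    ring
  have h4 : (1 + t) * (3 * (1 + t) - 2) * (D1 * D2) ≤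
      ((2 * (s + 1) + 2 * (1 + t)) ^ 2 - (1 + t) ^ 2) * (2 * (mu + nu) - 1) * (D1 * D2) := by
    rw [h3]
    linarith
  exact le_of_mul_le_mul_right h4 (by positivity)

end Pool.Agent.KIQ
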