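import Pool.Agent.KIQ.Defs

/-!
# LZI: elementary inequalities for the kernels
-/

set_option autoImplicit false

open PowerSeries MeasureTheory Set

namespace Pool.Agent.KIQ

/-- Coefficient of `y ^ (2 n + 3)` in `sinh y ^ 3`. -/
private noncomputable def lzsC (n : ℕ) : ℝ :=
  (27 * 9 ^ n - 3) / (4 * ((2 * n + 3).factorial : ℝ))

/-- Coefficient of `y ^ (2 n + 3)` in `y ^ 3 cosh y`. -/
private noncomputable def lzcC (n : ℕ) : ℝ := 1 / ((2 * n).factorial : ℝ)

private theorem lz_hasSum_cosh3 (y : ℝ) :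
    HasSum (fun n : ℕ => lzcC n * y ^ (2 * n + 3)) (Real.cosh y * y ^ 3) := by
  have h := (Real.hasSum_cosh y).mul_right (y ^ 3)
  have e : (fun n : ℕ => lzcC n * y ^ (2 * n + 3)) =
      fun n : ℕ => y ^ (2 * n) / ((2 * n).factorial : ℝ) * y ^ 3 := by
    funext n
    unfold lzcC
    rw [pow_add]
    ring
  rw [e]
  exact h

private theorem lz_hasSum_sinh3 (y : ℝ) :
    HasSum (fun n : ℕ => lzsC n * y ^ (2 * n + 3)) (Real.sinh y ^ 3) := by
  have h1 := Real.hasSum_sinh (3 * y)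
  have h2 := (Real.hasSum_sinh y).mul_left 3
  have h3 := (h1.sub h2).mul_left (1 / 4)
  rw [Real.sinh_three_mul] at h3
  have e : 1 / 4 * (4 * Real.sinh y ^ 3 + 3 * Real.sinh y - 3 * Real.sinh y) = Real.sinh y ^ 3 := by
    ring
  rw [e, ← hasSum_nat_add_iff' 1] at h3
  have e0 : (∑ i ∈ Finset.range 1, 1 / 4 * ((3 * y) ^ (2 * i + 1) / ((2 * i + 1).factorial : ℝ) -
      3 * (y ^ (2 * i + 1) / ((2 * i + 1).factorial : ℝ)))) = 0 := by
    simp
  rw [e0, sub_zero] at h3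
  have e1 : (fun n : ℕ => lzsC n * y ^ (2 * n + 3)) =
      fun n : ℕ => 1 / 4 * ((3 * y) ^ (2 * (n + 1) + 1) / ((2 * (n + 1) + 1).factorial : ℝ) -
      3 * (y ^ (2 * (n + 1) + 1) / ((2 * (n + 1) + 1).factorial : ℝ))) := by
    funext n
    unfold lzsC
    have e2 : 2 * (n + 1) + 1 = 2 * n + 3 := by ring
    rw [e2, mul_pow]
    have e3 : (3 : ℝ) ^ (2 * n + 3) = 27 * 9 ^ n := by
      rw [pow_add, pow_mul]; norm_num; ring
    rw [e3]
    ring
  rw [e1]
  exact h3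

private theorem lz_one_le (n : ℕ) : (1 : ℝ) ≤ 9 ^ n := one_le_pow₀ (by norm_num)

private theorem lz_poly (n : ℕ) :
    4 * ((2 * (n : ℝ) + 3) * (2 * n + 2) * (2 * n + 1)) ≤ 27 * 9 ^ n - 3 := by
  induction n with
  | zero => norm_num
  | succ n ih =>
    have hn : (0 : ℝ) ≤ n := Nat.cast_nonneg n
    rw [pow_succ]
    push_cast
    nlinarith [mul_nonneg hn hn, mul_nonneg (mul_nonneg hn hn) hn]

private theorem lz_fac3 (n : ℕ) : ((2 * n + 3).factorial : ℝ) =
    (2 * n + 3) * (2 * n + 2) * (2 * n + 1) * ((2 * n).factorial : ℝ) := by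
  have h : (2 * n + 3).factorial =
      (2 * n + 3) * ((2 * n + 2) * ((2 * n + 1) * (2 * n).factorial)) := by
    rw [Nat.factorial_succ, Nat.factorial_succ, Nat.factorial_succ]
  rw [h]; push_cast; ring

private theorem lz_c_le_s (n : ℕ) : lzcC n ≤ lzsC n := by
  unfold lzcC lzsC
  have hF : (0 : ℝ) < ((2 * n).factorial : ℝ) := by exact_mod_cast Nat.factorial_pos _
  have hG : (0 : ℝ) < ((2 * n + 3).factorial : ℝ) := by exact_mod_cast Nat.factorial_pos _
  rw [div_le_div_iff₀ hF (by positivity), lz_fac3]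
  nlinarith [lz_poly n, mul_le_mul_of_nonneg_right (lz_poly n) hF.le]

private theorem lz_s_nonneg (n : ℕ) : 0 ≤ lzsC n :=
  le_trans (by unfold lzcC; positivity) (lz_c_le_s n)

private theorem lz_fac5 (n : ℕ) : ((2 * (n + 1) + 3).factorial : ℝ) =
    (2 * n + 5) * (2 * n + 4) * ((2 * n + 3).factorial : ℝ) := by
  have h : (2 * (n + 1) + 3).factorial = (2 * n + 5) * ((2 * n + 4) * (2 * n + 3).factorial) := by
    rw [show 2 * (n + 1) + 3 = (2 * n + 3) + 1 + 1 by ring, Nat.factorial_succ, Nat.factorial_succ]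
  rw [h]; push_cast; ring

private theorem lz_fac7 (n : ℕ) : ((2 * (n + 2) + 3).factorial : ℝ) =
    (2 * n + 7) * (2 * n + 6) * ((2 * n + 5) * (2 * n + 4)) * ((2 * n + 3).factorial : ℝ) := by
  have h := lz_fac5 (n + 1)
  rw [show n + 1 + 1 = n + 2 by ring, show 2 * (n + 1) + 3 = 2 * (n + 1) + 3 from rfl, lz_fac5 n] at h
  rw [h]; push_cast; ring

private theorem lz_s2 (n : ℕ) (hn : 1 ≤ n) : lzsC (n + 2) ≤ lzsC n / 15 := by
  unfold lzsC
  have hG : (0 : ℝ) < ((2 * n + 3).factorial : ℝ) := by exact_mod_cast Nat.factorial_pos _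
  have hn' : (1 : ℝ) ≤ n := by exact_mod_cast hn
  have hP : (1 : ℝ) ≤ 9 ^ n := lz_one_le n
  rw [lz_fac7, div_div, div_le_div_iff₀ (by positivity) (by positivity), pow_add]
  have hD : (3024 : ℝ) ≤ (2 * n + 7) * (2 * n + 6) * ((2 * n + 5) * (2 * n + 4)) := by
    have h1 : (72 : ℝ) ≤ (2 * n + 7) * (2 * n + 6) := by nlinarith
    have h2 : (42 : ℝ) ≤ (2 * n + 5) * (2 * n + 4) := by nlinarith
    nlinarith
  set D : ℝ := (2 * n + 7) * (2 * n + 6) * ((2 * n + 5) * (2 * n + 4)) with hDdef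
  set P : ℝ := 9 ^ n with hPdef
  set G : ℝ := ((2 * n + 3).factorial : ℝ) with hGdef
  have key : (27 * (P * 9 ^ 2) - 3) * 15 ≤ (27 * P - 3) * D := by
    have : (27 * P - 3) * 3024 ≤ (27 * P - 3) * D :=
      mul_le_mul_of_nonneg_left hD (by linarith)
    nlinarith
  have := mul_le_mul_of_nonneg_right key (by positivity : 0 ≤ 4 * G)
  nlinarith

private theorem lz_s1 (n : ℕ) (hn : 1 ≤ n) : lzsC (n + 1) / 15 ≤ lzsC n / 40 := by
  unfold lzsC
  have hG : (0 : ℝ) < ((2 * n + 3).factorial : ℝ) := by exact_mod_cast Nat.factorial_pos _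
  have hn' : (1 : ℝ) ≤ n := by exact_mod_cast hn
  have hP : (1 : ℝ) ≤ 9 ^ n := lz_one_le n
  rw [lz_fac5, div_div, div_div, div_le_div_iff₀ (by positivity) (by positivity), pow_succ]
  have hD : (42 : ℝ) ≤ (2 * n + 5) * (2 * n + 4) := by nlinarith
  set D : ℝ := (2 * n + 5) * (2 * n + 4) with hDdef
  set P : ℝ := 9 ^ n with hPdef
  set G : ℝ := ((2 * n + 3).factorial : ℝ) with hGdef
  have key : (27 * (P * 9) - 3) * 40 ≤ (27 * P - 3) * (D * 15) := by
    have : (27 * P - 3) * (42 * 15) ≤ (27 * P - 3) * (D * 15) :=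
      mul_le_mul_of_nonneg_left (by linarith) (by linarith)
    nlinarith
  have := mul_le_mul_of_nonneg_right key (by positivity : 0 ≤ 4 * G)
  nlinarith

/-- The coefficient `e_n` of `y ^ (2 n + 7)` in `y ^ 3 cosh y - (1 - y ^ 4 / 15) sinh y ^ 3`. -/
private noncomputable def lzeC (n : ℕ) : ℝ := lzcC (n + 2) - lzsC (n + 2) + lzsC n / 15

private theorem lz_e_zero : lzeC 0 = 0 := by
  unfold lzeC lzcC lzsC
  norm_num [Nat.factorial]

private theorem lz_e_nonneg (n : ℕ) : 0 ≤ lzeC n := by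
  rcases Nat.eq_zero_or_pos n with h | h
  · rw [h, lz_e_zero]
  · have h1 := lz_s2 n h
    have h2 : 0 ≤ lzcC (n + 2) := by unfold lzcC; positivity
    unfold lzeC
    linarith

private theorem lz_hasSum_e (y : ℝ) :
    HasSum (fun n : ℕ => lzeC n * y ^ (2 * n + 7))
      (Real.cosh y * y ^ 3 - (1 - y ^ 4 / 15) * Real.sinh y ^ 3) := by
  have h1 := (lz_hasSum_cosh3 y).sub (lz_hasSum_sinh3 y)
  rw [← hasSum_nat_add_iff' 2] at h1
  have e0 : (∑ i ∈ Finset.range 2, (lzcC i * y ^ (2 * i + 3) - lzsC i * y ^ (2 * i + 3))) = 0 := by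
    rw [Finset.sum_range_succ, Finset.sum_range_one]
    unfold lzcC lzsC
    norm_num [Nat.factorial]
  rw [e0, sub_zero] at h1
  have h2 := (lz_hasSum_sinh3 y).mul_left (y ^ 4 / 15)
  have h3 := h1.add h2
  have e1 : (fun n : ℕ => lzeC n * y ^ (2 * n + 7)) =
      fun b : ℕ => lzcC (b + 2) * y ^ (2 * (b + 2) + 3) - lzsC (b + 2) * y ^ (2 * (b + 2) + 3) +
        y ^ 4 / 15 * (lzsC b * y ^ (2 * b + 3)) := by
    funext n
    unfold lzeC
    rw [show 2 * (n + 2) + 3 = 2 * n + 7 by ring, show 2 * n + 7 = (2 * n + 3) + 4 by ring,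
      pow_add y (2 * n + 3) 4]
    ring
  have e2 : Real.cosh y * y ^ 3 - (1 - y ^ 4 / 15) * Real.sinh y ^ 3 =
      Real.cosh y * y ^ 3 - Real.sinh y ^ 3 + y ^ 4 / 15 * Real.sinh y ^ 3 := by ring
  rw [e1, e2]
  exact h3

theorem cosh_mul_le {y : ℝ} (hy : 0 < y) : Real.cosh y * y ^ 3 ≤ Real.sinh y ^ 3 :=
  hasSum_le (fun n => mul_le_mul_of_nonneg_right (lz_c_le_s n) (by positivity))
    (lz_hasSum_cosh3 y) (lz_hasSum_sinh3 y)

theorem cosh_mul_ge {y : ℝ} (hy : 0 < y) :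
    (1 - y ^ 4 / 15) * Real.sinh y ^ 3 ≤ Real.cosh y * y ^ 3 := by
  have h := (lz_hasSum_e y).nonneg (fun n => mul_nonneg (lz_e_nonneg n) (by positivity))
  linarith

private theorem lz_f (n : ℕ) : lzeC (n + 1) ≤ lzsC n / 40 := by
  rcases Nat.eq_zero_or_pos n with h | h
  · subst h
    unfold lzeC lzcC lzsC
    norm_num [Nat.factorial]
  · have h1 := lz_s1 n h
    have h2 := lz_c_le_s (n + 1 + 2)
    unfold lzeC
    linarith

private theorem lz_cosh_mul_le' {y : ℝ} (hy : 0 < y) :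
    Real.cosh y * y ^ 3 ≤ (1 - y ^ 4 / 15 + y ^ 6 / 40) * Real.sinh y ^ 3 := by
  have h1 := lz_hasSum_e y
  rw [← hasSum_nat_add_iff' 1] at h1
  rw [Finset.sum_range_one, lz_e_zero, zero_mul, sub_zero] at h1
  have h2 := (lz_hasSum_sinh3 y).mul_left (y ^ 6 / 40)
  have h3 := hasSum_le (fun n => ?_) h1 h2
  · linarith
  · have e : y ^ 6 / 40 * (lzsC n * y ^ (2 * n + 3)) = lzsC n / 40 * y ^ (2 * (n + 1) + 7) := by
      rw [show 2 * (n + 1) + 7 = (2 * n + 3) + 6 by ring, pow_add y (2 * n + 3) 6]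
      ring
    rw [e]
    exact mul_le_mul_of_nonneg_right (lz_f n) (by positivity)

theorem cosh_mul_le' {y : ℝ} (hy : 0 < y) (hy1 : y ≤ 4 / 3) :
    Real.cosh y * y ^ 3 ≤ (1 - y ^ 4 / 15 + y ^ 6 / 40) * Real.sinh y ^ 3 :=
  lz_cosh_mul_le' hy

/-- `b(y) = cosh y (y / sinh y) ^ 3`. -/
private noncomputable def lzb (y : ℝ) : ℝ := Real.cosh y * y ^ 3 / Real.sinh y ^ 3

private theorem lz_sinh_pos {y : ℝ} (hy : 0 < y) : 0 < Real.sinh y := Real.sinh_pos_iff.mpr hy

private theorem lz_b_pos {y : ℝ} (hy : 0 < y) : 0 < lzb y := by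
  have h1 := lz_sinh_pos hy
  have h2 := Real.cosh_pos y
  unfold lzb
  positivity

private theorem lz_b_le_one {y : ℝ} (hy : 0 < y) : lzb y ≤ 1 := by
  have h1 := lz_sinh_pos hy
  unfold lzb
  rw [div_le_one (by positivity)]
  exact cosh_mul_le hy

private theorem lz_b_ge {y : ℝ} (hy : 0 < y) : 1 - y ^ 4 / 15 ≤ lzb y := by
  have h1 := lz_sinh_pos hy
  unfold lzb
  rw [le_div_iff₀ (by positivity)]
  exact cosh_mul_ge hy

private theorem lz_b_le' {y : ℝ} (hy : 0 < y) : lzb y ≤ 1 - y ^ 4 / 15 + y ^ 6 / 40 := by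
  have h1 := lz_sinh_pos hy
  unfold lzb
  rw [div_le_iff₀ (by positivity)]
  exact lz_cosh_mul_le' hy

private theorem lz_hK_eq {q y : ℝ} (hy : 0 < y) : hK q y = y ^ (-(3 * q)) * lzb y ^ q := by
  have h1 := lz_sinh_pos hy
  have h2 := Real.cosh_pos y
  have e1 : Real.sinh y ^ (-(3 * q)) = (Real.sinh y ^ 3) ^ (-q) := by
    rw [← Real.rpow_natCast (Real.sinh y) 3, ← Real.rpow_mul h1.le]
    congr 1; push_cast; ring
  have e2 : y ^ (-(3 * q)) = (y ^ 3) ^ (-q) := by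
    rw [← Real.rpow_natCast y 3, ← Real.rpow_mul hy.le]
    congr 1; push_cast; ring
  unfold hK lzb
  rw [e1, e2, Real.div_rpow (by positivity) (by positivity), Real.mul_rpow h2.le (by positivity),
    Real.rpow_neg (by positivity), Real.rpow_neg (by positivity)]
  have h3 : (0 : ℝ) < (y ^ 3) ^ q := by positivity
  field_simp

theorem hK_le {q y : ℝ} (hq : 0 ≤ q) (hy : 0 < y) : hK q y ≤ y ^ (-(3 * q)) := by
  rw [lz_hK_eq hy]
  have h1 : lzb y ^ q ≤ 1 := Real.rpow_le_one (lz_b_pos hy).le (lz_b_le_one hy) hq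
  have h2 : 0 ≤ y ^ (-(3 * q)) := by positivity
  nlinarith

private theorem lz_pow4 {q y : ℝ} (hy : 0 < y) :
    y ^ (4 - 3 * q) = y ^ (-(3 * q)) * y ^ 4 := by
  rw [← Real.rpow_natCast y 4, ← Real.rpow_add hy]
  congr 1; push_cast; ring

private theorem lz_pow5 {q y : ℝ} (hy : 0 < y) :
    y ^ (5 - 3 * q) = y ^ (-(3 * q)) * y ^ 5 := by
  rw [← Real.rpow_natCast y 5, ← Real.rpow_add hy]
  congr 1; push_cast; ring

theorem hK_ge {q y : ℝ} (hq : 1 ≤ q) (hy : 0 < y) :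
    y ^ (-(3 * q)) - q / 15 * y ^ (4 - 3 * q) ≤ hK q y := by
  rw [lz_hK_eq hy, lz_pow4 hy]
  have hb := lz_b_pos hy
  have h1 : 1 + q * (lzb y - 1) ≤ (1 + (lzb y - 1)) ^ q :=
    one_add_mul_self_le_rpow_one_add (by linarith) hq
  have h1' : 1 + q * (lzb y - 1) ≤ lzb y ^ q := by
    have e : 1 + (lzb y - 1) = lzb y := by ring
    rwa [e] at h1
  have h2 : 0 ≤ y ^ (-(3 * q)) := by positivity
  have h3 := lz_b_ge hy
  have h4 : 1 - q / 15 * y ^ 4 ≤ lzb y ^ q := by nlinarith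
  have := mul_le_mul_of_nonneg_left h4 h2
  nlinarith

theorem hK_le5 {q y : ℝ} (hq : 1 ≤ q) (hq2 : q ≤ 2) (hy : 0 < y) :
    hK q y ≤ y ^ (-(3 * q)) - q / 15 * y ^ (4 - 3 * q) + 1 / 10 * y ^ (5 - 3 * q) := by
  rw [lz_hK_eq hy, lz_pow4 hy, lz_pow5 hy]
  have hb := lz_b_pos hy
  have hb1 := lz_b_le_one hy
  have h2 : 0 ≤ y ^ (-(3 * q)) := by positivity
  have key : lzb y ^ q ≤ 1 - q / 15 * y ^ 4 + 1 / 10 * y ^ 5 := by
    rcases le_total (4 / 3) y with h | h
    · have h3 : lzb y ^ q ≤ 1 := Real.rpow_le_one hb.le hb1 (by linarith)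
      have h4 : q / 15 * y ^ 4 ≤ 1 / 10 * y ^ 5 := by
        have h5 : q / 15 ≤ 1 / 10 * y := by linarith
        have h6 := mul_le_mul_of_nonneg_right h5 (by positivity : 0 ≤ y ^ 4)
        nlinarith
      linarith
    · have h3 := lz_b_ge hy
      have h4 := lz_b_le' hy
      have h5 : lzb y ^ q ≤ (2 - q) * lzb y + (q - 1) * lzb y ^ 2 := by
        have h6 := Real.geom_mean_le_arith_mean2_weighted (w₁ := 2 - q) (w₂ := q - 1)
          (p₁ := lzb y) (p₂ := lzb y ^ 2) (by linarith) (by linarith) hb.le (by positivity)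
          (by ring)
        have e : lzb y ^ (2 - q) * (lzb y ^ 2) ^ (q - 1) = lzb y ^ q := by
          rw [← Real.rpow_natCast (lzb y) 2, ← Real.rpow_mul hb.le, ← Real.rpow_add hb]
          congr 1; push_cast; ring
        rwa [e] at h6
      obtain ⟨t, ht⟩ : ∃ t, t = 1 - lzb y := ⟨_, rfl⟩
      have hb' : lzb y = 1 - t := by linarith
      have ht0 : 0 ≤ t := by linarith
      have ht1 : t ≤ y ^ 4 / 15 := by linarith
      have ht2 : y ^ 4 / 15 - y ^ 6 / 40 ≤ t := by linarith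
      rw [hb'] at h5 ⊢
      have h7 : (2 - q) * (1 - t) + (q - 1) * (1 - t) ^ 2 = 1 - q * t + (q - 1) * t ^ 2 := by ring
      have h8 : t ^ 2 ≤ (y ^ 4 / 15) ^ 2 := by
        apply pow_le_pow_left₀ ht0 ht1
      have h9 : (q - 1) * t ^ 2 ≤ (y ^ 4 / 15) ^ 2 := by
        have : (q - 1) * t ^ 2 ≤ 1 * t ^ 2 :=
          mul_le_mul_of_nonneg_right (by linarith) (by positivity)
        linarith
      have h10 : q * (y ^ 4 / 15 - y ^ 6 / 40) ≤ q * t :=
        mul_le_mul_of_nonneg_left ht2 (by linarith)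
      have h11 : q * (y ^ 6 / 40) ≤ 2 * (y ^ 6 / 40) :=
        mul_le_mul_of_nonneg_right hq2 (by positivity)
      have h12 : 2 * (y ^ 6 / 40) + (y ^ 4 / 15) ^ 2 ≤ 1 / 10 * y ^ 5 := by
        have h13 : y ^ 3 ≤ (4 / 3) ^ 3 := pow_le_pow_left₀ hy.le h 3
        have h14 : y / 20 + y ^ 3 / 225 ≤ 1 / 10 := by
          have : (4 / 3 : ℝ) ^ 3 = 64 / 27 := by norm_num
          rw [this] at h13
          linarith
        have h15 := mul_le_mul_of_nonneg_right h14 (by positivity : 0 ≤ y ^ 5)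
        nlinarith
      nlinarith
  have := mul_le_mul_of_nonneg_left key h2
  nlinarith

theorem gK_nonneg {q y : ℝ} (hy : 0 < y) : 0 ≤ gK q y := by
  have h1 := lz_sinh_pos hy
  have h2 := Real.cosh_pos y
  unfold gK
  positivity

private theorem lz_sinh_le {y : ℝ} (hy : 0 < y) : Real.sinh y ≤ Real.cosh y * y := by
  refine hasSum_le (fun n => ?_) (Real.hasSum_sinh y) ((Real.hasSum_cosh y).mul_right y)
  have hF : (0 : ℝ) < ((2 * n).factorial : ℝ) := by exact_mod_cast Nat.factorial_pos _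
  have hG : (0 : ℝ) < ((2 * n + 1).factorial : ℝ) := by exact_mod_cast Nat.factorial_pos _
  have hFG : ((2 * n).factorial : ℝ) ≤ ((2 * n + 1).factorial : ℝ) := by
    exact_mod_cast Nat.factorial_le (by omega)
  rw [div_mul_eq_mul_div, ← pow_succ]
  exact div_le_div_of_nonneg_left (by positivity) hF hFG

theorem gK_le {q k y : ℝ} (hq : 0 < q) (hk : 0 ≤ k) (hy : 0 < y) :
    gK q y ≤ y ^ (k - 3 * q) * Real.tanh y ^ (4 * q - k) := by
  have h1 := lz_sinh_pos hy
  have h2 := Real.cosh_pos y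
  set S := Real.log (Real.sinh y) with hS
  set C := Real.log (Real.cosh y) with hC
  set Y := Real.log y with hY
  have hC0 : 0 ≤ C := Real.log_nonneg (Real.one_le_cosh y)
  have hA : C + 3 * Y ≤ 3 * S := by
    have := Real.log_le_log (by positivity) (cosh_mul_le hy)
    rw [Real.log_mul (by positivity) (by positivity), Real.log_pow, Real.log_pow] at this
    push_cast at this
    linarith
  have hB : S ≤ C + Y := by
    have := Real.log_le_log h1 (lz_sinh_le hy)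
    rw [Real.log_mul (by positivity) (by positivity)] at this
    linarith
  have eL : gK q y = Real.exp (q * S - 3 * q * C) := by
    unfold gK
    rw [Real.rpow_def_of_pos h1, Real.rpow_def_of_pos h2, ← Real.exp_add]
    congr 1; ring
  have eR : y ^ (k - 3 * q) * Real.tanh y ^ (4 * q - k) =
      Real.exp ((k - 3 * q) * Y + (4 * q - k) * (S - C)) := by
    rw [Real.tanh_eq_sinh_div_cosh, Real.rpow_def_of_pos hy, Real.rpow_def_of_pos (by positivity),
      Real.log_div h1.ne' h2.ne', ← Real.exp_add]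
    congr 1; ring
  rw [eL, eR]
  apply Real.exp_le_exp.mpr
  rcases le_total k (3 * q) with h | h
  · have h3 : (3 * q - k) * (C / 3) ≤ (3 * q - k) * (S - Y) :=
      mul_le_mul_of_nonneg_left (by linarith) (by linarith)
    have h4 : 0 ≤ k * C := mul_nonneg hk hC0
    nlinarith
  · have h3 : (k - 3 * q) * (S - Y) ≤ (k - 3 * q) * C :=
      mul_le_mul_of_nonneg_left (by linarith) (by linarith)
    have h4 : 0 ≤ q * C := mul_nonneg hq.le hC0
    nlinarith

end Pool.Agent.KIQ
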