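import Pool.Agent.KIQ.Defs

/-!
# SWP: interchange of sum and integral
-/

set_option autoImplicit false

open PowerSeries MeasureTheory Set

namespace Pool.Agent.KIQ

private theorem exp_int {q : ℝ} {κ : ℝ → ℝ}
    (hκ : IntegrableOn (fun y => Real.exp (-(2 * q * y)) * κ y) (Ioi 0)) (N : ℕ) :
    IntegrableOn (fun y => Real.exp (-(aN q N * y)) * κ y) (Ioi 0) ∧
      (∫ y in Ioi (0 : ℝ), ‖Real.exp (-(aN q N * y)) * κ y‖) ≤
        ∫ y in Ioi (0 : ℝ), ‖Real.exp (-(2 * q * y)) * κ y‖ := by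
  have key : ∀ y : ℝ, Real.exp (-(aN q N * y)) * κ y =
      Real.exp (-(2 * (N : ℝ) * y)) * (Real.exp (-(2 * q * y)) * κ y) := by
    intro y
    rw [← mul_assoc, ← Real.exp_add]
    congr 2
    unfold aN
    ring
  have hle : ∀ y ∈ Ioi (0 : ℝ), ‖Real.exp (-(aN q N * y)) * κ y‖ ≤
      ‖Real.exp (-(2 * q * y)) * κ y‖ := by
    intro y hy
    rw [key, norm_mul]
    have h1 : ‖Real.exp (-(2 * (N : ℝ) * y))‖ ≤ 1 := by
      rw [Real.norm_eq_abs, abs_of_pos (Real.exp_pos _)]
      apply Real.exp_le_one_iff.mpr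
      have : 0 ≤ 2 * (N : ℝ) * y := mul_nonneg (by positivity) (le_of_lt hy)
      linarith
    calc ‖Real.exp (-(2 * (N : ℝ) * y))‖ * ‖Real.exp (-(2 * q * y)) * κ y‖
        ≤ 1 * ‖Real.exp (-(2 * q * y)) * κ y‖ :=
          mul_le_mul_of_nonneg_right h1 (norm_nonneg _)
      _ = _ := one_mul _
  have hint : IntegrableOn (fun y => Real.exp (-(aN q N * y)) * κ y) (Ioi 0) := by
    have hm : AEStronglyMeasurable (fun y => Real.exp (-(aN q N * y)) * κ y)
        (volume.restrict (Ioi 0)) := by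
      have h2 : AEStronglyMeasurable (fun y : ℝ => Real.exp (-(2 * (N : ℝ) * y)))
          (volume.restrict (Ioi 0)) := by
        apply Continuous.aestronglyMeasurable
        fun_prop
      have h3 := h2.mul hκ.aestronglyMeasurable
      refine h3.congr (Filter.Eventually.of_forall ?_)
      intro y
      simp only [Pi.mul_apply]
      exact (key y).symm
    refine Integrable.mono hκ hm ?_
    exact (ae_restrict_iff' measurableSet_Ioi).mpr (Filter.Eventually.of_forall hle)
  refine ⟨hint, ?_⟩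
  exact setIntegral_mono_on hint.norm hκ.norm measurableSet_Ioi hle

private theorem swap_core {q : ℝ} (hq : 0 < q) {κ : ℝ → ℝ}
    (hκ : IntegrableOn (fun y => Real.exp (-(2 * q * y)) * κ y) (Ioi 0))
    {G : ℕ → ℝ} (hG : Summable fun N => |G N|) :
    IntegrableOn (fun y => κ y * ∑' N, G N * Real.exp (-(aN q N * y))) (Ioi 0) ∧
      HasSum (fun N => G N * ∫ y in Ioi (0 : ℝ), Real.exp (-(aN q N * y)) * κ y)
        (∫ y in Ioi (0 : ℝ), κ y * ∑' N, G N * Real.exp (-(aN q N * y))) := by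
  have hsum : ∀ y ∈ Ioi (0 : ℝ), Summable fun N => G N * Real.exp (-(aN q N * y)) := by
    intro y hy
    refine Summable.of_norm_bounded (g := fun N => |G N|) hG ?_
    intro N
    rw [norm_mul, Real.norm_eq_abs, Real.norm_eq_abs, abs_of_pos (Real.exp_pos _)]
    have h1 : Real.exp (-(aN q N * y)) ≤ 1 := by
      apply Real.exp_le_one_iff.mpr
      have : 0 ≤ aN q N * y := mul_nonneg (by unfold aN; positivity) (le_of_lt hy)
      linarith
    calc |G N| * Real.exp (-(aN q N * y)) ≤ |G N| * 1 :=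
          mul_le_mul_of_nonneg_left h1 (abs_nonneg _)
      _ = |G N| := mul_one _
  have hterm : ∀ N, Integrable (fun y => κ y * (G N * Real.exp (-(aN q N * y))))
      (volume.restrict (Ioi 0)) := by
    intro N
    have h1 := ((exp_int hκ N).1).const_mul (G N)
    refine h1.congr (Filter.Eventually.of_forall ?_)
    intro y
    simp only []
    ring
  have hnorm : ∀ N, (∫ y in Ioi (0 : ℝ), ‖κ y * (G N * Real.exp (-(aN q N * y)))‖) ≤
      |G N| * ∫ y in Ioi (0 : ℝ), ‖Real.exp (-(2 * q * y)) * κ y‖ := by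
    intro N
    have e1 : (∫ y in Ioi (0 : ℝ), ‖κ y * (G N * Real.exp (-(aN q N * y)))‖) =
        |G N| * ∫ y in Ioi (0 : ℝ), ‖Real.exp (-(aN q N * y)) * κ y‖ := by
      rw [← integral_const_mul]
      congr 1
      funext y
      rw [norm_mul, norm_mul, norm_mul, Real.norm_eq_abs (G N)]
      ring
    rw [e1]
    exact mul_le_mul_of_nonneg_left (exp_int hκ N).2 (abs_nonneg _)
  have hS : Summable fun N => ∫ y in Ioi (0 : ℝ), ‖κ y * (G N * Real.exp (-(aN q N * y)))‖ := by
    refine Summable.of_nonneg_of_le (fun N => ?_) hnorm (hG.mul_right _)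
    exact integral_nonneg fun y => norm_nonneg _
  have H := hasSum_integral_of_summable_integral_norm hterm hS
  have hpt : ∀ y ∈ Ioi (0 : ℝ), (∑' N, κ y * (G N * Real.exp (-(aN q N * y)))) =
      κ y * ∑' N, G N * Real.exp (-(aN q N * y)) := fun y _ => tsum_mul_left
  have hval : ∀ N, (∫ y in Ioi (0 : ℝ), κ y * (G N * Real.exp (-(aN q N * y)))) =
      G N * ∫ y in Ioi (0 : ℝ), Real.exp (-(aN q N * y)) * κ y := by
    intro N
    rw [← integral_const_mul]
    congr 1
    funext y
    ring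
  constructor
  · have hm : AEStronglyMeasurable (fun y => κ y * ∑' N, G N * Real.exp (-(aN q N * y)))
        (volume.restrict (Ioi 0)) := by
      have hpart : ∀ n : ℕ, AEStronglyMeasurable
          (fun y => ∑ N ∈ Finset.range n, κ y * (G N * Real.exp (-(aN q N * y))))
          (volume.restrict (Ioi 0)) := by
        intro n
        have := Finset.aestronglyMeasurable_fun_sum (Finset.range n)
          (fun N _ => (hterm N).aestronglyMeasurable)
        exact this
      refine aestronglyMeasurable_of_tendsto_ae Filter.atTop hpart ?_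
      refine (ae_restrict_iff' measurableSet_Ioi).mpr (Filter.Eventually.of_forall ?_)
      intro y hy
      have := ((hsum y hy).hasSum.mul_left (κ y)).tendsto_sum_nat
      exact this
    refine Integrable.mono (hκ.norm.const_mul (∑' N, |G N|)) hm ?_
    refine (ae_restrict_iff' measurableSet_Ioi).mpr (Filter.Eventually.of_forall ?_)
    intro y hy
    have hb : |∑' N, G N * Real.exp (-(aN q N * y))| ≤
        (∑' N, |G N|) * Real.exp (-(2 * q * y)) := by
      have hb1 : ∀ N, ‖G N * Real.exp (-(aN q N * y))‖ ≤ |G N| * Real.exp (-(2 * q * y)) := by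
        intro N
        rw [norm_mul, Real.norm_eq_abs, Real.norm_eq_abs, abs_of_pos (Real.exp_pos _)]
        refine mul_le_mul_of_nonneg_left (Real.exp_le_exp.mpr ?_) (abs_nonneg _)
        have : 0 ≤ 2 * (N : ℝ) * y := mul_nonneg (by positivity) (le_of_lt hy)
        unfold aN
        nlinarith
      have := tsum_of_norm_bounded (hG.mul_right (Real.exp (-(2 * q * y)))).hasSum hb1
      rw [tsum_mul_right] at this
      exact this
    rw [norm_mul, Real.norm_eq_abs (∑' N, G N * Real.exp (-(aN q N * y))), norm_mul, norm_norm,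
      norm_mul, Real.norm_eq_abs (Real.exp _), abs_of_pos (Real.exp_pos _)]
    have h0 : 0 ≤ ∑' N, |G N| := tsum_nonneg fun N => abs_nonneg _
    rw [Real.norm_eq_abs (∑' N, |G N|), abs_of_nonneg h0]
    calc ‖κ y‖ * |∑' N, G N * Real.exp (-(aN q N * y))|
        ≤ ‖κ y‖ * ((∑' N, |G N|) * Real.exp (-(2 * q * y))) :=
          mul_le_mul_of_nonneg_left hb (norm_nonneg _)
      _ = _ := by ring
  · have e2 : (∫ y in Ioi (0 : ℝ), ∑' N, κ y * (G N * Real.exp (-(aN q N * y)))) =
        ∫ y in Ioi (0 : ℝ), κ y * ∑' N, G N * Real.exp (-(aN q N * y)) :=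
      setIntegral_congr_fun measurableSet_Ioi hpt
    rw [e2] at H
    simpa only [hval] using H

theorem summable_aux {q x : ℝ} (hq : 0 < q) (hx0 : 0 < x) (hx1 : x < 1) {F : ℕ → ℝ}
    (hF : ∀ ρ : ℝ, 0 ≤ ρ → ρ < 1 → Summable fun N => |F N| * ρ ^ N) (j : ℕ) :
    Summable fun N => |F N| * x ^ N * aN q N ^ j := by
  set ρ : ℝ := (1 + x) / 2 with hρ
  have hρ1 : ρ < 1 := by rw [hρ]; linarith
  have hρx : x < ρ := by rw [hρ]; linarith
  have hρ0 : 0 < ρ := by linarith
  set c : ℝ := Real.log (ρ / x) / 2 with hc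
  have hc0 : 0 < c := by
    have : 0 < Real.log (ρ / x) := Real.log_pos (by rw [lt_div_iff₀ hx0]; linarith)
    rw [hc]; linarith
  have hexp : Real.exp (2 * c) = ρ / x := by
    rw [hc, mul_div_cancel₀ _ (two_ne_zero), Real.exp_log (by positivity)]
  have hbound : ∀ N, |F N| * x ^ N * aN q N ^ j ≤
      (|F N| * ρ ^ N) * ((j.factorial : ℝ) / c ^ j * Real.exp (2 * q * c)) := by
    intro N
    have ha : 0 ≤ aN q N := by unfold aN; positivity
    have h1 : (c * aN q N) ^ j / (j.factorial : ℝ) ≤ Real.exp (c * aN q N) :=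
      Real.pow_div_factorial_le_exp _ (by positivity) j
    have h2 : Real.exp (c * aN q N) = (ρ / x) ^ N * Real.exp (2 * q * c) := by
      rw [← hexp, ← Real.exp_nat_mul, ← Real.exp_add]
      congr 1
      unfold aN
      ring
    have hf : (0 : ℝ) < (j.factorial : ℝ) := by exact_mod_cast Nat.factorial_pos j
    have h3 : aN q N ^ j ≤ (j.factorial : ℝ) / c ^ j * Real.exp (c * aN q N) := by
      rw [mul_pow, div_le_iff₀ hf] at h1
      rw [div_mul_eq_mul_div, le_div_iff₀ (by positivity)]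
      linarith
    have h4 : x ^ N * (ρ / x) ^ N = ρ ^ N := by
      rw [← mul_pow, mul_div_cancel₀ _ hx0.ne']
    calc |F N| * x ^ N * aN q N ^ j
        ≤ |F N| * x ^ N * ((j.factorial : ℝ) / c ^ j * Real.exp (c * aN q N)) :=
          mul_le_mul_of_nonneg_left h3 (by positivity)
      _ = (|F N| * (x ^ N * (ρ / x) ^ N)) *
          ((j.factorial : ℝ) / c ^ j * Real.exp (2 * q * c)) := by
          rw [h2]; ring
      _ = _ := by rw [h4]
  refine Summable.of_nonneg_of_le (fun N => ?_) hbound ((hF ρ hρ0.le hρ1).mul_right _)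
  have ha : 0 ≤ aN q N := by unfold aN; positivity
  positivity

theorem swap_psi {q x : ℝ} (hq : 0 < q) (hx0 : 0 < x) (hx1 : x < 1) {F : ℕ → ℝ}
    (hF : ∀ ρ : ℝ, 0 ≤ ρ → ρ < 1 → Summable fun N => |F N| * ρ ^ N)
    {κ : ℝ → ℝ} (hκ : IntegrableOn (fun y => Real.exp (-(2 * q * y)) * κ y) (Ioi 0)) (j : ℕ) :
    IntegrableOn (fun y => κ y * psi q F x j y) (Ioi 0) ∧
      HasSum (fun N => F N * x ^ N * aN q N ^ j *
        ∫ y in Ioi (0 : ℝ), Real.exp (-(aN q N * y)) * κ y)
        (∫ y in Ioi (0 : ℝ), κ y * psi q F x j y) := by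
  have hG : Summable fun N => |F N * x ^ N * aN q N ^ j| := by
    refine (summable_aux hq hx0 hx1 hF j).congr fun N => ?_
    have ha : 0 ≤ aN q N := by unfold aN; positivity
    rw [abs_mul, abs_mul, abs_of_nonneg (pow_nonneg hx0.le N), abs_of_nonneg (pow_nonneg ha j)]
  exact swap_core hq hκ hG

theorem swap_psiM {q x : ℝ} (hq : 0 < q) (hx0 : 0 < x) (hx1 : x < 1) {F : ℕ → ℝ}
    (hF : ∀ ρ : ℝ, 0 ≤ ρ → ρ < 1 → Summable fun N => |F N| * ρ ^ N)
    {κ : ℝ → ℝ} (hκ : IntegrableOn (fun y => Real.exp (-(2 * q * y)) * κ y) (Ioi 0)) :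
    IntegrableOn (fun y => κ y * psiM q F x y) (Ioi 0) ∧
      HasSum (fun N => (-1) ^ N * F N * x ^ N *
        ∫ y in Ioi (0 : ℝ), Real.exp (-(aN q N * y)) * κ y)
        (∫ y in Ioi (0 : ℝ), κ y * psiM q F x y) := by
  have hG : Summable fun N => |(-1) ^ N * F N * x ^ N| := by
    refine (summable_aux hq hx0 hx1 hF 0).congr fun N => ?_
    rw [abs_mul, abs_mul, abs_of_nonneg (pow_nonneg hx0.le N), abs_pow, abs_neg, abs_one, one_pow,
      one_mul, pow_zero, mul_one]
  exact swap_core hq hκ hG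

end Pool.Agent.KIQ
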