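import Pool.Agent.KIQ.KER
import Pool.Agent.KIQ.LZI
import Pool.Agent.KIQ.CQB
import Pool.Agent.KIQ.SWP

/-!
# SUM4: the full sum is nonnegative
-/

set_option autoImplicit false

open PowerSeries MeasureTheory Set

namespace Pool.Agent.KIQ

private theorem s4_gam {q a : ℝ} (hq : q < 5 / 3) (ha : 0 < a) :
    ∫ y in Ioi (0 : ℝ), Real.exp (-(a * y)) * y ^ (4 - 3 * q) =
      a ^ (3 * q - 5) * Real.Gamma (5 - 3 * q) := by
  have h := Real.integral_rpow_mul_exp_neg_mul_Ioi (a := 5 - 3 * q) (r := a) (by linarith) ha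
  have e : (5 - 3 * q - 1 : ℝ) = 4 - 3 * q := by ring
  rw [e] at h
  have h2 : ∫ y in Ioi (0 : ℝ), Real.exp (-(a * y)) * y ^ (4 - 3 * q) =
      ∫ y in Ioi (0 : ℝ), y ^ (4 - 3 * q) * Real.exp (-(a * y)) := by
    congr 1; ext y; ring
  rw [h2, h, one_div, Real.inv_rpow ha.le, ← Real.rpow_neg ha.le]
  congr 2; ring

private theorem s4_gint {q a : ℝ} (hq : q < 5 / 3) (ha : 0 < a) :
    IntegrableOn (fun y => Real.exp (-(a * y)) * y ^ (4 - 3 * q)) (Ioi 0) := by
  have h := integrableOn_rpow_mul_exp_neg_mul_rpow (p := 1) (s := 4 - 3 * q) (b := a)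
    (by linarith) (by norm_num) ha
  refine h.congr_fun (fun y hy => ?_) measurableSet_Ioi
  simp only [Real.rpow_one]
  rw [neg_mul]; ring

theorem sum4 {q x : ℝ} (hq1 : 5 / 4 ≤ q) (hq2 : q ≤ 8 / 5) (hx0 : 0 < x) (hx1 : x < 1) {F : ℕ → ℝ}
    (hF : ∀ ρ : ℝ, 0 ≤ ρ → ρ < 1 → Summable fun N => |F N| * ρ ^ N)
    (h0 : ∀ y : ℝ, 0 < y → 0 ≤ psi q F x 0 y)
    (hk : ∀ y : ℝ, 0 < y → 31 * Real.tanh y ^ (4 * q - 4) * |psiM q F x y| + 2 * psi q F x 0 y ≤
        psi q F x 4 y) :
    0 ≤ ∑' N, cN q N * x ^ N * F N := by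
  have hq0 : 0 < q := by linarith
  have hq53 : q < 5 / 3 := by linarith
  have haN : ∀ N, 0 < aN q N := fun N => by
    unfold aN; have : (0 : ℝ) ≤ N := Nat.cast_nonneg N; linarith
  set G1 := Real.Gamma (3 * q) with hG1
  set G2 := Real.Gamma (5 - 3 * q) with hG2
  have hG1p : 0 < G1 := Real.Gamma_pos_of_pos (by linarith)
  have hG2p : 0 < G2 := Real.Gamma_pos_of_pos (by linarith)
  set S3 := Real.sin (3 * Real.pi * q) / Real.pi with hS3
  set S1 := Real.sin (Real.pi * q) / Real.pi with hS1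
  -- the three sums
  have i1 : IntegrableOn (fun y => Real.exp (-(2 * q * y)) * (fun y : ℝ => y ^ (4 - 3 * q)) y)
      (Ioi 0) := s4_gint hq53 (by linarith)
  have i2 : IntegrableOn (fun y => Real.exp (-(2 * q * y)) *
      (fun y : ℝ => y ^ (-(3 * q)) - hK q y) y) (Ioi 0) :=
    kernel3_int q hq0 hq53 (2 * q) (by linarith)
  have i3 : IntegrableOn (fun y => Real.exp (-(2 * q * y)) * (gK q) y) (Ioi 0) :=
    gK_int q hq0 (2 * q) (by linarith)
  obtain ⟨j1, s1⟩ := swap_psi hq0 hx0 hx1 hF i1 4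
  obtain ⟨j2, s2⟩ := swap_psi hq0 hx0 hx1 hF i2 0
  obtain ⟨j3, s3⟩ := swap_psiM hq0 hx0 hx1 hF i3
  set I1 := ∫ y in Ioi (0 : ℝ), (fun y : ℝ => y ^ (4 - 3 * q)) y * psi q F x 4 y with hI1
  set I2 := ∫ y in Ioi (0 : ℝ), (fun y : ℝ => y ^ (-(3 * q)) - hK q y) y * psi q F x 0 y with hI2
  set I3 := ∫ y in Ioi (0 : ℝ), gK q y * psiM q F x y with hI3
  have hs : HasSum (fun N => (2 : ℝ) ^ (2 * q - 1) * (cN q N * x ^ N * F N))
      (1 / (G1 * G2) * I1 - S3 * I2 - S1 * I3) := by
    refine (((s1.mul_left (1 / (G1 * G2))).sub (s2.mul_left S3)).sub (s3.mul_left S1)).congr_fun ?_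
    intro N
    have hk3 := kernel3 q hq0 hq53 N
    have hg := s4_gam hq53 (haN N)
    have e1 : aN q N ^ (3 * q - 1) = aN q N ^ 4 * aN q N ^ (3 * q - 5) := by
      rw [← Real.rpow_natCast, ← Real.rpow_add (haN N)]
      congr 1; push_cast; ring
    calc (2 : ℝ) ^ (2 * q - 1) * (cN q N * x ^ N * F N)
        = ((2 : ℝ) ^ (2 * q - 1) * cN q N) * (x ^ N * F N) := by ring
      _ = _ := by
        rw [hk3, e1, hg]
        have e2 : aN q N ^ 4 * aN q N ^ (3 * q - 5) / G1 =
            1 / (G1 * G2) * (aN q N ^ 4 * (aN q N ^ (3 * q - 5) * G2)) := by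
          rw [div_eq_mul_inv, one_div, mul_inv]
          have : G2⁻¹ * G2 = 1 := inv_mul_cancel₀ hG2p.ne'
          linear_combination (-(aN q N ^ 4 * aN q N ^ (3 * q - 5) * G1⁻¹)) * this
        rw [e2]
        ring
  have hA : 0 < 1 / (G1 * G2) := by positivity
  have hV : 0 ≤ 1 / (G1 * G2) * I1 - S3 * I2 - S1 * I3 := by
    have hI : 1 / (G1 * G2) * I1 - S3 * I2 - S1 * I3 =
        ∫ y in Ioi (0 : ℝ), (1 / (G1 * G2) * (y ^ (4 - 3 * q) * psi q F x 4 y) -
          S3 * ((y ^ (-(3 * q)) - hK q y) * psi q F x 0 y) - S1 * (gK q y * psiM q F x y)) := by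
      rw [integral_sub, integral_sub, integral_const_mul, integral_const_mul, integral_const_mul]
      · exact j1.const_mul _
      · exact j2.const_mul _
      · exact (j1.const_mul _).sub (j2.const_mul _)
      · exact j3.const_mul _
    rw [hI]
    refine setIntegral_nonneg measurableSet_Ioi (fun y hy => ?_)
    have hy0 : 0 < y := hy
    set Y := y ^ (4 - 3 * q) with hY
    have hYp : 0 < Y := Real.rpow_pos_of_pos hy0 _
    have p0 := h0 y hy0
    have pk := hk y hy0
    set p4 := psi q F x 4 y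
    set q0 := psi q F x 0 y
    set pm := psiM q F x y
    have hP : S3 = (3 * q - 1) * (3 * q - 2) * (3 * q - 3) * (3 * q - 4) * (1 / (G1 * G2)) := by
      rw [hS3, sin_eq4 (by linarith) hq53]; ring
    set A := 1 / (G1 * G2) with hAdef
    -- second term
    have t2 : S3 * ((y ^ (-(3 * q)) - hK q y) * q0) ≤ A * (Y * (2 * q0)) := by
      have hd0 : 0 ≤ y ^ (-(3 * q)) - hK q y := by
        have := hK_le hq0.le hy0 (q := q); linarith
      have hd1 : y ^ (-(3 * q)) - hK q y ≤ q / 15 * Y := by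
        have := hK_ge (q := q) (by linarith) hy0; linarith
      rcases le_or_gt (3 * q) 4 with h4 | h4
      · have hneg : S3 ≤ 0 := by
          rw [hP]
          have : (3 * q - 1) * (3 * q - 2) * (3 * q - 3) * (3 * q - 4) ≤ 0 := by
            apply mul_nonpos_of_nonneg_of_nonpos
            · have := mul_nonneg (mul_nonneg (show 0 ≤ 3 * q - 1 by linarith)
                (show 0 ≤ 3 * q - 2 by linarith)) (show 0 ≤ 3 * q - 3 by linarith)
              exact this
            · linarith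
          exact mul_nonpos_of_nonpos_of_nonneg this hA.le
        have h1 : S3 * ((y ^ (-(3 * q)) - hK q y) * q0) ≤ 0 :=
          mul_nonpos_of_nonpos_of_nonneg hneg (mul_nonneg hd0 p0)
        have h2 : 0 ≤ A * (Y * (2 * q0)) := by positivity
        linarith
      · set P := (3 * q - 1) * (3 * q - 2) * (3 * q - 3) * (3 * q - 4) with hPd
        have hP0 : 0 ≤ P := by
          have := mul_nonneg (mul_nonneg (mul_nonneg (show 0 ≤ 3 * q - 1 by linarith)
                (show 0 ≤ 3 * q - 2 by linarith)) (show 0 ≤ 3 * q - 3 by linarith))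
                (show 0 ≤ 3 * q - 4 by linarith)
          exact this
        have hP1 : P ≤ 16 := by
          have a1 : 3 * q - 1 ≤ 19 / 5 := by linarith
          have a2 : 3 * q - 2 ≤ 14 / 5 := by linarith
          have a3 : 3 * q - 3 ≤ 9 / 5 := by linarith
          have a4 : 3 * q - 4 ≤ 4 / 5 := by linarith
          have b1 : (3 * q - 1) * (3 * q - 2) ≤ 19 / 5 * (14 / 5) :=
            mul_le_mul a1 a2 (by linarith) (by norm_num)
          have b2 : (3 * q - 1) * (3 * q - 2) * (3 * q - 3) ≤ 19 / 5 * (14 / 5) * (9 / 5) :=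
            mul_le_mul b1 a3 (by linarith) (by norm_num)
          have b3 : P ≤ 19 / 5 * (14 / 5) * (9 / 5) * (4 / 5) :=
            mul_le_mul b2 a4 (by linarith) (by norm_num)
          norm_num at b3
          linarith
        have hPq : P * (q / 15) ≤ 2 := by
          have : P * (q / 15) ≤ 16 * ((8 / 5) / 15) :=
            mul_le_mul hP1 (by linarith) (by positivity) (by norm_num)
          norm_num at this
          linarith
        calc S3 * ((y ^ (-(3 * q)) - hK q y) * q0)
            = (P * A) * ((y ^ (-(3 * q)) - hK q y) * q0) := by rw [hP]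
          _ ≤ (P * A) * ((q / 15 * Y) * q0) := by
              apply mul_le_mul_of_nonneg_left _ (by positivity)
              exact mul_le_mul_of_nonneg_right hd1 p0
          _ = (P * (q / 15)) * (A * (Y * q0)) := by ring
          _ ≤ 2 * (A * (Y * q0)) := by
              apply mul_le_mul_of_nonneg_right hPq (by positivity)
          _ = A * (Y * (2 * q0)) := by ring
    -- third term
    have t3 : S1 * (gK q y * pm) ≤ A * (Y * (31 * Real.tanh y ^ (4 * q - 4) * |pm|)) := by
      have hg0 := gK_nonneg (q := q) hy0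
      have hg1 := gK_le (q := q) (k := 4) hq0 (by norm_num) hy0
      rw [← hY] at hg1
      have hS : |S1| ≤ 31 * A := by
        have hc := cq4 hq1 hq2
        rw [← hG1, ← hG2] at hc
        have e : |S1| = |Real.sin (Real.pi * q)| / Real.pi := by
          rw [hS1, abs_div, abs_of_pos Real.pi_pos]
        rw [e, hAdef]
        rw [mul_one_div, le_div_iff₀ (by positivity)]
        exact hc
      have hth : 0 ≤ Real.tanh y ^ (4 * q - 4) := by
        apply Real.rpow_nonneg
        rw [Real.tanh_eq_sinh_div_cosh]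
        exact div_nonneg (Real.sinh_nonneg_iff.mpr hy0.le) (Real.cosh_pos y).le
      calc S1 * (gK q y * pm) ≤ |S1 * (gK q y * pm)| := le_abs_self _
        _ = |S1| * (gK q y * |pm|) := by rw [abs_mul, abs_mul, abs_of_nonneg hg0]
        _ ≤ (31 * A) * ((Y * Real.tanh y ^ (4 * q - 4)) * |pm|) := by
            apply mul_le_mul hS _ (by positivity) (by positivity)
            exact mul_le_mul_of_nonneg_right hg1 (abs_nonneg _)
        _ = _ := by ring
    have t1 : A * (Y * (31 * Real.tanh y ^ (4 * q - 4) * |pm| + 2 * q0)) ≤ A * (Y * p4) := by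
      apply mul_le_mul_of_nonneg_left _ hA.le
      exact mul_le_mul_of_nonneg_left pk hYp.le
    have e : A * (Y * (31 * Real.tanh y ^ (4 * q - 4) * |pm| + 2 * q0)) =
      A * (Y * (31 * Real.tanh y ^ (4 * q - 4) * |pm|)) + A * (Y * (2 * q0)) := by ring
    linarith
  have h2p : (0 : ℝ) < 2 ^ (2 * q - 1) := Real.rpow_pos_of_pos (by norm_num) _
  have ht := hs.tsum_eq
  rw [tsum_mul_left] at ht
  by_contra hneg
  push Not at hneg
  have : (2 : ℝ) ^ (2 * q - 1) * ∑' N, cN q N * x ^ N * F N < 0 := mul_neg_of_pos_of_neg h2p hneg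
  linarith

end Pool.Agent.KIQ
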