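import Pool.Agent.KIQ.KER
import Pool.Agent.KIQ.LZI
import Pool.Agent.KIQ.CQB
import Pool.Agent.KIQ.SWP

/-!
# SUM5: the full sum is nonnegative
-/

set_option autoImplicit false

open PowerSeries MeasureTheory Set

namespace Pool.Agent.KIQ

private theorem s5_gam {q a : ℝ} (hq : q < 2) (ha : 0 < a) :
    ∫ y in Ioi (0 : ℝ), Real.exp (-(a * y)) * y ^ (5 - 3 * q) =
      a ^ (3 * q - 6) * Real.Gamma (6 - 3 * q) := by
  have h := Real.integral_rpow_mul_exp_neg_mul_Ioi (a := 6 - 3 * q) (r := a) (by linarith) ha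
  have e : (6 - 3 * q - 1 : ℝ) = 5 - 3 * q := by ring
  rw [e] at h
  have h2 : ∫ y in Ioi (0 : ℝ), Real.exp (-(a * y)) * y ^ (5 - 3 * q) =
      ∫ y in Ioi (0 : ℝ), y ^ (5 - 3 * q) * Real.exp (-(a * y)) := by
    congr 1; ext y; ring
  rw [h2, h, one_div, Real.inv_rpow ha.le, ← Real.rpow_neg ha.le]
  congr 2; ring

private theorem s5_gint {q a : ℝ} (hq : q < 2) (ha : 0 < a) :
    IntegrableOn (fun y => Real.exp (-(a * y)) * y ^ (5 - 3 * q)) (Ioi 0) := by
  have h := integrableOn_rpow_mul_exp_neg_mul_rpow (p := 1) (s := 5 - 3 * q) (b := a)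
    (by linarith) (by norm_num) ha
  refine h.congr_fun (fun y hy => ?_) measurableSet_Ioi
  simp only [Real.rpow_one]
  rw [neg_mul]; ring

theorem sum5 {q x : ℝ} (hq1 : 8 / 5 ≤ q) (hq2 : q < 2) (hx0 : 0 < x) (hx1 : x < 1) {F : ℕ → ℝ}
    (hF : ∀ ρ : ℝ, 0 ≤ ρ → ρ < 1 → Summable fun N => |F N| * ρ ^ N)
    (h0 : ∀ y : ℝ, 0 < y → 0 ≤ psi q F x 0 y)
    (h1 : ∀ y : ℝ, 0 < y → 0 ≤ psi q F x 1 y)
    (hk : ∀ y : ℝ, 0 < y → 40 * Real.tanh y ^ (4 * q - 5) * |psiM q F x y| + 16 * psi q F x 1 y +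
        12 * psi q F x 0 y ≤ psi q F x 5 y) :
    0 ≤ ∑' N, cN q N * x ^ N * F N := by
  have hq0 : 0 < q := by linarith
  have hq73 : q < 7 / 3 := by linarith
  have haN : ∀ N, 0 < aN q N := fun N => by
    unfold aN; have : (0 : ℝ) ≤ N := Nat.cast_nonneg N; linarith
  set G1 := Real.Gamma (3 * q) with hG1
  set G2 := Real.Gamma (6 - 3 * q) with hG2
  have hG1p : 0 < G1 := Real.Gamma_pos_of_pos (by linarith)
  have hG2p : 0 < G2 := Real.Gamma_pos_of_pos (by linarith)
  set S3 := Real.sin (3 * Real.pi * q) / Real.pi with hS3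
  set S1 := Real.sin (Real.pi * q) / Real.pi with hS1
  set P := (3 * q - 1) * (3 * q - 2) * (3 * q - 3) * (3 * q - 4) with hPd
  -- the four sums
  have i1 : IntegrableOn (fun y => Real.exp (-(2 * q * y)) * (fun y : ℝ => y ^ (5 - 3 * q)) y)
      (Ioi 0) := s5_gint hq2 (by linarith)
  have i2 : IntegrableOn (fun y => Real.exp (-(2 * q * y)) *
      (fun y : ℝ => y ^ (-(3 * q)) - q / 15 * y ^ (4 - 3 * q) - hK q y) y) (Ioi 0) :=
    kernel5_int q hq0 hq73 (2 * q) (by linarith)
  have i3 : IntegrableOn (fun y => Real.exp (-(2 * q * y)) * (gK q) y) (Ioi 0) :=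
    gK_int q hq0 (2 * q) (by linarith)
  obtain ⟨j1, s1⟩ := swap_psi hq0 hx0 hx1 hF i1 5
  obtain ⟨j4, s4⟩ := swap_psi hq0 hx0 hx1 hF i1 1
  obtain ⟨j2, s2⟩ := swap_psi hq0 hx0 hx1 hF i2 0
  obtain ⟨j3, s3⟩ := swap_psiM hq0 hx0 hx1 hF i3
  set I1 := ∫ y in Ioi (0 : ℝ), (fun y : ℝ => y ^ (5 - 3 * q)) y * psi q F x 5 y with hI1
  set I4 := ∫ y in Ioi (0 : ℝ), (fun y : ℝ => y ^ (5 - 3 * q)) y * psi q F x 1 y with hI4
  set I2 := ∫ y in Ioi (0 : ℝ), (fun y : ℝ => y ^ (-(3 * q)) - q / 15 * y ^ (4 - 3 * q) -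
    hK q y) y * psi q F x 0 y with hI2
  set I3 := ∫ y in Ioi (0 : ℝ), gK q y * psiM q F x y with hI3
  have hs : HasSum (fun N => (2 : ℝ) ^ (2 * q - 1) * (cN q N * x ^ N * F N))
      (1 / (G1 * G2) * I1 - q / 15 * P * (1 / (G1 * G2)) * I4 - S3 * I2 - S1 * I3) := by
    refine ((((s1.mul_left (1 / (G1 * G2))).sub (s4.mul_left (q / 15 * P * (1 / (G1 * G2))))).sub
      (s2.mul_left S3)).sub (s3.mul_left S1)).congr_fun ?_
    intro N
    have hk3 := kernel5 q hq0 hq73 N
    have hg := s5_gam hq2 (haN N)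
    have e1 : aN q N ^ (3 * q - 1) = aN q N ^ 5 * aN q N ^ (3 * q - 6) := by
      rw [← Real.rpow_natCast, ← Real.rpow_add (haN N)]
      congr 1; push_cast; ring
    have e3 : aN q N ^ (3 * q - 5) = aN q N ^ 1 * aN q N ^ (3 * q - 6) := by
      rw [← Real.rpow_natCast, ← Real.rpow_add (haN N)]
      congr 1; push_cast; ring
    calc (2 : ℝ) ^ (2 * q - 1) * (cN q N * x ^ N * F N)
        = ((2 : ℝ) ^ (2 * q - 1) * cN q N) * (x ^ N * F N) := by ring
      _ = _ := by
        rw [hk3, e1, e3, hg, ← hPd]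
        have this : G2⁻¹ * G2 = 1 := inv_mul_cancel₀ hG2p.ne'
        have e2 : aN q N ^ 5 * aN q N ^ (3 * q - 6) / G1 =
            1 / (G1 * G2) * (aN q N ^ 5 * (aN q N ^ (3 * q - 6) * G2)) := by
          rw [div_eq_mul_inv, one_div, mul_inv]
          linear_combination (-(aN q N ^ 5 * aN q N ^ (3 * q - 6) * G1⁻¹)) * this
        have e4 : q / 15 * P * (aN q N ^ 1 * aN q N ^ (3 * q - 6)) / G1 =
            q / 15 * P * (1 / (G1 * G2)) * (aN q N ^ 1 * (aN q N ^ (3 * q - 6) * G2)) := by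
          rw [div_eq_mul_inv, one_div, mul_inv]
          linear_combination (-(q / 15 * P * (aN q N ^ 1 * aN q N ^ (3 * q - 6)) * G1⁻¹)) * this
        rw [e2, e4]
        ring
  have hA : 0 < 1 / (G1 * G2) := by positivity
  have hP0 : 0 ≤ P := mul_nonneg (mul_nonneg (mul_nonneg (show 0 ≤ 3 * q - 1 by linarith)
      (show 0 ≤ 3 * q - 2 by linarith)) (show 0 ≤ 3 * q - 3 by linarith))
      (show 0 ≤ 3 * q - 4 by linarith)
  have hP1 : P ≤ 120 := by
    have a1 : 3 * q - 1 ≤ 5 := by linarith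
    have a2 : 3 * q - 2 ≤ 4 := by linarith
    have a3 : 3 * q - 3 ≤ 3 := by linarith
    have a4 : 3 * q - 4 ≤ 2 := by linarith
    have b1 : (3 * q - 1) * (3 * q - 2) ≤ 5 * 4 :=
      mul_le_mul a1 a2 (by linarith) (by norm_num)
    have b2 : (3 * q - 1) * (3 * q - 2) * (3 * q - 3) ≤ 5 * 4 * 3 :=
      mul_le_mul b1 a3 (by linarith) (by norm_num)
    have b3 : P ≤ 5 * 4 * 3 * 2 :=
      mul_le_mul b2 a4 (by linarith) (by norm_num)
    norm_num at b3
    exact b3
  have hV : 0 ≤ 1 / (G1 * G2) * I1 - q / 15 * P * (1 / (G1 * G2)) * I4 - S3 * I2 - S1 * I3 := by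
    have hI : 1 / (G1 * G2) * I1 - q / 15 * P * (1 / (G1 * G2)) * I4 - S3 * I2 - S1 * I3 =
        ∫ y in Ioi (0 : ℝ), (1 / (G1 * G2) * (y ^ (5 - 3 * q) * psi q F x 5 y) -
          q / 15 * P * (1 / (G1 * G2)) * (y ^ (5 - 3 * q) * psi q F x 1 y) -
          S3 * ((y ^ (-(3 * q)) - q / 15 * y ^ (4 - 3 * q) - hK q y) * psi q F x 0 y) -
          S1 * (gK q y * psiM q F x y)) := by
      rw [integral_sub, integral_sub, integral_sub, integral_const_mul, integral_const_mul,
        integral_const_mul, integral_const_mul]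
      · exact j1.const_mul _
      · exact j4.const_mul _
      · exact (j1.const_mul _).sub (j4.const_mul _)
      · exact j2.const_mul _
      · exact ((j1.const_mul _).sub (j4.const_mul _)).sub (j2.const_mul _)
      · exact j3.const_mul _
    rw [hI]
    refine setIntegral_nonneg measurableSet_Ioi (fun y hy => ?_)
    have hy0 : 0 < y := hy
    set Y := y ^ (5 - 3 * q) with hY
    have hYp : 0 < Y := Real.rpow_pos_of_pos hy0 _
    have p0 := h0 y hy0
    have p1 := h1 y hy0
    have pk := hk y hy0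
    set p4 := psi q F x 5 y
    set q0 := psi q F x 0 y
    set q1 := psi q F x 1 y
    set pm := psiM q F x y
    set A := 1 / (G1 * G2) with hAdef
    have hP : S3 = -(P * (3 * q - 5) * A) := by
      rw [hS3, sin_eq5 (by linarith) hq2, hAdef, hPd, ← hG1, ← hG2]; ring
    set D := y ^ (-(3 * q)) - q / 15 * y ^ (4 - 3 * q) - hK q y with hD
    have hD0 : D ≤ 0 := by
      have := hK_ge (q := q) (by linarith) hy0; rw [hD]; linarith
    have hD1 : -(1 / 10 * Y) ≤ D := by
      have := hK_le5 (q := q) (by linarith) hq2.le hy0; rw [hD, hY]; linarith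
    -- first subtraction
    have t4 : q / 15 * P * A * (Y * q1) ≤ A * (Y * (16 * q1)) := by
      have hPq : q / 15 * P ≤ 16 := by
        have : q / 15 * P ≤ (2 / 15) * 120 :=
          mul_le_mul (by linarith) hP1 hP0 (by norm_num)
        norm_num at this
        exact this
      calc q / 15 * P * A * (Y * q1) = (q / 15 * P) * (A * (Y * q1)) := by ring
        _ ≤ 16 * (A * (Y * q1)) := mul_le_mul_of_nonneg_right hPq (by positivity)
        _ = A * (Y * (16 * q1)) := by ring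
    -- second term
    have t2 : S3 * (D * q0) ≤ A * (Y * (12 * q0)) := by
      rcases le_or_gt (3 * q) 5 with h4 | h4
      · have hpos : 0 ≤ S3 := by
          rw [hP]
          have : P * (3 * q - 5) * A ≤ 0 :=
            mul_nonpos_of_nonpos_of_nonneg
              (mul_nonpos_of_nonneg_of_nonpos hP0 (by linarith)) hA.le
          linarith
        have h1 : S3 * (D * q0) ≤ 0 :=
          mul_nonpos_of_nonneg_of_nonpos hpos (mul_nonpos_of_nonpos_of_nonneg hD0 p0)
        have h2 : 0 ≤ A * (Y * (12 * q0)) := by positivity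
        linarith
      · have hPq : P * (3 * q - 5) ≤ 120 := by
          have : P * (3 * q - 5) ≤ 120 * 1 :=
            mul_le_mul hP1 (by linarith) (by linarith) (by norm_num)
          linarith
        have hPq0 : 0 ≤ P * (3 * q - 5) := mul_nonneg hP0 (by linarith)
        calc S3 * (D * q0) = (P * (3 * q - 5) * A) * (-D * q0) := by rw [hP]; ring
          _ ≤ (P * (3 * q - 5) * A) * ((1 / 10 * Y) * q0) := by
              apply mul_le_mul_of_nonneg_left _ (by positivity)
              exact mul_le_mul_of_nonneg_right (by linarith) p0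
          _ = (P * (3 * q - 5)) * (A * ((1 / 10 * Y) * q0)) := by ring
          _ ≤ 120 * (A * ((1 / 10 * Y) * q0)) :=
              mul_le_mul_of_nonneg_right hPq (by positivity)
          _ = A * (Y * (12 * q0)) := by ring
    -- third term
    have t3 : S1 * (gK q y * pm) ≤ A * (Y * (40 * Real.tanh y ^ (4 * q - 5) * |pm|)) := by
      have hg0 := gK_nonneg (q := q) hy0
      have hg1 := gK_le (q := q) (k := 5) hq0 (by norm_num) hy0
      rw [← hY] at hg1
      have hS : |S1| ≤ 40 * A := by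
        have hc := cq5 hq1 hq2
        rw [← hG1, ← hG2] at hc
        have e : |S1| = |Real.sin (Real.pi * q)| / Real.pi := by
          rw [hS1, abs_div, abs_of_pos Real.pi_pos]
        rw [e, hAdef]
        rw [mul_one_div, le_div_iff₀ (by positivity)]
        exact hc
      have hth : 0 ≤ Real.tanh y ^ (4 * q - 5) := by
        apply Real.rpow_nonneg
        rw [Real.tanh_eq_sinh_div_cosh]
        exact div_nonneg (Real.sinh_nonneg_iff.mpr hy0.le) (Real.cosh_pos y).le
      calc S1 * (gK q y * pm) ≤ |S1 * (gK q y * pm)| := le_abs_self _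
        _ = |S1| * (gK q y * |pm|) := by rw [abs_mul, abs_mul, abs_of_nonneg hg0]
        _ ≤ (40 * A) * ((Y * Real.tanh y ^ (4 * q - 5)) * |pm|) := by
            apply mul_le_mul hS _ (by positivity) (by positivity)
            exact mul_le_mul_of_nonneg_right hg1 (abs_nonneg _)
        _ = _ := by ring
    have t1 : A * (Y * (40 * Real.tanh y ^ (4 * q - 5) * |pm| + 16 * q1 + 12 * q0)) ≤
        A * (Y * p4) := by
      apply mul_le_mul_of_nonneg_left _ hA.le
      exact mul_le_mul_of_nonneg_left pk hYp.le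
    have e : A * (Y * (40 * Real.tanh y ^ (4 * q - 5) * |pm| + 16 * q1 + 12 * q0)) =
      A * (Y * (40 * Real.tanh y ^ (4 * q - 5) * |pm|)) + A * (Y * (16 * q1)) +
        A * (Y * (12 * q0)) := by ring
    linarith
  have h2p : (0 : ℝ) < 2 ^ (2 * q - 1) := Real.rpow_pos_of_pos (by norm_num) _
  have ht := hs.tsum_eq
  rw [tsum_mul_left] at ht
  by_contra hneg
  push Not at hneg
  have : (2 : ℝ) ^ (2 * q - 1) * ∑' N, cN q N * x ^ N * F N < 0 := mul_neg_of_pos_of_neg h2p hneg
  linarith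

end Pool.Agent.KIQ
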