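import Pool.Agent.KIQ.SER
import Pool.Agent.KIQ.SUM3
import Pool.Agent.KIQ.SUM4
import Pool.Agent.KIQ.SUM5
import Pool.Agent.KIQ.PTW3
import Pool.Agent.KIQ.PTW4
import Pool.Agent.KIQ.PTW5
import Pool.Agent.KIQ.PTN
import Pool.Agent.KIQ.DEV
import Pool.Agent.KIQ.SCB

/-!
# FIN: conditions (G) and (C) for `1 < q < 2`
-/

set_option autoImplicit false

open PowerSeries Filter Topology

namespace Pool.Agent.KIQ

theorem psi_eq {q : ℝ} (hq : 0 < q) {F : ℕ → ℝ}
    (hF : ∀ ρ : ℝ, 0 ≤ ρ → ρ < 1 → Summable fun N => |F N| * ρ ^ N) {s : ℕ} {a : ℝ}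
    {p0 : Polynomial ℝ} {T K : ℝ} (hT : 1 ≤ T)
    (hs : ∀ u : ℝ, 0 < u → HasSum (fun N : ℕ => F N * Real.exp (-(2 * u)) ^ N)
      (Real.exp (2 * q * u) * K * Phi s a q p0 0 T u)) {u0 : ℝ} (hu0 : 0 < u0) (j : ℕ) :
    ∀ y : ℝ, 0 < y → psi q F (Real.exp (-(2 * u0))) j y =
      Real.exp (2 * q * u0) * K * Phi s a q p0 j T (u0 + y) := by
  have hx0 : 0 < Real.exp (-(2 * u0)) := Real.exp_pos _
  have hx1 : Real.exp (-(2 * u0)) < 1 := by
    rw [Real.exp_lt_one_iff]; linarith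
  induction j with
  | zero =>
    intro y hy
    have h := hs (u0 + y) (by linarith)
    have h2 : HasSum (fun N : ℕ => F N * Real.exp (-(2 * u0)) ^ N * aN q N ^ 0 *
        Real.exp (-(aN q N * y))) (Real.exp (-(2 * q * y)) *
          (Real.exp (2 * q * (u0 + y)) * K * Phi s a q p0 0 T (u0 + y))) := by
      refine (h.mul_left (Real.exp (-(2 * q * y)))).congr_fun ?_ 
      intro N
      simp only [aN, pow_zero, mul_one]
      rw [← Real.exp_nat_mul, ← Real.exp_nat_mul]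
      have e1 : Real.exp (-((2 * (N : ℝ) + 2 * q) * y)) =
          Real.exp (-(2 * q * y)) * Real.exp (-(2 * (N : ℝ) * y)) := by
        rw [← Real.exp_add]; congr 1; ring
      have e2 : Real.exp ((N : ℝ) * -(2 * (u0 + y))) =
          Real.exp ((N : ℝ) * -(2 * u0)) * Real.exp (-(2 * (N : ℝ) * y)) := by
        rw [← Real.exp_add]; congr 1; ring
      rw [e1, e2]; ring
    unfold psi
    rw [h2.tsum_eq]
    have e3 : Real.exp (2 * q * (u0 + y)) = Real.exp (2 * q * u0) * Real.exp (2 * q * y) := by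
      rw [← Real.exp_add]; congr 1; ring
    have e4 : Real.exp (-(2 * q * y)) * Real.exp (2 * q * y) = 1 := by
      rw [← Real.exp_add]; simp
    rw [e3]
    calc _ = (Real.exp (-(2 * q * y)) * Real.exp (2 * q * y)) *
        (Real.exp (2 * q * u0) * K * Phi s a q p0 0 T (u0 + y)) := by ring
      _ = _ := by rw [e4, one_mul]
  | succ j ih =>
    intro y hy
    have h1 := psi_hasDerivAt hq hx0 hx1 hF j hy
    have h2 : HasDerivAt (fun y => Real.exp (2 * q * u0) * K * Phi s a q p0 j T (u0 + y))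
        (Real.exp (2 * q * u0) * K * -Phi s a q p0 (j + 1) T (u0 + y)) y := by
      have h3 := (Phi_hasDerivAt s a q p0 j hT (show 0 < u0 + y by linarith)).comp_const_add u0 y
      exact h3.const_mul _
    have h3 : (fun y => Real.exp (2 * q * u0) * K * Phi s a q p0 j T (u0 + y)) =ᶠ[𝓝 y]
        psi q F (Real.exp (-(2 * u0))) j := by
      filter_upwards [lt_mem_nhds hy] with t ht
      exact (ih t ht).symm
    have h4 := h1.unique (h2.congr_of_eventuallyEq h3.symm)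
    linarith

theorem psiM_eq {q : ℝ} {F : ℕ → ℝ} {K : ℝ} {g : ℝ → ℝ}
    (hs : ∀ u : ℝ, 0 < u → HasSum (fun N : ℕ => F N * (-Real.exp (-(2 * u))) ^ N)
      (Real.exp (2 * q * u) * K * g u)) {u0 : ℝ} (hu0 : 0 < u0) {y : ℝ} (hy : 0 < y) :
    psiM q F (Real.exp (-(2 * u0))) y = Real.exp (2 * q * u0) * K * g (u0 + y) := by
  have h := hs (u0 + y) (by linarith)
  have h2 : HasSum (fun N : ℕ => (-1) ^ N * F N * Real.exp (-(2 * u0)) ^ N *
      Real.exp (-(aN q N * y))) (Real.exp (-(2 * q * y)) *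
        (Real.exp (2 * q * (u0 + y)) * K * g (u0 + y))) := by
    refine (h.mul_left (Real.exp (-(2 * q * y)))).congr_fun ?_ 
    intro N
    simp only [aN]
    rw [neg_pow (Real.exp (-(2 * (u0 + y)))), ← Real.exp_nat_mul, ← Real.exp_nat_mul]
    have e1 : Real.exp (-((2 * (N : ℝ) + 2 * q) * y)) =
        Real.exp (-(2 * q * y)) * Real.exp (-(2 * (N : ℝ) * y)) := by
      rw [← Real.exp_add]; congr 1; ring
    have e2 : Real.exp ((N : ℝ) * -(2 * (u0 + y))) =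
        Real.exp ((N : ℝ) * -(2 * u0)) * Real.exp (-(2 * (N : ℝ) * y)) := by
      rw [← Real.exp_add]; congr 1; ring
    rw [e1, e2]; ring
  unfold psiM
  rw [h2.tsum_eq]
  have e3 : Real.exp (2 * q * (u0 + y)) = Real.exp (2 * q * u0) * Real.exp (2 * q * y) := by
    rw [← Real.exp_add]; congr 1; ring
  have e4 : Real.exp (-(2 * q * y)) * Real.exp (2 * q * y) = 1 := by
    rw [← Real.exp_add]; simp
  rw [e3]
  calc _ = (Real.exp (-(2 * q * y)) * Real.exp (2 * q * y)) *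
      (Real.exp (2 * q * u0) * K * g (u0 + y)) := by ring
    _ = _ := by rw [e4, one_mul]

theorem tanh_rpow_mono {y z e : ℝ} (hy : 0 < y) (hz : y ≤ z) (he : 0 ≤ e) :
    Real.tanh y ^ e ≤ Real.tanh z ^ e := by
  have h1 : 0 ≤ Real.tanh y := by
    rw [Real.tanh_eq_sinh_div_cosh]
    exact div_nonneg (Real.sinh_nonneg_iff.2 hy.le) (Real.cosh_pos _).le
  have h2 : Real.tanh y ≤ Real.tanh z := by
    rw [Real.tanh_eq_sinh_div_cosh, Real.tanh_eq_sinh_div_cosh,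
      div_le_div_iff₀ (Real.cosh_pos _) (Real.cosh_pos _)]
    have h3 : 0 ≤ Real.sinh (z - y) := Real.sinh_nonneg_iff.2 (by linarith)
    rw [Real.sinh_sub] at h3
    linarith
  exact Real.rpow_le_rpow h1 h2 he

theorem fin_aux {q : ℝ} (hq1 : 1 < q) (hq2 : q < 2) {x : ℝ} (hx0 : 0 < x) (hx1 : x < 1)
    {F : ℕ → ℝ} (hF : ∀ ρ : ℝ, 0 ≤ ρ → ρ < 1 → Summable fun N => |F N| * ρ ^ N) {s : ℕ} {a : ℝ}
    {p0 : Polynomial ℝ} {T K : ℝ} (hT : 1 ≤ T) (hK : 0 < K) {e : ℝ} (he : |e| = 1)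
    {g : ℝ → ℝ} (hg : ∀ u : ℝ, 0 < u → 0 ≤ g u)
    (hs : ∀ u : ℝ, 0 < u → HasSum (fun N : ℕ => F N * Real.exp (-(2 * u)) ^ N)
      (Real.exp (2 * q * u) * K * Phi s a q p0 0 T u))
    (hm : ∀ u : ℝ, 0 < u → HasSum (fun N : ℕ => F N * (-Real.exp (-(2 * u))) ^ N)
      (Real.exp (2 * q * u) * K * (e * g u)))
    (h0 : ∀ u : ℝ, 0 < u → 0 ≤ Phi s a q p0 0 T u)
    (h1 : ∀ u : ℝ, 0 < u → 0 ≤ Phi s a q p0 1 T u)
    (h3 : q ≤ 5 / 4 → ∀ u : ℝ, 0 < u →
      20 * (q - 1) * Real.tanh u ^ (4 * q - 3) * g u ≤ Phi s a q p0 3 T u)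
    (h4 : 5 / 4 ≤ q → q ≤ 8 / 5 → ∀ u : ℝ, 0 < u →
      31 * Real.tanh u ^ (4 * q - 4) * g u + 2 * Phi s a q p0 0 T u ≤ Phi s a q p0 4 T u)
    (h5 : 8 / 5 ≤ q → ∀ u : ℝ, 0 < u →
      40 * Real.tanh u ^ (4 * q - 5) * g u + 16 * Phi s a q p0 1 T u +
        12 * Phi s a q p0 0 T u ≤ Phi s a q p0 5 T u) :
    0 ≤ ∑' N, cN q N * x ^ N * F N := by
  set u0 : ℝ := -Real.log x / 2 with hu0
  have hu : 0 < u0 := by
    have := Real.log_neg hx0 hx1
    rw [hu0]; linarith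
  have hx : x = Real.exp (-(2 * u0)) := by
    rw [hu0]
    have : -(2 * (-Real.log x / 2)) = Real.log x := by ring
    rw [this, Real.exp_log hx0]
  have hq0 : 0 < q := by linarith
  set E : ℝ := Real.exp (2 * q * u0) * K with hE
  have hE0 : 0 < E := mul_pos (Real.exp_pos _) hK
  have hp : ∀ (j : ℕ) (y : ℝ), 0 < y → psi q F x j y = E * Phi s a q p0 j T (u0 + y) := by
    intro j y hy
    rw [hx]; exact psi_eq hq0 hF hT hs hu j y hy
  have hpM : ∀ y : ℝ, 0 < y → |psiM q F x y| = E * g (u0 + y) := by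
    intro y hy
    have h := psiM_eq (q := q) (g := fun u => e * g u) hm hu hy
    rw [← hx] at h
    have h2 : Real.exp (2 * q * u0) * K * (e * g (u0 + y)) = e * (E * g (u0 + y)) := by
      rw [hE]; ring
    rw [h, h2, abs_mul, he, one_mul,
      abs_of_nonneg (mul_nonneg hE0.le (hg _ (by linarith)))]
  have H0 : ∀ y : ℝ, 0 < y → 0 ≤ psi q F x 0 y := by
    intro y hy
    rw [hp 0 y hy]; exact mul_nonneg hE0.le (h0 _ (by linarith))
  have key : ∀ (c : ℝ) (ex : ℝ) (y : ℝ), 0 < y → 0 ≤ c → 0 ≤ ex →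
      c * Real.tanh y ^ ex * |psiM q F x y| ≤
        E * (c * Real.tanh (u0 + y) ^ ex * g (u0 + y)) := by
    intro c ex y hy hc hex
    rw [hpM y hy]
    have h := tanh_rpow_mono hy (show y ≤ u0 + y by linarith) hex
    have h2 : c * Real.tanh y ^ ex ≤ c * Real.tanh (u0 + y) ^ ex :=
      mul_le_mul_of_nonneg_left h hc
    have h3 : 0 ≤ E * g (u0 + y) := mul_nonneg hE0.le (hg _ (by linarith))
    calc _ ≤ c * Real.tanh (u0 + y) ^ ex * (E * g (u0 + y)) := mul_le_mul_of_nonneg_right h2 h3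
      _ = _ := by ring
  rcases le_total q (5 / 4) with hq | hq
  · refine sum3 hq1 hq hx0 hx1 hF H0 ?_
    intro y hy
    rw [hp 3 y hy]
    refine (key _ _ y hy (by nlinarith) (by linarith)).trans ?_
    exact mul_le_mul_of_nonneg_left (h3 hq _ (by linarith)) hE0.le
  · rcases le_total q (8 / 5) with hq' | hq'
    · refine sum4 hq hq' hx0 hx1 hF H0 ?_
      intro y hy
      rw [hp 4 y hy, hp 0 y hy]
      have a1 := key 31 _ y hy (by norm_num) (show 0 ≤ 4 * q - 4 by linarith)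
      have a2 := mul_le_mul_of_nonneg_left (h4 hq hq' (u0 + y) (by linarith)) hE0.le
      linarith
    · refine sum5 hq' hq2 hx0 hx1 hF H0 ?_ ?_
      · intro y hy
        rw [hp 1 y hy]; exact mul_nonneg hE0.le (h1 _ (by linarith))
      · intro y hy
        rw [hp 5 y hy, hp 1 y hy, hp 0 y hy]
        have a1 := key 40 _ y hy (by norm_num) (show 0 ≤ 4 * q - 5 by linarith)
        have a2 := mul_le_mul_of_nonneg_left (h5 hq' (u0 + y) (by linarith)) hE0.le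
        linarith

theorem cN_summable (q : ℝ) {ρ : ℝ} (h0 : 0 ≤ ρ) (h1 : ρ < 1) :
    Summable fun N : ℕ => |coeff N (KIM.Kq q)| * ρ ^ N := by
  have hp : Rep (1 + PowerSeries.X : ℝ⟦X⟧) (fun z => 1 + z) := Rep.one.add Rep.X
  have hm : Rep (1 - PowerSeries.X : ℝ⟦X⟧) (fun z => 1 - z) := Rep.one.sub Rep.X
  have r1 := hp.rp (by simp) (fun z hz => Complex.mem_slitPlane_iff.2 (Or.inl (by
    have h := Complex.abs_re_le_norm z
    have h2 := neg_abs_le z.re
    simp only [Complex.add_re, Complex.one_re]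
    linarith))) q
  have r2 := hm.rp (by simp) (fun z hz => Complex.mem_slitPlane_iff.2 (Or.inl (by
    have h := Complex.abs_re_le_norm z
    have h2 := le_abs_self z.re
    simp only [Complex.sub_re, Complex.one_re]
    linarith))) (-(3 * q))
  have h := (r1.mul r2).summable h0 h1
  simpa [KIM.Kq, KIM.bin] using h

theorem mul_summable {q x : ℝ} (hx0 : 0 < x) (hx1 : x < 1) {F : ℕ → ℝ}
    (hF : ∀ ρ : ℝ, 0 ≤ ρ → ρ < 1 → Summable fun N => |F N| * ρ ^ N) :
    Summable fun N => coeff N (KIM.Kq q) * x ^ N * F N := by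
  have hs0 : 0 ≤ Real.sqrt x := Real.sqrt_nonneg x
  have hs1 : Real.sqrt x < 1 := by
    rw [Real.sqrt_lt' one_pos]; simpa using hx1
  have h1 := cN_summable q hs0 hs1
  have h2 := hF _ hs0 hs1
  have h3 : Summable fun N => (|coeff N (KIM.Kq q)| * Real.sqrt x ^ N) *
      (|F N| * Real.sqrt x ^ N) := by
    have h4 := h2.tendsto_atTop_zero
    have h5 : ∃ M : ℝ, ∀ N, |F N| * Real.sqrt x ^ N ≤ M := by
      obtain ⟨M, hM⟩ := h4.bddAbove_range
      exact ⟨M, fun N => hM ⟨N, rfl⟩⟩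
    obtain ⟨M, hM⟩ := h5
    refine Summable.of_nonneg_of_le (fun N => by positivity)
      (fun N => mul_le_mul_of_nonneg_left (hM N) (by positivity)) (h1.mul_right M)
  refine Summable.of_norm (h3.congr ?_)
  intro N
  rw [Real.norm_eq_abs, abs_mul, abs_mul, abs_of_nonneg (pow_nonneg hx0.le N)]
  have h6 : x ^ N = Real.sqrt x ^ N * Real.sqrt x ^ N := by
    rw [← mul_pow, Real.mul_self_sqrt hx0.le]
  rw [h6]; ring

/-- Summability in (G). -/
theorem G_summable (q : ℝ) {x y : ℝ} (hx0 : 0 < x) (hx1 : x < 1) (hy0 : 0 < y) (hy1 : y ≤ 1)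
    (m : ℕ) :
    Summable fun N => coeff N (KIM.Kq q) * x ^ N * KIM.Lf q N y (KIM.gS (-1 / 2) q m) :=
  mul_summable hx0 hx1 (fun _ h0 h1 => devG_summable q hy0 hy1 m h0 h1)

/-- Summability in (C). -/
theorem C_summable (q : ℝ) {x y : ℝ} (hx0 : 0 < x) (hx1 : x < 1) (hy0 : 0 < y) (hy1 : y ≤ 1)
    (j : ℕ) :
    Summable fun N => coeff N (KIM.Kq q) * x ^ N * KIM.Lf q N y (KIM.tS (-1 / 2) q j) :=
  mul_summable hx0 hx1 (fun _ h0 h1 => devC_summable q hy0 hy1 j h0 h1)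

/-- Condition (G), summed over `N`. -/
theorem G_pos {q x y : ℝ} (hq1 : 1 < q) (hq2 : q < 2) (hx0 : 0 < x) (hx1 : x < 1)
    (hy0 : 0 < y) (hy1 : y ≤ 1) {m : ℕ} (hm : 1 ≤ m) :
    0 ≤ ∑' N, coeff N (KIM.Kq q) * x ^ N * KIM.Lf q N y (KIM.gS (-1 / 2) q m) := by
  have hT : 1 ≤ 1 / Real.sqrt y := by
    rw [le_div_iff₀ (Real.sqrt_pos.2 hy0), one_mul]
    exact Real.sqrt_le_one.2 hy1
  have hK : 0 < (1 / Real.sqrt y) ^ (2 * q) / 4 := by positivity
  have hm' : (1 : ℝ) ≤ m := by exact_mod_cast hm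
  have ha : 2 * q + 1 ≤ 2 * (m : ℝ) + 2 * q - 1 := by linarith
  refine fin_aux (e := (-1) ^ m) (g := altG (2 * m + 2 * q - 1) q (1 / Real.sqrt y))
    (s := 1) (a := 2 * m + 2 * q - 1) (p0 := iniG (2 * m + 2 * q - 1) q)
    (K := (1 / Real.sqrt y) ^ (2 * q) / 4) (F := fun N => KIM.Lf q N y (KIM.gS (-1 / 2) q m))
    hq1 hq2 hx0 hx1 (fun ρ h0 h1 => devG_summable q hy0 hy1 m h0 h1) hT hK (by simp)
    (fun u hu => altG_nonneg (by linarith) hq1.le hT hu) ?_ ?_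
    (fun u hu => ptG_nonneg0 hq1.le (by linarith) hT hu)
    (fun u hu => ptG_nonneg1 hq1.le ha hT hu)
    (fun h u hu => ptG3 hq1 h ha hT hu)
    (fun h h' u hu => ptG4 h h' ha hT hu)
    (fun h u hu => ptG5 h hq2 ha hT hu)
  · intro u hu
    have h := devG_pos q hy0 hy1 m hu
    convert h using 1
    ring
  · intro u hu
    have h := devG_neg q hy0 hy1 m hu
    convert h using 1
    ring

/-- Condition (C), summed over `N`. -/
theorem C_pos {q x y : ℝ} (hq1 : 1 < q) (hq2 : q < 2) (hx0 : 0 < x) (hx1 : x < 1)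
    (hy0 : 0 < y) (hy1 : y ≤ 1) {j : ℕ} (hj : 1 ≤ j) :
    0 ≤ ∑' N, coeff N (KIM.Kq q) * x ^ N * KIM.Lf q N y (KIM.tS (-1 / 2) q j) := by
  have hT : 1 ≤ 1 / Real.sqrt y := by
    rw [le_div_iff₀ (Real.sqrt_pos.2 hy0), one_mul]
    exact Real.sqrt_le_one.2 hy1
  have hK : 0 < (1 / Real.sqrt y) ^ (2 * q) / 4 := by positivity
  have hj' : (1 : ℝ) ≤ j := by exact_mod_cast hj
  have ha : 2 * q + 2 ≤ 2 * (j : ℝ) + 2 * q := by linarith
  have hA := scbA hq1.le hq2.le hj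
  have hB := scbB hq1.le hq2.le hj
  have hd : 0 < (2 * (j : ℝ) + 2 * q) ^ 2 - q ^ 2 := by nlinarith
  have hA0 : 0 ≤ 2 * (muj q j - nuj q j) := by
    by_contra hneg
    push Not at hneg
    have h1 := mul_neg_of_pos_of_neg hd hneg
    have h2 : 0 < (3 * q - 2) * (2 * (j : ℝ) + 2 * q) := mul_pos (by linarith) (by linarith)
    linarith
  have hB0 : 0 ≤ 2 * (muj q j + nuj q j) - 1 := by
    by_contra hneg
    push Not at hneg
    have h1 := mul_neg_of_pos_of_neg hd hneg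
    have h2 : 0 < q * (3 * q - 2) := mul_pos (by linarith) (by linarith)
    linarith
  refine fin_aux (e := (-1) ^ j) (g := altC (2 * j + 2 * q) q (2 * (muj q j - nuj q j))
      (2 * (muj q j + nuj q j) - 1) (1 / Real.sqrt y))
    (s := 0) (a := 2 * j + 2 * q) (p0 := iniC (2 * (muj q j - nuj q j))
      (2 * (muj q j + nuj q j) - 1))
    (K := (1 / Real.sqrt y) ^ (2 * q) / 4) (F := fun N => KIM.Lf q N y (KIM.tS (-1 / 2) q j))
    hq1 hq2 hx0 hx1 (fun ρ h0 h1 => devC_summable q hy0 hy1 j h0 h1) hT hK (by simp)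
    (fun u hu => altC_nonneg hA0 hB0 hT hu) ?_ ?_
    (fun u hu => ptC_nonneg0 hA0 hB0 hT hu)
    (fun u hu => ptC_nonneg1 hq1.le ha hA hB hT hu)
    (fun h u hu => ptC3 hq1 h ha hA hB hT hu)
    (fun h h' u hu => ptC4 h h' ha hA hB hT hu)
    (fun h u hu => ptC5 h hq2 ha hA hB hT hu)
  · intro u hu
    have h := devC_pos q hy0 hy1 j hu
    convert h using 1
    ring
  · intro u hu
    have h := devC_neg q hy0 hy1 j hu
    convert h using 1
    ring

end Pool.Agent.KIQ
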