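import Pool.Agent.KIM.FIN
import Pool.Agent.KIM.LIMK
import Pool.Agent.KIQ.FIN

/-!
# KIQ / END: `C_λ = 1` for all `λ ≥ 2`
-/

set_option autoImplicit false

open PowerSeries Finset Filter Topology
open scoped Real
open Pool.Agent.Helper42.KoebeMeans
open Pool.Agent.KIM

namespace Pool.Agent.KIQ

/-- The coefficient inequality for `1 < q < 2`. -/
theorem tsum_le {q : ℝ} (hq1 : 1 < q) (hq2 : q < 2) {f : ℂ → ℂ} (hf : ClassS f) {r : ℝ}
    (h0 : 0 < r) (h1 : r < 1) :
    ∑' n : ℕ, ‖coeff n (rp (serP f) (q : ℂ))‖ ^ 2 * r ^ (2 * n) ≤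
      ∑' n : ℕ, (coeff n (Kq q)) ^ 2 * r ^ (2 * n) :=
  LIM.mean_of_pos_all hq1.le
    (fun _ hx0 hx1 _ hy0 hy1 _ hm => G_pos hq1 hq2 hx0 hx1 hy0 hy1 hm)
    (fun _ hx0 hx1 _ hy0 hy1 _ hj => C_pos hq1 hq2 hx0 hx1 hy0 hy1 hj) hf h0 h1

theorem classS_koebe' : ClassS koebe := by
  have hne : ∀ z ∈ Metric.ball (0 : ℂ) 1, 1 - z ≠ 0 := fun z hz =>
    LIM.one_sub_ne (mem_ball_zero_iff.1 hz)
  have hd : ∀ z ∈ Metric.ball (0 : ℂ) 1, DifferentiableAt ℂ koebe z := by
    intro z hz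
    unfold koebe
    have h1 : DifferentiableAt ℂ (fun z : ℂ => 1 - z) z :=
      (differentiableAt_const _).sub differentiableAt_id
    have h2 : DifferentiableAt ℂ (fun z : ℂ => (1 - z) ^ 2) z := h1.pow 2
    exact DifferentiableAt.div differentiableAt_id h2 (pow_ne_zero 2 (hne z hz))
  refine ⟨fun z hz => (hd z hz).differentiableWithinAt, ?_, ?_, ?_⟩
  · intro z hz w hw h
    have hz1 := hne z hz
    have hw1 := hne w hw
    unfold koebe at h
    rw [div_eq_div_iff (pow_ne_zero 2 hz1) (pow_ne_zero 2 hw1)] at h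
    have h2 : (z - w) * (1 - z * w) = 0 := by linear_combination h
    rcases mul_eq_zero.1 h2 with h3 | h3
    · exact sub_eq_zero.1 h3
    · exfalso
      have h4 : ‖z * w‖ < 1 := by
        rw [norm_mul]
        have a := mem_ball_zero_iff.1 hz
        have b := mem_ball_zero_iff.1 hw
        have c := norm_nonneg z
        have d := norm_nonneg w
        nlinarith
      exact LIM.one_sub_ne h4 h3
  · simp [koebe]
  · have h1 : HasDerivAt (fun z : ℂ => (1 - z) ^ 2) (-2) 0 := by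
      have := ((hasDerivAt_const (0 : ℂ) (1 : ℂ)).fun_sub (hasDerivAt_id' (0 : ℂ))).fun_pow 2
      simpa using this
    have h2 : HasDerivAt koebe _ 0 := (hasDerivAt_id (0 : ℂ)).div h1 (by simp)
    rw [h2.deriv]
    simp

/-- The integral. -/
theorem mean_pow {lam r : ℝ} (hl : 0 < lam) (f : ℂ → ℂ) : integralMean lam r f ^ lam =
    (1 / (2 * π)) * ∫ θ in (0 : ℝ)..(2 * π),
      ‖deriv f (r * Complex.exp (θ * Complex.I))‖ ^ lam := by
  unfold integralMean
  have h : 0 ≤ (1 / (2 * π)) * ∫ θ in (0 : ℝ)..(2 * π),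
      ‖deriv f (r * Complex.exp (θ * Complex.I))‖ ^ lam := by
    refine mul_nonneg (by positivity) ?_
    exact intervalIntegral.integral_nonneg (by positivity) fun θ _ => by positivity
  rw [← Real.rpow_mul h, one_div_mul_cancel hl.ne', Real.rpow_one]

theorem cont_mean {f : ℂ → ℂ} (hf : ClassS f) {r : ℝ} (h0 : 0 < r) (h1 : r < 1) :
    Continuous fun lam : ℝ => (1 / (2 * π)) * ∫ θ in (0 : ℝ)..(2 * π),
      ‖deriv f (r * Complex.exp (θ * Complex.I))‖ ^ lam := by
  refine continuous_const.mul ?_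
  have hmem : ∀ θ : ℝ, (r : ℂ) * Complex.exp (θ * Complex.I) ∈ Metric.ball (0 : ℂ) 1 := by
    intro θ
    rw [mem_ball_zero_iff, norm_mul, Complex.norm_exp_ofReal_mul_I, mul_one, Complex.norm_real,
      Real.norm_of_nonneg h0.le]
    exact h1
  have hD : ContinuousOn (deriv f) (Metric.ball (0 : ℂ) 1) :=
    (hf.1.deriv Metric.isOpen_ball).continuousOn
  have hc : Continuous fun θ : ℝ => deriv f ((r : ℂ) * Complex.exp (θ * Complex.I)) := by
    refine hD.comp_continuous (by fun_prop) hmem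
  have hu : Continuous (Function.uncurry fun (lam : ℝ) (θ : ℝ) =>
      ‖deriv f ((r : ℂ) * Complex.exp (θ * Complex.I))‖ ^ lam) := by
    refine Continuous.rpow ((hc.norm).comp continuous_snd) continuous_fst fun p => Or.inl ?_
    exact norm_ne_zero_iff.2 (deriv_ne_zero_of_classS hf (hmem p.2))
  exact intervalIntegral.continuous_parametric_intervalIntegral_of_continuous' hu _ _

theorem mean_one_le {f : ℂ → ℂ} (hf : ClassS f) {r : ℝ} (h0 : 0 < r) (h1 : r < 1) :
    ∑' n : ℕ, ‖coeff n (rp (serP f) ((1 : ℝ) : ℂ))‖ ^ 2 * r ^ (2 * n) ≤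
      ∑' n : ℕ, (coeff n (Kq 1)) ^ 2 * r ^ (2 * n) := by
  rw [(hasSum_mean hf zero_lt_one h0 h1).tsum_eq, (hasSum_mean_koebe zero_lt_one h0 h1).tsum_eq,
    mean_pow (by norm_num), mean_pow (by norm_num)]
  have c1 := (cont_mean hf h0 h1).comp (continuous_const_mul (2 : ℝ))
  have c2 := (cont_mean classS_koebe' h0 h1).comp (continuous_const_mul (2 : ℝ))
  have l1 := (c1.tendsto 1).mono_left (nhdsWithin_le_nhds (s := Set.Ioi (1 : ℝ)))
  have l2 := (c2.tendsto 1).mono_left (nhdsWithin_le_nhds (s := Set.Ioi (1 : ℝ)))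
  refine le_of_tendsto_of_tendsto l1 l2 ?_
  have h3 : ∀ᶠ q : ℝ in 𝓝[>] 1, q < 2 := mem_nhdsWithin_of_mem_nhds (gt_mem_nhds (by norm_num))
  filter_upwards [h3, self_mem_nhdsWithin] with q hq2 hq1
  have hq0 : (0 : ℝ) < q := lt_trans zero_lt_one hq1
  have h := tsum_le hq1 hq2 hf h0 h1
  rw [(hasSum_mean hf hq0 h0 h1).tsum_eq, (hasSum_mean_koebe hq0 h0 h1).tsum_eq,
    mean_pow (by linarith), mean_pow (by linarith)] at h
  exact h

/-- The Koebe function is extremal for all `λ ≥ 2`. -/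
theorem bestConstant_of_two_le {lam : ℝ} (h : 2 ≤ lam) : bestConstant lam = 1 := by
  rcases le_or_gt 4 lam with h4 | h4
  · exact bestConstant_of_four_le h4
  have e : 2 * (lam / 2) = lam := by ring
  rcases h.eq_or_lt with h2 | h2
  · rw [← e, ← h2]
    norm_num
    have := bestConstant_eq_one (q := 1) zero_lt_one fun f hf r h0 h1 => mean_one_le hf h0 h1
    simpa using this
  · rw [← e]
    exact bestConstant_eq_one (q := lam / 2) (by linarith) fun f hf r h0 h1 =>
      tsum_le (by linarith) (by linarith) hf h0 h1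

end Pool.Agent.KIQ
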