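import Mathlib

/-!
# KQRa: the beta weight and its Stieltjes transform
-/

set_option autoImplicit false

open MeasureTheory Set

namespace Pool.Agent.KIQ.KER_

lemma beta_integrable {a b : ℝ} (ha : 0 < a) (hb : 0 < b) :
    IntegrableOn (fun x : ℝ => x ^ (a - 1) * (1 - x) ^ (b - 1)) (Ioo 0 1) := by
  have h := Complex.betaIntegral_convergent (u := (a : ℂ)) (v := (b : ℂ)) (by simpa) (by simpa)
  rw [intervalIntegrable_iff_integrableOn_Ioo_of_le zero_le_one] at h
  have h2 := h.re
  refine (integrableOn_congr_fun (fun x hx => ?_) measurableSet_Ioo).1 h2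
  have h0 : (0 : ℝ) ≤ x := hx.1.le
  have h1 : (0 : ℝ) ≤ 1 - x := by linarith [hx.2]
  have e1 : (x : ℂ) ^ ((a : ℂ) - 1) = ((x ^ (a - 1) : ℝ) : ℂ) := by
    rw [Complex.ofReal_cpow h0]; push_cast; rfl
  have e2 : (1 - (x : ℂ)) ^ ((b : ℂ) - 1) = (((1 - x) ^ (b - 1) : ℝ) : ℂ) := by
    rw [Complex.ofReal_cpow h1]; push_cast; rfl
  simp only [RCLike.re_to_complex]
  rw [e1, e2, ← Complex.ofReal_mul, Complex.ofReal_re]

lemma beta_integral {a b : ℝ} (ha : 0 < a) (hb : 0 < b) :
    ∫ x in Ioo (0 : ℝ) 1, x ^ (a - 1) * (1 - x) ^ (b - 1) = ProbabilityTheory.beta a b := by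
  rw [ProbabilityTheory.beta_eq_betaIntegralReal a b ha hb, Complex.betaIntegral,
    intervalIntegral.integral_of_le (by norm_num), integral_Ioc_eq_integral_Ioo,
    ← RCLike.re_to_complex, ← integral_re]
  · refine setIntegral_congr_fun measurableSet_Ioo fun x hx => ?_
    have h0 : (0 : ℝ) ≤ x := hx.1.le
    have h1 : (0 : ℝ) ≤ 1 - x := by linarith [hx.2]
    have e1 : (x : ℂ) ^ ((a : ℂ) - 1) = ((x ^ (a - 1) : ℝ) : ℂ) := by
      rw [Complex.ofReal_cpow h0]; push_cast; rfl
    have e2 : (1 - (x : ℂ)) ^ ((b : ℂ) - 1) = (((1 - x) ^ (b - 1) : ℝ) : ℂ) := by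
      rw [Complex.ofReal_cpow h1]; push_cast; rfl
    simp only [RCLike.re_to_complex]
    rw [e1, e2, ← Complex.ofReal_mul, Complex.ofReal_re]
  · have h := Complex.betaIntegral_convergent (u := (a : ℂ)) (v := (b : ℂ)) (by simpa)
      (by simpa)
    rwa [intervalIntegrable_iff_integrableOn_Ioo_of_le zero_le_one] at h

/-- The weight of total mass one. -/
noncomputable def wB (b x : ℝ) : ℝ :=
  Real.sin (Real.pi * b) / Real.pi * (x ^ (b - 1) * (1 - x) ^ (-b))

lemma beta_one_sub (b : ℝ) :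
    ProbabilityTheory.beta b (1 - b) = Real.pi / Real.sin (Real.pi * b) := by
  rw [ProbabilityTheory.beta, Real.Gamma_mul_Gamma_one_sub]
  simp

lemma sin_pos' {b : ℝ} (h0 : 0 < b) (h1 : b < 1) : 0 < Real.sin (Real.pi * b) :=
  Real.sin_pos_of_pos_of_lt_pi (by positivity) (by nlinarith [Real.pi_pos])

lemma wB_integrable {b : ℝ} (h0 : 0 < b) (h1 : b < 1) : IntegrableOn (wB b) (Ioo 0 1) := by
  have h := (beta_integrable h0 (sub_pos.2 h1)).const_mul (Real.sin (Real.pi * b) / Real.pi)
  have e : (1 - b - 1 : ℝ) = -b := by ring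
  rw [e] at h
  exact h

lemma wB_nonneg {b : ℝ} (h0 : 0 < b) (h1 : b < 1) {x : ℝ} (hx : x ∈ Ioo (0 : ℝ) 1) :
    0 ≤ wB b x := by
  have := sin_pos' h0 h1
  have h2 : 0 < 1 - x := by linarith [hx.2]
  have h3 := hx.1
  unfold wB
  positivity

lemma Gamma_add_nat {b : ℝ} (h0 : 0 < b) (n : ℕ) :
    Real.Gamma (n + b) = (∏ i ∈ Finset.range n, (b + i)) * Real.Gamma b := by
  induction n with
  | zero => simp
  | succ n ih =>
    rw [Finset.prod_range_succ]
    have : ((n + 1 : ℕ) : ℝ) + b = (n + b) + 1 := by push_cast; ring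
    rw [this, Real.Gamma_add_one (by positivity), ih]
    ring

/-- The moments of the weight. -/
lemma wB_moment {b : ℝ} (h0 : 0 < b) (h1 : b < 1) (n : ℕ) :
    ∫ x in Ioo (0 : ℝ) 1, wB b x * x ^ n = ∏ i ∈ Finset.range n, (b + i) / ((i : ℝ) + 1) := by
  have hs := sin_pos' h0 h1
  have h : ∀ x ∈ Ioo (0 : ℝ) 1, wB b x * x ^ n =
      Real.sin (Real.pi * b) / Real.pi * (x ^ ((n + b) - 1) * (1 - x) ^ ((1 - b) - 1)) := by
    intro x hx
    have e : x ^ ((n + b : ℝ) - 1) = x ^ (b - 1) * x ^ n := by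
      rw [← Real.rpow_natCast x n, ← Real.rpow_add hx.1]; congr 1; ring
    have e' : (1 - b - 1 : ℝ) = -b := by ring
    rw [e, e', wB]; ring
  rw [setIntegral_congr_fun measurableSet_Ioo h, integral_const_mul,
    beta_integral (by positivity) (sub_pos.2 h1), ProbabilityTheory.beta]
  have e1 : (n : ℝ) + b + (1 - b) = n + 1 := by ring
  rw [e1, Real.Gamma_nat_eq_factorial, Gamma_add_nat h0]
  have e2 := Real.Gamma_mul_Gamma_one_sub b
  have e3 : (∏ i ∈ Finset.range n, (b + i) / ((i : ℝ) + 1)) =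
      (∏ i ∈ Finset.range n, (b + i)) / (n.factorial : ℝ) := by
    rw [Finset.prod_div_distrib]
    congr 1
    have := Finset.prod_range_add_one_eq_factorial n
    rw [← this]; push_cast; rfl
  rw [e3]
  have : Real.sin (Real.pi * b) / Real.pi *
      ((∏ i ∈ Finset.range n, (b + i)) * Real.Gamma b * Real.Gamma (1 - b) /
        (n.factorial : ℝ)) = Real.sin (Real.pi * b) / Real.pi *
      (Real.Gamma b * Real.Gamma (1 - b)) * ((∏ i ∈ Finset.range n, (b + i)) /
        (n.factorial : ℝ)) := by ring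
  rw [this, e2]
  field_simp

/-- The Moebius substitution. -/
lemma image_moebius {s : ℝ} (hs : 0 ≤ s) :
    (fun x : ℝ => x * (1 + s) / (1 + s * x)) '' Ioo 0 1 = Ioo 0 1 := by
  ext t
  constructor
  · rintro ⟨x, ⟨hx0, hx1⟩, rfl⟩
    have h1 : 0 < 1 + s * x := by positivity
    refine ⟨by positivity, ?_⟩
    simp only
    rw [div_lt_one h1]; nlinarith
  · rintro ⟨ht0, ht1⟩
    have h1 : 0 < 1 + s - s * t := by nlinarith
    refine ⟨t / (1 + s - s * t), ⟨by positivity, ?_⟩, ?_⟩
    · rw [div_lt_one h1]; nlinarith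
    · simp only
      have h2 : 1 + s * (t / (1 + s - s * t)) = (1 + s) / (1 + s - s * t) := by
        field_simp; ring
      rw [h2]; field_simp
      exact div_self (by nlinarith)

/-- The Stieltjes transform of the weight. -/
lemma wB_stieltjes {b : ℝ} (h0 : 0 < b) (h1 : b < 1) {s : ℝ} (hs : 0 ≤ s) :
    ∫ x in Ioo (0 : ℝ) 1, wB b x / (1 + s * x) = (1 + s) ^ (-b) := by
  have key := integral_image_eq_integral_abs_deriv_smul (s := Ioo (0 : ℝ) 1)
    (f := fun x : ℝ => x * (1 + s) / (1 + s * x))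
    (f' := fun x : ℝ => (1 + s) / (1 + s * x) ^ 2) measurableSet_Ioo
    (fun x hx => by
      have h1 : 0 < 1 + s * x := by have := hx.1; positivity
      have hd : HasDerivAt (fun x : ℝ => x * (1 + s) / (1 + s * x))
          ((1 * (1 + s) * (1 + s * x) - x * (1 + s) * (s * 1)) / (1 + s * x) ^ 2) x :=
        ((hasDerivAt_id x).mul_const (1 + s)).div
          (((hasDerivAt_id x).const_mul s).const_add 1) h1.ne'
      refine (hd.congr_deriv ?_).hasDerivWithinAt
      congr 1; ring)
    (fun x hx y hy h => by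
      have h1 : 0 < 1 + s * x := by have := hx.1; positivity
      have h2 : 0 < 1 + s * y := by have := hy.1; positivity
      simp only at h
      rw [div_eq_div_iff h1.ne' h2.ne'] at h
      have : (1 + s) * (x - y) = 0 := by linear_combination h
      rcases mul_eq_zero.1 this with h3 | h3
      · linarith
      · linarith)
    (fun t : ℝ => wB b t)
  rw [image_moebius hs] at key
  have hm := wB_moment h0 h1 0
  simp only [pow_zero, mul_one, Finset.range_zero, Finset.prod_empty] at hm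
  rw [hm] at key
  have h2 : ∀ x ∈ Ioo (0 : ℝ) 1, |(1 + s) / (1 + s * x) ^ 2| • wB b (x * (1 + s) / (1 + s * x)) =
      (1 + s) ^ b * (wB b x / (1 + s * x)) := by
    intro x hx
    have hx0 := hx.1
    have hx1 : 0 < 1 - x := by linarith [hx.2]
    have hp : 0 < 1 + s * x := by positivity
    have hq : 0 < 1 + s := by positivity
    rw [abs_of_pos (by positivity), smul_eq_mul, wB, wB]
    have e1 : 1 - x * (1 + s) / (1 + s * x) = (1 - x) / (1 + s * x) := by field_simp; ring
    rw [e1, Real.div_rpow (by positivity) hp.le, Real.div_rpow hx1.le hp.le,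
      Real.mul_rpow hx0.le hq.le]
    have e2 : (1 + s) ^ (b - 1) = (1 + s) ^ b / (1 + s) := by
      rw [Real.rpow_sub hq, Real.rpow_one]
    have e3 : (1 + s * x) ^ (b - 1) = (1 + s * x) ^ b / (1 + s * x) := by
      rw [Real.rpow_sub hp, Real.rpow_one]
    have e4 : (1 + s * x) ^ (-b) = ((1 + s * x) ^ b)⁻¹ := Real.rpow_neg hp.le b
    rw [e2, e3, e4]
    have h5 : 0 < (1 + s * x) ^ b := by positivity
    field_simp
  rw [setIntegral_congr_fun measurableSet_Ioo h2, integral_const_mul] at key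
  have hq : 0 < (1 + s : ℝ) ^ b := by positivity
  rw [Real.rpow_neg (by positivity)]
  field_simp
  rw [mul_comm]
  exact key.symm

lemma wB_div_integrable {b : ℝ} (h0 : 0 < b) (h1 : b < 1) {s : ℝ} (hs : 0 ≤ s) :
    IntegrableOn (fun x => wB b x / (1 + s * x)) (Ioo 0 1) := by
  refine Integrable.mono' (wB_integrable h0 h1) ?_ ?_
  · refine ((wB_integrable h0 h1).aestronglyMeasurable).div₀ ?_
    exact (by fun_prop : Measurable fun x : ℝ => 1 + s * x).aestronglyMeasurable
  · refine (ae_restrict_iff' measurableSet_Ioo).2 (Filter.Eventually.of_forall fun x hx => ?_)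
    have hw := wB_nonneg h0 h1 hx
    have hx0 := hx.1
    rw [Real.norm_eq_abs, abs_of_nonneg (by positivity)]
    exact div_le_self hw (by nlinarith [mul_nonneg hs hx0.le])

end Pool.Agent.KIQ.KER_
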