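import Mathlib
import Pool.Agent.KIQ.Defs
import Pool.Agent.KIQ.KQRa

/-!
# KQRb: the kernel identity for small `q`
-/

set_option autoImplicit false

open MeasureTheory Set PowerSeries

namespace Pool.Agent.KIQ.KER_

/-- `binomial(a, n)`. -/
noncomputable def Ac {k : Type*} [Field k] (a : k) (n : ℕ) : k :=
  ∏ i ∈ Finset.range n, (a - i) / ((i : k) + 1)

/-- Coefficients of `(1 - z) ^ (-b)`. -/
noncomputable def Bc {k : Type*} [Field k] (b : k) (n : ℕ) : k :=
  ∏ i ∈ Finset.range n, (b + i) / ((i : k) + 1)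

lemma rpc_one_add (a : ℝ) (n : ℕ) : KIM.rpc (1 + X : ℝ⟦X⟧) a n = Ac a n := by
  induction n with
  | zero => simp [KIM.rpc, Ac]
  | succ n ih =>
    rw [KIM.rpc, Finset.sum_eq_single (Fin.last n)]
    · have h1 : n + 1 - ((Fin.last n : Fin (n + 1)) : ℕ) = 1 := by simp
      rw [h1, Fin.val_last, ih, Ac, Ac, Finset.prod_range_succ]
      simp [PowerSeries.coeff_X, PowerSeries.coeff_one]
      ring
    · intro i _ hi
      have hlt : (i : ℕ) < n := by
        rcases Nat.lt_or_ge (i : ℕ) n with h | h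
        · exact h
        · exact absurd (Fin.ext (by simp; omega)) hi
      have h2 : coeff (n + 1 - (i : ℕ)) (1 + X : ℝ⟦X⟧) = 0 := by
        rw [map_add, PowerSeries.coeff_one, PowerSeries.coeff_X, if_neg (by omega),
          if_neg (by omega), add_zero]
      rw [h2]; ring
    · intro h; exact absurd (Finset.mem_univ _) h

lemma rpc_one_sub (b : ℝ) (n : ℕ) : KIM.rpc (1 - X : ℝ⟦X⟧) (-b) n = Bc b n := by
  induction n with
  | zero => simp [KIM.rpc, Bc]
  | succ n ih =>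
    rw [KIM.rpc, Finset.sum_eq_single (Fin.last n)]
    · have h1 : n + 1 - ((Fin.last n : Fin (n + 1)) : ℕ) = 1 := by simp
      rw [h1, Fin.val_last, ih, Bc, Bc, Finset.prod_range_succ]
      simp [PowerSeries.coeff_X, PowerSeries.coeff_one]
      ring
    · intro i _ hi
      have hlt : (i : ℕ) < n := by
        rcases Nat.lt_or_ge (i : ℕ) n with h | h
        · exact h
        · exact absurd (Fin.ext (by simp; omega)) hi
      have h2 : coeff (n + 1 - (i : ℕ)) (1 - X : ℝ⟦X⟧) = 0 := by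
        rw [map_sub, PowerSeries.coeff_one, PowerSeries.coeff_X, if_neg (by omega),
          if_neg (by omega), sub_zero]
      rw [h2]; ring
    · intro h; exact absurd (Finset.mem_univ _) h

lemma cN_eq (q : ℝ) (N : ℕ) :
    cN q N = ∑ i ∈ Finset.range (N + 1), Ac q i * Bc (3 * q) (N - i) := by
  rw [cN, KIM.Kq, KIM.bin, PowerSeries.coeff_mul,
    Finset.Nat.sum_antidiagonal_eq_sum_range_succ_mk]
  refine Finset.sum_congr rfl fun i _ => ?_
  rw [KIM.rp, KIM.rp, PowerSeries.coeff_mk, PowerSeries.coeff_mk, rpc_one_add, rpc_one_sub]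

lemma Ac_succ (q : ℝ) (i : ℕ) :
    Ac q (i + 1) = (-1) ^ i * (Bc (1 - q) i - Bc (1 - q) (i + 1)) := by
  have h : ∀ i : ℕ, Ac q (i + 1) = (-1) ^ i * (Bc (1 - q) i * (q / ((i : ℝ) + 1))) := by
    intro i
    induction i with
    | zero => simp [Ac, Bc]
    | succ i ih =>
      rw [Ac, Finset.prod_range_succ, ← Ac, ih, Bc, Bc, Finset.prod_range_succ]
      have h1 : (i : ℝ) + 1 ≠ 0 := by positivity
      have h2 : (i : ℝ) + 1 + 1 ≠ 0 := by positivity
      push_cast
      field_simp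
      ring
  rw [h i, Bc, Bc, Finset.prod_range_succ]
  have h1 : (i : ℝ) + 1 ≠ 0 := by positivity
  field_simp
  ring

/-- Geometric expansion with remainder. -/
lemma geom_rem (k x : ℝ) (hx : 1 + k * x ≠ 0) (N : ℕ) :
    (1 + x) / (1 + k * x) = 1 + ∑ i ∈ Finset.range N, (-k) ^ i * (1 - k) * x ^ (i + 1) +
      (1 - k) * (-k) ^ N * x ^ (N + 1) / (1 + k * x) := by
  induction N with
  | zero =>
    rw [Finset.range_zero, Finset.sum_empty, div_eq_iff hx, add_mul, div_mul_cancel₀ _ hx]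
    ring
  | succ N ih =>
    rw [ih, Finset.sum_range_succ]
    field_simp
    ring_nf

/-- The truncated binomial series. -/
lemma binom_rem {q : ℝ} (h0 : 0 < q) (h1 : q < 1) {x : ℝ} (hx : 0 ≤ x) (N : ℕ) :
    (1 + x) ^ q = ∑ i ∈ Finset.range (N + 1), Ac q i * x ^ i +
      ∫ k in Ioo (0 : ℝ) 1, wB (1 - q) k * ((1 - k) * (-k) ^ N * x ^ (N + 1) / (1 + k * x)) := by
  have hb0 : 0 < 1 - q := by linarith
  have hb1 : 1 - q < 1 := by linarith
  have hS := wB_stieltjes hb0 hb1 hx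
  have hw := wB_integrable hb0 hb1
  have hpos : ∀ k ∈ Ioo (0 : ℝ) 1, 0 < 1 + k * x := fun k hk => by have := hk.1; positivity
  have hmom : ∀ i : ℕ, IntegrableOn (fun k => wB (1 - q) k * k ^ i) (Ioo 0 1) := by
    intro i
    refine Integrable.mono' hw (hw.aestronglyMeasurable.mul
      (by fun_prop : Measurable fun k : ℝ => k ^ i).aestronglyMeasurable) ?_
    refine (ae_restrict_iff' measurableSet_Ioo).2 (Filter.Eventually.of_forall fun k hk => ?_)
    have h2 := wB_nonneg hb0 hb1 hk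
    have h3 : k ^ i ≤ 1 := pow_le_one₀ hk.1.le hk.2.le
    have h4 : 0 ≤ k ^ i := pow_nonneg hk.1.le i
    rw [Real.norm_eq_abs, abs_of_nonneg (mul_nonneg h2 h4)]
    exact mul_le_of_le_one_right h2 h3
  have hterm : ∀ i : ℕ, IntegrableOn (fun k => wB (1 - q) k * ((-k) ^ i * (1 - k) * x ^ (i + 1)))
      (Ioo 0 1) ∧ ∫ k in Ioo (0 : ℝ) 1, wB (1 - q) k * ((-k) ^ i * (1 - k) * x ^ (i + 1)) =
        Ac q (i + 1) * x ^ (i + 1) := by
    intro i
    have e : ∀ k : ℝ, wB (1 - q) k * ((-k) ^ i * (1 - k) * x ^ (i + 1)) =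
        (-1) ^ i * x ^ (i + 1) * (wB (1 - q) k * k ^ i) -
          (-1) ^ i * x ^ (i + 1) * (wB (1 - q) k * k ^ (i + 1)) := by
      intro k; rw [neg_pow k i]; ring
    simp_rw [e]
    refine ⟨((hmom i).const_mul _).sub ((hmom (i + 1)).const_mul _), ?_⟩
    rw [integral_sub ((hmom i).const_mul _) ((hmom (i + 1)).const_mul _), integral_const_mul,
      integral_const_mul, wB_moment hb0 hb1, wB_moment hb0 hb1, Ac_succ]
    rw [Bc, Bc]; ring
  have hsum : IntegrableOn (fun k => ∑ i ∈ Finset.range N,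
      wB (1 - q) k * ((-k) ^ i * (1 - k) * x ^ (i + 1))) (Ioo 0 1) :=
    integrable_finsetSum _ fun i _ => (hterm i).1
  have hdiv : IntegrableOn (fun k => wB (1 - q) k / (1 + x * k)) (Ioo 0 1) :=
    wB_div_integrable hb0 hb1 hx
  have hrem : ∀ k ∈ Ioo (0 : ℝ) 1,
      wB (1 - q) k * ((1 - k) * (-k) ^ N * x ^ (N + 1) / (1 + k * x)) =
      (1 + x) * (wB (1 - q) k / (1 + x * k)) - (wB (1 - q) k +
        ∑ i ∈ Finset.range N, wB (1 - q) k * ((-k) ^ i * (1 - k) * x ^ (i + 1))) := by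
    intro k hk
    have h := geom_rem k x (hpos k hk).ne' N
    have e : (1 + x) * (wB (1 - q) k / (1 + x * k)) = wB (1 - q) k * ((1 + x) / (1 + k * x)) := by
      rw [mul_comm x k]; ring
    rw [e, h, ← Finset.mul_sum]; ring
  have hadd : IntegrableOn (fun k => wB (1 - q) k + ∑ i ∈ Finset.range N,
      wB (1 - q) k * ((-k) ^ i * (1 - k) * x ^ (i + 1))) (Ioo 0 1) := hw.add hsum
  rw [setIntegral_congr_fun measurableSet_Ioo hrem,
    integral_sub (hdiv.const_mul _) hadd, integral_const_mul, hS,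
    integral_add hw hsum, integral_finsetSum _ fun i _ => (hterm i).1]
  have hm := wB_moment hb0 hb1 0
  simp only [pow_zero, mul_one, Finset.range_zero, Finset.prod_empty] at hm
  rw [hm, Finset.sum_range_succ']
  have h1x : 0 < 1 + x := by positivity
  have e2 : (1 + x) * (1 + x) ^ (-(1 - q)) = (1 + x) ^ q := by
    conv_lhs => rw [← Real.rpow_one (1 + x), ← Real.rpow_mul h1x.le, ← Real.rpow_add h1x]
    congr 1; ring
  have hA0 : Ac q 0 = 1 := by simp [Ac]
  rw [e2, Finset.sum_congr rfl fun i _ => (hterm i).2, hA0]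
  ring

lemma measurable_wB (b : ℝ) : Measurable (wB b) := by
  unfold wB
  fun_prop

/-- The inner sum. -/
lemma inner_sum {q : ℝ} (h0 : 0 < q) (h1 : q < 1) {x : ℝ} (hx : 0 < x) (N : ℕ) :
    ∑ i ∈ Finset.range (N + 1), Ac q i * x ^ (N - i) = x ^ N * (1 + x⁻¹) ^ q -
      (-1) ^ N * ∫ k in Ioo (0 : ℝ) 1, wB (1 - q) k * ((1 - k) * k ^ N / (x + k)) := by
  have h := binom_rem h0 h1 (x := x⁻¹) (by positivity) N
  have e1 : ∑ i ∈ Finset.range (N + 1), Ac q i * x ^ (N - i) =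
      x ^ N * ∑ i ∈ Finset.range (N + 1), Ac q i * x⁻¹ ^ i := by
    rw [Finset.mul_sum]
    refine Finset.sum_congr rfl fun i hi => ?_
    have hi' : i ≤ N := Nat.lt_succ_iff.1 (Finset.mem_range.1 hi)
    have : x ^ N = x ^ (N - i) * x ^ i := by rw [← pow_add, Nat.sub_add_cancel hi']
    rw [this, inv_pow]
    field_simp
  have e2 : (-1 : ℝ) ^ N * ∫ k in Ioo (0 : ℝ) 1, wB (1 - q) k * ((1 - k) * k ^ N / (x + k)) =
      x ^ N * ∫ k in Ioo (0 : ℝ) 1,
        wB (1 - q) k * ((1 - k) * (-k) ^ N * x⁻¹ ^ (N + 1) / (1 + k * x⁻¹)) := by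
    rw [← integral_const_mul, ← integral_const_mul]
    refine setIntegral_congr_fun measurableSet_Ioo fun k hk => ?_
    have hk0 := hk.1
    have e3 : 1 + k * x⁻¹ = (x + k) / x := by field_simp
    rw [e3, neg_pow k N, inv_pow, pow_succ]
    field_simp
  rw [e1, e2, h]
  ring

/-- The integrand of the swap. -/
noncomputable def fsw (q : ℝ) (N : ℕ) (x k : ℝ) : ℝ :=
  wB (3 * q) x * (wB (1 - q) k * ((1 - k) * k ^ N / (x + k)))

lemma fsw_nonneg {q : ℝ} (h0 : 0 < q) (h1 : q < 1 / 3) (N : ℕ) {x k : ℝ}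
    (hx : x ∈ Ioo (0 : ℝ) 1) (hk : k ∈ Ioo (0 : ℝ) 1) : 0 ≤ fsw q N x k := by
  have a1 := wB_nonneg (b := 3 * q) (by linarith) (by linarith) hx
  have a2 := wB_nonneg (b := 1 - q) (by linarith) (by linarith) hk
  have a3 : 0 < 1 - k := by linarith [hk.2]
  have a4 := hk.1
  have a5 := hx.1
  unfold fsw
  positivity

lemma fsw_int_k {q : ℝ} (h0 : 0 < q) (h1 : q < 1 / 3) (N : ℕ) {x : ℝ}
    (hx : x ∈ Ioo (0 : ℝ) 1) : IntegrableOn (fsw q N x) (Ioo 0 1) := by
  have hw := wB_integrable (b := 1 - q) (by linarith) (by linarith)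
  have hx0 := hx.1
  refine Integrable.mono' (hw.const_mul (wB (3 * q) x * x⁻¹)) ?_ ?_
  · refine Measurable.aestronglyMeasurable ?_
    unfold fsw
    have := measurable_wB (1 - q)
    fun_prop
  · refine (ae_restrict_iff' measurableSet_Ioo).2 (Filter.Eventually.of_forall fun k hk => ?_)
    rw [Real.norm_eq_abs, abs_of_nonneg (fsw_nonneg h0 h1 N hx hk)]
    have a1 := wB_nonneg (b := 3 * q) (by linarith) (by linarith) hx
    have a2 := wB_nonneg (b := 1 - q) (by linarith) (by linarith) hk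
    have hk0 := hk.1
    have hk1 : 0 ≤ 1 - k := by linarith [hk.2]
    have a3 : (1 - k) * k ^ N / (x + k) ≤ x⁻¹ := by
      rw [div_le_iff₀ (by positivity), inv_mul_eq_div, le_div_iff₀ hx0]
      have b1 : k ^ N ≤ 1 := pow_le_one₀ hk.1.le hk.2.le
      have b2 : (1 - k) * k ^ N ≤ 1 := by
        have : (1 - k) * k ^ N ≤ (1 - k) * 1 := mul_le_mul_of_nonneg_left b1 hk1
        linarith
      calc (1 - k) * k ^ N * x ≤ 1 * x := mul_le_mul_of_nonneg_right b2 hx0.le
        _ ≤ x + k := by linarith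
    unfold fsw
    calc wB (3 * q) x * (wB (1 - q) k * ((1 - k) * k ^ N / (x + k)))
        ≤ wB (3 * q) x * (wB (1 - q) k * x⁻¹) := by gcongr
      _ = wB (3 * q) x * x⁻¹ * wB (1 - q) k := by ring

lemma H1_int {q : ℝ} (h0 : 0 < q) (h1 : q < 1 / 3) (N : ℕ) :
    IntegrableOn (fun x => wB (3 * q) x * (x ^ N * (1 + x⁻¹) ^ q)) (Ioo 0 1) := by
  have hb := beta_integrable (a := 2 * q) (b := 1 - 3 * q) (by linarith) (by linarith)
  refine Integrable.mono' (hb.const_mul (Real.sin (Real.pi * (3 * q)) / Real.pi * 2 ^ q)) ?_ ?_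
  · have := measurable_wB (3 * q)
    exact (by fun_prop : Measurable fun x : ℝ =>
      wB (3 * q) x * (x ^ N * (1 + x⁻¹) ^ q)).aestronglyMeasurable
  · refine (ae_restrict_iff' measurableSet_Ioo).2 (Filter.Eventually.of_forall fun x hx => ?_)
    have hx0 := hx.1
    have hx1 : 0 < 1 - x := by linarith [hx.2]
    have hs := sin_pos' (b := 3 * q) (by linarith) (by linarith)
    have a1 := wB_nonneg (b := 3 * q) (by linarith) (by linarith) hx
    rw [Real.norm_eq_abs, abs_of_nonneg (by positivity)]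
    have b1 : x ^ N ≤ 1 := pow_le_one₀ hx.1.le hx.2.le
    have b2 : (1 + x⁻¹) ^ q ≤ 2 ^ q * x ^ (-q) := by
      have : 1 + x⁻¹ ≤ 2 * x⁻¹ := by
        have : 1 ≤ x⁻¹ := (one_le_inv₀ hx0).2 hx.2.le
        linarith
      calc (1 + x⁻¹) ^ q ≤ (2 * x⁻¹) ^ q := Real.rpow_le_rpow (by positivity) this h0.le
        _ = 2 ^ q * x ^ (-q) := by
          rw [Real.mul_rpow (by norm_num) (by positivity), Real.inv_rpow hx0.le,
            Real.rpow_neg hx0.le]
    have b3 : x ^ (2 * q - 1) = x ^ (3 * q - 1) * x ^ (-q) := by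
      rw [← Real.rpow_add hx0]; congr 1; ring
    have b4 : (1 - 3 * q - 1 : ℝ) = -(3 * q) := by ring
    calc wB (3 * q) x * (x ^ N * (1 + x⁻¹) ^ q) ≤ wB (3 * q) x * (1 * (2 ^ q * x ^ (-q))) := by
          gcongr
      _ = Real.sin (Real.pi * (3 * q)) / Real.pi * 2 ^ q *
          (x ^ (2 * q - 1) * (1 - x) ^ (1 - 3 * q - 1)) := by
          rw [b3, b4, wB]; ring

lemma H2_int {q : ℝ} (h0 : 0 < q) (h1 : q < 1 / 3) (N : ℕ) :
    IntegrableOn (fun x => wB (3 * q) x * ∑ i ∈ Finset.range (N + 1), Ac q i * x ^ (N - i))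
      (Ioo 0 1) ∧
    ∫ x in Ioo (0 : ℝ) 1, wB (3 * q) x * ∑ i ∈ Finset.range (N + 1), Ac q i * x ^ (N - i) =
      cN q N := by
  have hw := wB_integrable (b := 3 * q) (by linarith) (by linarith)
  have hmom : ∀ i : ℕ, IntegrableOn (fun x => wB (3 * q) x * x ^ i) (Ioo 0 1) := by
    intro i
    refine Integrable.mono' hw (hw.aestronglyMeasurable.mul
      (by fun_prop : Measurable fun k : ℝ => k ^ i).aestronglyMeasurable) ?_
    refine (ae_restrict_iff' measurableSet_Ioo).2 (Filter.Eventually.of_forall fun k hk => ?_)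
    have h2 := wB_nonneg (b := 3 * q) (by linarith) (by linarith) hk
    have h3 : k ^ i ≤ 1 := pow_le_one₀ hk.1.le hk.2.le
    have h4 : 0 ≤ k ^ i := pow_nonneg hk.1.le i
    rw [Real.norm_eq_abs, abs_of_nonneg (mul_nonneg h2 h4)]
    exact mul_le_of_le_one_right h2 h3
  have e : ∀ x : ℝ, wB (3 * q) x * ∑ i ∈ Finset.range (N + 1), Ac q i * x ^ (N - i) =
      ∑ i ∈ Finset.range (N + 1), Ac q i * (wB (3 * q) x * x ^ (N - i)) := by
    intro x; rw [Finset.mul_sum]; exact Finset.sum_congr rfl fun i _ => by ring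
  simp_rw [e]
  refine ⟨integrable_finsetSum _ fun i _ => (hmom _).const_mul _, ?_⟩
  rw [integral_finsetSum _ fun i _ => (hmom _).const_mul _, cN_eq]
  refine Finset.sum_congr rfl fun i _ => ?_
  rw [integral_const_mul, wB_moment (b := 3 * q) (by linarith) (by linarith), Bc]

lemma fsw_inner {q : ℝ} (h0 : 0 < q) (h1 : q < 1 / 3) (N : ℕ) {x : ℝ} (hx : x ∈ Ioo (0 : ℝ) 1) :
    ∫ k in Ioo (0 : ℝ) 1, fsw q N x k = (-1) ^ N * (wB (3 * q) x * (x ^ N * (1 + x⁻¹) ^ q) -
      wB (3 * q) x * ∑ i ∈ Finset.range (N + 1), Ac q i * x ^ (N - i)) := by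
  have h := inner_sum h0 (by linarith : q < 1) hx.1 N
  unfold fsw
  rw [integral_const_mul, h]
  have h2 : ((-1 : ℝ) ^ N) * (-1) ^ N = 1 := by rw [← mul_pow]; simp
  linear_combination (-(wB (3 * q) x * ∫ k in Ioo (0 : ℝ) 1,
    wB (1 - q) k * ((1 - k) * k ^ N / (x + k)))) * h2

lemma fsw_integrable {q : ℝ} (h0 : 0 < q) (h1 : q < 1 / 3) (N : ℕ) :
    Integrable (Function.uncurry (fsw q N))
      ((volume.restrict (Ioo (0 : ℝ) 1)).prod (volume.restrict (Ioo (0 : ℝ) 1))) := by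
  have hm : Measurable (Function.uncurry (fsw q N)) := by
    have m1 := measurable_wB (3 * q)
    have m2 := measurable_wB (1 - q)
    unfold Function.uncurry fsw
    fun_prop
  rw [integrable_prod_iff hm.aestronglyMeasurable]
  constructor
  · refine (ae_restrict_iff' measurableSet_Ioo).2 (Filter.Eventually.of_forall fun x hx => ?_)
    exact fsw_int_k h0 h1 N hx
  · refine IntegrableOn.congr_fun (f := fun x => (-1) ^ N *
      (wB (3 * q) x * (x ^ N * (1 + x⁻¹) ^ q) -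
      wB (3 * q) x * ∑ i ∈ Finset.range (N + 1), Ac q i * x ^ (N - i))) ?_ ?_ measurableSet_Ioo
    · exact ((H1_int h0 h1 N).sub (H2_int h0 h1 N).1).const_mul _
    · intro x hx
      simp only
      rw [← fsw_inner h0 h1 N hx]
      refine setIntegral_congr_fun measurableSet_Ioo fun k hk => ?_
      simp only [Function.uncurry]
      rw [Real.norm_eq_abs, abs_of_nonneg (fsw_nonneg h0 h1 N hx hk)]

lemma fsw_outer {q : ℝ} (h0 : 0 < q) (h1 : q < 1 / 3) (N : ℕ) {k : ℝ} (hk : k ∈ Ioo (0 : ℝ) 1) :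
    ∫ x in Ioo (0 : ℝ) 1, fsw q N x k =
      wB (1 - q) k * ((1 - k) * k ^ N) * (k⁻¹ * (1 + k⁻¹) ^ (-(3 * q))) := by
  have hk0 := hk.1
  have h := wB_stieltjes (b := 3 * q) (by linarith) (by linarith) (s := k⁻¹) (by positivity)
  rw [← h, ← integral_const_mul, ← integral_const_mul]
  refine setIntegral_congr_fun measurableSet_Ioo fun x hx => ?_
  have hx0 := hx.1
  simp only [fsw]
  have : 1 + k⁻¹ * x = (x + k) / k := by field_simp; ring
  rw [this]
  field_simp

/-- The base identity on the interval `(0, 1)`. -/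
lemma base01 {q : ℝ} (h0 : 0 < q) (h1 : q < 1 / 3) (N : ℕ) :
    cN q N = (∫ x in Ioo (0 : ℝ) 1, wB (3 * q) x * (x ^ N * (1 + x⁻¹) ^ q)) -
      (-1) ^ N * ∫ k in Ioo (0 : ℝ) 1,
        wB (1 - q) k * ((1 - k) * k ^ N) * (k⁻¹ * (1 + k⁻¹) ^ (-(3 * q))) := by
  have hsw := integral_integral_swap (fsw_integrable h0 h1 N)
  rw [setIntegral_congr_fun measurableSet_Ioo fun x hx => fsw_inner h0 h1 N hx,
    setIntegral_congr_fun measurableSet_Ioo fun k hk => fsw_outer h0 h1 N hk,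
    integral_const_mul, integral_sub (H1_int h0 h1 N) (H2_int h0 h1 N).1,
    (H2_int h0 h1 N).2] at hsw
  rw [← hsw]
  have h2 : ((-1 : ℝ) ^ N) * (-1) ^ N = 1 := by rw [← mul_pow]; simp
  linear_combination ((∫ x in Ioo (0 : ℝ) 1, wB (3 * q) x * (x ^ N * (1 + x⁻¹) ^ q)) -
    cN q N) * h2

/-- Substitution `x = exp (-2 y)`. -/
lemma integral_exp_subst (f : ℝ → ℝ) :
    ∫ x in Ioo (0 : ℝ) 1, f x = ∫ y in Ioi (0 : ℝ), 2 * Real.exp (-(2 * y)) *
      f (Real.exp (-(2 * y))) := by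
  have himg : (fun y : ℝ => Real.exp (-(2 * y))) '' Ioi 0 = Ioo 0 1 := by
    ext x
    constructor
    · rintro ⟨y, hy, rfl⟩
      have hy' : (0 : ℝ) < y := hy
      refine ⟨Real.exp_pos _, ?_⟩
      rw [← Real.exp_zero]
      exact Real.exp_lt_exp.2 (by linarith)
    · rintro ⟨hx0, hx1⟩
      refine ⟨-(Real.log x) / 2, ?_, ?_⟩
      · have := Real.log_neg hx0 hx1
        show (0 : ℝ) < -(Real.log x) / 2
        linarith
      · simp only
        have : -(2 * (-(Real.log x) / 2)) = Real.log x := by ring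
        rw [this, Real.exp_log hx0]
  rw [← himg, integral_image_eq_integral_abs_deriv_smul (f' := fun y : ℝ =>
    Real.exp (-(2 * y)) * (-(2 * 1))) measurableSet_Ioi]
  · refine setIntegral_congr_fun measurableSet_Ioi fun y _ => ?_
    simp only [smul_eq_mul]
    have h2 : |(-(2 * 1) : ℝ)| = 2 := by norm_num
    rw [abs_mul, abs_of_pos (Real.exp_pos _), h2]
    ring
  · intro y _
    exact (((hasDerivAt_id y).const_mul 2).neg.exp).hasDerivWithinAt
  · intro x _ y _ h
    have := Real.exp_injective h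
    linarith

/-- The base identity. -/
lemma base {q : ℝ} (h0 : 0 < q) (h1 : q < 1 / 3) (N : ℕ) :
    (2 : ℝ) ^ (2 * q - 1) * cN q N =
      Real.sin (3 * Real.pi * q) / Real.pi *
        (∫ y in Ioi (0 : ℝ), Real.exp (-(aN q N * y)) * hK q y) -
      (-1) ^ N * (Real.sin (Real.pi * q) / Real.pi) *
        (∫ y in Ioi (0 : ℝ), Real.exp (-(aN q N * y)) * gK q y) := by
  have hc : ∀ y : ℝ, 1 + (Real.exp (-(2 * y)))⁻¹ = 2 * Real.exp y * Real.cosh y := by
    intro y
    rw [Real.cosh_eq, ← Real.exp_neg, neg_neg]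
    have : Real.exp (2 * y) = Real.exp y * Real.exp y := by rw [← Real.exp_add]; ring_nf
    rw [this]
    have : Real.exp y * Real.exp (-y) = 1 := by rw [← Real.exp_add]; simp
    linear_combination -this
  have hs : ∀ y : ℝ, 1 - Real.exp (-(2 * y)) = 2 * Real.exp (-y) * Real.sinh y := by
    intro y
    rw [Real.sinh_eq]
    have : Real.exp (-(2 * y)) = Real.exp (-y) * Real.exp (-y) := by
      rw [← Real.exp_add]; ring_nf
    rw [this]
    have : Real.exp y * Real.exp (-y) = 1 := by rw [← Real.exp_add]; simp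
    linear_combination -this
  rw [base01 h0 h1 N, integral_exp_subst, integral_exp_subst, mul_sub]
  congr 1
  · rw [← integral_const_mul, ← integral_const_mul]
    refine setIntegral_congr_fun measurableSet_Ioi fun y hy => ?_
    have hy' : (0 : ℝ) < y := hy
    have hsh : 0 < Real.sinh y := Real.sinh_pos_iff.2 hy'
    have hch : 0 < Real.cosh y := Real.cosh_pos y
    simp only [wB, hK, aN]
    rw [hc, hs, Real.mul_rpow (by positivity) hch.le, Real.mul_rpow (by positivity) hsh.le,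
      Real.mul_rpow (by norm_num) (Real.exp_pos _).le,
      Real.mul_rpow (by norm_num) (Real.exp_pos _).le, ← Real.exp_mul, ← Real.exp_mul,
      ← Real.exp_mul, ← Real.exp_nat_mul]
    have e2 : (2 : ℝ) ^ (2 * q - 1) * (2 * ((2 : ℝ) ^ (-(3 * q)) * 2 ^ q)) = 1 := by
      rw [show (2 : ℝ) ^ (2 * q - 1) * (2 * ((2 : ℝ) ^ (-(3 * q)) * 2 ^ q)) =
        2 * ((2 : ℝ) ^ (2 * q - 1) * (2 : ℝ) ^ (-(3 * q)) * 2 ^ q) by ring,
        ← Real.rpow_add two_pos, ← Real.rpow_add two_pos,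
        show 2 * q - 1 + -(3 * q) + q = (-1 : ℝ) by ring, Real.rpow_neg_one]
      norm_num
    have e3 : Real.exp (-(2 * y)) * (Real.exp (-(2 * y) * (3 * q - 1)) *
        (Real.exp (-y * -(3 * q)) * (Real.exp ((N : ℝ) * -(2 * y)) * Real.exp (y * q)))) =
        Real.exp (-((2 * (N : ℝ) + 2 * q) * y)) := by
      rw [← Real.exp_add, ← Real.exp_add, ← Real.exp_add, ← Real.exp_add]
      congr 1; ring
    rw [← e3, show 3 * Real.pi * q = Real.pi * (3 * q) by ring]
    linear_combination (Real.sin (Real.pi * (3 * q)) / Real.pi * (Real.exp (-(2 * y)) *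
      (Real.exp (-(2 * y) * (3 * q - 1)) * (Real.exp (-y * -(3 * q)) *
      (Real.exp ((N : ℝ) * -(2 * y)) * Real.exp (y * q))))) * (Real.cosh y ^ q *
      Real.sinh y ^ (-(3 * q)))) * e2
  · rw [mul_comm ((-1 : ℝ) ^ N) (Real.sin (Real.pi * q) / Real.pi), mul_comm ((-1 : ℝ) ^ N),
      mul_assoc, mul_comm ((-1 : ℝ) ^ N), ← mul_assoc, ← mul_assoc]
    congr 1
    rw [← integral_const_mul, ← integral_const_mul]
    refine setIntegral_congr_fun measurableSet_Ioi fun y hy => ?_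
    have hy' : (0 : ℝ) < y := hy
    have hsh : 0 < Real.sinh y := Real.sinh_pos_iff.2 hy'
    have hch : 0 < Real.cosh y := Real.cosh_pos y
    have hl : 0 < 1 - Real.exp (-(2 * y)) := by rw [hs]; positivity
    simp only [wB, gK, aN]
    have e1 : (1 - Real.exp (-(2 * y))) ^ (-(1 - q)) * (1 - Real.exp (-(2 * y))) =
        (2 * Real.exp (-y) * Real.sinh y) ^ q := by
      rw [← hs]
      nth_rewrite 2 [← Real.rpow_one (1 - Real.exp (-(2 * y)))]
      rw [← Real.rpow_add hl]; congr 1; ring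
    have e4 : Real.exp (-(2 * y)) * (Real.exp (-(2 * y)))⁻¹ = 1 :=
      mul_inv_cancel₀ (Real.exp_pos _).ne'
    rw [hc, Real.mul_rpow (by positivity) hch.le,
      Real.mul_rpow (by norm_num) (Real.exp_pos _).le, ← Real.exp_mul, ← Real.exp_mul,
      ← Real.exp_nat_mul]
    rw [Real.mul_rpow (by positivity) hsh.le, Real.mul_rpow (by norm_num) (Real.exp_pos _).le,
      ← Real.exp_mul] at e1
    have e2 : (2 : ℝ) ^ (2 * q - 1) * (2 * ((2 : ℝ) ^ (-(3 * q)) * 2 ^ q)) = 1 := by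
      rw [show (2 : ℝ) ^ (2 * q - 1) * (2 * ((2 : ℝ) ^ (-(3 * q)) * 2 ^ q)) =
        2 * ((2 : ℝ) ^ (2 * q - 1) * (2 : ℝ) ^ (-(3 * q)) * 2 ^ q) by ring,
        ← Real.rpow_add two_pos, ← Real.rpow_add two_pos,
        show 2 * q - 1 + -(3 * q) + q = (-1 : ℝ) by ring, Real.rpow_neg_one]
      norm_num
    have e3 : Real.exp (-(2 * y) * (1 - q - 1)) *
        (Real.exp (-y * q) * (Real.exp ((N : ℝ) * -(2 * y)) * Real.exp (y * -(3 * q)))) =
        Real.exp (-((2 * (N : ℝ) + 2 * q) * y)) := by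
      rw [← Real.exp_add, ← Real.exp_add, ← Real.exp_add]
      congr 1; ring
    have e5 : Real.sin (Real.pi * (1 - q)) = Real.sin (Real.pi * q) := by
      rw [mul_sub, mul_one, Real.sin_pi_sub]
    rw [← e3, e5]
    have key : ∀ A B C D E F G I J K : ℝ, A * (2 * B * (C * (D * E) * ((F) * G) *
        (B⁻¹ * (I * J * K)))) = A * 2 * (B * B⁻¹) * (C * D * (E * F) * G * (I * J * K)) := by
      intros; ring
    rw [key, e4, e1]
    linear_combination (Real.sin (Real.pi * q) / Real.pi * (Real.exp (-(2 * y) * (1 - q - 1)) *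
        (Real.exp (-y * q) * (Real.exp ((N : ℝ) * -(2 * y)) * Real.exp (y * -(3 * q))))) *
        (Real.sinh y ^ q * Real.cosh y ^ (-(3 * q)))) * e2

end Pool.Agent.KIQ.KER_
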