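import Mathlib

/-!
# KQRc: local estimates and holomorphic parameter integrals
-/

set_option autoImplicit false

open MeasureTheory Set

namespace Pool.Agent.KIQ.KER_

lemma sinh_taylor {y : ℝ} (h0 : 0 ≤ y) (h1 : y ≤ 1) :
    |Real.sinh y - (y + y ^ 3 / 6 + y ^ 5 / 120)| ≤ y ^ 7 / 4410 := by
  have a1 := Real.exp_bound (x := y) (by rw [abs_of_nonneg h0]; exact h1) (n := 7) (by norm_num)
  have a2 := Real.exp_bound (x := -y) (by rw [abs_neg, abs_of_nonneg h0]; exact h1) (n := 7)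
    (by norm_num)
  rw [abs_neg] at a2
  rw [abs_of_nonneg h0] at a1 a2
  norm_num [Finset.sum_range_succ, Nat.factorial] at a1 a2
  rw [Real.sinh_eq]
  rw [abs_le] at a1 a2 ⊢
  constructor
  · linarith [a1.1, a1.2, a2.1, a2.2]
  · linarith [a1.1, a1.2, a2.1, a2.2]

lemma cosh_taylor {y : ℝ} (h0 : 0 ≤ y) (h1 : y ≤ 1) :
    |Real.cosh y - (1 + y ^ 2 / 2 + y ^ 4 / 24)| ≤ y ^ 6 * (7 / 4320) := by
  have a1 := Real.exp_bound (x := y) (by rw [abs_of_nonneg h0]; exact h1) (n := 6) (by norm_num)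
  have a2 := Real.exp_bound (x := -y) (by rw [abs_neg, abs_of_nonneg h0]; exact h1) (n := 6)
    (by norm_num)
  rw [abs_neg] at a2
  rw [abs_of_nonneg h0] at a1 a2
  norm_num [Finset.sum_range_succ, Nat.factorial] at a1 a2
  rw [Real.cosh_eq]
  rw [abs_le] at a1 a2 ⊢
  constructor
  · linarith [a1.1, a1.2, a2.1, a2.2]
  · linarith [a1.1, a1.2, a2.1, a2.2]

lemma le_sinh {y : ℝ} (h0 : 0 ≤ y) : y ≤ Real.sinh y := Real.self_le_sinh_iff.2 h0

/-- Numerator estimate. -/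
lemma num_bound {y : ℝ} (h0 : 0 < y) (h1 : y ≤ 1) :
    |y ^ 3 * Real.cosh y - (1 - y ^ 4 / 15) * Real.sinh y ^ 3| ≤ y ^ 9 * (1 / 30) := by
  have hr := sinh_taylor h0.le h1
  have hr' := cosh_taylor h0.le h1
  set r := Real.sinh y - (y + y ^ 3 / 6 + y ^ 5 / 120) with hrdef
  set r' := Real.cosh y - (1 + y ^ 2 / 2 + y ^ 4 / 24) with hr'def
  have es : Real.sinh y = (y + y ^ 3 / 6 + y ^ 5 / 120) + r := by rw [hrdef]; ring
  have ec : Real.cosh y = (1 + y ^ 2 / 2 + y ^ 4 / 24) + r' := by rw [hr'def]; ring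
  rw [es, ec]
  set p := y + y ^ 3 / 6 + y ^ 5 / 120 with hp
  have e : y ^ 3 * (1 + y ^ 2 / 2 + y ^ 4 / 24 + r') - (1 - y ^ 4 / 15) * (p + r) ^ 3 =
      y ^ 9 * (11 / 540 + 91 / 14400 * y ^ 2 + 43 / 51840 * y ^ 4 + 103 / 1728000 * y ^ 6 +
        y ^ 8 / 432000 + y ^ 10 / 25920000) + y ^ 3 * r' -
        (1 - y ^ 4 / 15) * (r * (3 * p ^ 2 + 3 * p * r + r ^ 2)) := by
    rw [hp]; ring
  rw [e]
  have hp0 : 0 ≤ p := by rw [hp]; positivity
  have hy2 : y ^ 2 ≤ 1 := pow_le_one₀ h0.le h1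
  have hy4 : y ^ 4 ≤ 1 := pow_le_one₀ h0.le h1
  have hy6 : y ^ 6 ≤ 1 := pow_le_one₀ h0.le h1
  have hy8 : y ^ 8 ≤ 1 := pow_le_one₀ h0.le h1
  have hy10 : y ^ 10 ≤ 1 := pow_le_one₀ h0.le h1
  have hp1 : p ≤ y * (6 / 5) := by
    have : p = y * (1 + y ^ 2 / 6 + y ^ 4 / 120) := by rw [hp]; ring
    rw [this]
    refine mul_le_mul_of_nonneg_left ?_ h0.le
    linarith
  have hr1 : |r| ≤ y * (1 / 4410) := by
    refine hr.trans ?_
    have : y ^ 7 / 4410 = y * (y ^ 6 / 4410) := by ring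
    rw [this]
    refine mul_le_mul_of_nonneg_left ?_ h0.le
    linarith
  have b1 : |y ^ 9 * (11 / 540 + 91 / 14400 * y ^ 2 + 43 / 51840 * y ^ 4 +
      103 / 1728000 * y ^ 6 + y ^ 8 / 432000 + y ^ 10 / 25920000)| ≤ y ^ 9 * (28 / 1000) := by
    rw [abs_of_nonneg (by positivity)]
    refine mul_le_mul_of_nonneg_left ?_ (by positivity)
    linarith
  have b2 : |y ^ 3 * r'| ≤ y ^ 9 * (2 / 1000) := by
    rw [abs_mul, abs_of_nonneg (by positivity : (0 : ℝ) ≤ y ^ 3)]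
    calc y ^ 3 * |r'| ≤ y ^ 3 * (y ^ 6 * (7 / 4320)) := by gcongr
      _ = y ^ 9 * (7 / 4320) := by ring
      _ ≤ y ^ 9 * (2 / 1000) := by
        refine mul_le_mul_of_nonneg_left ?_ (by positivity)
        norm_num
  have b3 : |(1 - y ^ 4 / 15) * (r * (3 * p ^ 2 + 3 * p * r + r ^ 2))| ≤ y ^ 9 * (1 / 1000) := by
    rw [abs_mul, abs_mul]
    have c1 : |1 - y ^ 4 / 15| ≤ 1 := by
      rw [abs_le]; constructor <;> linarith [pow_nonneg h0.le 4]
    have c2 : |3 * p ^ 2 + 3 * p * r + r ^ 2| ≤ y ^ 2 * (433 / 100) := by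
      have d1 : |3 * p * r| ≤ 3 * (y * (6 / 5)) * (y * (1 / 4410)) := by
        rw [abs_mul, abs_of_nonneg (by positivity : (0 : ℝ) ≤ 3 * p)]
        gcongr
      have d2 : r ^ 2 ≤ (y * (1 / 4410)) ^ 2 := by
        rw [← sq_abs r]; gcongr
      have d3 : p ^ 2 ≤ (y * (6 / 5)) ^ 2 := by gcongr
      have d4 : |3 * p ^ 2| = 3 * p ^ 2 := abs_of_nonneg (by positivity)
      have d5 : |r ^ 2| = r ^ 2 := abs_of_nonneg (by positivity)
      calc |3 * p ^ 2 + 3 * p * r + r ^ 2| ≤ |3 * p ^ 2 + 3 * p * r| + |r ^ 2| := abs_add_le _ _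
        _ ≤ |3 * p ^ 2| + |3 * p * r| + |r ^ 2| := by gcongr; exact abs_add_le _ _
        _ ≤ 3 * (y * (6 / 5)) ^ 2 + 3 * (y * (6 / 5)) * (y * (1 / 4410)) +
            (y * (1 / 4410)) ^ 2 := by rw [d4, d5]; gcongr
        _ = y ^ 2 * (3 * (6 / 5) ^ 2 + 3 * (6 / 5) * (1 / 4410) + (1 / 4410) ^ 2) := by ring
        _ ≤ y ^ 2 * (433 / 100) := by
          refine mul_le_mul_of_nonneg_left ?_ (by positivity)
          norm_num
    calc |1 - y ^ 4 / 15| * (|r| * |3 * p ^ 2 + 3 * p * r + r ^ 2|)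
        ≤ 1 * (y ^ 7 / 4410 * (y ^ 2 * (433 / 100))) := by gcongr
      _ = y ^ 9 * (433 / 441000) := by ring
      _ ≤ y ^ 9 * (1 / 1000) := by
        refine mul_le_mul_of_nonneg_left ?_ (by positivity)
        norm_num
  calc |y ^ 9 * (11 / 540 + 91 / 14400 * y ^ 2 + 43 / 51840 * y ^ 4 +
      103 / 1728000 * y ^ 6 + y ^ 8 / 432000 + y ^ 10 / 25920000) + y ^ 3 * r' -
      (1 - y ^ 4 / 15) * (r * (3 * p ^ 2 + 3 * p * r + r ^ 2))|
      ≤ |y ^ 9 * (11 / 540 + 91 / 14400 * y ^ 2 + 43 / 51840 * y ^ 4 +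
      103 / 1728000 * y ^ 6 + y ^ 8 / 432000 + y ^ 10 / 25920000) + y ^ 3 * r'| +
      |(1 - y ^ 4 / 15) * (r * (3 * p ^ 2 + 3 * p * r + r ^ 2))| := abs_sub _ _
    _ ≤ |y ^ 9 * (11 / 540 + 91 / 14400 * y ^ 2 + 43 / 51840 * y ^ 4 +
      103 / 1728000 * y ^ 6 + y ^ 8 / 432000 + y ^ 10 / 25920000)| + |y ^ 3 * r'| +
      |(1 - y ^ 4 / 15) * (r * (3 * p ^ 2 + 3 * p * r + r ^ 2))| := by
        gcongr; exact abs_add_le _ _
    _ ≤ y ^ 9 * (28 / 1000) + y ^ 9 * (2 / 1000) + y ^ 9 * (1 / 1000) := by gcongr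
    _ = y ^ 9 * (31 / 1000) := by ring
    _ ≤ y ^ 9 * (1 / 30) := by
      refine mul_le_mul_of_nonneg_left ?_ (by positivity)
      norm_num

/-- `log (cosh y / sinh y ^ 3)`. -/
noncomputable def Lh (y : ℝ) : ℝ := Real.log (Real.cosh y) - 3 * Real.log (Real.sinh y)

/-- `log (cosh y * (y / sinh y) ^ 3)`. -/
noncomputable def ell (y : ℝ) : ℝ := Lh y + 3 * Real.log y

lemma ell_bound {y : ℝ} (h0 : 0 < y) (h1 : y ≤ 1) : |ell y + y ^ 4 / 15| ≤ y ^ 6 := by
  have hs : 0 < Real.sinh y := Real.sinh_pos_iff.2 h0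
  have hc : 0 < Real.cosh y := Real.cosh_pos y
  have hb := num_bound h0 h1
  have hys : y ≤ Real.sinh y := le_sinh h0.le
  set b := y ^ 3 * Real.cosh y / Real.sinh y ^ 3 with hbdef
  have hell : ell y = Real.log b := by
    rw [ell, Lh, hbdef, Real.log_div (by positivity) (by positivity),
      Real.log_mul (by positivity) (by positivity), Real.log_pow, Real.log_pow]
    push_cast; ring
  have hb1 : |b - 1 + y ^ 4 / 15| ≤ y ^ 6 * (1 / 30) := by
    have e : b - 1 + y ^ 4 / 15 =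
        (y ^ 3 * Real.cosh y - (1 - y ^ 4 / 15) * Real.sinh y ^ 3) / Real.sinh y ^ 3 := by
      rw [hbdef]; field_simp; ring
    rw [e, abs_div, abs_of_pos (by positivity : (0 : ℝ) < Real.sinh y ^ 3),
      div_le_iff₀ (by positivity)]
    refine hb.trans ?_
    have : y ^ 3 ≤ Real.sinh y ^ 3 := by gcongr
    calc y ^ 9 * (1 / 30) = y ^ 6 * (1 / 30) * y ^ 3 := by ring
      _ ≤ y ^ 6 * (1 / 30) * Real.sinh y ^ 3 := by gcongr
  have hy2 : y ^ 2 ≤ 1 := pow_le_one₀ h0.le h1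
  have hy4 : y ^ 4 ≤ 1 := pow_le_one₀ h0.le h1
  have hy64 : y ^ 6 ≤ y ^ 4 := by
    have : y ^ 6 = y ^ 4 * y ^ 2 := by ring
    rw [this]; exact mul_le_of_le_one_right (by positivity) hy2
  have hy86 : y ^ 8 ≤ y ^ 6 := by
    have : y ^ 8 = y ^ 6 * y ^ 2 := by ring
    rw [this]; exact mul_le_of_le_one_right (by positivity) hy2
  set d := 1 - b with hd
  have hd1 : |d| ≤ y ^ 4 * (1 / 10) := by
    rw [abs_le] at hb1 ⊢
    constructor
    · have := hb1.2; rw [hd]; linarith [pow_nonneg h0.le 4]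
    · have := hb1.1; rw [hd]; linarith [pow_nonneg h0.le 4]
  have hd2 : |d| ≤ 1 / 10 := hd1.trans (by linarith)
  have hlog := Real.abs_log_sub_add_sum_range_le (x := d) (by linarith) 1
  simp only [Finset.range_one, Finset.sum_singleton, Nat.cast_zero, zero_add, pow_one,
    div_one] at hlog
  have hbd : Real.log (1 - d) = ell y := by rw [hell, hd]; congr 1; ring
  rw [hbd] at hlog
  have h3 : |d| ^ (1 + 1) / (1 - |d|) ≤ y ^ 8 * (1 / 90) := by
    rw [div_le_iff₀ (by linarith)]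
    have h4 : |d| ^ 2 ≤ (y ^ 4 * (1 / 10)) ^ 2 := by gcongr
    have h5 : y ^ 8 * (1 / 90) * (9 / 10) ≤ y ^ 8 * (1 / 90) * (1 - |d|) := by
      have : 9 / 10 ≤ 1 - |d| := by linarith
      gcongr
    calc |d| ^ (1 + 1) = |d| ^ 2 := rfl
      _ ≤ (y ^ 4 * (1 / 10)) ^ 2 := h4
      _ = y ^ 8 * (1 / 90) * (9 / 10) := by ring
      _ ≤ _ := h5
  have e2 : ell y + y ^ 4 / 15 = (d + ell y) + (b - 1 + y ^ 4 / 15) := by rw [hd]; ring
  rw [e2]
  calc |d + ell y + (b - 1 + y ^ 4 / 15)| ≤ |d + ell y| + |b - 1 + y ^ 4 / 15| := abs_add_le _ _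
    _ ≤ y ^ 8 * (1 / 90) + y ^ 6 * (1 / 30) := by
      gcongr
      have h6 : |(d ^ (0 + 1) / 1) + ell y| ≤ |d| ^ (1 + 1) / (1 - |d|) := by simpa using hlog
      exact (by simpa using h6.trans h3)
    _ ≤ y ^ 6 := by linarith [pow_nonneg h0.le 6]

lemma ell_abs {y : ℝ} (h0 : 0 < y) (h1 : y ≤ 1) : |ell y| ≤ 2 * y ^ 4 := by
  have h := ell_bound h0 h1
  have hy2 : y ^ 2 ≤ 1 := pow_le_one₀ h0.le h1
  have hy64 : y ^ 6 ≤ y ^ 4 := by
    have : y ^ 6 = y ^ 4 * y ^ 2 := by ring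
    rw [this]; exact mul_le_of_le_one_right (by positivity) hy2
  rw [abs_le] at h ⊢
  constructor <;> linarith [pow_nonneg h0.le 4, h.1, h.2]

/-- Far away the kernel is at most one. -/
lemma Lh_nonpos {y : ℝ} (h1 : 1 ≤ y) : Lh y ≤ 0 := by
  have hs1 : 7 / 6 ≤ Real.sinh y := by
    have h := sinh_taylor zero_le_one le_rfl
    rw [abs_le] at h
    have h2 : Real.sinh 1 ≤ Real.sinh y := Real.sinh_le_sinh.2 h1
    linarith [h.1]
  have hs : 0 < Real.sinh y := by linarith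
  have hc : 0 < Real.cosh y := Real.cosh_pos y
  have key : Real.cosh y ≤ Real.sinh y ^ 3 := by
    have h2 := Real.cosh_sq y
    have h3 : (7 / 6 : ℝ) ^ 2 ≤ Real.sinh y ^ 2 := by gcongr
    have h4 : Real.cosh y ^ 2 ≤ (Real.sinh y ^ 3) ^ 2 := by
      rw [h2]
      nlinarith [mul_nonneg (sub_nonneg.2 h3) (sq_nonneg (Real.sinh y ^ 2)),
        mul_nonneg (sub_nonneg.2 h3) (sq_nonneg (Real.sinh y))]
    exact le_of_sq_le_sq h4 (by positivity)
  have : Real.log (Real.cosh y) ≤ 3 * Real.log (Real.sinh y) := by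
    have h5 := Real.log_le_log hc key
    rwa [Real.log_pow] at h5
  unfold Lh; linarith

/-- A holomorphic parameter integral. -/
lemma holo_param {μ : Measure ℝ} {F : ℂ → ℝ → ℂ} {U : Set ℂ}
    (hF : ∀ y, DifferentiableOn ℂ (fun z => F z y) U)
    (hm : ∀ z ∈ U, AEStronglyMeasurable (F z) μ)
    (hb : ∀ z₀ ∈ U, ∃ r > 0, Metric.ball z₀ r ⊆ U ∧ ∃ g : ℝ → ℝ, Integrable g μ ∧
      ∀ᵐ y ∂μ, ∀ z ∈ Metric.ball z₀ r, ‖F z y‖ ≤ g y) :
    DifferentiableOn ℂ (fun z => ∫ y, F z y ∂μ) U := by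
  intro z₀ hz₀
  obtain ⟨r, hr, hrU, g, hg, hbound⟩ := hb z₀ hz₀
  have hr2 : 0 < r / 2 := by positivity
  have hdiff : ∀ y, ∀ z ∈ Metric.ball z₀ r, HasDerivAt (fun w => F w y) (deriv (fun w => F w y) z)
      z := by
    intro y z hz
    exact ((hF y).differentiableAt (Filter.mem_of_superset (Metric.isOpen_ball.mem_nhds hz)
      hrU)).hasDerivAt
  have hsub : Metric.ball z₀ (r / 2) ⊆ Metric.ball z₀ r := Metric.ball_subset_ball (by linarith)
  have hz0 : z₀ ∈ Metric.ball z₀ r := Metric.mem_ball_self hr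
  have hmeas : AEStronglyMeasurable (fun y => deriv (fun w => F w y) z₀) μ := by
    have ht : Filter.Tendsto (fun n : ℕ => z₀ + ((r / 2 / ((n : ℝ) + 1) : ℝ) : ℂ))
        Filter.atTop (nhdsWithin z₀ {z₀}ᶜ) := by
      refine tendsto_nhdsWithin_iff.2 ⟨?_, Filter.Eventually.of_forall fun n => ?_⟩
      · have h1 : Filter.Tendsto (fun n : ℕ => r / 2 / ((n : ℝ) + 1)) Filter.atTop (nhds 0) :=
          tendsto_const_div_atTop_nhds_zero_nat (r / 2) |>.comp (Filter.tendsto_add_atTop_nat 1)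
            |>.congr fun n => by simp
        have h2 := (Complex.continuous_ofReal.tendsto 0).comp h1
        have h3 := h2.const_add z₀
        simpa using h3
      · simp only [mem_compl_iff, mem_singleton_iff]
        have : (0 : ℝ) < r / 2 / ((n : ℝ) + 1) := by positivity
        intro h
        have h2 : ((r / 2 / ((n : ℝ) + 1) : ℝ) : ℂ) = 0 := by simpa using h
        rw [Complex.ofReal_eq_zero] at h2
        linarith
    refine aestronglyMeasurable_of_tendsto_ae Filter.atTop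
      (f := fun n : ℕ => fun y => slope (fun w => F w y) z₀
        (z₀ + ((r / 2 / ((n : ℝ) + 1) : ℝ) : ℂ))) (fun n => ?_)
      (Filter.Eventually.of_forall fun y => ?_)
    · have hmem : z₀ + ((r / 2 / ((n : ℝ) + 1) : ℝ) : ℂ) ∈ Metric.ball z₀ r := by
        rw [Metric.mem_ball, dist_eq_norm, add_sub_cancel_left, Complex.norm_real,
          Real.norm_eq_abs, abs_of_pos (by positivity)]
        have hn : (0 : ℝ) ≤ (n : ℝ) := Nat.cast_nonneg n
        have : r / 2 / ((n : ℝ) + 1) ≤ r / 2 := div_le_self hr2.le (by linarith)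
        linarith
      simp only [slope_def_module]
      exact ((hm _ (hrU hmem)).sub (hm _ hz₀)).const_smul
        ((z₀ + ((r / 2 / ((n : ℝ) + 1) : ℝ) : ℂ)) - z₀)⁻¹
    · have h := hasDerivAt_iff_tendsto_slope.1 (hdiff y z₀ hz0)
      exact h.comp ht
  have h := hasDerivAt_integral_of_dominated_loc_of_deriv_le (μ := μ) (F := F) (x₀ := z₀)
    (s := Metric.ball z₀ (r / 2)) (bound := fun y => g y / (r / 2))
    (F' := fun z y => deriv (fun w => F w y) z) (Metric.ball_mem_nhds z₀ hr2)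
    (Filter.mem_of_superset (Metric.ball_mem_nhds z₀ hr) fun z hz => hm z (hrU hz))
    (hg.mono' (hm z₀ hz₀) (hbound.mono fun y hy => hy z₀ hz0)) hmeas
    (hbound.mono fun y hy z hz => by
      have hsub2 : Metric.closedBall z (r / 2) ⊆ Metric.ball z₀ r := by
        intro w hw
        rw [Metric.mem_closedBall] at hw
        rw [Metric.mem_ball] at hz ⊢
        calc dist w z₀ ≤ dist w z + dist z z₀ := dist_triangle _ _ _
          _ < r / 2 + r / 2 := by linarith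
          _ = r := by ring
      refine Complex.norm_deriv_le_of_forall_mem_sphere_norm_le hr2 ?_ ?_
      · refine DifferentiableOn.diffContOnCl ?_
        rw [closure_ball z hr2.ne']
        exact ((hF y).mono hrU).mono hsub2
      · intro w hw
        exact hy w (hsub2 (Metric.sphere_subset_closedBall hw)))
    (hg.div_const _)
    (Filter.Eventually.of_forall fun y z hz => hdiff y z (hsub hz))
  exact h.2.differentiableAt.differentiableWithinAt

end Pool.Agent.KIQ.KER_
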