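import Mathlib
import Pool.Agent.KIQ.Defs
import Pool.Agent.KIQ.KQRb
import Pool.Agent.KIQ.KQRc

/-!
# KQRd: domination, integrability and the identity for small `q`
-/

set_option autoImplicit false

open MeasureTheory Set

namespace Pool.Agent.KIQ.KER_

/-- The subtracted kernel, complex exponent. -/
noncomputable def K5 (z : ℂ) (y : ℝ) : ℂ :=
  Complex.exp (-(3 * z * (Real.log y : ℂ))) -
    z / 15 * (y : ℂ) ^ 4 * Complex.exp (-(3 * z * (Real.log y : ℂ))) -
    Complex.exp (z * (Lh y : ℂ))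

/-- The dominating function. -/
noncomputable def gB (a s K R : ℝ) (y : ℝ) : ℝ :=
  if y ≤ 1 then K * y ^ s else Real.exp (-(a * y)) * (2 + R * y ^ 4)

lemma int_pow_exp {a s : ℝ} (ha : 0 < a) (hs : -1 < s) :
    IntegrableOn (fun y : ℝ => Real.exp (-(a * y)) * y ^ s) (Ioi 0) := by
  have h := integrableOn_rpow_mul_exp_neg_mul_rpow (p := 1) (s := s) (b := a) hs one_pos ha
  refine (integrableOn_congr_fun (fun y hy => ?_) measurableSet_Ioi).1 h
  simp only [Real.rpow_one]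
  rw [mul_comm, neg_mul]

lemma gB_int {a s : ℝ} (ha : 0 < a) (hs : -1 < s) (K R : ℝ) :
    IntegrableOn (gB a s K R) (Ioi 0) := by
  rw [← Ioc_union_Ioi_eq_Ioi zero_le_one, integrableOn_union]
  constructor
  · have h := (intervalIntegral.intervalIntegrable_rpow' (a := 0) (b := 1) hs).const_mul K
    rw [intervalIntegrable_iff_integrableOn_Ioc_of_le zero_le_one] at h
    refine (integrableOn_congr_fun (fun y hy => ?_) measurableSet_Ioc).1 h
    simp only [gB]
    rw [if_pos hy.2]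
  · have h1 := (int_pow_exp ha (by norm_num : (-1 : ℝ) < 0)).const_mul 2
    have h2 := (int_pow_exp ha (by norm_num : (-1 : ℝ) < 4)).const_mul R
    have h12 : IntegrableOn ((fun y : ℝ => 2 * (Real.exp (-(a * y)) * y ^ (0 : ℝ))) +
        fun y : ℝ => R * (Real.exp (-(a * y)) * y ^ (4 : ℝ))) (Ioi 0) := h1.add h2
    have h3 := h12.mono_set (Ioi_subset_Ioi (zero_le_one (α := ℝ)))
    refine (integrableOn_congr_fun (fun y hy => ?_) measurableSet_Ioi).1 h3
    have hy' : ¬ (y ≤ 1) := not_le.2 hy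
    have hy0 : (0 : ℝ) < y := lt_trans one_pos hy
    simp only [gB, Pi.add_apply]
    rw [if_neg hy', Real.rpow_zero, show (4 : ℝ) = ((4 : ℕ) : ℝ) by norm_num,
      Real.rpow_natCast]
    ring

/-- Domination near zero. -/
lemma K5_near {z : ℂ} {x1 R y : ℝ} (_hx0 : 0 ≤ z.re) (hx1 : z.re ≤ x1) (hR : ‖z‖ ≤ R)
    (h0 : 0 < y) (h1 : y ≤ 1) :
    ‖K5 z y‖ ≤ (R + 4 * R ^ 2 * Real.exp (2 * R)) * y ^ (6 - 3 * x1) := by
  have hR0 : 0 ≤ R := (norm_nonneg z).trans hR
  have e : K5 z y = Complex.exp (-(3 * z * (Real.log y : ℂ))) *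
      (-(z * ((ell y + y ^ 4 / 15 : ℝ) : ℂ)) -
        (Complex.exp (z * (ell y : ℂ)) - (1 + z * (ell y : ℂ)))) := by
    have h2 : Complex.exp (z * (Lh y : ℂ)) = Complex.exp (-(3 * z * (Real.log y : ℂ))) *
        Complex.exp (z * (ell y : ℂ)) := by
      rw [← Complex.exp_add]; congr 1
      rw [ell]; push_cast; ring
    rw [K5, h2]; push_cast; ring
  have hl := ell_bound h0 h1
  have hl2 := ell_abs h0 h1
  have n1 : ‖Complex.exp (-(3 * z * (Real.log y : ℂ)))‖ ≤ y ^ (-(3 * x1)) := by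
    rw [Complex.norm_exp]
    have : (-(3 * z * (Real.log y : ℂ))).re = Real.log y * (-(3 * z.re)) := by
      simp [Complex.mul_re]; ring
    rw [this, ← Real.rpow_def_of_pos h0]
    exact Real.rpow_le_rpow_of_exponent_ge h0 h1 (by linarith)
  have n2 : ‖z * ((ell y + y ^ 4 / 15 : ℝ) : ℂ)‖ ≤ R * y ^ 6 := by
    rw [norm_mul, Complex.norm_real, Real.norm_eq_abs]
    gcongr
  have hz4 : ‖z * (ell y : ℂ)‖ ≤ R * (2 * y ^ 4) := by
    rw [norm_mul, Complex.norm_real, Real.norm_eq_abs]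
    gcongr
  have hy4 : y ^ 4 ≤ 1 := pow_le_one₀ h0.le h1
  have hy2 : y ^ 2 ≤ 1 := pow_le_one₀ h0.le h1
  have n3 : ‖Complex.exp (z * (ell y : ℂ)) - (1 + z * (ell y : ℂ))‖ ≤
      4 * R ^ 2 * Real.exp (2 * R) * y ^ 6 := by
    have h := Complex.norm_exp_sub_sum_le_norm_mul_exp (z * (ell y : ℂ)) 2
    simp only [Finset.sum_range_succ, Finset.range_zero, Finset.sum_empty, pow_zero,
      Nat.factorial, pow_one, Nat.cast_one, div_one, zero_add, mul_one] at h
    refine h.trans ?_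
    have h5 : ‖z * (ell y : ℂ)‖ ≤ 2 * R := hz4.trans (by nlinarith)
    calc ‖z * (ell y : ℂ)‖ ^ 2 * Real.exp ‖z * (ell y : ℂ)‖
        ≤ (R * (2 * y ^ 4)) ^ 2 * Real.exp (2 * R) := by gcongr
      _ = 4 * R ^ 2 * Real.exp (2 * R) * y ^ 6 * y ^ 2 := by ring
      _ ≤ 4 * R ^ 2 * Real.exp (2 * R) * y ^ 6 :=
        mul_le_of_le_one_right (by positivity) hy2
  rw [e, norm_mul]
  calc ‖Complex.exp (-(3 * z * (Real.log y : ℂ)))‖ *
      ‖-(z * ((ell y + y ^ 4 / 15 : ℝ) : ℂ)) -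
        (Complex.exp (z * (ell y : ℂ)) - (1 + z * (ell y : ℂ)))‖
      ≤ y ^ (-(3 * x1)) * (R * y ^ 6 + 4 * R ^ 2 * Real.exp (2 * R) * y ^ 6) := by
        gcongr
        refine (norm_sub_le _ _).trans ?_
        rw [norm_neg]
        gcongr
    _ = (R + 4 * R ^ 2 * Real.exp (2 * R)) * (y ^ (-(3 * x1)) * y ^ 6) := by ring
    _ = (R + 4 * R ^ 2 * Real.exp (2 * R)) * y ^ (6 - 3 * x1) := by
        rw [← Real.rpow_natCast y 6, ← Real.rpow_add h0]
        congr 2
        push_cast; ring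

/-- Domination far away. -/
lemma K5_far {z : ℂ} {R y : ℝ} (hx0 : 0 ≤ z.re) (hR : ‖z‖ ≤ R) (h1 : 1 < y) :
    ‖K5 z y‖ ≤ 2 + R * y ^ 4 := by
  have h0 : 0 < y := by linarith
  have hR0 : 0 ≤ R := (norm_nonneg z).trans hR
  have hlog : 0 ≤ Real.log y := Real.log_nonneg h1.le
  have n1 : ‖Complex.exp (-(3 * z * (Real.log y : ℂ)))‖ ≤ 1 := by
    rw [Complex.norm_exp]
    have : (-(3 * z * (Real.log y : ℂ))).re = -(3 * (z.re * Real.log y)) := by
      simp [Complex.mul_re]; ring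
    rw [this, Real.exp_le_one_iff]
    have := mul_nonneg hx0 hlog
    linarith
  have n2 : ‖Complex.exp (z * (Lh y : ℂ))‖ ≤ 1 := by
    rw [Complex.norm_exp]
    have : (z * (Lh y : ℂ)).re = z.re * Lh y := by simp [Complex.mul_re]
    rw [this, Real.exp_le_one_iff]
    exact mul_nonpos_of_nonneg_of_nonpos hx0 (Lh_nonpos h1.le)
  have n3 : ‖z / 15 * (y : ℂ) ^ 4 * Complex.exp (-(3 * z * (Real.log y : ℂ)))‖ ≤ R * y ^ 4 := by
    rw [norm_mul, norm_mul, norm_div, norm_pow, Complex.norm_real, Real.norm_eq_abs,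
      abs_of_pos h0]
    have : ‖(15 : ℂ)‖ = 15 := by simp
    rw [this]
    calc ‖z‖ / 15 * y ^ 4 * ‖Complex.exp (-(3 * z * (Real.log y : ℂ)))‖
        ≤ R / 1 * y ^ 4 * 1 := by gcongr; norm_num
      _ = R * y ^ 4 := by ring
  rw [K5]
  calc _ ≤ ‖Complex.exp (-(3 * z * (Real.log y : ℂ)))‖ +
      ‖z / 15 * (y : ℂ) ^ 4 * Complex.exp (-(3 * z * (Real.log y : ℂ)))‖ +
      ‖Complex.exp (z * (Lh y : ℂ))‖ :=
        (norm_sub_le _ _).trans (add_le_add_left (norm_sub_le _ _) _)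
    _ ≤ 1 + R * y ^ 4 + 1 := by gcongr
    _ = 2 + R * y ^ 4 := by ring

/-- Domination with an exponential factor. -/
lemma K5_dom {z w : ℂ} {a x1 R y : ℝ} (ha : 0 ≤ a) (haw : a ≤ w.re)
    (hx0 : 0 ≤ z.re) (hx1 : z.re ≤ x1) (hR : ‖z‖ ≤ R) (h0 : 0 < y) :
    ‖Complex.exp (-(w * (y : ℂ))) * K5 z y‖ ≤
      gB a (6 - 3 * x1) (R + 4 * R ^ 2 * Real.exp (2 * R)) R y := by
  have hR0 : 0 ≤ R := (norm_nonneg z).trans hR
  have ne : ‖Complex.exp (-(w * (y : ℂ)))‖ ≤ Real.exp (-(a * y)) := by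
    rw [Complex.norm_exp]
    have : (-(w * (y : ℂ))).re = -(w.re * y) := by simp [Complex.mul_re]
    rw [this, Real.exp_le_exp]
    have := mul_le_mul_of_nonneg_right haw h0.le
    linarith
  have ne1 : Real.exp (-(a * y)) ≤ 1 := by
    rw [Real.exp_le_one_iff]
    have := mul_nonneg ha h0.le
    linarith
  rw [norm_mul, gB]
  split_ifs with h
  · calc _ ≤ 1 * ((R + 4 * R ^ 2 * Real.exp (2 * R)) * y ^ (6 - 3 * x1)) := by
          gcongr
          · exact ne.trans ne1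
          · exact K5_near hx0 hx1 hR h0 h
      _ = _ := one_mul _
  · rw [not_le] at h
    gcongr
    exact K5_far hx0 hR h

/-- The real kernel. -/
lemma K5_real {q y : ℝ} (h0 : 0 < y) :
    K5 (q : ℂ) y = ((y ^ (-(3 * q)) - q / 15 * y ^ (4 - 3 * q) - hK q y : ℝ) : ℂ) := by
  have hs : 0 < Real.sinh y := Real.sinh_pos_iff.2 h0
  have hc : 0 < Real.cosh y := Real.cosh_pos y
  have e1 : y ^ (-(3 * q)) = Real.exp (-(3 * q * Real.log y)) := by
    rw [Real.rpow_def_of_pos h0]; congr 1; ring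
  have e2 : y ^ (4 - 3 * q) = y ^ 4 * Real.exp (-(3 * q * Real.log y)) := by
    rw [← e1, sub_eq_add_neg, Real.rpow_add h0]
    congr 1
    rw [show (4 : ℝ) = ((4 : ℕ) : ℝ) by norm_num, Real.rpow_natCast]
  have e3 : hK q y = Real.exp (q * Lh y) := by
    rw [hK, Real.rpow_def_of_pos hc, Real.rpow_def_of_pos hs, ← Real.exp_add, Lh]
    congr 1; ring
  rw [e1, e2, e3, K5]
  push_cast
  ring

lemma measurable_Lh : Measurable Lh := by
  unfold Lh
  have h1 : Measurable (fun y : ℝ => Real.cosh y) := Real.measurable_cosh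
  have h2 : Measurable (fun y : ℝ => Real.sinh y) := Real.measurable_sinh
  exact (Real.measurable_log.comp h1).sub ((Real.measurable_log.comp h2).const_mul 3)

lemma measurable_K5 (z : ℂ) : Measurable (K5 z) := by
  have h1 := measurable_Lh
  unfold K5
  fun_prop

lemma kernel5_int' (q : ℝ) (h0 : 0 < q) (h1 : q < 7 / 3) (a : ℝ) (ha : 0 < a) :
    IntegrableOn (fun y => Real.exp (-(a * y)) *
      (y ^ (-(3 * q)) - q / 15 * y ^ (4 - 3 * q) - hK q y)) (Ioi 0) := by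
  have hb := gB_int (a := a) (s := 6 - 3 * q) ha (by linarith)
    (q + 4 * q ^ 2 * Real.exp (2 * q)) q
  have hC : IntegrableOn (fun y : ℝ => Complex.exp (-((a : ℂ) * (y : ℂ))) * K5 (q : ℂ) y)
      (Ioi 0) := by
    refine Integrable.mono' hb ?_ ?_
    · have := measurable_K5 (q : ℂ)
      exact (by fun_prop : Measurable fun y : ℝ =>
        Complex.exp (-((a : ℂ) * (y : ℂ))) * K5 (q : ℂ) y).aestronglyMeasurable
    · refine (ae_restrict_iff' measurableSet_Ioi).2 (Filter.Eventually.of_forall fun y hy => ?_)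
      refine K5_dom ha.le (by simp) (by simpa using h0.le) (by simp) ?_ hy
      rw [Complex.norm_real, Real.norm_eq_abs, abs_of_pos h0]
  have hre := hC.re
  refine (integrableOn_congr_fun (fun y hy => ?_) measurableSet_Ioi).1 hre
  have hy0 : (0 : ℝ) < y := hy
  simp only [RCLike.re_to_complex]
  rw [K5_real hy0, ← Complex.ofReal_mul, ← Complex.ofReal_neg, ← Complex.ofReal_exp,
    ← Complex.ofReal_mul, Complex.ofReal_re]

lemma gK_int' (q : ℝ) (h0 : 0 < q) (a : ℝ) (ha : 0 ≤ a) :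
    IntegrableOn (fun y => Real.exp (-(a * y)) * gK q y) (Ioi 0) := by
  have hexp : IntegrableOn (fun y : ℝ => (2 : ℝ) ^ (2 * q) * Real.exp (-(2 * q) * y)) (Ioi 0) :=
    (integrableOn_exp_mul_Ioi (by linarith) 0).const_mul _
  refine Integrable.mono' hexp ?_ ?_
  · have h1 : Measurable (fun y : ℝ => Real.cosh y) := Real.measurable_cosh
    have h2 : Measurable (fun y : ℝ => Real.sinh y) := Real.measurable_sinh
    unfold gK
    exact (by fun_prop : Measurable fun y : ℝ => Real.exp (-(a * y)) *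
      (Real.sinh y ^ q * Real.cosh y ^ (-(3 * q)))).aestronglyMeasurable
  · refine (ae_restrict_iff' measurableSet_Ioi).2 (Filter.Eventually.of_forall fun y hy => ?_)
    have hy0 : (0 : ℝ) < y := hy
    have hs : 0 < Real.sinh y := Real.sinh_pos_iff.2 hy0
    have hc : 0 < Real.cosh y := Real.cosh_pos y
    rw [Real.norm_eq_abs, gK, abs_of_pos (by positivity)]
    have e1 : Real.exp (-(a * y)) ≤ 1 := by
      rw [Real.exp_le_one_iff]; have := mul_nonneg ha hy0.le; linarith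
    have e2 : Real.sinh y ^ q ≤ Real.cosh y ^ q :=
      Real.rpow_le_rpow hs.le (Real.sinh_lt_cosh y).le h0.le
    have e3 : Real.exp y / 2 ≤ Real.cosh y := by
      rw [Real.cosh_eq]; linarith [Real.exp_pos (-y)]
    calc Real.exp (-(a * y)) * (Real.sinh y ^ q * Real.cosh y ^ (-(3 * q)))
        ≤ 1 * (Real.cosh y ^ q * Real.cosh y ^ (-(3 * q))) := by gcongr
      _ = Real.cosh y ^ (-(2 * q)) := by
        rw [one_mul, ← Real.rpow_add hc]; congr 1; ring
      _ ≤ (Real.exp y / 2) ^ (-(2 * q)) :=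
        Real.rpow_le_rpow_of_nonpos (by positivity) e3 (by linarith)
      _ = (2 : ℝ) ^ (2 * q) * Real.exp (-(2 * q) * y) := by
        rw [Real.div_rpow (Real.exp_pos _).le (by norm_num), ← Real.exp_mul,
          Real.rpow_neg (by norm_num : (0 : ℝ) ≤ 2)]
        rw [show y * -(2 * q) = -(2 * q) * y by ring]
        field_simp

lemma aN_pos {q : ℝ} (h0 : 0 < q) (N : ℕ) : 0 < aN q N := by
  unfold aN; positivity

/-- Gamma integral. -/
lemma int_gamma {a s : ℝ} (ha : 0 < a) (hs : 0 < s) :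
    ∫ y in Ioi (0 : ℝ), Real.exp (-(a * y)) * y ^ (s - 1) = a ^ (-s) * Real.Gamma s := by
  have h := Real.integral_rpow_mul_exp_neg_mul_Ioi hs ha
  simp_rw [mul_comm (Real.exp _)]
  rw [h, one_div, Real.inv_rpow ha.le, Real.rpow_neg ha.le]

lemma sin_gamma1 {q : ℝ} : Real.sin (3 * Real.pi * q) / Real.pi * Real.Gamma (1 - 3 * q) *
    Real.Gamma (3 * q) = if Real.sin (3 * Real.pi * q) = 0 then 0 else 1 := by
  have h := Real.Gamma_mul_Gamma_one_sub (3 * q)
  rw [show Real.pi * (3 * q) = 3 * Real.pi * q by ring] at h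
  split_ifs with hs
  · rw [hs]; simp
  · have : Real.sin (3 * Real.pi * q) / Real.pi * Real.Gamma (1 - 3 * q) * Real.Gamma (3 * q) =
      Real.sin (3 * Real.pi * q) / Real.pi * (Real.Gamma (3 * q) * Real.Gamma (1 - 3 * q)) := by
      ring
    rw [this, h]
    have := Real.pi_pos.ne'
    field_simp

/-- `kernel5` for small `q`. -/
lemma kernel5_small {q : ℝ} (h0 : 0 < q) (h1 : q < 1 / 3) (N : ℕ) :
    (2 : ℝ) ^ (2 * q - 1) * cN q N = aN q N ^ (3 * q - 1) / Real.Gamma (3 * q) -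
      q / 15 * ((3 * q - 1) * (3 * q - 2) * (3 * q - 3) * (3 * q - 4)) *
        aN q N ^ (3 * q - 5) / Real.Gamma (3 * q) -
      Real.sin (3 * Real.pi * q) / Real.pi *
        (∫ y in Ioi (0 : ℝ), Real.exp (-(aN q N * y)) *
          (y ^ (-(3 * q)) - q / 15 * y ^ (4 - 3 * q) - hK q y)) -
      (-1) ^ N * (Real.sin (Real.pi * q) / Real.pi) *
        (∫ y in Ioi (0 : ℝ), Real.exp (-(aN q N * y)) * gK q y) := by
  have ha := aN_pos h0 N
  have i1 := int_pow_exp ha (s := -(3 * q)) (by linarith)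
  have i2 := int_pow_exp ha (s := 4 - 3 * q) (by linarith)
  have i3 := kernel5_int' q h0 (by linarith) (aN q N) ha
  have e : ∀ y : ℝ, Real.exp (-(aN q N * y)) * hK q y =
      (Real.exp (-(aN q N * y)) * y ^ (-(3 * q)) -
        q / 15 * (Real.exp (-(aN q N * y)) * y ^ (4 - 3 * q))) -
        Real.exp (-(aN q N * y)) * (y ^ (-(3 * q)) - q / 15 * y ^ (4 - 3 * q) - hK q y) := by
    intro y; ring
  have hI : ∫ y in Ioi (0 : ℝ), Real.exp (-(aN q N * y)) * hK q y =
      aN q N ^ (-(1 - 3 * q)) * Real.Gamma (1 - 3 * q) -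
        q / 15 * (aN q N ^ (-(5 - 3 * q)) * Real.Gamma (5 - 3 * q)) -
        ∫ y in Ioi (0 : ℝ), Real.exp (-(aN q N * y)) *
          (y ^ (-(3 * q)) - q / 15 * y ^ (4 - 3 * q) - hK q y) := by
    simp_rw [e]
    have i12 : IntegrableOn (fun y : ℝ => Real.exp (-(aN q N * y)) * y ^ (-(3 * q)) -
        q / 15 * (Real.exp (-(aN q N * y)) * y ^ (4 - 3 * q))) (Ioi 0) :=
      i1.sub (i2.const_mul _)
    rw [integral_sub i12 i3, integral_sub i1 (i2.const_mul _), integral_const_mul]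
    have g1 := int_gamma ha (s := 1 - 3 * q) (by linarith)
    have g2 := int_gamma ha (s := 5 - 3 * q) (by linarith)
    rw [show (1 - 3 * q - 1 : ℝ) = -(3 * q) by ring] at g1
    rw [show (5 - 3 * q - 1 : ℝ) = 4 - 3 * q by ring] at g2
    rw [g1, g2]
  rw [base h0 h1 N, hI]
  have hG : 0 < Real.Gamma (3 * q) := Real.Gamma_pos_of_pos (by linarith)
  have hsin : 0 < Real.sin (3 * Real.pi * q) :=
    Real.sin_pos_of_pos_of_lt_pi (by positivity) (by nlinarith [Real.pi_pos])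
  have hg1 := sin_gamma1 (q := q)
  rw [if_neg hsin.ne'] at hg1
  have hg1' : Real.sin (3 * Real.pi * q) / Real.pi * Real.Gamma (1 - 3 * q) =
      1 / Real.Gamma (3 * q) := by
    rw [eq_div_iff hG.ne']; exact hg1
  have hg5 : Real.Gamma (5 - 3 * q) =
      (4 - 3 * q) * ((3 - 3 * q) * ((2 - 3 * q) * ((1 - 3 * q) * Real.Gamma (1 - 3 * q)))) := by
    have p1 : (1 - 3 * q) ≠ 0 := by linarith
    have p2 : (2 - 3 * q) ≠ 0 := by linarith
    have p3 : (3 - 3 * q) ≠ 0 := by linarith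
    have p4 : (4 - 3 * q) ≠ 0 := by linarith
    rw [← Real.Gamma_add_one p1, show (1 - 3 * q + 1 : ℝ) = 2 - 3 * q by ring,
      ← Real.Gamma_add_one p2, show (2 - 3 * q + 1 : ℝ) = 3 - 3 * q by ring,
      ← Real.Gamma_add_one p3, show (3 - 3 * q + 1 : ℝ) = 4 - 3 * q by ring,
      ← Real.Gamma_add_one p4, show (4 - 3 * q + 1 : ℝ) = 5 - 3 * q by ring]
  rw [hg5, show (-(1 - 3 * q) : ℝ) = 3 * q - 1 by ring,
    show (-(5 - 3 * q) : ℝ) = 3 * q - 5 by ring]
  linear_combination (aN q N ^ (3 * q - 1) - q / 15 * (aN q N ^ (3 * q - 5) *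
    ((4 - 3 * q) * ((3 - 3 * q) * ((2 - 3 * q) * (1 - 3 * q)))))) * hg1'

end Pool.Agent.KIQ.KER_
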