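import Pool.Agent.KIQ.Defs
import Pool.Agent.KIQ.KQRd

/-!
# KER: the kernel identities
-/

set_option autoImplicit false

open PowerSeries MeasureTheory Set

namespace Pool.Agent.KIQ

namespace KER_

/-- The strip. -/
def U : Set ℂ := {z | 0 < z.re ∧ z.re < 7 / 3}

lemma isOpen_U : IsOpen U :=
  (isOpen_lt continuous_const Complex.continuous_re).inter
    (isOpen_lt Complex.continuous_re continuous_const)

lemma isPreconnected_U : IsPreconnected U := by
  have h : Convex ℝ U := (convex_halfSpace_re_gt 0).inter (convex_halfSpace_re_lt (7 / 3))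
  exact h.isPreconnected

/-- Complex form of the subtracted integral. -/
noncomputable def I5 (N : ℕ) (z : ℂ) : ℂ :=
  ∫ y in Ioi (0 : ℝ), Complex.exp (-((2 * (N : ℂ) + 2 * z) * (y : ℂ))) * K5 z y

/-- Complex form of the alternating integral. -/
noncomputable def IG (N : ℕ) (z : ℂ) : ℂ :=
  ∫ y in Ioi (0 : ℝ), Complex.exp (-((2 * (N : ℂ) + 2 * z) * (y : ℂ))) *
    Complex.exp (z * ((Real.log (Real.sinh y) - 3 * Real.log (Real.cosh y) : ℝ) : ℂ))

lemma re_bounds {z₀ z : ℂ} {r : ℝ} (hz : z ∈ Metric.ball z₀ r) :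
    z₀.re - r < z.re ∧ z.re < z₀.re + r ∧ ‖z‖ ≤ ‖z₀‖ + r := by
  rw [Metric.mem_ball, dist_eq_norm] at hz
  have h1 : |z.re - z₀.re| < r := by
    have := Complex.abs_re_le_norm (z - z₀)
    rw [Complex.sub_re] at this
    linarith
  rw [abs_lt] at h1
  refine ⟨by linarith [h1.1], by linarith [h1.2], ?_⟩
  have : ‖z‖ ≤ ‖z - z₀‖ + ‖z₀‖ := by
    have := norm_add_le (z - z₀) z₀
    rwa [sub_add_cancel] at this
  linarith

lemma I5_diff (N : ℕ) : DifferentiableOn ℂ (I5 N) U := by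
  refine holo_param ?_ ?_ ?_
  · intro y
    refine Differentiable.differentiableOn ?_
    unfold K5
    fun_prop
  · intro z _
    have := measurable_K5 z
    exact (by fun_prop : Measurable fun y : ℝ =>
      Complex.exp (-((2 * (N : ℂ) + 2 * z) * (y : ℂ))) * K5 z y).aestronglyMeasurable
  · intro z₀ hz₀
    obtain ⟨h1, h2⟩ := hz₀
    set r := min (z₀.re / 2) ((7 / 3 - z₀.re) / 2) with hr
    have hr0 : 0 < r := lt_min (by linarith) (by linarith)
    have hr1 : r ≤ z₀.re / 2 := min_le_left _ _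
    have hr2 : r ≤ (7 / 3 - z₀.re) / 2 := min_le_right _ _
    refine ⟨r, hr0, ?_, gB z₀.re (6 - 3 * (z₀.re + r))
      ((‖z₀‖ + r) + 4 * (‖z₀‖ + r) ^ 2 * Real.exp (2 * (‖z₀‖ + r))) (‖z₀‖ + r),
      gB_int h1 (by linarith) _ _, ?_⟩
    · intro z hz
      have hb := re_bounds hz
      exact ⟨by linarith [hb.1], by linarith [hb.2.1]⟩
    · refine (ae_restrict_iff' measurableSet_Ioi).2 (Filter.Eventually.of_forall
        fun y hy z hz => ?_)
      have hb := re_bounds hz
      refine K5_dom h1.le ?_ (by linarith [hb.1]) hb.2.1.le hb.2.2 hy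
      have : (2 * (N : ℂ) + 2 * z).re = 2 * (N : ℝ) + 2 * z.re := by simp
      rw [this]
      have hN : (0 : ℝ) ≤ N := Nat.cast_nonneg N
      linarith [hb.1]

lemma logs_nonpos {y : ℝ} (h0 : 0 < y) :
    Real.log (Real.sinh y) - 3 * Real.log (Real.cosh y) ≤ 0 := by
  have hs : 0 < Real.sinh y := Real.sinh_pos_iff.2 h0
  have h1 : Real.log (Real.sinh y) ≤ Real.log (Real.cosh y) :=
    Real.log_le_log hs (Real.sinh_lt_cosh y).le
  have h2 : 0 ≤ Real.log (Real.cosh y) := Real.log_nonneg (Real.one_le_cosh y)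
  linarith

lemma IG_diff (N : ℕ) : DifferentiableOn ℂ (IG N) U := by
  refine holo_param ?_ ?_ ?_
  · intro y
    refine Differentiable.differentiableOn ?_
    fun_prop
  · intro z _
    have h1 : Measurable (fun y : ℝ => Real.cosh y) := Real.measurable_cosh
    have h2 : Measurable (fun y : ℝ => Real.sinh y) := Real.measurable_sinh
    have h3 : Measurable (fun y : ℝ => Real.log (Real.sinh y) - 3 * Real.log (Real.cosh y)) :=
      (Real.measurable_log.comp h2).sub ((Real.measurable_log.comp h1).const_mul 3)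
    exact (by fun_prop : Measurable fun y : ℝ =>
      Complex.exp (-((2 * (N : ℂ) + 2 * z) * (y : ℂ))) *
      Complex.exp (z * ((Real.log (Real.sinh y) - 3 * Real.log (Real.cosh y) : ℝ) :
        ℂ))).aestronglyMeasurable
  · intro z₀ hz₀
    obtain ⟨h1, h2⟩ := hz₀
    set r := min (z₀.re / 2) ((7 / 3 - z₀.re) / 2) with hr
    have hr0 : 0 < r := lt_min (by linarith) (by linarith)
    have hr1 : r ≤ z₀.re / 2 := min_le_left _ _
    have hr2 : r ≤ (7 / 3 - z₀.re) / 2 := min_le_right _ _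
    have hint : IntegrableOn (fun y : ℝ => Real.exp (-(z₀.re) * y)) (Ioi 0) :=
      integrableOn_exp_mul_Ioi (by linarith) 0
    refine ⟨r, hr0, ?_, fun y => Real.exp (-(z₀.re) * y), hint, ?_⟩
    · intro z hz
      have hb := re_bounds hz
      exact ⟨by linarith [hb.1], by linarith [hb.2.1]⟩
    · refine (ae_restrict_iff' measurableSet_Ioi).2 (Filter.Eventually.of_forall
        fun y hy z hz => ?_)
      have hb := re_bounds hz
      have hy0 : (0 : ℝ) < y := hy
      have hl := logs_nonpos hy0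
      have hN : (0 : ℝ) ≤ N := Nat.cast_nonneg N
      rw [norm_mul, Complex.norm_exp, Complex.norm_exp]
      have e1 : (-((2 * (N : ℂ) + 2 * z) * (y : ℂ))).re = -((2 * (N : ℝ) + 2 * z.re) * y) := by
        simp
      have e2 : (z * ((Real.log (Real.sinh y) - 3 * Real.log (Real.cosh y) : ℝ) : ℂ)).re =
          z.re * (Real.log (Real.sinh y) - 3 * Real.log (Real.cosh y)) := by
        rw [Complex.re_mul_ofReal]
      rw [e1, e2]
      have h3 : Real.exp (z.re * (Real.log (Real.sinh y) - 3 * Real.log (Real.cosh y))) ≤ 1 := by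
        rw [Real.exp_le_one_iff]
        exact mul_nonpos_of_nonneg_of_nonpos (by linarith [hb.1]) hl
      have h4 : Real.exp (-((2 * (N : ℝ) + 2 * z.re) * y)) ≤ Real.exp (-(z₀.re) * y) := by
        rw [Real.exp_le_exp]
        have : z₀.re * y ≤ (2 * (N : ℝ) + 2 * z.re) * y := by
          refine mul_le_mul_of_nonneg_right ?_ hy0.le
          linarith [hb.1]
        linarith
      calc _ ≤ Real.exp (-(z₀.re) * y) * 1 := by gcongr
        _ = _ := mul_one _

/-- Left side. -/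
noncomputable def Lc (N : ℕ) (z : ℂ) : ℂ :=
  (2 : ℂ) ^ (2 * z - 1) * ∑ i ∈ Finset.range (N + 1), Ac z i * Bc (3 * z) (N - i)

/-- Right side. -/
noncomputable def Rc (N : ℕ) (z : ℂ) : ℂ :=
  (2 * (N : ℂ) + 2 * z) ^ (3 * z - 1) * (Complex.Gamma (3 * z))⁻¹ -
    z / 15 * ((3 * z - 1) * (3 * z - 2) * (3 * z - 3) * (3 * z - 4)) *
      (2 * (N : ℂ) + 2 * z) ^ (3 * z - 5) * (Complex.Gamma (3 * z))⁻¹ -
    Complex.sin (3 * (Real.pi : ℂ) * z) / (Real.pi : ℂ) * I5 N z -
    (-1) ^ N * (Complex.sin ((Real.pi : ℂ) * z) / (Real.pi : ℂ)) * IG N z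

lemma Lc_diff (N : ℕ) : DifferentiableOn ℂ (Lc N) U := by
  refine Differentiable.differentiableOn ?_
  unfold Lc
  refine Differentiable.mul ?_ ?_
  · intro z
    refine DifferentiableAt.const_cpow (by fun_prop) (Or.inl two_ne_zero)
  · refine Differentiable.fun_sum fun i _ => ?_
    unfold Ac Bc
    refine Differentiable.mul ?_ ?_
    · refine Differentiable.fun_finsetProd fun j _ => ?_
      fun_prop
    · refine Differentiable.fun_finsetProd fun j _ => ?_
      fun_prop

lemma Rc_diff (N : ℕ) : DifferentiableOn ℂ (Rc N) U := by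
  have hG : Differentiable ℂ fun z : ℂ => (Complex.Gamma (3 * z))⁻¹ :=
    Complex.differentiable_one_div_Gamma.comp (by fun_prop : Differentiable ℂ fun z : ℂ => 3 * z)
  have hc : ∀ e : ℂ → ℂ, Differentiable ℂ e →
      DifferentiableOn ℂ (fun z : ℂ => (2 * (N : ℂ) + 2 * z) ^ (e z)) U := by
    intro e he z hz
    refine (DifferentiableAt.cpow (by fun_prop) (he z) ?_).differentiableWithinAt
    left
    have : (2 * (N : ℂ) + 2 * z).re = 2 * (N : ℝ) + 2 * z.re := by simp
    rw [this]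
    have h1 := hz.1
    positivity
  unfold Rc
  refine DifferentiableOn.sub (DifferentiableOn.sub (DifferentiableOn.sub ?_ ?_) ?_) ?_
  · exact (hc _ (by fun_prop)).mul hG.differentiableOn
  · refine DifferentiableOn.mul (DifferentiableOn.mul ?_ (hc _ (by fun_prop)))
      hG.differentiableOn
    exact Differentiable.differentiableOn (by fun_prop)
  · exact DifferentiableOn.mul (Differentiable.differentiableOn (by fun_prop)) (I5_diff N)
  · exact DifferentiableOn.mul (Differentiable.differentiableOn (by fun_prop)) (IG_diff N)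

lemma Ac_cast (q : ℝ) (i : ℕ) : Ac (q : ℂ) i = ((Ac q i : ℝ) : ℂ) := by
  unfold Ac; push_cast; rfl

lemma Bc_cast (q : ℝ) (i : ℕ) : Bc (q : ℂ) i = ((Bc q i : ℝ) : ℂ) := by
  unfold Bc; push_cast; rfl

lemma Lc_real (N : ℕ) (q : ℝ) : Lc N (q : ℂ) = (((2 : ℝ) ^ (2 * q - 1) * cN q N : ℝ) : ℂ) := by
  rw [Lc, cN_eq, Complex.ofReal_mul, Complex.ofReal_cpow (by norm_num : (0 : ℝ) ≤ 2)]
  push_cast
  congr 1
  refine Finset.sum_congr rfl fun i _ => ?_
  have : (3 * (q : ℂ)) = ((3 * q : ℝ) : ℂ) := by push_cast; rfl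
  rw [this, Ac_cast, Bc_cast]

lemma I5_real (N : ℕ) (q : ℝ) : I5 N (q : ℂ) =
    ((∫ y in Ioi (0 : ℝ), Real.exp (-(aN q N * y)) *
          (y ^ (-(3 * q)) - q / 15 * y ^ (4 - 3 * q) - hK q y) : ℝ) : ℂ) := by
  rw [I5, ← integral_complex_ofReal]
  refine setIntegral_congr_fun measurableSet_Ioi fun y hy => ?_
  have hy0 : (0 : ℝ) < y := hy
  rw [K5_real hy0, aN]
  push_cast
  rfl

lemma IG_real (N : ℕ) (q : ℝ) : IG N (q : ℂ) =
    ((∫ y in Ioi (0 : ℝ), Real.exp (-(aN q N * y)) * gK q y : ℝ) : ℂ) := by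
  rw [IG, ← integral_complex_ofReal]
  refine setIntegral_congr_fun measurableSet_Ioi fun y hy => ?_
  have hy0 : (0 : ℝ) < y := hy
  have hs : 0 < Real.sinh y := Real.sinh_pos_iff.2 hy0
  have hc : 0 < Real.cosh y := Real.cosh_pos y
  have e : gK q y = Real.exp (q * (Real.log (Real.sinh y) - 3 * Real.log (Real.cosh y))) := by
    rw [gK, Real.rpow_def_of_pos hc, Real.rpow_def_of_pos hs, ← Real.exp_add]
    congr 1; ring
  rw [e, aN]
  push_cast
  rfl

lemma Rc_real (N : ℕ) {q : ℝ} (h0 : 0 < q) : Rc N (q : ℂ) =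
    ((aN q N ^ (3 * q - 1) / Real.Gamma (3 * q) -
      q / 15 * ((3 * q - 1) * (3 * q - 2) * (3 * q - 3) * (3 * q - 4)) *
        aN q N ^ (3 * q - 5) / Real.Gamma (3 * q) -
      Real.sin (3 * Real.pi * q) / Real.pi *
        (∫ y in Ioi (0 : ℝ), Real.exp (-(aN q N * y)) *
          (y ^ (-(3 * q)) - q / 15 * y ^ (4 - 3 * q) - hK q y)) -
      (-1) ^ N * (Real.sin (Real.pi * q) / Real.pi) *
        (∫ y in Ioi (0 : ℝ), Real.exp (-(aN q N * y)) * gK q y) : ℝ) : ℂ) := by
  have ha := aN_pos h0 N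
  have e1 : (2 * (N : ℂ) + 2 * (q : ℂ)) = ((aN q N : ℝ) : ℂ) := by rw [aN]; push_cast; rfl
  have e2 : (3 * (q : ℂ) - 1) = ((3 * q - 1 : ℝ) : ℂ) := by push_cast; rfl
  have e3 : (3 * (q : ℂ) - 5) = ((3 * q - 5 : ℝ) : ℂ) := by push_cast; rfl
  have e4 : (3 * (q : ℂ)) = ((3 * q : ℝ) : ℂ) := by push_cast; rfl
  rw [Rc, e1, e2, e3, ← Complex.ofReal_cpow ha.le, ← Complex.ofReal_cpow ha.le, I5_real, IG_real,
    e4, Complex.Gamma_ofReal]
  push_cast
  simp only [div_eq_mul_inv]

/-- The identity in the strip. -/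
lemma Lc_eq_Rc (N : ℕ) : EqOn (Lc N) (Rc N) U := by
  refine AnalyticOnNhd.eqOn_of_preconnected_of_frequently_eq (z₀ := ((1 / 6 : ℝ) : ℂ))
    ((Lc_diff N).analyticOnNhd isOpen_U) ((Rc_diff N).analyticOnNhd isOpen_U) isPreconnected_U
    ?_ ?_
  · constructor
    · rw [Complex.ofReal_re]; norm_num
    · rw [Complex.ofReal_re]; norm_num
  · have hev : ∀ᶠ q : ℝ in nhdsWithin (1 / 6) {(1 / 6 : ℝ)}ᶜ, Lc N (q : ℂ) = Rc N (q : ℂ) := by
      refine nhdsWithin_le_nhds ?_
      filter_upwards [Ioo_mem_nhds (by norm_num : (0 : ℝ) < 1 / 6)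
        (by norm_num : (1 / 6 : ℝ) < 1 / 3)] with q hq
      rw [Lc_real, Rc_real N hq.1, kernel5_small hq.1 hq.2 N]
    have ht : Filter.Tendsto (fun q : ℝ => (q : ℂ)) (nhdsWithin (1 / 6) {(1 / 6 : ℝ)}ᶜ)
        (nhdsWithin ((1 / 6 : ℝ) : ℂ) {((1 / 6 : ℝ) : ℂ)}ᶜ) := by
      refine tendsto_nhdsWithin_iff.2 ⟨?_, ?_⟩
      · exact (Complex.continuous_ofReal.tendsto _).mono_left nhdsWithin_le_nhds
      · filter_upwards [self_mem_nhdsWithin] with q hq
        simp only [mem_compl_iff, mem_singleton_iff] at hq ⊢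
        intro h
        exact hq (Complex.ofReal_injective h)
    exact ht.frequently hev.frequently

end KER_

open KER_

/-- Kernel identity, two subtractions. -/
theorem kernel5 (q : ℝ) (h0 : 0 < q) (h1 : q < 7 / 3) (N : ℕ) :
    (2 : ℝ) ^ (2 * q - 1) * cN q N = aN q N ^ (3 * q - 1) / Real.Gamma (3 * q) -
      q / 15 * ((3 * q - 1) * (3 * q - 2) * (3 * q - 3) * (3 * q - 4)) *
        aN q N ^ (3 * q - 5) / Real.Gamma (3 * q) -
      Real.sin (3 * Real.pi * q) / Real.pi *
        (∫ y in Ioi (0 : ℝ), Real.exp (-(aN q N * y)) *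
          (y ^ (-(3 * q)) - q / 15 * y ^ (4 - 3 * q) - hK q y)) -
      (-1) ^ N * (Real.sin (Real.pi * q) / Real.pi) *
        (∫ y in Ioi (0 : ℝ), Real.exp (-(aN q N * y)) * gK q y) := by
  have hU : (q : ℂ) ∈ U := ⟨by rw [Complex.ofReal_re]; exact h0, by rw [Complex.ofReal_re]; exact h1⟩
  have h := Lc_eq_Rc N hU
  rw [Lc_real, Rc_real N h0] at h
  exact Complex.ofReal_injective h

/-- Integrability in `kernel5`. -/
theorem kernel5_int (q : ℝ) (h0 : 0 < q) (h1 : q < 7 / 3) (a : ℝ) (ha : 0 < a) :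
    IntegrableOn (fun y => Real.exp (-(a * y)) *
      (y ^ (-(3 * q)) - q / 15 * y ^ (4 - 3 * q) - hK q y)) (Ioi 0) :=
  kernel5_int' q h0 h1 a ha

/-- Integrability in `kernel3`. -/
theorem kernel3_int (q : ℝ) (h0 : 0 < q) (h1 : q < 5 / 3) (a : ℝ) (ha : 0 < a) :
    IntegrableOn (fun y => Real.exp (-(a * y)) * (y ^ (-(3 * q)) - hK q y)) (Ioi 0) := by
  have i1 := kernel5_int' q h0 (by linarith) a ha
  have i2 := (int_pow_exp ha (s := 4 - 3 * q) (by linarith)).const_mul (q / 15)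
  have i3 : IntegrableOn ((fun y => Real.exp (-(a * y)) *
      (y ^ (-(3 * q)) - q / 15 * y ^ (4 - 3 * q) - hK q y)) +
      fun y => q / 15 * (Real.exp (-(a * y)) * y ^ (4 - 3 * q))) (Ioi 0) := i1.add i2
  refine (integrableOn_congr_fun (fun y _ => ?_) measurableSet_Ioi).1 i3
  simp only [Pi.add_apply]
  ring

/-- Kernel identity, one subtraction. -/
theorem kernel3 (q : ℝ) (h0 : 0 < q) (h1 : q < 5 / 3) (N : ℕ) :
    (2 : ℝ) ^ (2 * q - 1) * cN q N = aN q N ^ (3 * q - 1) / Real.Gamma (3 * q) -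
      Real.sin (3 * Real.pi * q) / Real.pi *
        (∫ y in Ioi (0 : ℝ), Real.exp (-(aN q N * y)) * (y ^ (-(3 * q)) - hK q y)) -
      (-1) ^ N * (Real.sin (Real.pi * q) / Real.pi) *
        (∫ y in Ioi (0 : ℝ), Real.exp (-(aN q N * y)) * gK q y) := by
  have ha := aN_pos h0 N
  have i1 := kernel3_int q h0 h1 (aN q N) ha
  have i2 := int_pow_exp ha (s := 4 - 3 * q) (by linarith)
  have e : ∀ y : ℝ, Real.exp (-(aN q N * y)) *
      (y ^ (-(3 * q)) - q / 15 * y ^ (4 - 3 * q) - hK q y) =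
      Real.exp (-(aN q N * y)) * (y ^ (-(3 * q)) - hK q y) -
        q / 15 * (Real.exp (-(aN q N * y)) * y ^ (4 - 3 * q)) := by intro y; ring
  have hI : ∫ y in Ioi (0 : ℝ), Real.exp (-(aN q N * y)) *
      (y ^ (-(3 * q)) - q / 15 * y ^ (4 - 3 * q) - hK q y) =
      (∫ y in Ioi (0 : ℝ), Real.exp (-(aN q N * y)) * (y ^ (-(3 * q)) - hK q y)) -
        q / 15 * (aN q N ^ (-(5 - 3 * q)) * Real.Gamma (5 - 3 * q)) := by
    simp_rw [e]
    rw [integral_sub i1 (i2.const_mul _), integral_const_mul]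
    have g2 := int_gamma ha (s := 5 - 3 * q) (by linarith)
    rw [show (5 - 3 * q - 1 : ℝ) = 4 - 3 * q by ring] at g2
    rw [g2]
  rw [kernel5 q h0 (by linarith) N, hI, show (-(5 - 3 * q) : ℝ) = 3 * q - 5 by ring]
  have hG : 0 < Real.Gamma (3 * q) := Real.Gamma_pos_of_pos (by linarith)
  -- the reflection formula at `3 q - 4`
  have key : Real.sin (3 * Real.pi * q) / Real.pi * Real.Gamma (5 - 3 * q) =
      ((3 * q - 1) * (3 * q - 2) * (3 * q - 3) * (3 * q - 4)) / Real.Gamma (3 * q) := by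
    have hrefl := Real.Gamma_mul_Gamma_one_sub (3 * q - 4)
    rw [show (1 - (3 * q - 4) : ℝ) = 5 - 3 * q by ring] at hrefl
    have hsin : Real.sin (Real.pi * (3 * q - 4)) = Real.sin (3 * Real.pi * q) := by
      rw [show Real.pi * (3 * q - 4) = 3 * Real.pi * q - (2 : ℕ) * (2 * Real.pi) by
        push_cast; ring, Real.sin_sub_nat_mul_two_pi]
    rw [hsin] at hrefl
    by_cases hs : Real.sin (3 * Real.pi * q) = 0
    · -- then `3 q` is an integer in `(0, 5)`
      rw [hs]
      obtain ⟨n, hn⟩ := Real.sin_eq_zero_iff.1 hs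
      have hn' : (n : ℝ) = 3 * q := by
        have hp := Real.pi_pos.ne'
        have : (n : ℝ) * Real.pi = (3 * q) * Real.pi := by rw [hn]; ring
        exact mul_right_cancel₀ hp this
      have hn0 : 0 < n := by
        have : (0 : ℝ) < n := by rw [hn']; linarith
        exact_mod_cast this
      have hn5 : n < 5 := by
        have : (n : ℝ) < 5 := by rw [hn']; linarith
        exact_mod_cast this
      rw [← hn']
      have h4 : n = 1 ∨ n = 2 ∨ n = 3 ∨ n = 4 := by omega
      rcases h4 with h | h | h | h <;> rw [h] <;> norm_num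
    · -- all factors are nonzero
      have hne : ∀ k : ℕ, (3 * q - k) ≠ 0 := by
        intro k hk
        apply hs
        have : 3 * Real.pi * q = (k : ℕ) * Real.pi := by
          have : 3 * q = k := by linarith
          calc 3 * Real.pi * q = (3 * q) * Real.pi := by ring
            _ = (k : ℕ) * Real.pi := by rw [this]
        rw [this]
        exact Real.sin_nat_mul_pi k
      have p1 : (3 * q - 1) ≠ 0 := by have := hne 1; push_cast at this; exact this
      have p2 : (3 * q - 2) ≠ 0 := by have := hne 2; push_cast at this; exact this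
      have p3 : (3 * q - 3) ≠ 0 := by have := hne 3; push_cast at this; exact this
      have p4 : (3 * q - 4) ≠ 0 := by have := hne 4; push_cast at this; exact this
      have hg : Real.Gamma (3 * q) = (3 * q - 1) * ((3 * q - 2) * ((3 * q - 3) *
          ((3 * q - 4) * Real.Gamma (3 * q - 4)))) := by
        rw [← Real.Gamma_add_one p4, show (3 * q - 4 + 1 : ℝ) = 3 * q - 3 by ring,
          ← Real.Gamma_add_one p3, show (3 * q - 3 + 1 : ℝ) = 3 * q - 2 by ring,
          ← Real.Gamma_add_one p2, show (3 * q - 2 + 1 : ℝ) = 3 * q - 1 by ring,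
          ← Real.Gamma_add_one p1, show (3 * q - 1 + 1 : ℝ) = 3 * q by ring]
      rw [eq_div_iff hG.ne', hg]
      have hp := Real.pi_pos.ne'
      have hrefl' : Real.sin (3 * Real.pi * q) / Real.pi *
          (Real.Gamma (3 * q - 4) * Real.Gamma (5 - 3 * q)) = 1 := by
        rw [hrefl]; field_simp
      linear_combination ((3 * q - 1) * (3 * q - 2) * (3 * q - 3) * (3 * q - 4)) * hrefl'
  linear_combination (q / 15 * aN q N ^ (3 * q - 5)) * key

/-- Integrability of the alternating kernel. -/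
theorem gK_int (q : ℝ) (h0 : 0 < q) (a : ℝ) (ha : 0 ≤ a) :
    IntegrableOn (fun y => Real.exp (-(a * y)) * gK q y) (Ioi 0) :=
  gK_int' q h0 a ha

end Pool.Agent.KIQ
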