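import Pool.Agent.KIQ.Defs
import Pool.Agent.KIM.RPB

/-!
# KERa: the kernel identity for `0 < q < 1/3` (double Beta mixture)

`(1 - z)^(-b)` has coefficients the moments of the Beta law with density
`sin (pi b) / pi * x^(b-1) (1-x)^(-b)`, and its Stieltjes transform is
`int dB_b(t) / (x + t) = x^(b-1) (1+x)^(-b)`.
-/

set_option autoImplicit false

open PowerSeries MeasureTheory Set Filter Topology

namespace Pool.Agent.KIQ

/-- Beta weight. -/
noncomputable def wB (b x : ℝ) : ℝ := x ^ (b - 1) * (1 - x) ^ (-b)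

theorem beta_int {u v : ℝ} (hu : 0 < u) (hv : 0 < v) :
    IntegrableOn (fun x : ℝ => x ^ (u - 1) * (1 - x) ^ (v - 1)) (Ioo 0 1) := by
  have h := Complex.betaIntegral_convergent (u := (u : ℂ)) (v := (v : ℂ)) (by simpa) (by simpa)
  rw [intervalIntegrable_iff_integrableOn_Ioc_of_le (by simp)] at h
  have h2 : IntegrableOn (fun x : ℝ => RCLike.re ((x : ℂ) ^ ((u : ℂ) - 1) *
    (1 - (x : ℂ)) ^ ((v : ℂ) - 1))) (Ioc 0 1) := Integrable.re h
  refine (h2.mono_set Ioo_subset_Ioc_self).congr_fun (fun x hx => ?_) measurableSet_Ioo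
  have e : (x : ℂ) ^ ((u : ℂ) - 1) * (1 - (x : ℂ)) ^ ((v : ℂ) - 1) =
      ((x ^ (u - 1) * (1 - x) ^ (v - 1) : ℝ) : ℂ) := by
    rw [Complex.ofReal_mul, Complex.ofReal_cpow hx.1.le, Complex.ofReal_cpow (by linarith [hx.2])]
    push_cast
    rfl
  simp only [e]
  simp

theorem beta_val {u v : ℝ} (hu : 0 < u) (hv : 0 < v) :
    ∫ x in Ioo (0 : ℝ) 1, x ^ (u - 1) * (1 - x) ^ (v - 1) =
      Real.Gamma u * Real.Gamma v / Real.Gamma (u + v) := by
  have h := Complex.betaIntegral_eq_Gamma_mul_div (u : ℂ) (v : ℂ) (by simpa) (by simpa)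
  rw [Complex.betaIntegral, intervalIntegral.integral_of_le (by norm_num),
    integral_Ioc_eq_integral_Ioo] at h
  have e : ∫ x in Ioo (0 : ℝ) 1, (x : ℂ) ^ ((u : ℂ) - 1) * (1 - (x : ℂ)) ^ ((v : ℂ) - 1) =
      ((∫ x in Ioo (0 : ℝ) 1, x ^ (u - 1) * (1 - x) ^ (v - 1) : ℝ) : ℂ) := by
    rw [← integral_complex_ofReal]
    refine setIntegral_congr_fun measurableSet_Ioo (fun x hx => ?_)
    rw [Complex.ofReal_mul, Complex.ofReal_cpow hx.1.le, Complex.ofReal_cpow (by linarith [hx.2])]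
    push_cast
    rfl
  rw [e, ← Complex.ofReal_add, Complex.Gamma_ofReal, Complex.Gamma_ofReal, Complex.Gamma_ofReal]
    at h
  exact_mod_cast h

theorem wB_pow {b x : ℝ} (hx : x ∈ Ioo (0 : ℝ) 1) (n : ℕ) :
    x ^ n * wB b x = x ^ (((n : ℝ) + b) - 1) * (1 - x) ^ ((1 - b) - 1) := by
  unfold wB
  rw [← mul_assoc, ← Real.rpow_natCast, ← Real.rpow_add hx.1]
  congr 2 <;> ring

theorem wB_int {b : ℝ} (h0 : 0 < b) (h1 : b < 1) (n : ℕ) :
    IntegrableOn (fun x : ℝ => x ^ n * wB b x) (Ioo 0 1) :=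
  (beta_int (u := (n : ℝ) + b) (v := 1 - b) (by positivity) (by linarith)).congr_fun
    (fun _ hx => (wB_pow hx n).symm) measurableSet_Ioo

theorem sin_pos' {b : ℝ} (h0 : 0 < b) (h1 : b < 1) : 0 < Real.sin (Real.pi * b) :=
  Real.sin_pos_of_pos_of_lt_pi (mul_pos Real.pi_pos h0) (by nlinarith [Real.pi_pos])

theorem rpc_one_sub_succ (a : ℝ) (n : ℕ) :
    coeff (n + 1) (KIM.rp (1 - X : ℝ⟦X⟧) a) =
      ((n : ℝ) - a) / ((n : ℝ) + 1) * coeff n (KIM.rp (1 - X : ℝ⟦X⟧) a) := by
  have hX : ∀ m : ℕ, coeff (m + 1) (1 - X : ℝ⟦X⟧) = if m = 0 then -1 else 0 := by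
    intro m
    rw [map_sub, coeff_one, coeff_X]
    by_cases hm : m = 0 <;> simp [hm]
  unfold KIM.rp
  rw [coeff_mk, coeff_mk, KIM.rpc]
  rw [Finset.sum_eq_single (Fin.last n)]
  · rw [show n + 1 - ((Fin.last n : Fin (n + 1)) : ℕ) = 0 + 1 by simp, hX]
    simp only [if_true, Fin.val_last]
    push_cast
    field_simp
    ring
  · intro i _ hi
    have hi' : (i : ℕ) < n := by
      have := i.2
      have h2 : (i : ℕ) ≠ n := fun h => hi (Fin.ext (by simpa using h))
      omega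
    rw [show n + 1 - (i : ℕ) = (n - (i : ℕ)) + 1 by omega, hX, if_neg (by omega)]
    simp
  · intro h
    exact absurd (Finset.mem_univ _) h

theorem rpc_one_add_eq (a : ℝ) (n : ℕ) :
    coeff n (KIM.rp (1 + X : ℝ⟦X⟧) a) = (-1) ^ n * coeff n (KIM.rp (1 - X : ℝ⟦X⟧) a) := by
  have hX : ∀ m : ℕ, coeff (m + 1) (1 + X : ℝ⟦X⟧) = if m = 0 then 1 else 0 := by
    intro m
    rw [map_add, coeff_one, coeff_X]
    by_cases hm : m = 0 <;> simp [hm]
  have hs : ∀ n : ℕ, coeff (n + 1) (KIM.rp (1 + X : ℝ⟦X⟧) a) =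
      (a - (n : ℝ)) / ((n : ℝ) + 1) * coeff n (KIM.rp (1 + X : ℝ⟦X⟧) a) := by
    intro n
    unfold KIM.rp
    rw [coeff_mk, coeff_mk, KIM.rpc]
    rw [Finset.sum_eq_single (Fin.last n)]
    · rw [show n + 1 - ((Fin.last n : Fin (n + 1)) : ℕ) = 0 + 1 by simp, hX]
      simp only [if_true, Fin.val_last]
      push_cast
      field_simp
    · intro i _ hi
      have hi' : (i : ℕ) < n := by
        have := i.2
        have h2 : (i : ℕ) ≠ n := fun h => hi (Fin.ext (by simpa using h))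
        omega
      rw [show n + 1 - (i : ℕ) = (n - (i : ℕ)) + 1 by omega, hX, if_neg (by omega)]
      simp
    · intro h
      exact absurd (Finset.mem_univ _) h
  induction n with
  | zero => simp [KIM.rp, KIM.rpc]
  | succ n ih =>
    rw [hs, ih, rpc_one_sub_succ, pow_succ]
    ring

theorem wB_moment {b : ℝ} (h0 : 0 < b) (h1 : b < 1) (n : ℕ) :
    Real.sin (Real.pi * b) / Real.pi * ∫ x in Ioo (0 : ℝ) 1, x ^ n * wB b x =
      coeff n (KIM.rp (1 - X : ℝ⟦X⟧) (-b)) := by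
  have hs := (sin_pos' h0 h1).ne'
  have hpi := Real.pi_ne_zero
  have hv : ∀ n : ℕ, ∫ x in Ioo (0 : ℝ) 1, x ^ n * wB b x =
      Real.Gamma ((n : ℝ) + b) * Real.Gamma (1 - b) / Real.Gamma ((n : ℝ) + 1) := by
    intro n
    rw [setIntegral_congr_fun measurableSet_Ioo (fun x hx => wB_pow (b := b) hx n),
      beta_val (by positivity) (by linarith)]
    congr 2
    ring
  induction n with
  | zero =>
    have hR := Real.Gamma_mul_Gamma_one_sub b
    rw [hv]
    simp only [CharP.cast_eq_zero, zero_add, Real.Gamma_one, div_one]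
    rw [hR]
    simp [KIM.rp, KIM.rpc]
    field_simp
  | succ n ih =>
    rw [rpc_one_sub_succ, ← ih, hv, hv]
    have e1 : Real.Gamma (((n + 1 : ℕ) : ℝ) + b) = ((n : ℝ) + b) * Real.Gamma ((n : ℝ) + b) := by
      rw [show (((n + 1 : ℕ) : ℝ) + b) = ((n : ℝ) + b) + 1 by push_cast; ring,
        Real.Gamma_add_one (by positivity)]
    have e2 : Real.Gamma (((n + 1 : ℕ) : ℝ) + 1) = ((n : ℝ) + 1) * Real.Gamma ((n : ℝ) + 1) := by
      rw [show (((n + 1 : ℕ) : ℝ) + 1) = ((n : ℝ) + 1) + 1 by push_cast; ring,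
        Real.Gamma_add_one (by positivity)]
    rw [e1, e2]
    have hG : Real.Gamma ((n : ℝ) + 1) ≠ 0 := (Real.Gamma_pos_of_pos (by positivity)).ne'
    field_simp
    ring

theorem wB_nonneg {b x : ℝ} (hx : x ∈ Ioo (0 : ℝ) 1) : 0 ≤ wB b x :=
  mul_nonneg (Real.rpow_nonneg hx.1.le _) (Real.rpow_nonneg (by linarith [hx.2]) _)

/-- Stieltjes transform of the Beta law. -/
theorem wB_stieltjes {b x : ℝ} (h0 : 0 < b) (h1 : b < 1) (hx : 0 < x) :
    IntegrableOn (fun t : ℝ => wB b t / (x + t)) (Ioo 0 1) ∧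
    Real.sin (Real.pi * b) / Real.pi * ∫ t in Ioo (0 : ℝ) 1, wB b t / (x + t) =
      x ^ (b - 1) * (1 + x) ^ (-b) := by
  have hs := (sin_pos' h0 h1).ne'
  have hpi := Real.pi_ne_zero
  set f : ℝ → ℝ := fun t => t * (1 + x) / (x + t) with hf
  set f' : ℝ → ℝ := fun t => (1 + x) * x / (x + t) ^ 2 with hf'
  have hder : ∀ t ∈ Ioo (0 : ℝ) 1, HasDerivWithinAt f (f' t) (Ioo 0 1) t := by
    intro t ht
    have hne : x + t ≠ 0 := by linarith [ht.1]
    have h := ((hasDerivAt_id t).mul_const (1 + x)).div ((hasDerivAt_id t).const_add x) hne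
    refine (h.congr_deriv ?_).hasDerivWithinAt
    simp only [id, hf']
    field_simp
    ring
  have hinj : InjOn f (Ioo (0 : ℝ) 1) := by
    intro t ht s hs' hts
    have hne : x + t ≠ 0 := by linarith [ht.1]
    have hne' : x + s ≠ 0 := by linarith [hs'.1]
    simp only [hf] at hts
    rw [div_eq_div_iff hne hne'] at hts
    have : x * (1 + x) * (t - s) = 0 := by linear_combination hts
    rcases mul_eq_zero.1 this with h | h
    · rcases mul_eq_zero.1 h with h | h <;> linarith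
    · linarith
  have himg : f '' Ioo (0 : ℝ) 1 = Ioo 0 1 := by
    ext t
    constructor
    · rintro ⟨s, hs', rfl⟩
      have hp : 0 < x + s := by linarith [hs'.1]
      simp only [hf]
      refine ⟨div_pos (mul_pos hs'.1 (by linarith)) hp, ?_⟩
      rw [div_lt_one hp]
      nlinarith [hs'.2]
    · intro ht
      have hp : 0 < 1 + x - t := by linarith [ht.2]
      refine ⟨x * t / (1 + x - t), ⟨div_pos (mul_pos hx ht.1) hp, ?_⟩, ?_⟩
      · rw [div_lt_one hp]
        nlinarith [ht.2]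
      · simp only [hf]
        have hp' := hp.ne'
        have h3 : x + x * t / (1 + x - t) = x * (1 + x) / (1 + x - t) := by
          field_simp
          ring
        rw [h3]
        field_simp
  have hfun : ∀ t ∈ Ioo (0 : ℝ) 1, |f' t| * wB b (f t) =
      (x ^ (1 - b) * (1 + x) ^ b) * (wB b t / (x + t)) := by
    intro t ht
    have hp : 0 < x + t := by linarith [ht.1]
    have h1t : 0 < 1 - t := by linarith [ht.2]
    have h1x : 0 < 1 + x := by linarith
    have e1 : 1 - f t = x * (1 - t) / (x + t) := by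
      simp only [hf]
      field_simp
      ring
    have e0 : 0 < f' t := by
      simp only [hf']
      positivity
    rw [abs_of_pos e0]
    unfold wB
    rw [e1]
    simp only [hf, hf']
    rw [Real.div_rpow (mul_pos ht.1 h1x).le hp.le, Real.mul_rpow ht.1.le h1x.le,
      Real.div_rpow (mul_pos hx h1t).le hp.le, Real.mul_rpow hx.le h1t.le]
    have a1 : (x + t) ^ (b - 1) = (x + t) ^ b / (x + t) := by
      rw [Real.rpow_sub hp, Real.rpow_one]
    have a2 : (x + t) ^ (-b) = ((x + t) ^ b)⁻¹ := Real.rpow_neg hp.le b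
    have a3 : (1 + x) ^ (b - 1) = (1 + x) ^ b / (1 + x) := by
      rw [Real.rpow_sub h1x, Real.rpow_one]
    have a4 : x ^ (-b) = x ^ (1 - b) / x := by
      rw [show (-b) = (1 - b) - 1 by ring, Real.rpow_sub hx, Real.rpow_one]
    have hpb : (x + t) ^ b ≠ 0 := (Real.rpow_pos_of_pos hp b).ne'
    rw [a1, a2, a3, a4]
    field_simp
  have hint := integrableOn_image_iff_integrableOn_abs_deriv_smul measurableSet_Ioo hder hinj
    (wB b)
  rw [himg] at hint
  have hwi : IntegrableOn (wB b) (Ioo 0 1) := by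
    simpa using wB_int h0 h1 0
  have hK : 0 < x ^ (1 - b) * (1 + x) ^ b := by positivity
  have hI : IntegrableOn (fun t => (x ^ (1 - b) * (1 + x) ^ b) * (wB b t / (x + t))) (Ioo 0 1) :=
    (hint.1 hwi).congr_fun (fun t ht => by simpa using hfun t ht) measurableSet_Ioo
  refine ⟨?_, ?_⟩
  · have h3 : IntegrableOn (fun t => (x ^ (1 - b) * (1 + x) ^ b)⁻¹ *
        ((x ^ (1 - b) * (1 + x) ^ b) * (wB b t / (x + t)))) (Ioo 0 1) :=
      Integrable.const_mul hI _
    refine h3.congr_fun (fun t _ => ?_) measurableSet_Ioo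
    simp only
    rw [← mul_assoc, inv_mul_cancel₀ hK.ne', one_mul]
  · have hval := integral_image_eq_integral_abs_deriv_smul measurableSet_Ioo hder hinj (wB b)
    rw [himg] at hval
    have h2 : ∫ t in Ioo (0 : ℝ) 1, |f' t| • wB b (f t) =
        (x ^ (1 - b) * (1 + x) ^ b) * ∫ t in Ioo (0 : ℝ) 1, wB b t / (x + t) := by
      rw [← integral_const_mul]
      exact setIntegral_congr_fun measurableSet_Ioo (fun t ht => by simpa using hfun t ht)
    rw [h2] at hval
    have hm := wB_moment h0 h1 0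
    have hm0 : coeff 0 (KIM.rp (1 - X : ℝ⟦X⟧) (-b)) = 1 := by simp [KIM.rp, KIM.rpc]
    rw [hm0] at hm
    simp only [pow_zero, one_mul] at hm
    rw [hval] at hm
    have e1 : x ^ (b - 1) = (x ^ (1 - b))⁻¹ := by
      rw [← Real.rpow_neg hx.le]
      congr 1
      ring
    have e2 : (1 + x) ^ (-b) = ((1 + x) ^ b)⁻¹ := Real.rpow_neg (by linarith) b
    rw [e1, e2]
    have hA : x ^ (1 - b) ≠ 0 := (Real.rpow_pos_of_pos hx _).ne'
    have hB : (1 + x) ^ b ≠ 0 := (Real.rpow_pos_of_pos (by linarith) _).ne'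
    rw [← mul_inv]
    apply eq_inv_of_mul_eq_one_left
    linear_combination hm

end Pool.Agent.KIQ
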