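import Pool.Agent.KIQ.KERa

/-!
# KERb: the kernel identity for `0 < q < 1/3`, double integral and change of variables
-/

set_option autoImplicit false

open PowerSeries MeasureTheory Set Filter Topology

namespace Pool.Agent.KIQ

/-- Complete homogeneous polynomial in `-k` and `x`. -/
noncomputable def pa (n : ℕ) (x k : ℝ) : ℝ :=
  ∑ ij ∈ Finset.HasAntidiagonal.antidiagonal n, (-k) ^ ij.1 * x ^ ij.2

theorem pa_mul (n : ℕ) (x k : ℝ) : (x + k) * pa n x k = x ^ (n + 1) - (-k) ^ (n + 1) := by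
  have h := geom_sum₂_mul (-k) x (n + 1)
  have e : pa n x k = ∑ i ∈ Finset.range (n + 1), (-k) ^ i * x ^ (n + 1 - 1 - i) := by
    unfold pa
    rw [Finset.Nat.sum_antidiagonal_eq_sum_range_succ (fun i j => (-k) ^ i * x ^ j) n]
    rfl
  rw [e]
  linear_combination -h

/-- The polynomial with `(x + k) PP = x ^ N (1 + x) - (-k) ^ N (1 - k)`. -/
noncomputable def PP : ℕ → ℝ → ℝ → ℝ
  | 0, _, _ => 1
  | n + 1, x, k => pa (n + 1) x k + pa n x k

theorem PP_mul (n : ℕ) (x k : ℝ) :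
    (x + k) * PP n x k = x ^ n * (1 + x) - (-k) ^ n * (1 - k) := by
  cases n with
  | zero =>
    simp only [PP, pow_zero, one_mul]
    ring
  | succ n =>
    rw [PP, mul_add, pa_mul, pa_mul]
    ring

/-- The measure on the unit interval. -/
noncomputable abbrev mu1 : Measure ℝ := volume.restrict (Ioo (0 : ℝ) 1)

theorem mono_int {a b : ℝ} (ha : 0 < a) (ha1 : a < 1) (hb : 0 < b) (hb1 : b < 1) (i j : ℕ) :
    Integrable (fun p : ℝ × ℝ => ((-p.2) ^ i * p.1 ^ j) * (wB a p.1 * wB b p.2))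
      (mu1.prod mu1) ∧
    ∫ p : ℝ × ℝ, ((-p.2) ^ i * p.1 ^ j) * (wB a p.1 * wB b p.2) ∂(mu1.prod mu1) =
      (∫ x in Ioo (0 : ℝ) 1, x ^ j * wB a x) *
        ((-1) ^ i * ∫ x in Ioo (0 : ℝ) 1, x ^ i * wB b x) := by
  have e : (fun p : ℝ × ℝ => ((-p.2) ^ i * p.1 ^ j) * (wB a p.1 * wB b p.2)) =
      fun p : ℝ × ℝ => (p.1 ^ j * wB a p.1) * ((-1) ^ i * (p.2 ^ i * wB b p.2)) := by
    funext p
    rw [neg_pow p.2 i]
    ring
  rw [e]
  refine ⟨Integrable.mul_prod (f := fun x => x ^ j * wB a x)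
    (g := fun x => (-1) ^ i * (x ^ i * wB b x)) (wB_int ha ha1 j)
    (Integrable.const_mul (wB_int hb hb1 i) _), ?_⟩
  rw [integral_prod_mul (fun x => x ^ j * wB a x) (fun x => (-1) ^ i * (x ^ i * wB b x)),
    integral_const_mul]

theorem pa_int {a b : ℝ} (ha : 0 < a) (ha1 : a < 1) (hb : 0 < b) (hb1 : b < 1) (n : ℕ) :
    Integrable (fun p : ℝ × ℝ => pa n p.1 p.2 * (wB a p.1 * wB b p.2)) (mu1.prod mu1) ∧
    (Real.sin (Real.pi * a) / Real.pi) * (Real.sin (Real.pi * b) / Real.pi) *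
      ∫ p : ℝ × ℝ, pa n p.1 p.2 * (wB a p.1 * wB b p.2) ∂(mu1.prod mu1) =
    coeff n (KIM.rp (1 + X : ℝ⟦X⟧) (-b) * KIM.rp (1 - X : ℝ⟦X⟧) (-a)) := by
  have e : (fun p : ℝ × ℝ => pa n p.1 p.2 * (wB a p.1 * wB b p.2)) =
      fun p : ℝ × ℝ => ∑ ij ∈ Finset.HasAntidiagonal.antidiagonal n,
        ((-p.2) ^ ij.1 * p.1 ^ ij.2) * (wB a p.1 * wB b p.2) := by
    funext p
    unfold pa
    rw [Finset.sum_mul]
  rw [e]
  refine ⟨integrable_finsetSum _ (fun ij _ => (mono_int ha ha1 hb hb1 ij.1 ij.2).1), ?_⟩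
  rw [integral_finsetSum _ (fun ij _ => (mono_int ha ha1 hb hb1 ij.1 ij.2).1), coeff_mul,
    Finset.mul_sum]
  refine Finset.sum_congr rfl (fun ij _ => ?_)
  rw [(mono_int ha ha1 hb hb1 ij.1 ij.2).2, rpc_one_add_eq, ← wB_moment ha ha1, ← wB_moment hb hb1]
  ring

theorem PP_int {q : ℝ} (h0 : 0 < q) (h1 : q < 1 / 3) (n : ℕ) :
    Integrable (fun p : ℝ × ℝ => PP n p.1 p.2 * (wB (3 * q) p.1 * wB (1 - q) p.2))
      (mu1.prod mu1) ∧
    (Real.sin (Real.pi * (3 * q)) / Real.pi) * (Real.sin (Real.pi * (1 - q)) / Real.pi) *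
      ∫ p : ℝ × ℝ, PP n p.1 p.2 * (wB (3 * q) p.1 * wB (1 - q) p.2) ∂(mu1.prod mu1) =
    cN q n := by
  have ha : 0 < 3 * q := by linarith
  have ha1 : 3 * q < 1 := by linarith
  have hb : 0 < 1 - q := by linarith
  have hb1 : 1 - q < 1 := by linarith
  have hc : cN q n = coeff n ((1 + X : ℝ⟦X⟧) *
      (KIM.rp (1 + X : ℝ⟦X⟧) (-(1 - q)) * KIM.rp (1 - X : ℝ⟦X⟧) (-(3 * q)))) := by
    have hcc : constantCoeff (1 + X : ℝ⟦X⟧) = 1 := by simp
    have h2 := KIM.rp_add hcc (1 : ℝ) (-(1 - q))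
    rw [KIM.rp_one hcc, show (1 : ℝ) + -(1 - q) = q by ring] at h2
    unfold cN KIM.Kq KIM.bin
    rw [h2, mul_assoc]
  cases n with
  | zero =>
    have h := pa_int ha ha1 hb hb1 0
    have e : ∀ x k : ℝ, pa 0 x k = PP 0 x k := by
      intro x k
      simp [pa, PP]
    simp only [e] at h
    refine ⟨h.1, h.2.trans ?_⟩
    rw [hc]
    simp
  | succ n =>
    have h := pa_int ha ha1 hb hb1 (n + 1)
    have h' := pa_int ha ha1 hb hb1 n
    have e : (fun p : ℝ × ℝ => PP (n + 1) p.1 p.2 * (wB (3 * q) p.1 * wB (1 - q) p.2)) =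
        fun p : ℝ × ℝ => pa (n + 1) p.1 p.2 * (wB (3 * q) p.1 * wB (1 - q) p.2) +
          pa n p.1 p.2 * (wB (3 * q) p.1 * wB (1 - q) p.2) := by
      funext p
      rw [PP]
      ring
    rw [e]
    refine ⟨h.1.add h'.1, ?_⟩
    rw [integral_add h.1 h'.1, mul_add, h.2, h'.2, hc, add_mul, one_mul, map_add,
      coeff_succ_X_mul]

theorem wB_prod {q x : ℝ} (hx : x ∈ Ioo (0 : ℝ) 1) (N : ℕ) :
    x ^ N * (1 + x) * wB (3 * q) x * (x ^ ((1 - q) - 1) * (1 + x) ^ (-(1 - q))) =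
      (1 + x) ^ q * (x ^ (((N : ℝ) + 2 * q) - 1) * (1 - x) ^ ((1 - 3 * q) - 1)) := by
  have h1x : 0 < 1 + x := by linarith [hx.1]
  unfold wB
  have e1 : (1 + x) ^ q = (1 + x) * (1 + x) ^ (-(1 - q)) := by
    rw [show (1 + x) * (1 + x) ^ (-(1 - q)) = (1 + x) ^ (1 : ℝ) * (1 + x) ^ (-(1 - q)) by
      rw [Real.rpow_one], ← Real.rpow_add h1x]
    congr 1
    ring
  have e2 : x ^ (((N : ℝ) + 2 * q) - 1) = x ^ N * x ^ (3 * q - 1) * x ^ ((1 - q) - 1) := by
    rw [← Real.rpow_natCast, ← Real.rpow_add hx.1, ← Real.rpow_add hx.1]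
    congr 1
    ring
  rw [e1, e2, show (1 - 3 * q) - 1 = -(3 * q) by ring]
  ring

theorem wB_prod' {q x : ℝ} (hx : x ∈ Ioo (0 : ℝ) 1) (N : ℕ) :
    x ^ N * (1 - x) * wB (1 - q) x * (x ^ (3 * q - 1) * (1 + x) ^ (-(3 * q))) =
      (1 + x) ^ (-(3 * q)) * (x ^ (((N : ℝ) + 2 * q) - 1) * (1 - x) ^ q) := by
  have h1x : 0 < 1 - x := by linarith [hx.2]
  unfold wB
  have e1 : (1 - x) ^ q = (1 - x) * (1 - x) ^ (-(1 - q)) := by
    rw [show (1 - x) * (1 - x) ^ (-(1 - q)) = (1 - x) ^ (1 : ℝ) * (1 - x) ^ (-(1 - q)) by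
      rw [Real.rpow_one], ← Real.rpow_add h1x]
    congr 1
    ring
  have e2 : x ^ (((N : ℝ) + 2 * q) - 1) = x ^ N * x ^ (3 * q - 1) * x ^ ((1 - q) - 1) := by
    rw [← Real.rpow_natCast, ← Real.rpow_add hx.1, ← Real.rpow_add hx.1]
    congr 1
    ring
  rw [e1, e2]
  ring

/-- Integrability of the first part on the square, and its value. -/
theorem first_int {q : ℝ} (h0 : 0 < q) (h1 : q < 1 / 3) (N : ℕ) :
    Integrable (fun p : ℝ × ℝ => p.1 ^ N * (1 + p.1) * wB (3 * q) p.1 *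
      (wB (1 - q) p.2 / (p.1 + p.2))) (mu1.prod mu1) ∧
    (Real.sin (Real.pi * (1 - q)) / Real.pi) *
      ∫ p : ℝ × ℝ, p.1 ^ N * (1 + p.1) * wB (3 * q) p.1 *
        (wB (1 - q) p.2 / (p.1 + p.2)) ∂(mu1.prod mu1) =
    ∫ x in Ioo (0 : ℝ) 1, (1 + x) ^ q *
      (x ^ (((N : ℝ) + 2 * q) - 1) * (1 - x) ^ ((1 - 3 * q) - 1)) := by
  have hb : 0 < 1 - q := by linarith
  have hb1 : 1 - q < 1 := by linarith
  have hs := sin_pos' hb hb1
  have hpi := Real.pi_pos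
  set c : ℝ := Real.sin (Real.pi * (1 - q)) / Real.pi with hc
  have hc0 : 0 < c := by positivity
  have hin : ∀ x ∈ Ioo (0 : ℝ) 1, c * ∫ k in Ioo (0 : ℝ) 1, x ^ N * (1 + x) * wB (3 * q) x *
      (wB (1 - q) k / (x + k)) = (1 + x) ^ q *
      (x ^ (((N : ℝ) + 2 * q) - 1) * (1 - x) ^ ((1 - 3 * q) - 1)) := by
    intro x hx
    rw [integral_const_mul, ← wB_prod hx, ← (wB_stieltjes hb hb1 hx.1).2]
    ring
  have hmeas : AEStronglyMeasurable (fun p : ℝ × ℝ => p.1 ^ N * (1 + p.1) * wB (3 * q) p.1 *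
      (wB (1 - q) p.2 / (p.1 + p.2))) (mu1.prod mu1) := by
    unfold wB
    apply Measurable.aestronglyMeasurable
    fun_prop
  have hI : Integrable (fun x => (1 + x) ^ q *
      (x ^ (((N : ℝ) + 2 * q) - 1) * (1 - x) ^ ((1 - 3 * q) - 1))) mu1 := by
    have hb := beta_int (u := (N : ℝ) + 2 * q) (v := 1 - 3 * q) (by positivity) (by linarith)
    refine Integrable.mono' (Integrable.const_mul hb ((2 : ℝ) ^ q)) ?_ ?_
    · apply Measurable.aestronglyMeasurable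
      fun_prop
    · refine ae_restrict_of_forall_mem measurableSet_Ioo (fun x hx => ?_)
      have h2 : 0 ≤ x ^ (((N : ℝ) + 2 * q) - 1) * (1 - x) ^ ((1 - 3 * q) - 1) :=
        mul_nonneg (Real.rpow_nonneg hx.1.le _) (Real.rpow_nonneg (by linarith [hx.2]) _)
      have h3 : 0 ≤ (1 + x) ^ q := Real.rpow_nonneg (by linarith [hx.1]) _
      rw [Real.norm_eq_abs, abs_of_nonneg (mul_nonneg h3 h2)]
      exact mul_le_mul_of_nonneg_right (Real.rpow_le_rpow (by linarith [hx.1])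
        (by linarith [hx.2]) h0.le) h2
  have hint : Integrable (fun p : ℝ × ℝ => p.1 ^ N * (1 + p.1) * wB (3 * q) p.1 *
      (wB (1 - q) p.2 / (p.1 + p.2))) (mu1.prod mu1) := by
    rw [integrable_prod_iff hmeas]
    constructor
    · refine ae_restrict_of_forall_mem measurableSet_Ioo (fun x hx => ?_)
      exact Integrable.const_mul (wB_stieltjes hb hb1 hx.1).1 (x ^ N * (1 + x) * wB (3 * q) x)
    · have h4 : Integrable (fun x => c⁻¹ * ((1 + x) ^ q *
          (x ^ (((N : ℝ) + 2 * q) - 1) * (1 - x) ^ ((1 - 3 * q) - 1)))) mu1 := hI.const_mul _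
      refine h4.congr ?_
      refine ae_restrict_of_forall_mem measurableSet_Ioo (fun x hx => ?_)
      simp only
      rw [← hin x hx, ← mul_assoc, inv_mul_cancel₀ hc0.ne', one_mul]
      refine setIntegral_congr_fun measurableSet_Ioo (fun k hk => ?_)
      show _ = ‖_‖
      rw [Real.norm_eq_abs, abs_of_nonneg]
      have := wB_nonneg (b := 3 * q) hx
      have := wB_nonneg (b := 1 - q) hk
      have h5 := hx.1
      have h6 := hk.1
      positivity
  refine ⟨hint, ?_⟩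
  rw [integral_prod _ hint, ← integral_const_mul]
  exact setIntegral_congr_fun measurableSet_Ioo (fun x hx => hin x hx)

/-- The identity on the unit interval. -/
theorem cN_unit {q : ℝ} (h0 : 0 < q) (h1 : q < 1 / 3) (N : ℕ) :
    cN q N = Real.sin (3 * Real.pi * q) / Real.pi *
      (∫ x in Ioo (0 : ℝ) 1, (1 + x) ^ q *
        (x ^ (((N : ℝ) + 2 * q) - 1) * (1 - x) ^ ((1 - 3 * q) - 1))) -
      (-1) ^ N * (Real.sin (Real.pi * q) / Real.pi) *
      (∫ x in Ioo (0 : ℝ) 1, (1 + x) ^ (-(3 * q)) *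
        (x ^ (((N : ℝ) + 2 * q) - 1) * (1 - x) ^ q)) := by
  have ha : 0 < 3 * q := by linarith
  have ha1 : 3 * q < 1 := by linarith
  have hF := first_int h0 h1 N
  have hP := PP_int h0 h1 N
  -- the second part
  have hG : Integrable (fun p : ℝ × ℝ => (-1) ^ N * (p.2 ^ N * (1 - p.2) * wB (1 - q) p.2 *
      (wB (3 * q) p.1 / (p.2 + p.1)))) (mu1.prod mu1) ∧
      ∫ p : ℝ × ℝ, PP N p.1 p.2 * (wB (3 * q) p.1 * wB (1 - q) p.2) ∂(mu1.prod mu1) =
      (∫ p : ℝ × ℝ, p.1 ^ N * (1 + p.1) * wB (3 * q) p.1 *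
        (wB (1 - q) p.2 / (p.1 + p.2)) ∂(mu1.prod mu1)) -
      ∫ p : ℝ × ℝ, (-1) ^ N * (p.2 ^ N * (1 - p.2) * wB (1 - q) p.2 *
        (wB (3 * q) p.1 / (p.2 + p.1))) ∂(mu1.prod mu1) := by
    have hd : ∀ᵐ p : ℝ × ℝ ∂(mu1.prod mu1), (-1) ^ N * (p.2 ^ N * (1 - p.2) * wB (1 - q) p.2 *
        (wB (3 * q) p.1 / (p.2 + p.1))) = p.1 ^ N * (1 + p.1) * wB (3 * q) p.1 *
        (wB (1 - q) p.2 / (p.1 + p.2)) -
        PP N p.1 p.2 * (wB (3 * q) p.1 * wB (1 - q) p.2) := by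
      have hr : mu1.prod mu1 = (volume.prod volume).restrict
          (Ioo (0 : ℝ) 1 ×ˢ Ioo (0 : ℝ) 1) := Measure.prod_restrict _ _
      rw [hr]
      refine ae_restrict_of_forall_mem (measurableSet_Ioo.prod measurableSet_Ioo) ?_
      rintro ⟨x, k⟩ ⟨hx, hk⟩
      simp only at hx hk ⊢
      have hne : x + k ≠ 0 := by linarith [hx.1, hk.1]
      have hm := PP_mul N x k
      have hPe : PP N x k = (x ^ N * (1 + x) - (-k) ^ N * (1 - k)) / (x + k) := by
        rw [eq_div_iff hne, ← hm]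
        ring
      rw [hPe, neg_pow k N, add_comm k x]
      field_simp
      ring
    have hGi : Integrable (fun p : ℝ × ℝ => (-1) ^ N * (p.2 ^ N * (1 - p.2) * wB (1 - q) p.2 *
        (wB (3 * q) p.1 / (p.2 + p.1)))) (mu1.prod mu1) :=
      (hF.1.sub hP.1).congr (hd.mono fun p hp => by simp only [Pi.sub_apply]; rw [hp])
    refine ⟨hGi, ?_⟩
    have h2 := integral_congr_ae hd
    rw [integral_sub hF.1 hP.1] at h2
    rw [h2]
    ring
  have hGv : (Real.sin (Real.pi * (3 * q)) / Real.pi) *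
      ∫ p : ℝ × ℝ, (-1) ^ N * (p.2 ^ N * (1 - p.2) * wB (1 - q) p.2 *
        (wB (3 * q) p.1 / (p.2 + p.1))) ∂(mu1.prod mu1) =
      (-1) ^ N * ∫ x in Ioo (0 : ℝ) 1, (1 + x) ^ (-(3 * q)) *
        (x ^ (((N : ℝ) + 2 * q) - 1) * (1 - x) ^ q) := by
    rw [integral_prod_symm _ hG.1, ← integral_const_mul, ← integral_const_mul]
    refine setIntegral_congr_fun measurableSet_Ioo (fun k hk => ?_)
    simp only
    rw [integral_const_mul, integral_const_mul, ← wB_prod' hk, ← (wB_stieltjes ha ha1 hk.1).2]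
    ring
  have hs : Real.sin (Real.pi * (1 - q)) = Real.sin (Real.pi * q) := by
    rw [mul_sub, mul_one, Real.sin_pi_sub]
  rw [← hP.2, hG.2, ← hF.2, hs, show 3 * Real.pi * q = Real.pi * (3 * q) by ring]
  rw [mul_sub]
  have e3 : (-1) ^ N * (Real.sin (Real.pi * q) / Real.pi) *
      (∫ x in Ioo (0 : ℝ) 1, (1 + x) ^ (-(3 * q)) *
        (x ^ (((N : ℝ) + 2 * q) - 1) * (1 - x) ^ q)) =
      (Real.sin (Real.pi * q) / Real.pi) * ((Real.sin (Real.pi * (3 * q)) / Real.pi) *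
      ∫ p : ℝ × ℝ, (-1) ^ N * (p.2 ^ N * (1 - p.2) * wB (1 - q) p.2 *
        (wB (3 * q) p.1 / (p.2 + p.1))) ∂(mu1.prod mu1)) := by
    rw [hGv]
    ring
  rw [e3]
  ring

/-- Change of variables `x = exp (-2 y)`. -/
theorem cov_exp (g : ℝ → ℝ) : ∫ x in Ioo (0 : ℝ) 1, g x =
    ∫ y in Ioi (0 : ℝ), 2 * Real.exp (-(2 * y)) * g (Real.exp (-(2 * y))) := by
  set f : ℝ → ℝ := fun y => Real.exp (-(2 * y)) with hf
  have hder : ∀ y ∈ Ioi (0 : ℝ), HasDerivWithinAt f (-(2 * Real.exp (-(2 * y)))) (Ioi 0) y := by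
    intro y _
    have h0 : HasDerivAt (fun y : ℝ => -(2 * y)) (-(2 * 1)) y :=
      ((hasDerivAt_id y).const_mul 2).neg
    have h := h0.exp
    refine (h.congr_deriv ?_).hasDerivWithinAt
    ring
  have hinj : InjOn f (Ioi (0 : ℝ)) := by
    intro a _ b _ hab
    have := Real.exp_injective hab
    linarith
  have himg : f '' Ioi (0 : ℝ) = Ioo 0 1 := by
    ext t
    constructor
    · rintro ⟨y, hy, rfl⟩
      refine ⟨Real.exp_pos _, ?_⟩
      rw [hf]
      simp only [Real.exp_lt_one_iff]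
      have : (0 : ℝ) < y := hy
      linarith
    · intro ht
      refine ⟨-(Real.log t) / 2, ?_, ?_⟩
      · have := Real.log_neg ht.1 ht.2
        show (0 : ℝ) < _
        linarith
      · simp only [hf]
        rw [show -(2 * (-(Real.log t) / 2)) = Real.log t by ring, Real.exp_log ht.1]
  have h := integral_image_eq_integral_abs_deriv_smul measurableSet_Ioi hder hinj g
  rw [himg] at h
  rw [h]
  refine setIntegral_congr_fun measurableSet_Ioi (fun y _ => ?_)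
  simp only [smul_eq_mul, abs_neg, hf]
  rw [abs_of_pos (by positivity)]

theorem kernel0 (q : ℝ) (h0 : 0 < q) (h1 : q < 1 / 3) (N : ℕ) :
    (2 : ℝ) ^ (2 * q - 1) * cN q N = Real.sin (3 * Real.pi * q) / Real.pi *
        (∫ y in Ioi (0 : ℝ), Real.exp (-(aN q N * y)) * hK q y) -
      (-1) ^ N * (Real.sin (Real.pi * q) / Real.pi) *
        (∫ y in Ioi (0 : ℝ), Real.exp (-(aN q N * y)) * gK q y) := by
  have hE : ∀ y : ℝ, 0 < y → 1 + Real.exp (-(2 * y)) = 2 * (Real.exp (-y) * Real.cosh y) ∧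
      1 - Real.exp (-(2 * y)) = 2 * (Real.exp (-y) * Real.sinh y) := by
    intro y _
    have e : Real.exp (-(2 * y)) = Real.exp (-y) * Real.exp (-y) := by
      rw [← Real.exp_add]
      congr 1
      ring
    have e2 : Real.exp (-y) * Real.exp y = 1 := by
      rw [← Real.exp_add]
      simp
    rw [Real.cosh_eq, Real.sinh_eq, e]
    constructor <;> linear_combination -e2
  have hA : ∀ y ∈ Ioi (0 : ℝ), (2 : ℝ) ^ (2 * q - 1) * (2 * Real.exp (-(2 * y)) *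
      ((1 + Real.exp (-(2 * y))) ^ q * (Real.exp (-(2 * y)) ^ (((N : ℝ) + 2 * q) - 1) *
        (1 - Real.exp (-(2 * y))) ^ ((1 - 3 * q) - 1)))) =
      Real.exp (-(aN q N * y)) * hK q y := by
    intro y hy
    have hy' : (0 : ℝ) < y := hy
    have hc := Real.cosh_pos y
    have hsn := Real.sinh_pos_iff.2 hy'
    have he := Real.exp_pos (-y)
    rw [(hE y hy').1, (hE y hy').2, Real.mul_rpow (by norm_num) (by positivity),
      Real.mul_rpow he.le hc.le, Real.mul_rpow (by norm_num) (by positivity),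
      Real.mul_rpow he.le hsn.le, ← Real.exp_mul, ← Real.exp_mul, ← Real.exp_mul,
      show (1 - 3 * q) - 1 = -(3 * q) by ring]
    unfold hK aN
    have e1 : (2 : ℝ) ^ (2 * q - 1) * 2 * 2 ^ q * 2 ^ (-(3 * q)) = 1 := by
      have : (2 : ℝ) ^ (2 * q - 1) * 2 * 2 ^ q * 2 ^ (-(3 * q)) =
          (2 : ℝ) ^ (2 * q - 1) * 2 ^ (1 : ℝ) * 2 ^ q * 2 ^ (-(3 * q)) := by
        rw [Real.rpow_one]
      rw [this, ← Real.rpow_add (by norm_num), ← Real.rpow_add (by norm_num),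
        ← Real.rpow_add (by norm_num), show 2 * q - 1 + 1 + q + -(3 * q) = 0 by ring,
        Real.rpow_zero]
    have e2 : Real.exp (-(2 * y)) * Real.exp (-y * q) *
        Real.exp (-(2 * y) * ((N : ℝ) + 2 * q - 1)) * Real.exp (-y * -(3 * q)) =
        Real.exp (-((2 * (N : ℝ) + 2 * q) * y)) := by
      rw [← Real.exp_add, ← Real.exp_add, ← Real.exp_add]
      congr 1
      ring
    rw [← e2]
    linear_combination (Real.exp (-(2 * y)) * Real.exp (-y * q) *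
        Real.exp (-(2 * y) * ((N : ℝ) + 2 * q - 1)) * Real.exp (-y * -(3 * q)) *
        Real.cosh y ^ q * Real.sinh y ^ (-(3 * q))) * e1
  have hB : ∀ y ∈ Ioi (0 : ℝ), (2 : ℝ) ^ (2 * q - 1) * (2 * Real.exp (-(2 * y)) *
      ((1 + Real.exp (-(2 * y))) ^ (-(3 * q)) * (Real.exp (-(2 * y)) ^ (((N : ℝ) + 2 * q) - 1) *
        (1 - Real.exp (-(2 * y))) ^ q))) =
      Real.exp (-(aN q N * y)) * gK q y := by
    intro y hy
    have hy' : (0 : ℝ) < y := hy
    have hc := Real.cosh_pos y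
    have hsn := Real.sinh_pos_iff.2 hy'
    have he := Real.exp_pos (-y)
    rw [(hE y hy').1, (hE y hy').2, Real.mul_rpow (by norm_num) (by positivity),
      Real.mul_rpow he.le hc.le, Real.mul_rpow (by norm_num) (by positivity),
      Real.mul_rpow he.le hsn.le, ← Real.exp_mul, ← Real.exp_mul, ← Real.exp_mul]
    unfold gK aN
    have e1 : (2 : ℝ) ^ (2 * q - 1) * 2 * 2 ^ q * 2 ^ (-(3 * q)) = 1 := by
      have : (2 : ℝ) ^ (2 * q - 1) * 2 * 2 ^ q * 2 ^ (-(3 * q)) =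
          (2 : ℝ) ^ (2 * q - 1) * 2 ^ (1 : ℝ) * 2 ^ q * 2 ^ (-(3 * q)) := by
        rw [Real.rpow_one]
      rw [this, ← Real.rpow_add (by norm_num), ← Real.rpow_add (by norm_num),
        ← Real.rpow_add (by norm_num), show 2 * q - 1 + 1 + q + -(3 * q) = 0 by ring,
        Real.rpow_zero]
    have e2 : Real.exp (-(2 * y)) * Real.exp (-y * q) *
        Real.exp (-(2 * y) * ((N : ℝ) + 2 * q - 1)) * Real.exp (-y * -(3 * q)) =
        Real.exp (-((2 * (N : ℝ) + 2 * q) * y)) := by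
      rw [← Real.exp_add, ← Real.exp_add, ← Real.exp_add]
      congr 1
      ring
    rw [← e2]
    linear_combination (Real.exp (-(2 * y)) * Real.exp (-y * q) *
        Real.exp (-(2 * y) * ((N : ℝ) + 2 * q - 1)) * Real.exp (-y * -(3 * q)) *
        Real.sinh y ^ q * Real.cosh y ^ (-(3 * q))) * e1
  have i1 : (2 : ℝ) ^ (2 * q - 1) * (∫ x in Ioo (0 : ℝ) 1, (1 + x) ^ q *
        (x ^ (((N : ℝ) + 2 * q) - 1) * (1 - x) ^ ((1 - 3 * q) - 1))) =
      ∫ y in Ioi (0 : ℝ), Real.exp (-(aN q N * y)) * hK q y := by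
    rw [cov_exp (fun x => (1 + x) ^ q *
        (x ^ (((N : ℝ) + 2 * q) - 1) * (1 - x) ^ ((1 - 3 * q) - 1))), ← integral_const_mul]
    exact setIntegral_congr_fun measurableSet_Ioi hA
  have i2 : (2 : ℝ) ^ (2 * q - 1) * (∫ x in Ioo (0 : ℝ) 1, (1 + x) ^ (-(3 * q)) *
        (x ^ (((N : ℝ) + 2 * q) - 1) * (1 - x) ^ q)) =
      ∫ y in Ioi (0 : ℝ), Real.exp (-(aN q N * y)) * gK q y := by
    rw [cov_exp (fun x => (1 + x) ^ (-(3 * q)) *
        (x ^ (((N : ℝ) + 2 * q) - 1) * (1 - x) ^ q)), ← integral_const_mul]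
    exact setIntegral_congr_fun measurableSet_Ioi hB
  rw [← i1, ← i2, cN_unit h0 h1 N]
  ring

end Pool.Agent.KIQ
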