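import Pool.Agent.KIQ.KERi

/-!
# KERc: holomorphic continuation in `q`
-/

set_option autoImplicit false

open MeasureTheory Set Filter Topology Metric

namespace Pool.Agent.KIQ

/-- Locally dominated parameter integrals of holomorphic functions are holomorphic. -/
theorem diffOn_of_dominated {μ : Measure ℝ} {U : Set ℂ} {F : ℂ → ℝ → ℂ}
    (hF : ∀ᵐ y ∂μ, DifferentiableOn ℂ (fun q => F q y) U)
    (hm : ∀ q ∈ U, AEStronglyMeasurable (F q) μ)
    (hd : ∀ q0 ∈ U, ∃ r > 0, ∃ g : ℝ → ℝ, Integrable g μ ∧ closedBall q0 r ⊆ U ∧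
      ∀ᵐ y ∂μ, ∀ q ∈ closedBall q0 r, ‖F q y‖ ≤ g y) (hU : IsOpen U) :
    DifferentiableOn ℂ (fun q => ∫ y, F q y ∂μ) U := by
  intro q0 hq0
  obtain ⟨r, hr, g, hg, hrU, hb⟩ := hd q0 hq0
  have hr2 : 0 < r / 2 := by linarith
  have hball : ball q0 (r / 2) ⊆ U := fun z hz => hrU (by
    rw [mem_closedBall]; rw [mem_ball] at hz; linarith)
  refine (HasDerivAt.differentiableAt (?_ : HasDerivAt (fun q => ∫ y, F q y ∂μ)
    (∫ y, deriv (fun q => F q y) q0 ∂μ) q0)).differentiableWithinAt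
  refine (hasDerivAt_integral_of_dominated_loc_of_deriv_le
    (F' := fun q y => deriv (fun q => F q y) q) (bound := fun y => g y / (r / 2))
    (ball_mem_nhds q0 hr2) ?_ ?_ ?_ ?_ (hg.div_const _) ?_).2
  · filter_upwards [hU.mem_nhds hq0] with q hq using hm q hq
  · refine Integrable.mono' hg (hm q0 hq0) ?_
    filter_upwards [hb] with y hy using hy q0 (mem_closedBall_self hr.le)
  · -- measurability of the derivative at q0
    have hseq : ∀ n : ℕ, q0 + ((r / ((n : ℝ) + 2) : ℝ) : ℂ) ∈ U := by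
      intro n
      refine hrU ?_
      rw [mem_closedBall, dist_eq_norm, add_sub_cancel_left, Complex.norm_real, Real.norm_eq_abs,
        abs_of_pos (by positivity)]
      refine div_le_self hr.le ?_
      have : (0 : ℝ) ≤ n := Nat.cast_nonneg n
      linarith
    have hmeas : ∀ n : ℕ, AEStronglyMeasurable (fun y =>
        (((r / ((n : ℝ) + 2) : ℝ) : ℂ))⁻¹ * (F (q0 + ((r / ((n : ℝ) + 2) : ℝ) : ℂ)) y - F q0 y)) μ :=
      fun n => ((hm _ (hseq n)).sub (hm q0 hq0)).const_mul _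
    refine aestronglyMeasurable_of_tendsto_ae atTop hmeas ?_
    filter_upwards [hF] with y hy
    have hda : HasDerivAt (fun q => F q y) (deriv (fun q => F q y) q0) q0 :=
      ((hy q0 hq0).differentiableAt (hU.mem_nhds hq0)).hasDerivAt
    have hslope := hasDerivAt_iff_tendsto_slope_zero.1 hda
    have htend : Tendsto (fun n : ℕ => ((r / ((n : ℝ) + 2) : ℝ) : ℂ)) atTop (𝓝[≠] 0) := by
      refine tendsto_nhdsWithin_iff.2 ⟨?_, Eventually.of_forall fun n => ?_⟩
      · have h1 : Tendsto (fun n : ℕ => (n : ℝ) + 2) atTop atTop :=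
          tendsto_atTop_add_const_right _ _ tendsto_natCast_atTop_atTop
        have h2 : Tendsto (fun n : ℕ => r / ((n : ℝ) + 2)) atTop (𝓝 0) :=
          tendsto_const_nhds.div_atTop h1
        have h3 := (Complex.continuous_ofReal.tendsto 0).comp h2
        rw [Complex.ofReal_zero] at h3
        exact h3
      · simp only [mem_compl_iff, mem_singleton_iff, Complex.ofReal_eq_zero]
        positivity
    have := hslope.comp htend
    refine this.congr fun n => ?_
    simp [smul_eq_mul]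
  · filter_upwards [hb, hF] with y hy hyF q hq
    have hq' : closedBall q (r / 2) ⊆ closedBall q0 r := by
      intro z hz
      rw [mem_closedBall] at hz ⊢
      rw [mem_ball] at hq
      calc dist z q0 ≤ dist z q + dist q q0 := dist_triangle _ _ _
        _ ≤ r := by linarith
    refine Complex.norm_deriv_le_of_forall_mem_sphere_norm_le hr2 ?_ ?_
    · refine DifferentiableOn.diffContOnCl ?_
      rw [closure_ball q hr2.ne']
      exact hyF.mono (hq'.trans hrU)
    · intro z hz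
      exact hy z (hq' (sphere_subset_closedBall hz))
  · filter_upwards [hF] with y hyF q hq
    exact ((hyF q (hball hq)).differentiableAt (hU.mem_nhds (hball hq))).hasDerivAt

/-- `‖1 - exp w‖ ≤ 2 ‖w‖` for `Re w ≤ 0`. -/
theorem norm_one_sub_exp_le {w : ℂ} (hw : w.re ≤ 0) : ‖1 - Complex.exp w‖ ≤ 2 * ‖w‖ := by
  rcases le_total ‖w‖ 1 with h | h
  · rw [← norm_neg, neg_sub]
    exact Complex.norm_exp_sub_one_le h
  · have h1 : ‖Complex.exp w‖ ≤ 1 := by
      rw [Complex.norm_exp]; exact Real.exp_le_one_iff.2 hw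
    calc ‖1 - Complex.exp w‖ ≤ ‖(1 : ℂ)‖ + ‖Complex.exp w‖ := norm_sub_le _ _
      _ ≤ 2 := by rw [norm_one]; linarith
      _ ≤ 2 * ‖w‖ := by linarith

theorem norm_exp_sub_one_sub_le {w : ℂ} (hw : w.re ≤ 0) :
    ‖Complex.exp w - 1 - w‖ ≤ 3 * ‖w‖ ^ 2 := by
  rcases le_total ‖w‖ 1 with h | h
  · have := Complex.norm_exp_sub_one_sub_id_le h
    nlinarith [sq_nonneg ‖w‖]
  · have h1 : ‖Complex.exp w‖ ≤ 1 := by
      rw [Complex.norm_exp]; exact Real.exp_le_one_iff.2 hw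
    calc ‖Complex.exp w - 1 - w‖ ≤ ‖Complex.exp w - 1‖ + ‖w‖ := norm_sub_le _ _
      _ ≤ (‖Complex.exp w‖ + ‖(1 : ℂ)‖) + ‖w‖ := by gcongr; exact norm_sub_le _ _
      _ ≤ 2 + ‖w‖ := by rw [norm_one]; linarith
      _ ≤ 3 * ‖w‖ ^ 2 := by nlinarith

theorem log_bK_nonpos {y : ℝ} (hy : 0 < y) : Real.log (bK y) ≤ 0 :=
  Real.log_nonpos (bK_pos hy).le (bK_le_one hy)

theorem abs_log_bK_le {y : ℝ} (hy : 0 < y) (hy1 : y ≤ 1) : |Real.log (bK y)| ≤ y ^ 4 / 14 := by
  have h0 := bK_pos hy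
  have h2 := le_bK hy
  have hy4 : y ^ 4 ≤ 1 := pow_le_one₀ hy.le hy1
  rw [abs_of_nonpos (log_bK_nonpos hy), ← Real.log_inv]
  refine (Real.log_le_sub_one_of_pos (inv_pos.2 h0)).trans ?_
  have h3 : 14 / 15 ≤ bK y := by linarith
  rw [sub_le_iff_le_add, inv_le_comm₀ h0 (by positivity)]
  have h4 : (y ^ 4 / 14 + 1)⁻¹ ≤ 1 - y ^ 4 / 15 := by
    rw [inv_le_iff_one_le_mul₀ (by positivity)]
    nlinarith [pow_pos hy 4]
  linarith

theorem abs_log_bK_add_le {y : ℝ} (hy : 0 < y) (hy1 : y ≤ 1) :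
    |Real.log (bK y) + y ^ 4 / 15| ≤ y ^ 6 / 40 := by
  have h0 := bK_pos hy
  have h2 := le_bK hy
  have h3 := bK_le hy (by linarith)
  have hy4 : y ^ 4 ≤ 1 := pow_le_one₀ hy.le hy1
  have hy2 : y ^ 2 ≤ 1 := pow_le_one₀ hy.le hy1
  have h5 := Real.log_le_sub_one_of_pos h0
  have h6 := Real.one_sub_inv_le_log_of_pos h0
  rw [abs_le]
  constructor
  · have h7 : (bK y)⁻¹ ≤ (1 - y ^ 4 / 15)⁻¹ := inv_anti₀ (by linarith) h2
    have h8 : (1 - y ^ 4 / 15)⁻¹ ≤ 1 + y ^ 4 / 15 + y ^ 6 / 40 := by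
      rw [inv_le_iff_one_le_mul₀' (by linarith)]
      have e : y ^ 6 = y ^ 4 * y ^ 2 := by ring
      have p4 : 0 < y ^ 4 := by positivity
      have p2 : 0 < y ^ 2 := by positivity
      rw [e]
      have e2 : y ^ 4 ≤ y ^ 2 := by nlinarith
      nlinarith [mul_pos p4 p2, mul_le_mul_of_nonneg_left e2 p4.le, mul_pos (mul_pos p4 p2) p4,
        mul_le_mul_of_nonneg_left hy4 (mul_pos p4 p2).le]
    linarith
  · linarith

/-- The holomorphic kernel of `kernel3`. -/
noncomputable def E3 (N : ℕ) (q : ℂ) (y : ℝ) : ℂ :=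
  Complex.exp (-((2 * N + 2 * q) * y)) * (Complex.exp (-(3 * q * Real.log y)) *
    (1 - Complex.exp (q * Real.log (bK y))))

/-- The holomorphic kernel of `kernel5`. -/
noncomputable def E5 (N : ℕ) (q : ℂ) (y : ℝ) : ℂ :=
  Complex.exp (-((2 * N + 2 * q) * y)) * (Complex.exp (-(3 * q * Real.log y)) *
    (1 - q / 15 * y ^ 4 - Complex.exp (q * Real.log (bK y))))

/-- The holomorphic alternating kernel. -/
noncomputable def Eg (N : ℕ) (q : ℂ) (y : ℝ) : ℂ :=
  Complex.exp (-((2 * N + 2 * q) * y)) *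
    Complex.exp (q * Real.log (Real.sinh y) - 3 * q * Real.log (Real.cosh y))

theorem norm_e1 (N : ℕ) (q : ℂ) (y : ℝ) :
    ‖Complex.exp (-((2 * N + 2 * q) * y))‖ = Real.exp (-((2 * N + 2 * q.re) * y)) := by
  rw [Complex.norm_exp]
  congr 1
  simp [Complex.mul_re]

theorem norm_e2 (q : ℂ) {y : ℝ} (hy : 0 < y) :
    ‖Complex.exp (-(3 * q * Real.log y))‖ = y ^ (-(3 * q.re)) := by
  rw [Complex.norm_exp, Real.rpow_def_of_pos hy]
  congr 1
  simp [Complex.mul_re]
  ring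

theorem norm_mul_log (q : ℂ) {y : ℝ} (hy : 0 < y) :
    ‖q * (Real.log (bK y) : ℂ)‖ = ‖q‖ * |Real.log (bK y)| := by
  rw [norm_mul, Complex.norm_real, Real.norm_eq_abs]

theorem re_mul_log_nonpos {q : ℂ} (hq : 0 ≤ q.re) {y : ℝ} (hy : 0 < y) :
    (q * (Real.log (bK y) : ℂ)).re ≤ 0 := by
  rw [Complex.mul_re, Complex.ofReal_re, Complex.ofReal_im, mul_zero, sub_zero]
  exact mul_nonpos_of_nonneg_of_nonpos hq (log_bK_nonpos hy)

/-- Exponential factor bound. -/
theorem exp_fac_le {N : ℕ} {σ α y : ℝ} (hy : 0 < y) (hα : 0 ≤ α) (h : α ≤ σ) :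
    Real.exp (-((2 * N + 2 * σ) * y)) ≤ Real.exp (-(α * y)) := by
  rw [Real.exp_le_exp]
  have : (0 : ℝ) ≤ N := Nat.cast_nonneg N
  nlinarith [mul_nonneg this hy.le, mul_nonneg hα hy.le, mul_le_mul_of_nonneg_right h hy.le]

theorem norm_E3_le {N : ℕ} {q : ℂ} {α β M y : ℝ} (hα : 0 < α) (h1 : α ≤ q.re) (h2 : q.re ≤ β)
    (hM : ‖q‖ ≤ M) (hy : 0 < y) :
    ‖E3 N q y‖ ≤ (M + 2) * (Real.exp (-(α * y)) * y ^ (4 - 3 * β) + Real.exp (-(α * y)) * y ^ (0 : ℝ)) := by
  have hM0 : 0 ≤ M := (norm_nonneg q).trans hM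
  have hq0 : 0 ≤ q.re := by linarith
  rw [E3, norm_mul, norm_mul, norm_e1, norm_e2 q hy, Real.rpow_zero, mul_one]
  have he := exp_fac_le (N := N) hy hα.le h1
  have p1 := Real.exp_pos (-((2 * N + 2 * q.re) * y))
  have p2 := Real.exp_pos (-(α * y))
  have p3 : 0 < y ^ (-(3 * q.re)) := Real.rpow_pos_of_pos hy _
  have p4 : 0 < y ^ (4 - 3 * β) := Real.rpow_pos_of_pos hy _
  have hn := norm_one_sub_exp_le (re_mul_log_nonpos hq0 hy)
  rw [norm_mul_log q hy] at hn
  rcases le_total y 1 with hy1 | hy1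
  · have hl := abs_log_bK_le hy hy1
    have h3 : ‖1 - Complex.exp (q * (Real.log (bK y) : ℂ))‖ ≤ M * y ^ 4 := by
      have a1 : ‖q‖ * |Real.log (bK y)| ≤ M * (y ^ 4 / 14) :=
        mul_le_mul hM hl (abs_nonneg _) hM0
      have a2 : 0 ≤ M * y ^ 4 := by positivity
      linarith
    have h4 : y ^ (-(3 * q.re)) * (M * y ^ 4) ≤ M * y ^ (4 - 3 * β) := by
      have e : y ^ (-(3 * q.re)) * (M * y ^ 4) = M * y ^ (4 - 3 * q.re) := by
        have : y ^ (4 - 3 * q.re) = y ^ (-(3 * q.re)) * y ^ 4 := by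
          rw [← Real.rpow_natCast, ← Real.rpow_add hy]; congr 1; push_cast; ring
        rw [this]; ring
      rw [e]
      exact mul_le_mul_of_nonneg_left
        (Real.rpow_le_rpow_of_exponent_ge hy hy1 (by linarith)) hM0
    calc _ ≤ Real.exp (-(α * y)) * (M * y ^ (4 - 3 * β)) :=
          mul_le_mul he ((mul_le_mul_of_nonneg_left h3 p3.le).trans h4)
            (by positivity) p2.le
      _ ≤ _ := by nlinarith [mul_pos p2 p4, mul_nonneg hM0 p2.le]
  · have h3 : ‖1 - Complex.exp (q * (Real.log (bK y) : ℂ))‖ ≤ 2 := by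
      have a1 : ‖Complex.exp (q * (Real.log (bK y) : ℂ))‖ ≤ 1 := by
        rw [Complex.norm_exp]; exact Real.exp_le_one_iff.2 (re_mul_log_nonpos hq0 hy)
      refine (norm_sub_le _ _).trans ?_
      rw [norm_one]; linarith
    have h4 : y ^ (-(3 * q.re)) ≤ 1 :=
      Real.rpow_le_one_of_one_le_of_nonpos hy1 (by linarith)
    calc _ ≤ Real.exp (-(α * y)) * (1 * 2) :=
          mul_le_mul he (mul_le_mul h4 h3 (norm_nonneg _) zero_le_one)
            (by positivity) p2.le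
      _ ≤ _ := by nlinarith [mul_pos p2 p4, mul_nonneg hM0 p2.le, mul_nonneg hM0 (mul_pos p2 p4).le]

theorem norm_E5_le {N : ℕ} {q : ℂ} {α β M y : ℝ} (hα : 0 < α) (h1 : α ≤ q.re) (h2 : q.re ≤ β)
    (hM : ‖q‖ ≤ M) (hy : 0 < y) :
    ‖E5 N q y‖ ≤ (M ^ 2 + M + 2) *
      (Real.exp (-(α * y)) * y ^ (6 - 3 * β) + Real.exp (-(α * y)) * y ^ (4 : ℝ)) := by
  have hM0 : 0 ≤ M := (norm_nonneg q).trans hM
  have hq0 : 0 ≤ q.re := by linarith
  rw [E5, norm_mul, norm_mul, norm_e1, norm_e2 q hy]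
  have e44 : y ^ (4 : ℝ) = y ^ (4 : ℕ) := by
    rw [← Real.rpow_natCast]; norm_num
  rw [e44]
  have he := exp_fac_le (N := N) hy hα.le h1
  have p1 := Real.exp_pos (-((2 * N + 2 * q.re) * y))
  have p2 := Real.exp_pos (-(α * y))
  have p3 : 0 < y ^ (-(3 * q.re)) := Real.rpow_pos_of_pos hy _
  have p4 : 0 < y ^ (6 - 3 * β) := Real.rpow_pos_of_pos hy _
  have p5 : 0 < y ^ 4 := by positivity
  set w : ℂ := q * (Real.log (bK y) : ℂ) with hw
  have hwre : w.re ≤ 0 := re_mul_log_nonpos hq0 hy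
  rcases le_total y 1 with hy1 | hy1
  · have hl := abs_log_bK_le hy hy1
    have hl2 := abs_log_bK_add_le hy hy1
    have hn := norm_exp_sub_one_sub_le hwre
    have hwn : ‖w‖ ≤ M * (y ^ 4 / 14) := by
      rw [hw, norm_mul_log q hy]
      exact mul_le_mul hM hl (abs_nonneg _) hM0
    have h3 : ‖1 - q / 15 * (y : ℂ) ^ 4 - Complex.exp w‖ ≤ (M ^ 2 + M) * y ^ 6 := by
      have e : 1 - q / 15 * (y : ℂ) ^ 4 - Complex.exp w =
          -(Complex.exp w - 1 - w) - q * ((Real.log (bK y) + y ^ 4 / 15 : ℝ) : ℂ) := by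
        rw [hw]; push_cast; ring
      rw [e]
      refine (norm_sub_le _ _).trans ?_
      rw [norm_neg, norm_mul, Complex.norm_real, Real.norm_eq_abs]
      have a1 : ‖q‖ * |Real.log (bK y) + y ^ 4 / 15| ≤ M * (y ^ 6 / 40) :=
        mul_le_mul hM hl2 (abs_nonneg _) hM0
      have a2 : ‖w‖ ^ 2 ≤ (M * (y ^ 4 / 14)) ^ 2 := pow_le_pow_left₀ (norm_nonneg _) hwn 2
      have a3 : (M * (y ^ 4 / 14)) ^ 2 = M ^ 2 * y ^ 6 * (y ^ 2 / 196) := by ring
      have a4 : y ^ 2 ≤ 1 := pow_le_one₀ hy.le hy1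
      have a5 : 0 ≤ M ^ 2 * y ^ 6 := by positivity
      have a6 : M ^ 2 * y ^ 6 * (y ^ 2 / 196) ≤ M ^ 2 * y ^ 6 * (1 / 196) :=
        mul_le_mul_of_nonneg_left (by linarith) a5
      have a7 : 0 ≤ M * y ^ 6 := by positivity
      linarith
    have h4 : y ^ (-(3 * q.re)) * ((M ^ 2 + M) * y ^ 6) ≤ (M ^ 2 + M) * y ^ (6 - 3 * β) := by
      have e : y ^ (-(3 * q.re)) * ((M ^ 2 + M) * y ^ 6) = (M ^ 2 + M) * y ^ (6 - 3 * q.re) := by
        have : y ^ (6 - 3 * q.re) = y ^ (-(3 * q.re)) * y ^ 6 := by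
          rw [← Real.rpow_natCast, ← Real.rpow_add hy]; congr 1; push_cast; ring
        rw [this]; ring
      rw [e]
      exact mul_le_mul_of_nonneg_left
        (Real.rpow_le_rpow_of_exponent_ge hy hy1 (by linarith)) (by positivity)
    calc _ ≤ Real.exp (-(α * y)) * ((M ^ 2 + M) * y ^ (6 - 3 * β)) :=
          mul_le_mul he ((mul_le_mul_of_nonneg_left h3 p3.le).trans h4)
            (by positivity) p2.le
      _ ≤ _ := by
        have b1 : 0 ≤ Real.exp (-(α * y)) * y ^ (6 - 3 * β) := by positivity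
        have b2 : 0 ≤ (M ^ 2 + M + 2) * (Real.exp (-(α * y)) * y ^ 4) := by positivity
        nlinarith
  · have h3 : ‖1 - q / 15 * (y : ℂ) ^ 4 - Complex.exp w‖ ≤ (M + 2) * y ^ 4 := by
      have a1 : ‖Complex.exp w‖ ≤ 1 := by
        rw [Complex.norm_exp]; exact Real.exp_le_one_iff.2 hwre
      have a2 : ‖q / 15 * (y : ℂ) ^ 4‖ ≤ M * y ^ 4 := by
        rw [norm_mul, norm_div, norm_pow, Complex.norm_real, Real.norm_eq_abs, abs_of_pos hy]
        have a3 : ‖(15 : ℂ)‖ = 15 := by norm_num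
        rw [a3]
        have : ‖q‖ / 15 ≤ M := by linarith [norm_nonneg q]
        exact mul_le_mul_of_nonneg_right this p5.le
      have a4 : 1 ≤ y ^ 4 := one_le_pow₀ hy1
      calc _ ≤ ‖(1 : ℂ)‖ + ‖q / 15 * (y : ℂ) ^ 4‖ + ‖Complex.exp w‖ :=
            (norm_sub_le _ _).trans (by gcongr; exact norm_sub_le _ _)
        _ ≤ _ := by rw [norm_one]; linarith
    have h4 : y ^ (-(3 * q.re)) ≤ 1 :=
      Real.rpow_le_one_of_one_le_of_nonpos hy1 (by linarith)
    calc _ ≤ Real.exp (-(α * y)) * (1 * ((M + 2) * y ^ 4)) :=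
          mul_le_mul he (mul_le_mul h4 h3 (norm_nonneg _) zero_le_one)
            (by positivity) p2.le
      _ ≤ _ := by
        have b1 : 0 ≤ (M ^ 2 + M + 2) * (Real.exp (-(α * y)) * y ^ (6 - 3 * β)) := by positivity
        have b2 : 0 ≤ M ^ 2 * (Real.exp (-(α * y)) * y ^ 4) := by positivity
        nlinarith

theorem norm_Eg_le {N : ℕ} {q : ℂ} {α y : ℝ} (hα : 0 < α) (h1 : α ≤ q.re) (hy : 0 < y) :
    ‖Eg N q y‖ ≤ Real.exp (-(α * y)) * y ^ (0 : ℝ) := by
  have hs := Real.sinh_pos_iff.2 hy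
  rw [Eg, norm_mul, norm_e1, Real.rpow_zero, mul_one]
  have he := exp_fac_le (N := N) hy hα.le h1
  have h2 : ‖Complex.exp (q * (Real.log (Real.sinh y) : ℂ) - 3 * q * (Real.log (Real.cosh y) : ℂ))‖
      ≤ 1 := by
    rw [Complex.norm_exp]
    refine Real.exp_le_one_iff.2 ?_
    have e : (q * (Real.log (Real.sinh y) : ℂ) - 3 * q * (Real.log (Real.cosh y) : ℂ)).re =
        q.re * Real.log (Real.sinh y) - 3 * q.re * Real.log (Real.cosh y) := by
      simp [Complex.mul_re]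
    rw [e]
    have h3 : Real.log (Real.sinh y) ≤ Real.log (Real.cosh y) :=
      Real.log_le_log hs (Real.sinh_lt_cosh y).le
    have h4 : 0 ≤ Real.log (Real.cosh y) := Real.log_nonneg (Real.one_le_cosh y)
    have h5 : 0 ≤ q.re := by linarith
    nlinarith
  calc _ ≤ Real.exp (-(α * y)) * 1 :=
        mul_le_mul he h2 (norm_nonneg _) (Real.exp_pos _).le
    _ = _ := mul_one _

/-- The strip `0 < Re q < c`. -/
def strip (c : ℝ) : Set ℂ := {q : ℂ | 0 < q.re ∧ q.re < c}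

theorem isOpen_strip (c : ℝ) : IsOpen (strip c) :=
  (isOpen_lt continuous_const Complex.continuous_re).inter
    (isOpen_lt Complex.continuous_re continuous_const)

theorem strip_ball {c : ℝ} {q0 : ℂ} (h : q0 ∈ strip c) :
    ∃ r > 0, ∃ α β M : ℝ, 0 < α ∧ β < c ∧ closedBall q0 r ⊆ strip c ∧
      ∀ q ∈ closedBall q0 r, α ≤ q.re ∧ q.re ≤ β ∧ ‖q‖ ≤ M := by
  obtain ⟨h1, h2⟩ := h
  set r := min q0.re (c - q0.re) / 2 with hr
  have hm1 : min q0.re (c - q0.re) ≤ q0.re := min_le_left _ _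
  have hm2 : min q0.re (c - q0.re) ≤ c - q0.re := min_le_right _ _
  have hm : 0 < min q0.re (c - q0.re) := lt_min h1 (by linarith)
  have hr0 : 0 < r := by rw [hr]; linarith
  have key : ∀ q ∈ closedBall q0 r, |q.re - q0.re| ≤ r ∧ ‖q‖ ≤ ‖q0‖ + r := by
    intro q hq
    rw [mem_closedBall, dist_eq_norm] at hq
    constructor
    · rw [← Complex.sub_re]; exact (Complex.abs_re_le_norm _).trans hq
    · calc ‖q‖ = ‖q0 + (q - q0)‖ := by congr 1; ring
        _ ≤ ‖q0‖ + ‖q - q0‖ := norm_add_le _ _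
        _ ≤ _ := by linarith
  refine ⟨r, hr0, q0.re - r, q0.re + r, ‖q0‖ + r, by linarith, by linarith, ?_, ?_⟩
  · intro q hq
    have := (abs_le.1 (key q hq).1)
    exact ⟨by linarith, by linarith⟩
  · intro q hq
    have := (abs_le.1 (key q hq).1)
    exact ⟨by linarith, by linarith, (key q hq).2⟩

theorem continuousOn_bK : ContinuousOn bK (Ioi 0) := by
  intro y hy
  have hs := Real.sinh_pos_iff.2 (show 0 < y from hy)
  refine ContinuousAt.continuousWithinAt ?_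
  unfold bK
  exact Real.continuous_cosh.continuousAt.mul
    ((continuousAt_id.div Real.continuous_sinh.continuousAt hs.ne').pow 3)

theorem continuousOn_ofReal_log {f : ℝ → ℝ} (hf : ContinuousOn f (Ioi 0))
    (h0 : ∀ y ∈ Ioi (0 : ℝ), f y ≠ 0) :
    ContinuousOn (fun y => ((Real.log (f y) : ℝ) : ℂ)) (Ioi 0) :=
  Complex.continuous_ofReal.comp_continuousOn (hf.log h0)

theorem E3_diff (N : ℕ) : DifferentiableOn ℂ (fun q => ∫ y in Ioi (0 : ℝ), E3 N q y)
    (strip (5 / 3)) := by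
  have hlb := continuousOn_ofReal_log continuousOn_bK (fun y hy => (bK_pos hy).ne')
  have hly := continuousOn_ofReal_log continuousOn_id (fun y hy => (ne_of_gt hy))
  refine diffOn_of_dominated ?_ ?_ ?_ (isOpen_strip _)
  · refine (ae_restrict_iff' measurableSet_Ioi).2 (Eventually.of_forall fun y _ => ?_)
    unfold E3; fun_prop
  · intro q _
    refine ContinuousOn.aestronglyMeasurable ?_ measurableSet_Ioi
    unfold E3
    simp only [id] at hly
    fun_prop
  · intro q0 hq0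
    obtain ⟨r, hr, α, β, M, hα, hβ, hsub, hb⟩ := strip_ball hq0
    refine ⟨r, hr, _, ?_, hsub, (ae_restrict_iff' measurableSet_Ioi).2
      (Eventually.of_forall fun y hy q hq => norm_E3_le (N := N) (β := β) (M := M) hα (hb q hq).1
        (hb q hq).2.1 (hb q hq).2.2 hy)⟩
    exact ((pow_exp_int (by linarith) hα).add (pow_exp_int (by norm_num) hα)).const_mul _

theorem E5_diff (N : ℕ) : DifferentiableOn ℂ (fun q => ∫ y in Ioi (0 : ℝ), E5 N q y)
    (strip (7 / 3)) := by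
  have hlb := continuousOn_ofReal_log continuousOn_bK (fun y hy => (bK_pos hy).ne')
  have hly := continuousOn_ofReal_log continuousOn_id (fun y hy => (ne_of_gt hy))
  refine diffOn_of_dominated ?_ ?_ ?_ (isOpen_strip _)
  · refine (ae_restrict_iff' measurableSet_Ioi).2 (Eventually.of_forall fun y _ => ?_)
    unfold E5; fun_prop
  · intro q _
    refine ContinuousOn.aestronglyMeasurable ?_ measurableSet_Ioi
    unfold E5
    simp only [id] at hly
    fun_prop
  · intro q0 hq0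
    obtain ⟨r, hr, α, β, M, hα, hβ, hsub, hb⟩ := strip_ball hq0
    refine ⟨r, hr, _, ?_, hsub, (ae_restrict_iff' measurableSet_Ioi).2
      (Eventually.of_forall fun y hy q hq => norm_E5_le (N := N) (β := β) (M := M) hα (hb q hq).1
        (hb q hq).2.1 (hb q hq).2.2 hy)⟩
    exact ((pow_exp_int (by linarith) hα).add (pow_exp_int (by norm_num) hα)).const_mul _

theorem Eg_diff (N : ℕ) (c : ℝ) : DifferentiableOn ℂ (fun q => ∫ y in Ioi (0 : ℝ), Eg N q y)
    (strip c) := by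
  have hls := continuousOn_ofReal_log Real.continuous_sinh.continuousOn
    (fun y hy => (Real.sinh_pos_iff.2 hy).ne')
  have hlc := continuousOn_ofReal_log Real.continuous_cosh.continuousOn
    (fun y _ => (Real.cosh_pos y).ne')
  refine diffOn_of_dominated ?_ ?_ ?_ (isOpen_strip _)
  · refine (ae_restrict_iff' measurableSet_Ioi).2 (Eventually.of_forall fun y _ => ?_)
    unfold Eg; fun_prop
  · intro q _
    refine ContinuousOn.aestronglyMeasurable ?_ measurableSet_Ioi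
    unfold Eg
    fun_prop
  · intro q0 hq0
    obtain ⟨r, hr, α, β, M, hα, hβ, hsub, hb⟩ := strip_ball hq0
    refine ⟨r, hr, _, ?_, hsub, (ae_restrict_iff' measurableSet_Ioi).2
      (Eventually.of_forall fun y hy q hq => norm_Eg_le (N := N) hα (hb q hq).1 hy)⟩
    exact pow_exp_int (by norm_num) hα

end Pool.Agent.KIQ
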