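import Pool.Agent.KIQ.KERc

/-!
# KERd: continuation of the kernel identities from `(0, 1/3)`
-/

set_option autoImplicit false

open PowerSeries MeasureTheory Set Filter Topology Metric

namespace Pool.Agent.KIQ

theorem rpc_poly (f : ℝ⟦X⟧) (n : ℕ) : ∃ p : Polynomial ℝ, ∀ a : ℝ, KIM.rpc f a n = p.eval a := by
  induction n using Nat.strong_induction_on with
  | _ n ih =>
    cases n with
    | zero => exact ⟨1, fun a => by simp [KIM.rpc]⟩
    | succ n =>
      have h : ∀ i : Fin (n + 1), ∃ p : Polynomial ℝ, ∀ a : ℝ, KIM.rpc f a (i : ℕ) = p.eval a :=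
        fun i => ih i i.2
      choose p hp using h
      refine ⟨(∑ i : Fin (n + 1), (Polynomial.X * Polynomial.C (((n + 1 - (i : ℕ) : ℕ) : ℝ)) -
        Polynomial.C ((i : ℕ) : ℝ)) * Polynomial.C (coeff (n + 1 - (i : ℕ)) f) * p i) *
        Polynomial.C ((n : ℝ) + 1)⁻¹, fun a => ?_⟩
      rw [KIM.rpc]
      simp only [Polynomial.eval_mul, Polynomial.eval_finsetSum, Polynomial.eval_sub,
        Polynomial.eval_X, Polynomial.eval_C, hp, div_eq_mul_inv]

theorem cN_poly (N : ℕ) : ∃ p : Polynomial ℝ, ∀ q : ℝ, cN q N = p.eval q := by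
  choose p1 hp1 using fun n => rpc_poly (1 + X : ℝ⟦X⟧) n
  choose p2 hp2 using fun n => rpc_poly (1 - X : ℝ⟦X⟧) n
  refine ⟨∑ ij ∈ Finset.HasAntidiagonal.antidiagonal N, p1 ij.1 *
    (p2 ij.2).comp (-(Polynomial.C 3 * Polynomial.X)), fun q => ?_⟩
  unfold cN KIM.Kq KIM.bin KIM.rp
  rw [coeff_mul]
  simp only [coeff_mk, Polynomial.eval_finsetSum, Polynomial.eval_mul, Polynomial.eval_comp,
    Polynomial.eval_neg, Polynomial.eval_C, Polynomial.eval_X, hp1, hp2]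

/-- Complex evaluation of a real polynomial. -/
theorem eval_ofReal (p : Polynomial ℝ) (t : ℝ) :
    (p.map (algebraMap ℝ ℂ)).eval (t : ℂ) = ((p.eval t : ℝ) : ℂ) := by
  have := Polynomial.eval_map_algebraMap p (t : ℂ)
  rw [this]
  exact Polynomial.aeval_algebraMap_apply_eq_algebraMap_eval t p

theorem exp_ofReal_cast (N : ℕ) (q y : ℝ) :
    Complex.exp (-((2 * N + 2 * (q : ℂ)) * y)) = ((Real.exp (-(aN q N * y)) : ℝ) : ℂ) := by
  rw [Complex.ofReal_exp]; congr 1; unfold aN; push_cast; ring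

theorem E3_ofReal (N : ℕ) (q : ℝ) {y : ℝ} (hy : 0 < y) :
    E3 N (q : ℂ) y = ((Real.exp (-(aN q N * y)) * (y ^ (-(3 * q)) - hK q y) : ℝ) : ℂ) := by
  have hb := bK_pos hy
  rw [E3, exp_ofReal_cast, hK_eq hy, Real.rpow_def_of_pos hy, Real.rpow_def_of_pos hb]
  push_cast
  have e1 : -(3 * (q : ℂ) * (Real.log y : ℂ)) = (Real.log y : ℂ) * -(3 * (q : ℂ)) := by ring
  have e2 : (q : ℂ) * (Real.log (bK y) : ℂ) = (Real.log (bK y) : ℂ) * (q : ℂ) := by ring
  rw [e1, e2]; ring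

theorem E5_ofReal (N : ℕ) (q : ℝ) {y : ℝ} (hy : 0 < y) :
    E5 N (q : ℂ) y = ((Real.exp (-(aN q N * y)) *
      (y ^ (-(3 * q)) - q / 15 * y ^ (4 - 3 * q) - hK q y) : ℝ) : ℂ) := by
  have hb := bK_pos hy
  have e4 : y ^ (4 - 3 * q) = y ^ (-(3 * q)) * y ^ 4 := by
    rw [← Real.rpow_natCast, ← Real.rpow_add hy]; congr 1; push_cast; ring
  rw [E5, exp_ofReal_cast, hK_eq hy, e4, Real.rpow_def_of_pos hy, Real.rpow_def_of_pos hb]
  push_cast
  have e1 : -(3 * (q : ℂ) * (Real.log y : ℂ)) = (Real.log y : ℂ) * -(3 * (q : ℂ)) := by ring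
  have e2 : (q : ℂ) * (Real.log (bK y) : ℂ) = (Real.log (bK y) : ℂ) * (q : ℂ) := by ring
  rw [e1, e2]; ring

theorem Eg_ofReal (N : ℕ) (q : ℝ) {y : ℝ} (hy : 0 < y) :
    Eg N (q : ℂ) y = ((Real.exp (-(aN q N * y)) * gK q y : ℝ) : ℂ) := by
  have hs := Real.sinh_pos_iff.2 hy
  have hc := Real.cosh_pos y
  rw [Eg, exp_ofReal_cast, gK, Real.rpow_def_of_pos hs, Real.rpow_def_of_pos hc]
  push_cast
  have e : Complex.exp ((Real.log (Real.sinh y) : ℂ) * (q : ℂ)) *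
      Complex.exp ((Real.log (Real.cosh y) : ℂ) * -(3 * (q : ℂ))) =
      Complex.exp (q * (Real.log (Real.sinh y) : ℂ) - 3 * q * (Real.log (Real.cosh y) : ℂ)) := by
    rw [← Complex.exp_add]; congr 1; ring
  rw [e]

theorem int_E3 (N : ℕ) (q : ℝ) : ∫ y in Ioi (0 : ℝ), E3 N (q : ℂ) y =
    ((∫ y in Ioi (0 : ℝ), Real.exp (-(aN q N * y)) * (y ^ (-(3 * q)) - hK q y) : ℝ) : ℂ) := by
  rw [← integral_complex_ofReal]
  exact setIntegral_congr_fun measurableSet_Ioi fun y hy => E3_ofReal N q hy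

theorem int_E5 (N : ℕ) (q : ℝ) : ∫ y in Ioi (0 : ℝ), E5 N (q : ℂ) y =
    ((∫ y in Ioi (0 : ℝ), Real.exp (-(aN q N * y)) *
      (y ^ (-(3 * q)) - q / 15 * y ^ (4 - 3 * q) - hK q y) : ℝ) : ℂ) := by
  rw [← integral_complex_ofReal]
  exact setIntegral_congr_fun measurableSet_Ioi fun y hy => E5_ofReal N q hy

theorem int_Eg (N : ℕ) (q : ℝ) : ∫ y in Ioi (0 : ℝ), Eg N (q : ℂ) y =
    ((∫ y in Ioi (0 : ℝ), Real.exp (-(aN q N * y)) * gK q y : ℝ) : ℂ) := by
  rw [← integral_complex_ofReal]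
  exact setIntegral_congr_fun measurableSet_Ioi fun y hy => Eg_ofReal N q hy

theorem preconn_strip (c : ℝ) : IsPreconnected (strip c) := by
  have : Convex ℝ (strip c) :=
    (convex_halfSpace_re_gt 0).inter (convex_halfSpace_re_lt c)
  exact this.isPreconnected

/-- Identity theorem on the strip from the real interval `(0, 1/3)`. -/
theorem eq_of_eq_small {c : ℝ} (hc : 1 / 3 < c) {f g : ℂ → ℂ} (hf : DifferentiableOn ℂ f (strip c))
    (hg : DifferentiableOn ℂ g (strip c))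
    (h : ∀ t : ℝ, 0 < t → t < 1 / 3 → f (t : ℂ) = g (t : ℂ)) {q : ℝ} (h0 : 0 < q) (h1 : q < c) :
    f (q : ℂ) = g (q : ℂ) := by
  have hf' := hf.analyticOnNhd (isOpen_strip c)
  have hg' := hg.analyticOnNhd (isOpen_strip c)
  have hz0 : ((1 / 6 : ℝ) : ℂ) ∈ strip c := by
    refine ⟨?_, ?_⟩
    · rw [Complex.ofReal_re]; norm_num
    · rw [Complex.ofReal_re]; linarith
  refine hf'.eqOn_of_preconnected_of_frequently_eq hg' (preconn_strip c) hz0 ?_ ?_
  · have ht : Tendsto (fun t : ℝ => (t : ℂ)) (𝓝[≠] (1 / 6 : ℝ)) (𝓝[≠] ((1 / 6 : ℝ) : ℂ)) := by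
      refine tendsto_nhdsWithin_iff.2 ⟨?_, ?_⟩
      · exact (Complex.continuous_ofReal.tendsto _).mono_left nhdsWithin_le_nhds
      · filter_upwards [self_mem_nhdsWithin] with t ht
        exact fun h => ht (Complex.ofReal_injective h)
    have hev : ∀ᶠ t : ℝ in 𝓝[≠] (1 / 6 : ℝ), f (t : ℂ) = g (t : ℂ) := by
      have : Ioo (0 : ℝ) (1 / 3) ∈ 𝓝 (1 / 6 : ℝ) := Ioo_mem_nhds (by norm_num) (by norm_num)
      filter_upwards [nhdsWithin_le_nhds this] with t ht
      exact h t ht.1 ht.2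
    exact ht.frequently hev.frequently
  · exact ⟨by rw [Complex.ofReal_re]; exact h0, by rw [Complex.ofReal_re]; exact h1⟩

/-- The factor `(2 N + 2 q) ^ (e q + d)` is holomorphic on the strip. -/
theorem cpow_diff (N : ℕ) (c e d : ℝ) :
    DifferentiableOn ℂ (fun q : ℂ => (2 * N + 2 * q) ^ ((e : ℂ) * q + d)) (strip c) := by
  intro q hq
  have h1 : 0 < (2 * (N : ℂ) + 2 * q).re := by
    have h2 : (2 * (N : ℂ) + 2 * q).re = 2 * N + 2 * q.re := by simp
    rw [h2]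
    have := hq.1
    positivity
  have hs : (2 * (N : ℂ) + 2 * q) ∈ Complex.slitPlane := Complex.mem_slitPlane_iff.2 (Or.inl h1)
  have hf : DifferentiableAt ℂ (fun q : ℂ => 2 * (N : ℂ) + 2 * q) q := by fun_prop
  have hg : DifferentiableAt ℂ (fun q : ℂ => (e : ℂ) * q + d) q := by fun_prop
  exact (hf.cpow hg hs).differentiableWithinAt

theorem gamma_diff (c : ℝ) :
    DifferentiableOn ℂ (fun q : ℂ => (Complex.Gamma (3 * q))⁻¹) (strip c) := by
  have := Complex.differentiable_one_div_Gamma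
  intro q _
  exact ((this (3 * q)).comp q (by fun_prop : DifferentiableAt ℂ (fun q : ℂ => 3 * q) q)).differentiableWithinAt

theorem aN_cast (N : ℕ) {q : ℝ} (hq : 0 < q) (e d : ℝ) :
    (2 * (N : ℂ) + 2 * (q : ℂ)) ^ ((e : ℂ) * (q : ℂ) + (d : ℂ)) =
      ((aN q N ^ (e * q + d) : ℝ) : ℂ) := by
  have h : 0 ≤ aN q N := by unfold aN; positivity
  rw [Complex.ofReal_cpow h]
  unfold aN; push_cast; rfl

theorem kernel3_of (H : ∀ q : ℝ, 0 < q → q < 1 / 3 → ∀ N : ℕ,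
    (2 : ℝ) ^ (2 * q - 1) * cN q N = aN q N ^ (3 * q - 1) / Real.Gamma (3 * q) -
      Real.sin (3 * Real.pi * q) / Real.pi *
        (∫ y in Ioi (0 : ℝ), Real.exp (-(aN q N * y)) * (y ^ (-(3 * q)) - hK q y)) -
      (-1) ^ N * (Real.sin (Real.pi * q) / Real.pi) *
        (∫ y in Ioi (0 : ℝ), Real.exp (-(aN q N * y)) * gK q y))
    (q : ℝ) (h0 : 0 < q) (h1 : q < 5 / 3) (N : ℕ) :
    (2 : ℝ) ^ (2 * q - 1) * cN q N = aN q N ^ (3 * q - 1) / Real.Gamma (3 * q) -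
      Real.sin (3 * Real.pi * q) / Real.pi *
        (∫ y in Ioi (0 : ℝ), Real.exp (-(aN q N * y)) * (y ^ (-(3 * q)) - hK q y)) -
      (-1) ^ N * (Real.sin (Real.pi * q) / Real.pi) *
        (∫ y in Ioi (0 : ℝ), Real.exp (-(aN q N * y)) * gK q y) := by
  obtain ⟨p, hp⟩ := cN_poly N
  set f : ℂ → ℂ := fun q => (2 : ℂ) ^ (2 * q - 1) * (p.map (algebraMap ℝ ℂ)).eval q with hf
  set g : ℂ → ℂ := fun q => (2 * N + 2 * q) ^ (((3 : ℝ) : ℂ) * q + ((-1 : ℝ) : ℂ)) *
      (Complex.Gamma (3 * q))⁻¹ - Complex.sin (3 * Real.pi * q) / Real.pi *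
        (∫ y in Ioi (0 : ℝ), E3 N q y) -
      (-1) ^ N * (Complex.sin (Real.pi * q) / Real.pi) * (∫ y in Ioi (0 : ℝ), Eg N q y) with hg
  have hfd : DifferentiableOn ℂ f (strip (5 / 3)) := by
    have h2 : Differentiable ℂ fun q : ℂ => (2 : ℂ) ^ (2 * q - 1) := by
      intro q
      exact DifferentiableAt.const_cpow (by fun_prop) (Or.inl (by norm_num))
    exact (h2.mul (Polynomial.differentiable _)).differentiableOn
  have hgd : DifferentiableOn ℂ g (strip (5 / 3)) := by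
    refine (((cpow_diff N _ 3 (-1)).mul (gamma_diff _)).sub
      (DifferentiableOn.mul (by fun_prop) (E3_diff N))).sub
      (DifferentiableOn.mul (by fun_prop) (Eg_diff N _))
  have cast_f : ∀ t : ℝ, f (t : ℂ) = (((2 : ℝ) ^ (2 * t - 1) * cN t N : ℝ) : ℂ) := by
    intro t
    simp only [hf]
    rw [eval_ofReal, hp, Complex.ofReal_mul, Complex.ofReal_cpow (by norm_num)]
    push_cast; rfl
  have cast_g : ∀ t : ℝ, 0 < t → g (t : ℂ) = ((aN t N ^ (3 * t - 1) / Real.Gamma (3 * t) -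
      Real.sin (3 * Real.pi * t) / Real.pi *
        (∫ y in Ioi (0 : ℝ), Real.exp (-(aN t N * y)) * (y ^ (-(3 * t)) - hK t y)) -
      (-1) ^ N * (Real.sin (Real.pi * t) / Real.pi) *
        (∫ y in Ioi (0 : ℝ), Real.exp (-(aN t N * y)) * gK t y) : ℝ) : ℂ) := by
    intro t ht
    simp only [hg]
    rw [aN_cast N ht, int_E3, int_Eg, show (3 : ℂ) * (t : ℂ) = ((3 * t : ℝ) : ℂ) by push_cast; rfl,
      Complex.Gamma_ofReal]
    rw [show (3 : ℝ) * t + -1 = 3 * t - 1 by ring]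
    push_cast
    ring
  have key := eq_of_eq_small (by norm_num) hfd hgd (fun t h0 h1 => by
    rw [cast_f, cast_g t h0, H t h0 h1 N]) h0 h1
  rw [cast_f, cast_g q h0] at key
  exact_mod_cast key

theorem kernel5_of (H : ∀ q : ℝ, 0 < q → q < 1 / 3 → ∀ N : ℕ,
    (2 : ℝ) ^ (2 * q - 1) * cN q N = aN q N ^ (3 * q - 1) / Real.Gamma (3 * q) -
      q / 15 * ((3 * q - 1) * (3 * q - 2) * (3 * q - 3) * (3 * q - 4)) *
        aN q N ^ (3 * q - 5) / Real.Gamma (3 * q) -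
      Real.sin (3 * Real.pi * q) / Real.pi *
        (∫ y in Ioi (0 : ℝ), Real.exp (-(aN q N * y)) *
          (y ^ (-(3 * q)) - q / 15 * y ^ (4 - 3 * q) - hK q y)) -
      (-1) ^ N * (Real.sin (Real.pi * q) / Real.pi) *
        (∫ y in Ioi (0 : ℝ), Real.exp (-(aN q N * y)) * gK q y))
    (q : ℝ) (h0 : 0 < q) (h1 : q < 7 / 3) (N : ℕ) :
    (2 : ℝ) ^ (2 * q - 1) * cN q N = aN q N ^ (3 * q - 1) / Real.Gamma (3 * q) -
      q / 15 * ((3 * q - 1) * (3 * q - 2) * (3 * q - 3) * (3 * q - 4)) *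
        aN q N ^ (3 * q - 5) / Real.Gamma (3 * q) -
      Real.sin (3 * Real.pi * q) / Real.pi *
        (∫ y in Ioi (0 : ℝ), Real.exp (-(aN q N * y)) *
          (y ^ (-(3 * q)) - q / 15 * y ^ (4 - 3 * q) - hK q y)) -
      (-1) ^ N * (Real.sin (Real.pi * q) / Real.pi) *
        (∫ y in Ioi (0 : ℝ), Real.exp (-(aN q N * y)) * gK q y) := by
  obtain ⟨p, hp⟩ := cN_poly N
  set f : ℂ → ℂ := fun q => (2 : ℂ) ^ (2 * q - 1) * (p.map (algebraMap ℝ ℂ)).eval q with hf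
  set g : ℂ → ℂ := fun q => (2 * N + 2 * q) ^ (((3 : ℝ) : ℂ) * q + ((-1 : ℝ) : ℂ)) *
      (Complex.Gamma (3 * q))⁻¹ -
      (q / 15 * ((3 * q - 1) * (3 * q - 2) * (3 * q - 3) * (3 * q - 4))) *
      ((2 * N + 2 * q) ^ (((3 : ℝ) : ℂ) * q + ((-5 : ℝ) : ℂ)) *
      (Complex.Gamma (3 * q))⁻¹) - Complex.sin (3 * Real.pi * q) / Real.pi *
        (∫ y in Ioi (0 : ℝ), E5 N q y) -
      (-1) ^ N * (Complex.sin (Real.pi * q) / Real.pi) * (∫ y in Ioi (0 : ℝ), Eg N q y) with hg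
  have hfd : DifferentiableOn ℂ f (strip (7 / 3)) := by
    have h2 : Differentiable ℂ fun q : ℂ => (2 : ℂ) ^ (2 * q - 1) := by
      intro q
      exact DifferentiableAt.const_cpow (by fun_prop) (Or.inl (by norm_num))
    exact (h2.mul (Polynomial.differentiable _)).differentiableOn
  have hgd : DifferentiableOn ℂ g (strip (7 / 3)) := by
    refine ((((cpow_diff N _ 3 (-1)).mul (gamma_diff _)).sub
      (DifferentiableOn.mul (by fun_prop) ((cpow_diff N _ 3 (-5)).mul (gamma_diff _)))).sub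
      (DifferentiableOn.mul (by fun_prop) (E5_diff N))).sub
      (DifferentiableOn.mul (by fun_prop) (Eg_diff N _))
  have cast_f : ∀ t : ℝ, f (t : ℂ) = (((2 : ℝ) ^ (2 * t - 1) * cN t N : ℝ) : ℂ) := by
    intro t
    simp only [hf]
    rw [eval_ofReal, hp, Complex.ofReal_mul, Complex.ofReal_cpow (by norm_num)]
    push_cast; rfl
  have cast_g : ∀ t : ℝ, 0 < t → g (t : ℂ) = ((aN t N ^ (3 * t - 1) / Real.Gamma (3 * t) -
      t / 15 * ((3 * t - 1) * (3 * t - 2) * (3 * t - 3) * (3 * t - 4)) *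
        aN t N ^ (3 * t - 5) / Real.Gamma (3 * t) -
      Real.sin (3 * Real.pi * t) / Real.pi *
        (∫ y in Ioi (0 : ℝ), Real.exp (-(aN t N * y)) *
          (y ^ (-(3 * t)) - t / 15 * y ^ (4 - 3 * t) - hK t y)) -
      (-1) ^ N * (Real.sin (Real.pi * t) / Real.pi) *
        (∫ y in Ioi (0 : ℝ), Real.exp (-(aN t N * y)) * gK t y) : ℝ) : ℂ) := by
    intro t ht
    simp only [hg]
    rw [aN_cast N ht, aN_cast N ht, int_E5, int_Eg,
      show (Complex.Gamma (3 * (t : ℂ))) = ((Real.Gamma (3 * t) : ℝ) : ℂ) by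
        rw [← Complex.Gamma_ofReal]; push_cast; rfl]
    rw [show (3 : ℝ) * t + -1 = 3 * t - 1 by ring, show (3 : ℝ) * t + -5 = 3 * t - 5 by ring]
    push_cast
    ring
  have key := eq_of_eq_small (by norm_num) hfd hgd (fun t h0 h1 => by
    rw [cast_f, cast_g t h0, H t h0 h1 N]) h0 h1
  rw [cast_f, cast_g q h0] at key
  exact_mod_cast key

/-- The two identities on `(0, 1/3)` from the basic identity. -/
theorem small_of_kernel0 (H : ∀ q : ℝ, 0 < q → q < 1 / 3 → ∀ N : ℕ,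
    (2 : ℝ) ^ (2 * q - 1) * cN q N = Real.sin (3 * Real.pi * q) / Real.pi *
        (∫ y in Ioi (0 : ℝ), Real.exp (-(aN q N * y)) * hK q y) -
      (-1) ^ N * (Real.sin (Real.pi * q) / Real.pi) *
        (∫ y in Ioi (0 : ℝ), Real.exp (-(aN q N * y)) * gK q y))
    (q : ℝ) (h0 : 0 < q) (h1 : q < 1 / 3) (N : ℕ) :
    ((2 : ℝ) ^ (2 * q - 1) * cN q N = aN q N ^ (3 * q - 1) / Real.Gamma (3 * q) -
      Real.sin (3 * Real.pi * q) / Real.pi *
        (∫ y in Ioi (0 : ℝ), Real.exp (-(aN q N * y)) * (y ^ (-(3 * q)) - hK q y)) -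
      (-1) ^ N * (Real.sin (Real.pi * q) / Real.pi) *
        (∫ y in Ioi (0 : ℝ), Real.exp (-(aN q N * y)) * gK q y)) ∧
    ((2 : ℝ) ^ (2 * q - 1) * cN q N = aN q N ^ (3 * q - 1) / Real.Gamma (3 * q) -
      q / 15 * ((3 * q - 1) * (3 * q - 2) * (3 * q - 3) * (3 * q - 4)) *
        aN q N ^ (3 * q - 5) / Real.Gamma (3 * q) -
      Real.sin (3 * Real.pi * q) / Real.pi *
        (∫ y in Ioi (0 : ℝ), Real.exp (-(aN q N * y)) *
          (y ^ (-(3 * q)) - q / 15 * y ^ (4 - 3 * q) - hK q y)) -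
      (-1) ^ N * (Real.sin (Real.pi * q) / Real.pi) *
        (∫ y in Ioi (0 : ℝ), Real.exp (-(aN q N * y)) * gK q y)) := by
  have ha : 0 < aN q N := by unfold aN; positivity
  have hq3 : 0 < 1 - 3 * q := by linarith
  -- the power integrals
  have hpow : ∀ e : ℝ, -1 < e → ∫ y in Ioi (0 : ℝ), Real.exp (-(aN q N * y)) * y ^ e =
      Real.Gamma (e + 1) * aN q N ^ (-(e + 1)) := by
    intro e he
    have h := Real.integral_rpow_mul_exp_neg_mul_Ioi (a := e + 1) (r := aN q N) (by linarith) ha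
    rw [add_sub_cancel_right] at h
    have h2 : ∫ y in Ioi (0 : ℝ), Real.exp (-(aN q N * y)) * y ^ e =
        ∫ t in Ioi (0 : ℝ), t ^ e * Real.exp (-(aN q N * t)) :=
      setIntegral_congr_fun measurableSet_Ioi fun y _ => mul_comm _ _
    rw [h2, h, one_div, Real.inv_rpow ha.le, ← Real.rpow_neg ha.le, mul_comm]
  have hi0 : IntegrableOn (fun y : ℝ => Real.exp (-(aN q N * y)) * y ^ (-(3 * q))) (Ioi 0) :=
    pow_exp_int (by linarith) ha
  have hi4 : IntegrableOn (fun y : ℝ => Real.exp (-(aN q N * y)) * y ^ (4 - 3 * q)) (Ioi 0) :=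
    pow_exp_int (by linarith) ha
  have hi3 := kernel3_int q h0 (by linarith) (aN q N) ha
  have hih : IntegrableOn (fun y : ℝ => Real.exp (-(aN q N * y)) * hK q y) (Ioi 0) := by
    have := hi0.sub hi3
    refine this.congr (Eventually.of_forall fun y => ?_)
    simp only [Pi.sub_apply]; ring
  have e3 : ∫ y in Ioi (0 : ℝ), Real.exp (-(aN q N * y)) * (y ^ (-(3 * q)) - hK q y) =
      Real.Gamma (1 - 3 * q) * aN q N ^ (3 * q - 1) -
        ∫ y in Ioi (0 : ℝ), Real.exp (-(aN q N * y)) * hK q y := by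
    have h := hpow (-(3 * q)) (by linarith)
    rw [show -(3 * q) + 1 = 1 - 3 * q by ring, show -(1 - 3 * q) = 3 * q - 1 by ring] at h
    rw [← h, ← integral_sub hi0 hih]
    refine integral_congr_ae (Eventually.of_forall fun y => ?_)
    simp only; ring
  have e5 : ∫ y in Ioi (0 : ℝ), Real.exp (-(aN q N * y)) *
      (y ^ (-(3 * q)) - q / 15 * y ^ (4 - 3 * q) - hK q y) =
      Real.Gamma (1 - 3 * q) * aN q N ^ (3 * q - 1) -
        (∫ y in Ioi (0 : ℝ), Real.exp (-(aN q N * y)) * hK q y) -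
        q / 15 * (Real.Gamma (5 - 3 * q) * aN q N ^ (3 * q - 5)) := by
    have h := hpow (4 - 3 * q) (by linarith)
    rw [show 4 - 3 * q + 1 = 5 - 3 * q by ring, show -(5 - 3 * q) = 3 * q - 5 by ring] at h
    rw [← e3, ← h, ← integral_const_mul, ← integral_sub hi3 (hi4.const_mul _)]
    refine integral_congr_ae (Eventually.of_forall fun y => ?_)
    simp only; ring
  -- reflection
  have hG0 : Real.Gamma (3 * q) ≠ 0 := (Real.Gamma_pos_of_pos (by linarith)).ne'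
  have hG1 : Real.Gamma (1 - 3 * q) ≠ 0 := (Real.Gamma_pos_of_pos hq3).ne'
  have hrefl := Real.Gamma_mul_Gamma_one_sub (3 * q)
  have hsin : 0 < Real.sin (Real.pi * (3 * q)) :=
    Real.sin_pos_of_pos_of_lt_pi (by positivity) (by nlinarith [Real.pi_pos])
  have hs : Real.sin (3 * Real.pi * q) / Real.pi * Real.Gamma (1 - 3 * q) =
      1 / Real.Gamma (3 * q) := by
    have e : 3 * Real.pi * q = Real.pi * (3 * q) := by ring
    rw [e]
    have hpi := Real.pi_pos.ne'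
    rw [eq_div_iff hG0]
    have h2 : Real.Gamma (3 * q) * Real.Gamma (1 - 3 * q) * Real.sin (Real.pi * (3 * q)) =
        Real.pi := by
      rw [hrefl, div_mul_cancel₀ _ hsin.ne']
    calc _ = (Real.Gamma (3 * q) * Real.Gamma (1 - 3 * q) * Real.sin (Real.pi * (3 * q))) /
        Real.pi := by ring
      _ = 1 := by rw [h2, div_self hpi]
  have hG5 : Real.Gamma (5 - 3 * q) =
      (4 - 3 * q) * ((3 - 3 * q) * ((2 - 3 * q) * ((1 - 3 * q) * Real.Gamma (1 - 3 * q)))) := by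
    rw [show 5 - 3 * q = (4 - 3 * q) + 1 by ring, Real.Gamma_add_one (by linarith),
      show 4 - 3 * q = (3 - 3 * q) + 1 by ring, Real.Gamma_add_one (by linarith),
      show 3 - 3 * q = (2 - 3 * q) + 1 by ring, Real.Gamma_add_one (by linarith),
      show 2 - 3 * q = (1 - 3 * q) + 1 by ring, Real.Gamma_add_one (by linarith)]
  have hk := H q h0 h1 N
  constructor
  · rw [hk, e3, div_eq_mul_one_div (aN q N ^ (3 * q - 1)), ← hs]
    ring
  · rw [hk, e5, hG5, div_eq_mul_one_div (aN q N ^ (3 * q - 1)),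
      div_eq_mul_one_div (q / 15 * ((3 * q - 1) * (3 * q - 2) * (3 * q - 3) * (3 * q - 4)) *
        aN q N ^ (3 * q - 5)), ← hs]
    ring

end Pool.Agent.KIQ
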