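import Pool.Agent.KIQ.LZI

/-!
# KERi: integrability of the kernels
-/

set_option autoImplicit false

open MeasureTheory Set

namespace Pool.Agent.KIQ

/-- `b(y) = cosh y (y / sinh y)^3`. -/
noncomputable def bK (y : ℝ) : ℝ := Real.cosh y * (y / Real.sinh y) ^ 3

theorem bK_pos {y : ℝ} (hy : 0 < y) : 0 < bK y := by
  have := Real.sinh_pos_iff.2 hy
  have := Real.cosh_pos y
  unfold bK; positivity

theorem hK_eq {q y : ℝ} (hy : 0 < y) : hK q y = y ^ (-(3 * q)) * bK y ^ q := by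
  have hs := Real.sinh_pos_iff.2 hy
  have hc := Real.cosh_pos y
  unfold hK bK
  rw [Real.mul_rpow hc.le (by positivity), ← Real.rpow_natCast, ← Real.rpow_mul (by positivity),
    Real.div_rpow hy.le hs.le, Real.rpow_neg hs.le, Real.rpow_neg hy.le]
  have h3 : ((3 : ℕ) : ℝ) * q = 3 * q := by norm_num
  rw [h3]
  have h1 : 0 < y ^ (3 * q) := Real.rpow_pos_of_pos hy _
  have h2 : 0 < Real.sinh y ^ (3 * q) := Real.rpow_pos_of_pos hs _
  field_simp

theorem bK_le_one {y : ℝ} (hy : 0 < y) : bK y ≤ 1 := by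
  have hs := Real.sinh_pos_iff.2 hy
  have h := cosh_mul_le hy
  unfold bK
  rw [div_pow, ← mul_div_assoc, div_le_one (by positivity)]
  exact h

theorem le_bK {y : ℝ} (hy : 0 < y) : 1 - y ^ 4 / 15 ≤ bK y := by
  have hs := Real.sinh_pos_iff.2 hy
  have h := cosh_mul_ge hy
  unfold bK
  rw [div_pow, ← mul_div_assoc, le_div_iff₀ (by positivity)]
  exact h

theorem bK_le {y : ℝ} (hy : 0 < y) (hy1 : y ≤ 4 / 3) :
    bK y ≤ 1 - y ^ 4 / 15 + y ^ 6 / 40 := by
  have hs := Real.sinh_pos_iff.2 hy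
  have h := cosh_mul_le' hy hy1
  unfold bK
  rw [div_pow, ← mul_div_assoc, div_le_iff₀ (by positivity)]
  exact h

/-- `0 ≤ 1 - b^q ≤ max 1 q y^4 / 15`. -/
theorem one_sub_bK_rpow {q y : ℝ} (hq : 0 < q) (hy : 0 < y) :
    0 ≤ 1 - bK y ^ q ∧ 1 - bK y ^ q ≤ max 1 q * (y ^ 4 / 15) := by
  have h0 := bK_pos hy
  have h1 := bK_le_one hy
  have h2 := le_bK hy
  constructor
  · have := Real.rpow_le_one h0.le h1 hq.le
    linarith
  · rcases le_total q 1 with hq1 | hq1
    · rw [max_eq_left hq1, one_mul]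
      have := Real.rpow_le_rpow_of_exponent_ge h0 h1 hq1
      rw [Real.rpow_one] at this
      linarith
    · rw [max_eq_right hq1]
      have h3 := one_add_mul_self_le_rpow_one_add (show (-1 : ℝ) ≤ bK y - 1 by linarith) hq1
      rw [add_sub_cancel] at h3
      nlinarith

theorem abs_kernel3_le {q y : ℝ} (hq : 0 < q) (hy : 0 < y) :
    |y ^ (-(3 * q)) - hK q y| ≤ max 1 q / 15 * y ^ (4 - 3 * q) := by
  obtain ⟨h1, h2⟩ := one_sub_bK_rpow hq hy
  rw [hK_eq hy]
  have h3 : 0 < y ^ (-(3 * q)) := Real.rpow_pos_of_pos hy _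
  have h4 : y ^ (4 - 3 * q) = y ^ (-(3 * q)) * y ^ 4 := by
    rw [← Real.rpow_natCast, ← Real.rpow_add hy]; congr 1; push_cast; ring
  rw [h4, show y ^ (-(3 * q)) - y ^ (-(3 * q)) * bK y ^ q = y ^ (-(3 * q)) * (1 - bK y ^ q) by
    ring, abs_of_nonneg (mul_nonneg h3.le h1)]
  calc _ ≤ y ^ (-(3 * q)) * (max 1 q * (y ^ 4 / 15)) := mul_le_mul_of_nonneg_left h2 h3.le
    _ = _ := by ring

/-- Second order bound. -/
theorem rpow_second {q x : ℝ} (hq : 0 < q) (hx0 : 1 / 2 ≤ x) (hx1 : x ≤ 1) :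
    |x ^ q - 1 + q * (1 - x)| ≤ 2 * (q * |q - 1|) * (1 - x) ^ 2 := by
  have hx : 0 < x := by linarith
  have hd : 0 < x + q * (1 - x) := by
    have : 0 ≤ q * (1 - x) := mul_nonneg hq.le (by linarith)
    linarith
  have hd2 : 1 / 2 ≤ x + q * (1 - x) := by
    have : 0 ≤ q * (1 - x) := mul_nonneg hq.le (by linarith)
    linarith
  have hinv : x ^ q = (x⁻¹ ^ q)⁻¹ := by rw [Real.inv_rpow hx.le, inv_inv]
  have hxi : 1 ≤ x⁻¹ := (one_le_inv₀ hx).2 hx1
  have hpos : 0 < x⁻¹ ^ q := by positivity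
  have e1 : (1 + q * (x⁻¹ - 1))⁻¹ = x / (x + q * (1 - x)) := by
    have : 1 + q * (x⁻¹ - 1) = (x + q * (1 - x)) / x := by field_simp
    rw [this, inv_div]
  have e2 : x / (x + q * (1 - x)) - 1 + q * (1 - x) =
      q * (q - 1) * (1 - x) ^ 2 / (x + q * (1 - x)) := by
    field_simp; ring
  have hb : |q * (q - 1) * (1 - x) ^ 2 / (x + q * (1 - x))| ≤
      2 * (q * |q - 1|) * (1 - x) ^ 2 := by
    rw [abs_div, abs_mul, abs_mul, abs_of_pos hq, abs_of_pos hd, abs_of_nonneg (sq_nonneg (1 - x)),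
      div_le_iff₀ hd]
    have : 0 ≤ q * |q - 1| * (1 - x) ^ 2 := by positivity
    nlinarith
  rcases le_total q 1 with hq1 | hq1
  · have a1 : x ^ q ≤ 1 + q * (x - 1) := by
      have := rpow_one_add_le_one_add_mul_self (show (-1 : ℝ) ≤ x - 1 by linarith) hq.le hq1
      rwa [add_sub_cancel] at this
    have a2 : x / (x + q * (1 - x)) ≤ x ^ q := by
      have := rpow_one_add_le_one_add_mul_self (show (-1 : ℝ) ≤ x⁻¹ - 1 by linarith) hq.le hq1
      rw [add_sub_cancel] at this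
      rw [← e1, hinv]
      exact inv_anti₀ hpos this
    have a3 : q * (q - 1) * (1 - x) ^ 2 / (x + q * (1 - x)) ≤ x ^ q - 1 + q * (1 - x) := by
      linarith
    have a4 : x ^ q - 1 + q * (1 - x) ≤ 0 := by nlinarith
    rw [abs_of_nonpos a4]
    have := (abs_le.1 hb).1
    linarith
  · have a1 : 1 + q * (x - 1) ≤ x ^ q := by
      have := one_add_mul_self_le_rpow_one_add (show (-1 : ℝ) ≤ x - 1 by linarith) hq1
      rwa [add_sub_cancel] at this
    have a2 : x ^ q ≤ x / (x + q * (1 - x)) := by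
      have := one_add_mul_self_le_rpow_one_add (show (-1 : ℝ) ≤ x⁻¹ - 1 by linarith) hq1
      rw [add_sub_cancel] at this
      rw [← e1, hinv]
      refine inv_anti₀ ?_ this
      have : 0 ≤ q * (x⁻¹ - 1) := mul_nonneg hq.le (by linarith)
      linarith
    have a3 : x ^ q - 1 + q * (1 - x) ≤ q * (q - 1) * (1 - x) ^ 2 / (x + q * (1 - x)) := by
      linarith
    have a4 : 0 ≤ x ^ q - 1 + q * (1 - x) := by nlinarith
    rw [abs_of_nonneg a4]
    have := (abs_le.1 hb).2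
    linarith

/-- `C(q)`: the constant in the bounds of the second kernel. -/
noncomputable def cK (q : ℝ) : ℝ := q / 40 + 2 * (q * |q - 1|)

theorem abs_kernel5_le {q y : ℝ} (hq : 0 < q) (hy : 0 < y) (hy1 : y ≤ 1) :
    |y ^ (-(3 * q)) - q / 15 * y ^ (4 - 3 * q) - hK q y| ≤ cK q * y ^ (6 - 3 * q) := by
  have h0 := bK_pos hy
  have h1 := bK_le_one hy
  have h2 := le_bK hy
  have h3 := bK_le hy (by linarith)
  have hy4 : y ^ 4 ≤ 1 := pow_le_one₀ hy.le hy1
  have h5 := rpow_second hq (show 1 / 2 ≤ bK y by linarith) h1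
  have h6 : 0 < y ^ (-(3 * q)) := Real.rpow_pos_of_pos hy _
  have e4 : y ^ (4 - 3 * q) = y ^ (-(3 * q)) * y ^ 4 := by
    rw [← Real.rpow_natCast, ← Real.rpow_add hy]; congr 1; push_cast; ring
  have e6 : y ^ (6 - 3 * q) = y ^ (-(3 * q)) * y ^ 6 := by
    rw [← Real.rpow_natCast, ← Real.rpow_add hy]; congr 1; push_cast; ring
  rw [hK_eq hy, e4, e6]
  have e7 : y ^ (-(3 * q)) - q / 15 * (y ^ (-(3 * q)) * y ^ 4) - y ^ (-(3 * q)) * bK y ^ q =
      -(y ^ (-(3 * q)) * (bK y ^ q - 1 + q * (1 - bK y) + q * (bK y - (1 - y ^ 4 / 15)))) := by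
    ring
  rw [e7, abs_neg, abs_mul, abs_of_pos h6]
  have h7 : |bK y ^ q - 1 + q * (1 - bK y) + q * (bK y - (1 - y ^ 4 / 15))| ≤ cK q * y ^ 6 := by
    refine (abs_add_le _ _).trans ?_
    have a1 : |q * (bK y - (1 - y ^ 4 / 15))| ≤ q / 40 * y ^ 6 := by
      rw [abs_of_nonneg (mul_nonneg hq.le (by linarith))]
      nlinarith
    have a2 : (1 - bK y) ^ 2 ≤ y ^ 6 := by
      have b1 : 0 ≤ 1 - bK y := by linarith
      have b2 : 1 - bK y ≤ y ^ 4 / 15 := by linarith
      have b3 : (1 - bK y) ^ 2 ≤ (y ^ 4 / 15) ^ 2 := pow_le_pow_left₀ b1 b2 2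
      have b4 : (y ^ 4 / 15) ^ 2 = y ^ 6 * (y ^ 2 / 225) := by ring
      have b5 : y ^ 2 ≤ 1 := pow_le_one₀ hy.le hy1
      have b6 : 0 < y ^ 6 := by positivity
      rw [b4] at b3
      nlinarith
    have a3 : 0 ≤ 2 * (q * |q - 1|) := by positivity
    have a4 := mul_le_mul_of_nonneg_left a2 a3
    unfold cK
    linarith
  calc _ ≤ y ^ (-(3 * q)) * (cK q * y ^ 6) := mul_le_mul_of_nonneg_left h7 h6.le
    _ = _ := by ring

theorem continuousOn_hK (q : ℝ) : ContinuousOn (hK q) (Ioi 0) := by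
  intro y hy
  have hs := Real.sinh_pos_iff.2 (show 0 < y from hy)
  refine ContinuousAt.continuousWithinAt ?_
  unfold hK
  exact (Real.continuous_cosh.continuousAt.rpow_const (Or.inl (Real.cosh_pos y).ne')).mul
    (Real.continuous_sinh.continuousAt.rpow_const (Or.inl hs.ne'))

theorem continuousOn_gK (q : ℝ) : ContinuousOn (gK q) (Ioi 0) := by
  intro y hy
  have hs := Real.sinh_pos_iff.2 (show 0 < y from hy)
  refine ContinuousAt.continuousWithinAt ?_
  unfold gK
  exact (Real.continuous_sinh.continuousAt.rpow_const (Or.inl hs.ne')).mul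
    (Real.continuous_cosh.continuousAt.rpow_const (Or.inl (Real.cosh_pos y).ne'))

theorem continuousOn_pow (e : ℝ) : ContinuousOn (fun y : ℝ => y ^ e) (Ioi 0) := by
  intro y hy
  exact (Real.continuousAt_rpow_const y e (Or.inl (show y ≠ 0 from (ne_of_gt hy)))).continuousWithinAt

/-- `y ^ e exp (-a y)` is integrable. -/
theorem pow_exp_int {e a : ℝ} (he : -1 < e) (ha : 0 < a) :
    IntegrableOn (fun y : ℝ => Real.exp (-(a * y)) * y ^ e) (Ioi 0) := by
  have h := integrableOn_rpow_mul_exp_neg_mul_rpow (p := 1) (s := e) (b := a) he one_pos ha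
  refine h.congr_fun (fun y hy => ?_) measurableSet_Ioi
  simp only [Real.rpow_one]
  rw [mul_comm, neg_mul]

theorem kernel3_int (q : ℝ) (h0 : 0 < q) (h1 : q < 5 / 3) (a : ℝ) (ha : 0 < a) :
    IntegrableOn (fun y => Real.exp (-(a * y)) * (y ^ (-(3 * q)) - hK q y)) (Ioi 0) := by
  have hd := (pow_exp_int (e := 4 - 3 * q) (by linarith) ha).const_mul (max 1 q / 15)
  refine Integrable.mono' hd ?_ ?_
  · refine ContinuousOn.aestronglyMeasurable ?_ measurableSet_Ioi
    exact ContinuousOn.mul (by fun_prop) ((continuousOn_pow _).sub (continuousOn_hK q))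
  · refine (ae_restrict_iff' measurableSet_Ioi).2 (Filter.Eventually.of_forall fun y hy => ?_)
    have := abs_kernel3_le h0 (show 0 < y from hy)
    rw [Real.norm_eq_abs, abs_mul, abs_of_pos (Real.exp_pos _)]
    calc _ ≤ Real.exp (-(a * y)) * (max 1 q / 15 * y ^ (4 - 3 * q)) :=
          mul_le_mul_of_nonneg_left this (Real.exp_pos _).le
      _ = _ := by ring

theorem kernel5_int (q : ℝ) (h0 : 0 < q) (h1 : q < 7 / 3) (a : ℝ) (ha : 0 < a) :
    IntegrableOn (fun y => Real.exp (-(a * y)) *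
      (y ^ (-(3 * q)) - q / 15 * y ^ (4 - 3 * q) - hK q y)) (Ioi 0) := by
  have hc : ContinuousOn (fun y => Real.exp (-(a * y)) *
      (y ^ (-(3 * q)) - q / 15 * y ^ (4 - 3 * q) - hK q y)) (Ioi 0) :=
    ContinuousOn.mul (by fun_prop)
      (((continuousOn_pow _).sub (continuousOn_const.mul (continuousOn_pow _))).sub
        (continuousOn_hK q))
  rw [← Ioc_union_Ioi_eq_Ioi (zero_le_one (α := ℝ))]
  refine IntegrableOn.union ?_ ?_
  · have hd' : IntegrableOn (fun y : ℝ => cK q * (Real.exp (-(a * y)) * y ^ (6 - 3 * q)))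
        (Ioi 0) := (pow_exp_int (e := 6 - 3 * q) (by linarith) ha).const_mul (cK q)
    have hd := hd'.mono_set (Ioc_subset_Ioi_self : Ioc (0 : ℝ) 1 ⊆ Ioi 0)
    refine Integrable.mono' hd ?_ ?_
    · exact (hc.mono Ioc_subset_Ioi_self).aestronglyMeasurable measurableSet_Ioc
    · refine (ae_restrict_iff' measurableSet_Ioc).2 (Filter.Eventually.of_forall fun y hy => ?_)
      have := abs_kernel5_le h0 hy.1 hy.2
      rw [Real.norm_eq_abs, abs_mul, abs_of_pos (Real.exp_pos _)]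
      calc _ ≤ Real.exp (-(a * y)) * (cK q * y ^ (6 - 3 * q)) :=
            mul_le_mul_of_nonneg_left this (Real.exp_pos _).le
        _ = _ := by ring
  · have hd' : IntegrableOn (fun y : ℝ => (max 1 q / 15 + q / 15) *
        (Real.exp (-(a * y)) * y ^ (4 : ℝ))) (Ioi 0) :=
      (pow_exp_int (e := 4) (by norm_num) ha).const_mul (max 1 q / 15 + q / 15)
    have hd := hd'.mono_set (Ioi_subset_Ioi zero_le_one : Ioi (1 : ℝ) ⊆ Ioi 0)
    refine Integrable.mono' hd ?_ ?_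
    · exact (hc.mono (Ioi_subset_Ioi zero_le_one)).aestronglyMeasurable measurableSet_Ioi
    · refine (ae_restrict_iff' measurableSet_Ioi).2 (Filter.Eventually.of_forall fun y hy => ?_)
      have hy1 : (1 : ℝ) < y := hy
      have hy0 : (0 : ℝ) < y := by linarith
      have h2 := abs_kernel3_le h0 hy0
      have h3 : y ^ (4 - 3 * q) ≤ y ^ (4 : ℝ) :=
        Real.rpow_le_rpow_of_exponent_le hy1.le (by linarith)
      have h4 : 0 < y ^ (4 - 3 * q) := Real.rpow_pos_of_pos hy0 _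
      rw [Real.norm_eq_abs, abs_mul, abs_of_pos (Real.exp_pos _)]
      have h5 : |y ^ (-(3 * q)) - q / 15 * y ^ (4 - 3 * q) - hK q y| ≤
          (max 1 q / 15 + q / 15) * y ^ (4 : ℝ) := by
        have e1 : y ^ (-(3 * q)) - q / 15 * y ^ (4 - 3 * q) - hK q y =
            (y ^ (-(3 * q)) - hK q y) - q / 15 * y ^ (4 - 3 * q) := by ring
        rw [e1]
        refine (abs_sub _ _).trans ?_
        have e2 : |q / 15 * y ^ (4 - 3 * q)| = q / 15 * y ^ (4 - 3 * q) :=
          abs_of_nonneg (by positivity)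
        rw [e2]
        have m1 : 0 ≤ max 1 q / 15 := by positivity
        nlinarith [mul_le_mul_of_nonneg_left h3 m1, mul_le_mul_of_nonneg_left h3
          (show 0 ≤ q / 15 by positivity)]
      calc _ ≤ Real.exp (-(a * y)) * ((max 1 q / 15 + q / 15) * y ^ (4 : ℝ)) :=
            mul_le_mul_of_nonneg_left h5 (Real.exp_pos _).le
        _ = _ := by ring

theorem gK_le_exp {q y : ℝ} (h0 : 0 < q) (hy : 0 < y) :
    gK q y ≤ 2 ^ (2 * q) * Real.exp (-(2 * q * y)) := by
  have hs := Real.sinh_pos_iff.2 hy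
  have hc := Real.cosh_pos y
  have h1 : Real.sinh y ^ q ≤ Real.cosh y ^ q :=
    Real.rpow_le_rpow hs.le (Real.sinh_lt_cosh y).le h0.le
  have h2 : Real.exp y / 2 ≤ Real.cosh y := by
    rw [Real.cosh_eq]; have := Real.exp_pos (-y); linarith
  have h3 : Real.cosh y ^ (-(2 * q)) ≤ (Real.exp y / 2) ^ (-(2 * q)) :=
    Real.rpow_le_rpow_of_nonpos (by positivity) h2 (by linarith)
  have h4 : (Real.exp y / 2) ^ (-(2 * q)) = 2 ^ (2 * q) * Real.exp (-(2 * q * y)) := by
    rw [Real.div_rpow (Real.exp_pos _).le (by norm_num), ← Real.exp_mul, Real.rpow_neg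
      (by norm_num : (0 : ℝ) ≤ 2), div_inv_eq_mul, mul_comm]
    congr 2; ring
  have h5 : Real.cosh y ^ q * Real.cosh y ^ (-(3 * q)) = Real.cosh y ^ (-(2 * q)) := by
    rw [← Real.rpow_add hc]; congr 1; ring
  unfold gK
  calc _ ≤ Real.cosh y ^ q * Real.cosh y ^ (-(3 * q)) :=
        mul_le_mul_of_nonneg_right h1 (Real.rpow_pos_of_pos hc _).le
    _ = Real.cosh y ^ (-(2 * q)) := h5
    _ ≤ _ := h3.trans_eq h4

theorem gK_int (q : ℝ) (h0 : 0 < q) (a : ℝ) (ha : 0 ≤ a) :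
    IntegrableOn (fun y => Real.exp (-(a * y)) * gK q y) (Ioi 0) := by
  have hd : IntegrableOn (fun y : ℝ => 2 ^ (2 * q) * Real.exp (-(2 * q) * y)) (Ioi 0) :=
    (integrableOn_exp_mul_Ioi (a := -(2 * q)) (by linarith) 0).const_mul _
  refine Integrable.mono' hd ?_ ?_
  · refine ContinuousOn.aestronglyMeasurable ?_ measurableSet_Ioi
    exact ContinuousOn.mul (by fun_prop) (continuousOn_gK q)
  · refine (ae_restrict_iff' measurableSet_Ioi).2 (Filter.Eventually.of_forall fun y hy => ?_)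
    have hy0 : (0 : ℝ) < y := hy
    have h1 := gK_le_exp h0 hy0
    have h2 := gK_nonneg (q := q) hy0
    have h3 : Real.exp (-(a * y)) ≤ 1 := by
      rw [Real.exp_le_one_iff]; nlinarith
    rw [Real.norm_eq_abs, abs_of_nonneg (mul_nonneg (Real.exp_pos _).le h2)]
    calc _ ≤ 1 * gK q y := mul_le_mul_of_nonneg_right h3 h2
      _ ≤ _ := by rw [one_mul]; convert h1 using 3; ring

end Pool.Agent.KIQ
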