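import Mathlib
import Pool.Agent.KIQ.Defs

/-!
# KIQ, module POLY0: the recursion for the polynomials on lists of coefficients
-/

set_option autoImplicit false

open Polynomial

namespace Pool.Agent.KIQ.POLY

/-- The polynomial with the given list of coefficients. -/
noncomputable def PL : List ℝ → Polynomial ℝ
  | [] => 0
  | c :: l => C c + X * PL l

/-- Sum of lists of coefficients. -/
noncomputable def addL : List ℝ → List ℝ → List ℝ
  | [], m => m
  | c :: l, [] => c :: l
  | c :: l, d :: m => (c + d) :: addL l m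

/-- The operator `opA` on lists of coefficients (`r = k + 1` at the start). -/
noncomputable def opL (a c : ℝ) : ℝ → List ℝ → List ℝ
  | _, [] => []
  | r, c0 :: l => (r * c0) :: addL [a * c0, (c - r) * c0] (opL a c (r - 1) l)

/-- Horner evaluation. -/
noncomputable def evL (x : ℝ) : List ℝ → ℝ
  | [] => 0
  | c :: l => c + x * evL x l

theorem PL_addL : ∀ l m : List ℝ, PL (addL l m) = PL l + PL m
  | [], m => by simp [addL, PL]
  | c :: l, [] => by simp [addL, PL]
  | c :: l, d :: m => by
      simp only [addL, PL, PL_addL l m, map_add]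
      ring

theorem eval_PL (x : ℝ) : ∀ l : List ℝ, (PL l).eval x = evL x l
  | [] => by simp [evL, PL]
  | c :: l => by simp [evL, PL, eval_PL x l]

/-- The operator `opA` with a real parameter `r` in the place of `k + 1`. -/
noncomputable def opR (a c r : ℝ) (p : Polynomial ℝ) : Polynomial ℝ :=
  C a * X * p - (1 - X ^ 2) * (X * derivative p - C r * p) + C c * X ^ 2 * p

theorem opR_PL (a c : ℝ) : ∀ (r : ℝ) (l : List ℝ), opR a c r (PL l) = PL (opL a c r l)
  | r, [] => by simp [opR, PL, opL]
  | r, c0 :: l => by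
      have h := opR_PL a c (r - 1) l
      simp only [opL, PL, PL_addL, ← h]
      simp only [opR, derivative_add, derivative_C, derivative_mul, derivative_X, map_sub,
        map_mul, C_1]
      ring

theorem opA_PL (a : ℝ) (k : ℕ) (c : ℝ) (l : List ℝ) :
    opA a k c (PL l) = PL (opL a c ((k : ℝ) + 1) l) := by
  rw [← opR_PL]
  rfl

theorem ini_PL (al be ga : ℝ) : ini al be ga = PL [ga, be, al] := by
  simp only [ini, PL]
  ring

theorem opA_zero (a : ℝ) (k : ℕ) (c : ℝ) : opA a k c 0 = 0 := by simp [opA]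

theorem pp_zero (s : ℕ) (a q : ℝ) (p0 : Polynomial ℝ) :
    ∀ k i : ℕ, k < i → pp s a q p0 k i = 0
  | 0, 0, h => absurd h (by omega)
  | 0, i + 1, _ => by rw [pp]
  | k + 1, 0, h => absurd h (by omega)
  | k + 1, i + 1, h => by
      rw [pp, pp_zero s a q p0 k (i + 1) (by omega), pp_zero s a q p0 k i (by omega), opA_zero,
        opA_zero, add_zero]

theorem fin_aux {c L R E u v x y D1 D2 : ℝ} (hc : 0 < c) (hu : 0 ≤ c * x - u)
    (hv : 0 ≤ c * y - v) (hE : 0 ≤ E) (h1 : 0 ≤ D1) (h2 : 0 ≤ D2)
    (key : c * (R - L) = E + (c * x - u) * D1 + (c * y - v) * D2) : L ≤ R := by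
  have h3 : 0 ≤ c * (R - L) := by
    rw [key]
    exact add_nonneg (add_nonneg hE (mul_nonneg hu h1)) (mul_nonneg hv h2)
  have h4 : 0 ≤ R - L := (mul_nonneg_iff_of_pos_left hc).1 h3
  linarith

end Pool.Agent.KIQ.POLY
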