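import Mathlib
import Pool.Agent.KIQ.POLY0

/-!
# KIQ, module POLYFC: explicit forms of the polynomials for (C)
-/

set_option autoImplicit false
set_option linter.unusedSimpArgs false
set_option linter.unusedVariables false

open Polynomial

namespace Pool.Agent.KIQ.POLY

noncomputable def fc_0_0_0 (a q A B : ℝ) : ℝ :=
  B

noncomputable def fc_0_0_1 (a q A B : ℝ) : ℝ :=
  A

noncomputable def fc_0_0_2 (a q A B : ℝ) : ℝ :=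
  1

theorem fc_0_0 (a q A B : ℝ) :
    pp 0 a q (iniC A B) 0 0 = PL
      [fc_0_0_0 a q A B, fc_0_0_1 a q A B, fc_0_0_2 a q A B] := by
  rw [pp, iniC, ini_PL]
  rfl

noncomputable def fc_1_0_0 (a q A B : ℝ) : ℝ :=
  B

noncomputable def fc_1_0_1 (a q A B : ℝ) : ℝ :=
  a * B

noncomputable def fc_1_0_2 (a q A B : ℝ) : ℝ :=
  a * A - B - 1

noncomputable def fc_1_0_3 (a q A B : ℝ) : ℝ :=
  a

noncomputable def fc_1_0_4 (a q A B : ℝ) : ℝ :=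
  1

theorem fc_1_0 (a q A B : ℝ) :
    pp 0 a q (iniC A B) 1 0 = PL
      [fc_1_0_0 a q A B, fc_1_0_1 a q A B, fc_1_0_2 a q A B, fc_1_0_3 a q A B, fc_1_0_4 a q A B] := by
  rw [pp, fc_0_0, opA_PL]
  congr 1
  simp only [opL, addL, List.cons.injEq, Nat.cast_ofNat, Nat.cast_zero, Nat.cast_one]
  refine ⟨?_, ?_, ?_, ?_, ?_, trivial⟩ <;>
    (simp only [fc_1_0_0, fc_1_0_1, fc_1_0_2, fc_1_0_3, fc_1_0_4, fc_0_0_0, fc_0_0_1, fc_0_0_2]; ring)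

noncomputable def fc_1_1_0 (a q A B : ℝ) : ℝ :=
  B

noncomputable def fc_1_1_1 (a q A B : ℝ) : ℝ :=
  a * B

noncomputable def fc_1_1_2 (a q A B : ℝ) : ℝ :=
  a * A + q * B - B - 1

noncomputable def fc_1_1_3 (a q A B : ℝ) : ℝ :=
  q * A + a

noncomputable def fc_1_1_4 (a q A B : ℝ) : ℝ :=
  q + 1

theorem fc_1_1 (a q A B : ℝ) :
    pp 0 a q (iniC A B) 1 1 = PL
      [fc_1_1_0 a q A B, fc_1_1_1 a q A B, fc_1_1_2 a q A B, fc_1_1_3 a q A B, fc_1_1_4 a q A B] := by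
  rw [pp, pp_zero _ _ _ _ _ _ (by omega : 0 < 1), fc_0_0, opA_PL, opA_zero, zero_add]
  congr 1
  simp only [opL, addL, List.cons.injEq, Nat.cast_ofNat, Nat.cast_zero, Nat.cast_one]
  refine ⟨?_, ?_, ?_, ?_, ?_, trivial⟩ <;>
    (simp only [fc_1_1_0, fc_1_1_1, fc_1_1_2, fc_1_1_3, fc_1_1_4, fc_0_0_0, fc_0_0_1, fc_0_0_2]; ring)

noncomputable def fc_2_0_0 (a q A B : ℝ) : ℝ :=
  2 * B

noncomputable def fc_2_0_1 (a q A B : ℝ) : ℝ :=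
  2 * a * B

noncomputable def fc_2_0_2 (a q A B : ℝ) : ℝ :=
  a ^ 2 * B - 2 * B

noncomputable def fc_2_0_3 (a q A B : ℝ) : ℝ :=
  a ^ 2 * A - 2 * a * B - 2 * a

noncomputable def fc_2_0_4 (a q A B : ℝ) : ℝ :=
  a ^ 2 - 2

noncomputable def fc_2_0_5 (a q A B : ℝ) : ℝ :=
  2 * a

noncomputable def fc_2_0_6 (a q A B : ℝ) : ℝ :=
  2

theorem fc_2_0 (a q A B : ℝ) :
    pp 0 a q (iniC A B) 2 0 = PL
      [fc_2_0_0 a q A B, fc_2_0_1 a q A B, fc_2_0_2 a q A B, fc_2_0_3 a q A B, fc_2_0_4 a q A B,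
      fc_2_0_5 a q A B, fc_2_0_6 a q A B] := by
  rw [pp, fc_1_0, opA_PL]
  congr 1
  simp only [opL, addL, List.cons.injEq, Nat.cast_ofNat, Nat.cast_zero, Nat.cast_one]
  refine ⟨?_, ?_, ?_, ?_, ?_, ?_, ?_, trivial⟩ <;>
    (simp only [fc_2_0_0, fc_2_0_1, fc_2_0_2, fc_2_0_3, fc_2_0_4, fc_2_0_5, fc_2_0_6, fc_1_0_0, fc_1_0_1,
      fc_1_0_2, fc_1_0_3, fc_1_0_4]; ring)

noncomputable def fc_2_1_0 (a q A B : ℝ) : ℝ :=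
  4 * B

noncomputable def fc_2_1_1 (a q A B : ℝ) : ℝ :=
  4 * a * B

noncomputable def fc_2_1_2 (a q A B : ℝ) : ℝ :=
  2 * a ^ 2 * B + q * B - 3 * B

noncomputable def fc_2_1_3 (a q A B : ℝ) : ℝ :=
  2 * a ^ 2 * A + 2 * a * q * B - 3 * a * B - q * A - 4 * a

noncomputable def fc_2_1_4 (a q A B : ℝ) : ℝ :=
  2 * a * q * A + 2 * a ^ 2 + a * A + q * B - 3 * q - B - 5

noncomputable def fc_2_1_5 (a q A B : ℝ) : ℝ :=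
  2 * a * q + 3 * q * A + 5 * a

noncomputable def fc_2_1_6 (a q A B : ℝ) : ℝ :=
  5 * q + 5

theorem fc_2_1 (a q A B : ℝ) :
    pp 0 a q (iniC A B) 2 1 = PL
      [fc_2_1_0 a q A B, fc_2_1_1 a q A B, fc_2_1_2 a q A B, fc_2_1_3 a q A B, fc_2_1_4 a q A B,
      fc_2_1_5 a q A B, fc_2_1_6 a q A B] := by
  rw [pp, fc_1_1, fc_1_0, opA_PL, opA_PL, ← PL_addL]
  congr 1
  simp only [opL, addL, List.cons.injEq, Nat.cast_ofNat, Nat.cast_zero, Nat.cast_one]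
  refine ⟨?_, ?_, ?_, ?_, ?_, ?_, ?_, trivial⟩ <;>
    (simp only [fc_2_1_0, fc_2_1_1, fc_2_1_2, fc_2_1_3, fc_2_1_4, fc_2_1_5, fc_2_1_6, fc_1_1_0, fc_1_1_1,
      fc_1_1_2, fc_1_1_3, fc_1_1_4, fc_1_0_0, fc_1_0_1, fc_1_0_2, fc_1_0_3, fc_1_0_4]; ring)

noncomputable def fc_2_2_0 (a q A B : ℝ) : ℝ :=
  2 * B

noncomputable def fc_2_2_1 (a q A B : ℝ) : ℝ :=
  2 * a * B

noncomputable def fc_2_2_2 (a q A B : ℝ) : ℝ :=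
  a ^ 2 * B + q * B - B

noncomputable def fc_2_2_3 (a q A B : ℝ) : ℝ :=
  a ^ 2 * A + 2 * a * q * B - a * B - q * A - 2 * a

noncomputable def fc_2_2_4 (a q A B : ℝ) : ℝ :=
  2 * a * q * A + q ^ 2 * B + a ^ 2 + a * A - 3 * q - B - 3

noncomputable def fc_2_2_5 (a q A B : ℝ) : ℝ :=
  q ^ 2 * A + 2 * a * q + 2 * q * A + 3 * a

noncomputable def fc_2_2_6 (a q A B : ℝ) : ℝ :=
  q ^ 2 + 4 * q + 3

theorem fc_2_2 (a q A B : ℝ) :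
    pp 0 a q (iniC A B) 2 2 = PL
      [fc_2_2_0 a q A B, fc_2_2_1 a q A B, fc_2_2_2 a q A B, fc_2_2_3 a q A B, fc_2_2_4 a q A B,
      fc_2_2_5 a q A B, fc_2_2_6 a q A B] := by
  rw [pp, pp_zero _ _ _ _ _ _ (by omega : 1 < 2), fc_1_1, opA_PL, opA_zero, zero_add]
  congr 1
  simp only [opL, addL, List.cons.injEq, Nat.cast_ofNat, Nat.cast_zero, Nat.cast_one]
  refine ⟨?_, ?_, ?_, ?_, ?_, ?_, ?_, trivial⟩ <;>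
    (simp only [fc_2_2_0, fc_2_2_1, fc_2_2_2, fc_2_2_3, fc_2_2_4, fc_2_2_5, fc_2_2_6, fc_1_1_0, fc_1_1_1,
      fc_1_1_2, fc_1_1_3, fc_1_1_4]; ring)

noncomputable def fc_3_0_0 (a q A B : ℝ) : ℝ :=
  6 * B

noncomputable def fc_3_0_1 (a q A B : ℝ) : ℝ :=
  6 * a * B

noncomputable def fc_3_0_2 (a q A B : ℝ) : ℝ :=
  3 * a ^ 2 * B - 8 * B

noncomputable def fc_3_0_3 (a q A B : ℝ) : ℝ :=
  a ^ 3 * B - 6 * a * B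

noncomputable def fc_3_0_4 (a q A B : ℝ) : ℝ :=
  a ^ 3 * A - 3 * a ^ 2 * B - 3 * a ^ 2 + 2 * B + 2

noncomputable def fc_3_0_5 (a q A B : ℝ) : ℝ :=
  a ^ 3 - 6 * a

noncomputable def fc_3_0_6 (a q A B : ℝ) : ℝ :=
  3 * a ^ 2 - 8

noncomputable def fc_3_0_7 (a q A B : ℝ) : ℝ :=
  6 * a

noncomputable def fc_3_0_8 (a q A B : ℝ) : ℝ :=
  6

theorem fc_3_0 (a q A B : ℝ) :
    pp 0 a q (iniC A B) 3 0 = PL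
      [fc_3_0_0 a q A B, fc_3_0_1 a q A B, fc_3_0_2 a q A B, fc_3_0_3 a q A B, fc_3_0_4 a q A B,
      fc_3_0_5 a q A B, fc_3_0_6 a q A B, fc_3_0_7 a q A B, fc_3_0_8 a q A B] := by
  rw [pp, fc_2_0, opA_PL]
  congr 1
  simp only [opL, addL, List.cons.injEq, Nat.cast_ofNat, Nat.cast_zero, Nat.cast_one]
  refine ⟨?_, ?_, ?_, ?_, ?_, ?_, ?_, ?_, ?_, trivial⟩ <;>
    (simp only [fc_3_0_0, fc_3_0_1, fc_3_0_2, fc_3_0_3, fc_3_0_4, fc_3_0_5, fc_3_0_6, fc_3_0_7, fc_3_0_8,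
      fc_2_0_0, fc_2_0_1, fc_2_0_2, fc_2_0_3, fc_2_0_4, fc_2_0_5, fc_2_0_6]; ring)

noncomputable def fc_3_1_0 (a q A B : ℝ) : ℝ :=
  18 * B

noncomputable def fc_3_1_1 (a q A B : ℝ) : ℝ :=
  18 * a * B

noncomputable def fc_3_1_2 (a q A B : ℝ) : ℝ :=
  9 * a ^ 2 * B + 3 * q * B - 19 * B

noncomputable def fc_3_1_3 (a q A B : ℝ) : ℝ :=
  3 * a ^ 3 * B + 3 * a * q * B - 13 * a * B

noncomputable def fc_3_1_4 (a q A B : ℝ) : ℝ :=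
  3 * a ^ 3 * A + 3 * a ^ 2 * q * B - 6 * a ^ 2 * B - 3 * a * q * A - 9 * a ^ 2 - a * A - 2 *
  q * B + 3 * q + 4 * B + 7

noncomputable def fc_3_1_5 (a q A B : ℝ) : ℝ :=
  3 * a ^ 2 * q * A + 3 * a ^ 3 + 3 * a ^ 2 * A + 3 * a * q * B - 9 * a * q - 3 * a * B - 8 *
  q * A - 25 * a

noncomputable def fc_3_1_6 (a q A B : ℝ) : ℝ :=
  3 * a ^ 2 * q + 9 * a * q * A + 12 * a ^ 2 + 3 * a * A + 3 * q * B - 26 * q - 3 * B - 34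

noncomputable def fc_3_1_7 (a q A B : ℝ) : ℝ :=
  15 * a * q + 12 * q * A + 27 * a

noncomputable def fc_3_1_8 (a q A B : ℝ) : ℝ :=
  27 * q + 27

theorem fc_3_1 (a q A B : ℝ) :
    pp 0 a q (iniC A B) 3 1 = PL
      [fc_3_1_0 a q A B, fc_3_1_1 a q A B, fc_3_1_2 a q A B, fc_3_1_3 a q A B, fc_3_1_4 a q A B,
      fc_3_1_5 a q A B, fc_3_1_6 a q A B, fc_3_1_7 a q A B, fc_3_1_8 a q A B] := by
  rw [pp, fc_2_1, fc_2_0, opA_PL, opA_PL, ← PL_addL]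
  congr 1
  simp only [opL, addL, List.cons.injEq, Nat.cast_ofNat, Nat.cast_zero, Nat.cast_one]
  refine ⟨?_, ?_, ?_, ?_, ?_, ?_, ?_, ?_, ?_, trivial⟩ <;>
    (simp only [fc_3_1_0, fc_3_1_1, fc_3_1_2, fc_3_1_3, fc_3_1_4, fc_3_1_5, fc_3_1_6, fc_3_1_7, fc_3_1_8,
      fc_2_1_0, fc_2_1_1, fc_2_1_2, fc_2_1_3, fc_2_1_4, fc_2_1_5, fc_2_1_6, fc_2_0_0,
      fc_2_0_1, fc_2_0_2, fc_2_0_3, fc_2_0_4, fc_2_0_5, fc_2_0_6]; ring)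

noncomputable def fc_3_2_0 (a q A B : ℝ) : ℝ :=
  18 * B

noncomputable def fc_3_2_1 (a q A B : ℝ) : ℝ :=
  18 * a * B

noncomputable def fc_3_2_2 (a q A B : ℝ) : ℝ :=
  9 * a ^ 2 * B + 6 * q * B - 14 * B

noncomputable def fc_3_2_3 (a q A B : ℝ) : ℝ :=
  3 * a ^ 3 * B + 6 * a * q * B - 8 * a * B

noncomputable def fc_3_2_4 (a q A B : ℝ) : ℝ :=
  3 * a ^ 3 * A + 6 * a ^ 2 * q * B - 3 * a ^ 2 * B - 6 * a * q * A - 9 * a ^ 2 - 2 * a * A -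
  2 * q * B + 6 * q + 2 * B + 8

noncomputable def fc_3_2_5 (a q A B : ℝ) : ℝ :=
  6 * a ^ 2 * q * A + 3 * a * q ^ 2 * B + 3 * a ^ 3 + 6 * a ^ 2 * A + 6 * a * q * B - 3 * q ^
  2 * A - 18 * a * q - 6 * a * B - 14 * q * A - 32 * a

noncomputable def fc_3_2_6 (a q A B : ℝ) : ℝ :=
  3 * a * q ^ 2 * A + 6 * a ^ 2 * q + 18 * a * q * A + 6 * q ^ 2 * B + 15 * a ^ 2 + 6 * a * A
  - 6 * q ^ 2 - 50 * q - 6 * B - 44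

noncomputable def fc_3_2_7 (a q A B : ℝ) : ℝ :=
  3 * a * q ^ 2 + 9 * q ^ 2 * A + 30 * a * q + 18 * q * A + 36 * a

noncomputable def fc_3_2_8 (a q A B : ℝ) : ℝ :=
  12 * q ^ 2 + 48 * q + 36

theorem fc_3_2 (a q A B : ℝ) :
    pp 0 a q (iniC A B) 3 2 = PL
      [fc_3_2_0 a q A B, fc_3_2_1 a q A B, fc_3_2_2 a q A B, fc_3_2_3 a q A B, fc_3_2_4 a q A B,
      fc_3_2_5 a q A B, fc_3_2_6 a q A B, fc_3_2_7 a q A B, fc_3_2_8 a q A B] := by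
  rw [pp, fc_2_2, fc_2_1, opA_PL, opA_PL, ← PL_addL]
  congr 1
  simp only [opL, addL, List.cons.injEq, Nat.cast_ofNat, Nat.cast_zero, Nat.cast_one]
  refine ⟨?_, ?_, ?_, ?_, ?_, ?_, ?_, ?_, ?_, trivial⟩ <;>
    (simp only [fc_3_2_0, fc_3_2_1, fc_3_2_2, fc_3_2_3, fc_3_2_4, fc_3_2_5, fc_3_2_6, fc_3_2_7, fc_3_2_8,
      fc_2_2_0, fc_2_2_1, fc_2_2_2, fc_2_2_3, fc_2_2_4, fc_2_2_5, fc_2_2_6, fc_2_1_0,
      fc_2_1_1, fc_2_1_2, fc_2_1_3, fc_2_1_4, fc_2_1_5, fc_2_1_6]; ring)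

noncomputable def fc_3_3_0 (a q A B : ℝ) : ℝ :=
  6 * B

noncomputable def fc_3_3_1 (a q A B : ℝ) : ℝ :=
  6 * a * B

noncomputable def fc_3_3_2 (a q A B : ℝ) : ℝ :=
  3 * a ^ 2 * B + 3 * q * B - 3 * B

noncomputable def fc_3_3_3 (a q A B : ℝ) : ℝ :=
  a ^ 3 * B + 3 * a * q * B - a * B

noncomputable def fc_3_3_4 (a q A B : ℝ) : ℝ :=
  a ^ 3 * A + 3 * a ^ 2 * q * B - 3 * a * q * A - 3 * a ^ 2 - a * A + 3 * q + 3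

noncomputable def fc_3_3_5 (a q A B : ℝ) : ℝ :=
  3 * a ^ 2 * q * A + 3 * a * q ^ 2 * B + a ^ 3 + 3 * a ^ 2 * A + 3 * a * q * B - 3 * q ^ 2 *
  A - 9 * a * q - 3 * a * B - 6 * q * A - 13 * a

noncomputable def fc_3_3_6 (a q A B : ℝ) : ℝ :=
  3 * a * q ^ 2 * A + q ^ 3 * B + 3 * a ^ 2 * q + 9 * a * q * A + 3 * q ^ 2 * B + 6 * a ^ 2 +
  3 * a * A - 6 * q ^ 2 - q * B - 24 * q - 3 * B - 18

noncomputable def fc_3_3_7 (a q A B : ℝ) : ℝ :=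
  q ^ 3 * A + 3 * a * q ^ 2 + 6 * q ^ 2 * A + 15 * a * q + 8 * q * A + 15 * a

noncomputable def fc_3_3_8 (a q A B : ℝ) : ℝ :=
  q ^ 3 + 9 * q ^ 2 + 23 * q + 15

theorem fc_3_3 (a q A B : ℝ) :
    pp 0 a q (iniC A B) 3 3 = PL
      [fc_3_3_0 a q A B, fc_3_3_1 a q A B, fc_3_3_2 a q A B, fc_3_3_3 a q A B, fc_3_3_4 a q A B,
      fc_3_3_5 a q A B, fc_3_3_6 a q A B, fc_3_3_7 a q A B, fc_3_3_8 a q A B] := by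
  rw [pp, pp_zero _ _ _ _ _ _ (by omega : 2 < 3), fc_2_2, opA_PL, opA_zero, zero_add]
  congr 1
  simp only [opL, addL, List.cons.injEq, Nat.cast_ofNat, Nat.cast_zero, Nat.cast_one]
  refine ⟨?_, ?_, ?_, ?_, ?_, ?_, ?_, ?_, ?_, trivial⟩ <;>
    (simp only [fc_3_3_0, fc_3_3_1, fc_3_3_2, fc_3_3_3, fc_3_3_4, fc_3_3_5, fc_3_3_6, fc_3_3_7, fc_3_3_8,
      fc_2_2_0, fc_2_2_1, fc_2_2_2, fc_2_2_3, fc_2_2_4, fc_2_2_5, fc_2_2_6]; ring)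

noncomputable def fc_4_0_0 (a q A B : ℝ) : ℝ :=
  24 * B

noncomputable def fc_4_0_1 (a q A B : ℝ) : ℝ :=
  24 * a * B

noncomputable def fc_4_0_2 (a q A B : ℝ) : ℝ :=
  12 * a ^ 2 * B - 40 * B

noncomputable def fc_4_0_3 (a q A B : ℝ) : ℝ :=
  4 * a ^ 3 * B - 32 * a * B

noncomputable def fc_4_0_4 (a q A B : ℝ) : ℝ :=
  a ^ 4 * B - 12 * a ^ 2 * B + 16 * B

noncomputable def fc_4_0_5 (a q A B : ℝ) : ℝ :=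
  a ^ 4 * A - 4 * a ^ 3 * B - 4 * a ^ 3 + 8 * a * B + 8 * a

noncomputable def fc_4_0_6 (a q A B : ℝ) : ℝ :=
  a ^ 4 - 12 * a ^ 2 + 16

noncomputable def fc_4_0_7 (a q A B : ℝ) : ℝ :=
  4 * a ^ 3 - 32 * a

noncomputable def fc_4_0_8 (a q A B : ℝ) : ℝ :=
  12 * a ^ 2 - 40

noncomputable def fc_4_0_9 (a q A B : ℝ) : ℝ :=
  24 * a

noncomputable def fc_4_0_10 (a q A B : ℝ) : ℝ :=
  24

theorem fc_4_0 (a q A B : ℝ) :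
    pp 0 a q (iniC A B) 4 0 = PL
      [fc_4_0_0 a q A B, fc_4_0_1 a q A B, fc_4_0_2 a q A B, fc_4_0_3 a q A B, fc_4_0_4 a q A B,
      fc_4_0_5 a q A B, fc_4_0_6 a q A B, fc_4_0_7 a q A B, fc_4_0_8 a q A B, fc_4_0_9 a q A
      B, fc_4_0_10 a q A B] := by
  rw [pp, fc_3_0, opA_PL]
  congr 1
  simp only [opL, addL, List.cons.injEq, Nat.cast_ofNat, Nat.cast_zero, Nat.cast_one]
  refine ⟨?_, ?_, ?_, ?_, ?_, ?_, ?_, ?_, ?_, ?_, ?_, trivial⟩ <;>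
    (simp only [fc_4_0_0, fc_4_0_1, fc_4_0_2, fc_4_0_3, fc_4_0_4, fc_4_0_5, fc_4_0_6, fc_4_0_7, fc_4_0_8,
      fc_4_0_9, fc_4_0_10, fc_3_0_0, fc_3_0_1, fc_3_0_2, fc_3_0_3, fc_3_0_4, fc_3_0_5,
      fc_3_0_6, fc_3_0_7, fc_3_0_8]; ring)

noncomputable def fc_4_1_0 (a q A B : ℝ) : ℝ :=
  96 * B

noncomputable def fc_4_1_1 (a q A B : ℝ) : ℝ :=
  96 * a * B

noncomputable def fc_4_1_2 (a q A B : ℝ) : ℝ :=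
  48 * a ^ 2 * B + 12 * q * B - 132 * B

noncomputable def fc_4_1_3 (a q A B : ℝ) : ℝ :=
  16 * a ^ 3 * B + 12 * a * q * B - 100 * a * B

noncomputable def fc_4_1_4 (a q A B : ℝ) : ℝ :=
  4 * a ^ 4 * B + 6 * a ^ 2 * q * B - 34 * a ^ 2 * B - 8 * q * B + 40 * B

noncomputable def fc_4_1_5 (a q A B : ℝ) : ℝ :=
  4 * a ^ 4 * A + 4 * a ^ 3 * q * B - 10 * a ^ 3 * B - 6 * a ^ 2 * q * A - 16 * a ^ 3 - 4 * a
  ^ 2 * A - 8 * a * q * B + 12 * a * q + 20 * a * B + 8 * q * A + 40 * a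

noncomputable def fc_4_1_6 (a q A B : ℝ) : ℝ :=
  4 * a ^ 3 * q * A + 4 * a ^ 4 + 6 * a ^ 3 * A + 6 * a ^ 2 * q * B - 18 * a ^ 2 * q - 6 * a ^
  2 * B - 32 * a * q * A - 70 * a ^ 2 - 8 * a * A - 8 * q * B + 60 * q + 8 * B + 92

noncomputable def fc_4_1_7 (a q A B : ℝ) : ℝ :=
  4 * a ^ 3 * q + 18 * a ^ 2 * q * A + 22 * a ^ 3 + 12 * a ^ 2 * A + 12 * a * q * B - 104 * a
  * q - 12 * a * B - 60 * q * A - 204 * a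

noncomputable def fc_4_1_8 (a q A B : ℝ) : ℝ :=
  30 * a ^ 2 * q + 48 * a * q * A + 78 * a ^ 2 + 12 * a * A + 12 * q * B - 220 * q - 12 * B -
  260

noncomputable def fc_4_1_9 (a q A B : ℝ) : ℝ :=
  108 * a * q + 60 * q * A + 168 * a

noncomputable def fc_4_1_10 (a q A B : ℝ) : ℝ :=
  168 * q + 168

theorem fc_4_1 (a q A B : ℝ) :
    pp 0 a q (iniC A B) 4 1 = PL
      [fc_4_1_0 a q A B, fc_4_1_1 a q A B, fc_4_1_2 a q A B, fc_4_1_3 a q A B, fc_4_1_4 a q A B,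
      fc_4_1_5 a q A B, fc_4_1_6 a q A B, fc_4_1_7 a q A B, fc_4_1_8 a q A B, fc_4_1_9 a q A
      B, fc_4_1_10 a q A B] := by
  rw [pp, fc_3_1, fc_3_0, opA_PL, opA_PL, ← PL_addL]
  congr 1
  simp only [opL, addL, List.cons.injEq, Nat.cast_ofNat, Nat.cast_zero, Nat.cast_one]
  refine ⟨?_, ?_, ?_, ?_, ?_, ?_, ?_, ?_, ?_, ?_, ?_, trivial⟩ <;>
    (simp only [fc_4_1_0, fc_4_1_1, fc_4_1_2, fc_4_1_3, fc_4_1_4, fc_4_1_5, fc_4_1_6, fc_4_1_7, fc_4_1_8,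
      fc_4_1_9, fc_4_1_10, fc_3_1_0, fc_3_1_1, fc_3_1_2, fc_3_1_3, fc_3_1_4, fc_3_1_5,
      fc_3_1_6, fc_3_1_7, fc_3_1_8, fc_3_0_0, fc_3_0_1, fc_3_0_2, fc_3_0_3, fc_3_0_4,
      fc_3_0_5, fc_3_0_6, fc_3_0_7, fc_3_0_8]; ring)

noncomputable def fc_4_2_0 (a q A B : ℝ) : ℝ :=
  144 * B

noncomputable def fc_4_2_1 (a q A B : ℝ) : ℝ :=
  144 * a * B

noncomputable def fc_4_2_2 (a q A B : ℝ) : ℝ :=
  72 * a ^ 2 * B + 36 * q * B - 156 * B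

noncomputable def fc_4_2_3 (a q A B : ℝ) : ℝ :=
  24 * a ^ 3 * B + 36 * a * q * B - 108 * a * B

noncomputable def fc_4_2_4 (a q A B : ℝ) : ℝ :=
  6 * a ^ 4 * B + 18 * a ^ 2 * q * B - 30 * a ^ 2 * B + 3 * q ^ 2 * B - 16 * q * B + 29 * B

noncomputable def fc_4_2_5 (a q A B : ℝ) : ℝ :=
  6 * a ^ 4 * A + 12 * a ^ 3 * q * B - 6 * a ^ 3 * B - 18 * a ^ 2 * q * A - 24 * a ^ 3 - 12 *
  a ^ 2 * A - 14 * a * q * B + 3 * q ^ 2 * A + 36 * a * q + 17 * a * B + 22 * q * A + 72 * a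

noncomputable def fc_4_2_6 (a q A B : ℝ) : ℝ :=
  12 * a ^ 3 * q * A + 6 * a ^ 2 * q ^ 2 * B + 6 * a ^ 4 + 18 * a ^ 3 * A + 24 * a ^ 2 * q * B
  - 12 * a * q ^ 2 * A - 54 * a ^ 2 * q - 15 * a ^ 2 * B - 98 * a * q * A - 14 * q ^ 2 * B -
  138 * a ^ 2 - 25 * a * A + 15 * q ^ 2 - 8 * q * B + 180 * q + 22 * B + 181

noncomputable def fc_4_2_7 (a q A B : ℝ) : ℝ :=
  6 * a ^ 2 * q ^ 2 * A + 12 * a ^ 3 * q + 60 * a ^ 2 * q * A + 24 * a * q ^ 2 * B + 42 * a ^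
  3 + 39 * a ^ 2 * A - 24 * a * q ^ 2 + 30 * a * q * B - 50 * q ^ 2 * A - 326 * a * q - 39 *
  a * B - 160 * q * A - 427 * a

noncomputable def fc_4_2_8 (a q A B : ℝ) : ℝ :=
  6 * a ^ 2 * q ^ 2 + 36 * a * q ^ 2 * A + 96 * a ^ 2 * q + 150 * a * q * A + 39 * q ^ 2 * B +
  165 * a ^ 2 + 39 * a * A - 110 * q ^ 2 - 660 * q - 39 * B - 550

noncomputable def fc_4_2_9 (a q A B : ℝ) : ℝ :=
  48 * a * q ^ 2 + 75 * q ^ 2 * A + 342 * a * q + 150 * q * A + 369 * a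

noncomputable def fc_4_2_10 (a q A B : ℝ) : ℝ :=
  123 * q ^ 2 + 492 * q + 369

theorem fc_4_2 (a q A B : ℝ) :
    pp 0 a q (iniC A B) 4 2 = PL
      [fc_4_2_0 a q A B, fc_4_2_1 a q A B, fc_4_2_2 a q A B, fc_4_2_3 a q A B, fc_4_2_4 a q A B,
      fc_4_2_5 a q A B, fc_4_2_6 a q A B, fc_4_2_7 a q A B, fc_4_2_8 a q A B, fc_4_2_9 a q A
      B, fc_4_2_10 a q A B] := by
  rw [pp, fc_3_2, fc_3_1, opA_PL, opA_PL, ← PL_addL]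
  congr 1
  simp only [opL, addL, List.cons.injEq, Nat.cast_ofNat, Nat.cast_zero, Nat.cast_one]
  refine ⟨?_, ?_, ?_, ?_, ?_, ?_, ?_, ?_, ?_, ?_, ?_, trivial⟩ <;>
    (simp only [fc_4_2_0, fc_4_2_1, fc_4_2_2, fc_4_2_3, fc_4_2_4, fc_4_2_5, fc_4_2_6, fc_4_2_7, fc_4_2_8,
      fc_4_2_9, fc_4_2_10, fc_3_2_0, fc_3_2_1, fc_3_2_2, fc_3_2_3, fc_3_2_4, fc_3_2_5,
      fc_3_2_6, fc_3_2_7, fc_3_2_8, fc_3_1_0, fc_3_1_1, fc_3_1_2, fc_3_1_3, fc_3_1_4,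
      fc_3_1_5, fc_3_1_6, fc_3_1_7, fc_3_1_8]; ring)

noncomputable def fc_4_3_0 (a q A B : ℝ) : ℝ :=
  96 * B

noncomputable def fc_4_3_1 (a q A B : ℝ) : ℝ :=
  96 * a * B

noncomputable def fc_4_3_2 (a q A B : ℝ) : ℝ :=
  48 * a ^ 2 * B + 36 * q * B - 76 * B

noncomputable def fc_4_3_3 (a q A B : ℝ) : ℝ :=
  16 * a ^ 3 * B + 36 * a * q * B - 44 * a * B

noncomputable def fc_4_3_4 (a q A B : ℝ) : ℝ :=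
  4 * a ^ 4 * B + 18 * a ^ 2 * q * B - 6 * a ^ 2 * B + 6 * q ^ 2 * B - 8 * q * B + 2 * B

noncomputable def fc_4_3_5 (a q A B : ℝ) : ℝ :=
  4 * a ^ 4 * A + 12 * a ^ 3 * q * B + 2 * a ^ 3 * B - 18 * a ^ 2 * q * A - 16 * a ^ 3 - 12 *
  a ^ 2 * A - 4 * a * q * B + 6 * q ^ 2 * A + 36 * a * q + 6 * a * B + 20 * q * A + 56 * a

noncomputable def fc_4_3_6 (a q A B : ℝ) : ℝ :=
  12 * a ^ 3 * q * A + 12 * a ^ 2 * q ^ 2 * B + 4 * a ^ 4 + 18 * a ^ 3 * A + 30 * a ^ 2 * q *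
  B - 24 * a * q ^ 2 * A - 2 * q ^ 3 * B - 54 * a ^ 2 * q - 12 * a ^ 2 * B - 100 * a * q * A
  - 20 * q ^ 2 * B - 114 * a ^ 2 - 26 * a * A + 30 * q ^ 2 + 2 * q * B + 180 * q + 20 * B +
  150

noncomputable def fc_4_3_7 (a q A B : ℝ) : ℝ :=
  12 * a ^ 2 * q ^ 2 * A + 4 * a * q ^ 3 * B + 12 * a ^ 3 * q + 66 * a ^ 2 * q * A + 42 * a *
  q ^ 2 * B - 6 * q ^ 3 * A + 34 * a ^ 3 + 42 * a ^ 2 * A - 48 * a * q ^ 2 + 26 * a * q * B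
  - 86 * q ^ 2 * A - 340 * a * q - 42 * a * B - 148 * q * A - 370 * a

noncomputable def fc_4_3_8 (a q A B : ℝ) : ℝ :=
  4 * a * q ^ 3 * A + 12 * a ^ 2 * q ^ 2 + 66 * a * q ^ 2 * A + 14 * q ^ 3 * B + 102 * a ^ 2 *
  q + 158 * a * q * A - 10 * q ^ 3 + 42 * q ^ 2 * B + 144 * a ^ 2 + 42 * a * A - 200 * q ^ 2
  - 14 * q * B - 670 * q - 42 * B - 480

noncomputable def fc_4_3_9 (a q A B : ℝ) : ℝ :=
  4 * a * q ^ 3 + 18 * q ^ 3 * A + 90 * a * q ^ 2 + 108 * q ^ 2 * A + 362 * a * q + 144 * q *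
  A + 330 * a

noncomputable def fc_4_3_10 (a q A B : ℝ) : ℝ :=
  22 * q ^ 3 + 198 * q ^ 2 + 506 * q + 330

theorem fc_4_3 (a q A B : ℝ) :
    pp 0 a q (iniC A B) 4 3 = PL
      [fc_4_3_0 a q A B, fc_4_3_1 a q A B, fc_4_3_2 a q A B, fc_4_3_3 a q A B, fc_4_3_4 a q A B,
      fc_4_3_5 a q A B, fc_4_3_6 a q A B, fc_4_3_7 a q A B, fc_4_3_8 a q A B, fc_4_3_9 a q A
      B, fc_4_3_10 a q A B] := by
  rw [pp, fc_3_3, fc_3_2, opA_PL, opA_PL, ← PL_addL]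
  congr 1
  simp only [opL, addL, List.cons.injEq, Nat.cast_ofNat, Nat.cast_zero, Nat.cast_one]
  refine ⟨?_, ?_, ?_, ?_, ?_, ?_, ?_, ?_, ?_, ?_, ?_, trivial⟩ <;>
    (simp only [fc_4_3_0, fc_4_3_1, fc_4_3_2, fc_4_3_3, fc_4_3_4, fc_4_3_5, fc_4_3_6, fc_4_3_7, fc_4_3_8,
      fc_4_3_9, fc_4_3_10, fc_3_3_0, fc_3_3_1, fc_3_3_2, fc_3_3_3, fc_3_3_4, fc_3_3_5,
      fc_3_3_6, fc_3_3_7, fc_3_3_8, fc_3_2_0, fc_3_2_1, fc_3_2_2, fc_3_2_3, fc_3_2_4,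
      fc_3_2_5, fc_3_2_6, fc_3_2_7, fc_3_2_8]; ring)

noncomputable def fc_4_4_0 (a q A B : ℝ) : ℝ :=
  24 * B

noncomputable def fc_4_4_1 (a q A B : ℝ) : ℝ :=
  24 * a * B

noncomputable def fc_4_4_2 (a q A B : ℝ) : ℝ :=
  12 * a ^ 2 * B + 12 * q * B - 12 * B

noncomputable def fc_4_4_3 (a q A B : ℝ) : ℝ :=
  4 * a ^ 3 * B + 12 * a * q * B - 4 * a * B

noncomputable def fc_4_4_4 (a q A B : ℝ) : ℝ :=
  a ^ 4 * B + 6 * a ^ 2 * q * B + 2 * a ^ 2 * B + 3 * q ^ 2 * B - 3 * B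

noncomputable def fc_4_4_5 (a q A B : ℝ) : ℝ :=
  a ^ 4 * A + 4 * a ^ 3 * q * B + 2 * a ^ 3 * B - 6 * a ^ 2 * q * A - 4 * a ^ 3 - 4 * a ^ 2 *
  A + 2 * a * q * B + 3 * q ^ 2 * A + 12 * a * q + a * B + 6 * q * A + 16 * a

noncomputable def fc_4_4_6 (a q A B : ℝ) : ℝ :=
  4 * a ^ 3 * q * A + 6 * a ^ 2 * q ^ 2 * B + a ^ 4 + 6 * a ^ 3 * A + 12 * a ^ 2 * q * B - 12
  * a * q ^ 2 * A - 2 * q ^ 3 * B - 18 * a ^ 2 * q - 3 * a ^ 2 * B - 34 * a * q * A - 6 * q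
  ^ 2 * B - 34 * a ^ 2 - 9 * a * A + 15 * q ^ 2 + 2 * q * B + 60 * q + 6 * B + 45

noncomputable def fc_4_4_7 (a q A B : ℝ) : ℝ :=
  6 * a ^ 2 * q ^ 2 * A + 4 * a * q ^ 3 * B + 4 * a ^ 3 * q + 24 * a ^ 2 * q * A + 18 * a * q
  ^ 2 * B - 6 * q ^ 3 * A + 10 * a ^ 3 + 15 * a ^ 2 * A - 24 * a * q ^ 2 + 8 * a * q * B -
  36 * q ^ 2 * A - 118 * a * q - 15 * a * B - 48 * q * A - 115 * a

noncomputable def fc_4_4_8 (a q A B : ℝ) : ℝ :=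
  4 * a * q ^ 3 * A + q ^ 4 * B + 6 * a ^ 2 * q ^ 2 + 30 * a * q ^ 2 * A + 8 * q ^ 3 * B + 36
  * a ^ 2 * q + 56 * a * q * A - 10 * q ^ 3 + 14 * q ^ 2 * B + 45 * a ^ 2 + 15 * a * A - 90
  * q ^ 2 - 8 * q * B - 230 * q - 15 * B - 150

noncomputable def fc_4_4_9 (a q A B : ℝ) : ℝ :=
  q ^ 4 * A + 4 * a * q ^ 3 + 12 * q ^ 3 * A + 42 * a * q ^ 2 + 44 * q ^ 2 * A + 128 * a * q +
  48 * q * A + 105 * a

noncomputable def fc_4_4_10 (a q A B : ℝ) : ℝ :=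
  q ^ 4 + 16 * q ^ 3 + 86 * q ^ 2 + 176 * q + 105

theorem fc_4_4 (a q A B : ℝ) :
    pp 0 a q (iniC A B) 4 4 = PL
      [fc_4_4_0 a q A B, fc_4_4_1 a q A B, fc_4_4_2 a q A B, fc_4_4_3 a q A B, fc_4_4_4 a q A B,
      fc_4_4_5 a q A B, fc_4_4_6 a q A B, fc_4_4_7 a q A B, fc_4_4_8 a q A B, fc_4_4_9 a q A
      B, fc_4_4_10 a q A B] := by
  rw [pp, pp_zero _ _ _ _ _ _ (by omega : 3 < 4), fc_3_3, opA_PL, opA_zero, zero_add]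
  congr 1
  simp only [opL, addL, List.cons.injEq, Nat.cast_ofNat, Nat.cast_zero, Nat.cast_one]
  refine ⟨?_, ?_, ?_, ?_, ?_, ?_, ?_, ?_, ?_, ?_, ?_, trivial⟩ <;>
    (simp only [fc_4_4_0, fc_4_4_1, fc_4_4_2, fc_4_4_3, fc_4_4_4, fc_4_4_5, fc_4_4_6, fc_4_4_7, fc_4_4_8,
      fc_4_4_9, fc_4_4_10, fc_3_3_0, fc_3_3_1, fc_3_3_2, fc_3_3_3, fc_3_3_4, fc_3_3_5,
      fc_3_3_6, fc_3_3_7, fc_3_3_8]; ring)

noncomputable def fc_5_0_0 (a q A B : ℝ) : ℝ :=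
  120 * B

noncomputable def fc_5_0_1 (a q A B : ℝ) : ℝ :=
  120 * a * B

noncomputable def fc_5_0_2 (a q A B : ℝ) : ℝ :=
  60 * a ^ 2 * B - 240 * B

noncomputable def fc_5_0_3 (a q A B : ℝ) : ℝ :=
  20 * a ^ 3 * B - 200 * a * B

noncomputable def fc_5_0_4 (a q A B : ℝ) : ℝ :=
  5 * a ^ 4 * B - 80 * a ^ 2 * B + 136 * B

noncomputable def fc_5_0_5 (a q A B : ℝ) : ℝ :=
  a ^ 5 * B - 20 * a ^ 3 * B + 80 * a * B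

noncomputable def fc_5_0_6 (a q A B : ℝ) : ℝ :=
  a ^ 5 * A - 5 * a ^ 4 * B - 5 * a ^ 4 + 20 * a ^ 2 * B + 20 * a ^ 2 - 16 * B - 16

noncomputable def fc_5_0_7 (a q A B : ℝ) : ℝ :=
  a ^ 5 - 20 * a ^ 3 + 80 * a

noncomputable def fc_5_0_8 (a q A B : ℝ) : ℝ :=
  5 * a ^ 4 - 80 * a ^ 2 + 136

noncomputable def fc_5_0_9 (a q A B : ℝ) : ℝ :=
  20 * a ^ 3 - 200 * a

noncomputable def fc_5_0_10 (a q A B : ℝ) : ℝ :=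
  60 * a ^ 2 - 240

noncomputable def fc_5_0_11 (a q A B : ℝ) : ℝ :=
  120 * a

noncomputable def fc_5_0_12 (a q A B : ℝ) : ℝ :=
  120

theorem fc_5_0 (a q A B : ℝ) :
    pp 0 a q (iniC A B) 5 0 = PL
      [fc_5_0_0 a q A B, fc_5_0_1 a q A B, fc_5_0_2 a q A B, fc_5_0_3 a q A B, fc_5_0_4 a q A B,
      fc_5_0_5 a q A B, fc_5_0_6 a q A B, fc_5_0_7 a q A B, fc_5_0_8 a q A B, fc_5_0_9 a q A
      B, fc_5_0_10 a q A B, fc_5_0_11 a q A B, fc_5_0_12 a q A B] := by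
  rw [pp, fc_4_0, opA_PL]
  congr 1
  simp only [opL, addL, List.cons.injEq, Nat.cast_ofNat, Nat.cast_zero, Nat.cast_one]
  refine ⟨?_, ?_, ?_, ?_, ?_, ?_, ?_, ?_, ?_, ?_, ?_, ?_, ?_, trivial⟩ <;>
    (simp only [fc_5_0_0, fc_5_0_1, fc_5_0_2, fc_5_0_3, fc_5_0_4, fc_5_0_5, fc_5_0_6, fc_5_0_7, fc_5_0_8,
      fc_5_0_9, fc_5_0_10, fc_5_0_11, fc_5_0_12, fc_4_0_0, fc_4_0_1, fc_4_0_2, fc_4_0_3,
      fc_4_0_4, fc_4_0_5, fc_4_0_6, fc_4_0_7, fc_4_0_8, fc_4_0_9, fc_4_0_10]; ring)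

noncomputable def fc_5_1_0 (a q A B : ℝ) : ℝ :=
  600 * B

noncomputable def fc_5_1_1 (a q A B : ℝ) : ℝ :=
  600 * a * B

noncomputable def fc_5_1_2 (a q A B : ℝ) : ℝ :=
  300 * a ^ 2 * B + 60 * q * B - 1020 * B

noncomputable def fc_5_1_3 (a q A B : ℝ) : ℝ :=
  100 * a ^ 3 * B + 60 * a * q * B - 820 * a * B

noncomputable def fc_5_1_4 (a q A B : ℝ) : ℝ :=
  25 * a ^ 4 * B + 30 * a ^ 2 * q * B - 310 * a ^ 2 * B - 60 * q * B + 468 * B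

noncomputable def fc_5_1_5 (a q A B : ℝ) : ℝ :=
  5 * a ^ 5 * B + 10 * a ^ 3 * q * B - 70 * a ^ 3 * B - 40 * a * q * B + 248 * a * B

noncomputable def fc_5_1_6 (a q A B : ℝ) : ℝ :=
  5 * a ^ 5 * A + 5 * a ^ 4 * q * B - 15 * a ^ 4 * B - 10 * a ^ 3 * q * A - 25 * a ^ 4 - 10 *
  a ^ 3 * A - 20 * a ^ 2 * q * B + 30 * a ^ 2 * q + 60 * a ^ 2 * B + 40 * a * q * A + 130 *
  a ^ 2 + 8 * a * A + 16 * q * B - 60 * q - 48 * B - 108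

noncomputable def fc_5_1_7 (a q A B : ℝ) : ℝ :=
  5 * a ^ 4 * q * A + 5 * a ^ 5 + 10 * a ^ 4 * A + 10 * a ^ 3 * q * B - 30 * a ^ 3 * q - 10 *
  a ^ 3 * B - 80 * a ^ 2 * q * A - 150 * a ^ 3 - 40 * a ^ 2 * A - 40 * a * q * B + 300 * a *
  q + 40 * a * B + 136 * q * A + 628 * a

noncomputable def fc_5_1_8 (a q A B : ℝ) : ℝ :=
  5 * a ^ 4 * q + 30 * a ^ 3 * q * A + 35 * a ^ 4 + 30 * a ^ 3 * A + 30 * a ^ 2 * q * B - 260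
  * a ^ 2 * q - 30 * a ^ 2 * B - 300 * a * q * A - 680 * a ^ 2 - 60 * a * A - 60 * q * B +
  856 * q + 60 * B + 1128

noncomputable def fc_5_1_9 (a q A B : ℝ) : ℝ :=
  50 * a ^ 3 * q + 120 * a ^ 2 * q * A + 170 * a ^ 3 + 60 * a ^ 2 * A + 60 * a * q * B - 1100
  * a * q - 60 * a * B - 480 * q * A - 1820 * a

noncomputable def fc_5_1_10 (a q A B : ℝ) : ℝ :=
  270 * a ^ 2 * q + 300 * a * q * A + 570 * a ^ 2 + 60 * a * A + 60 * q * B - 1980 * q - 60 *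
  B - 2220

noncomputable def fc_5_1_11 (a q A B : ℝ) : ℝ :=
  840 * a * q + 360 * q * A + 1200 * a

noncomputable def fc_5_1_12 (a q A B : ℝ) : ℝ :=
  1200 * q + 1200

theorem fc_5_1 (a q A B : ℝ) :
    pp 0 a q (iniC A B) 5 1 = PL
      [fc_5_1_0 a q A B, fc_5_1_1 a q A B, fc_5_1_2 a q A B, fc_5_1_3 a q A B, fc_5_1_4 a q A B,
      fc_5_1_5 a q A B, fc_5_1_6 a q A B, fc_5_1_7 a q A B, fc_5_1_8 a q A B, fc_5_1_9 a q A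
      B, fc_5_1_10 a q A B, fc_5_1_11 a q A B, fc_5_1_12 a q A B] := by
  rw [pp, fc_4_1, fc_4_0, opA_PL, opA_PL, ← PL_addL]
  congr 1
  simp only [opL, addL, List.cons.injEq, Nat.cast_ofNat, Nat.cast_zero, Nat.cast_one]
  refine ⟨?_, ?_, ?_, ?_, ?_, ?_, ?_, ?_, ?_, ?_, ?_, ?_, ?_, trivial⟩ <;>
    (simp only [fc_5_1_0, fc_5_1_1, fc_5_1_2, fc_5_1_3, fc_5_1_4, fc_5_1_5, fc_5_1_6, fc_5_1_7, fc_5_1_8,
      fc_5_1_9, fc_5_1_10, fc_5_1_11, fc_5_1_12, fc_4_1_0, fc_4_1_1, fc_4_1_2, fc_4_1_3,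
      fc_4_1_4, fc_4_1_5, fc_4_1_6, fc_4_1_7, fc_4_1_8, fc_4_1_9, fc_4_1_10, fc_4_0_0,
      fc_4_0_1, fc_4_0_2, fc_4_0_3, fc_4_0_4, fc_4_0_5, fc_4_0_6, fc_4_0_7, fc_4_0_8,
      fc_4_0_9, fc_4_0_10]; ring)

noncomputable def fc_5_2_0 (a q A B : ℝ) : ℝ :=
  1200 * B

noncomputable def fc_5_2_1 (a q A B : ℝ) : ℝ :=
  1200 * a * B

noncomputable def fc_5_2_2 (a q A B : ℝ) : ℝ :=
  600 * a ^ 2 * B + 240 * q * B - 1680 * B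

noncomputable def fc_5_2_3 (a q A B : ℝ) : ℝ :=
  200 * a ^ 3 * B + 240 * a * q * B - 1280 * a * B

noncomputable def fc_5_2_4 (a q A B : ℝ) : ℝ :=
  50 * a ^ 4 * B + 120 * a ^ 2 * q * B - 440 * a ^ 2 * B + 15 * q ^ 2 * B - 180 * q * B + 573
  * B

noncomputable def fc_5_2_5 (a q A B : ℝ) : ℝ :=
  10 * a ^ 5 * B + 40 * a ^ 3 * q * B - 80 * a ^ 3 * B + 15 * a * q ^ 2 * B - 100 * a * q * B
  + 253 * a * B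

noncomputable def fc_5_2_6 (a q A B : ℝ) : ℝ :=
  10 * a ^ 5 * A + 20 * a ^ 4 * q * B - 10 * a ^ 4 * B - 40 * a ^ 3 * q * A - 50 * a ^ 4 - 40
  * a ^ 3 * A - 50 * a ^ 2 * q * B + 15 * a * q ^ 2 * A + 120 * a ^ 2 * q + 70 * a ^ 2 * B +
  160 * a * q * A + 15 * q ^ 2 * B + 320 * a ^ 2 + 33 * a * A - 15 * q ^ 2 + 32 * q * B -
  240 * q - 63 * B - 273

noncomputable def fc_5_2_7 (a q A B : ℝ) : ℝ :=
  20 * a ^ 4 * q * A + 10 * a ^ 3 * q ^ 2 * B + 10 * a ^ 5 + 40 * a ^ 4 * A + 60 * a ^ 3 * q *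
  B - 30 * a ^ 2 * q ^ 2 * A - 120 * a ^ 3 * q - 25 * a ^ 3 * B - 350 * a ^ 2 * q * A - 70 *
  a * q ^ 2 * B - 400 * a ^ 3 - 175 * a ^ 2 * A + 75 * a * q ^ 2 - 120 * a * q * B + 120 * q
  ^ 2 * A + 1260 * a * q + 160 * a * B + 512 * q * A + 1743 * a

noncomputable def fc_5_2_8 (a q A B : ℝ) : ℝ :=
  10 * a ^ 3 * q ^ 2 * A + 20 * a ^ 4 * q + 140 * a ^ 3 * q * A + 60 * a ^ 2 * q ^ 2 * B + 90
  * a ^ 4 + 135 * a ^ 3 * A - 60 * a ^ 2 * q ^ 2 + 150 * a ^ 2 * q * B - 250 * a * q ^ 2 * A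
  - 1130 * a ^ 2 * q - 120 * a ^ 2 * B - 1280 * a * q * A - 195 * q ^ 2 * B - 1980 * a ^ 2 -
  270 * a * A + 465 * q ^ 2 - 60 * q * B + 3572 * q + 255 * B + 3243

noncomputable def fc_5_2_9 (a q A B : ℝ) : ℝ :=
  10 * a ^ 3 * q ^ 2 + 90 * a ^ 2 * q ^ 2 * A + 220 * a ^ 3 * q + 570 * a ^ 2 * q * A + 195 *
  a * q ^ 2 * B + 495 * a ^ 3 + 285 * a ^ 2 * A - 550 * a * q ^ 2 + 180 * a * q * B - 660 *
  q ^ 2 * A - 4840 * a * q - 285 * a * B - 1800 * q * A - 5520 * a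

noncomputable def fc_5_2_10 (a q A B : ℝ) : ℝ :=
  120 * a ^ 2 * q ^ 2 + 375 * a * q ^ 2 * A + 1230 * a ^ 2 * q + 1320 * a * q * A + 285 * q ^
  2 * B + 1770 * a ^ 2 + 285 * a * A - 1605 * q ^ 2 - 8400 * q - 285 * B - 6795

noncomputable def fc_5_2_11 (a q A B : ℝ) : ℝ :=
  615 * a * q ^ 2 + 660 * q ^ 2 * A + 3780 * a * q + 1320 * q * A + 3825 * a

noncomputable def fc_5_2_12 (a q A B : ℝ) : ℝ :=
  1275 * q ^ 2 + 5100 * q + 3825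

theorem fc_5_2 (a q A B : ℝ) :
    pp 0 a q (iniC A B) 5 2 = PL
      [fc_5_2_0 a q A B, fc_5_2_1 a q A B, fc_5_2_2 a q A B, fc_5_2_3 a q A B, fc_5_2_4 a q A B,
      fc_5_2_5 a q A B, fc_5_2_6 a q A B, fc_5_2_7 a q A B, fc_5_2_8 a q A B, fc_5_2_9 a q A
      B, fc_5_2_10 a q A B, fc_5_2_11 a q A B, fc_5_2_12 a q A B] := by
  rw [pp, fc_4_2, fc_4_1, opA_PL, opA_PL, ← PL_addL]
  congr 1
  simp only [opL, addL, List.cons.injEq, Nat.cast_ofNat, Nat.cast_zero, Nat.cast_one]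
  refine ⟨?_, ?_, ?_, ?_, ?_, ?_, ?_, ?_, ?_, ?_, ?_, ?_, ?_, trivial⟩ <;>
    (simp only [fc_5_2_0, fc_5_2_1, fc_5_2_2, fc_5_2_3, fc_5_2_4, fc_5_2_5, fc_5_2_6, fc_5_2_7, fc_5_2_8,
      fc_5_2_9, fc_5_2_10, fc_5_2_11, fc_5_2_12, fc_4_2_0, fc_4_2_1, fc_4_2_2, fc_4_2_3,
      fc_4_2_4, fc_4_2_5, fc_4_2_6, fc_4_2_7, fc_4_2_8, fc_4_2_9, fc_4_2_10, fc_4_1_0,
      fc_4_1_1, fc_4_1_2, fc_4_1_3, fc_4_1_4, fc_4_1_5, fc_4_1_6, fc_4_1_7, fc_4_1_8,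
      fc_4_1_9, fc_4_1_10]; ring)

noncomputable def fc_5_3_0 (a q A B : ℝ) : ℝ :=
  1200 * B

noncomputable def fc_5_3_1 (a q A B : ℝ) : ℝ :=
  1200 * a * B

noncomputable def fc_5_3_2 (a q A B : ℝ) : ℝ :=
  600 * a ^ 2 * B + 360 * q * B - 1320 * B

noncomputable def fc_5_3_3 (a q A B : ℝ) : ℝ :=
  200 * a ^ 3 * B + 360 * a * q * B - 920 * a * B

noncomputable def fc_5_3_4 (a q A B : ℝ) : ℝ :=
  50 * a ^ 4 * B + 180 * a ^ 2 * q * B - 260 * a ^ 2 * B + 45 * q ^ 2 * B - 180 * q * B + 271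
  * B

noncomputable def fc_5_3_5 (a q A B : ℝ) : ℝ :=
  10 * a ^ 5 * B + 60 * a ^ 3 * q * B - 20 * a ^ 3 * B + 45 * a * q ^ 2 * B - 60 * a * q * B +
  71 * a * B

noncomputable def fc_5_3_6 (a q A B : ℝ) : ℝ :=
  10 * a ^ 5 * A + 30 * a ^ 4 * q * B + 10 * a ^ 4 * B - 60 * a ^ 3 * q * A - 50 * a ^ 4 - 60
  * a ^ 3 * A - 30 * a ^ 2 * q * B + 45 * a * q ^ 2 * A + 5 * q ^ 3 * B + 180 * a ^ 2 * q +
  50 * a ^ 2 * B + 240 * a * q * A + 45 * q ^ 2 * B + 380 * a ^ 2 + 51 * a * A - 45 * q ^ 2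
  + 11 * q * B - 360 * q - 61 * B - 331

noncomputable def fc_5_3_7 (a q A B : ℝ) : ℝ :=
  30 * a ^ 4 * q * A + 30 * a ^ 3 * q ^ 2 * B + 10 * a ^ 5 + 60 * a ^ 4 * A + 120 * a ^ 3 * q
  * B - 90 * a ^ 2 * q ^ 2 * A - 10 * a * q ^ 3 * B - 180 * a ^ 3 * q - 15 * a ^ 3 * B - 570
  * a ^ 2 * q * A - 180 * a * q ^ 2 * B + 15 * q ^ 3 * A - 500 * a ^ 3 - 285 * a ^ 2 * A +
  225 * a * q ^ 2 - 125 * a * q * B + 330 * q ^ 2 * A + 1980 * a * q + 240 * a * B + 736 * q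
  * A + 2261 * a

noncomputable def fc_5_3_8 (a q A B : ℝ) : ℝ :=
  30 * a ^ 3 * q ^ 2 * A + 10 * a ^ 2 * q ^ 3 * B + 30 * a ^ 4 * q + 240 * a ^ 3 * q * A + 180
  * a ^ 2 * q ^ 2 * B - 30 * a * q ^ 3 * A + 110 * a ^ 4 + 225 * a ^ 3 * A - 180 * a ^ 2 * q
  ^ 2 + 275 * a ^ 2 * q * B - 720 * a * q ^ 2 * A - 70 * q ^ 3 * B - 1830 * a ^ 2 * q - 180
  * a ^ 2 * B - 2055 * a * q * A + 45 * q ^ 3 - 405 * q ^ 2 * B - 2660 * a ^ 2 - 450 * a * A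
  + 1335 * q ^ 2 + 70 * q * B + 5611 * q + 405 * B + 4321

noncomputable def fc_5_3_9 (a q A B : ℝ) : ℝ :=
  10 * a ^ 2 * q ^ 3 * A + 30 * a ^ 3 * q ^ 2 + 270 * a ^ 2 * q ^ 2 * A + 70 * a * q ^ 3 * B +
  360 * a ^ 3 * q + 995 * a ^ 2 * q * A - 50 * a * q ^ 3 + 495 * a * q ^ 2 * B - 170 * q ^ 3
  * A + 665 * a ^ 3 + 495 * a ^ 2 * A - 1620 * a * q ^ 2 + 215 * a * q * B - 1680 * q ^ 2 *
  A - 7945 * a * q - 495 * a * B - 2680 * q * A - 7640 * a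

noncomputable def fc_5_3_10 (a q A B : ℝ) : ℝ :=
  10 * a ^ 2 * q ^ 3 + 90 * a * q ^ 3 * A + 360 * a ^ 2 * q ^ 2 + 1035 * a * q ^ 2 * A + 165 *
  q ^ 3 * B + 2075 * a ^ 2 * q + 2205 * a * q * A - 310 * q ^ 3 + 495 * q ^ 2 * B + 2490 * a
  ^ 2 + 495 * a * A - 4395 * q ^ 2 - 165 * q * B - 13550 * q - 495 * B - 9465

noncomputable def fc_5_3_11 (a q A B : ℝ) : ℝ :=
  110 * a * q ^ 3 + 255 * q ^ 3 * A + 1755 * a * q ^ 2 + 1530 * q ^ 2 * A + 6355 * a * q +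
  2040 * q * A + 5475 * a

noncomputable def fc_5_3_12 (a q A B : ℝ) : ℝ :=
  365 * q ^ 3 + 3285 * q ^ 2 + 8395 * q + 5475

theorem fc_5_3 (a q A B : ℝ) :
    pp 0 a q (iniC A B) 5 3 = PL
      [fc_5_3_0 a q A B, fc_5_3_1 a q A B, fc_5_3_2 a q A B, fc_5_3_3 a q A B, fc_5_3_4 a q A B,
      fc_5_3_5 a q A B, fc_5_3_6 a q A B, fc_5_3_7 a q A B, fc_5_3_8 a q A B, fc_5_3_9 a q A
      B, fc_5_3_10 a q A B, fc_5_3_11 a q A B, fc_5_3_12 a q A B] := by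
  rw [pp, fc_4_3, fc_4_2, opA_PL, opA_PL, ← PL_addL]
  congr 1
  simp only [opL, addL, List.cons.injEq, Nat.cast_ofNat, Nat.cast_zero, Nat.cast_one]
  refine ⟨?_, ?_, ?_, ?_, ?_, ?_, ?_, ?_, ?_, ?_, ?_, ?_, ?_, trivial⟩ <;>
    (simp only [fc_5_3_0, fc_5_3_1, fc_5_3_2, fc_5_3_3, fc_5_3_4, fc_5_3_5, fc_5_3_6, fc_5_3_7, fc_5_3_8,
      fc_5_3_9, fc_5_3_10, fc_5_3_11, fc_5_3_12, fc_4_3_0, fc_4_3_1, fc_4_3_2, fc_4_3_3,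
      fc_4_3_4, fc_4_3_5, fc_4_3_6, fc_4_3_7, fc_4_3_8, fc_4_3_9, fc_4_3_10, fc_4_2_0,
      fc_4_2_1, fc_4_2_2, fc_4_2_3, fc_4_2_4, fc_4_2_5, fc_4_2_6, fc_4_2_7, fc_4_2_8,
      fc_4_2_9, fc_4_2_10]; ring)

noncomputable def fc_5_4_0 (a q A B : ℝ) : ℝ :=
  600 * B

noncomputable def fc_5_4_1 (a q A B : ℝ) : ℝ :=
  600 * a * B

noncomputable def fc_5_4_2 (a q A B : ℝ) : ℝ :=
  300 * a ^ 2 * B + 240 * q * B - 480 * B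

noncomputable def fc_5_4_3 (a q A B : ℝ) : ℝ :=
  100 * a ^ 3 * B + 240 * a * q * B - 280 * a * B

noncomputable def fc_5_4_4 (a q A B : ℝ) : ℝ :=
  25 * a ^ 4 * B + 120 * a ^ 2 * q * B - 40 * a ^ 2 * B + 45 * q ^ 2 * B - 60 * q * B + 15 * B

noncomputable def fc_5_4_5 (a q A B : ℝ) : ℝ :=
  5 * a ^ 5 * B + 40 * a ^ 3 * q * B + 20 * a ^ 3 * B + 45 * a * q ^ 2 * B + 20 * a * q * B -
  25 * a * B

noncomputable def fc_5_4_6 (a q A B : ℝ) : ℝ :=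
  5 * a ^ 5 * A + 20 * a ^ 4 * q * B + 15 * a ^ 4 * B - 40 * a ^ 3 * q * A - 25 * a ^ 4 - 40 *
  a ^ 3 * A + 10 * a ^ 2 * q * B + 45 * a * q ^ 2 * A + 10 * q ^ 3 * B + 120 * a ^ 2 * q +
  30 * a ^ 2 * B + 160 * a * q * A + 45 * q ^ 2 * B + 220 * a ^ 2 + 35 * a * A - 45 * q ^ 2
  - 10 * q * B - 240 * q - 45 * B - 195

noncomputable def fc_5_4_7 (a q A B : ℝ) : ℝ :=
  20 * a ^ 4 * q * A + 30 * a ^ 3 * q ^ 2 * B + 5 * a ^ 5 + 40 * a ^ 4 * A + 100 * a ^ 3 * q *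
  B - 90 * a ^ 2 * q ^ 2 * A - 20 * a * q ^ 3 * B - 120 * a ^ 3 * q + 5 * a ^ 3 * B - 410 *
  a ^ 2 * q * A - 150 * a * q ^ 2 * B + 30 * q ^ 3 * A - 300 * a ^ 3 - 205 * a ^ 2 * A + 225
  * a * q ^ 2 - 50 * a * q * B + 300 * q ^ 2 * A + 1380 * a * q + 160 * a * B + 480 * q * A
  + 1405 * a

noncomputable def fc_5_4_8 (a q A B : ℝ) : ℝ :=
  30 * a ^ 3 * q ^ 2 * A + 20 * a ^ 2 * q ^ 3 * B + 20 * a ^ 4 * q + 180 * a ^ 3 * q * A + 180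
  * a ^ 2 * q ^ 2 * B - 60 * a * q ^ 3 * A - 5 * q ^ 4 * B + 65 * a ^ 4 + 165 * a ^ 3 * A -
  180 * a ^ 2 * q ^ 2 + 220 * a ^ 2 * q * B - 690 * a * q ^ 2 * A - 110 * q ^ 3 * B - 1310 *
  a ^ 2 * q - 120 * a ^ 2 * B - 1470 * a * q * A + 90 * q ^ 3 - 280 * q ^ 2 * B - 1700 * a ^
  2 - 330 * a * A + 1275 * q ^ 2 + 110 * q * B + 3930 * q + 285 * B + 2745

noncomputable def fc_5_4_9 (a q A B : ℝ) : ℝ :=
  20 * a ^ 2 * q ^ 3 * A + 5 * a * q ^ 4 * B + 30 * a ^ 3 * q ^ 2 + 270 * a ^ 2 * q ^ 2 * A +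
  120 * a * q ^ 3 * B - 10 * q ^ 4 * A + 260 * a ^ 3 * q + 760 * a ^ 2 * q * A - 100 * a * q
  ^ 3 + 430 * a * q ^ 2 * B - 290 * q ^ 3 * A + 425 * a ^ 3 + 375 * a ^ 2 * A - 1590 * a * q
  ^ 2 + 120 * a * q * B - 1460 * q ^ 2 * A - 5770 * a * q - 375 * a * B - 1840 * q * A -
  5000 * a

noncomputable def fc_5_4_10 (a q A B : ℝ) : ℝ :=
  5 * a * q ^ 4 * A + 20 * a ^ 2 * q ^ 3 + 160 * a * q ^ 3 * A + 25 * q ^ 4 * B + 360 * a ^ 2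
  * q ^ 2 + 970 * a * q ^ 2 * A - 15 * q ^ 4 + 200 * q ^ 3 * B + 1540 * a ^ 2 * q + 1640 * a
  * q * A - 550 * q ^ 3 + 350 * q ^ 2 * B + 1650 * a ^ 2 + 375 * a * A - 4080 * q ^ 2 - 200
  * q * B - 9770 * q - 375 * B - 6225

noncomputable def fc_5_4_11 (a q A B : ℝ) : ℝ :=
  5 * a * q ^ 4 + 30 * q ^ 4 * A + 200 * a * q ^ 3 + 360 * q ^ 3 * A + 1690 * a * q ^ 2 + 1320
  * q ^ 2 * A + 4720 * a * q + 1440 * q * A + 3675 * a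

noncomputable def fc_5_4_12 (a q A B : ℝ) : ℝ :=
  35 * q ^ 4 + 560 * q ^ 3 + 3010 * q ^ 2 + 6160 * q + 3675

theorem fc_5_4 (a q A B : ℝ) :
    pp 0 a q (iniC A B) 5 4 = PL
      [fc_5_4_0 a q A B, fc_5_4_1 a q A B, fc_5_4_2 a q A B, fc_5_4_3 a q A B, fc_5_4_4 a q A B,
      fc_5_4_5 a q A B, fc_5_4_6 a q A B, fc_5_4_7 a q A B, fc_5_4_8 a q A B, fc_5_4_9 a q A
      B, fc_5_4_10 a q A B, fc_5_4_11 a q A B, fc_5_4_12 a q A B] := by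
  rw [pp, fc_4_4, fc_4_3, opA_PL, opA_PL, ← PL_addL]
  congr 1
  simp only [opL, addL, List.cons.injEq, Nat.cast_ofNat, Nat.cast_zero, Nat.cast_one]
  refine ⟨?_, ?_, ?_, ?_, ?_, ?_, ?_, ?_, ?_, ?_, ?_, ?_, ?_, trivial⟩ <;>
    (simp only [fc_5_4_0, fc_5_4_1, fc_5_4_2, fc_5_4_3, fc_5_4_4, fc_5_4_5, fc_5_4_6, fc_5_4_7, fc_5_4_8,
      fc_5_4_9, fc_5_4_10, fc_5_4_11, fc_5_4_12, fc_4_4_0, fc_4_4_1, fc_4_4_2, fc_4_4_3,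
      fc_4_4_4, fc_4_4_5, fc_4_4_6, fc_4_4_7, fc_4_4_8, fc_4_4_9, fc_4_4_10, fc_4_3_0,
      fc_4_3_1, fc_4_3_2, fc_4_3_3, fc_4_3_4, fc_4_3_5, fc_4_3_6, fc_4_3_7, fc_4_3_8,
      fc_4_3_9, fc_4_3_10]; ring)

noncomputable def fc_5_5_0 (a q A B : ℝ) : ℝ :=
  120 * B

noncomputable def fc_5_5_1 (a q A B : ℝ) : ℝ :=
  120 * a * B

noncomputable def fc_5_5_2 (a q A B : ℝ) : ℝ :=
  60 * a ^ 2 * B + 60 * q * B - 60 * B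

noncomputable def fc_5_5_3 (a q A B : ℝ) : ℝ :=
  20 * a ^ 3 * B + 60 * a * q * B - 20 * a * B

noncomputable def fc_5_5_4 (a q A B : ℝ) : ℝ :=
  5 * a ^ 4 * B + 30 * a ^ 2 * q * B + 10 * a ^ 2 * B + 15 * q ^ 2 * B - 15 * B

noncomputable def fc_5_5_5 (a q A B : ℝ) : ℝ :=
  a ^ 5 * B + 10 * a ^ 3 * q * B + 10 * a ^ 3 * B + 15 * a * q ^ 2 * B + 20 * a * q * B - 11 *
  a * B

noncomputable def fc_5_5_6 (a q A B : ℝ) : ℝ :=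
  a ^ 5 * A + 5 * a ^ 4 * q * B + 5 * a ^ 4 * B - 10 * a ^ 3 * q * A - 5 * a ^ 4 - 10 * a ^ 3
  * A + 10 * a ^ 2 * q * B + 15 * a * q ^ 2 * A + 5 * q ^ 3 * B + 30 * a ^ 2 * q + 10 * a ^
  2 * B + 40 * a * q * A + 15 * q ^ 2 * B + 50 * a ^ 2 + 9 * a * A - 15 * q ^ 2 - 5 * q * B
  - 60 * q - 15 * B - 45

noncomputable def fc_5_5_7 (a q A B : ℝ) : ℝ :=
  5 * a ^ 4 * q * A + 10 * a ^ 3 * q ^ 2 * B + a ^ 5 + 10 * a ^ 4 * A + 30 * a ^ 3 * q * B -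
  30 * a ^ 2 * q ^ 2 * A - 10 * a * q ^ 3 * B - 30 * a ^ 3 * q + 5 * a ^ 3 * B - 110 * a ^ 2
  * q * A - 40 * a * q ^ 2 * B + 15 * q ^ 3 * A - 70 * a ^ 3 - 55 * a ^ 2 * A + 75 * a * q ^
  2 - 5 * a * q * B + 90 * q ^ 2 * A + 360 * a * q + 40 * a * B + 120 * q * A + 339 * a

noncomputable def fc_5_5_8 (a q A B : ℝ) : ℝ :=
  10 * a ^ 3 * q ^ 2 * A + 10 * a ^ 2 * q ^ 3 * B + 5 * a ^ 4 * q + 50 * a ^ 3 * q * A + 60 *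
  a ^ 2 * q ^ 2 * B - 30 * a * q ^ 3 * A - 5 * q ^ 4 * B + 15 * a ^ 4 + 45 * a ^ 3 * A - 60
  * a ^ 2 * q ^ 2 + 65 * a ^ 2 * q * B - 220 * a * q ^ 2 * A - 40 * q ^ 3 * B - 350 * a ^ 2
  * q - 30 * a ^ 2 * B - 395 * a * q * A + 45 * q ^ 3 - 70 * q ^ 2 * B - 420 * a ^ 2 - 90 *
  a * A + 405 * q ^ 2 + 40 * q * B + 1035 * q + 75 * B + 675

noncomputable def fc_5_5_9 (a q A B : ℝ) : ℝ :=
  10 * a ^ 2 * q ^ 3 * A + 5 * a * q ^ 4 * B + 10 * a ^ 3 * q ^ 2 + 90 * a ^ 2 * q ^ 2 * A +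
  50 * a * q ^ 3 * B - 10 * q ^ 4 * A + 70 * a ^ 3 * q + 215 * a ^ 2 * q * A - 50 * a * q ^
  3 + 130 * a * q ^ 2 * B - 120 * q ^ 3 * A + 105 * a ^ 3 + 105 * a ^ 2 * A - 520 * a * q ^
  2 + 25 * a * q * B - 440 * q ^ 2 * A - 1565 * a * q - 105 * a * B - 480 * q * A - 1260 * a

noncomputable def fc_5_5_10 (a q A B : ℝ) : ℝ :=
  5 * a * q ^ 4 * A + q ^ 5 * B + 10 * a ^ 2 * q ^ 3 + 70 * a * q ^ 3 * A + 15 * q ^ 4 * B +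
  120 * a ^ 2 * q ^ 2 + 310 * a * q ^ 2 * A - 15 * q ^ 4 + 70 * q ^ 3 * B + 425 * a ^ 2 * q
  + 455 * a * q * A - 240 * q ^ 3 + 90 * q ^ 2 * B + 420 * a ^ 2 + 105 * a * A - 1290 * q ^
  2 - 71 * q * B - 2640 * q - 105 * B - 1575

noncomputable def fc_5_5_11 (a q A B : ℝ) : ℝ :=
  q ^ 5 * A + 5 * a * q ^ 4 + 20 * q ^ 4 * A + 90 * a * q ^ 3 + 140 * q ^ 3 * A + 550 * a * q
  ^ 2 + 400 * q ^ 2 * A + 1305 * a * q + 384 * q * A + 945 * a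

noncomputable def fc_5_5_12 (a q A B : ℝ) : ℝ :=
  q ^ 5 + 25 * q ^ 4 + 230 * q ^ 3 + 950 * q ^ 2 + 1689 * q + 945

theorem fc_5_5 (a q A B : ℝ) :
    pp 0 a q (iniC A B) 5 5 = PL
      [fc_5_5_0 a q A B, fc_5_5_1 a q A B, fc_5_5_2 a q A B, fc_5_5_3 a q A B, fc_5_5_4 a q A B,
      fc_5_5_5 a q A B, fc_5_5_6 a q A B, fc_5_5_7 a q A B, fc_5_5_8 a q A B, fc_5_5_9 a q A
      B, fc_5_5_10 a q A B, fc_5_5_11 a q A B, fc_5_5_12 a q A B] := by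
  rw [pp, pp_zero _ _ _ _ _ _ (by omega : 4 < 5), fc_4_4, opA_PL, opA_zero, zero_add]
  congr 1
  simp only [opL, addL, List.cons.injEq, Nat.cast_ofNat, Nat.cast_zero, Nat.cast_one]
  refine ⟨?_, ?_, ?_, ?_, ?_, ?_, ?_, ?_, ?_, ?_, ?_, ?_, ?_, trivial⟩ <;>
    (simp only [fc_5_5_0, fc_5_5_1, fc_5_5_2, fc_5_5_3, fc_5_5_4, fc_5_5_5, fc_5_5_6, fc_5_5_7, fc_5_5_8,
      fc_5_5_9, fc_5_5_10, fc_5_5_11, fc_5_5_12, fc_4_4_0, fc_4_4_1, fc_4_4_2, fc_4_4_3,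
      fc_4_4_4, fc_4_4_5, fc_4_4_6, fc_4_4_7, fc_4_4_8, fc_4_4_9, fc_4_4_10]; ring)

end Pool.Agent.KIQ.POLY
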