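import Mathlib
import Pool.Agent.KIQ.POLY0

/-!
# KIQ, module POLYFG: explicit forms of the polynomials for (G)
-/

set_option autoImplicit false
set_option linter.unusedSimpArgs false
set_option linter.unusedVariables false

open Polynomial

namespace Pool.Agent.KIQ.POLY

noncomputable def fg_0_0_0 (a q : ℝ) : ℝ :=
  q - 1

noncomputable def fg_0_0_1 (a q : ℝ) : ℝ :=
  a

noncomputable def fg_0_0_2 (a q : ℝ) : ℝ :=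
  q

theorem fg_0_0 (a q : ℝ) :
    pp 1 a q (iniG a q) 0 0 = PL
      [fg_0_0_0 a q, fg_0_0_1 a q, fg_0_0_2 a q] := by
  rw [pp, iniG, ini_PL]
  rfl

noncomputable def fg_1_0_0 (a q : ℝ) : ℝ :=
  q - 1

noncomputable def fg_1_0_1 (a q : ℝ) : ℝ :=
  a * q - a

noncomputable def fg_1_0_2 (a q : ℝ) : ℝ :=
  a ^ 2 - q

noncomputable def fg_1_0_3 (a q : ℝ) : ℝ :=
  a * q + a

noncomputable def fg_1_0_4 (a q : ℝ) : ℝ :=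
  2 * q

theorem fg_1_0 (a q : ℝ) :
    pp 1 a q (iniG a q) 1 0 = PL
      [fg_1_0_0 a q, fg_1_0_1 a q, fg_1_0_2 a q, fg_1_0_3 a q, fg_1_0_4 a q] := by
  rw [pp, fg_0_0, opA_PL]
  congr 1
  simp only [opL, addL, List.cons.injEq, Nat.cast_ofNat, Nat.cast_zero, Nat.cast_one]
  refine ⟨?_, ?_, ?_, ?_, ?_, trivial⟩ <;>
    (simp only [fg_1_0_0, fg_1_0_1, fg_1_0_2, fg_1_0_3, fg_1_0_4, fg_0_0_0, fg_0_0_1, fg_0_0_2]; ring)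

noncomputable def fg_1_1_0 (a q : ℝ) : ℝ :=
  q - 1

noncomputable def fg_1_1_1 (a q : ℝ) : ℝ :=
  a * q - a

noncomputable def fg_1_1_2 (a q : ℝ) : ℝ :=
  a ^ 2 + q ^ 2 - 2 * q

noncomputable def fg_1_1_3 (a q : ℝ) : ℝ :=
  2 * a * q + a

noncomputable def fg_1_1_4 (a q : ℝ) : ℝ :=
  q ^ 2 + 2 * q

theorem fg_1_1 (a q : ℝ) :
    pp 1 a q (iniG a q) 1 1 = PL
      [fg_1_1_0 a q, fg_1_1_1 a q, fg_1_1_2 a q, fg_1_1_3 a q, fg_1_1_4 a q] := by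
  rw [pp, pp_zero _ _ _ _ _ _ (by omega : 0 < 1), fg_0_0, opA_PL, opA_zero, zero_add]
  congr 1
  simp only [opL, addL, List.cons.injEq, Nat.cast_ofNat, Nat.cast_zero, Nat.cast_one]
  refine ⟨?_, ?_, ?_, ?_, ?_, trivial⟩ <;>
    (simp only [fg_1_1_0, fg_1_1_1, fg_1_1_2, fg_1_1_3, fg_1_1_4, fg_0_0_0, fg_0_0_1, fg_0_0_2]; ring)

noncomputable def fg_2_0_0 (a q : ℝ) : ℝ :=
  2 * q - 2

noncomputable def fg_2_0_1 (a q : ℝ) : ℝ :=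
  2 * a * q - 2 * a

noncomputable def fg_2_0_2 (a q : ℝ) : ℝ :=
  a ^ 2 * q - a ^ 2 - q + 1

noncomputable def fg_2_0_3 (a q : ℝ) : ℝ :=
  a ^ 3 - 2 * a * q - a

noncomputable def fg_2_0_4 (a q : ℝ) : ℝ :=
  a ^ 2 * q + 2 * a ^ 2 - 5 * q

noncomputable def fg_2_0_5 (a q : ℝ) : ℝ :=
  4 * a * q + 2 * a

noncomputable def fg_2_0_6 (a q : ℝ) : ℝ :=
  6 * q

theorem fg_2_0 (a q : ℝ) :
    pp 1 a q (iniG a q) 2 0 = PL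
      [fg_2_0_0 a q, fg_2_0_1 a q, fg_2_0_2 a q, fg_2_0_3 a q, fg_2_0_4 a q, fg_2_0_5 a q,
      fg_2_0_6 a q] := by
  rw [pp, fg_1_0, opA_PL]
  congr 1
  simp only [opL, addL, List.cons.injEq, Nat.cast_ofNat, Nat.cast_zero, Nat.cast_one]
  refine ⟨?_, ?_, ?_, ?_, ?_, ?_, ?_, trivial⟩ <;>
    (simp only [fg_2_0_0, fg_2_0_1, fg_2_0_2, fg_2_0_3, fg_2_0_4, fg_2_0_5, fg_2_0_6, fg_1_0_0, fg_1_0_1,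
      fg_1_0_2, fg_1_0_3, fg_1_0_4]; ring)

noncomputable def fg_2_1_0 (a q : ℝ) : ℝ :=
  4 * q - 4

noncomputable def fg_2_1_1 (a q : ℝ) : ℝ :=
  4 * a * q - 4 * a

noncomputable def fg_2_1_2 (a q : ℝ) : ℝ :=
  2 * a ^ 2 * q - 2 * a ^ 2 + q ^ 2 - 2 * q + 1

noncomputable def fg_2_1_3 (a q : ℝ) : ℝ :=
  2 * a ^ 3 + 2 * a * q ^ 2 - 6 * a * q - 3 * a

noncomputable def fg_2_1_4 (a q : ℝ) : ℝ :=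
  4 * a ^ 2 * q + 5 * a ^ 2 - 14 * q

noncomputable def fg_2_1_5 (a q : ℝ) : ℝ :=
  2 * a * q ^ 2 + 14 * a * q + 5 * a

noncomputable def fg_2_1_6 (a q : ℝ) : ℝ :=
  7 * q ^ 2 + 14 * q

theorem fg_2_1 (a q : ℝ) :
    pp 1 a q (iniG a q) 2 1 = PL
      [fg_2_1_0 a q, fg_2_1_1 a q, fg_2_1_2 a q, fg_2_1_3 a q, fg_2_1_4 a q, fg_2_1_5 a q,
      fg_2_1_6 a q] := by
  rw [pp, fg_1_1, fg_1_0, opA_PL, opA_PL, ← PL_addL]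
  congr 1
  simp only [opL, addL, List.cons.injEq, Nat.cast_ofNat, Nat.cast_zero, Nat.cast_one]
  refine ⟨?_, ?_, ?_, ?_, ?_, ?_, ?_, trivial⟩ <;>
    (simp only [fg_2_1_0, fg_2_1_1, fg_2_1_2, fg_2_1_3, fg_2_1_4, fg_2_1_5, fg_2_1_6, fg_1_1_0, fg_1_1_1,
      fg_1_1_2, fg_1_1_3, fg_1_1_4, fg_1_0_0, fg_1_0_1, fg_1_0_2, fg_1_0_3, fg_1_0_4]; ring)

noncomputable def fg_2_2_0 (a q : ℝ) : ℝ :=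
  2 * q - 2

noncomputable def fg_2_2_1 (a q : ℝ) : ℝ :=
  2 * a * q - 2 * a

noncomputable def fg_2_2_2 (a q : ℝ) : ℝ :=
  a ^ 2 * q - a ^ 2 + q ^ 2 - q

noncomputable def fg_2_2_3 (a q : ℝ) : ℝ :=
  a ^ 3 + 2 * a * q ^ 2 - 4 * a * q - 2 * a

noncomputable def fg_2_2_4 (a q : ℝ) : ℝ :=
  3 * a ^ 2 * q + q ^ 3 + 3 * a ^ 2 - 2 * q ^ 2 - 8 * q

noncomputable def fg_2_2_5 (a q : ℝ) : ℝ :=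
  3 * a * q ^ 2 + 9 * a * q + 3 * a

noncomputable def fg_2_2_6 (a q : ℝ) : ℝ :=
  q ^ 3 + 6 * q ^ 2 + 8 * q

theorem fg_2_2 (a q : ℝ) :
    pp 1 a q (iniG a q) 2 2 = PL
      [fg_2_2_0 a q, fg_2_2_1 a q, fg_2_2_2 a q, fg_2_2_3 a q, fg_2_2_4 a q, fg_2_2_5 a q,
      fg_2_2_6 a q] := by
  rw [pp, pp_zero _ _ _ _ _ _ (by omega : 1 < 2), fg_1_1, opA_PL, opA_zero, zero_add]
  congr 1
  simp only [opL, addL, List.cons.injEq, Nat.cast_ofNat, Nat.cast_zero, Nat.cast_one]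
  refine ⟨?_, ?_, ?_, ?_, ?_, ?_, ?_, trivial⟩ <;>
    (simp only [fg_2_2_0, fg_2_2_1, fg_2_2_2, fg_2_2_3, fg_2_2_4, fg_2_2_5, fg_2_2_6, fg_1_1_0, fg_1_1_1,
      fg_1_1_2, fg_1_1_3, fg_1_1_4]; ring)

noncomputable def fg_3_0_0 (a q : ℝ) : ℝ :=
  6 * q - 6

noncomputable def fg_3_0_1 (a q : ℝ) : ℝ :=
  6 * a * q - 6 * a

noncomputable def fg_3_0_2 (a q : ℝ) : ℝ :=
  3 * a ^ 2 * q - 3 * a ^ 2 - 5 * q + 5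

noncomputable def fg_3_0_3 (a q : ℝ) : ℝ :=
  a ^ 3 * q - a ^ 3 - 3 * a * q + 3 * a

noncomputable def fg_3_0_4 (a q : ℝ) : ℝ :=
  a ^ 4 - 3 * a ^ 2 * q - 3 * a ^ 2 + 5 * q

noncomputable def fg_3_0_5 (a q : ℝ) : ℝ :=
  a ^ 3 * q + 3 * a ^ 3 - 15 * a * q - 5 * a

noncomputable def fg_3_0_6 (a q : ℝ) : ℝ :=
  6 * a ^ 2 * q + 6 * a ^ 2 - 28 * q

noncomputable def fg_3_0_7 (a q : ℝ) : ℝ :=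
  18 * a * q + 6 * a

noncomputable def fg_3_0_8 (a q : ℝ) : ℝ :=
  24 * q

theorem fg_3_0 (a q : ℝ) :
    pp 1 a q (iniG a q) 3 0 = PL
      [fg_3_0_0 a q, fg_3_0_1 a q, fg_3_0_2 a q, fg_3_0_3 a q, fg_3_0_4 a q, fg_3_0_5 a q,
      fg_3_0_6 a q, fg_3_0_7 a q, fg_3_0_8 a q] := by
  rw [pp, fg_2_0, opA_PL]
  congr 1
  simp only [opL, addL, List.cons.injEq, Nat.cast_ofNat, Nat.cast_zero, Nat.cast_one]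
  refine ⟨?_, ?_, ?_, ?_, ?_, ?_, ?_, ?_, ?_, trivial⟩ <;>
    (simp only [fg_3_0_0, fg_3_0_1, fg_3_0_2, fg_3_0_3, fg_3_0_4, fg_3_0_5, fg_3_0_6, fg_3_0_7, fg_3_0_8,
      fg_2_0_0, fg_2_0_1, fg_2_0_2, fg_2_0_3, fg_2_0_4, fg_2_0_5, fg_2_0_6]; ring)

noncomputable def fg_3_1_0 (a q : ℝ) : ℝ :=
  18 * q - 18

noncomputable def fg_3_1_1 (a q : ℝ) : ℝ :=
  18 * a * q - 18 * a

noncomputable def fg_3_1_2 (a q : ℝ) : ℝ :=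
  9 * a ^ 2 * q - 9 * a ^ 2 + 3 * q ^ 2 - 13 * q + 10

noncomputable def fg_3_1_3 (a q : ℝ) : ℝ :=
  3 * a ^ 3 * q - 3 * a ^ 3 + 3 * a * q ^ 2 - 7 * a * q + 4 * a

noncomputable def fg_3_1_4 (a q : ℝ) : ℝ :=
  3 * a ^ 4 + 3 * a ^ 2 * q ^ 2 - 12 * a ^ 2 * q - 13 * a ^ 2 + q ^ 2 + 18 * q

noncomputable def fg_3_1_5 (a q : ℝ) : ℝ :=
  6 * a ^ 3 * q + 12 * a ^ 3 - 72 * a * q - 22 * a

noncomputable def fg_3_1_6 (a q : ℝ) : ℝ :=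
  3 * a ^ 2 * q ^ 2 + 36 * a ^ 2 * q + 27 * a ^ 2 - 26 * q ^ 2 - 116 * q

noncomputable def fg_3_1_7 (a q : ℝ) : ℝ :=
  21 * a * q ^ 2 + 96 * a * q + 27 * a

noncomputable def fg_3_1_8 (a q : ℝ) : ℝ :=
  48 * q ^ 2 + 96 * q

theorem fg_3_1 (a q : ℝ) :
    pp 1 a q (iniG a q) 3 1 = PL
      [fg_3_1_0 a q, fg_3_1_1 a q, fg_3_1_2 a q, fg_3_1_3 a q, fg_3_1_4 a q, fg_3_1_5 a q,
      fg_3_1_6 a q, fg_3_1_7 a q, fg_3_1_8 a q] := by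
  rw [pp, fg_2_1, fg_2_0, opA_PL, opA_PL, ← PL_addL]
  congr 1
  simp only [opL, addL, List.cons.injEq, Nat.cast_ofNat, Nat.cast_zero, Nat.cast_one]
  refine ⟨?_, ?_, ?_, ?_, ?_, ?_, ?_, ?_, ?_, trivial⟩ <;>
    (simp only [fg_3_1_0, fg_3_1_1, fg_3_1_2, fg_3_1_3, fg_3_1_4, fg_3_1_5, fg_3_1_6, fg_3_1_7, fg_3_1_8,
      fg_2_1_0, fg_2_1_1, fg_2_1_2, fg_2_1_3, fg_2_1_4, fg_2_1_5, fg_2_1_6, fg_2_0_0,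
      fg_2_0_1, fg_2_0_2, fg_2_0_3, fg_2_0_4, fg_2_0_5, fg_2_0_6]; ring)

noncomputable def fg_3_2_0 (a q : ℝ) : ℝ :=
  18 * q - 18

noncomputable def fg_3_2_1 (a q : ℝ) : ℝ :=
  18 * a * q - 18 * a

noncomputable def fg_3_2_2 (a q : ℝ) : ℝ :=
  9 * a ^ 2 * q - 9 * a ^ 2 + 6 * q ^ 2 - 11 * q + 5

noncomputable def fg_3_2_3 (a q : ℝ) : ℝ :=
  3 * a ^ 3 * q - 3 * a ^ 3 + 6 * a * q ^ 2 - 5 * a * q - a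

noncomputable def fg_3_2_4 (a q : ℝ) : ℝ :=
  3 * a ^ 4 + 6 * a ^ 2 * q ^ 2 - 15 * a ^ 2 * q - 17 * a ^ 2 + 4 * q ^ 2 + 19 * q

noncomputable def fg_3_2_5 (a q : ℝ) : ℝ :=
  9 * a ^ 3 * q + 3 * a * q ^ 3 + 15 * a ^ 3 - 6 * a * q ^ 2 - 97 * a * q - 29 * a

noncomputable def fg_3_2_6 (a q : ℝ) : ℝ :=
  9 * a ^ 2 * q ^ 2 + 54 * a ^ 2 * q + 3 * q ^ 3 + 36 * a ^ 2 - 65 * q ^ 2 - 142 * q

noncomputable def fg_3_2_7 (a q : ℝ) : ℝ :=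
  3 * a * q ^ 3 + 54 * a * q ^ 2 + 132 * a * q + 36 * a

noncomputable def fg_3_2_8 (a q : ℝ) : ℝ :=
  15 * q ^ 3 + 90 * q ^ 2 + 120 * q

theorem fg_3_2 (a q : ℝ) :
    pp 1 a q (iniG a q) 3 2 = PL
      [fg_3_2_0 a q, fg_3_2_1 a q, fg_3_2_2 a q, fg_3_2_3 a q, fg_3_2_4 a q, fg_3_2_5 a q,
      fg_3_2_6 a q, fg_3_2_7 a q, fg_3_2_8 a q] := by
  rw [pp, fg_2_2, fg_2_1, opA_PL, opA_PL, ← PL_addL]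
  congr 1
  simp only [opL, addL, List.cons.injEq, Nat.cast_ofNat, Nat.cast_zero, Nat.cast_one]
  refine ⟨?_, ?_, ?_, ?_, ?_, ?_, ?_, ?_, ?_, trivial⟩ <;>
    (simp only [fg_3_2_0, fg_3_2_1, fg_3_2_2, fg_3_2_3, fg_3_2_4, fg_3_2_5, fg_3_2_6, fg_3_2_7, fg_3_2_8,
      fg_2_2_0, fg_2_2_1, fg_2_2_2, fg_2_2_3, fg_2_2_4, fg_2_2_5, fg_2_2_6, fg_2_1_0,
      fg_2_1_1, fg_2_1_2, fg_2_1_3, fg_2_1_4, fg_2_1_5, fg_2_1_6]; ring)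

noncomputable def fg_3_3_0 (a q : ℝ) : ℝ :=
  6 * q - 6

noncomputable def fg_3_3_1 (a q : ℝ) : ℝ :=
  6 * a * q - 6 * a

noncomputable def fg_3_3_2 (a q : ℝ) : ℝ :=
  3 * a ^ 2 * q - 3 * a ^ 2 + 3 * q ^ 2 - 3 * q

noncomputable def fg_3_3_3 (a q : ℝ) : ℝ :=
  a ^ 3 * q - a ^ 3 + 3 * a * q ^ 2 - a * q - 2 * a

noncomputable def fg_3_3_4 (a q : ℝ) : ℝ :=
  a ^ 4 + 3 * a ^ 2 * q ^ 2 - 6 * a ^ 2 * q - 7 * a ^ 2 + 3 * q ^ 2 + 6 * q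

noncomputable def fg_3_3_5 (a q : ℝ) : ℝ :=
  4 * a ^ 3 * q + 3 * a * q ^ 3 + 6 * a ^ 3 - 6 * a * q ^ 2 - 40 * a * q - 12 * a

noncomputable def fg_3_3_6 (a q : ℝ) : ℝ :=
  6 * a ^ 2 * q ^ 2 + q ^ 4 + 24 * a ^ 2 * q - q ^ 3 + 15 * a ^ 2 - 34 * q ^ 2 - 56 * q

noncomputable def fg_3_3_7 (a q : ℝ) : ℝ :=
  4 * a * q ^ 3 + 30 * a * q ^ 2 + 56 * a * q + 15 * a

noncomputable def fg_3_3_8 (a q : ℝ) : ℝ :=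
  q ^ 4 + 12 * q ^ 3 + 44 * q ^ 2 + 48 * q

theorem fg_3_3 (a q : ℝ) :
    pp 1 a q (iniG a q) 3 3 = PL
      [fg_3_3_0 a q, fg_3_3_1 a q, fg_3_3_2 a q, fg_3_3_3 a q, fg_3_3_4 a q, fg_3_3_5 a q,
      fg_3_3_6 a q, fg_3_3_7 a q, fg_3_3_8 a q] := by
  rw [pp, pp_zero _ _ _ _ _ _ (by omega : 2 < 3), fg_2_2, opA_PL, opA_zero, zero_add]
  congr 1
  simp only [opL, addL, List.cons.injEq, Nat.cast_ofNat, Nat.cast_zero, Nat.cast_one]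
  refine ⟨?_, ?_, ?_, ?_, ?_, ?_, ?_, ?_, ?_, trivial⟩ <;>
    (simp only [fg_3_3_0, fg_3_3_1, fg_3_3_2, fg_3_3_3, fg_3_3_4, fg_3_3_5, fg_3_3_6, fg_3_3_7, fg_3_3_8,
      fg_2_2_0, fg_2_2_1, fg_2_2_2, fg_2_2_3, fg_2_2_4, fg_2_2_5, fg_2_2_6]; ring)

noncomputable def fg_4_0_0 (a q : ℝ) : ℝ :=
  24 * q - 24

noncomputable def fg_4_0_1 (a q : ℝ) : ℝ :=
  24 * a * q - 24 * a

noncomputable def fg_4_0_2 (a q : ℝ) : ℝ :=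
  12 * a ^ 2 * q - 12 * a ^ 2 - 28 * q + 28

noncomputable def fg_4_0_3 (a q : ℝ) : ℝ :=
  4 * a ^ 3 * q - 4 * a ^ 3 - 20 * a * q + 20 * a

noncomputable def fg_4_0_4 (a q : ℝ) : ℝ :=
  a ^ 4 * q - a ^ 4 - 6 * a ^ 2 * q + 6 * a ^ 2 + 5 * q - 5

noncomputable def fg_4_0_5 (a q : ℝ) : ℝ :=
  a ^ 5 - 4 * a ^ 3 * q - 6 * a ^ 3 + 20 * a * q + 5 * a

noncomputable def fg_4_0_6 (a q : ℝ) : ℝ :=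
  a ^ 4 * q + 4 * a ^ 4 - 30 * a ^ 2 * q - 20 * a ^ 2 + 61 * q

noncomputable def fg_4_0_7 (a q : ℝ) : ℝ :=
  8 * a ^ 3 * q + 12 * a ^ 3 - 112 * a * q - 28 * a

noncomputable def fg_4_0_8 (a q : ℝ) : ℝ :=
  36 * a ^ 2 * q + 24 * a ^ 2 - 180 * q

noncomputable def fg_4_0_9 (a q : ℝ) : ℝ :=
  96 * a * q + 24 * a

noncomputable def fg_4_0_10 (a q : ℝ) : ℝ :=
  120 * q

theorem fg_4_0 (a q : ℝ) :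
    pp 1 a q (iniG a q) 4 0 = PL
      [fg_4_0_0 a q, fg_4_0_1 a q, fg_4_0_2 a q, fg_4_0_3 a q, fg_4_0_4 a q, fg_4_0_5 a q,
      fg_4_0_6 a q, fg_4_0_7 a q, fg_4_0_8 a q, fg_4_0_9 a q, fg_4_0_10 a q] := by
  rw [pp, fg_3_0, opA_PL]
  congr 1
  simp only [opL, addL, List.cons.injEq, Nat.cast_ofNat, Nat.cast_zero, Nat.cast_one]
  refine ⟨?_, ?_, ?_, ?_, ?_, ?_, ?_, ?_, ?_, ?_, ?_, trivial⟩ <;>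
    (simp only [fg_4_0_0, fg_4_0_1, fg_4_0_2, fg_4_0_3, fg_4_0_4, fg_4_0_5, fg_4_0_6, fg_4_0_7, fg_4_0_8,
      fg_4_0_9, fg_4_0_10, fg_3_0_0, fg_3_0_1, fg_3_0_2, fg_3_0_3, fg_3_0_4, fg_3_0_5,
      fg_3_0_6, fg_3_0_7, fg_3_0_8]; ring)

noncomputable def fg_4_1_0 (a q : ℝ) : ℝ :=
  96 * q - 96

noncomputable def fg_4_1_1 (a q : ℝ) : ℝ :=
  96 * a * q - 96 * a

noncomputable def fg_4_1_2 (a q : ℝ) : ℝ :=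
  48 * a ^ 2 * q - 48 * a ^ 2 + 12 * q ^ 2 - 96 * q + 84

noncomputable def fg_4_1_3 (a q : ℝ) : ℝ :=
  16 * a ^ 3 * q - 16 * a ^ 3 + 12 * a * q ^ 2 - 64 * a * q + 52 * a

noncomputable def fg_4_1_4 (a q : ℝ) : ℝ :=
  4 * a ^ 4 * q - 4 * a ^ 4 + 6 * a ^ 2 * q ^ 2 - 16 * a ^ 2 * q + 10 * a ^ 2 - 2 * q ^ 2 + 12
  * q - 10

noncomputable def fg_4_1_5 (a q : ℝ) : ℝ :=
  4 * a ^ 5 + 4 * a ^ 3 * q ^ 2 - 20 * a ^ 3 * q - 34 * a ^ 3 + 4 * a * q ^ 2 + 108 * a * q +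
  26 * a

noncomputable def fg_4_1_6 (a q : ℝ) : ℝ :=
  8 * a ^ 4 * q + 22 * a ^ 4 - 204 * a ^ 2 * q - 126 * a ^ 2 + 60 * q ^ 2 + 332 * q

noncomputable def fg_4_1_7 (a q : ℝ) : ℝ :=
  4 * a ^ 3 * q ^ 2 + 68 * a ^ 3 * q + 78 * a ^ 3 - 104 * a * q ^ 2 - 764 * a * q - 182 * a

noncomputable def fg_4_1_8 (a q : ℝ) : ℝ :=
  42 * a ^ 2 * q ^ 2 + 300 * a ^ 2 * q + 168 * a ^ 2 - 350 * q ^ 2 - 1060 * q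

noncomputable def fg_4_1_9 (a q : ℝ) : ℝ :=
  192 * a * q ^ 2 + 720 * a * q + 168 * a

noncomputable def fg_4_1_10 (a q : ℝ) : ℝ :=
  360 * q ^ 2 + 720 * q

theorem fg_4_1 (a q : ℝ) :
    pp 1 a q (iniG a q) 4 1 = PL
      [fg_4_1_0 a q, fg_4_1_1 a q, fg_4_1_2 a q, fg_4_1_3 a q, fg_4_1_4 a q, fg_4_1_5 a q,
      fg_4_1_6 a q, fg_4_1_7 a q, fg_4_1_8 a q, fg_4_1_9 a q, fg_4_1_10 a q] := by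
  rw [pp, fg_3_1, fg_3_0, opA_PL, opA_PL, ← PL_addL]
  congr 1
  simp only [opL, addL, List.cons.injEq, Nat.cast_ofNat, Nat.cast_zero, Nat.cast_one]
  refine ⟨?_, ?_, ?_, ?_, ?_, ?_, ?_, ?_, ?_, ?_, ?_, trivial⟩ <;>
    (simp only [fg_4_1_0, fg_4_1_1, fg_4_1_2, fg_4_1_3, fg_4_1_4, fg_4_1_5, fg_4_1_6, fg_4_1_7, fg_4_1_8,
      fg_4_1_9, fg_4_1_10, fg_3_1_0, fg_3_1_1, fg_3_1_2, fg_3_1_3, fg_3_1_4, fg_3_1_5,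
      fg_3_1_6, fg_3_1_7, fg_3_1_8, fg_3_0_0, fg_3_0_1, fg_3_0_2, fg_3_0_3, fg_3_0_4,
      fg_3_0_5, fg_3_0_6, fg_3_0_7, fg_3_0_8]; ring)

noncomputable def fg_4_2_0 (a q : ℝ) : ℝ :=
  144 * q - 144

noncomputable def fg_4_2_1 (a q : ℝ) : ℝ :=
  144 * a * q - 144 * a

noncomputable def fg_4_2_2 (a q : ℝ) : ℝ :=
  72 * a ^ 2 * q - 72 * a ^ 2 + 36 * q ^ 2 - 120 * q + 84

noncomputable def fg_4_2_3 (a q : ℝ) : ℝ :=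
  24 * a ^ 3 * q - 24 * a ^ 3 + 36 * a * q ^ 2 - 72 * a * q + 36 * a

noncomputable def fg_4_2_4 (a q : ℝ) : ℝ :=
  6 * a ^ 4 * q - 6 * a ^ 4 + 18 * a ^ 2 * q ^ 2 - 12 * a ^ 2 * q + 3 * q ^ 3 - 6 * a ^ 2 - q
  ^ 2 + 3 * q - 5

noncomputable def fg_4_2_5 (a q : ℝ) : ℝ :=
  6 * a ^ 5 + 12 * a ^ 3 * q ^ 2 - 36 * a ^ 3 * q - 66 * a ^ 3 + 25 * a * q ^ 2 + 197 * a * q
  + 43 * a

noncomputable def fg_4_2_6 (a q : ℝ) : ℝ :=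
  18 * a ^ 4 * q + 6 * a ^ 2 * q ^ 3 + 42 * a ^ 4 - 12 * a ^ 2 * q ^ 2 - 437 * a ^ 2 * q - 5 *
  q ^ 3 - 262 * a ^ 2 + 220 * q ^ 2 + 611 * q

noncomputable def fg_4_2_7 (a q : ℝ) : ℝ :=
  18 * a ^ 3 * q ^ 2 + 162 * a ^ 3 * q + 12 * a * q ^ 3 + 165 * a ^ 3 - 424 * a * q ^ 2 - 1618
  * a * q - 385 * a

noncomputable def fg_4_2_8 (a q : ℝ) : ℝ :=
  6 * a ^ 2 * q ^ 3 + 180 * a ^ 2 * q ^ 2 + 705 * a ^ 2 * q - 65 * q ^ 3 + 369 * a ^ 2 - 1175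
  * q ^ 2 - 2090 * q

noncomputable def fg_4_2_9 (a q : ℝ) : ℝ :=
  60 * a * q ^ 3 + 729 * a * q ^ 2 + 1587 * a * q + 369 * a

noncomputable def fg_4_2_10 (a q : ℝ) : ℝ :=
  183 * q ^ 3 + 1098 * q ^ 2 + 1464 * q

theorem fg_4_2 (a q : ℝ) :
    pp 1 a q (iniG a q) 4 2 = PL
      [fg_4_2_0 a q, fg_4_2_1 a q, fg_4_2_2 a q, fg_4_2_3 a q, fg_4_2_4 a q, fg_4_2_5 a q,
      fg_4_2_6 a q, fg_4_2_7 a q, fg_4_2_8 a q, fg_4_2_9 a q, fg_4_2_10 a q] := by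
  rw [pp, fg_3_2, fg_3_1, opA_PL, opA_PL, ← PL_addL]
  congr 1
  simp only [opL, addL, List.cons.injEq, Nat.cast_ofNat, Nat.cast_zero, Nat.cast_one]
  refine ⟨?_, ?_, ?_, ?_, ?_, ?_, ?_, ?_, ?_, ?_, ?_, trivial⟩ <;>
    (simp only [fg_4_2_0, fg_4_2_1, fg_4_2_2, fg_4_2_3, fg_4_2_4, fg_4_2_5, fg_4_2_6, fg_4_2_7, fg_4_2_8,
      fg_4_2_9, fg_4_2_10, fg_3_2_0, fg_3_2_1, fg_3_2_2, fg_3_2_3, fg_3_2_4, fg_3_2_5,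
      fg_3_2_6, fg_3_2_7, fg_3_2_8, fg_3_1_0, fg_3_1_1, fg_3_1_2, fg_3_1_3, fg_3_1_4,
      fg_3_1_5, fg_3_1_6, fg_3_1_7, fg_3_1_8]; ring)

noncomputable def fg_4_3_0 (a q : ℝ) : ℝ :=
  96 * q - 96

noncomputable def fg_4_3_1 (a q : ℝ) : ℝ :=
  96 * a * q - 96 * a

noncomputable def fg_4_3_2 (a q : ℝ) : ℝ :=
  48 * a ^ 2 * q - 48 * a ^ 2 + 36 * q ^ 2 - 64 * q + 28

noncomputable def fg_4_3_3 (a q : ℝ) : ℝ :=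
  16 * a ^ 3 * q - 16 * a ^ 3 + 36 * a * q ^ 2 - 32 * a * q - 4 * a

noncomputable def fg_4_3_4 (a q : ℝ) : ℝ :=
  4 * a ^ 4 * q - 4 * a ^ 4 + 18 * a ^ 2 * q ^ 2 + 6 * q ^ 3 - 18 * a ^ 2 + 4 * q ^ 2 - 10 * q

noncomputable def fg_4_3_5 (a q : ℝ) : ℝ :=
  4 * a ^ 5 + 12 * a ^ 3 * q ^ 2 - 28 * a ^ 3 * q - 54 * a ^ 3 + 38 * a * q ^ 2 + 150 * a * q
  + 28 * a

noncomputable def fg_4_3_6 (a q : ℝ) : ℝ :=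
  16 * a ^ 4 * q + 12 * a ^ 2 * q ^ 3 + 34 * a ^ 4 - 24 * a ^ 2 * q ^ 2 - 2 * q ^ 4 - 382 * a
  ^ 2 * q - 226 * a ^ 2 + 246 * q ^ 2 + 476 * q

noncomputable def fg_4_3_7 (a q : ℝ) : ℝ :=
  24 * a ^ 3 * q ^ 2 + 4 * a * q ^ 4 + 152 * a ^ 3 * q + 8 * a * q ^ 3 + 144 * a ^ 3 - 514 * a
  * q ^ 2 - 1402 * a * q - 336 * a

noncomputable def fg_4_3_8 (a q : ℝ) : ℝ :=
  16 * a ^ 2 * q ^ 3 + 228 * a ^ 2 * q ^ 2 + 8 * q ^ 4 + 656 * a ^ 2 * q - 170 * q ^ 3 + 330 *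
  a ^ 2 - 1244 * q ^ 2 - 1744 * q

noncomputable def fg_4_3_9 (a q : ℝ) : ℝ :=
  4 * a * q ^ 4 + 136 * a * q ^ 3 + 836 * a * q ^ 2 + 1424 * a * q + 330 * a

noncomputable def fg_4_3_10 (a q : ℝ) : ℝ :=
  26 * q ^ 4 + 312 * q ^ 3 + 1144 * q ^ 2 + 1248 * q

theorem fg_4_3 (a q : ℝ) :
    pp 1 a q (iniG a q) 4 3 = PL
      [fg_4_3_0 a q, fg_4_3_1 a q, fg_4_3_2 a q, fg_4_3_3 a q, fg_4_3_4 a q, fg_4_3_5 a q,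
      fg_4_3_6 a q, fg_4_3_7 a q, fg_4_3_8 a q, fg_4_3_9 a q, fg_4_3_10 a q] := by
  rw [pp, fg_3_3, fg_3_2, opA_PL, opA_PL, ← PL_addL]
  congr 1
  simp only [opL, addL, List.cons.injEq, Nat.cast_ofNat, Nat.cast_zero, Nat.cast_one]
  refine ⟨?_, ?_, ?_, ?_, ?_, ?_, ?_, ?_, ?_, ?_, ?_, trivial⟩ <;>
    (simp only [fg_4_3_0, fg_4_3_1, fg_4_3_2, fg_4_3_3, fg_4_3_4, fg_4_3_5, fg_4_3_6, fg_4_3_7, fg_4_3_8,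
      fg_4_3_9, fg_4_3_10, fg_3_3_0, fg_3_3_1, fg_3_3_2, fg_3_3_3, fg_3_3_4, fg_3_3_5,
      fg_3_3_6, fg_3_3_7, fg_3_3_8, fg_3_2_0, fg_3_2_1, fg_3_2_2, fg_3_2_3, fg_3_2_4,
      fg_3_2_5, fg_3_2_6, fg_3_2_7, fg_3_2_8]; ring)

noncomputable def fg_4_4_0 (a q : ℝ) : ℝ :=
  24 * q - 24

noncomputable def fg_4_4_1 (a q : ℝ) : ℝ :=
  24 * a * q - 24 * a

noncomputable def fg_4_4_2 (a q : ℝ) : ℝ :=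
  12 * a ^ 2 * q - 12 * a ^ 2 + 12 * q ^ 2 - 12 * q

noncomputable def fg_4_4_3 (a q : ℝ) : ℝ :=
  4 * a ^ 3 * q - 4 * a ^ 3 + 12 * a * q ^ 2 - 4 * a * q - 8 * a

noncomputable def fg_4_4_4 (a q : ℝ) : ℝ :=
  a ^ 4 * q - a ^ 4 + 6 * a ^ 2 * q ^ 2 + 2 * a ^ 2 * q + 3 * q ^ 3 - 8 * a ^ 2 + 3 * q ^ 2 -
  6 * q

noncomputable def fg_4_4_5 (a q : ℝ) : ℝ :=
  a ^ 5 + 4 * a ^ 3 * q ^ 2 - 8 * a ^ 3 * q - 16 * a ^ 3 + 17 * a * q ^ 2 + 41 * a * q + 6 * a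

noncomputable def fg_4_4_6 (a q : ℝ) : ℝ :=
  5 * a ^ 4 * q + 6 * a ^ 2 * q ^ 3 + 10 * a ^ 4 - 12 * a ^ 2 * q ^ 2 - 2 * q ^ 4 - 119 * a ^
  2 * q + 5 * q ^ 3 - 70 * a ^ 2 + 86 * q ^ 2 + 136 * q

noncomputable def fg_4_4_7 (a q : ℝ) : ℝ :=
  10 * a ^ 3 * q ^ 2 + 4 * a * q ^ 4 + 50 * a ^ 3 * q - 4 * a * q ^ 3 + 45 * a ^ 3 - 194 * a *
  q ^ 2 - 436 * a * q - 105 * a

noncomputable def fg_4_4_8 (a q : ℝ) : ℝ :=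
  10 * a ^ 2 * q ^ 3 + q ^ 5 + 90 * a ^ 2 * q ^ 2 + q ^ 4 + 215 * a ^ 2 * q - 88 * q ^ 3 + 105
  * a ^ 2 - 436 * q ^ 2 - 528 * q

noncomputable def fg_4_4_9 (a q : ℝ) : ℝ :=
  5 * a * q ^ 4 + 70 * a * q ^ 3 + 310 * a * q ^ 2 + 455 * a * q + 105 * a

noncomputable def fg_4_4_10 (a q : ℝ) : ℝ :=
  q ^ 5 + 20 * q ^ 4 + 140 * q ^ 3 + 400 * q ^ 2 + 384 * q

theorem fg_4_4 (a q : ℝ) :
    pp 1 a q (iniG a q) 4 4 = PL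
      [fg_4_4_0 a q, fg_4_4_1 a q, fg_4_4_2 a q, fg_4_4_3 a q, fg_4_4_4 a q, fg_4_4_5 a q,
      fg_4_4_6 a q, fg_4_4_7 a q, fg_4_4_8 a q, fg_4_4_9 a q, fg_4_4_10 a q] := by
  rw [pp, pp_zero _ _ _ _ _ _ (by omega : 3 < 4), fg_3_3, opA_PL, opA_zero, zero_add]
  congr 1
  simp only [opL, addL, List.cons.injEq, Nat.cast_ofNat, Nat.cast_zero, Nat.cast_one]
  refine ⟨?_, ?_, ?_, ?_, ?_, ?_, ?_, ?_, ?_, ?_, ?_, trivial⟩ <;>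
    (simp only [fg_4_4_0, fg_4_4_1, fg_4_4_2, fg_4_4_3, fg_4_4_4, fg_4_4_5, fg_4_4_6, fg_4_4_7, fg_4_4_8,
      fg_4_4_9, fg_4_4_10, fg_3_3_0, fg_3_3_1, fg_3_3_2, fg_3_3_3, fg_3_3_4, fg_3_3_5,
      fg_3_3_6, fg_3_3_7, fg_3_3_8]; ring)

noncomputable def fg_5_0_0 (a q : ℝ) : ℝ :=
  120 * q - 120

noncomputable def fg_5_0_1 (a q : ℝ) : ℝ :=
  120 * a * q - 120 * a

noncomputable def fg_5_0_2 (a q : ℝ) : ℝ :=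
  60 * a ^ 2 * q - 60 * a ^ 2 - 180 * q + 180

noncomputable def fg_5_0_3 (a q : ℝ) : ℝ :=
  20 * a ^ 3 * q - 20 * a ^ 3 - 140 * a * q + 140 * a

noncomputable def fg_5_0_4 (a q : ℝ) : ℝ :=
  5 * a ^ 4 * q - 5 * a ^ 4 - 50 * a ^ 2 * q + 50 * a ^ 2 + 61 * q - 61

noncomputable def fg_5_0_5 (a q : ℝ) : ℝ :=
  a ^ 5 * q - a ^ 5 - 10 * a ^ 3 * q + 10 * a ^ 3 + 25 * a * q - 25 * a

noncomputable def fg_5_0_6 (a q : ℝ) : ℝ :=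
  a ^ 6 - 5 * a ^ 4 * q - 10 * a ^ 4 + 50 * a ^ 2 * q + 25 * a ^ 2 - 61 * q

noncomputable def fg_5_0_7 (a q : ℝ) : ℝ :=
  a ^ 5 * q + 5 * a ^ 5 - 50 * a ^ 3 * q - 50 * a ^ 3 + 305 * a * q + 61 * a

noncomputable def fg_5_0_8 (a q : ℝ) : ℝ :=
  10 * a ^ 4 * q + 20 * a ^ 4 - 280 * a ^ 2 * q - 140 * a ^ 2 + 662 * q

noncomputable def fg_5_0_9 (a q : ℝ) : ℝ :=
  60 * a ^ 3 * q + 60 * a ^ 3 - 900 * a * q - 180 * a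

noncomputable def fg_5_0_10 (a q : ℝ) : ℝ :=
  240 * a ^ 2 * q + 120 * a ^ 2 - 1320 * q

noncomputable def fg_5_0_11 (a q : ℝ) : ℝ :=
  600 * a * q + 120 * a

noncomputable def fg_5_0_12 (a q : ℝ) : ℝ :=
  720 * q

theorem fg_5_0 (a q : ℝ) :
    pp 1 a q (iniG a q) 5 0 = PL
      [fg_5_0_0 a q, fg_5_0_1 a q, fg_5_0_2 a q, fg_5_0_3 a q, fg_5_0_4 a q, fg_5_0_5 a q,
      fg_5_0_6 a q, fg_5_0_7 a q, fg_5_0_8 a q, fg_5_0_9 a q, fg_5_0_10 a q, fg_5_0_11 a q,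
      fg_5_0_12 a q] := by
  rw [pp, fg_4_0, opA_PL]
  congr 1
  simp only [opL, addL, List.cons.injEq, Nat.cast_ofNat, Nat.cast_zero, Nat.cast_one]
  refine ⟨?_, ?_, ?_, ?_, ?_, ?_, ?_, ?_, ?_, ?_, ?_, ?_, ?_, trivial⟩ <;>
    (simp only [fg_5_0_0, fg_5_0_1, fg_5_0_2, fg_5_0_3, fg_5_0_4, fg_5_0_5, fg_5_0_6, fg_5_0_7, fg_5_0_8,
      fg_5_0_9, fg_5_0_10, fg_5_0_11, fg_5_0_12, fg_4_0_0, fg_4_0_1, fg_4_0_2, fg_4_0_3,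
      fg_4_0_4, fg_4_0_5, fg_4_0_6, fg_4_0_7, fg_4_0_8, fg_4_0_9, fg_4_0_10]; ring)

noncomputable def fg_5_1_0 (a q : ℝ) : ℝ :=
  600 * q - 600

noncomputable def fg_5_1_1 (a q : ℝ) : ℝ :=
  600 * a * q - 600 * a

noncomputable def fg_5_1_2 (a q : ℝ) : ℝ :=
  300 * a ^ 2 * q - 300 * a ^ 2 + 60 * q ^ 2 - 780 * q + 720

noncomputable def fg_5_1_3 (a q : ℝ) : ℝ :=
  100 * a ^ 3 * q - 100 * a ^ 3 + 60 * a * q ^ 2 - 580 * a * q + 520 * a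

noncomputable def fg_5_1_4 (a q : ℝ) : ℝ :=
  25 * a ^ 4 * q - 25 * a ^ 4 + 30 * a ^ 2 * q ^ 2 - 190 * a ^ 2 * q + 160 * a ^ 2 - 30 * q ^
  2 + 213 * q - 183

noncomputable def fg_5_1_5 (a q : ℝ) : ℝ :=
  5 * a ^ 5 * q - 5 * a ^ 5 + 10 * a ^ 3 * q ^ 2 - 30 * a ^ 3 * q + 20 * a ^ 3 - 10 * a * q ^
  2 + 73 * a * q - 63 * a

noncomputable def fg_5_1_6 (a q : ℝ) : ℝ :=
  5 * a ^ 6 + 5 * a ^ 4 * q ^ 2 - 30 * a ^ 4 * q - 70 * a ^ 4 + 10 * a ^ 2 * q ^ 2 + 360 * a ^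
  2 * q + 173 * a ^ 2 - 59 * q ^ 2 - 394 * q

noncomputable def fg_5_1_7 (a q : ℝ) : ℝ :=
  10 * a ^ 5 * q + 35 * a ^ 5 - 440 * a ^ 3 * q - 410 * a ^ 3 + 300 * a * q ^ 2 + 2414 * a * q
  + 483 * a

noncomputable def fg_5_1_8 (a q : ℝ) : ℝ :=
  5 * a ^ 4 * q ^ 2 + 110 * a ^ 4 * q + 170 * a ^ 4 - 260 * a ^ 2 * q ^ 2 - 2660 * a ^ 2 * q -
  1250 * a ^ 2 + 1351 * q ^ 2 + 4926 * q

noncomputable def fg_5_1_9 (a q : ℝ) : ℝ :=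
  70 * a ^ 3 * q ^ 2 + 680 * a ^ 3 * q + 570 * a ^ 3 - 1750 * a * q ^ 2 - 8240 * a * q - 1650
  * a

noncomputable def fg_5_1_10 (a q : ℝ) : ℝ :=
  480 * a ^ 2 * q ^ 2 + 2640 * a ^ 2 * q + 1200 * a ^ 2 - 4080 * q ^ 2 - 10560 * q

noncomputable def fg_5_1_11 (a q : ℝ) : ℝ :=
  1800 * a * q ^ 2 + 6000 * a * q + 1200 * a

noncomputable def fg_5_1_12 (a q : ℝ) : ℝ :=
  3000 * q ^ 2 + 6000 * q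

theorem fg_5_1 (a q : ℝ) :
    pp 1 a q (iniG a q) 5 1 = PL
      [fg_5_1_0 a q, fg_5_1_1 a q, fg_5_1_2 a q, fg_5_1_3 a q, fg_5_1_4 a q, fg_5_1_5 a q,
      fg_5_1_6 a q, fg_5_1_7 a q, fg_5_1_8 a q, fg_5_1_9 a q, fg_5_1_10 a q, fg_5_1_11 a q,
      fg_5_1_12 a q] := by
  rw [pp, fg_4_1, fg_4_0, opA_PL, opA_PL, ← PL_addL]
  congr 1
  simp only [opL, addL, List.cons.injEq, Nat.cast_ofNat, Nat.cast_zero, Nat.cast_one]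
  refine ⟨?_, ?_, ?_, ?_, ?_, ?_, ?_, ?_, ?_, ?_, ?_, ?_, ?_, trivial⟩ <;>
    (simp only [fg_5_1_0, fg_5_1_1, fg_5_1_2, fg_5_1_3, fg_5_1_4, fg_5_1_5, fg_5_1_6, fg_5_1_7, fg_5_1_8,
      fg_5_1_9, fg_5_1_10, fg_5_1_11, fg_5_1_12, fg_4_1_0, fg_4_1_1, fg_4_1_2, fg_4_1_3,
      fg_4_1_4, fg_4_1_5, fg_4_1_6, fg_4_1_7, fg_4_1_8, fg_4_1_9, fg_4_1_10, fg_4_0_0,
      fg_4_0_1, fg_4_0_2, fg_4_0_3, fg_4_0_4, fg_4_0_5, fg_4_0_6, fg_4_0_7, fg_4_0_8,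
      fg_4_0_9, fg_4_0_10]; ring)

noncomputable def fg_5_2_0 (a q : ℝ) : ℝ :=
  1200 * q - 1200

noncomputable def fg_5_2_1 (a q : ℝ) : ℝ :=
  1200 * a * q - 1200 * a

noncomputable def fg_5_2_2 (a q : ℝ) : ℝ :=
  600 * a ^ 2 * q - 600 * a ^ 2 + 240 * q ^ 2 - 1320 * q + 1080

noncomputable def fg_5_2_3 (a q : ℝ) : ℝ :=
  200 * a ^ 3 * q - 200 * a ^ 3 + 240 * a * q ^ 2 - 920 * a * q + 680 * a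

noncomputable def fg_5_2_4 (a q : ℝ) : ℝ :=
  50 * a ^ 4 * q - 50 * a ^ 4 + 120 * a ^ 2 * q ^ 2 - 260 * a ^ 2 * q + 15 * q ^ 3 + 140 * a ^
  2 - 75 * q ^ 2 + 243 * q - 183

noncomputable def fg_5_2_5 (a q : ℝ) : ℝ :=
  10 * a ^ 5 * q - 10 * a ^ 5 + 40 * a ^ 3 * q ^ 2 - 20 * a ^ 3 * q + 15 * a * q ^ 3 - 20 * a
  ^ 3 + 5 * a * q ^ 2 + 43 * a * q - 63 * a

noncomputable def fg_5_2_6 (a q : ℝ) : ℝ :=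
  10 * a ^ 6 + 20 * a ^ 4 * q ^ 2 - 70 * a ^ 4 * q - 180 * a ^ 4 + 85 * a ^ 2 * q ^ 2 + 940 *
  a ^ 2 * q + 15 * q ^ 3 + 413 * a ^ 2 - 268 * q ^ 2 - 965 * q

noncomputable def fg_5_2_7 (a q : ℝ) : ℝ :=
  30 * a ^ 5 * q + 10 * a ^ 3 * q ^ 3 + 90 * a ^ 5 - 20 * a ^ 3 * q ^ 2 - 1295 * a ^ 3 * q -
  25 * a * q ^ 3 - 1170 * a ^ 3 + 1565 * a * q ^ 2 + 6610 * a * q + 1323 * a

noncomputable def fg_5_2_8 (a q : ℝ) : ℝ :=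
  30 * a ^ 4 * q ^ 2 + 360 * a ^ 4 * q + 30 * a ^ 2 * q ^ 3 + 495 * a ^ 4 - 1470 * a ^ 2 * q ^
  2 - 8145 * a ^ 2 * q + 225 * q ^ 3 - 3750 * a ^ 2 + 6227 * q ^ 2 + 13116 * q

noncomputable def fg_5_2_9 (a q : ℝ) : ℝ :=
  10 * a ^ 3 * q ^ 3 + 420 * a ^ 3 * q ^ 2 + 2285 * a ^ 3 * q - 325 * a * q ^ 3 + 1770 * a ^ 3
  - 9045 * a * q ^ 2 - 24650 * a * q - 5025 * a

noncomputable def fg_5_2_10 (a q : ℝ) : ℝ :=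
  150 * a ^ 2 * q ^ 3 + 2745 * a ^ 2 * q ^ 2 + 8715 * a ^ 2 * q - 1785 * q ^ 3 + 3825 * a ^ 2
  - 18450 * q ^ 2 - 29760 * q

noncomputable def fg_5_2_11 (a q : ℝ) : ℝ :=
  915 * a * q ^ 3 + 9315 * a * q ^ 2 + 18795 * a * q + 3825 * a

noncomputable def fg_5_2_12 (a q : ℝ) : ℝ :=
  2190 * q ^ 3 + 13140 * q ^ 2 + 17520 * q

theorem fg_5_2 (a q : ℝ) :
    pp 1 a q (iniG a q) 5 2 = PL
      [fg_5_2_0 a q, fg_5_2_1 a q, fg_5_2_2 a q, fg_5_2_3 a q, fg_5_2_4 a q, fg_5_2_5 a q,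
      fg_5_2_6 a q, fg_5_2_7 a q, fg_5_2_8 a q, fg_5_2_9 a q, fg_5_2_10 a q, fg_5_2_11 a q,
      fg_5_2_12 a q] := by
  rw [pp, fg_4_2, fg_4_1, opA_PL, opA_PL, ← PL_addL]
  congr 1
  simp only [opL, addL, List.cons.injEq, Nat.cast_ofNat, Nat.cast_zero, Nat.cast_one]
  refine ⟨?_, ?_, ?_, ?_, ?_, ?_, ?_, ?_, ?_, ?_, ?_, ?_, ?_, trivial⟩ <;>
    (simp only [fg_5_2_0, fg_5_2_1, fg_5_2_2, fg_5_2_3, fg_5_2_4, fg_5_2_5, fg_5_2_6, fg_5_2_7, fg_5_2_8,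
      fg_5_2_9, fg_5_2_10, fg_5_2_11, fg_5_2_12, fg_4_2_0, fg_4_2_1, fg_4_2_2, fg_4_2_3,
      fg_4_2_4, fg_4_2_5, fg_4_2_6, fg_4_2_7, fg_4_2_8, fg_4_2_9, fg_4_2_10, fg_4_1_0,
      fg_4_1_1, fg_4_1_2, fg_4_1_3, fg_4_1_4, fg_4_1_5, fg_4_1_6, fg_4_1_7, fg_4_1_8,
      fg_4_1_9, fg_4_1_10]; ring)

noncomputable def fg_5_3_0 (a q : ℝ) : ℝ :=
  1200 * q - 1200

noncomputable def fg_5_3_1 (a q : ℝ) : ℝ :=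
  1200 * a * q - 1200 * a

noncomputable def fg_5_3_2 (a q : ℝ) : ℝ :=
  600 * a ^ 2 * q - 600 * a ^ 2 + 360 * q ^ 2 - 1080 * q + 720

noncomputable def fg_5_3_3 (a q : ℝ) : ℝ :=
  200 * a ^ 3 * q - 200 * a ^ 3 + 360 * a * q ^ 2 - 680 * a * q + 320 * a

noncomputable def fg_5_3_4 (a q : ℝ) : ℝ :=
  50 * a ^ 4 * q - 50 * a ^ 4 + 180 * a ^ 2 * q ^ 2 - 140 * a ^ 2 * q + 45 * q ^ 3 - 40 * a ^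
  2 - 45 * q ^ 2 + 61 * q - 61

noncomputable def fg_5_3_5 (a q : ℝ) : ℝ :=
  10 * a ^ 5 * q - 10 * a ^ 5 + 60 * a ^ 3 * q ^ 2 + 20 * a ^ 3 * q + 45 * a * q ^ 3 - 80 * a
  ^ 3 + 75 * a * q ^ 2 - 59 * a * q - 61 * a

noncomputable def fg_5_3_6 (a q : ℝ) : ℝ :=
  10 * a ^ 6 + 30 * a ^ 4 * q ^ 2 - 80 * a ^ 4 * q - 220 * a ^ 4 + 195 * a ^ 2 * q ^ 2 + 5 * q
  ^ 4 + 1160 * a ^ 2 * q + 40 * q ^ 3 + 451 * a ^ 2 - 439 * q ^ 2 - 1152 * q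

noncomputable def fg_5_3_7 (a q : ℝ) : ℝ :=
  40 * a ^ 5 * q + 30 * a ^ 3 * q ^ 3 + 110 * a ^ 5 - 60 * a ^ 3 * q ^ 2 - 10 * a * q ^ 4 -
  1745 * a ^ 3 * q - 20 * a * q ^ 3 - 1550 * a ^ 3 + 2830 * a * q ^ 2 + 8417 * a * q + 1681
  * a

noncomputable def fg_5_3_8 (a q : ℝ) : ℝ :=
  60 * a ^ 4 * q ^ 2 + 10 * a ^ 2 * q ^ 4 + 520 * a ^ 4 * q + 50 * a ^ 2 * q ^ 3 + 665 * a ^ 4
  - 2815 * a ^ 2 * q ^ 2 - 45 * q ^ 4 - 11295 * a ^ 2 * q + 915 * q ^ 3 - 5150 * a ^ 2 +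
  10276 * q ^ 2 + 16532 * q

noncomputable def fg_5_3_9 (a q : ℝ) : ℝ :=
  40 * a ^ 3 * q ^ 3 + 840 * a ^ 3 * q ^ 2 + 40 * a * q ^ 4 + 3380 * a ^ 3 * q - 1335 * a * q
  ^ 3 + 2490 * a ^ 3 - 16195 * a * q ^ 2 - 33735 * a * q - 6975 * a

noncomputable def fg_5_3_10 (a q : ℝ) : ℝ :=
  10 * a ^ 2 * q ^ 4 + 560 * a ^ 2 * q ^ 3 + 5270 * a ^ 2 * q ^ 2 - 115 * q ^ 4 + 12760 * a ^
  2 * q - 5610 * q ^ 3 + 5475 * a ^ 2 - 30440 * q ^ 2 - 39360 * q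

noncomputable def fg_5_3_11 (a q : ℝ) : ℝ :=
  130 * a * q ^ 4 + 3020 * a * q ^ 3 + 16670 * a * q ^ 2 + 26680 * a * q + 5475 * a

noncomputable def fg_5_3_12 (a q : ℝ) : ℝ :=
  495 * q ^ 4 + 5940 * q ^ 3 + 21780 * q ^ 2 + 23760 * q

theorem fg_5_3 (a q : ℝ) :
    pp 1 a q (iniG a q) 5 3 = PL
      [fg_5_3_0 a q, fg_5_3_1 a q, fg_5_3_2 a q, fg_5_3_3 a q, fg_5_3_4 a q, fg_5_3_5 a q,
      fg_5_3_6 a q, fg_5_3_7 a q, fg_5_3_8 a q, fg_5_3_9 a q, fg_5_3_10 a q, fg_5_3_11 a q,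
      fg_5_3_12 a q] := by
  rw [pp, fg_4_3, fg_4_2, opA_PL, opA_PL, ← PL_addL]
  congr 1
  simp only [opL, addL, List.cons.injEq, Nat.cast_ofNat, Nat.cast_zero, Nat.cast_one]
  refine ⟨?_, ?_, ?_, ?_, ?_, ?_, ?_, ?_, ?_, ?_, ?_, ?_, ?_, trivial⟩ <;>
    (simp only [fg_5_3_0, fg_5_3_1, fg_5_3_2, fg_5_3_3, fg_5_3_4, fg_5_3_5, fg_5_3_6, fg_5_3_7, fg_5_3_8,
      fg_5_3_9, fg_5_3_10, fg_5_3_11, fg_5_3_12, fg_4_3_0, fg_4_3_1, fg_4_3_2, fg_4_3_3,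
      fg_4_3_4, fg_4_3_5, fg_4_3_6, fg_4_3_7, fg_4_3_8, fg_4_3_9, fg_4_3_10, fg_4_2_0,
      fg_4_2_1, fg_4_2_2, fg_4_2_3, fg_4_2_4, fg_4_2_5, fg_4_2_6, fg_4_2_7, fg_4_2_8,
      fg_4_2_9, fg_4_2_10]; ring)

noncomputable def fg_5_4_0 (a q : ℝ) : ℝ :=
  600 * q - 600

noncomputable def fg_5_4_1 (a q : ℝ) : ℝ :=
  600 * a * q - 600 * a

noncomputable def fg_5_4_2 (a q : ℝ) : ℝ :=
  300 * a ^ 2 * q - 300 * a ^ 2 + 240 * q ^ 2 - 420 * q + 180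

noncomputable def fg_5_4_3 (a q : ℝ) : ℝ :=
  100 * a ^ 3 * q - 100 * a ^ 3 + 240 * a * q ^ 2 - 220 * a * q - 20 * a

noncomputable def fg_5_4_4 (a q : ℝ) : ℝ :=
  25 * a ^ 4 * q - 25 * a ^ 4 + 120 * a ^ 2 * q ^ 2 - 10 * a ^ 2 * q + 45 * q ^ 3 - 110 * a ^
  2 + 15 * q ^ 2 - 60 * q

noncomputable def fg_5_4_5 (a q : ℝ) : ℝ :=
  5 * a ^ 5 * q - 5 * a ^ 5 + 40 * a ^ 3 * q ^ 2 + 30 * a ^ 3 * q + 45 * a * q ^ 3 - 70 * a ^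
  3 + 95 * a * q ^ 2 - 80 * a * q - 60 * a

noncomputable def fg_5_4_6 (a q : ℝ) : ℝ :=
  5 * a ^ 6 + 20 * a ^ 4 * q ^ 2 - 45 * a ^ 4 * q - 130 * a ^ 4 + 175 * a ^ 2 * q ^ 2 + 10 * q
  ^ 4 + 690 * a ^ 2 * q + 35 * q ^ 3 + 230 * a ^ 2 - 310 * q ^ 2 - 680 * q

noncomputable def fg_5_4_7 (a q : ℝ) : ℝ :=
  25 * a ^ 5 * q + 30 * a ^ 3 * q ^ 3 + 65 * a ^ 5 - 60 * a ^ 3 * q ^ 2 - 20 * a * q ^ 4 -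
  1115 * a ^ 3 * q + 35 * a * q ^ 3 - 980 * a ^ 3 + 2165 * a * q ^ 2 + 5135 * a * q + 1020 *
  a

noncomputable def fg_5_4_8 (a q : ℝ) : ℝ :=
  50 * a ^ 4 * q ^ 2 + 20 * a ^ 2 * q ^ 4 + 350 * a ^ 4 * q + 10 * a ^ 2 * q ^ 3 - 5 * q ^ 5 +
  425 * a ^ 4 - 2260 * a ^ 2 * q ^ 2 - 55 * q ^ 4 - 7395 * a ^ 2 * q + 1070 * q ^ 3 - 3350 *
  a ^ 2 + 7360 * q ^ 2 + 10080 * q

noncomputable def fg_5_4_9 (a q : ℝ) : ℝ :=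
  50 * a ^ 3 * q ^ 3 + 5 * a * q ^ 5 + 700 * a ^ 3 * q ^ 2 + 45 * a * q ^ 4 + 2325 * a ^ 3 * q
  - 1600 * a * q ^ 3 + 1650 * a ^ 3 - 12370 * a * q ^ 2 - 21930 * a * q - 4575 * a

noncomputable def fg_5_4_10 (a q : ℝ) : ℝ :=
  25 * a ^ 2 * q ^ 4 + 650 * a ^ 2 * q ^ 3 + 15 * q ^ 5 + 4250 * a ^ 2 * q ^ 2 - 340 * q ^ 4 +
  8725 * a ^ 2 * q - 5580 * q ^ 3 + 3675 * a ^ 2 - 22160 * q ^ 2 - 24960 * q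

noncomputable def fg_5_4_11 (a q : ℝ) : ℝ :=
  5 * a * q ^ 5 + 275 * a * q ^ 4 + 3150 * a * q ^ 3 + 12850 * a * q ^ 2 + 17845 * a * q +
  3675 * a

noncomputable def fg_5_4_12 (a q : ℝ) : ℝ :=
  40 * q ^ 5 + 800 * q ^ 4 + 5600 * q ^ 3 + 16000 * q ^ 2 + 15360 * q

theorem fg_5_4 (a q : ℝ) :
    pp 1 a q (iniG a q) 5 4 = PL
      [fg_5_4_0 a q, fg_5_4_1 a q, fg_5_4_2 a q, fg_5_4_3 a q, fg_5_4_4 a q, fg_5_4_5 a q,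
      fg_5_4_6 a q, fg_5_4_7 a q, fg_5_4_8 a q, fg_5_4_9 a q, fg_5_4_10 a q, fg_5_4_11 a q,
      fg_5_4_12 a q] := by
  rw [pp, fg_4_4, fg_4_3, opA_PL, opA_PL, ← PL_addL]
  congr 1
  simp only [opL, addL, List.cons.injEq, Nat.cast_ofNat, Nat.cast_zero, Nat.cast_one]
  refine ⟨?_, ?_, ?_, ?_, ?_, ?_, ?_, ?_, ?_, ?_, ?_, ?_, ?_, trivial⟩ <;>
    (simp only [fg_5_4_0, fg_5_4_1, fg_5_4_2, fg_5_4_3, fg_5_4_4, fg_5_4_5, fg_5_4_6, fg_5_4_7, fg_5_4_8,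
      fg_5_4_9, fg_5_4_10, fg_5_4_11, fg_5_4_12, fg_4_4_0, fg_4_4_1, fg_4_4_2, fg_4_4_3,
      fg_4_4_4, fg_4_4_5, fg_4_4_6, fg_4_4_7, fg_4_4_8, fg_4_4_9, fg_4_4_10, fg_4_3_0,
      fg_4_3_1, fg_4_3_2, fg_4_3_3, fg_4_3_4, fg_4_3_5, fg_4_3_6, fg_4_3_7, fg_4_3_8,
      fg_4_3_9, fg_4_3_10]; ring)

noncomputable def fg_5_5_0 (a q : ℝ) : ℝ :=
  120 * q - 120

noncomputable def fg_5_5_1 (a q : ℝ) : ℝ :=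
  120 * a * q - 120 * a

noncomputable def fg_5_5_2 (a q : ℝ) : ℝ :=
  60 * a ^ 2 * q - 60 * a ^ 2 + 60 * q ^ 2 - 60 * q

noncomputable def fg_5_5_3 (a q : ℝ) : ℝ :=
  20 * a ^ 3 * q - 20 * a ^ 3 + 60 * a * q ^ 2 - 20 * a * q - 40 * a

noncomputable def fg_5_5_4 (a q : ℝ) : ℝ :=
  5 * a ^ 4 * q - 5 * a ^ 4 + 30 * a ^ 2 * q ^ 2 + 10 * a ^ 2 * q + 15 * q ^ 3 - 40 * a ^ 2 +
  15 * q ^ 2 - 30 * q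

noncomputable def fg_5_5_5 (a q : ℝ) : ℝ :=
  a ^ 5 * q - a ^ 5 + 10 * a ^ 3 * q ^ 2 + 10 * a ^ 3 * q + 15 * a * q ^ 3 - 20 * a ^ 3 + 35 *
  a * q ^ 2 - 26 * a * q - 24 * a

noncomputable def fg_5_5_6 (a q : ℝ) : ℝ :=
  a ^ 6 + 5 * a ^ 4 * q ^ 2 - 10 * a ^ 4 * q - 30 * a ^ 4 + 55 * a ^ 2 * q ^ 2 + 5 * q ^ 4 +
  160 * a ^ 2 * q + 10 * q ^ 3 + 44 * a ^ 2 - 80 * q ^ 2 - 160 * q

noncomputable def fg_5_5_7 (a q : ℝ) : ℝ :=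
  6 * a ^ 5 * q + 10 * a ^ 3 * q ^ 3 + 15 * a ^ 5 - 20 * a ^ 3 * q ^ 2 - 10 * a * q ^ 4 - 275
  * a ^ 3 * q + 30 * a * q ^ 3 - 240 * a ^ 3 + 600 * a * q ^ 2 + 1219 * a * q + 240 * a

noncomputable def fg_5_5_8 (a q : ℝ) : ℝ :=
  15 * a ^ 4 * q ^ 2 + 10 * a ^ 2 * q ^ 4 + 90 * a ^ 4 * q - 10 * a ^ 2 * q ^ 3 - 5 * q ^ 5 +
  105 * a ^ 4 - 655 * a ^ 2 * q ^ 2 - 10 * q ^ 4 - 1865 * a ^ 2 * q + 380 * q ^ 3 - 840 * a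
  ^ 2 + 1960 * q ^ 2 + 2400 * q

noncomputable def fg_5_5_9 (a q : ℝ) : ℝ :=
  20 * a ^ 3 * q ^ 3 + 5 * a * q ^ 5 + 210 * a ^ 3 * q ^ 2 + 5 * a * q ^ 4 + 610 * a ^ 3 * q -
  590 * a * q ^ 3 + 420 * a ^ 3 - 3470 * a * q ^ 2 - 5505 * a * q - 1155 * a

noncomputable def fg_5_5_10 (a q : ℝ) : ℝ :=
  15 * a ^ 2 * q ^ 4 + q ^ 6 + 240 * a ^ 2 * q ^ 3 + 4 * q ^ 5 + 1245 * a ^ 2 * q ^ 2 - 180 *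
  q ^ 4 + 2280 * a ^ 2 * q - 1840 * q ^ 3 + 945 * a ^ 2 - 6016 * q ^ 2 - 6144 * q

noncomputable def fg_5_5_11 (a q : ℝ) : ℝ :=
  6 * a * q ^ 5 + 135 * a * q ^ 4 + 1080 * a * q ^ 3 + 3645 * a * q ^ 2 + 4584 * a * q + 945 *
  a

noncomputable def fg_5_5_12 (a q : ℝ) : ℝ :=
  q ^ 6 + 30 * q ^ 5 + 340 * q ^ 4 + 1800 * q ^ 3 + 4384 * q ^ 2 + 3840 * q

theorem fg_5_5 (a q : ℝ) :
    pp 1 a q (iniG a q) 5 5 = PL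
      [fg_5_5_0 a q, fg_5_5_1 a q, fg_5_5_2 a q, fg_5_5_3 a q, fg_5_5_4 a q, fg_5_5_5 a q,
      fg_5_5_6 a q, fg_5_5_7 a q, fg_5_5_8 a q, fg_5_5_9 a q, fg_5_5_10 a q, fg_5_5_11 a q,
      fg_5_5_12 a q] := by
  rw [pp, pp_zero _ _ _ _ _ _ (by omega : 4 < 5), fg_4_4, opA_PL, opA_zero, zero_add]
  congr 1
  simp only [opL, addL, List.cons.injEq, Nat.cast_ofNat, Nat.cast_zero, Nat.cast_one]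
  refine ⟨?_, ?_, ?_, ?_, ?_, ?_, ?_, ?_, ?_, ?_, ?_, ?_, ?_, trivial⟩ <;>
    (simp only [fg_5_5_0, fg_5_5_1, fg_5_5_2, fg_5_5_3, fg_5_5_4, fg_5_5_5, fg_5_5_6, fg_5_5_7, fg_5_5_8,
      fg_5_5_9, fg_5_5_10, fg_5_5_11, fg_5_5_12, fg_4_4_0, fg_4_4_1, fg_4_4_2, fg_4_4_3,
      fg_4_4_4, fg_4_4_5, fg_4_4_6, fg_4_4_7, fg_4_4_8, fg_4_4_9, fg_4_4_10]; ring)

end Pool.Agent.KIQ.POLY
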