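import Pool.Agent.KIQ.Defs
import Pool.Agent.KIM.RPB
import Pool.Agent.LOE.VEL

/-!
# REP: power series representing functions on the disc
-/

set_option autoImplicit false

open PowerSeries

namespace Pool.Agent.KIQ

theorem Rep.summable {P : ℝ⟦X⟧} {f : ℂ → ℂ} (h : Rep P f) {ρ : ℝ} (h0 : 0 ≤ ρ) (h1 : ρ < 1) :
    Summable fun n : ℕ => |coeff n P| * ρ ^ n := by
  have hn : ‖(ρ : ℂ)‖ < 1 := by rwa [Complex.norm_real, Real.norm_of_nonneg h0]
  have hs := (h (ρ : ℂ) hn).summable.norm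
  refine hs.congr fun n => ?_
  rw [norm_mul, norm_pow, Complex.norm_real, Complex.norm_real, Real.norm_of_nonneg h0,
    Real.norm_eq_abs]

theorem Rep.C (c : ℝ) : Rep (PowerSeries.C c) (fun _ => (c : ℂ)) := by
  intro z _
  have h := hasSum_single (f := fun n : ℕ => ((coeff n (PowerSeries.C c) : ℝ) : ℂ) * z ^ n) 0
    (fun n hn => by simp [coeff_C, hn])
  simpa using h

theorem Rep.one : Rep 1 (fun _ => 1) := by
  have h := Rep.C 1
  simpa using h

theorem Rep.X : Rep PowerSeries.X (fun z => z) := by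
  intro z _
  have h := hasSum_single (f := fun n : ℕ => ((coeff n (PowerSeries.X : ℝ⟦X⟧) : ℝ) : ℂ) * z ^ n) 1
    (fun n hn => by simp [coeff_X, hn])
  simpa using h

theorem Rep.add {P Q : ℝ⟦X⟧} {f g : ℂ → ℂ} (hf : Rep P f) (hg : Rep Q g) :
    Rep (P + Q) (fun z => f z + g z) := by
  intro z hz
  refine ((hf z hz).add (hg z hz)).congr_fun fun n => ?_
  rw [map_add]; push_cast; ring

theorem Rep.sub {P Q : ℝ⟦X⟧} {f g : ℂ → ℂ} (hf : Rep P f) (hg : Rep Q g) :
    Rep (P - Q) (fun z => f z - g z) := by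
  intro z hz
  refine ((hf z hz).sub (hg z hz)).congr_fun fun n => ?_
  rw [map_sub]; push_cast; ring

theorem Rep.mul {P Q : ℝ⟦X⟧} {f g : ℂ → ℂ} (hf : Rep P f) (hg : Rep Q g) :
    Rep (P * Q) (fun z => f z * g z) := by
  intro z hz
  have h1 := (hf z hz).summable.norm
  have h2 := (hg z hz).summable.norm
  have h3 := tsum_mul_tsum_eq_tsum_sum_antidiagonal_of_summable_norm h1 h2
  have h4 := (summable_norm_sum_mul_antidiagonal_of_summable_norm h1 h2).of_norm
  rw [(hf z hz).tsum_eq, (hg z hz).tsum_eq] at h3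
  have h5 := h4.hasSum
  rw [← h3] at h5
  refine h5.congr_fun fun n => ?_
  rw [coeff_mul]
  push_cast
  rw [Finset.sum_mul]
  refine Finset.sum_congr rfl fun kl hkl => ?_
  have : kl.1 + kl.2 = n := Finset.HasAntidiagonal.mem_antidiagonal.mp hkl
  rw [← this, pow_add]; ring

theorem Rep.pow {P : ℝ⟦X⟧} {f : ℂ → ℂ} (hf : Rep P f) (n : ℕ) :
    Rep (P ^ n) (fun z => f z ^ n) := by
  induction n with
  | zero => simpa using Rep.one
  | succ n ih =>
    have h := ih.mul hf
    simpa [pow_succ] using h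

private noncomputable def rep_fms (c : ℂ⟦X⟧) : FormalMultilinearSeries ℂ ℂ ℂ :=
  FormalMultilinearSeries.ofScalars ℂ (fun n => PowerSeries.coeff n c)

private theorem rep_fms_apply (c : ℂ⟦X⟧) (n : ℕ) (y : ℂ) :
    rep_fms c n (fun _ => y) = PowerSeries.coeff n c * y ^ n := by
  rw [rep_fms, FormalMultilinearSeries.ofScalars_apply_eq, smul_eq_mul]

private theorem rep_fms_norm (c : ℂ⟦X⟧) (n : ℕ) : ‖rep_fms c n‖ = ‖PowerSeries.coeff n c‖ := by
  rw [FormalMultilinearSeries.norm_apply_eq_norm_coef, rep_fms,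
    FormalMultilinearSeries.coeff_ofScalars]

private theorem rep_eball_one : Metric.eball (0 : ℂ) 1 = Metric.ball 0 1 := by
  have h := Metric.eball_coe (x := (0 : ℂ)) (ε := 1)
  simpa using h

/-- summability in the whole disc gives a power series -/
private theorem rep_fms_ball {c : ℂ⟦X⟧} {G : ℂ → ℂ}
    (h : ∀ q ∈ Metric.ball (0 : ℂ) 1, HasSum (fun n : ℕ => PowerSeries.coeff n c * q ^ n) (G q)) :
    HasFPowerSeriesOnBall G (rep_fms c) 0 1 := by
  refine ⟨?_, one_pos, ?_⟩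
  · refine ENNReal.le_of_forall_nnreal_lt fun r hr => ?_
    have hr1 : (r : ℝ) < 1 := by exact_mod_cast hr
    have hmem : ((r : ℝ) : ℂ) ∈ Metric.ball (0 : ℂ) 1 := by
      rw [mem_ball_zero_iff, Complex.norm_real, Real.norm_of_nonneg r.coe_nonneg]
      exact hr1
    refine (rep_fms c).le_radius_of_tendsto (l := 0) ?_
    have h1 := (h _ hmem).summable.tendsto_atTop_zero.norm
    rw [norm_zero] at h1
    refine h1.congr fun n => ?_
    rw [rep_fms_norm, norm_mul, norm_pow, Complex.norm_real, Real.norm_of_nonneg r.coe_nonneg]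
  · intro y hy
    rw [zero_add]
    have hy' : y ∈ Metric.ball (0 : ℂ) 1 := by
      rwa [rep_eball_one] at hy
    refine (h y hy').congr_fun ?_
    intro n
    exact rep_fms_apply c n y

private theorem Rep.hasF {P : ℝ⟦X⟧} {f : ℂ → ℂ} (hf : Rep P f) :
    HasFPowerSeriesOnBall f (rep_fms (PowerSeries.map (algebraMap ℝ ℂ) P)) 0 1 := by
  apply rep_fms_ball
  intro q hq
  rw [mem_ball_zero_iff] at hq
  refine (hf q hq).congr_fun fun n => ?_
  rw [coeff_map]; rfl

private theorem Rep.diff {P : ℝ⟦X⟧} {f : ℂ → ℂ} (hf : Rep P f) :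
    DifferentiableOn ℂ f (Metric.ball 0 1) := by
  have h := hf.hasF.differentiableOn
  rwa [rep_eball_one] at h

private theorem Rep.coef {P : ℝ⟦X⟧} {f : ℂ → ℂ} (hf : Rep P f) (n : ℕ) :
    LOE.coef n f = coeff n (PowerSeries.map (algebraMap ℝ ℂ) P) := by
  have h := hf.hasF.factorial_smul 1 n
  rw [rep_fms_apply, one_pow, mul_one, ← iteratedDeriv_eq_iteratedFDeriv] at h
  unfold LOE.coef
  rw [← h, nsmul_eq_mul]
  have : (n.factorial : ℂ) ≠ 0 := by exact_mod_cast n.factorial_ne_zero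
  field_simp

theorem Rep.rp {P : ℝ⟦X⟧} {f : ℂ → ℂ} (hf : Rep P f) (h1 : constantCoeff P = 1)
    (hs : ∀ z : ℂ, ‖z‖ < 1 → f z ∈ Complex.slitPlane) (a : ℝ) :
    Rep (KIM.rp P a) (fun z => f z ^ (a : ℂ)) := by
  have hfd := hf.diff
  have hs' : ∀ z ∈ Metric.ball (0 : ℂ) 1, f z ∈ Complex.slitPlane := fun z hz =>
    hs z (mem_ball_zero_iff.mp hz)
  have hGd : DifferentiableOn ℂ (fun z => f z ^ (a : ℂ)) (Metric.ball 0 1) :=
    hfd.cpow_const hs'
  set G : ℂ → ℂ := fun z => f z ^ (a : ℂ) with hG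
  set Fs : ℂ⟦X⟧ := PowerSeries.map (algebraMap ℝ ℂ) P with hFs
  set Gs : ℂ⟦X⟧ := PowerSeries.mk fun n => LOE.coef n G with hGs
  have hF1 : constantCoeff Fs = 1 := by
    rw [hFs, ← coeff_zero_eq_constantCoeff_apply, coeff_map, coeff_zero_eq_constantCoeff_apply, h1,
      map_one]
  have hf0 : f 0 = 1 := by
    have h := hf.coef 0
    rw [← hFs, coeff_zero_eq_constantCoeff_apply, hF1] at h
    simpa [LOE.coef] using h
  have hG0 : G 0 = 1 := by rw [hG]; simp [hf0]
  have hGs1 : constantCoeff Gs = 1 := by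
    rw [hGs, ← coeff_zero_eq_constantCoeff_apply, coeff_mk]
    simp [LOE.coef, hG0]
  have hopen : IsOpen (Metric.ball (0 : ℂ) 1) := Metric.isOpen_ball
  have hfd' : DifferentiableOn ℂ f LOE.Dk := hfd
  have hGd' : DifferentiableOn ℂ G LOE.Dk := hGd
  have hzf : DifferentiableOn ℂ (fun z => z * deriv f z) LOE.Dk :=
    differentiableOn_id.mul (hfd.deriv hopen)
  have hzG : DifferentiableOn ℂ (fun z => z * deriv G z) LOE.Dk :=
    differentiableOn_id.mul (hGd.deriv hopen)
  have hode : ∀ z ∈ Metric.ball (0 : ℂ) 1, f z * (z * deriv G z) =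
      (a : ℂ) * ((z * deriv f z) * G z) := by
    intro z hz
    have hd : HasDerivAt f (deriv f z) z :=
      ((hfd z hz).differentiableAt (hopen.mem_nhds hz)).hasDerivAt
    have hd2 := hd.cpow_const (c := (a : ℂ)) (hs' z hz)
    rw [hd2.deriv]
    have hne : f z ≠ 0 := Complex.slitPlane_ne_zero (hs' z hz)
    have e : f z ^ ((a : ℂ) - 1) * f z = G z := by
      rw [Complex.cpow_sub _ _ hne, Complex.cpow_one, div_mul_cancel₀ _ hne]
    rw [← e]; ring
  have hcoef : ∀ n, LOE.coef n (fun z => f z * (z * deriv G z)) =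
      LOE.coef n (fun z => (a : ℂ) * ((z * deriv f z) * G z)) := by
    intro n
    have he : (fun z => f z * (z * deriv G z)) =ᶠ[nhds 0]
        (fun z => (a : ℂ) * ((z * deriv f z) * G z)) := by
      filter_upwards [Metric.ball_mem_nhds (0 : ℂ) one_pos] with z hz using hode z hz
    unfold LOE.coef
    rw [he.iteratedDeriv_eq n]
  have hps : Fs * KIM.eul Gs = PowerSeries.C (a : ℂ) * KIM.eul Fs * Gs := by
    ext n
    have h := hcoef n
    have hm : DifferentiableOn ℂ (fun z => (z * deriv f z) * G z) LOE.Dk := hzf.mul hGd'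
    rw [LOE.coef_mul hfd' hzG, LOE.coef_smul hm, LOE.coef_mul hzf hGd'] at h
    rw [coeff_mul, mul_assoc, coeff_C_mul, coeff_mul,
      Finset.Nat.sum_antidiagonal_eq_sum_range_succ_mk,
      Finset.Nat.sum_antidiagonal_eq_sum_range_succ_mk]
    simp only [KIM.coeff_eul, hGs, coeff_mk]
    convert h using 1
    · refine Finset.sum_congr rfl fun i _ => ?_
      rw [LOE.coef_zderiv hGd', hf.coef]
    · congr 1
      refine Finset.sum_congr rfl fun i _ => ?_
      rw [LOE.coef_zderiv hfd', hf.coef]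
  have hGeq : Gs = KIM.rp Fs (a : ℂ) := KIM.rp_unique_eul hF1 hGs1 hps
  have hmap : PowerSeries.map (algebraMap ℝ ℂ) (KIM.rp P a) = KIM.rp Fs (a : ℂ) :=
    KIM.map_rp (algebraMap ℝ ℂ) h1 a
  intro z hz
  have ht := Complex.hasSum_taylorSeries_on_ball hGd (mem_ball_zero_iff.mpr hz)
  refine ht.congr_fun fun n => ?_
  have e : ((coeff n (KIM.rp P a) : ℝ) : ℂ) = LOE.coef n G := by
    have h2 : coeff n (PowerSeries.map (algebraMap ℝ ℂ) (KIM.rp P a)) = coeff n Gs := by
      rw [hmap, hGeq]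
    rw [coeff_map, hGs, coeff_mk] at h2
    exact h2
  rw [e]
  unfold LOE.coef
  rw [sub_zero, smul_eq_mul, smul_eq_mul]
  ring

end Pool.Agent.KIQ
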