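import Pool.Agent.KIQ.SWP

/-!
# SER: derivatives of psi
-/

set_option autoImplicit false

open PowerSeries MeasureTheory Set

namespace Pool.Agent.KIQ

theorem psi_hasDerivAt {q x : ℝ} (hq : 0 < q) (hx0 : 0 < x) (hx1 : x < 1) {F : ℕ → ℝ}
    (hF : ∀ ρ : ℝ, 0 ≤ ρ → ρ < 1 → Summable fun N => |F N| * ρ ^ N) (j : ℕ)
    {y : ℝ} (hy : 0 < y) :
    HasDerivAt (psi q F x j) (-psi q F x (j + 1) y) y := by
  have ha : ∀ N, 0 ≤ aN q N := fun N => by unfold aN; positivity
  have hS := summable_aux hq hx0 hx1 hF (j + 1)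
  have hder : ∀ (N : ℕ) (z : ℝ), z ∈ Ioi (0 : ℝ) →
      HasDerivAt (fun y => F N * x ^ N * aN q N ^ j * Real.exp (-(aN q N * y)))
        (-(F N * x ^ N * aN q N ^ (j + 1) * Real.exp (-(aN q N * z)))) z := by
    intro N z _
    have h1 : HasDerivAt (fun y => -(aN q N * y)) (-(aN q N * 1)) z :=
      ((hasDerivAt_id z).const_mul (aN q N)).neg
    have h2 := h1.exp.const_mul (F N * x ^ N * aN q N ^ j)
    refine h2.congr_deriv ?_
    ring
  have hbd : ∀ (k : ℕ) (N : ℕ) (z : ℝ), z ∈ Ioi (0 : ℝ) →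
      ‖F N * x ^ N * aN q N ^ k * Real.exp (-(aN q N * z))‖ ≤ |F N| * x ^ N * aN q N ^ k := by
    intro k N z hz
    have hz0 : (0 : ℝ) < z := hz
    have h1 : Real.exp (-(aN q N * z)) ≤ 1 := by
      apply Real.exp_le_one_iff.mpr
      have : 0 ≤ aN q N * z := mul_nonneg (ha N) hz0.le
      linarith
    rw [norm_mul, norm_mul, norm_mul, Real.norm_eq_abs, Real.norm_eq_abs, Real.norm_eq_abs,
      Real.norm_eq_abs, abs_of_pos (Real.exp_pos _), abs_of_nonneg (pow_nonneg hx0.le N),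
      abs_of_nonneg (pow_nonneg (ha N) k)]
    have h0 : 0 ≤ |F N| * x ^ N * aN q N ^ k := by
      have := ha N
      positivity
    calc |F N| * x ^ N * aN q N ^ k * Real.exp (-(aN q N * z))
        ≤ |F N| * x ^ N * aN q N ^ k * 1 := mul_le_mul_of_nonneg_left h1 h0
      _ = _ := mul_one _
  have hsum0 : Summable fun N => F N * x ^ N * aN q N ^ j * Real.exp (-(aN q N * y)) :=
    Summable.of_norm_bounded (summable_aux hq hx0 hx1 hF j) (fun N => hbd j N y hy)
  have H := hasDerivAt_tsum_of_isPreconnected hS isOpen_Ioi (convex_Ioi 0).isPreconnected hder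
    (fun N z hz => by rw [norm_neg]; exact hbd (j + 1) N z hz) (show y ∈ Ioi (0 : ℝ) from hy)
    hsum0 (show y ∈ Ioi (0 : ℝ) from hy)
  rw [tsum_neg] at H
  exact H

end Pool.Agent.KIQ
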