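import Pool.Agent.KIQ.DER

/-!
# WWL: the variable w and the bounds of the alternating terms
-/

set_option autoImplicit false

open PowerSeries

namespace Pool.Agent.KIQ

private theorem wwl_one_le {T u : ℝ} (hT : 1 ≤ T) : 1 ≤ T * Real.cosh u := by
  have h1 := Real.one_le_cosh u
  nlinarith

private theorem wwl_exp {T u : ℝ} (hT : 1 ≤ T) :
    Real.exp (ww T u) = T * Real.cosh u + Real.sqrt ((T * Real.cosh u) ^ 2 - 1) := by
  have h1 := wwl_one_le (u := u) hT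
  unfold ww
  refine Real.exp_log ?_
  have h2 := Real.sqrt_nonneg ((T * Real.cosh u) ^ 2 - 1)
  linarith

private theorem wwl_exp_neg {T u : ℝ} (hT : 1 ≤ T) :
    Real.exp (-(ww T u)) = T * Real.cosh u - Real.sqrt ((T * Real.cosh u) ^ 2 - 1) := by
  have h1 := wwl_one_le (u := u) hT
  have h2 : 0 ≤ (T * Real.cosh u) ^ 2 - 1 := by nlinarith
  have h3 := Real.sq_sqrt h2
  have h4 := Real.sqrt_nonneg ((T * Real.cosh u) ^ 2 - 1)
  have h5 : (T * Real.cosh u - Real.sqrt ((T * Real.cosh u) ^ 2 - 1)) *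
      (T * Real.cosh u + Real.sqrt ((T * Real.cosh u) ^ 2 - 1)) = 1 := by
    nlinarith
  rw [Real.exp_neg, wwl_exp hT]
  exact (eq_inv_of_mul_eq_one_left h5).symm

theorem cosh_ww {T u : ℝ} (hT : 1 ≤ T) : Real.cosh (ww T u) = T * Real.cosh u := by
  rw [Real.cosh_eq, wwl_exp hT, wwl_exp_neg hT]
  ring

private theorem wwl_sinh {T u : ℝ} (hT : 1 ≤ T) :
    Real.sinh (ww T u) = Real.sqrt ((T * Real.cosh u) ^ 2 - 1) := by
  rw [Real.sinh_eq, wwl_exp hT, wwl_exp_neg hT]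
  ring

private theorem wwl_sinh_vv (T u : ℝ) : Real.sinh (vv T u) = T * Real.sinh u := by
  unfold vv
  exact Real.sinh_arsinh _

private theorem wwl_sinh_le {T u : ℝ} (hT : 1 ≤ T) (hu : 0 < u) :
    Real.sinh (vv T u) ≤ Real.sinh (ww T u) := by
  rw [wwl_sinh hT]
  refine Real.le_sqrt_of_sq_le ?_
  rw [wwl_sinh_vv]
  have h1 := Real.cosh_sq u
  have h2 : 1 ≤ T ^ 2 := one_le_pow₀ hT
  nlinarith

theorem vv_le_ww {T u : ℝ} (hT : 1 ≤ T) (hu : 0 < u) : vv T u ≤ ww T u :=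
  Real.sinh_le_sinh.1 (wwl_sinh_le hT hu)

theorem ww_pos {T u : ℝ} (hT : 1 ≤ T) (hu : 0 < u) : 0 < ww T u :=
  lt_of_lt_of_le (vv_pos hT hu) (vv_le_ww hT hu)

private theorem wwl_coth_le {T u : ℝ} (hT : 1 ≤ T) (hu : 0 < u) :
    Real.cosh (ww T u) / Real.sinh (ww T u) ≤ 1 / th T u := by
  have hv := Real.sinh_pos_iff.2 (vv_pos hT hu)
  have hw := Real.sinh_pos_iff.2 (ww_pos hT hu)
  have h1 : 0 ≤ Real.sinh (ww T u - vv T u) :=
    Real.sinh_nonneg_iff.2 (by linarith [vv_le_ww hT hu])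
  rw [Real.sinh_sub] at h1
  unfold th
  rw [Real.tanh_eq_sinh_div_cosh, one_div_div, div_le_div_iff₀ hw hv]
  linarith

private theorem wwl_ratio {T u : ℝ} (hT : 1 ≤ T) (hu : 0 < u) :
    0 ≤ T * Real.sinh u / Real.sinh (ww T u) ∧ T * Real.sinh u / Real.sinh (ww T u) ≤ 1 := by
  have hv := Real.sinh_pos_iff.2 (vv_pos hT hu)
  have hw := Real.sinh_pos_iff.2 (ww_pos hT hu)
  rw [← wwl_sinh_vv]
  exact ⟨(div_pos hv hw).le, (div_le_one hw).2 (wwl_sinh_le hT hu)⟩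

private theorem wwl_rexp {a q T u : ℝ} (ha : 0 ≤ a) (hq : 1 ≤ q) (hT : 1 ≤ T) (hu : 0 < u) :
    (T * Real.sinh u / Real.sinh (ww T u)) ^ q * Real.exp (-(a * ww T u)) ≤
      Real.exp (-(a * vv T u)) := by
  obtain ⟨h0, h1⟩ := wwl_ratio hT hu
  have h2 : (T * Real.sinh u / Real.sinh (ww T u)) ^ q ≤ 1 :=
    Real.rpow_le_one h0 h1 (by linarith)
  have h3 : Real.exp (-(a * ww T u)) ≤ Real.exp (-(a * vv T u)) := by
    refine Real.exp_le_exp.2 ?_
    have := mul_le_mul_of_nonneg_left (vv_le_ww hT hu) ha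
    linarith
  calc (T * Real.sinh u / Real.sinh (ww T u)) ^ q * Real.exp (-(a * ww T u))
      ≤ 1 * Real.exp (-(a * ww T u)) := mul_le_mul_of_nonneg_right h2 (Real.exp_pos _).le
    _ ≤ _ := by rw [one_mul]; exact h3

theorem altG_nonneg {a q T u : ℝ} (ha : 0 ≤ a) (hq : 1 ≤ q) (hT : 1 ≤ T) (hu : 0 < u) :
    0 ≤ altG a q T u := by
  obtain ⟨h0, h1⟩ := wwl_ratio hT hu
  have hw := Real.sinh_pos_iff.2 (ww_pos hT hu)
  have hc := Real.cosh_pos (ww T u)
  have h2 : 0 ≤ Real.cosh (ww T u) / Real.sinh (ww T u) := (div_pos hc hw).le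
  have h3 : 0 ≤ (T * Real.sinh u / Real.sinh (ww T u)) ^ q := Real.rpow_nonneg h0 q
  have h4 : 0 ≤ (q - 1) + a * (Real.cosh (ww T u) / Real.sinh (ww T u)) +
      q * (Real.cosh (ww T u) / Real.sinh (ww T u)) ^ 2 := by
    have e1 := mul_nonneg ha h2
    have e2 : 0 ≤ q * (Real.cosh (ww T u) / Real.sinh (ww T u)) ^ 2 :=
      mul_nonneg (by linarith) (by positivity)
    linarith
  unfold altG
  exact mul_nonneg (mul_nonneg (mul_nonneg h3 (Real.exp_pos _).le) (by positivity)) h4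

theorem altC_nonneg {a q A B T u : ℝ} (hA : 0 ≤ A) (hB : 0 ≤ B) (hT : 1 ≤ T) (hu : 0 < u) :
    0 ≤ altC a q A B T u := by
  obtain ⟨h0, h1⟩ := wwl_ratio hT hu
  have hw := Real.sinh_pos_iff.2 (ww_pos hT hu)
  have hc := Real.cosh_pos (ww T u)
  have h2 : 0 ≤ Real.cosh (ww T u) / Real.sinh (ww T u) := (div_pos hc hw).le
  have h2' : 0 ≤ Real.sinh (ww T u) / Real.cosh (ww T u) := (div_pos hw hc).le
  have h3 : 0 ≤ (T * Real.sinh u / Real.sinh (ww T u)) ^ q := Real.rpow_nonneg h0 q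
  have h4 : 0 ≤ Real.cosh (ww T u) / Real.sinh (ww T u) + A +
      B * (Real.sinh (ww T u) / Real.cosh (ww T u)) := by
    have e1 := mul_nonneg hB h2'
    linarith
  unfold altC
  exact mul_nonneg (mul_nonneg h3 (Real.exp_pos _).le) h4

theorem altG_le {a q T u : ℝ} (ha : 0 ≤ a) (hq : 1 ≤ q) (hT : 1 ≤ T) (hu : 0 < u) :
    altG a q T u ≤ Real.exp (-(a * vv T u)) * (1 / Real.cosh (vv T u)) *
      ((q - 1) + a / th T u + q / th T u ^ 2) / RR T u := by
  have hw := Real.sinh_pos_iff.2 (ww_pos hT hu)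
  have hc := Real.cosh_pos (ww T u)
  have hcv := Real.cosh_pos (vv T u)
  have hR := RR_pos hT u
  have hth := th_pos hT hu
  have h2 : 0 ≤ Real.cosh (ww T u) / Real.sinh (ww T u) := (div_pos hc hw).le
  have hcoth := wwl_coth_le hT hu
  have hcw : Real.cosh (ww T u) = RR T u * Real.cosh (vv T u) := by
    rw [cosh_ww hT]
    unfold RR
    rw [div_mul_cancel₀ _ hcv.ne']
  have h4 : (q - 1) + a * (Real.cosh (ww T u) / Real.sinh (ww T u)) +
      q * (Real.cosh (ww T u) / Real.sinh (ww T u)) ^ 2 ≤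
      (q - 1) + a / th T u + q / th T u ^ 2 := by
    have e1 : a * (Real.cosh (ww T u) / Real.sinh (ww T u)) ≤ a * (1 / th T u) :=
      mul_le_mul_of_nonneg_left hcoth ha
    have e2 : (Real.cosh (ww T u) / Real.sinh (ww T u)) ^ 2 ≤ (1 / th T u) ^ 2 :=
      pow_le_pow_left₀ h2 hcoth 2
    have e3 : q * (Real.cosh (ww T u) / Real.sinh (ww T u)) ^ 2 ≤ q * (1 / th T u) ^ 2 :=
      mul_le_mul_of_nonneg_left e2 (by linarith)
    have e4 : a * (1 / th T u) = a / th T u := by ring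
    have e5 : q * (1 / th T u) ^ 2 = q / th T u ^ 2 := by rw [one_div_pow]; ring
    rw [e4] at e1
    rw [e5] at e3
    linarith
  have h4' : 0 ≤ (q - 1) + a * (Real.cosh (ww T u) / Real.sinh (ww T u)) +
      q * (Real.cosh (ww T u) / Real.sinh (ww T u)) ^ 2 := by
    have e1 := mul_nonneg ha h2
    have e2 : 0 ≤ q * (Real.cosh (ww T u) / Real.sinh (ww T u)) ^ 2 :=
      mul_nonneg (by linarith) (by positivity)
    linarith
  have h5 := wwl_rexp ha hq hT hu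
  have h6 : 1 / Real.cosh (ww T u) = 1 / Real.cosh (vv T u) / RR T u := by
    rw [hcw, div_div, mul_comm]
  have h7 : 0 ≤ 1 / Real.cosh (ww T u) := by positivity
  unfold altG
  calc (T * Real.sinh u / Real.sinh (ww T u)) ^ q * Real.exp (-(a * ww T u)) *
      (1 / Real.cosh (ww T u)) * ((q - 1) + a * (Real.cosh (ww T u) / Real.sinh (ww T u)) +
      q * (Real.cosh (ww T u) / Real.sinh (ww T u)) ^ 2)
      ≤ Real.exp (-(a * vv T u)) * (1 / Real.cosh (ww T u)) *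
        ((q - 1) + a / th T u + q / th T u ^ 2) := by
        refine mul_le_mul (mul_le_mul_of_nonneg_right h5 h7) h4 h4' ?_
        exact mul_nonneg (Real.exp_pos _).le h7
    _ = _ := by
        rw [h6]
        ring

theorem altC_le {a q A B T u : ℝ} (ha : 0 ≤ a) (hq : 1 ≤ q) (hA : 0 ≤ A) (hB : 0 ≤ B)
    (hT : 1 ≤ T) (hu : 0 < u) :
    altC a q A B T u ≤ Real.exp (-(a * vv T u)) * (1 / th T u + A + B) := by
  have hw := Real.sinh_pos_iff.2 (ww_pos hT hu)
  have hc := Real.cosh_pos (ww T u)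
  have h2 : 0 ≤ Real.cosh (ww T u) / Real.sinh (ww T u) := (div_pos hc hw).le
  have h2' : 0 ≤ Real.sinh (ww T u) / Real.cosh (ww T u) := (div_pos hw hc).le
  have hcoth := wwl_coth_le hT hu
  have htanh : Real.sinh (ww T u) / Real.cosh (ww T u) ≤ 1 := by
    rw [← Real.tanh_eq_sinh_div_cosh]
    exact (Real.tanh_lt_one _).le
  have h4 : Real.cosh (ww T u) / Real.sinh (ww T u) + A +
      B * (Real.sinh (ww T u) / Real.cosh (ww T u)) ≤ 1 / th T u + A + B := by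
    have e1 : B * (Real.sinh (ww T u) / Real.cosh (ww T u)) ≤ B * 1 :=
      mul_le_mul_of_nonneg_left htanh hB
    linarith
  have h4' : 0 ≤ Real.cosh (ww T u) / Real.sinh (ww T u) + A +
      B * (Real.sinh (ww T u) / Real.cosh (ww T u)) := by
    have e1 := mul_nonneg hB h2'
    linarith
  have h5 := wwl_rexp ha hq hT hu
  unfold altC
  exact mul_le_mul h5 h4 h4' (Real.exp_pos _).le

end Pool.Agent.KIQ
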